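import Pool.Agent.Lib.MP_b525bf_ag_TS.Trans

/-!
# A3: the invariant drops
-/

set_option autoImplicit false

namespace Pool.Agent.MP_b525bf_ag_TS

open scoped Classical

variable {k K : Type} [Field k] [Field K] [Algebra k K]
  {R : Subalgebra k K} {x y : K} {Dx Dy : Derivation k K K}

namespace Drop

/-! ### The maximal ideal -/

theorem mId_eq (h : Reg R x y Dx Dy) : mId R x y = Ideal.span {(⟨x, h.hx⟩ : R), ⟨y, h.hy⟩} := by
  unfold mId
  congr 1
  ext z
  simp only [Set.mem_ofPred_eq, Set.mem_insert_iff, Set.mem_singleton_iff, Subtype.ext_iff]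

theorem mId_symm (R : Subalgebra k K) (x y : K) : mId R y x = mId R x y := by
  unfold mId
  congr 1
  ext z
  exact or_comm

theorem mem_mId_iff (h : Reg R x y Dx Dy) {z : R} :
    z ∈ mId R x y ↔ ∃ u v : R, (z : K) = x * u + y * v := by
  rw [mId_eq h, Ideal.mem_span_pair]
  constructor
  · rintro ⟨u, v, hz⟩
    refine ⟨u, v, ?_⟩
    rw [← hz]
    push_cast
    ring
  · rintro ⟨u, v, hz⟩
    refine ⟨u, v, Subtype.ext ?_⟩
    push_cast
    rw [hz]
    ring

theorem x_mem (h : Reg R x y Dx Dy) : (⟨x, h.hx⟩ : R) ∈ mId R x y :=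
  Ideal.subset_span (Or.inl rfl)

theorem y_mem (h : Reg R x y Dx Dy) : (⟨y, h.hy⟩ : R) ∈ mId R x y :=
  Ideal.subset_span (Or.inr rfl)

theorem exists_scalar (h : Reg R x y Dx Dy) (r : R) :
    ∃ c : k, r - algebraMap k R c ∈ mId R x y := by
  obtain ⟨c, u, hu, v, hv, hr⟩ := h.dec r r.2
  refine ⟨c, (mem_mId_iff h).2 ⟨⟨u, hu⟩, ⟨v, hv⟩, ?_⟩⟩
  push_cast
  rw [hr]
  ring

/-- The derivations on `R`. -/
theorem left_mem (h : Reg R x y Dx Dy) {z u v : R} (hz : (z : K) = x * u + y * v)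
    (hD : (⟨Dx z, h.Dx_mem z z.2⟩ : R) ∈ mId R x y) : u ∈ mId R x y := by
  have e : u = ⟨Dx z, h.Dx_mem z z.2⟩ - ⟨x, h.hx⟩ * ⟨Dx u, h.Dx_mem u u.2⟩ -
      ⟨y, h.hy⟩ * ⟨Dx v, h.Dx_mem v v.2⟩ := by
    refine Subtype.ext ?_
    push_cast
    rw [hz, map_add, Derivation.leibniz, Derivation.leibniz, h.xx, h.xy]
    simp only [smul_eq_mul]
    ring
  rw [e]
  exact Ideal.sub_mem _ (Ideal.sub_mem _ hD (Ideal.mul_mem_right _ _ (x_mem h)))
    (Ideal.mul_mem_right _ _ (y_mem h))

theorem right_mem (h : Reg R x y Dx Dy) {z u v : R} (hz : (z : K) = x * u + y * v)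
    (hD : (⟨Dy z, h.Dy_mem z z.2⟩ : R) ∈ mId R x y) : v ∈ mId R x y := by
  have e : v = ⟨Dy z, h.Dy_mem z z.2⟩ - ⟨x, h.hx⟩ * ⟨Dy u, h.Dy_mem u u.2⟩ -
      ⟨y, h.hy⟩ * ⟨Dy v, h.Dy_mem v v.2⟩ := by
    refine Subtype.ext ?_
    push_cast
    rw [hz, map_add, Derivation.leibniz, Derivation.leibniz, h.yx, h.yy]
    simp only [smul_eq_mul]
    ring
  rw [e]
  exact Ideal.sub_mem _ (Ideal.sub_mem _ hD (Ideal.mul_mem_right _ _ (x_mem h)))
    (Ideal.mul_mem_right _ _ (y_mem h))

theorem sq_mem (h : Reg R x y Dx Dy) {z u v : R} (hz : (z : K) = x * u + y * v)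
    (hu : u ∈ mId R x y) (hv : v ∈ mId R x y) : z ∈ mId R x y ^ 2 := by
  have e : z = ⟨x, h.hx⟩ * u + ⟨y, h.hy⟩ * v := Subtype.ext (by push_cast; exact hz)
  rw [e, pow_two]
  exact Ideal.add_mem _ (Ideal.mul_mem_mul (x_mem h) hu) (Ideal.mul_mem_mul (y_mem h) hv)

/-! ### Lengths -/

theorem step_finrank (m I : Ideal R) (a : R) (hm : ∀ r : R, ∃ c : k, r - algebraMap k R c ∈ m)
    (hfd : FiniteDimensional k (R ⧸ (I ⊔ Ideal.span {a}))) :
    FiniteDimensional k (R ⧸ (I ⊔ m * Ideal.span {a})) ∧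
      Module.finrank k (R ⧸ (I ⊔ m * Ideal.span {a})) ≤
        Module.finrank k (R ⧸ (I ⊔ Ideal.span {a})) + 1 := by
  have hle : I ⊔ m * Ideal.span {a} ≤ I ⊔ Ideal.span {a} := sup_le_sup_left Ideal.mul_le_right _
  let f : (R ⧸ (I ⊔ m * Ideal.span {a})) →ₗ[k] (R ⧸ (I ⊔ Ideal.span {a})) :=
    (Ideal.Quotient.factorₐ k hle).toLinearMap
  have hf : Function.Surjective f := by
    intro z
    obtain ⟨r, rfl⟩ := Ideal.Quotient.mk_surjective z
    exact ⟨Ideal.Quotient.mk _ r, rfl⟩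
  have hker : LinearMap.ker f ≤
      Submodule.span k {(Ideal.Quotient.mk (I ⊔ m * Ideal.span {a}) a)} := by
    intro z hz
    obtain ⟨r, rfl⟩ := Ideal.Quotient.mk_surjective z
    have h1 : Ideal.Quotient.mk (I ⊔ Ideal.span {a}) r = 0 := hz
    rw [Ideal.Quotient.eq_zero_iff_mem, Submodule.mem_sup] at h1
    obtain ⟨i, hi, j, hj, rfl⟩ := h1
    obtain ⟨r', rfl⟩ := Ideal.mem_span_singleton'.1 hj
    obtain ⟨c, hc⟩ := hm r'
    rw [Submodule.mem_span_singleton]
    refine ⟨c, ?_⟩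
    have h2 : c • (Ideal.Quotient.mk (I ⊔ m * Ideal.span {a}) a) =
        Ideal.Quotient.mk (I ⊔ m * Ideal.span {a}) (algebraMap k R c * a) := by
      rw [Algebra.smul_def, map_mul]
      rfl
    rw [h2, Ideal.Quotient.eq]
    have h3 : algebraMap k R c * a - (i + r' * a) = -(i + (r' - algebraMap k R c) * a) := by ring
    rw [h3]
    refine Submodule.neg_mem _ (Submodule.add_mem_sup hi ?_)
    exact Ideal.mul_mem_mul hc (Ideal.mem_span_singleton_self a)
  have h1 : FiniteDimensional k (LinearMap.ker f) :=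
    Submodule.finiteDimensional_of_le hker
  have h2 : FiniteDimensional k ((R ⧸ (I ⊔ m * Ideal.span {a})) ⧸ LinearMap.ker f) :=
    Module.Finite.equiv (f.quotKerEquivOfSurjective hf).symm
  have h3 : FiniteDimensional k (R ⧸ (I ⊔ m * Ideal.span {a})) :=
    Module.Finite.of_submodule_quotient (LinearMap.ker f)
  refine ⟨h3, ?_⟩
  rw [← LinearMap.finrank_range_add_finrank_ker f]
  refine add_le_add (Submodule.finrank_le _) ((Submodule.finrank_mono hker).trans ?_)
  exact (finrank_span_le_card _).trans (by simp)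

/-- The ideal `J⁺`. -/
noncomputable def JP (R : Subalgebra k K) (x y : K) (s t : Bool) (H A B : R) : Ideal R :=
  Ideal.span {H} ⊔ (if s = true then Ideal.span {A} else mId R x y * Ideal.span {A}) ⊔
    (if t = true then Ideal.span {B} else mId R x y * Ideal.span {B})

/-- The ideal of all the coefficients. -/
def JW (H A B : R) : Ideal R := Ideal.span {H} ⊔ Ideal.span {A} ⊔ Ideal.span {B}

theorem JP_ff (x y : K) (H A B : R) : JP R x y false false H A B =
    Ideal.span {H} ⊔ mId R x y * Ideal.span {A} ⊔ mId R x y * Ideal.span {B} := by simp [JP]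

theorem JP_ft (x y : K) (H A B : R) : JP R x y false true H A B =
    Ideal.span {H} ⊔ mId R x y * Ideal.span {A} ⊔ Ideal.span {B} := by simp [JP]

theorem JP_tf (x y : K) (H A B : R) : JP R x y true false H A B =
    Ideal.span {H} ⊔ Ideal.span {A} ⊔ mId R x y * Ideal.span {B} := by simp [JP]

theorem JP_tt (x y : K) (H A B : R) : JP R x y true true H A B = JW H A B := by simp [JP, JW]

theorem JP_fin (h : Reg R x y Dx Dy) (s t : Bool) (H A B : R)
    (hfd : FiniteDimensional k (R ⧸ JW H A B)) :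
    FiniteDimensional k (R ⧸ JP R x y s t H A B) ∧
      Module.finrank k (R ⧸ JP R x y s t H A B) ≤ Module.finrank k (R ⧸ JW H A B) +
        ((if s = true then 0 else 1) + (if t = true then 0 else 1)) := by
  have hm := exists_scalar h
  have e1 : JW H A B = Ideal.span {H} ⊔ Ideal.span {A} ⊔ Ideal.span {B} := rfl
  have e2 : JW H A B = Ideal.span {H} ⊔ Ideal.span {B} ⊔ Ideal.span {A} := by
    rw [e1, sup_right_comm]
  cases s <;> cases t
  · rw [e1] at hfd
    obtain ⟨h1, h2⟩ := step_finrank (mId R x y) (Ideal.span {H} ⊔ Ideal.span {A}) B hm hfd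
    rw [← e1] at h2
    rw [sup_right_comm] at h1 h2
    obtain ⟨h3, h4⟩ := step_finrank (mId R x y) _ A hm h1
    rw [sup_right_comm, ← JP_ff] at h3 h4
    refine ⟨h3, ?_⟩
    simp only [Bool.false_eq_true, if_false]
    omega
  · rw [e2] at hfd
    obtain ⟨h3, h4⟩ := step_finrank (mId R x y) _ A hm hfd
    rw [← e2] at h4
    rw [sup_right_comm, ← JP_ft] at h3 h4
    refine ⟨h3, ?_⟩
    simp only [Bool.false_eq_true, if_false, if_true]
    omega
  · rw [e1] at hfd
    obtain ⟨h1, h2⟩ := step_finrank (mId R x y) (Ideal.span {H} ⊔ Ideal.span {A}) B hm hfd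
    rw [← e1] at h2
    rw [← JP_tf] at h1 h2
    refine ⟨h1, ?_⟩
    simp only [Bool.false_eq_true, if_false, if_true]
    omega
  · rw [JP_tt]
    exact ⟨hfd, by simp⟩

theorem JP_le_JW (x y : K) (s t : Bool) (H A B : R) : JP R x y s t H A B ≤ JW H A B := by
  unfold JP JW
  refine sup_le_sup (sup_le_sup le_rfl ?_) ?_
  · split_ifs
    · exact le_rfl
    · exact Ideal.mul_le_right
  · split_ifs
    · exact le_rfl
    · exact Ideal.mul_le_right

theorem H_mem (x y : K) (s t : Bool) (H A B : R) : H ∈ JP R x y s t H A B :=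
  Submodule.mem_sup_left (Submodule.mem_sup_left (Ideal.mem_span_singleton_self H))

theorem A_mem (x y : K) (t : Bool) (H A B : R) : A ∈ JP R x y true t H A B :=
  Submodule.mem_sup_left (Submodule.mem_sup_right (by
    rw [if_pos rfl]; exact Ideal.mem_span_singleton_self A))

theorem mA_mem {x y : K} (s t : Bool) (H A B : R) {r : R} (hr : r ∈ mId R x y) :
    r * A ∈ JP R x y s t H A B := by
  refine Submodule.mem_sup_left (Submodule.mem_sup_right ?_)
  split_ifs
  · exact Ideal.mul_mem_left _ _ (Ideal.mem_span_singleton_self A)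
  · exact Ideal.mul_mem_mul hr (Ideal.mem_span_singleton_self A)

theorem B_mem (x y : K) (s : Bool) (H A B : R) : B ∈ JP R x y s true H A B :=
  Submodule.mem_sup_right (by rw [if_pos rfl]; exact Ideal.mem_span_singleton_self B)

theorem mB_mem {x y : K} (s t : Bool) (H A B : R) {r : R} (hr : r ∈ mId R x y) :
    r * B ∈ JP R x y s t H A B := by
  refine Submodule.mem_sup_right ?_
  split_ifs
  · exact Ideal.mul_mem_left _ _ (Ideal.mem_span_singleton_self B)
  · exact Ideal.mul_mem_mul hr (Ideal.mem_span_singleton_self B)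

/-- A criterion for `J⁺ ≤ I`. -/
theorem JP_le (h : Reg R x y Dx Dy) {s t : Bool} {H A B : R} {I : Ideal R} (hH : H ∈ I)
    (hA1 : s = true → A ∈ I) (hA2 : s = false → (⟨x, h.hx⟩ : R) * A ∈ I ∧ (⟨y, h.hy⟩ : R) * A ∈ I)
    (hB1 : t = true → B ∈ I) (hB2 : t = false → (⟨x, h.hx⟩ : R) * B ∈ I ∧
      (⟨y, h.hy⟩ : R) * B ∈ I) : JP R x y s t H A B ≤ I := by
  have key : ∀ C : R, ((⟨x, h.hx⟩ : R) * C ∈ I ∧ (⟨y, h.hy⟩ : R) * C ∈ I) →
      mId R x y * Ideal.span {C} ≤ I := by
    intro C hC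
    rw [mId_eq h, Ideal.span_mul_span', Ideal.span_le]
    rintro z hz
    rw [Set.mem_mul] at hz
    obtain ⟨a, ha, b, hb, rfl⟩ := hz
    rw [Set.mem_singleton_iff] at hb
    subst hb
    rcases ha with rfl | ha
    · exact hC.1
    · rw [Set.mem_singleton_iff] at ha
      subst ha
      exact hC.2
  unfold JP
  refine sup_le (sup_le ?_ ?_) ?_
  · rw [Ideal.span_singleton_le_iff_mem]; exact hH
  · split_ifs with hs
    · rw [Ideal.span_singleton_le_iff_mem]; exact hA1 hs
    · exact key A (hA2 (by simpa using hs))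
  · split_ifs with ht
    · rw [Ideal.span_singleton_le_iff_mem]; exact hB1 ht
    · exact key B (hB2 (by simpa using ht))

/-! ### The point of the blowing up -/

theorem exists_char (h : Reg R x y Dx Dy) {R' : Subalgebra k K} {c : k} (hQ : QT R R' x y c) :
    ∃ χ : R →ₐ[k] k, (∀ r, r ∈ mId R x y ↔ χ r = 0) ∧
      ∀ u v : R, χ u + c * χ v ≠ 0 → ((u : K) + y / x * v) ≠ 0 ∧
        ((u : K) + y / x * v)⁻¹ ∈ R' := by
  obtain ⟨χ, h1, h2, rfl⟩ := hQ
  have hle : R ≤ qt R x y := fun z hz => Algebra.subset_adjoin (Or.inl hz)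
  have hyx : y / x ∈ qt R x y := Algebra.subset_adjoin (Or.inr rfl)
  refine ⟨χ.comp (Subalgebra.inclusion hle), ?_, ?_⟩
  · intro r
    constructor
    · intro hr
      obtain ⟨u, v, hr⟩ := (mem_mId_iff h).1 hr
      have e : Subalgebra.inclusion hle r = ⟨x, hle h.hx⟩ *
          (Subalgebra.inclusion hle u + ⟨y / x, hyx⟩ * Subalgebra.inclusion hle v) := by
        refine Subtype.ext ?_
        push_cast
        change (r : K) = x * ((u : K) + y / x * v)
        rw [hr]
        have := h.x_ne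
        field_simp
      rw [AlgHom.comp_apply, e, map_mul, h1, zero_mul]
    · intro hr
      by_contra hcon
      obtain ⟨h3, -, h4⟩ := h.unitIn.1 hcon
      have e : r * ⟨_, h4⟩ = 1 := Subtype.ext (by push_cast; exact mul_inv_cancel₀ h3)
      have e2 := congrArg (χ.comp (Subalgebra.inclusion hle)) e
      rw [map_mul, hr, zero_mul, map_one] at e2
      exact zero_ne_one e2
  · intro u v huv
    have e : χ (Subalgebra.inclusion hle u + ⟨y / x, hyx⟩ * Subalgebra.inclusion hle v) =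
        χ (Subalgebra.inclusion hle u) + c * χ (Subalgebra.inclusion hle v) := by
      rw [map_add, map_mul, h2]
    have hne : ((u : K) + y / x * v) ≠ 0 := by
      intro h0
      apply huv
      have e3 : Subalgebra.inclusion hle u + ⟨y / x, hyx⟩ * Subalgebra.inclusion hle v = 0 :=
        Subtype.ext h0
      rw [e3, map_zero] at e
      exact e.symm
    refine ⟨hne, 1, Subalgebra.inclusion hle u + ⟨y / x, hyx⟩ * Subalgebra.inclusion hle v,
      ?_, ?_⟩
    · rw [e]; exact huv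
    · push_cast
      exact inv_mul_cancel₀ hne

/-- `w` is an element of `R'` and of its ideal `J'`. -/
def PJ {R' : Subalgebra k K} (J' : Ideal R') (w : K) : Prop :=
  ∃ hw : w ∈ R', (⟨w, hw⟩ : R') ∈ J'

section PJ

variable {R' : Subalgebra k K} {J' : Ideal R'}

theorem PJ.add {w w' : K} (h : PJ J' w) (h' : PJ J' w') : PJ J' (w + w') := by
  obtain ⟨h1, h2⟩ := h
  obtain ⟨h3, h4⟩ := h'
  exact ⟨R'.add_mem h1 h3, Ideal.add_mem _ h2 h4⟩

theorem PJ.sub {w w' : K} (h : PJ J' w) (h' : PJ J' w') : PJ J' (w - w') := by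
  obtain ⟨h1, h2⟩ := h
  obtain ⟨h3, h4⟩ := h'
  exact ⟨R'.sub_mem h1 h3, Ideal.sub_mem _ h2 h4⟩

theorem PJ.mul {r w : K} (hr : r ∈ R') (h : PJ J' w) : PJ J' (r * w) := by
  obtain ⟨h1, h2⟩ := h
  exact ⟨R'.mul_mem hr h1, Ideal.mul_mem_left _ ⟨r, hr⟩ h2⟩

theorem PJ.top {w : K} (hw : w ≠ 0) (h : PJ J' w) (hi : w⁻¹ ∈ R') : J' = ⊤ := by
  obtain ⟨h1, h2⟩ := h
  rw [Ideal.eq_top_iff_one]
  have h3 := Ideal.mul_mem_left J' ⟨w⁻¹, hi⟩ h2
  have e : (⟨w⁻¹, hi⟩ : R') * ⟨w, h1⟩ = 1 := Subtype.ext (inv_mul_cancel₀ hw)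
  rwa [e] at h3

/-- The elements of `R` whose quotient by `x ^ μ` is in `J'`. -/
def JQ (hle : R ≤ R') (x : K) (μ : ℕ) (J' : Ideal R') : Ideal R where
  carrier := {z | PJ J' ((z : K) / x ^ μ)}
  add_mem' := by
    intro z w hz hw
    have h := PJ.add hz hw
    rw [← add_div] at h
    exact h
  zero_mem' := by
    have e : ((0 : R) : K) / x ^ μ = 0 := by simp
    change PJ J' (((0 : R) : K) / x ^ μ)
    rw [e]
    exact ⟨R'.zero_mem, Ideal.zero_mem _⟩
  smul_mem' := by
    intro r z hz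
    have h := PJ.mul (hle r.2) hz
    rw [← mul_div_assoc] at h
    exact h

theorem incl_JP (h : Reg R x y Dx Dy) (hle : R ≤ R') (hyx : y / x ∈ R') {μ : ℕ} {s t t' : Bool}
    (htt : t' = true → t = true) {wx wy : K} {H A B : R}
    (hA : (A : K) = if s = true then x * wx else wx)
    (hB : (B : K) = if t = true then y * wy else wy)
    (h1 : PJ J' ((H : K) / x ^ μ)) (h2 : PJ J' ((x * wx + y * wy) / x ^ μ))
    (h3 : PJ J' ((if t' = true then y * wy else x * wy) / x ^ μ)) :
    JP R x y s t H A B ≤ JQ hle x μ J' := by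
  have hx := h.x_ne
  have p1 : PJ J' (y * wy / x ^ μ) := by
    by_cases ht : t' = true
    · rwa [if_pos ht] at h3
    · rw [if_neg ht] at h3
      have := PJ.mul hyx h3
      convert this using 1
      field_simp
  have p2 : PJ J' (x * wx / x ^ μ) := by
    have := h2.sub p1
    convert this using 1
    ring
  have p3 : t = false → PJ J' (x * wy / x ^ μ) := by
    intro ht
    rwa [if_neg (fun h4 => by rw [htt h4] at ht; exact Bool.noConfusion ht)] at h3
  refine JP_le h h1 ?_ ?_ ?_ ?_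
  · intro hs
    change PJ J' ((A : K) / x ^ μ)
    rw [hA, if_pos hs]
    exact p2
  · intro hs
    rw [hs] at hA
    simp only [Bool.false_eq_true, if_false] at hA
    constructor
    · change PJ J' ((x * (A : K)) / x ^ μ)
      rw [hA]
      exact p2
    · change PJ J' ((y * (A : K)) / x ^ μ)
      rw [hA]
      have := PJ.mul hyx p2
      convert this using 1
      field_simp
  · intro ht
    change PJ J' ((B : K) / x ^ μ)
    rw [hB, if_pos ht]
    exact p1
  · intro ht
    rw [ht] at hB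
    simp only [Bool.false_eq_true, if_false] at hB
    constructor
    · change PJ J' ((x * (B : K)) / x ^ μ)
      rw [hB]
      exact p3 ht
    · change PJ J' ((y * (B : K)) / x ^ μ)
      rw [hB]
      exact p1

end PJ

/-! ### The coefficients -/

section Coeff

variable {θ : Obj k K} {s t : Bool} {γ : K}

theorem Jw_eq (hA : Ad θ R x y Dx Dy s t γ) : Jw θ R x y Dx Dy s t γ =
    JW (⟨_, hA.ah⟩ : R) ⟨_, hA.ax⟩ ⟨_, hA.ay⟩ := by
  unfold Jw JW
  rw [← Ideal.span_union, ← Ideal.span_union]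
  congr 1
  ext z
  simp only [Set.mem_ofPred_eq, Set.mem_union, Set.mem_singleton_iff, Subtype.ext_iff, or_assoc]

theorem Jw_symm (θ : Obj k K) (R : Subalgebra k K) (x y : K) (Dx Dy : Derivation k K K)
    (s t : Bool) (γ : K) : Jw θ R y x Dy Dx t s γ = Jw θ R x y Dx Dy s t γ := by
  unfold Jw
  congr 1
  ext z
  simp only [Set.mem_ofPred_eq]
  tauto

theorem Ad.symm (hA : Ad θ R x y Dx Dy s t γ) : Ad θ R y x Dy Dx t s γ :=
  ⟨hA.ne, hA.gy, hA.gx, hA.ah, hA.ay, hA.ax, by rw [Jw_symm]; exact hA.fin⟩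

theorem inv2_symm (θ : Obj k K) (R : Subalgebra k K) (x y : K) (Dx Dy : Derivation k K K)
    (s t : Bool) (γ : K) : inv2 θ R y x Dy Dx t s γ = inv2 θ R x y Dx Dy s t γ := by
  unfold inv2
  rw [Jw_symm]
  congr 1
  cases s <;> cases t <;> rfl

theorem JP_symm (x y : K) (s t : Bool) (H A B : R) :
    JP R y x t s H B A = JP R x y s t H A B := by
  unfold JP
  rw [sup_right_comm, mId_symm]

theorem JW_le (h : Reg R x y Dx Dy) (hA : Ad θ R x y Dx Dy s t γ)
    (hs : Jw θ R x y Dx Dy s t γ ≠ ⊤) :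
    JW (⟨_, hA.ah⟩ : R) ⟨_, hA.ax⟩ ⟨_, hA.ay⟩ ≤ mId R x y := by
  rw [← Jw_eq hA]
  intro z hz
  by_contra hcon
  obtain ⟨h3, -, h4⟩ := h.unitIn.1 hcon
  apply hs
  rw [Ideal.eq_top_iff_one]
  have h5 := Ideal.mul_mem_left _ ⟨_, h4⟩ hz
  have e : (⟨_, h4⟩ : R) * z = 1 := Subtype.ext (inv_mul_cancel₀ h3)
  rwa [e] at h5

theorem H_le (h : Reg R x y Dx Dy) (hA : Ad θ R x y Dx Dy s t γ)
    (hs : Jw θ R x y Dx Dy s t γ ≠ ⊤) : (⟨_, hA.ah⟩ : R) ∈ mId R x y :=
  JW_le h hA hs (Submodule.mem_sup_left (Submodule.mem_sup_left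
    (Ideal.mem_span_singleton_self _)))

theorem A_le (h : Reg R x y Dx Dy) (hA : Ad θ R x y Dx Dy s t γ)
    (hs : Jw θ R x y Dx Dy s t γ ≠ ⊤) : (⟨_, hA.ax⟩ : R) ∈ mId R x y :=
  JW_le h hA hs (Submodule.mem_sup_left (Submodule.mem_sup_right
    (Ideal.mem_span_singleton_self _)))

theorem B_le (h : Reg R x y Dx Dy) (hA : Ad θ R x y Dx Dy s t γ)
    (hs : Jw θ R x y Dx Dy s t γ ≠ ⊤) : (⟨_, hA.ay⟩ : R) ∈ mId R x y :=
  JW_le h hA hs (Submodule.mem_sup_right (Ideal.mem_span_singleton_self _))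

/-- The derivative of the function coefficient, `t = false`. -/
theorem DyH_mem (hθ : θ.Closed) (h : Reg R x y Dx Dy) (hA : Ad θ R x y Dx Dy s false γ)
    (hs : Jw θ R x y Dx Dy s false γ ≠ ⊤) :
    (⟨Dy (θ.h / γ), h.Dy_mem _ hA.ah⟩ : R) ∈ mId R x y := by
  have hγ := hA.ne
  rcases hθ.2 with h0 | h0
  · have e : (⟨Dy (θ.h / γ), h.Dy_mem _ hA.ah⟩ : R) = 0 := by
      refine Subtype.ext ?_
      change Dy (θ.h / γ) = 0
      rw [h0, zero_div, map_zero]
    rw [e]
    exact Ideal.zero_mem _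
  · have hy : lD false y Dy = Dy := rfl
    have e : (⟨Dy (θ.h / γ), h.Dy_mem _ hA.ah⟩ : R) =
        ⟨_, hA.ay⟩ - ⟨_, hA.gy⟩ * ⟨_, hA.ah⟩ := by
      refine Subtype.ext ?_
      push_cast
      rw [hy, h0]
      have e1 : θ.h = θ.h / γ * γ := by field_simp
      have e2 : Dy θ.h = Dy (θ.h / γ * γ) := by rw [← e1]
      rw [e2, Derivation.leibniz]
      simp only [smul_eq_mul]
      field_simp
      ring
    rw [e]
    exact Ideal.sub_mem _ (B_le h hA hs) (Ideal.mul_mem_left _ _ (H_le h hA hs))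

/-- The derivative of the coefficient of the boundary coordinate. -/
theorem DyA_mem (hθ : θ.Closed) (h : Reg R x y Dx Dy) (hA : Ad θ R x y Dx Dy true false γ)
    (hs : Jw θ R x y Dx Dy true false γ ≠ ⊤) :
    (⟨Dy (θ.ω (lD true x Dx) / γ), h.Dy_mem _ hA.ax⟩ : R) ∈ mId R x y := by
  have hγ := hA.ne
  have hy : lD false y Dy = Dy := rfl
  have hx : lD true x Dx = x • Dx := rfl
  have hc : ⁅x • Dx, Dy⁆ = 0 := by
    ext z
    rw [Derivation.commutator_apply]
    simp only [Derivation.smul_apply, smul_eq_mul, Derivation.leibniz, Derivation.zero_apply]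
    rw [h.yx, h.comm]
    ring
  have h1 := hθ.1 (x • Dx) Dy
  rw [hc, map_zero] at h1
  have e1 : θ.ω Dy = θ.ω Dy / γ * γ := by field_simp
  have e2 : θ.ω (x • Dx) = θ.ω (x • Dx) / γ * γ := by field_simp
  have e3 : (x • Dx) (θ.ω Dy) = x * (θ.ω Dy / γ * Dx γ + γ * Dx (θ.ω Dy / γ)) := by
    conv_lhs => rw [e1]
    rw [Derivation.smul_apply, Derivation.leibniz]
    simp only [smul_eq_mul]
  have e4 : Dy (θ.ω (x • Dx)) =
      θ.ω (x • Dx) / γ * Dy γ + γ * Dy (θ.ω (x • Dx) / γ) := by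
    conv_lhs => rw [e2]
    rw [Derivation.leibniz]
    simp only [smul_eq_mul]
  rw [e3, e4] at h1
  have e : (⟨Dy (θ.ω (lD true x Dx) / γ), h.Dy_mem _ hA.ax⟩ : R) =
      ⟨x, h.hx⟩ * ⟨Dx (θ.ω (lD false y Dy) / γ), h.Dx_mem _ hA.ay⟩ +
        ⟨_, hA.gx⟩ * ⟨_, hA.ay⟩ - ⟨_, hA.gy⟩ * ⟨_, hA.ax⟩ := by
    refine Subtype.ext ?_
    push_cast
    rw [hx, hy, Derivation.smul_apply, smul_eq_mul]
    have h2 : γ * Dy (θ.ω (x • Dx) / γ) = x * (θ.ω Dy / γ * Dx γ + γ * Dx (θ.ω Dy / γ)) -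
        θ.ω (x • Dx) / γ * Dy γ := by linear_combination -h1
    have h3 : Dy (θ.ω (x • Dx) / γ) = (x * (θ.ω Dy / γ * Dx γ + γ * Dx (θ.ω Dy / γ)) -
        θ.ω (x • Dx) / γ * Dy γ) / γ := by
      rw [← h2]
      field_simp
    rw [h3]
    field_simp
    ring
  rw [e]
  refine Ideal.sub_mem _ (Ideal.add_mem _ (Ideal.mul_mem_right _ _ (x_mem h)) ?_) ?_
  · exact Ideal.mul_mem_left _ _ (B_le h hA hs)
  · exact Ideal.mul_mem_left _ _ (A_le h hA hs)

/-- The case of one boundary component and order one. -/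
theorem caseTF (hθ : θ.Closed) (h : Reg R x y Dx Dy) (hA : Ad θ R x y Dx Dy true false γ)
    (hs : Jw θ R x y Dx Dy true false γ ≠ ⊤)
    (h2 : ¬ JP R x y true false ⟨_, hA.ah⟩ ⟨_, hA.ax⟩ ⟨_, hA.ay⟩ ≤ mId R x y ^ 2) :
    ∃ z ∈ JP R x y true false ⟨_, hA.ah⟩ ⟨_, hA.ax⟩ ⟨_, hA.ay⟩, ∃ u v : R,
      (z : K) = x * u + y * v ∧ u ∉ mId R x y ∧ v ∈ mId R x y := by
  have key : ∀ z : R, z ∈ mId R x y → z ∉ mId R x y ^ 2 →
      (⟨Dy z, h.Dy_mem z z.2⟩ : R) ∈ mId R x y → ∃ u v : R,
      (z : K) = x * u + y * v ∧ u ∉ mId R x y ∧ v ∈ mId R x y := by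
    intro z hz hz2 hD
    obtain ⟨u, v, hzz⟩ := (mem_mId_iff h).1 hz
    have hv := right_mem h hzz hD
    exact ⟨u, v, hzz, fun hu => hz2 (sq_mem h hzz hu hv), hv⟩
  by_cases hH : (⟨_, hA.ah⟩ : R) ∈ mId R x y ^ 2
  · by_cases hAA : (⟨_, hA.ax⟩ : R) ∈ mId R x y ^ 2
    · exfalso
      apply h2
      rw [JP_tf]
      refine sup_le (sup_le ?_ ?_) ?_
      · rw [Ideal.span_singleton_le_iff_mem]; exact hH
      · rw [Ideal.span_singleton_le_iff_mem]; exact hAA
      · rw [pow_two]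
        refine Ideal.mul_mono_right ?_
        rw [Ideal.span_singleton_le_iff_mem]
        exact B_le h hA hs
    · obtain ⟨u, v, h3⟩ := key _ (A_le h hA hs) hAA (DyA_mem hθ h hA hs)
      exact ⟨_, A_mem x y false _ _ _, u, v, h3⟩
  · obtain ⟨u, v, h3⟩ := key _ (H_le h hA hs) hH (DyH_mem hθ h hA hs)
    exact ⟨_, H_mem x y true false _ _ _, u, v, h3⟩

/-- Without boundary components the order is at least two. -/
theorem caseFF (hθ : θ.Closed) (h : Reg R x y Dx Dy) (hA : Ad θ R x y Dx Dy false false γ)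
    (hs : Jw θ R x y Dx Dy false false γ ≠ ⊤) :
    JP R x y false false ⟨_, hA.ah⟩ ⟨_, hA.ax⟩ ⟨_, hA.ay⟩ ≤ mId R x y ^ 2 := by
  rw [JP_ff]
  refine sup_le (sup_le ?_ ?_) ?_
  · rw [Ideal.span_singleton_le_iff_mem]
    obtain ⟨u, v, hzz⟩ := (mem_mId_iff h).1 (H_le h hA hs)
    have hs' : Jw θ R y x Dy Dx false false γ ≠ ⊤ := by rw [Jw_symm]; exact hs
    have h1 := DyH_mem hθ h.symm (Ad.symm hA) hs'
    rw [mId_symm] at h1
    exact sq_mem h hzz (left_mem h hzz h1) (right_mem h hzz (DyH_mem hθ h hA hs))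
  · rw [pow_two]
    refine Ideal.mul_mono_right ?_
    rw [Ideal.span_singleton_le_iff_mem]
    exact A_le h hA hs
  · rw [pow_two]
    refine Ideal.mul_mono_right ?_
    rw [Ideal.span_singleton_le_iff_mem]
    exact B_le h hA hs

theorem mul_deriv_pow {D : Derivation k K K} (hx : D x = 1) (n : ℕ) :
    x * D (x ^ n) = n * x ^ n := by
  induction n with
  | zero => simp
  | succ n ih =>
    rw [pow_succ, Derivation.leibniz, smul_eq_mul, smul_eq_mul, hx, mul_add, mul_left_comm x x,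
      ih]
    push_cast
    ring

theorem deriv_pow {D : Derivation k K K} (hx : D x = 0) (n : ℕ) : D (x ^ n) = 0 := by
  induction n with
  | zero => simp
  | succ n ih =>
    rw [pow_succ, Derivation.leibniz, smul_eq_mul, smul_eq_mul, hx, ih]
    simp

/-- The first half of the theorem, for one chart. -/
theorem half (hθ : θ.Closed) (h : Reg R x y Dx Dy) (hA : Ad θ R x y Dx Dy s t γ)
    (hs : Jw θ R x y Dx Dy s t γ ≠ ⊤) {μ : ℕ}
    (h1 : JP R x y s t ⟨_, hA.ah⟩ ⟨_, hA.ax⟩ ⟨_, hA.ay⟩ ≤ mId R x y ^ μ)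
    (h2 : ¬ JP R x y s t ⟨_, hA.ah⟩ ⟨_, hA.ax⟩ ⟨_, hA.ay⟩ ≤ mId R x y ^ (μ + 1))
    {R' : Subalgebra k K} {c : k} (hQ : QT R R' x y c) :
    Ad θ R' x (y / x - algebraMap k K c) (Dx + (y / x) • Dy) (x • Dy) true
          (t && decide (c = 0)) (γ * x ^ μ) ∧
        (Jw θ R' x (y / x - algebraMap k K c) (Dx + (y / x) • Dy) (x • Dy) true
          (t && decide (c = 0)) (γ * x ^ μ) = ⊤ ∨
        inv2 θ R' x (y / x - algebraMap k K c) (Dx + (y / x) • Dy) (x • Dy) true
          (t && decide (c = 0)) (γ * x ^ μ) < inv2 θ R x y Dx Dy s t γ) := by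
  have hx0 := h.x_ne
  have hy0 := h.symm.x_ne
  have hγ := hA.ne
  have hle : R ≤ R' := hQ.le
  have hyx : y / x ∈ R' := hQ.div_mem
  have hxpow : x ^ μ ≠ 0 := pow_ne_zero _ hx0
  obtain ⟨χ, hχ, hinv⟩ := exists_char h hQ
  set wx : K := θ.ω Dx / γ with hwx
  set wy : K := θ.ω Dy / γ with hwy
  set H : R := ⟨_, hA.ah⟩ with hH
  set A : R := ⟨_, hA.ax⟩ with hAA
  set B : R := ⟨_, hA.ay⟩ with hBB
  have hAv : (A : K) = if s = true then x * wx else wx := by
    change θ.ω (lD s x Dx) / γ = _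
    cases s
    · rfl
    · change θ.ω (x • Dx) / γ = x * wx
      rw [map_smul, smul_eq_mul, hwx, mul_div_assoc]
  have hBv : (B : K) = if t = true then y * wy else wy := by
    change θ.ω (lD t y Dy) / γ = _
    cases t
    · rfl
    · change θ.ω (y • Dy) / γ = y * wy
      rw [map_smul, smul_eq_mul, hwy, mul_div_assoc]
  -- x / y
  have hxy : c ≠ 0 → x / y ∈ R' := by
    intro hc
    have h3 := (hinv 0 1 (by rw [map_zero, map_one]; simpa using hc)).2
    have e : (((0 : R) : K) + y / x * ((1 : R) : K))⁻¹ = x / y := by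
      rw [ZeroMemClass.coe_zero, OneMemClass.coe_one, zero_add, mul_one, inv_div]
    rwa [e] at h3
  -- memberships
  have mem : ∀ z : R, z ∈ JP R x y s t H A B → (z : K) / x ^ μ ∈ R' :=
    fun z hz => hQ.div_pow_mem h (h1 hz)
  have q1 : (H : K) / x ^ μ ∈ R' := mem H (H_mem x y s t H A B)
  have q2 : x * wx / x ^ μ ∈ R' := by
    cases s
    · have h3 := mem _ (mA_mem false t H A B (x_mem h))
      have e : (((⟨x, h.hx⟩ : R) * A : R) : K) = x * wx := by
        push_cast
        rw [hAv]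
        rfl
      rwa [e] at h3
    · have h3 := mem _ (A_mem x y t H A B)
      rwa [hAv, if_pos rfl] at h3
  have q3 : y * wy / x ^ μ ∈ R' := by
    cases t
    · have h3 := mem _ (mB_mem s false H A B (y_mem h))
      have e : (((⟨y, h.hy⟩ : R) * B : R) : K) = y * wy := by
        push_cast
        rw [hBv]
        rfl
      rwa [e] at h3
    · have h3 := mem _ (B_mem x y s H A B)
      rwa [hBv, if_pos rfl] at h3
  have q4 : (x * wx + y * wy) / x ^ μ ∈ R' := by
    rw [add_div]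
    exact R'.add_mem q2 q3
  set t' : Bool := t && decide (c = 0) with ht'
  have q5 : (if t' = true then y * wy else x * wy) / x ^ μ ∈ R' := by
    split_ifs with h3
    · exact q3
    · rw [ht'] at h3
      cases t
      · have h4 := mem _ (mB_mem s false H A B (x_mem h))
        have e : (((⟨x, h.hx⟩ : R) * B : R) : K) = x * wy := by
          push_cast
          rw [hBv]
          rfl
        rwa [e] at h4
      · have hc : c ≠ 0 := by simpa using h3
        have h4 := R'.mul_mem (hxy hc) q3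
        convert h4 using 1
        field_simp
  -- the new coefficients
  have eah : θ.h / (γ * x ^ μ) = (H : K) / x ^ μ := by
    change θ.h / (γ * x ^ μ) = θ.h / γ / x ^ μ
    rw [div_div]
  have eax : θ.ω (lD true x (Dx + (y / x) • Dy)) / (γ * x ^ μ) =
      (x * wx + y * wy) / x ^ μ := by
    have e : lD true x (Dx + (y / x) • Dy) = x • (Dx + (y / x) • Dy) := rfl
    rw [e, map_smul, map_add, map_smul, smul_eq_mul, smul_eq_mul, hwx, hwy]
    field_simp
  have eay : θ.ω (lD t' (y / x - algebraMap k K c) (x • Dy)) / (γ * x ^ μ) =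
      (if t' = true then y * wy else x * wy) / x ^ μ := by
    by_cases h3 : t' = true
    · rw [if_pos h3, h3]
      have hc : c = 0 := by
        rw [ht', Bool.and_eq_true] at h3
        simpa using h3.2
      have e : lD true (y / x - algebraMap k K c) (x • Dy) =
        (y / x - algebraMap k K c) • (x • Dy) := rfl
      rw [e, hc, map_zero, sub_zero, map_smul, map_smul, smul_eq_mul, smul_eq_mul, hwy]
      field_simp
    · rw [if_neg h3]
      have h4 : t' = false := by simpa using h3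
      rw [h4]
      have e : lD false (y / x - algebraMap k K c) (x • Dy) = x • Dy := rfl
      rw [e, map_smul, smul_eq_mul, hwy]
      field_simp
  set J' := Jw θ R' x (y / x - algebraMap k K c) (Dx + (y / x) • Dy) (x • Dy) true t'
    (γ * x ^ μ) with hJ'
  have p1 : PJ J' ((H : K) / x ^ μ) := ⟨q1, Ideal.subset_span (Or.inl eah.symm)⟩
  have p2 : PJ J' ((x * wx + y * wy) / x ^ μ) :=
    ⟨q4, Ideal.subset_span (Or.inr (Or.inl eax.symm))⟩
  have p3 : PJ J' ((if t' = true then y * wy else x * wy) / x ^ μ) :=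
    ⟨q5, Ideal.subset_span (Or.inr (Or.inr eay.symm))⟩
  have htt : t' = true → t = true := by
    intro h3
    rw [ht', Bool.and_eq_true] at h3
    exact h3.1
  have hJQ : JP R x y s t H A B ≤ JQ hle x μ J' := incl_JP h hle hyx htt hAv hBv p1 p2 p3
  -- lengths
  have hfd : FiniteDimensional k (R ⧸ JW H A B) := by
    rw [← Jw_eq hA]
    exact hA.fin
  obtain ⟨hfd2, hlen⟩ := JP_fin h s t H A B hfd
  obtain ⟨hfd3, hlen2⟩ := h.finrank_transform hQ (JP R x y s t H A B) h1 h2 J'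
    (fun z hz => hJQ hz)
  refine ⟨⟨mul_ne_zero hγ hxpow, ?_, ?_, ?_, ?_, ?_, hfd3⟩, ?_⟩
  · -- gx
    have e : lD true x (Dx + (y / x) • Dy) = x • (Dx + (y / x) • Dy) := rfl
    have h3 : x * Dx γ / γ ∈ R' := by
      cases s
      · have h4 := R'.mul_mem (hle h.hx) (hle hA.gx)
        have e2 : lD false x Dx = Dx := rfl
        rwa [e2, ← mul_div_assoc] at h4
      · exact hle hA.gx
    have h4 : y * Dy γ / γ ∈ R' := by
      cases t
      · have h5 := R'.mul_mem (hle h.hy) (hle hA.gy)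
        have e2 : lD false y Dy = Dy := rfl
        rwa [e2, ← mul_div_assoc] at h5
      · exact hle hA.gy
    have h5 := R'.add_mem (R'.add_mem h3 h4) (natCast_mem R' μ)
    convert h5 using 1
    rw [e, Derivation.smul_apply, Derivation.add_apply, Derivation.smul_apply,
      Derivation.leibniz, Derivation.leibniz, deriv_pow h.yx]
    simp only [smul_eq_mul, mul_zero, zero_add]
    have h6 := mul_deriv_pow h.xx μ
    field_simp
    linear_combination γ * h6
  · -- gy
    have h0 : (x • Dy) (γ * x ^ μ) = x ^ μ * (x * Dy γ) := by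
      rw [Derivation.smul_apply, Derivation.leibniz, deriv_pow h.yx]
      simp only [smul_eq_mul, mul_zero, zero_add]
      ring
    by_cases h3 : t' = true
    · have hc : c = 0 := by
        rw [ht', Bool.and_eq_true] at h3
        simpa using h3.2
      have ht := htt h3
      rw [h3]
      have e : lD true (y / x - algebraMap k K c) (x • Dy) =
        (y / x - algebraMap k K c) • (x • Dy) := rfl
      rw [e, hc, map_zero, sub_zero, Derivation.smul_apply, h0, smul_eq_mul]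
      have h4 := hle hA.gy
      rw [ht] at h4
      have e2 : lD true y Dy γ = y * Dy γ := rfl
      rw [e2] at h4
      convert h4 using 1
      field_simp
    · have h4 : t' = false := by simpa using h3
      rw [h4]
      have e : lD false (y / x - algebraMap k K c) (x • Dy) = x • Dy := rfl
      rw [e, h0]
      rw [ht'] at h3
      cases t
      · have h5 := R'.mul_mem (hle h.hx) (hle hA.gy)
        have e2 : lD false y Dy = Dy := rfl
        rw [e2] at h5
        convert h5 using 1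
        field_simp
      · have hc : c ≠ 0 := by simpa using h3
        have h5 := R'.mul_mem (hxy hc) (hle hA.gy)
        have e2 : lD true y Dy γ = y * Dy γ := rfl
        rw [e2] at h5
        convert h5 using 1
        field_simp
  · rw [eah]; exact q1
  · rw [eax]; exact q4
  · rw [eay]; exact q5
  · -- the invariant
    have hμ : 1 ≤ μ := by
      by_contra h3
      have h4 : μ = 0 := by omega
      subst h4
      apply h2
      rw [zero_add, pow_one]
      exact (JP_le_JW x y s t H A B).trans (JW_le h hA hs)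
    have hm1 := h.one_le_finrank hμ
    have hm3 : 2 ≤ μ → 3 ≤ Module.finrank k (R ⧸ mId R x y ^ μ) := fun h3 =>
      h.three_le_finrank h3
    have einv : inv2 θ R x y Dx Dy s t γ =
        2 * Module.finrank k (R ⧸ JW H A B) + if s = t then 0 else 1 := by
      unfold inv2
      rw [Jw_eq hA]
    have einv' : inv2 θ R' x (y / x - algebraMap k K c) (Dx + (y / x) • Dy) (x • Dy) true
          t' (γ * x ^ μ) =
        2 * Module.finrank k (R' ⧸ J') + if true = t' then 0 else 1 := rfl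
    have hone : (if true = t' then 0 else 1) ≤ 1 := by split_ifs <;> omega
    rw [einv, einv']
    -- a unit
    have top : μ = 1 → (∃ z ∈ JP R x y s t H A B, ∃ u v : R,
        (z : K) = x * u + y * v ∧ χ u + c * χ v ≠ 0) → J' = ⊤ := by
      rintro rfl ⟨z, hz, u, v, hzz, huv⟩
      have h3 : PJ J' ((z : K) / x ^ 1) := hJQ hz
      have e : (z : K) / x ^ 1 = u + y / x * v := by
        rw [hzz]
        field_simp
      rw [e] at h3
      exact PJ.top (hinv u v huv).1 h3 (hinv u v huv).2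
    cases s <;> cases t
    · -- no boundary
      right
      have hμ2 : 2 ≤ μ := by
        by_contra h3
        have h4 : μ = 1 := by omega
        subst h4
        exact h2 (caseFF hθ h hA hs)
      have h5 := hm3 hμ2
      simp only [Bool.false_eq_true, if_false, if_true] at hlen ⊢
      omega
    · -- boundary y
      by_cases hμ2 : 2 ≤ μ
      · right
        have h5 := hm3 hμ2
        simp only [Bool.false_eq_true, if_false, if_true] at hlen ⊢
        omega
      · have h4 : μ = 1 := by omega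
        by_cases hc : c = 0
        · right
          have h6 : t' = true := by rw [ht', hc]; simp
          rw [h6]
          simp only [Bool.false_eq_true, if_false, if_true] at hlen ⊢
          omega
        · left
          refine top h4 ?_
          subst h4
          have hs' : Jw θ R y x Dy Dx true false γ ≠ ⊤ := by rw [Jw_symm]; exact hs
          have h2' : ¬ JP R y x true false ⟨_, (Ad.symm hA).ah⟩ ⟨_, (Ad.symm hA).ax⟩
              ⟨_, (Ad.symm hA).ay⟩ ≤ mId R y x ^ 2 := by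
            rw [JP_symm, mId_symm]
            exact h2
          obtain ⟨z, hz, u, v, hzz, hu, hv⟩ := caseTF hθ h.symm (Ad.symm hA) hs' h2'
          rw [JP_symm] at hz
          rw [mId_symm] at hu hv
          refine ⟨z, hz, v, u, by rw [hzz]; ring, ?_⟩
          rw [(hχ v).1 hv, zero_add]
          exact mul_ne_zero hc fun h7 => hu ((hχ u).2 h7)
    · -- boundary x
      by_cases hμ2 : 2 ≤ μ
      · right
        have h5 := hm3 hμ2
        simp only [Bool.false_eq_true, if_false, if_true] at hlen ⊢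
        omega
      · have h4 : μ = 1 := by omega
        left
        refine top h4 ?_
        subst h4
        obtain ⟨z, hz, u, v, hzz, hu, hv⟩ := caseTF hθ h hA hs h2
        refine ⟨z, hz, u, v, hzz, ?_⟩
        rw [(hχ v).1 hv, mul_zero, add_zero]
        exact fun h7 => hu ((hχ u).2 h7)
    · right
      simp only [if_true] at hlen ⊢
      omega

end Coeff

end Drop

open Drop

/-- The exponents can be changed by a unit. -/
theorem Ad.mul_unit {θ : Obj k K} {s t : Bool} {γ v : K} (h : Reg R x y Dx Dy)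
    (hA : Ad θ R x y Dx Dy s t γ) (hv : UnitIn R v) :
    Ad θ R x y Dx Dy s t (γ * v) ∧
      Jw θ R x y Dx Dy s t (γ * v) = Jw θ R x y Dx Dy s t γ := by
  obtain ⟨hv0, hvR, hvi⟩ := hv
  have hγ := hA.ne
  -- the logarithmic derivations preserve `R`
  have hlD : ∀ (b : Bool) (a : K) (D : Derivation k K K), a ∈ R → (∀ z ∈ R, D z ∈ R) →
      lD b a D v ∈ R := by
    intro b a D ha hD
    cases b
    · exact hD v hvR
    · exact R.mul_mem ha (hD v hvR)
  have hg : ∀ D : Derivation k K K, D γ / γ ∈ R → D v ∈ R → D (γ * v) / (γ * v) ∈ R := by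
    intro D h1 h2
    have h3 := R.add_mem h1 (R.mul_mem h2 hvi)
    convert h3 using 1
    rw [Derivation.leibniz, smul_eq_mul, smul_eq_mul]
    field_simp
    ring
  have e : ∀ w : K, w / (γ * v) = w / γ * v⁻¹ := by
    intro w
    field_simp
  have ah : θ.h / (γ * v) ∈ R := by rw [e]; exact R.mul_mem hA.ah hvi
  have ax : θ.ω (lD s x Dx) / (γ * v) ∈ R := by rw [e]; exact R.mul_mem hA.ax hvi
  have ay : θ.ω (lD t y Dy) / (γ * v) ∈ R := by rw [e]; exact R.mul_mem hA.ay hvi
  have hu : IsUnit (⟨v⁻¹, hvi⟩ : R) := by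
    refine IsUnit.of_mul_eq_one ⟨v, hvR⟩ (Subtype.ext ?_)
    exact inv_mul_cancel₀ hv0
  have hJ : Jw θ R x y Dx Dy s t (γ * v) = Jw θ R x y Dx Dy s t γ := by
    rw [Jw_eq hA]
    have e1 : Jw θ R x y Dx Dy s t (γ * v) = JW (⟨_, ah⟩ : R) ⟨_, ax⟩ ⟨_, ay⟩ := by
      unfold Jw JW
      rw [← Ideal.span_union, ← Ideal.span_union]
      congr 1
      ext z
      simp only [Set.mem_ofPred_eq, Set.mem_union, Set.mem_singleton_iff, Subtype.ext_iff,
        or_assoc]
    have e2 : (⟨_, ah⟩ : R) = ⟨_, hA.ah⟩ * ⟨v⁻¹, hvi⟩ := Subtype.ext (e _)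
    have e3 : (⟨_, ax⟩ : R) = ⟨_, hA.ax⟩ * ⟨v⁻¹, hvi⟩ := Subtype.ext (e _)
    have e4 : (⟨_, ay⟩ : R) = ⟨_, hA.ay⟩ * ⟨v⁻¹, hvi⟩ := Subtype.ext (e _)
    rw [e1, e2, e3, e4]
    unfold JW
    rw [Ideal.span_singleton_mul_right_unit hu, Ideal.span_singleton_mul_right_unit hu,
      Ideal.span_singleton_mul_right_unit hu]
  refine ⟨⟨mul_ne_zero hγ hv0, hg _ hA.gx (hlD s x Dx h.hx h.Dx_mem),
    hg _ hA.gy (hlD t y Dy h.hy h.Dy_mem), ah, ax, ay, ?_⟩, hJ⟩
  rw [hJ]
  exact hA.fin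

/-- The normal form theorem for closed objects on surfaces: the step. The number `μ` is the order
of the object along the exceptional curve. -/
theorem Ad.drop {θ : Obj k K} (hθ : θ.Closed) {s t : Bool} {γ : K}
    (h : Reg R x y Dx Dy) (hA : Ad θ R x y Dx Dy s t γ) (hs : Jw θ R x y Dx Dy s t γ ≠ ⊤) :
    ∃ μ : ℕ,
      (∀ (R' : Subalgebra k K) (c : k), QT R R' x y c →
        Ad θ R' x (y / x - algebraMap k K c) (Dx + (y / x) • Dy) (x • Dy) true
          (t && decide (c = 0)) (γ * x ^ μ) ∧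
        (Jw θ R' x (y / x - algebraMap k K c) (Dx + (y / x) • Dy) (x • Dy) true
          (t && decide (c = 0)) (γ * x ^ μ) = ⊤ ∨
        inv2 θ R' x (y / x - algebraMap k K c) (Dx + (y / x) • Dy) (x • Dy) true
          (t && decide (c = 0)) (γ * x ^ μ) < inv2 θ R x y Dx Dy s t γ)) ∧
      ∀ R' : Subalgebra k K, QT R R' y x 0 →
        Ad θ R' (x / y) y (y • Dx) (Dy + (x / y) • Dx) s true (γ * y ^ μ) ∧
        (Jw θ R' (x / y) y (y • Dx) (Dy + (x / y) • Dx) s true (γ * y ^ μ) = ⊤ ∨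
        inv2 θ R' (x / y) y (y • Dx) (Dy + (x / y) • Dx) s true (γ * y ^ μ) <
          inv2 θ R x y Dx Dy s t γ) := by
  have hfd : FiniteDimensional k (R ⧸ JW (⟨_, hA.ah⟩ : R) ⟨_, hA.ax⟩ ⟨_, hA.ay⟩) := by
    rw [← Jw_eq hA]
    exact hA.fin
  obtain ⟨hfd2, -⟩ := JP_fin h s t (⟨_, hA.ah⟩ : R) ⟨_, hA.ax⟩ ⟨_, hA.ay⟩ hfd
  obtain ⟨μ, h1, h2⟩ := h.exists_order (JP R x y s t (⟨_, hA.ah⟩ : R) ⟨_, hA.ax⟩ ⟨_, hA.ay⟩)
  refine ⟨μ, fun R' c hQ => half hθ h hA hs h1 h2 hQ, fun R' hQ => ?_⟩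
  have hs' : Jw θ R y x Dy Dx t s γ ≠ ⊤ := by rw [Jw_symm]; exact hs
  have h1' : JP R y x t s ⟨_, (Ad.symm hA).ah⟩ ⟨_, (Ad.symm hA).ax⟩
      ⟨_, (Ad.symm hA).ay⟩ ≤ mId R y x ^ μ := by
    rw [JP_symm, mId_symm]
    exact h1
  have h2' : ¬ JP R y x t s ⟨_, (Ad.symm hA).ah⟩ ⟨_, (Ad.symm hA).ax⟩
      ⟨_, (Ad.symm hA).ay⟩ ≤ mId R y x ^ (μ + 1) := by
    rw [JP_symm, mId_symm]
    exact h2
  have key := half hθ h.symm (Ad.symm hA) hs' h1' h2' hQ
  simp only [map_zero, sub_zero, decide_true, Bool.and_true] at key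
  obtain ⟨k1, k2⟩ := key
  refine ⟨Ad.symm k1, ?_⟩
  rw [Jw_symm, inv2_symm] at k2
  rw [← inv2_symm θ R x y]
  exact k2

end Pool.Agent.MP_b525bf_ag_TS
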