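import Pool.Agent.Lib.MP_b525bf_ag_TS.PtsA

/-!
# A4: valuations under the blowing up of a point of a surface
-/

set_option autoImplicit false

namespace Pool.Agent.MP_b525bf_ag_TS

variable {k K : Type} [Field k] [Field K] [Algebra k K]
  {R : Subalgebra k K} {x y : K} {Dx Dy : Derivation k K K}

theorem Val.mul_unit {V : Subalgebra k K} (hV : Val R x V) {v : K} (hv : UnitIn R v) :
    Val R (x * v) V := by
  obtain ⟨h1, h2, h3, h4⟩ := hV
  refine ⟨R.mul_mem h1 hv.2.1, h2, ?_, ?_⟩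
  · intro h
    apply h3
    have h5 : x⁻¹ = v * (x * v)⁻¹ := by
      rw [mul_inv, mul_comm x⁻¹, ← mul_assoc, mul_inv_cancel₀ hv.1, one_mul]
    rw [h5]
    exact V.mul_mem (h2 hv.2.1) h
  · intro z hz hzu
    refine h4 z hz fun u hu h5 => ?_
    refine hzu (v⁻¹ * u) (R.mul_mem hv.2.2 hu) ?_
    rw [h5, mul_assoc, mul_inv_cancel_left₀ hv.1]

theorem RegC.flat_rs_aux {S C : Type} [CommRing S] [CommRing C] [Algebra S C]
    [Module.Flat S C] {p q : S} (hpq : ∀ c, p ∣ q * c → p ∣ c)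
    {a b : C} (hab : algebraMap S C p * a = algebraMap S C q * b) :
    ∃ w, b = algebraMap S C p * w := by
  have h2 : ∑ i, ![p, -q] i • ![a, b] i = 0 := by
    rw [Fin.sum_univ_two]
    simp only [Matrix.cons_val_zero, Matrix.cons_val_one, Algebra.smul_def, map_neg]
    rw [hab]; ring
  obtain ⟨m, c, t, h3, h4⟩ := Module.Flat.isTrivialRelation_of_sum_smul_eq_zero (R := S)
    (M := C) (f := ![p, -q]) (x := ![a, b]) h2
  have h5 : ∀ j, p ∣ c 1 j := by
    intro j
    have h6 := h4 j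
    rw [Fin.sum_univ_two] at h6
    simp only [Matrix.cons_val_zero, Matrix.cons_val_one] at h6
    exact hpq _ ⟨c 0 j, by linear_combination -h6⟩
  choose d hd using h5
  refine ⟨∑ j, d j • t j, ?_⟩
  have h7 : b = ∑ j, c 1 j • t j := h3 1
  rw [h7, Finset.mul_sum]
  refine Finset.sum_congr rfl fun j _ => ?_
  rw [hd j, Algebra.smul_def, map_mul, Algebra.smul_def, mul_assoc]

/-- The variables are a regular sequence on a flat algebra over a polynomial ring. -/
theorem RegC.flat_rs {C : Type} [CommRing C] (φ : MvPolynomial (Fin 2) k →+* C) (hφ : φ.Flat)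
    {a b : C} (hab : φ (MvPolynomial.X 0) * a = φ (MvPolynomial.X 1) * b) :
    ∃ w, b = φ (MvPolynomial.X 0) * w := by
  let _ := φ.toAlgebra
  have : Module.Flat (MvPolynomial (Fin 2) k) C := hφ
  refine RegC.flat_rs_aux (S := MvPolynomial (Fin 2) k) (p := MvPolynomial.X 0)
    (q := MvPolynomial.X 1) ?_ hab
  intro c hc
  rcases MvPolynomial.X_dvd_mul_iff.mp hc with h8 | h8
  · rw [MvPolynomial.X_dvd_X] at h8
    exact absurd h8 (by decide)
  · exact h8

/-- The relations between the coordinates are trivial. -/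
theorem Reg.rs (h : Reg R x y Dx Dy) {u v : K} (hu : u ∈ R) (hv : v ∈ R) (huv : x * u = y * v) :
    ∃ w ∈ R, v = x * w := by
  obtain ⟨C, χ, hx, hy, rfl, hχx, hχy, het⟩ := h.et
  obtain ⟨a, b, hb, hab⟩ := hu
  obtain ⟨a', b', hb', hab'⟩ := hv
  have hfl := ((RingHom.etale_iff_formallyUnramified_and_smooth _).mp het).2.flat
  have h1 : (⟨x, hx⟩ : C) * (a * b') = ⟨y, hy⟩ * (a' * b) := by
    apply Subtype.ext
    push_cast
    rw [← hab, ← hab']
    linear_combination (b : K) * (b' : K) * huv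
  have h0 : (MvPolynomial.aeval ![(⟨x, hx⟩ : C), ⟨y, hy⟩] :
      MvPolynomial (Fin 2) k →ₐ[k] C).toRingHom (MvPolynomial.X 0) = ⟨x, hx⟩ := by
    show (MvPolynomial.aeval ![(⟨x, hx⟩ : C), ⟨y, hy⟩] :
      MvPolynomial (Fin 2) k →ₐ[k] C) (MvPolynomial.X 0) = ⟨x, hx⟩
    rw [MvPolynomial.aeval_X]; rfl
  have h0' : (MvPolynomial.aeval ![(⟨x, hx⟩ : C), ⟨y, hy⟩] :
      MvPolynomial (Fin 2) k →ₐ[k] C).toRingHom (MvPolynomial.X 1) = ⟨y, hy⟩ := by
    show (MvPolynomial.aeval ![(⟨x, hx⟩ : C), ⟨y, hy⟩] :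
      MvPolynomial (Fin 2) k →ₐ[k] C) (MvPolynomial.X 1) = ⟨y, hy⟩
    rw [MvPolynomial.aeval_X]; rfl
  obtain ⟨w, hw⟩ := RegC.flat_rs _ hfl (a := a * b') (b := a' * b) (by rw [h0, h0']; exact h1)
  rw [h0] at hw
  have h7 := congrArg (fun z : C => (z : K)) hw
  simp only [MulMemClass.coe_mul] at h7
  have hb0 := ne_zero_of_char hb
  have hb0' := ne_zero_of_char hb'
  refine ⟨(w : K) * ((b : K)⁻¹ * (b' : K)⁻¹), ?_, ?_⟩
  · exact Subalgebra.mul_mem _ (le_ptLoc w.2)
      (Subalgebra.mul_mem _ (ptLoc_mem b hb).2.2 (ptLoc_mem b' hb').2.2)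
  · rw [← hab'] at h7
    field_simp
    linear_combination h7

/-- Symmetric data of a two-dimensional regular local ring. -/
structure RegC (R : Subalgebra k K) (x y : K) : Prop where
  hx : x ∈ R
  hy : y ∈ R
  x0 : x ≠ 0
  y0 : y ≠ 0
  dec : ∀ z ∈ R, ∃ c : k, ∃ u ∈ R, ∃ v ∈ R, z = algebraMap k K c + x * u + y * v
  inv : ∀ z ∈ R, (∀ u ∈ R, ∀ v ∈ R, z ≠ x * u + y * v) → z⁻¹ ∈ R
  one : ∀ u ∈ R, ∀ v ∈ R, (1 : K) ≠ x * u + y * v
  rs : ∀ u ∈ R, ∀ v ∈ R, x * u = y * v → ∃ w ∈ R, v = x * w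

theorem Reg.regC (h : Reg R x y Dx Dy) : RegC R x y where
  hx := h.hx
  hy := h.hy
  x0 := by
    intro h0
    have h1 := h.xx
    rw [h0, map_zero] at h1
    exact zero_ne_one h1
  y0 := by
    intro h0
    have h1 := h.yy
    rw [h0, map_zero] at h1
    exact zero_ne_one h1
  dec := h.dec
  inv := h.inv
  one := h.one
  rs := fun _ hu _ hv huv => h.rs hu hv huv

namespace RegC

theorem symm (h : RegC R x y) : RegC R y x where
  hx := h.hy
  hy := h.hx
  x0 := h.y0
  y0 := h.x0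
  dec z hz := by
    obtain ⟨c, u, hu, v, hv, h1⟩ := h.dec z hz
    exact ⟨c, v, hv, u, hu, by rw [h1]; ring⟩
  inv z hz hzu := h.inv z hz fun u hu v hv h1 => hzu v hv u hu (by rw [h1]; ring)
  one u hu v hv h1 := h.one v hv u hu (by rw [h1]; ring)
  rs u hu v hv huv := by
    obtain ⟨w, hw, h1⟩ := h.rs v hv u hu huv.symm
    refine ⟨w, hw, ?_⟩
    rw [h1] at huv
    exact mul_left_cancel₀ h.x0 (by rw [← huv]; ring)

variable (h : RegC R x y)
include h

theorem div_mem : y / x ∈ qt R x y := Algebra.subset_adjoin (Or.inr rfl)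

omit h in
theorem le_qt : R ≤ qt R x y := fun _ hz => Algebra.subset_adjoin (Or.inl hz)

theorem aeval_mem (P : Polynomial k) : Polynomial.aeval (y / x) P ∈ qt R x y := by
  have h1 := (Polynomial.aeval (⟨y / x, h.div_mem⟩ : qt R x y) P).2
  rwa [← Subalgebra.aeval_coe] at h1

/-- Elements of the chart are polynomials in `y / x` with coefficients in `R`. -/
theorem exists_poly {a : K} (ha : a ∈ qt R x y) :
    ∃ P : Polynomial R, Polynomial.aeval (y / x) P = a := by
  unfold qt at ha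
  induction ha using Algebra.adjoin_induction with
  | mem z hz =>
    rcases hz with hz | hz
    · exact ⟨Polynomial.C ⟨z, hz⟩, by rw [Polynomial.aeval_C]; rfl⟩
    · exact ⟨Polynomial.X, by rw [Polynomial.aeval_X]; exact hz.symm⟩
  | algebraMap r => exact ⟨Polynomial.C (algebraMap k R r), by rw [Polynomial.aeval_C]; rfl⟩
  | add z w _ _ ihz ihw =>
    obtain ⟨P, hP⟩ := ihz
    obtain ⟨Q, hQ⟩ := ihw
    exact ⟨P + Q, by rw [map_add, hP, hQ]⟩
  | mul z w _ _ ihz ihw =>
    obtain ⟨P, hP⟩ := ihz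
    obtain ⟨Q, hQ⟩ := ihw
    exact ⟨P * Q, by rw [map_mul, hP, hQ]⟩

theorem exists_sum {a : K} (ha : a ∈ qt R x y) :
    ∃ (N : ℕ) (r : ℕ → K), (∀ i, r i ∈ R) ∧ (∀ i, N ≤ i → r i = 0) ∧
      ∀ M, N ≤ M → a = ∑ i ∈ Finset.range M, r i * (y / x) ^ i := by
  obtain ⟨P, hP⟩ := h.exists_poly ha
  refine ⟨P.natDegree + 1, fun i => P.coeff i, fun i => (P.coeff i).2, fun i hi => ?_,
    fun M hM => ?_⟩
  · show ((P.coeff i : R) : K) = 0
    rw [Polynomial.coeff_eq_zero_of_natDegree_lt (by omega)]; rfl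
  · rw [← hP, Polynomial.aeval_eq_sum_range' (by omega : P.natDegree < M)]
    rfl

/-- The coefficients of a relation are in the maximal ideal. -/
theorem coeff_mem (N : ℕ) : ∀ r : ℕ → K, (∀ i, r i ∈ R) →
    ∑ i ∈ Finset.range N, r i * (y / x) ^ i = 0 → ∀ i < N, ∃ u ∈ R, ∃ v ∈ R, r i = x * u + y * v := by
  induction N with
  | zero => intro r _ _ i hi; omega
  | succ N ih =>
    intro r hr hsum i hi
    rcases Nat.eq_zero_or_pos N with hN | hN
    · subst hN
      rw [Finset.sum_range_one, pow_zero, mul_one] at hsum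
      have : i = 0 := by omega
      subst this
      exact ⟨0, R.zero_mem, 0, R.zero_mem, by rw [hsum]; ring⟩
    · -- the leading coefficient is divisible by x
      have hx0 := h.x0
      have h1 : ∀ m, ∀ v ∈ R, (∃ u ∈ R, x * u = y ^ m * v) → ∃ w ∈ R, v = x * w := by
        intro m
        induction m with
        | zero =>
          rintro v hv ⟨u, hu, huv⟩
          exact ⟨u, hu, by rw [huv]; ring⟩
        | succ m ihm =>
          rintro v hv ⟨u, hu, huv⟩
          obtain ⟨w, hw, hw'⟩ := h.rs u hu (y ^ m * v) (R.mul_mem (R.pow_mem h.hy m) hv)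
            (by rw [huv]; ring)
          exact ihm v hv ⟨w, hw, hw'.symm⟩
      have h2 : ∃ u ∈ R, x * u = y ^ N * r N := by
        refine ⟨-∑ i ∈ Finset.range N, r i * (y ^ i * x ^ (N - 1 - i)), ?_, ?_⟩
        · refine R.neg_mem (R.sum_mem fun i _ => R.mul_mem (hr i) ?_)
          exact R.mul_mem (R.pow_mem h.hy i) (R.pow_mem h.hx _)
        · have h3 : x ^ N * ∑ i ∈ Finset.range (N + 1), r i * (y / x) ^ i = 0 := by
            rw [hsum, mul_zero]
          rw [Finset.sum_range_succ, mul_add, Finset.mul_sum] at h3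
          have h4 : ∑ i ∈ Finset.range N, x ^ N * (r i * (y / x) ^ i) =
              x * ∑ i ∈ Finset.range N, r i * (y ^ i * x ^ (N - 1 - i)) := by
            rw [Finset.mul_sum]
            refine Finset.sum_congr rfl fun i hi => ?_
            have hi' := Finset.mem_range.mp hi
            have h5 : x ^ N = x * x ^ (N - 1 - i) * x ^ i := by
              rw [← pow_succ', ← pow_add]; congr 1; omega
            rw [h5, div_pow]
            field_simp
          rw [h4] at h3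
          have h5 : x ^ N * (r N * (y / x) ^ N) = y ^ N * r N := by
            rw [div_pow]
            field_simp
          rw [h5] at h3
          linear_combination -h3
      obtain ⟨w, hw, hw'⟩ := h1 N (r N) (hr N) h2
      -- lower the degree
      let r' : ℕ → K := fun i => if i = N - 1 then r (N - 1) + w * y else r i
      have hr' : ∀ i, r' i ∈ R := by
        intro i
        simp only [r']
        split_ifs
        · exact R.add_mem (hr _) (R.mul_mem hw h.hy)
        · exact hr i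
      have hsum' : ∑ i ∈ Finset.range N, r' i * (y / x) ^ i = 0 := by
        rw [← hsum]
        obtain ⟨m, rfl⟩ : ∃ m, N = m + 1 := ⟨N - 1, by omega⟩
        rw [Finset.sum_range_succ, Finset.sum_range_succ, Finset.sum_range_succ]
        have h3 : ∑ i ∈ Finset.range m, r' i * (y / x) ^ i =
            ∑ i ∈ Finset.range m, r i * (y / x) ^ i := by
          refine Finset.sum_congr rfl fun i hi => ?_
          have hi' := Finset.mem_range.mp hi
          simp only [r']
          rw [if_neg (by omega)]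
        rw [h3, hw']
        simp only [r', Nat.add_sub_cancel, if_true]
        rw [pow_succ]
        field_simp
        ring
      rcases Nat.lt_or_ge i N with hiN | hiN
      · obtain ⟨u, hu, v, hv, h3⟩ := ih r' hr' hsum' i hiN
        simp only [r'] at h3
        split_ifs at h3 with h4
        · subst h4
          exact ⟨u, hu, v - w, R.sub_mem hv hw, by linear_combination h3⟩
        · exact ⟨u, hu, v, hv, h3⟩
      · have : i = N := by omega
        subst this
        exact ⟨w, hw, 0, R.zero_mem, by rw [hw']; ring⟩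

/-- Modulo `x`, every element of the chart is a polynomial in `y / x`. -/
theorem exists_red {a : K} (ha : a ∈ qt R x y) :
    ∃ P : Polynomial k, ∃ a' ∈ qt R x y, a = Polynomial.aeval (y / x) P + x * a' := by
  have hx0 := h.x0
  unfold qt at ha
  induction ha using Algebra.adjoin_induction with
  | mem z hz =>
    rcases hz with hz | hz
    · obtain ⟨c, u, hu, v, hv, h1⟩ := h.dec z hz
      refine ⟨Polynomial.C c, u + y / x * v, ?_, ?_⟩
      · exact Subalgebra.add_mem _ (le_qt hu) (Subalgebra.mul_mem _ h.div_mem (le_qt hv))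
      · rw [Polynomial.aeval_C, h1]
        field_simp
        ring
    · refine ⟨Polynomial.X, 0, Subalgebra.zero_mem _, ?_⟩
      rw [Polynomial.aeval_X, mul_zero, add_zero]
      exact hz
  | algebraMap r =>
    exact ⟨Polynomial.C r, 0, Subalgebra.zero_mem _, by rw [Polynomial.aeval_C]; ring⟩
  | add z w _ _ ihz ihw =>
    obtain ⟨P, a', ha', hP⟩ := ihz
    obtain ⟨Q, b', hb', hQ⟩ := ihw
    exact ⟨P + Q, a' + b', Subalgebra.add_mem _ ha' hb', by rw [map_add, hP, hQ]; ring⟩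
  | mul z w _ _ ihz ihw =>
    obtain ⟨P, a', ha', hP⟩ := ihz
    obtain ⟨Q, b', hb', hQ⟩ := ihw
    refine ⟨P * Q, Polynomial.aeval (y / x) P * b' + a' * Polynomial.aeval (y / x) Q +
      x * (a' * b'), ?_, by rw [map_mul, hP, hQ]; ring⟩
    refine Subalgebra.add_mem _ (Subalgebra.add_mem _ (Subalgebra.mul_mem _ (h.aeval_mem P) hb')
      (Subalgebra.mul_mem _ ha' (h.aeval_mem Q))) (Subalgebra.mul_mem _ (le_qt h.hx)
      (Subalgebra.mul_mem _ ha' hb'))

/-- No nonzero polynomial in `y / x` is divisible by `x`. -/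
theorem red_eq_zero {P : Polynomial k} {a : K} (ha : a ∈ qt R x y)
    (hP : Polynomial.aeval (y / x) P = x * a) : P = 0 := by
  obtain ⟨N, r, hr, -, hsum⟩ := h.exists_sum ha
  have hM1 := hsum (max N (P.natDegree + 1)) (le_max_left _ _)
  have hM2 : Polynomial.aeval (y / x) P =
      ∑ i ∈ Finset.range (max N (P.natDegree + 1)), algebraMap k K (P.coeff i) * (y / x) ^ i := by
    rw [Polynomial.aeval_eq_sum_range'
      (lt_of_lt_of_le (Nat.lt_succ_self _) (le_max_right _ _) : P.natDegree < _)]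
    refine Finset.sum_congr rfl fun i _ => ?_
    rw [Algebra.smul_def]
  rw [hM1, hM2, Finset.mul_sum, ← sub_eq_zero, ← Finset.sum_sub_distrib] at hP
  have h1 : ∑ i ∈ Finset.range (max N (P.natDegree + 1)),
      (algebraMap k K (P.coeff i) - x * r i) * (y / x) ^ i = 0 := by
    rw [← hP]
    exact Finset.sum_congr rfl fun i _ => by ring
  have h2 := h.coeff_mem _ (fun i => algebraMap k K (P.coeff i) - x * r i)
    (fun i => R.sub_mem (R.algebraMap_mem _) (R.mul_mem h.hx (hr i))) h1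
  by_contra hP0
  have h3 : P.coeff P.natDegree ≠ 0 := by
    rw [Polynomial.coeff_natDegree]
    exact Polynomial.leadingCoeff_ne_zero.mpr hP0
  obtain ⟨u, hu, v, hv, h4⟩ := h2 P.natDegree
    (lt_of_lt_of_le (Nat.lt_succ_self _) (le_max_right _ _))
  have h5 : algebraMap k K (P.coeff P.natDegree)⁻¹ * algebraMap k K (P.coeff P.natDegree) = 1 := by
    rw [← map_mul, inv_mul_cancel₀ h3, map_one]
  refine h.one (algebraMap k K (P.coeff P.natDegree)⁻¹ * (u + r P.natDegree))
    (R.mul_mem (R.algebraMap_mem _) (R.add_mem hu (hr _)))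
    (algebraMap k K (P.coeff P.natDegree)⁻¹ * v) (R.mul_mem (R.algebraMap_mem _) hv) ?_
  rw [← h5]
  linear_combination (algebraMap k K (P.coeff P.natDegree)⁻¹) * h4

/-- The ideal generated by `x` in the chart is prime. -/
theorem prime_x {a b : K} (ha : a ∈ qt R x y) (hb : b ∈ qt R x y)
    (ha' : ∀ u ∈ qt R x y, a ≠ x * u) (hb' : ∀ u ∈ qt R x y, b ≠ x * u) :
    ∀ u ∈ qt R x y, a * b ≠ x * u := by
  intro u hu hab
  obtain ⟨P, a', ha1, hP⟩ := h.exists_red ha
  obtain ⟨Q, b', hb1, hQ⟩ := h.exists_red hb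
  have hP0 : P ≠ 0 := by
    rintro rfl
    rw [map_zero, zero_add] at hP
    exact ha' a' ha1 hP
  have hQ0 : Q ≠ 0 := by
    rintro rfl
    rw [map_zero, zero_add] at hQ
    exact hb' b' hb1 hQ
  refine mul_ne_zero hP0 hQ0 (h.red_eq_zero (a := u - (Polynomial.aeval (y / x) P * b' +
    a' * Polynomial.aeval (y / x) Q + x * (a' * b'))) ?_ ?_)
  · refine Subalgebra.sub_mem _ hu (Subalgebra.add_mem _ (Subalgebra.add_mem _
      (Subalgebra.mul_mem _ (h.aeval_mem P) hb1) (Subalgebra.mul_mem _ ha1 (h.aeval_mem Q)))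
      (Subalgebra.mul_mem _ (le_qt h.hx) (Subalgebra.mul_mem _ ha1 hb1)))
  · rw [map_mul]
    rw [hP, hQ] at hab
    linear_combination hab

theorem one_not : ∀ u ∈ qt R x y, (1 : K) ≠ x * u := by
  intro u hu h1
  have h2 := h.red_eq_zero (P := 1) hu (by rw [map_one]; exact h1)
  exact one_ne_zero h2

/-- The valuation ring of the order at the closed point. -/
def vord : Subalgebra k K where
  carrier := {z | ∃ a ∈ qt R x y, ∃ b ∈ qt R x y, (∀ u ∈ qt R x y, b ≠ x * u) ∧ z * b = a}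
  mul_mem' := by
    rintro z w ⟨a, ha, b, hb, hb', h1⟩ ⟨c, hc, d, hd, hd', h2⟩
    refine ⟨a * c, Subalgebra.mul_mem _ ha hc, b * d, Subalgebra.mul_mem _ hb hd,
      h.prime_x hb hd hb' hd', ?_⟩
    rw [← h1, ← h2]; ring
  add_mem' := by
    rintro z w ⟨a, ha, b, hb, hb', h1⟩ ⟨c, hc, d, hd, hd', h2⟩
    refine ⟨a * d + c * b, Subalgebra.add_mem _ (Subalgebra.mul_mem _ ha hd)
      (Subalgebra.mul_mem _ hc hb), b * d, Subalgebra.mul_mem _ hb hd,
      h.prime_x hb hd hb' hd', ?_⟩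
    rw [← h1, ← h2]; ring
  algebraMap_mem' r :=
    ⟨algebraMap k K r, Subalgebra.algebraMap_mem _ r, 1, Subalgebra.one_mem _, h.one_not, by ring⟩

theorem mem_vord {z : K} : z ∈ h.vord ↔ ∃ a ∈ qt R x y, ∃ b ∈ qt R x y,
    (∀ u ∈ qt R x y, b ≠ x * u) ∧ z * b = a := Iff.rfl

/-- Passage to the other chart. -/
theorem swap_mem {a : K} (ha : a ∈ qt R y x) : ∃ N, ∀ m, N ≤ m → a * (y / x) ^ m ∈ qt R x y := by
  have hx0 := h.x0
  have hy0 := h.y0
  unfold qt at ha
  induction ha using Algebra.adjoin_induction with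
  | mem z hz =>
    rcases hz with hz | hz
    · exact ⟨0, fun m _ => Subalgebra.mul_mem _ (le_qt hz) (Subalgebra.pow_mem _ h.div_mem m)⟩
    · refine ⟨1, fun m hm => ?_⟩
      obtain ⟨m, rfl⟩ := Nat.exists_eq_add_of_le hm
      have h1 : z = x / y := hz
      have h2 : z * (y / x) ^ (1 + m) = (y / x) ^ m := by
        rw [h1, pow_add, pow_one]; field_simp
      rw [h2]
      exact Subalgebra.pow_mem _ h.div_mem m
  | algebraMap r =>
    exact ⟨0, fun m _ => Subalgebra.mul_mem _ (Subalgebra.algebraMap_mem _ r)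
      (Subalgebra.pow_mem _ h.div_mem m)⟩
  | add z w _ _ ihz ihw =>
    obtain ⟨N, hN⟩ := ihz
    obtain ⟨N', hN'⟩ := ihw
    refine ⟨max N N', fun m hm => ?_⟩
    rw [add_mul]
    exact Subalgebra.add_mem _ (hN m (le_trans (le_max_left _ _) hm))
      (hN' m (le_trans (le_max_right _ _) hm))
  | mul z w _ _ ihz ihw =>
    obtain ⟨N, hN⟩ := ihz
    obtain ⟨N', hN'⟩ := ihw
    refine ⟨N + N', fun m hm => ?_⟩
    obtain ⟨m, rfl⟩ := Nat.exists_eq_add_of_le hm
    have h1 : z * w * (y / x) ^ (N + N' + m) =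
        (z * (y / x) ^ N) * (w * (y / x) ^ (N' + m)) := by ring
    rw [h1]
    exact Subalgebra.mul_mem _ (hN N le_rfl) (hN' _ (by omega))

/-- An element of the other chart which is not divisible by `y` is not divisible by `x`. -/
theorem swap_not {a : K} (ha : a ∈ qt R y x) (ha' : ∀ u ∈ qt R y x, a ≠ y * u) :
    ∃ N, ∀ m, N ≤ m → ∀ u ∈ qt R x y, a * (y / x) ^ m ≠ x * u := by
  have hx0 := h.x0
  have hy0 := h.y0
  obtain ⟨P, a', ha1, hP⟩ := h.symm.exists_red ha
  have hP0 : P ≠ 0 := by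
    rintro rfl
    rw [map_zero, zero_add] at hP
    exact ha' a' ha1 hP
  obtain ⟨N, hN⟩ := h.swap_mem ha1
  refine ⟨max N P.natDegree, fun m hm u hu hau => ?_⟩
  have hm1 : N ≤ m := le_trans (le_max_left _ _) hm
  have hm2 : P.natDegree ≤ m := le_trans (le_max_right _ _) hm
  have hxy : x / y ≠ 0 := div_ne_zero hx0 hy0
  let _ : Invertible (x / y) := invertibleOfNonzero hxy
  have h1 : Polynomial.aeval (x / y) P * (y / x) ^ m =
      Polynomial.aeval (y / x) (Polynomial.reflect m P) := by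
    have h2 := Polynomial.eval₂_reflect_mul_pow (algebraMap k K) (x / y) m P hm2
    rw [invOf_eq_inv, inv_div] at h2
    rw [Polynomial.aeval_def, Polynomial.aeval_def, ← h2, mul_assoc, ← mul_pow]
    have h3 : x / y * (y / x) = 1 := by field_simp
    rw [h3, one_pow, mul_one]
  have h2 : Polynomial.reflect m P ≠ 0 := by
    rwa [Ne, Polynomial.reflect_eq_zero_iff]
  refine h2 (h.red_eq_zero (a := u - a' * (y / x) ^ (m + 1)) ?_ ?_)
  · exact Subalgebra.sub_mem _ hu (hN _ (by omega))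
  · rw [← h1]
    rw [hP] at hau
    have h3 : y * a' * (y / x) ^ m = x * (a' * (y / x) ^ (m + 1)) := by
      rw [pow_succ]; field_simp
    linear_combination hau - h3

/-- Multiplication by a power of `x` moves an element of the chart into `R`. -/
theorem exists_pow_R {b : K} (hb : b ∈ qt R x y) : ∃ N, ∀ m, N ≤ m → b * x ^ m ∈ R := by
  have hx0 := h.x0
  obtain ⟨N, r, hr, -, hsum⟩ := h.exists_sum hb
  refine ⟨N, fun m hm => ?_⟩
  rw [hsum N le_rfl, Finset.sum_mul]
  refine R.sum_mem fun i hi => ?_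
  have hi' := Finset.mem_range.mp hi
  have h1 : r i * (y / x) ^ i * x ^ m = r i * (y ^ i * x ^ (m - i)) := by
    have h2 : x ^ m = x ^ (m - i) * x ^ i := by rw [← pow_add]; congr 1; omega
    rw [h2, div_pow]
    field_simp
  rw [h1]
  exact R.mul_mem (hr i) (R.mul_mem (R.pow_mem h.hy i) (R.pow_mem h.hx _))

/-- Decomposition with respect to `y / x`. -/
theorem exists_dec_div {b : K} (hb : b ∈ qt R x y) :
    ∃ b₀ ∈ R, ∃ b' ∈ qt R x y, b = b₀ + y / x * b' := by
  unfold qt at hb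
  induction hb using Algebra.adjoin_induction with
  | mem z hz =>
    rcases hz with hz | hz
    · exact ⟨z, hz, 0, Subalgebra.zero_mem _, by ring⟩
    · exact ⟨0, R.zero_mem, 1, Subalgebra.one_mem _, by rw [show z = y / x from hz]; ring⟩
  | algebraMap r => exact ⟨algebraMap k K r, R.algebraMap_mem r, 0, Subalgebra.zero_mem _, by ring⟩
  | add z w _ _ ihz ihw =>
    obtain ⟨a, ha, a', ha', h1⟩ := ihz
    obtain ⟨b, hb, b', hb', h2⟩ := ihw
    exact ⟨a + b, R.add_mem ha hb, a' + b', Subalgebra.add_mem _ ha' hb', by rw [h1, h2]; ring⟩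
  | mul z w _ _ ihz ihw =>
    obtain ⟨a, ha, a', ha', h1⟩ := ihz
    obtain ⟨b, hb, b', hb', h2⟩ := ihw
    refine ⟨a * b, R.mul_mem ha hb, a * b' + a' * b + y / x * (a' * b'), ?_, by
      rw [h1, h2]; ring⟩
    exact Subalgebra.add_mem _ (Subalgebra.add_mem _ (Subalgebra.mul_mem _ (le_qt ha) hb')
      (Subalgebra.mul_mem _ ha' (le_qt hb))) (Subalgebra.mul_mem _ h.div_mem
      (Subalgebra.mul_mem _ ha' hb'))

/-- `x` is a nonzerodivisor modulo `y`. -/
theorem pow_mul_mem {m : ℕ} : ∀ a ∈ R, (∃ u ∈ R, x ^ m * a = y * u) → ∃ u ∈ R, a = y * u := by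
  induction m with
  | zero =>
    rintro a ha ⟨u, hu, h1⟩
    exact ⟨u, hu, by rw [← h1]; ring⟩
  | succ m ih =>
    rintro a ha ⟨u, hu, h1⟩
    obtain ⟨w, hw, h2⟩ := h.symm.rs u hu (x ^ m * a) (R.mul_mem (R.pow_mem h.hx m) ha)
      (by rw [← h1]; ring)
    exact ih a ha ⟨w, hw, h2⟩

/-- An element `a₀ + (y / x) a'` with `a₀` not divisible by `y` is a unit of `V`. -/
theorem inv_mem_of_val {V : Subalgebra k K} (hV : Val R y V) {a a₀ a' : K} (ha : a₀ ∈ R)
    (ha' : a' ∈ qt R x y) (hdec : a = a₀ + y / x * a') (hne : ∀ u ∈ R, a₀ ≠ y * u) : a⁻¹ ∈ V := by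
  have hx0 := h.x0
  obtain ⟨N, hN⟩ := h.exists_pow_R ha'
  have h1 : a * x ^ (N + 1) = x ^ (N + 1) * a₀ + y * (a' * x ^ N) := by
    rw [hdec, pow_succ]; field_simp
  have h2 : a * x ^ (N + 1) ∈ R := by
    rw [h1]
    exact R.add_mem (R.mul_mem (R.pow_mem h.hx _) ha) (R.mul_mem h.hy (hN N le_rfl))
  have h3 : (a * x ^ (N + 1))⁻¹ ∈ V := by
    refine hV.2.2.2 _ h2 fun u hu h4 => ?_
    obtain ⟨w, hw, h5⟩ := h.pow_mul_mem (m := N + 1) a₀ ha ⟨u - a' * x ^ N,
      R.sub_mem hu (hN N le_rfl), by linear_combination h4 - h1⟩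
    exact hne w hw h5
  have h4 : a⁻¹ = x ^ (N + 1) * (a * x ^ (N + 1))⁻¹ := by
    rw [mul_inv, mul_comm a⁻¹, ← mul_assoc, mul_inv_cancel₀ (pow_ne_zero _ hx0), one_mul]
  rw [h4]
  exact V.mul_mem (hV.2.1 (R.pow_mem h.hx _)) h3

end RegC

/-- The valuation of the exceptional curve: the order at the closed point. -/
theorem Reg.exists_vord (h : Reg R x y Dx Dy) : ∃ V : Subalgebra k K,
    (∀ (R' : Subalgebra k K) (c : k), QT R R' x y c → Val R' x V) ∧
    ∀ R' : Subalgebra k K, QT R R' y x 0 → Val R' y V := by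
  have hc := h.regC
  have hx0 := hc.x0
  have hy0 := hc.y0
  refine ⟨hc.vord, ?_, ?_⟩
  · rintro R' c ⟨χ, hχx, -, rfl⟩
    have hxq : x ∈ qt R x y := RegC.le_qt h.hx
    -- divisible elements vanish at the point
    have key : ∀ b : qt R x y, χ b ≠ 0 → ∀ u ∈ qt R x y, (b : K) ≠ x * u := by
      intro b hb u hu h1
      apply hb
      have h2 : b = ⟨x, hxq⟩ * ⟨u, hu⟩ := Subtype.ext h1
      rw [h2, map_mul, hχx, zero_mul]
    refine ⟨le_ptLoc hxq, ?_, ?_, ?_⟩
    · rintro z ⟨a, b, hb, h1⟩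
      exact ⟨a, a.2, b, b.2, key b hb, h1⟩
    · rintro ⟨a, ha, b, hb, hb', h1⟩
      refine hb' a ha ?_
      rw [← h1]; field_simp
    · rintro z ⟨a, b, hb, h1⟩ hz
      have hb0 := ne_zero_of_char hb
      have h2 : ∀ u ∈ qt R x y, (a : K) ≠ x * u := by
        intro u hu h3
        refine hz (u * (b : K)⁻¹) (Subalgebra.mul_mem _ (le_ptLoc hu) (ptLoc_mem b hb).2.2) ?_
        rw [← mul_assoc, ← h3, ← h1, mul_inv_cancel_right₀ hb0]
      have hz0 : z ≠ 0 := by
        rintro rfl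
        exact hz 0 (Subalgebra.zero_mem _) (by ring)
      refine ⟨b, b.2, a, a.2, h2, ?_⟩
      rw [← h1, inv_mul_cancel_left₀ hz0]
  · rintro R' ⟨χ, hχy, -, rfl⟩
    have hyq : y ∈ qt R y x := RegC.le_qt h.hy
    have key : ∀ b : qt R y x, χ b ≠ 0 → ∀ u ∈ qt R y x, (b : K) ≠ y * u := by
      intro b hb u hu h1
      apply hb
      have h2 : b = ⟨y, hyq⟩ * ⟨u, hu⟩ := Subtype.ext h1
      rw [h2, map_mul, hχy, zero_mul]
    -- fractions of elements of the other chart
    have key2 : ∀ z a b : K, a ∈ qt R y x → b ∈ qt R y x → (∀ u ∈ qt R y x, b ≠ y * u) →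
        z * b = a → z ∈ hc.vord := by
      intro z a b ha hb hb' h1
      obtain ⟨N, hN⟩ := hc.swap_mem ha
      obtain ⟨N', hN'⟩ := hc.swap_mem hb
      obtain ⟨N'', hN''⟩ := hc.swap_not hb hb'
      refine ⟨a * (y / x) ^ (N + N' + N''), hN _ (by omega), b * (y / x) ^ (N + N' + N''),
        hN' _ (by omega), hN'' _ (by omega), ?_⟩
      rw [← h1]; ring
    refine ⟨le_ptLoc hyq, ?_, ?_, ?_⟩
    · rintro z ⟨a, b, hb, h1⟩
      exact key2 z a b a.2 b.2 (key b hb) h1
    · rintro ⟨a, ha, b, hb, hb', h1⟩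
      refine hb' (y / x * a) (Subalgebra.mul_mem _ hc.div_mem ha) ?_
      rw [← h1]; field_simp
    · rintro z ⟨a, b, hb, h1⟩ hz
      have hb0 := ne_zero_of_char hb
      have h2 : ∀ u ∈ qt R y x, (a : K) ≠ y * u := by
        intro u hu h3
        refine hz (u * (b : K)⁻¹) (Subalgebra.mul_mem _ (le_ptLoc hu) (ptLoc_mem b hb).2.2) ?_
        rw [← mul_assoc, ← h3, ← h1, mul_inv_cancel_right₀ hb0]
      have hz0 : z ≠ 0 := by
        rintro rfl
        exact hz 0 (Subalgebra.zero_mem _) (by ring)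
      refine key2 z⁻¹ b a b.2 a.2 h2 ?_
      rw [← h1, inv_mul_cancel_left₀ hz0]

/-- The valuation of the strict transform. -/
theorem QT.val_strict (h : Reg R x y Dx Dy) {R' V : Subalgebra k K} (hQ : QT R R' x y 0)
    (hV : Val R y V) : Val R' (y / x) V := by
  have hc := h.regC
  have hx0 := hc.x0
  have hy0 := hc.y0
  obtain ⟨χ, hχx, hχt, rfl⟩ := hQ
  have htq : y / x ∈ qt R x y := hc.div_mem
  -- `x` is a unit of `V`
  have hxV : x⁻¹ ∈ V := by
    refine hV.2.2.2 x h.hx fun u hu h1 => ?_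
    obtain ⟨w, hw, h2⟩ := hc.rs 1 R.one_mem u hu (by rw [mul_one]; exact h1)
    refine hc.one 0 R.zero_mem w hw ?_
    have h3 : x * 1 = x * (y * w) := by
      rw [mul_one]
      nth_rewrite 1 [h1]
      rw [h2]; ring
    have h4 := mul_left_cancel₀ hx0 h3
    rw [h4]; ring
  have hqV : qt R x y ≤ V := by
    unfold qt
    rw [Algebra.adjoin_le_iff]
    rintro z (hz | hz)
    · exact hV.2.1 hz
    · rw [show z = y / x from hz, div_eq_mul_inv]
      exact V.mul_mem (hV.2.1 h.hy) hxV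
  refine ⟨le_ptLoc htq, ?_, ?_, ?_⟩
  · rintro z ⟨a, b, hb, h1⟩
    obtain ⟨b₀, hb₀, b', hb', h2⟩ := hc.exists_dec_div b.2
    have h3 : (b : K)⁻¹ ∈ V := by
      refine hc.inv_mem_of_val hV hb₀ hb' h2 fun u hu h4 => ?_
      apply hb
      have h5 : b = ⟨y / x, htq⟩ * (⟨x, RegC.le_qt h.hx⟩ * ⟨u, RegC.le_qt hu⟩ + ⟨b', hb'⟩) := by
        apply Subtype.ext
        push_cast
        rw [h2, h4]; field_simp
      rw [h5, map_mul, hχt, zero_mul]
    have hb0 := ne_zero_of_char hb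
    have h4 : z = (a : K) * (b : K)⁻¹ := by rw [← h1, mul_inv_cancel_right₀ hb0]
    rw [h4]
    exact V.mul_mem (hqV a.2) h3
  · intro h1
    apply hV.2.2.1
    have h2 : y⁻¹ = x⁻¹ * (y / x)⁻¹ := by rw [inv_div]; field_simp
    rw [h2]
    exact V.mul_mem hxV h1
  · rintro z ⟨a, b, hb, h1⟩ hz
    have hb0 := ne_zero_of_char hb
    obtain ⟨a₀, ha₀, a', ha', h2⟩ := hc.exists_dec_div a.2
    have h3 : (a : K)⁻¹ ∈ V := by
      refine hc.inv_mem_of_val hV ha₀ ha' h2 fun u hu h4 => ?_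
      refine hz ((x * u + a') * (b : K)⁻¹) (Subalgebra.mul_mem _ (le_ptLoc
        (Subalgebra.add_mem _ (Subalgebra.mul_mem _ (RegC.le_qt h.hx) (RegC.le_qt hu)) ha'))
        (ptLoc_mem b hb).2.2) ?_
      have h5 : z = (a : K) * (b : K)⁻¹ := by rw [← h1, mul_inv_cancel_right₀ hb0]
      rw [h5, h2, h4]; field_simp
    have hz0 : z ≠ 0 := by
      rintro rfl
      exact hz 0 (Subalgebra.zero_mem _) (by ring)
    have ha0 : (a : K) ≠ 0 := by
      rw [← h1]; exact mul_ne_zero hz0 hb0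
    have h4 : z⁻¹ = (b : K) * (a : K)⁻¹ := by
      rw [← h1, mul_inv, mul_comm z⁻¹, mul_inv_cancel_left₀ hb0]
    rw [h4]
    exact V.mul_mem (hqV b.2) h3

end Pool.Agent.MP_b525bf_ag_TS
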