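import Pool.Agent.Lib.MP_b525bf_ag_TS.Pts
import Pool.Agent.Lib.MP_b525bf_ag_TS.Vals
import Pool.Agent.Lib.MP_b525bf_ag_TS.Drop

/-!
# B2: blowing up a point where the object is not clean
-/

set_option autoImplicit false

namespace Pool.Agent.MP_b525bf_ag_TS

open scoped Classical

variable {k K : Type} [Field k] [Field K] [Algebra k K] {B : Subalgebra k K} {E : Type}
  [Fintype E] {J : E → Ideal B} {e : E → E → ℤ} {V : E → Subalgebra k K} {α : E → ℤ}
  {θ : Obj k K}

/-- The degree of the exceptional divisor. -/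
def fdeg (E : Type) (c : ℕ) : Option E → ℤ
  | none => 1
  | some _ => -(c : ℤ)

/-- The degrees of the boundary of the blowing up of a point; `T` is the set of components
through the point. -/
noncomputable def blowE (e : E → E → ℤ) (T : E → Prop) (c : ℕ) : Option E → Option E → ℤ
  | none => fdeg E c
  | some j => fun i => (match i with
      | none => 0
      | some i => e j i) - if T j then fdeg E c i else 0

theorem xi_blowE_none (h' : Option E → K) (e : E → E → ℤ) (T : E → Prop) (c : ℕ) :
    xi h' (blowE e T c) none = h' none / (∏ i, h' (some i)) ^ c := by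
  unfold xi
  rw [Fintype.prod_option]
  simp only [blowE, fdeg, zpow_one, zpow_neg, zpow_natCast]
  rw [div_eq_mul_inv, Finset.prod_inv_distrib, Finset.prod_pow]

theorem xi_blowE_some {h' : Option E → K} (hne : ∀ i, h' i ≠ 0) (e : E → E → ℤ) (T : E → Prop)
    (c : ℕ) (j : E) : xi h' (blowE e T c) (some j) =
      xi (fun i => h' (some i)) e j /
        (if T j then h' none / (∏ i, h' (some i)) ^ c else 1) := by
  have h1 : xi (fun i => h' (some i)) e j = ∏ i : Option E, h' i ^ (match i with
      | none => (0 : ℤ)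
      | some i => e j i) := by
    rw [Fintype.prod_option]; simp [xi]
  have h2 : xi h' (blowE e T c) none = ∏ i, h' i ^ fdeg E c i := rfl
  have h3 : xi h' (blowE e T c) (some j) = ∏ i, h' i ^ blowE e T c (some j) i := rfl
  by_cases hT : T j
  · rw [if_pos hT, ← xi_blowE_none h' e T c, h1, h2, h3, ← Finset.prod_div_distrib]
    refine Finset.prod_congr rfl fun i _ => ?_
    rw [← zpow_sub₀ (hne i)]
    simp only [blowE, if_pos hT]
  · rw [if_neg hT, div_one, h1, h3]
    refine Finset.prod_congr rfl fun i _ => ?_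
    simp only [blowE, if_neg hT, sub_zero]

theorem span_blowE (hspan : ∀ d : E → ℤ, ∃ n : E → ℤ, d = ∑ j, n j • e j) (T : E → Prop)
    (c : ℕ) : ∀ d : Option E → ℤ, ∃ n : Option E → ℤ, d = ∑ j, n j • blowE e T c j := by
  intro d
  obtain ⟨n, hn⟩ := hspan fun i => d (some i) + d none * c
  have hn' : ∀ i, d (some i) + d none * c = ∑ j, n j * e j i := fun i => by
    have := congrFun hn i
    simpa [Finset.sum_apply, Pi.smul_apply, smul_eq_mul] using this
  refine ⟨fun o => match o with
    | none => d none + ∑ j, if T j then n j else 0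
    | some j => n j, ?_⟩
  rw [Fintype.sum_option]
  funext i
  cases i with
  | none =>
    simp only [Pi.add_apply, Finset.sum_apply, Pi.smul_apply, smul_eq_mul, blowE, fdeg]
    have : ∀ j, n j * (0 - if T j then (1 : ℤ) else 0) = -(if T j then n j else 0) := by
      intro j; split_ifs <;> ring
    simp only [this, Finset.sum_neg_distrib]; ring
  | some i =>
    simp only [Pi.add_apply, Finset.sum_apply, Pi.smul_apply, smul_eq_mul, blowE, fdeg]
    have : ∀ j, n j * (e j i - if T j then -(c : ℤ) else 0) =
        n j * e j i + c * (if T j then n j else 0) := by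
      intro j; split_ifs <;> ring
    simp only [this, Finset.sum_add_distrib, ← Finset.mul_sum, ← hn' i]; ring

theorem xi_ne {h : E → K} (hne : ∀ i, h i ≠ 0) (e : E → E → ℤ) (j : E) : xi h e j ≠ 0 :=
  Finset.prod_ne_zero_iff.2 fun i _ => zpow_ne_zero _ (hne i)

theorem UnitIn.one (R : Subalgebra k K) : UnitIn R (1 : K) :=
  ⟨one_ne_zero, R.one_mem, by rw [inv_one]; exact R.one_mem⟩

theorem UnitIn.mono {R R' : Subalgebra k K} (hle : R ≤ R') {z : K} (hz : UnitIn R z) :
    UnitIn R' z := ⟨hz.1, hle hz.2.1, hle hz.2.2⟩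

theorem UnitIn.div {R : Subalgebra k K} {z w : K} (hz : UnitIn R z) (hw : UnitIn R w) :
    UnitIn R (z / w) := by
  rw [div_eq_mul_inv]; exact hz.mul hw.inv

theorem xi_div_unit {R : Subalgebra k K} {h h' : E → K} (hu : ∀ i, UnitIn R (h' i / h i))
    (e : E → E → ℤ) (j : E) : UnitIn R (xi h' e j / xi h e j) := by
  unfold xi
  rw [← Finset.prod_div_distrib]
  refine UnitIn.prod _ fun i _ => ?_
  rw [← div_zpow]
  exact (hu i).zpow _

/-- Another choice of the generators. -/
theorem PtNc.change {R : Subalgebra k K} {h : E → K} {x y : K} {Dx Dy : Derivation k K K}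
    {s t : Bool} {b : E → Option Bool} (hp : PtNc B J e V R h x y Dx Dy s t b) {h' : E → K}
    (hh' : GenAt B J R h') : PtNc B J e V R h' x y Dx Dy s t b := by
  have hu : ∀ j, UnitIn R (xi h' e j / xi h e j) := fun j => hp.gen.xi_unit hh' e j
  have hne : ∀ j, xi h e j ≠ 0 := fun j => xi_ne (fun i => (hp.gen.1 i).1) e j
  exact
    { gen := hh'
      reg := hp.reg
      b0 := fun j hj => by
        have := (hp.b0 j hj).mul (hu j)
        rwa [mul_div_cancel₀ _ (hne j)] at this
      bx := fun j hj => by
        have := (hp.bx j hj).mul (hu j)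
        rwa [div_mul_div_comm, mul_comm x, mul_div_mul_left _ _ (hne j)] at this
      by' := fun j hj => by
        have := (hp.by' j hj).mul (hu j)
        rwa [div_mul_div_comm, mul_comm y, mul_div_mul_left _ _ (hne j)] at this
      s_iff := hp.s_iff
      t_iff := hp.t_iff
      inj := hp.inj
      val := fun j hj => by
        have := (hp.val j hj).mul_unit (hu j)
        rwa [mul_div_cancel₀ _ (hne j)] at this }

/-- Exchange of the coordinates. -/
theorem PtNc.symm {R : Subalgebra k K} {h : E → K} {x y : K} {Dx Dy : Derivation k K K}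
    {s t : Bool} {b : E → Option Bool} (hp : PtNc B J e V R h x y Dx Dy s t b) :
    PtNc B J e V R h y x Dy Dx t s (fun j => (b j).map not) := by
  have h0 : ∀ j, (b j).map not = none ↔ b j = none := fun j => by simp
  have h1 : ∀ j, (b j).map not = some false ↔ b j = some true := fun j => by
    cases hb : b j with
    | none => simp
    | some v => cases v <;> simp
  have h2 : ∀ j, (b j).map not = some true ↔ b j = some false := fun j => by
    cases hb : b j with
    | none => simp
    | some v => cases v <;> simp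
  exact
    { gen := hp.gen
      reg := hp.reg.symm
      b0 := fun j hj => hp.b0 j ((h0 j).1 hj)
      bx := fun j hj => hp.by' j ((h1 j).1 hj)
      by' := fun j hj => hp.bx j ((h2 j).1 hj)
      s_iff := by
        rw [hp.t_iff]
        exact exists_congr fun j => (h1 j).symm
      t_iff := by
        rw [hp.s_iff]
        exact exists_congr fun j => (h2 j).symm
      inj := fun j j' hj hjj' => by
        refine hp.inj j j' (fun h => hj ((h0 j).2 h)) ?_
        cases hb : b j with
        | none => exact absurd ((h0 j).2 hb) hj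
        | some v =>
          cases hb' : b j' with
          | none => rw [hb, hb'] at hjj'; simp at hjj'
          | some v' =>
            rw [hb, hb'] at hjj'
            cases v <;> cases v' <;> simp_all
      val := fun j hj => hp.val j fun h => hj ((h0 j).2 h) }

/-- The family of valuation rings with one more. -/
def optV (V : E → Subalgebra k K) (V₀ : Subalgebra k K) : Option E → Subalgebra k K
  | none => V₀
  | some j => V j

/-- The exponents with one more. -/
def optα (α : E → ℤ) (a : ℤ) : Option E → ℤ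
  | none => a
  | some j => α j

/-- The boundary data at the points away from the center. -/
def optb (b : E → Option Bool) : Option E → Option Bool
  | none => none
  | some j => b j

/-- The boundary data in the chart `(x, y / x - c')`. -/
noncomputable def nearb (b : E → Option Bool) (c' : k) : Option E → Option Bool
  | none => some false
  | some j => if b j = some true ∧ c' = 0 then some true else none

theorem prod_zpow_sum {I : Type} (s : Finset I) {f : K} (hf : f ≠ 0) (g : I → ℤ) :
    ∏ i ∈ s, f ^ g i = f ^ ∑ i ∈ s, g i := by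
  induction s using Finset.induction_on with
  | empty => simp
  | insert a s ha ih => rw [Finset.prod_insert ha, Finset.sum_insert ha, zpow_add₀ hf, ih]

theorem cen_ne {h' : Option E → K} (hne : ∀ i, h' i ≠ 0) (c : ℕ) :
    h' none / (∏ i, h' (some i)) ^ c ≠ 0 :=
  div_ne_zero (hne none) (pow_ne_zero _ (Finset.prod_ne_zero_iff.2 fun i _ => hne (some i)))

theorem prod_xi_blowE {h' : Option E → K} (hne : ∀ i, h' i ≠ 0) (e : E → E → ℤ) (T : E → Prop)
    (c : ℕ) (α : E → ℤ) (a : ℤ) :
    ∏ j, xi h' (blowE e T c) j ^ optα α a j = (∏ j, xi (fun i => h' (some i)) e j ^ α j) *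
      (h' none / (∏ i, h' (some i)) ^ c) ^ (a - ∑ j, if T j then α j else 0) := by
  have hf := cen_ne hne c
  rw [Fintype.prod_option, xi_blowE_none]
  simp only [xi_blowE_some hne, optα]
  set f := h' none / (∏ i, h' (some i)) ^ c with hfdef
  have h1 : ∀ j, (xi (fun i => h' (some i)) e j / (if T j then f else 1)) ^ α j =
      xi (fun i => h' (some i)) e j ^ α j * f ^ (-(if T j then α j else 0)) := by
    intro j
    by_cases hT : T j
    · rw [if_pos hT, if_pos hT, div_zpow, zpow_neg, div_eq_mul_inv]
    · rw [if_neg hT, if_neg hT, div_one, neg_zero, zpow_zero, mul_one]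
  simp only [h1]
  rw [Finset.prod_mul_distrib, prod_zpow_sum _ hf, Finset.sum_neg_distrib, sub_eq_add_neg,
    zpow_add₀ hf]
  ring

theorem Ad.congr_unit {R : Subalgebra k K} {x y : K} {Dx Dy : Derivation k K K} {s t : Bool}
    {γ γ' : K} (h : Reg R x y Dx Dy) (hA : Ad θ R x y Dx Dy s t γ) (hv : UnitIn R (γ' / γ)) :
    Ad θ R x y Dx Dy s t γ' ∧ Jw θ R x y Dx Dy s t γ' = Jw θ R x y Dx Dy s t γ := by
  have h1 : γ * (γ' / γ) = γ' := mul_div_cancel₀ _ hA.ne
  have := Ad.mul_unit h hA hv
  rwa [h1] at this

theorem inv2_congr {R : Subalgebra k K} {x y : K} {Dx Dy : Derivation k K K} {s t : Bool}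
    {γ γ' : K} (hJ : Jw θ R x y Dx Dy s t γ' = Jw θ R x y Dx Dy s t γ) :
    inv2 θ R x y Dx Dy s t γ' = inv2 θ R x y Dx Dy s t γ := by
  unfold inv2
  rw [hJ]

theorem gam_div_unit {R : Subalgebra k K} {h h' : E → K} (hu : ∀ i, UnitIn R (h' i / h i))
    (e : E → E → ℤ) (α : E → ℤ) :
    UnitIn R ((∏ j, xi h' e j ^ α j) / ∏ j, xi h e j ^ α j) := by
  rw [← Finset.prod_div_distrib]
  refine UnitIn.prod _ fun j _ => ?_
  rw [← div_zpow]
  exact (xi_div_unit hu e j).zpow _

/-- The boundary at the points away from the center. -/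
theorem PtNc.far {R : Subalgebra k K} {h : E → K} {x y : K} {Dx Dy : Derivation k K K}
    {s t : Bool} {b : E → Option Bool} (hp : PtNc B J e V R h x y Dx Dy s t b) {I' : Ideal B}
    {h' : Option E → K} (hh' : GenAt B (optJ J I') R h')
    (hh : GenAt B J R (fun i => h' (some i))) {c : ℕ}
    (hu : UnitIn R (h' none / (∏ i, h' (some i)) ^ c)) (T : E → Prop) (V₀ : Subalgebra k K) :
    PtNc B (optJ J I') (blowE e T c) (optV V V₀) R h' x y Dx Dy s t (optb b) := by
  have hne : ∀ i, h' i ≠ 0 := fun i => (hh'.1 i).1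
  have hp' := hp.change hh
  have key : ∀ j, UnitIn R (xi h' (blowE e T c) (some j) / xi (fun i => h' (some i)) e j) := by
    intro j
    have hx0 : xi (fun i => h' (some i)) e j ≠ 0 := xi_ne (fun i => hne (some i)) e j
    rw [xi_blowE_some hne, div_div_cancel_left' hx0]
    refine UnitIn.inv ?_
    split_ifs
    · exact hu
    · exact UnitIn.one R
  have hmul : ∀ (j : E) (z : K), xi (fun i => h' (some i)) e j / z *
      (xi h' (blowE e T c) (some j) / xi (fun i => h' (some i)) e j) =
        xi h' (blowE e T c) (some j) / z := by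
    intro j z
    have hx0 : xi (fun i => h' (some i)) e j ≠ 0 := xi_ne (fun i => hne (some i)) e j
    rw [div_mul_div_comm, mul_comm z, mul_div_mul_left _ _ hx0]
  exact
    { gen := hh'
      reg := hp.reg
      b0 := fun j hj => by
        cases j with
        | none => rw [xi_blowE_none]; exact hu
        | some j =>
          have := (hp'.b0 j hj).mul (key j)
          have h2 := hmul j 1
          rw [div_one, div_one] at h2
          rwa [h2] at this
      bx := fun j hj => by
        cases j with
        | none => simp [optb] at hj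
        | some j => 
          have := (hp'.bx j hj).mul (key j)
          rwa [hmul] at this
      by' := fun j hj => by
        cases j with
        | none => simp [optb] at hj
        | some j => 
          have := (hp'.by' j hj).mul (key j)
          rwa [hmul] at this
      s_iff := by
        rw [hp.s_iff]
        constructor
        · rintro ⟨j, hj⟩; exact ⟨some j, hj⟩
        · rintro ⟨j, hj⟩
          cases j with
          | none => simp [optb] at hj
          | some j => exact ⟨j, hj⟩
      t_iff := by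
        rw [hp.t_iff]
        constructor
        · rintro ⟨j, hj⟩; exact ⟨some j, hj⟩
        · rintro ⟨j, hj⟩
          cases j with
          | none => simp [optb] at hj
          | some j => exact ⟨j, hj⟩
      inj := fun j j' hj hjj' => by
        cases j with
        | none => exact absurd rfl hj
        | some j =>
          cases j' with
          | none => exact absurd hjj' hj
          | some j' => rw [hp.inj j j' hj hjj']
      val := fun j hj => by
        cases j with
        | none => exact absurd rfl hj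
        | some j =>
          have := (hp'.val j hj).mul_unit (key j)
          have hx0 : xi (fun i => h' (some i)) e j ≠ 0 := xi_ne (fun i => hne (some i)) e j
          rwa [mul_div_cancel₀ _ hx0] at this }

/-- The boundary at the points `y / x = c'` of the exceptional curve. -/
theorem PtNc.near {R₀ : Subalgebra k K} {h : E → K} {x y : K} {Dx Dy : Derivation k K K}
    {s t : Bool} {b : E → Option Bool} (hp : PtNc B J e V R₀ h x y Dx Dy s t b) {I' : Ideal B}
    {R' : Subalgebra k K} {c' : k} (hQ : QT R₀ R' x y c')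
    {h' : Option E → K} (hh' : GenAt B (optJ J I') R' h') {c : ℕ}
    (hu : UnitIn R' (h' none / (∏ i, h' (some i)) ^ c / x))
    (hu' : ∀ i, UnitIn R' (h' (some i) / h i)) {V₀ : Subalgebra k K} (hV₀ : Val R' x V₀) :
    PtNc B (optJ J I') (blowE e (fun j => b j ≠ none) c) (optV V V₀) R' h' x
      (y / x - algebraMap k K c') (Dx + (y / x) • Dy) (x • Dy) true (t && decide (c' = 0))
      (nearb b c') := by
  have hne : ∀ i, h' i ≠ 0 := fun i => (hh'.1 i).1
  have hreg' := hp.reg.qt hQ
  have hx0 : x ≠ 0 := hp.reg.x_ne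
  have hy0 : y ≠ 0 := hp.reg.symm.x_ne
  have hle : R₀ ≤ R' := hQ.le
  set f := h' none / (∏ i, h' (some i)) ^ c with hfdef
  have hf0 : f ≠ 0 := cen_ne hne c
  have hXX : ∀ j, UnitIn R' (xi (fun i => h' (some i)) e j / xi h e j) := fun j =>
    xi_div_unit hu' e j
  have hX0 : ∀ j, xi h e j ≠ 0 := fun j => xi_ne (fun i => (hp.gen.1 i).1) e j
  have hX0' : ∀ j, xi (fun i => h' (some i)) e j ≠ 0 := fun j =>
    xi_ne (fun i => hne (some i)) e j
  have hnone : xi h' (blowE e (fun j => b j ≠ none) c) none = f := xi_blowE_none _ _ _ _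
  have hsT : ∀ j, b j ≠ none → xi h' (blowE e (fun j => b j ≠ none) c) (some j) =
      xi (fun i => h' (some i)) e j / f := by
    intro j hj
    rw [xi_blowE_some hne, if_pos hj]
  have hsF : ∀ j, b j = none → xi h' (blowE e (fun j => b j ≠ none) c) (some j) =
      xi (fun i => h' (some i)) e j := by
    intro j hj
    rw [xi_blowE_some hne, if_neg (by simpa using hj), div_one]
  -- the unit of `R'`
  have hyx : c' ≠ 0 → UnitIn R' (y / x) := by
    intro hc'
    refine ⟨div_ne_zero hy0 hx0, hQ.div_mem, hreg'.inv _ hQ.div_mem fun u hu v hv huv => ?_⟩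
    refine hreg'.one (algebraMap k K c'⁻¹ * u) (R'.mul_mem (R'.algebraMap_mem _) hu)
      (algebraMap k K c'⁻¹ * (v - 1)) (R'.mul_mem (R'.algebraMap_mem _)
        (R'.sub_mem hv R'.one_mem)) ?_
    have h1 : algebraMap k K c' = x * u + (y / x - algebraMap k K c') * (v - 1) := by
      have h2 : algebraMap k K c' = y / x - (y / x - algebraMap k K c') := by ring
      rw [mul_sub, mul_one, ← add_sub_assoc, ← huv]
      exact h2
    have h3 : algebraMap k K c'⁻¹ * algebraMap k K c' = 1 := by
      rw [← map_mul, inv_mul_cancel₀ hc', map_one]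
    calc (1 : K) = algebraMap k K c'⁻¹ * algebraMap k K c' := h3.symm
      _ = algebraMap k K c'⁻¹ * (x * u + (y / x - algebraMap k K c') * (v - 1)) := by rw [← h1]
      _ = _ := by ring
  have hXy : ∀ j, b j = some true → UnitIn R' (xi h' (blowE e (fun j => b j ≠ none) c) (some j) /
      (y / x)) := by
    intro j hj
    rw [hsT j (by rw [hj]; simp)]
    have h1 := (((hp.by' j hj).mono hle).mul (hXX j)).div hu
    have h2 : xi h e j / y * (xi (fun i => h' (some i)) e j / xi h e j) / (f / x) =
        xi (fun i => h' (some i)) e j / f / (y / x) := by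
      have := hX0 j
      field_simp
    rwa [h2] at h1
  exact
    { gen := hh'
      reg := hreg'
      b0 := fun j hj => by
        cases j with
        | none => simp [nearb] at hj
        | some j =>
          cases hb : b j with
          | none =>
            rw [hsF j hb]
            have h1 := ((hp.b0 j hb).mono hle).mul (hXX j)
            rwa [mul_div_cancel₀ _ (hX0 j)] at h1
          | some v =>
            cases v with
            | false =>
              rw [hsT j (by rw [hb]; simp)]
              have h1 := (((hp.bx j hb).mono hle).mul (hXX j)).div hu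
              have h2 : xi h e j / x * (xi (fun i => h' (some i)) e j / xi h e j) / (f / x) =
                  xi (fun i => h' (some i)) e j / f := by
                have := hX0 j
                field_simp
              rwa [h2] at h1
            | true =>
              have hc' : c' ≠ 0 := by
                intro hc'
                simp [nearb, hb, hc'] at hj
              have h1 := (hXy j hb).mul (hyx hc')
              rwa [div_mul_cancel₀ _ (div_ne_zero hy0 hx0)] at h1
      bx := fun j hj => by
        cases j with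
        | none => rw [hnone]; exact hu
        | some j =>
          simp only [nearb] at hj
          split_ifs at hj
          · simp at hj
      by' := fun j hj => by
        cases j with
        | none => simp [nearb] at hj
        | some j =>
          simp only [nearb] at hj
          split_ifs at hj with h1
          rw [h1.2, map_zero, sub_zero]
          exact hXy j h1.1
      s_iff := ⟨fun _ => ⟨none, rfl⟩, fun _ => rfl⟩
      t_iff := by
        rw [Bool.and_eq_true, decide_eq_true_iff, hp.t_iff]
        constructor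
        · rintro ⟨⟨j, hj⟩, hc'⟩
          exact ⟨some j, by simp [nearb, hj, hc']⟩
        · rintro ⟨j, hj⟩
          cases j with
          | none => simp [nearb] at hj
          | some j =>
            simp only [nearb] at hj
            split_ifs at hj with h1
            exact ⟨⟨j, h1.1⟩, h1.2⟩
      inj := fun j j' hj hjj' => by
        cases j with
        | none =>
          cases j' with
          | none => rfl
          | some j' =>
            simp only [nearb] at hjj'
            split_ifs at hjj'
            · simp at hjj'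
        | some j =>
          cases j' with
          | none =>
            simp only [nearb] at hjj'
            split_ifs at hjj'
            · simp at hjj'
          | some j' =>
            simp only [nearb] at hjj' hj
            split_ifs at hjj' hj with h1 h2
            · rw [hp.inj j j' (by rw [h1.1]; simp) (by rw [h1.1, h2.1])]
            all_goals simp_all
      val := fun j hj => by
        cases j with
        | none =>
          rw [hnone]
          have := hV₀.mul_unit hu
          rwa [mul_div_cancel₀ _ hx0] at this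
        | some j =>
          simp only [nearb] at hj
          split_ifs at hj with h1
          · obtain ⟨hb, hc'⟩ := h1
            have h2 := (hp.val j (by rw [hb]; simp)).mul_unit (hp.by' j hb).inv
            have h3 : xi h e j * (xi h e j / y)⁻¹ = y := by
              have := hX0 j
              field_simp
            rw [h3] at h2
            rw [hc'] at hQ
            have h4 := (hQ.val_strict hp.reg h2).mul_unit (hXy j hb)
            rwa [mul_div_cancel₀ _ (div_ne_zero hy0 hx0)] at h4
          · exact absurd rfl hj }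

theorem PtNc.not_unit {R : Subalgebra k K} {h : E → K} {x y : K} {Dx Dy : Derivation k K K}
    {s t : Bool} {b : E → Option Bool} (hp : PtNc B J e V R h x y Dx Dy s t b) {j : E}
    (hj : b j ≠ none) : ¬ UnitIn R (xi h e j) := by
  intro hunit
  have hX0 : xi h e j ≠ 0 := xi_ne (fun i => (hp.gen.1 i).1) e j
  cases hb : b j with
  | none => exact hj hb
  | some v =>
    cases v with
    | false =>
      have h4 := hunit.div (hp.bx j hb)
      rw [div_div_cancel₀ hX0] at h4
      exact hp.reg.one x⁻¹ h4.2.2 0 R.zero_mem (by rw [mul_inv_cancel₀ h4.1, mul_zero, add_zero])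
    | true =>
      have h4 := hunit.div (hp.by' j hb)
      rw [div_div_cancel₀ hX0] at h4
      exact hp.reg.one 0 R.zero_mem y⁻¹ h4.2.2 (by rw [mul_inv_cancel₀ h4.1, mul_zero, zero_add])

/-- A component through a point of the exceptional curve which contains the generic point of the
curve `W` passes through the point `R'`. -/
theorem PtNc.near_comp {R₀ : Subalgebra k K} {h : E → K} {x y : K} {Dx Dy : Derivation k K K}
    {s t : Bool} {b : E → Option Bool} (hp : PtNc B J e V R₀ h x y Dx Dy s t b)
    {R' : Subalgebra k K} {c' : k} (hQ : QT R₀ R' x y c') {j : E} (hj : b j ≠ none)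
    (hle : R' ≤ V j) : b j = some true ∧ c' = 0 := by
  have hx0 : x ≠ 0 := hp.reg.x_ne
  have hy0 : y ≠ 0 := hp.reg.symm.x_ne
  have hX0 : xi h e j ≠ 0 := xi_ne (fun i => (hp.gen.1 i).1) e j
  have hval := hp.val j hj
  have hyx : y / x ∈ V j := hle hQ.div_mem
  cases hb : b j with
  | none => exact absurd hb hj
  | some v =>
    cases v with
    | false =>
      exfalso
      have h2 := hval.mul_unit (hp.bx j hb).inv
      have h3 : xi h e j * (xi h e j / x)⁻¹ = x := by
        field_simp
      rw [h3] at h2
      -- `y` is a unit of `V j`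
      have hyV : y⁻¹ ∈ V j := by
        refine h2.2.2.2 y hp.reg.hy fun u hu h4 => ?_
        have h5 : Dy y = x * Dy u := by
          rw [h4, Derivation.leibniz, hp.reg.yx, smul_zero, add_zero, smul_eq_mul]
        rw [hp.reg.yy] at h5
        refine hp.reg.one (Dy u) (hp.reg.Dy_mem u hu) 0 R₀.zero_mem ?_
        rw [h5]; ring
      refine h2.2.2.1 ?_
      have h6 := (V j).mul_mem hyx hyV
      rwa [div_mul_eq_mul_div, mul_inv_cancel₀ hy0, one_div] at h6
    | true =>
      refine ⟨rfl, ?_⟩
      by_contra hc'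
      have h2 := hval.mul_unit (hp.by' j hb).inv
      have h3 : xi h e j * (xi h e j / y)⁻¹ = y := by
        field_simp
      rw [h3] at h2
      -- `y / x` is a unit of `R'` and `x` is a unit of `V j`
      have hreg' := hp.reg.qt hQ
      have hu : (y / x)⁻¹ ∈ R' := by
        refine hreg'.inv _ hQ.div_mem fun u hu v hv huv => ?_
        refine hreg'.one (algebraMap k K c'⁻¹ * u) (R'.mul_mem (R'.algebraMap_mem _) hu)
          (algebraMap k K c'⁻¹ * (v - 1)) (R'.mul_mem (R'.algebraMap_mem _)
            (R'.sub_mem hv R'.one_mem)) ?_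
        have h3 : algebraMap k K c'⁻¹ * algebraMap k K c' = 1 := by
          rw [← map_mul, inv_mul_cancel₀ hc', map_one]
        linear_combination -h3 + algebraMap k K c'⁻¹ * huv
      have hxV : x⁻¹ ∈ V j := by
        refine h2.2.2.2 x hp.reg.hx fun u hu h4 => ?_
        have h5 : Dx x = y * Dx u := by
          rw [h4, Derivation.leibniz, hp.reg.xy, smul_zero, add_zero, smul_eq_mul]
        rw [hp.reg.xx] at h5
        refine hp.reg.one 0 R₀.zero_mem (Dx u) (hp.reg.Dx_mem u hu) ?_
        rw [h5]; ring
      refine h2.2.2.1 ?_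
      have h6 := (V j).mul_mem (hle hu) hxV
      rwa [inv_div, div_mul_eq_mul_div, mul_inv_cancel₀ hx0, one_div] at h6

/-- Blowing up of a point where the object is not clean. -/
theorem Stage2.blow (hB : B.FG) (hθ : θ.Closed) (h : Stage2 B θ J e V α) {R₀ : Subalgebra k K}
    (hR₀ : Pt B J R₀) (hbad : ¬ Lv B θ J e V α 0 R₀) :
    ∃ (J' : Option E → Ideal B) (e' : Option E → Option E → ℤ) (V' : Option E → Subalgebra k K)
      (α' : Option E → ℤ), Stage2 B θ J' e' V' α' ∧
      (∀ W, InBd B J e V W → InBd B J' e' V' W) ∧ ∀ R, Pt B J' R →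
      (Pt B J R ∧ R ≠ R₀ ∧ ∀ m, Lv B θ J e V α m R → Lv B θ J' e' V' α' m R) ∨
      ∀ m, Lv B θ J e V α (m + 1) R₀ → Lv B θ J' e' V' α' m R := by
  -- the presentation with the smallest invariant
  have hex : ∃ n, ∃ h₁ x y Dx Dy s t b, PtNc B J e V R₀ h₁ x y Dx Dy s t b ∧
      Ad θ R₀ x y Dx Dy s t (∏ j, xi h₁ e j ^ α j) ∧
      inv2 θ R₀ x y Dx Dy s t (∏ j, xi h₁ e j ^ α j) = n := by
    obtain ⟨h₁, x, y, Dx, Dy, s, t, b, hp, hA⟩ := h.pt R₀ hR₀
    exact ⟨_, h₁, x, y, Dx, Dy, s, t, b, hp, hA, rfl⟩
  obtain ⟨h₁, x, y, Dx, Dy, s, t, b, hp, hA, hn⟩ := Nat.find_spec hex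
  have hmin : ∀ m, Lv B θ J e V α (m + 1) R₀ → Nat.find hex ≤ m + 1 := by
    rintro m ⟨h₂, x', y', Dx', Dy', s', t', b', hp', hA', hm⟩
    rcases hm with hm | hm
    · exact absurd ⟨h₂, x', y', Dx', Dy', s', t', b', hp', hA', Or.inl hm⟩ hbad
    · exact (Nat.find_min' hex ⟨h₂, x', y', Dx', Dy', s', t', b', hp', hA', rfl⟩).trans hm
  have hJw : Jw θ R₀ x y Dx Dy s t (∏ j, xi h₁ e j ^ α j) ≠ ⊤ := fun hJ =>
    hbad ⟨h₁, x, y, Dx, Dy, s, t, b, hp, hA, Or.inl hJ⟩
  obtain ⟨c, I', hc⟩ := exists_center hB h.ne hR₀ hp.reg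
  obtain ⟨μ, hd1, hd2⟩ := Ad.drop hθ hp.reg hA hJw
  obtain ⟨V₀, hV1, hV2⟩ := hp.reg.exists_vord
  obtain ⟨T, hTdef⟩ : ∃ T : E → Prop, T = fun j => b j ≠ none := ⟨_, rfl⟩
  let a : ℤ := (∑ j, if T j then α j else 0) + μ
  have ha : a - (∑ j, if T j then α j else 0) = μ := by
    change (∑ j, if T j then α j else 0) + (μ : ℤ) - (∑ j, if T j then α j else 0) = μ
    ring
  -- far points
  have hfar : ∀ R, Pt B (optJ J I') R → (∀ h', GenAt B (optJ J I') R h' →
      GenAt B J R (fun i => h' (some i)) ∧
        UnitIn R (h' none / (∏ i, h' (some i)) ^ c)) →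
      ∀ h₂ x' y' Dx' Dy' s' t' b', PtNc B J e V R h₂ x' y' Dx' Dy' s' t' b' →
        Ad θ R x' y' Dx' Dy' s' t' (∏ j, xi h₂ e j ^ α j) →
        ∃ h', PtNc B (optJ J I') (blowE e T c) (optV V V₀) R h' x' y' Dx' Dy' s' t' (optb b') ∧
          Ad θ R x' y' Dx' Dy' s' t' (∏ j, xi h' (blowE e T c) j ^ optα α a j) ∧
          Jw θ R x' y' Dx' Dy' s' t' (∏ j, xi h' (blowE e T c) j ^ optα α a j) =
            Jw θ R x' y' Dx' Dy' s' t' (∏ j, xi h₂ e j ^ α j) := by
    intro R hR hg h₂ x' y' Dx' Dy' s' t' b' hp' hA'
    obtain ⟨h', hh'⟩ := hR.exists_gen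
    obtain ⟨hg1, hg2⟩ := hg h' hh'
    have hne : ∀ i, h' i ≠ 0 := fun i => (hh'.1 i).1
    refine ⟨h', hp'.far hh' hg1 hg2 T V₀, ?_⟩
    refine Ad.congr_unit hp'.reg hA' ?_
    rw [prod_xi_blowE hne, mul_div_right_comm]
    exact (gam_div_unit (fun i => hp'.gen.unit hg1 i) e α).mul (hg2.zpow _)
  -- near points
  have hnear : ∀ R, Pt B (optJ J I') R →
      ((∃ c' : k, QT R₀ R x y c' ∧ ∀ h', GenAt B (optJ J I') R h' →
        UnitIn R (h' none / (∏ i, h' (some i)) ^ c / x) ∧
        ∀ h, GenAt B J R₀ h → ∀ i, UnitIn R (h' (some i) / h i)) ∨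
      (QT R₀ R y x 0 ∧ ∀ h', GenAt B (optJ J I') R h' →
        UnitIn R (h' none / (∏ i, h' (some i)) ^ c / y) ∧
        ∀ h, GenAt B J R₀ h → ∀ i, UnitIn R (h' (some i) / h i))) →
      ∃ h' x' y' Dx' Dy' s' t' b', PtNc B (optJ J I') (blowE e T c) (optV V V₀) R h' x' y'
          Dx' Dy' s' t' b' ∧
        Ad θ R x' y' Dx' Dy' s' t' (∏ j, xi h' (blowE e T c) j ^ optα α a j) ∧
        (Jw θ R x' y' Dx' Dy' s' t' (∏ j, xi h' (blowE e T c) j ^ optα α a j) = ⊤ ∨
          inv2 θ R x' y' Dx' Dy' s' t' (∏ j, xi h' (blowE e T c) j ^ optα α a j) <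
            Nat.find hex) := by
    intro R hR hg
    obtain ⟨h', hh'⟩ := hR.exists_gen
    have hne : ∀ i, h' i ≠ 0 := fun i => (hh'.1 i).1
    rcases hg with ⟨c', hQ, hg⟩ | ⟨hQ, hg⟩
    · obtain ⟨hg1, hg2⟩ := hg h' hh'
      have hg3 := hg2 h₁ hp.gen
      have hx0 : x ≠ 0 := hp.reg.x_ne
      obtain ⟨hA1, hA2⟩ := hd1 R c' hQ
      have hp2 := hp.near hQ hh' hg1 hg3 (hV1 R c' hQ)
      rw [← hTdef] at hp2
      have hv : UnitIn R ((∏ j, xi h' (blowE e T c) j ^ optα α a j) /
          ((∏ j, xi h₁ e j ^ α j) * x ^ μ)) := by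
        rw [prod_xi_blowE hne, mul_div_mul_comm, ha, zpow_natCast, ← div_pow]
        refine (gam_div_unit hg3 e α).mul ?_
        have := hg1.zpow (μ : ℤ)
        rwa [zpow_natCast] at this
      obtain ⟨hA3, hA4⟩ := Ad.congr_unit hp2.reg hA1 hv
      refine ⟨h', _, _, _, _, _, _, _, hp2, hA3, ?_⟩
      rw [hA4, inv2_congr hA4]
      rw [hn] at hA2
      exact hA2
    · obtain ⟨hg1, hg2⟩ := hg h' hh'
      have hg3 := hg2 h₁ hp.gen
      obtain ⟨hA1, hA2⟩ := hd2 R hQ
      have hp1 := hp.symm.near hQ hh' hg1 hg3 (hV2 R hQ)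
      have hT : (fun j => (b j).map not ≠ none) = T := by
        rw [hTdef]
        funext j
        simp
      rw [hT] at hp1
      have hp2 := hp1.symm
      rw [map_zero, sub_zero] at hp2
      simp only [decide_true, Bool.and_true] at hp2
      have hv : UnitIn R ((∏ j, xi h' (blowE e T c) j ^ optα α a j) /
          ((∏ j, xi h₁ e j ^ α j) * y ^ μ)) := by
        rw [prod_xi_blowE hne, mul_div_mul_comm, ha, zpow_natCast, ← div_pow]
        refine (gam_div_unit hg3 e α).mul ?_
        have := hg1.zpow (μ : ℤ)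
        rwa [zpow_natCast] at this
      obtain ⟨hA3, hA4⟩ := Ad.congr_unit hp2.reg hA1 hv
      refine ⟨h', _, _, _, _, _, _, _, hp2, hA3, ?_⟩
      rw [hA4, inv2_congr hA4]
      rw [hn] at hA2
      exact hA2
  refine ⟨optJ J I', blowE e T c, optV V V₀, optα α a, ⟨?_, span_blowE h.span T c, ?_⟩, ?_, ?_⟩
  · intro i
    cases i with
    | none => exact hc.ne
    | some i => exact h.ne i
  · intro R hR
    rcases Pt.blow h.ne hR₀ hc hp.reg hR with ⟨h1, _, h3⟩ | h1 | h1
    · obtain ⟨h₂, x', y', Dx', Dy', s', t', b', hp', hA'⟩ := h.pt R h1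
      obtain ⟨h', hp2, hA2, _⟩ := hfar R hR h3 h₂ x' y' Dx' Dy' s' t' b' hp' hA'
      exact ⟨h', _, _, _, _, _, _, _, hp2, hA2⟩
    · obtain ⟨h', x', y', Dx', Dy', s', t', b', hp', hA', _⟩ := hnear R hR (Or.inl h1)
      exact ⟨h', x', y', Dx', Dy', s', t', b', hp', hA'⟩
    · obtain ⟨h', x', y', Dx', Dy', s', t', b', hp', hA', _⟩ := hnear R hR (Or.inr h1)
      exact ⟨h', x', y', Dx', Dy', s', t', b', hp', hA'⟩
  · intro W hW R hR hRW
    rcases Pt.blow h.ne hR₀ hc hp.reg hR with ⟨h1, _, h3⟩ | ⟨c', hQ, hg⟩ | ⟨hQ, hg⟩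
    · obtain ⟨h₂, x', y', Dx', Dy', s', t', b', hp', j, hj, hjW⟩ := hW R h1 hRW
      obtain ⟨h', hh'⟩ := hR.exists_gen
      obtain ⟨hg1, hg2⟩ := h3 h' hh'
      exact ⟨h', x', y', Dx', Dy', s', t', optb b', hp'.far hh' hg1 hg2 T V₀, some j, hj, hjW⟩
    · obtain ⟨h', hh'⟩ := hR.exists_gen
      obtain ⟨hg1, hg2⟩ := hg h' hh'
      have hg3 := hg2 h₁ hp.gen
      obtain ⟨h₂, x₂, y₂, Dx₂, Dy₂, s₂, t₂, b₂, hp₂, j, hj, hjW⟩ := hW R₀ hR₀ (hQ.le.trans hRW)
      have hbj : b j ≠ none := fun h0 => hp₂.not_unit hj ((hp.change hp₂.gen).b0 j h0)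
      obtain ⟨hb1, hc1⟩ := hp.near_comp hQ hbj (by rw [hjW]; exact hRW)
      have hp2 := hp.near hQ hh' hg1 hg3 (hV1 R c' hQ)
      rw [← hTdef] at hp2
      exact ⟨h', _, _, _, _, _, _, _, hp2, some j, by simp [nearb, hb1, hc1], hjW⟩
    · obtain ⟨h', hh'⟩ := hR.exists_gen
      obtain ⟨hg1, hg2⟩ := hg h' hh'
      have hg3 := hg2 h₁ hp.gen
      obtain ⟨h₂, x₂, y₂, Dx₂, Dy₂, s₂, t₂, b₂, hp₂, j, hj, hjW⟩ := hW R₀ hR₀ (hQ.le.trans hRW)
      have hbj : b j ≠ none := fun h0 => hp₂.not_unit hj ((hp.change hp₂.gen).b0 j h0)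
      have hbj' : (b j).map not ≠ none := by simpa using hbj
      obtain ⟨hb1, -⟩ := hp.symm.near_comp hQ hbj' (by rw [hjW]; exact hRW)
      have hp1 := hp.symm.near hQ hh' hg1 hg3 (hV2 R hQ)
      have hT : (fun j => (b j).map not ≠ none) = T := by
        rw [hTdef]
        funext j
        simp
      rw [hT] at hp1
      have hp2 := hp1.symm
      refine ⟨h', _, _, _, _, _, _, _, hp2, some j, ?_, hjW⟩
      simp only [nearb, hb1]
      simp
  · intro R hR
    have hcase := Pt.blow h.ne hR₀ hc hp.reg hR
    rcases hcase with ⟨h1, h2, h3⟩ | hcase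
    · refine Or.inl ⟨h1, h2, ?_⟩
      rintro m ⟨h₂, x', y', Dx', Dy', s', t', b', hp', hA', hm⟩
      obtain ⟨h', hp2, hA2, hJ2⟩ := hfar R hR h3 h₂ x' y' Dx' Dy' s' t' b' hp' hA'
      refine ⟨h', _, _, _, _, _, _, _, hp2, hA2, ?_⟩
      rw [hJ2, inv2_congr hJ2]
      exact hm
    · refine Or.inr fun m hm => ?_
      obtain ⟨h', x', y', Dx', Dy', s', t', b', hp', hA', hl⟩ := hnear R hR hcase
      refine ⟨h', x', y', Dx', Dy', s', t', b', hp', hA', ?_⟩
      rcases hl with hl | hl
      · exact Or.inl hl
      · right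
        have := hmin m hm
        omega

end Pool.Agent.MP_b525bf_ag_TS
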