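import Pool.Agent.Lib.MP_b525bf_ag_TS.SDefs

/-!
# B1a: points of models, elementary facts
-/

set_option autoImplicit false

namespace Pool.Agent.MP_b525bf_ag_TS

variable {k K : Type} [Field k] [Field K] [Algebra k K] {B : Subalgebra k K} {E : Type}
  [Fintype E] {J : E → Ideal B} {R : Subalgebra k K}

theorem UnitIn.mul {z w : K} (hz : UnitIn R z) (hw : UnitIn R w) : UnitIn R (z * w) :=
  ⟨mul_ne_zero hz.1 hw.1, R.mul_mem hz.2.1 hw.2.1, by
    rw [mul_inv]; exact R.mul_mem hz.2.2 hw.2.2⟩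

theorem UnitIn.inv {z : K} (hz : UnitIn R z) : UnitIn R z⁻¹ :=
  ⟨inv_ne_zero hz.1, hz.2.2, by rw [inv_inv]; exact hz.2.1⟩

theorem UnitIn.one' : UnitIn R (1 : K) :=
  ⟨one_ne_zero, R.one_mem, by rw [inv_one]; exact R.one_mem⟩

theorem UnitIn.pow {z : K} (hz : UnitIn R z) (n : ℕ) : UnitIn R (z ^ n) := by
  induction n with
  | zero => rw [pow_zero]; exact UnitIn.one'
  | succ n ih => rw [pow_succ]; exact ih.mul hz

theorem UnitIn.zpow {z : K} (hz : UnitIn R z) (n : ℤ) : UnitIn R (z ^ n) := by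
  obtain ⟨m, rfl | rfl⟩ := n.eq_nat_or_neg
  · rw [zpow_natCast]; exact hz.pow m
  · rw [zpow_neg, zpow_natCast]; exact (hz.pow m).inv

theorem UnitIn.prod {ι : Type*} (s : Finset ι) {f : ι → K} (hf : ∀ i ∈ s, UnitIn R (f i)) :
    UnitIn R (∏ i ∈ s, f i) := by
  classical
  induction s using Finset.induction_on with
  | empty => rw [Finset.prod_empty]; exact UnitIn.one'
  | insert a s ha ih =>
    rw [Finset.prod_insert ha]
    exact (hf a (Finset.mem_insert_self a s)).mul
      (ih fun i hi => hf i (Finset.mem_insert_of_mem hi))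

/-! ### Localisation at a point -/

theorem mem_ptLoc {C : Subalgebra k K} {χ : C →ₐ[k] k} {z : K} :
    z ∈ ptLoc C χ ↔ ∃ a b : C, χ b ≠ 0 ∧ z * (b : K) = a := Iff.rfl

theorem le_ptLoc {C : Subalgebra k K} {χ : C →ₐ[k] k} : C ≤ ptLoc C χ := by
  intro z hz
  exact ⟨⟨z, hz⟩, 1, by rw [map_one]; exact one_ne_zero, by simp⟩

theorem ne_zero_of_char {C : Subalgebra k K} {χ : C →ₐ[k] k} {z : C} (hz : χ z ≠ 0) :
    (z : K) ≠ 0 := by
  intro h
  apply hz
  have : z = 0 := Subtype.ext h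
  rw [this, map_zero]

/-- The elements of `R` are `scalar + nonunit`. -/
theorem ptLoc_mem {C : Subalgebra k K} {χ : C →ₐ[k] k} (z : C) (hz : χ z ≠ 0) :
    UnitIn (ptLoc C χ) (z : K) := by
  refine ⟨ne_zero_of_char hz, le_ptLoc z.2, 1, z, hz, ?_⟩
  rw [inv_mul_cancel₀ (ne_zero_of_char hz)]
  rfl

/-- Elements which vanish at the point are not units. -/
theorem ptLoc_not_unit {C : Subalgebra k K} {χ : C →ₐ[k] k} (z : C) (hz : χ z = 0) :
    ¬ UnitIn (ptLoc C χ) (z : K) := by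
  rintro ⟨h0, -, a, b, hb, h⟩
  apply hb
  have h1 : b = z * a := by
    apply Subtype.ext
    push_cast
    rw [← h, ← mul_assoc, mul_inv_cancel₀ h0, one_mul]
  rw [h1, map_mul, hz, zero_mul]

theorem exists_rep {C : Subalgebra k K} {χ : C →ₐ[k] k} (z : ptLoc C χ) :
    ∃ p : C × C, χ p.2 ≠ 0 ∧ (z : K) * (p.2 : K) = p.1 := by
  obtain ⟨a, b, hb, h⟩ := z.2
  exact ⟨(a, b), hb, h⟩

/-- A representation as a fraction. -/
noncomputable def ptRep {C : Subalgebra k K} {χ : C →ₐ[k] k} (z : ptLoc C χ) : C × C :=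
  (exists_rep z).choose

theorem ptRep_ne {C : Subalgebra k K} {χ : C →ₐ[k] k} (z : ptLoc C χ) : χ (ptRep z).2 ≠ 0 :=
  (exists_rep z).choose_spec.1

theorem ptRep_eq {C : Subalgebra k K} {χ : C →ₐ[k] k} (z : ptLoc C χ) :
    (z : K) * ((ptRep z).2 : K) = (ptRep z).1 := (exists_rep z).choose_spec.2

theorem ptEv_aux {C : Subalgebra k K} {χ : C →ₐ[k] k} {z : K} {a b a' b' : C} (hb : χ b ≠ 0)
    (hb' : χ b' ≠ 0) (h : z * (b : K) = a) (h' : z * (b' : K) = a') :
    χ a / χ b = χ a' / χ b' := by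
  have h1 : a * b' = a' * b := by
    apply Subtype.ext
    push_cast
    rw [← h, ← h']; ring
  have h2 := congrArg χ h1
  rw [map_mul, map_mul] at h2
  rw [div_eq_div_iff hb hb']
  exact h2

/-- The value at the point. -/
noncomputable def ptEv (C : Subalgebra k K) (χ : C →ₐ[k] k) : ptLoc C χ →ₐ[k] k where
  toFun z := χ (ptRep z).1 / χ (ptRep z).2
  map_one' := by
    rw [ptEv_aux (a' := 1) (b' := 1) (ptRep_ne _) (by rw [map_one]; exact one_ne_zero)
      (ptRep_eq _) (by simp), div_self]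
    rw [map_one]; exact one_ne_zero
  map_mul' z w := by
    rw [ptEv_aux (a' := (ptRep z).1 * (ptRep w).1) (b' := (ptRep z).2 * (ptRep w).2) (ptRep_ne _)
      (by rw [map_mul]; exact mul_ne_zero (ptRep_ne z) (ptRep_ne w)) (ptRep_eq _) (by
        push_cast
        rw [← ptRep_eq z, ← ptRep_eq w]; ring), map_mul, map_mul]
    exact (div_mul_div_comm _ _ _ _).symm
  map_zero' := by
    rw [ptEv_aux (a' := 0) (b' := 1) (ptRep_ne _) (by rw [map_one]; exact one_ne_zero)
      (ptRep_eq _) (by simp), map_zero, zero_div]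
  map_add' z w := by
    rw [ptEv_aux (a' := (ptRep z).1 * (ptRep w).2 + (ptRep w).1 * (ptRep z).2)
      (b' := (ptRep z).2 * (ptRep w).2) (ptRep_ne _)
      (by rw [map_mul]; exact mul_ne_zero (ptRep_ne z) (ptRep_ne w)) (ptRep_eq _) (by
        push_cast
        rw [← ptRep_eq z, ← ptRep_eq w]; ring), map_mul, map_add, map_mul, map_mul,
      div_add_div _ _ (ptRep_ne z) (ptRep_ne w)]
    congr 1
    ring
  commutes' r := by
    rw [ptEv_aux (a' := algebraMap k C r) (b' := 1) (ptRep_ne _)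
      (by rw [map_one]; exact one_ne_zero) (ptRep_eq _) (by simp), map_one, div_one]
    exact χ.commutes r

theorem ptEv_eq {C : Subalgebra k K} {χ : C →ₐ[k] k} (z : ptLoc C χ) {a b : C} (hb : χ b ≠ 0)
    (h : (z : K) * (b : K) = a) : ptEv C χ z = χ a / χ b :=
  ptEv_aux (ptRep_ne z) hb (ptRep_eq z) h

theorem ptEv_coe {C : Subalgebra k K} {χ : C →ₐ[k] k} (z : C) (hz : (z : K) ∈ ptLoc C χ) :
    ptEv C χ ⟨z, hz⟩ = χ z := by
  rw [ptEv_eq (a := z) (b := 1) ⟨(z : K), hz⟩ (by rw [map_one]; exact one_ne_zero) (by simp),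
    map_one, div_one]

/-- Units of the local ring. -/
theorem unitIn_iff_ptEv {C : Subalgebra k K} {χ : C →ₐ[k] k} (z : ptLoc C χ) :
    UnitIn (ptLoc C χ) (z : K) ↔ ptEv C χ z ≠ 0 := by
  constructor
  · rintro ⟨h0, h1, h2⟩ h
    have h3 : z * ⟨(z : K)⁻¹, h2⟩ = 1 := Subtype.ext (mul_inv_cancel₀ h0)
    have h4 := congrArg (ptEv C χ) h3
    rw [map_mul, h, zero_mul, map_one] at h4
    exact zero_ne_one h4
  · intro h
    obtain ⟨a, b, hb, hab⟩ := z.2
    rw [ptEv_eq z hb hab] at h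
    have ha : χ a ≠ 0 := by
      intro ha
      rw [ha, zero_div] at h
      exact h rfl
    have h0 : (z : K) ≠ 0 := by
      intro h0
      rw [h0, zero_mul] at hab
      exact ne_zero_of_char ha hab.symm
    refine ⟨h0, z.2, b, a, ha, ?_⟩
    rw [← hab, ← mul_assoc, inv_mul_cancel₀ h0, one_mul]

/-- A sum of elements of the local ring which is `1` has a term which is a unit. -/
theorem exists_unit_of_sum {C : Subalgebra k K} {χ : C →ₐ[k] k} {ι : Type*} (s : Finset ι)
    (f : ι → K) (hf : ∀ i ∈ s, f i ∈ ptLoc C χ) (h : ∑ i ∈ s, f i = 1) :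
    ∃ i ∈ s, UnitIn (ptLoc C χ) (f i) := by
  classical
  by_contra hc
  push Not at hc
  have h1 : ∀ i : s, ptEv C χ ⟨f i.1, hf i.1 i.2⟩ = 0 := by
    intro i
    by_contra h2
    exact hc i.1 i.2 ((unitIn_iff_ptEv ⟨f i.1, hf i.1 i.2⟩).mpr h2)
  have h2 : (∑ i ∈ s.attach, (⟨f i.1, hf i.1 i.2⟩ : ptLoc C χ)) = 1 := by
    apply Subtype.ext
    rw [AddSubmonoidClass.coe_finsetSum]
    show ∑ i ∈ s.attach, f i.1 = 1
    rw [Finset.sum_attach s f]
    exact h
  have h3 := congrArg (ptEv C χ) h2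
  rw [map_sum, map_one, Finset.sum_eq_zero fun i _ => h1 i] at h3
  exact zero_ne_one h3

/-! ### Points of the blowing up of several ideals -/

theorem le_chartF (h : E → K) : B ≤ chartF B J h := fun _ hz =>
  Algebra.subset_adjoin (Or.inl hz)

theorem div_mem_chartF (h : E → K) (i : E) {w : B} (hw : w ∈ J i) :
    (w : K) / h i ∈ chartF B J h :=
  Algebra.subset_adjoin (Or.inr ⟨i, w, hw, rfl⟩)

theorem Pt.exists_gen (hR : Pt B J R) : ∃ h, GenAt B J R h := by
  obtain ⟨h, hh, χ, rfl⟩ := hR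
  exact ⟨h, hh, fun i w hw => le_ptLoc (div_mem_chartF h i hw)⟩

theorem Pt.le (hR : Pt B J R) : B ≤ R := by
  obtain ⟨h, hh, χ, rfl⟩ := hR
  exact (le_chartF h).trans le_ptLoc

theorem GenAt.unit {h h' : E → K} (hh : GenAt B J R h) (hh' : GenAt B J R h') (i : E) :
    UnitIn R (h' i / h i) := by
  obtain ⟨h0, w, hw, hwh⟩ := hh.1 i
  obtain ⟨h0', w', hw', hwh'⟩ := hh'.1 i
  refine ⟨div_ne_zero h0' h0, ?_, ?_⟩
  · rw [← hwh']
    exact hh.2 i w' hw'
  · rw [inv_div, ← hwh]
    exact hh'.2 i w hw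

theorem GenAt.xi_unit {h h' : E → K} (hh : GenAt B J R h) (hh' : GenAt B J R h')
    (e : E → E → ℤ) (j : E) : UnitIn R (xi h' e j / xi h e j) := by
  unfold xi
  rw [← Finset.prod_div_distrib]
  refine UnitIn.prod _ fun i _ => ?_
  rw [← div_zpow]
  exact (hh.unit hh' i).zpow _

/-- The chart of `h₀` becomes a part of the chart of `h` after multiplication by a power of
`∏ h₀ i / h i`. -/
theorem exists_pow_mul_mem {h₀ h : E → K} (hh₀ : TupIn B J h₀) (a : K)
    (ha : a ∈ chartF B J h₀) :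
    ∃ N : ℕ, ∀ m, N ≤ m → a * (∏ i, h₀ i / h i) ^ m ∈ chartF B J h := by
  classical
  have hU : ∀ i, h₀ i / h i ∈ chartF B J h := by
    intro i
    obtain ⟨h1, w, hw, hwh⟩ := hh₀ i
    rw [← hwh]
    exact div_mem_chartF h i hw
  have hUp : (∏ i, h₀ i / h i) ∈ chartF B J h := Subalgebra.prod_mem _ fun i _ => hU i
  unfold chartF at ha
  induction ha using Algebra.adjoin_induction with
  | mem z hz =>
    rcases hz with hz | ⟨i, w, hw, rfl⟩
    · exact ⟨0, fun m _ => Subalgebra.mul_mem _ (le_chartF h hz) (Subalgebra.pow_mem _ hUp m)⟩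
    · refine ⟨1, fun m hm => ?_⟩
      obtain ⟨m, rfl⟩ := Nat.exists_eq_add_of_le hm
      rw [pow_add, pow_one, ← mul_assoc]
      refine Subalgebra.mul_mem _ ?_ (Subalgebra.pow_mem _ hUp m)
      rw [← Finset.mul_prod_erase Finset.univ _ (Finset.mem_univ i), ← mul_assoc]
      refine Subalgebra.mul_mem _ ?_ (Subalgebra.prod_mem _ fun j _ => hU j)
      have h2 : (w : K) / h₀ i * (h₀ i / h i) = w / h i := by
        have := (hh₀ i).1
        rw [div_mul_div_comm, mul_comm (w : K), mul_div_mul_left _ _ this]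
      rw [h2]
      exact div_mem_chartF h i hw
  | algebraMap r =>
    exact ⟨0, fun m _ => Subalgebra.mul_mem _ (Subalgebra.algebraMap_mem _ r)
      (Subalgebra.pow_mem _ hUp m)⟩
  | add z w hz hw ihz ihw =>
    obtain ⟨N, hN⟩ := ihz
    obtain ⟨N', hN'⟩ := ihw
    refine ⟨max N N', fun m hm => ?_⟩
    rw [add_mul]
    exact Subalgebra.add_mem _ (hN m (le_trans (le_max_left _ _) hm))
      (hN' m (le_trans (le_max_right _ _) hm))
  | mul z w hz hw ihz ihw =>
    obtain ⟨N, hN⟩ := ihz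
    obtain ⟨N', hN'⟩ := ihw
    refine ⟨N + N', fun m hm => ?_⟩
    obtain ⟨m, rfl⟩ := Nat.exists_eq_add_of_le hm
    have h1 : z * w * (∏ i, h₀ i / h i) ^ (N + N' + m) =
        (z * (∏ i, h₀ i / h i) ^ N) * (w * (∏ i, h₀ i / h i) ^ (N' + m)) := by ring
    rw [h1]
    exact Subalgebra.mul_mem _ (hN N le_rfl) (hN' _ (by omega))

/-- The point lies in every chart whose denominators are generators. -/
theorem Pt.exists_char (hR : Pt B J R) {h : E → K} (hh : GenAt B J R h) :
    ∃ χ : chartF B J h →ₐ[k] k, R = ptLoc (chartF B J h) χ := by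
  have hBR := hR.le
  obtain ⟨h₀, hh₀, χ₀, rfl⟩ := hR
  have hgen₀ : GenAt B J (ptLoc (chartF B J h₀) χ₀) h₀ :=
    ⟨hh₀, fun i w hw => le_ptLoc (div_mem_chartF h₀ i hw)⟩
  have hle : chartF B J h ≤ ptLoc (chartF B J h₀) χ₀ := by
    unfold chartF
    rw [Algebra.adjoin_le_iff]
    rintro z (hz | ⟨i, w, hw, rfl⟩)
    · exact hBR hz
    · exact hh.2 i w hw
  refine ⟨(ptEv (chartF B J h₀) χ₀).comp (Subalgebra.inclusion hle), ?_⟩
  have hU : UnitIn (ptLoc (chartF B J h₀) χ₀) (∏ i, h₀ i / h i) :=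
    UnitIn.prod _ fun i _ => hh.unit hgen₀ i
  apply le_antisymm
  · rintro z ⟨a, b, hb, hab⟩
    obtain ⟨N, hN⟩ := exists_pow_mul_mem (h := h) hh₀ (a : K) a.2
    obtain ⟨N', hN'⟩ := exists_pow_mul_mem (h := h) hh₀ (b : K) b.2
    have h1 := hN (N + N') (by omega)
    have h2 := hN' (N + N') (by omega)
    refine ⟨⟨_, h1⟩, ⟨_, h2⟩, ?_, ?_⟩
    · show ptEv (chartF B J h₀) χ₀ ⟨(b : K) * (∏ i, h₀ i / h i) ^ (N + N'), _⟩ ≠ 0
      rw [← unitIn_iff_ptEv]
      exact (ptLoc_mem b hb).mul (hU.pow _)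
    · show z * ((b : K) * (∏ i, h₀ i / h i) ^ (N + N')) = (a : K) * (∏ i, h₀ i / h i) ^ (N + N')
      rw [← hab, mul_assoc]
  · rintro z ⟨a, b, hb, hab⟩
    have hb' : UnitIn (ptLoc (chartF B J h₀) χ₀) (b : K) :=
      (unitIn_iff_ptEv ⟨(b : K), hle b.2⟩).mpr hb
    have h1 : z = (a : K) * (b : K)⁻¹ := by
      rw [← hab, mul_assoc, mul_inv_cancel₀ hb'.1, mul_one]
    rw [h1]
    exact Subalgebra.mul_mem _ (hle a.2) hb'.2.2

theorem exists_finset_span (hB : B.FG) (I : Ideal B) : ∃ s : Finset B, Ideal.span (s : Set B) = I := by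
  have : Algebra.FiniteType k B := (Subalgebra.fg_iff_finiteType B).mp hB
  have : IsNoetherianRing B := Algebra.FiniteType.isNoetherianRing k B
  exact (isNoetherianRing_iff_ideal_fg B).mp inferInstance I

/-- Finitely many charts cover the model. -/
theorem exists_finite_charts (hB : B.FG) (hJ : ∀ i, J i ≠ ⊥) : ∃ S : Set (E → K), S.Finite ∧
    (∀ h ∈ S, TupIn B J h) ∧ ∀ R, Pt B J R → ∃ h ∈ S, GenAt B J R h := by
  classical
  have _ := hJ
  choose s hs using fun i => exists_finset_span hB (J i)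
  let T : E → Finset K := fun i => ((s i).image (fun w : B => (w : K))).filter (· ≠ 0)
  refine ⟨{h | ∀ i, h i ∈ T i}, ?_, ?_, ?_⟩
  · exact Set.Finite.pi' fun i => (T i).finite_toSet
  · intro h hh i
    have h1 := hh i
    simp only [T, Finset.mem_filter, Finset.mem_image] at h1
    obtain ⟨⟨w, hw, hwh⟩, h0⟩ := h1
    refine ⟨h0, w, ?_, hwh⟩
    rw [← hs i]
    exact Ideal.subset_span hw
  · intro R hR
    obtain ⟨h₀, hh₀⟩ := hR.exists_gen
    obtain ⟨χ, hχ⟩ := hR.exists_char hh₀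
    have hBR := hR.le
    have key : ∀ i, ∃ g ∈ s i, UnitIn R ((g : K) / h₀ i) := by
      intro i
      obtain ⟨h0, w, hw, hwh⟩ := hh₀.1 i
      rw [← hs i, Ideal.span, Submodule.mem_span_finset] at hw
      obtain ⟨f, -, hf⟩ := hw
      have h1 : ∑ g ∈ s i, (f g : K) * ((g : K) / h₀ i) = 1 := by
        have h2 := congrArg (fun z : B => (z : K)) hf
        simp only [smul_eq_mul, AddSubmonoidClass.coe_finsetSum, MulMemClass.coe_mul] at h2
        rw [hwh] at h2
        rw [← div_self h0]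
        nth_rewrite 2 [← h2]
        rw [Finset.sum_div]
        refine Finset.sum_congr rfl fun g _ => ?_
        rw [mul_div_assoc]
      have hmem : ∀ g ∈ s i, (g : K) / h₀ i ∈ R := fun g hg =>
        hh₀.2 i g (by rw [← hs i]; exact Ideal.subset_span hg)
      subst hχ
      obtain ⟨g, hg, hgu⟩ := exists_unit_of_sum (s i) (fun g => (f g : K) * ((g : K) / h₀ i))
        (fun g hg => Subalgebra.mul_mem _ (hBR (f g).2) (hmem g hg)) h1
      refine ⟨g, hg, ?_⟩
      have h2 := (unitIn_iff_ptEv ⟨_, hgu.2.1⟩).mp hgu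
      have h3 : (⟨(f g : K) * ((g : K) / h₀ i), hgu.2.1⟩ : ptLoc (chartF B J h₀) χ) =
        ⟨(f g : K), hBR (f g).2⟩ * ⟨(g : K) / h₀ i, hmem g hg⟩ := rfl
      rw [h3, map_mul] at h2
      exact (unitIn_iff_ptEv ⟨(g : K) / h₀ i, hmem g hg⟩).mpr (right_ne_zero_of_mul h2)
    choose g hg hgu using key
    have hne : ∀ i, (g i : K) ≠ 0 := by
      intro i h0
      apply (hgu i).1
      rw [h0, zero_div]
    refine ⟨fun i => (g i : K), ?_, ?_, ?_⟩
    · intro i
      simp only [T, Finset.mem_filter, Finset.mem_image]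
      exact ⟨⟨g i, hg i, rfl⟩, hne i⟩
    · intro i
      refine ⟨hne i, g i, ?_, rfl⟩
      rw [← hs i]
      exact Ideal.subset_span (hg i)
    · intro i w hw
      have h1 : (w : K) / (g i : K) = (w : K) / h₀ i * ((g i : K) / h₀ i)⁻¹ := by
        rw [inv_div, div_mul_div_cancel₀ (hh₀.1 i).1]
      show (w : K) / (g i : K) ∈ R
      rw [h1]
      exact R.mul_mem (hh₀.2 i w hw) (hgu i).2.2

theorem chartF_fg (hB : B.FG) (h : E → K) : (chartF B J h).FG := by
  classical
  obtain ⟨t, ht⟩ := hB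
  choose s hs using fun i => exists_finset_span ⟨t, ht⟩ (J i)
  refine ⟨t ∪ Finset.univ.biUnion fun i => (s i).image fun w : B => (w : K) / h i, ?_⟩
  apply le_antisymm
  · rw [Algebra.adjoin_le_iff]
    intro z hz
    rw [Finset.coe_union, Set.mem_union] at hz
    rcases hz with hz | hz
    · refine le_chartF h ?_
      rw [← ht]
      exact Algebra.subset_adjoin hz
    · simp only [Finset.coe_biUnion, Set.mem_iUnion, Finset.coe_image, Set.mem_image] at hz
      obtain ⟨i, -, w, hw, rfl⟩ := hz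
      refine div_mem_chartF h i ?_
      rw [← hs i]
      exact Ideal.subset_span hw
  · have hBle : B ≤ Algebra.adjoin k
        ((t ∪ Finset.univ.biUnion fun i => (s i).image fun w : B => (w : K) / h i :
          Finset K) : Set K) := by
      refine (le_of_eq ht.symm).trans (Algebra.adjoin_mono ?_)
      intro z hz
      rw [Finset.coe_union]
      exact Or.inl hz
    unfold chartF
    rw [Algebra.adjoin_le_iff]
    rintro z (hz | ⟨i, w, hw, rfl⟩)
    · exact hBle hz
    · rw [← hs i] at hw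
      rw [SetLike.mem_coe]
      induction hw using Submodule.span_induction with
      | mem w hw =>
        apply Algebra.subset_adjoin
        rw [Finset.coe_union]
        refine Or.inr ?_
        simp only [Finset.coe_biUnion, Set.mem_iUnion, Finset.coe_image, Set.mem_image]
        exact ⟨i, Finset.mem_coe.mpr (Finset.mem_univ i), w, hw, rfl⟩
      | zero => rw [ZeroMemClass.coe_zero, zero_div]; exact Subalgebra.zero_mem _
      | add a b _ _ iha ihb =>
        rw [AddMemClass.coe_add, add_div]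
        exact Subalgebra.add_mem _ iha ihb
      | smul a b _ ihb =>
        rw [smul_eq_mul, MulMemClass.coe_mul, mul_div_assoc]
        exact Subalgebra.mul_mem _ (hBle a.2) ihb

end Pool.Agent.MP_b525bf_ag_TS
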