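import Pool.Agent.Lib.MP_b525bf_ag_TS.Loc2
import Pool.Agent.Lib.MP_b525bf_ag_TS.PtsA

/-!
# The coordinates of a regular local ring are prime elements

`Reg.prime_x`: if `z * w` is divisible by `x` in `R`, so is `z` or `w`.
`Reg.isNoetherianRing`: `R` is Noetherian.
`Reg.exists_dec`: every `z` which is not divisible by `x` is `x u + y ^ n v` with a unit `v`.
-/

set_option autoImplicit false

namespace Pool.Agent.MP_b525bf_ag_TS

open MvPolynomial

variable {k K : Type} [Field k] [Field K] [Algebra k K]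
  {R : Subalgebra k K} {x y : K} {Dx Dy : Derivation k K K}

namespace H41P

/-- The local ring of a point of an algebra of finite type is Noetherian. -/
theorem isNoetherianRing_ptLoc {C : Subalgebra k K} (hC : C.FG) (χ : C →ₐ[k] k) :
    IsNoetherianRing (ptLoc C χ) := by
  have : Algebra.FiniteType k C := (Subalgebra.fg_iff_finiteType C).mp hC
  have hN : IsNoetherianRing C := Algebra.FiniteType.isNoetherianRing k C
  rw [isNoetherianRing_iff_ideal_fg]
  intro I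
  let f : C →+* ptLoc C χ := (Subalgebra.inclusion (le_ptLoc (χ := χ))).toRingHom
  obtain ⟨s, hs⟩ := (isNoetherianRing_iff_ideal_fg C).mp hN (I.comap f)
  have h1 : I = (I.comap f).map f := by
    apply le_antisymm
    · intro z hz
      obtain ⟨a, b, hb, hab⟩ := z.2
      have hu : UnitIn (ptLoc C χ) (b : K) := ptLoc_mem b hb
      have h2 : z = f a * ⟨(b : K)⁻¹, hu.2.2⟩ := by
        apply Subtype.ext
        change (z : K) = (a : K) * (b : K)⁻¹
        rw [← hab, mul_assoc, mul_inv_cancel₀ hu.1, mul_one]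
      rw [h2]
      apply Ideal.mul_mem_right
      apply Ideal.mem_map_of_mem
      rw [Ideal.mem_comap]
      have h3 : f a = z * f b := by
        apply Subtype.ext
        change (a : K) = (z : K) * (b : K)
        exact hab.symm
      rw [h3]
      exact I.mul_mem_right _ hz
    · exact Ideal.map_comap_le
  rw [h1]
  exact Ideal.FG.map ⟨s, hs⟩ f

/-- The variables are a regular sequence on a flat module. -/
theorem flat_rel_aux {C : Type} [CommRing C] [Algebra (MvPolynomial (Fin 2) k) C]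
    [Module.Flat (MvPolynomial (Fin 2) k) C] {z w : C}
    (h : (X 1 : MvPolynomial (Fin 2) k) • z = (X 0 : MvPolynomial (Fin 2) k) • w) :
    ∃ u : C, z = (X 0 : MvPolynomial (Fin 2) k) • u := by
  have hrel : ∑ i, (![(X 1 : MvPolynomial (Fin 2) k), -X 0]) i • (![z, w] : Fin 2 → C) i = 0 := by
    rw [Fin.sum_univ_two]
    change (X 1 : MvPolynomial (Fin 2) k) • z + (-X 0 : MvPolynomial (Fin 2) k) • w = 0
    rw [h, neg_smul, add_neg_cancel]
  obtain ⟨n, a, v, hav, hfa⟩ := Module.Flat.isTrivialRelation_of_sum_smul_eq_zero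
    (R := MvPolynomial (Fin 2) k) (M := C) (f := ![(X 1 : MvPolynomial (Fin 2) k), -X 0])
    (x := ![z, w]) hrel
  have hdiv : ∀ j, ∃ c : MvPolynomial (Fin 2) k, a 0 j = X 0 * c := by
    intro j
    have h1 := hfa j
    rw [Fin.sum_univ_two] at h1
    change (X 1 : MvPolynomial (Fin 2) k) * a 0 j + (-X 0 : MvPolynomial (Fin 2) k) * a 1 j = 0
      at h1
    have h2 : (X 0 : MvPolynomial (Fin 2) k) ∣ X 1 * a 0 j := ⟨a 1 j, by linear_combination h1⟩
    have hp : Prime (X 0 : MvPolynomial (Fin 2) k) := MvPolynomial.X_prime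
    rcases hp.dvd_or_dvd h2 with h3 | h3
    · rw [MvPolynomial.X_dvd_X] at h3
      exact absurd h3 (by decide)
    · exact h3
  choose c hc using hdiv
  have hz := hav 0
  change z = ∑ j, a 0 j • v j at hz
  refine ⟨∑ j, c j • v j, ?_⟩
  rw [hz, Finset.smul_sum]
  refine Finset.sum_congr rfl fun j _ => ?_
  rw [hc j, mul_smul]

/-- The coordinates are a regular sequence on the étale algebra. -/
theorem flat_rel {C : Subalgebra k K} {x y : K} (hx : x ∈ C) (hy : y ∈ C)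
    (het : (aeval ![(⟨x, hx⟩ : C), ⟨y, hy⟩] : MvPolynomial (Fin 2) k →ₐ[k] C).toRingHom.Etale)
    {z w : C} (h : (y : K) * z = x * w) : ∃ u : C, (z : K) = x * u := by
  let φ : MvPolynomial (Fin 2) k →ₐ[k] C := aeval ![(⟨x, hx⟩ : C), ⟨y, hy⟩]
  let _ : Algebra (MvPolynomial (Fin 2) k) C := φ.toRingHom.toAlgebra
  have het' : Algebra.Etale (MvPolynomial (Fin 2) k) C := het
  have hfl : Module.Flat (MvPolynomial (Fin 2) k) C := inferInstance
  have hX0 : ∀ (p : MvPolynomial (Fin 2) k) (c : C), p • c = φ p * c := fun _ _ => rfl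
  have e0 : φ (X 0) = ⟨x, hx⟩ := aeval_X _ _
  have e1 : φ (X 1) = ⟨y, hy⟩ := aeval_X _ _
  obtain ⟨u, hu⟩ := flat_rel_aux (k := k) (C := C) (z := z) (w := w) (by
    rw [hX0, hX0, e0, e1]
    exact Subtype.ext h)
  refine ⟨u, ?_⟩
  rw [hX0, e0] at hu
  exact congrArg Subtype.val hu

end H41P

/-- The local ring is Noetherian. -/
theorem Reg.isNoetherianRing (h : Reg R x y Dx Dy) : IsNoetherianRing R := by
  obtain ⟨C, χ, hx, hy, rfl, -, -, het⟩ := h.et
  refine H41P.isNoetherianRing_ptLoc ?_ χ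
  let φ : MvPolynomial (Fin 2) k →ₐ[k] C := aeval ![(⟨x, hx⟩ : C), ⟨y, hy⟩]
  let _ : Algebra (MvPolynomial (Fin 2) k) C := φ.toRingHom.toAlgebra
  have htow : IsScalarTower k (MvPolynomial (Fin 2) k) C :=
    IsScalarTower.of_algebraMap_eq' φ.comp_algebraMap.symm
  have het' : Algebra.Etale (MvPolynomial (Fin 2) k) C := het
  rw [Subalgebra.fg_iff_finiteType]
  exact Algebra.FiniteType.trans (S := MvPolynomial (Fin 2) k) inferInstance inferInstance

/-- `x`, `y` is a regular sequence. -/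
theorem Reg.reg_seq (h : Reg R x y Dx Dy) {z : K} (hz : z ∈ R) (hyz : ∃ w ∈ R, y * z = x * w) :
    ∃ u ∈ R, z = x * u := by
  obtain ⟨C, χ, hx, hy, hR, -, -, het⟩ := h.et
  obtain ⟨w, hw, hyz⟩ := hyz
  have hCR : ∀ c : C, (c : K) ∈ R := fun c => by rw [hR]; exact le_ptLoc c.2
  rw [hR] at hz hw
  obtain ⟨a, b, hb, hab⟩ := hz
  obtain ⟨a', b', hb', hab'⟩ := hw
  have hu : UnitIn R ((b * b' : C) : K) := by
    rw [hR]
    exact ptLoc_mem _ (by rw [map_mul]; exact mul_ne_zero hb hb')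
  have h1 : (y : K) * ((a * b' : C) : K) = x * ((a' * b : C) : K) := by
    push_cast
    rw [← hab, ← hab']
    linear_combination (b : K) * b' * hyz
  obtain ⟨u, hu1⟩ := H41P.flat_rel hx hy het h1
  refine ⟨u * ((b * b' : C) : K)⁻¹, R.mul_mem (hCR u) hu.2.2, ?_⟩
  rw [← mul_assoc, ← hu1, eq_mul_inv_iff_mul_eq₀ hu.1]
  push_cast
  rw [← hab]; ring

theorem Reg.reg_pow (h : Reg R x y Dx Dy) (n : ℕ) {z : K} (hz : z ∈ R)
    (hyz : ∃ w ∈ R, y ^ n * z = x * w) : ∃ u ∈ R, z = x * u := by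
  induction n with
  | zero =>
    obtain ⟨w, hw, e⟩ := hyz
    exact ⟨w, hw, by rw [← e, pow_zero, one_mul]⟩
  | succ n ih =>
    obtain ⟨w, hw, e⟩ := hyz
    refine ih (h.reg_seq (R.mul_mem (R.pow_mem h.hy n) hz) ⟨w, hw, ?_⟩)
    rw [← e, pow_succ]; ring

theorem Reg.one_notMem_x (h : Reg R x y Dx Dy) : ¬ ∃ u ∈ R, (1 : K) = x * u := by
  rintro ⟨u, hu, e⟩
  exact h.one u hu 0 R.zero_mem (by rw [e]; ring)

/-- Krull's intersection theorem on the curve `x = 0`. -/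
theorem Reg.exists_dec (h : Reg R x y Dx Dy) {z : K} (hz : z ∈ R)
    (hzx : ¬ ∃ u ∈ R, z = x * u) :
    ∃ (n : ℕ) (u v : K), u ∈ R ∧ UnitIn R v ∧ z = x * u + y ^ n * v := by
  classical
  have hN := h.isNoetherianRing
  have hex : ∃ n, ¬ ∃ u ∈ R, ∃ v ∈ R, z = x * u + y ^ n * v := by
    by_contra hcon
    push Not at hcon
    let I : Ideal R := Ideal.span {(⟨x, h.hx⟩ : R)}
    have hkr := Ideal.iInf_pow_smul_eq_bot_of_le_jacobson (M := R ⧸ I) (mId R x y)
      (Loc2.le_jacobson h)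
    have h1 : (Ideal.Quotient.mk I ⟨z, hz⟩) ∈ (⨅ i : ℕ, mId R x y ^ i •
        (⊤ : Submodule R (R ⧸ I))) := by
      rw [Submodule.mem_iInf]
      intro n
      obtain ⟨u, hu, v, hv, e⟩ := hcon n
      have h2 : (Ideal.Quotient.mk I ⟨z, hz⟩) =
          ((⟨y, h.hy⟩ : R) ^ n) • (Ideal.Quotient.mk I ⟨v, hv⟩) := by
        have h3 : ((⟨y, h.hy⟩ : R) ^ n) • (Ideal.Quotient.mk I ⟨v, hv⟩) =
          Ideal.Quotient.mk I ((⟨y, h.hy⟩ : R) ^ n * ⟨v, hv⟩) := rfl
        rw [h3, Ideal.Quotient.eq, Ideal.mem_span_singleton]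
        refine ⟨⟨u, hu⟩, Subtype.ext ?_⟩
        change z - y ^ n * v = x * u
        rw [e]; ring
      rw [h2]
      exact Submodule.smul_mem_smul (Ideal.pow_mem_pow (Loc2.y_mem h) n) trivial
    rw [hkr, Submodule.mem_bot, Ideal.Quotient.eq_zero_iff_mem, Ideal.mem_span_singleton] at h1
    obtain ⟨u, hu⟩ := h1
    exact hzx ⟨u, u.2, congrArg Subtype.val hu⟩
  have h1 := Nat.find_spec hex
  have h2 : Nat.find hex ≠ 0 := by
    intro h0
    rw [h0] at h1
    exact h1 ⟨0, R.zero_mem, z, hz, by rw [mul_zero, zero_add, pow_zero, one_mul]⟩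
  obtain ⟨n, hn⟩ := Nat.exists_eq_succ_of_ne_zero h2
  have h3 : ∃ u ∈ R, ∃ v ∈ R, z = x * u + y ^ n * v := by
    by_contra hne
    exact Nat.find_min hex (m := n) (by omega) hne
  obtain ⟨u, hu, v, hv, e⟩ := h3
  refine ⟨n, u, v, hu, ?_, e⟩
  by_contra hnu
  have h4 : (⟨v, hv⟩ : R) ∈ mId R x y := by
    by_contra h5
    exact hnu (h.unitIn.1 h5)
  rw [h.mem_mId'] at h4
  obtain ⟨a, ha, b, hb, e'⟩ := h4
  rw [hn] at h1
  apply h1
  refine ⟨u + y ^ n * a, R.add_mem hu (R.mul_mem (R.pow_mem h.hy n) ha), b, hb, ?_⟩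
  change v = x * a + y * b at e'
  rw [e, e', pow_succ]; ring

/-- `x` is a prime element of `R`. -/
theorem Reg.prime_x (h : Reg R x y Dx Dy) {z w : K} (hz : z ∈ R) (hw : w ∈ R)
    (hzw : ∃ u ∈ R, z * w = x * u) : (∃ u ∈ R, z = x * u) ∨ ∃ u ∈ R, w = x * u := by
  by_contra hcon
  push Not at hcon
  obtain ⟨h1, h2⟩ := hcon
  obtain ⟨n, a, b, ha, hb, e⟩ := h.exists_dec hz (by push Not; exact h1)
  obtain ⟨m, a', b', ha', hb', e'⟩ := h.exists_dec hw (by push Not; exact h2)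
  obtain ⟨u, hu, e2⟩ := hzw
  have hbb := hb.mul hb'
  have h3 : ∃ w ∈ R, y ^ (n + m) * (b * b') = x * w := by
    refine ⟨u - (a * w + a' * (y ^ n * b)), R.sub_mem hu (R.add_mem (R.mul_mem ha hw)
      (R.mul_mem ha' (R.mul_mem (R.pow_mem h.hy n) hb.2.1))), ?_⟩
    rw [mul_sub, ← e2, pow_add]
    linear_combination (-w) * e + (-(y ^ n * b)) * e'
  obtain ⟨v, hv, e3⟩ := h.reg_pow (n + m) hbb.2.1 h3
  refine h.one_notMem_x ⟨v * (b * b')⁻¹, R.mul_mem hv hbb.2.2, ?_⟩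
  rw [← mul_assoc, ← e3, mul_inv_cancel₀ hbb.1]

/-- `y` is a prime element of `R`. -/
theorem Reg.prime_y (h : Reg R x y Dx Dy) {z w : K} (hz : z ∈ R) (hw : w ∈ R)
    (hzw : ∃ u ∈ R, z * w = y * u) : (∃ u ∈ R, z = y * u) ∨ ∃ u ∈ R, w = y * u :=
  h.symm.prime_x hz hw hzw

end Pool.Agent.MP_b525bf_ag_TS
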