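import Pool.Agent.Lib.MP_b525bf_ag_TS.AddAux3

/-!
# F2: adding a resolved curve to the boundary
-/

set_option autoImplicit false

namespace Pool.Agent.MP_b525bf_ag_TS

open MvPolynomial

variable {k : Type} [Field k] {E : Type} [Fintype E] {J : E → Ideal (BB k (Fin 2))}
  {e : E → E → ℤ} {V : E → Subalgebra k (KK k (Fin 2))}

/-- The object of a curve. -/
noncomputable def curveObj (π : MvPolynomial (Fin 2) k) : Obj k (KK k (Fin 2)) :=
  ⟨algebraMap _ (KK k (Fin 2)) π, lform 1 (algebraMap _ (KK k (Fin 2)) π)⟩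

namespace H41F

/-- At a clean point one of the coefficients is a unit. -/
theorem exists_unit_of_clean {K : Type} [Field K] [Algebra k K] {R : Subalgebra k K} {x y : K}
    {Dx Dy : Derivation k K K} {θ : Obj k K} {s t : Bool} {γ : K} (hreg : Reg R x y Dx Dy)
    (hA : Ad θ R x y Dx Dy s t γ)
    (hc : Jw θ R x y Dx Dy s t γ = ⊤ ∨ inv2 θ R x y Dx Dy s t γ ≤ 0) :
    UnitIn R (θ.h / γ) ∨ UnitIn R (θ.ω (lD s x Dx) / γ) ∨ UnitIn R (θ.ω (lD t y Dy) / γ) := by
  have htop : Jw θ R x y Dx Dy s t γ = ⊤ := by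
    rcases hc with h | h
    · exact h
    · unfold inv2 at h
      have h1 : Module.finrank k (R ⧸ Jw θ R x y Dx Dy s t γ) = 0 := by omega
      have := hA.fin
      rw [Module.finrank_zero_iff] at h1
      exact (Ideal.Quotient.subsingleton_iff).1 h1
  by_contra hcon
  push Not at hcon
  obtain ⟨h1, h2, h3⟩ := hcon
  have hle : Jw θ R x y Dx Dy s t γ ≤ mId R x y := by
    unfold Jw
    rw [Ideal.span_le]
    intro z hz
    rw [SetLike.mem_coe]
    by_contra h4
    have h5 := hreg.unitIn.1 h4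
    rcases hz with hz | hz | hz
    · rw [hz] at h5; exact h1 h5
    · rw [hz] at h5; exact h2 h5
    · rw [hz] at h5; exact h3 h5
  rw [htop] at hle
  exact Loc2.one_notMem hreg (hle trivial)

/-- If the function vanishes at the clean point, it is a coordinate. -/
theorem deriv_unit {K : Type} [Field K] [Algebra k K] {R : Subalgebra k K} {x y : K}
    {Dx Dy : Derivation k K K} {s : Bool} {γ g : K} (hreg : Reg R x y Dx Dy) (hγ : γ ≠ 0)
    (hg : lD s x Dx γ / γ ∈ R) (hH : g / γ ∈ R) (hHu : ¬ UnitIn R (g / γ))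
    (hA : UnitIn R (lD s x Dx g / γ)) : s = false ∧ UnitIn R (Dx (g / γ)) := by
  have hHm : (⟨g / γ, hH⟩ : R) ∈ mId R x y := by
    by_contra h1
    exact hHu (hreg.unitIn.1 h1)
  have e1 : lD s x Dx (g / γ) = lD s x Dx g / γ - g / γ * (lD s x Dx γ / γ) := by
    have h1 : g = g / γ * γ := by rw [div_mul_cancel₀ _ hγ]
    have h2 : lD s x Dx g = g / γ * lD s x Dx γ + γ * lD s x Dx (g / γ) := by
      conv_lhs => rw [h1]
      rw [Derivation.leibniz, smul_eq_mul, smul_eq_mul]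
    rw [h2, add_div, mul_div_assoc, mul_div_cancel_left₀ _ hγ]
    ring
  have hδR : lD s x Dx (g / γ) ∈ R := by
    rw [e1]
    exact R.sub_mem hA.2.1 (R.mul_mem hH hg)
  have hδ : UnitIn R (lD s x Dx (g / γ)) := by
    have h3 : (⟨lD s x Dx (g / γ), hδR⟩ : R) ∉ mId R x y := by
      intro h4
      have h5 : (⟨lD s x Dx g / γ, hA.2.1⟩ : R) ∈ mId R x y := by
        have h6 : (⟨lD s x Dx g / γ, hA.2.1⟩ : R) =
            ⟨lD s x Dx (g / γ), hδR⟩ + ⟨g / γ, hH⟩ * ⟨lD s x Dx γ / γ, hg⟩ := by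
          apply Subtype.ext
          change lD s x Dx g / γ = lD s x Dx (g / γ) + g / γ * (lD s x Dx γ / γ)
          rw [e1]; ring
        rw [h6]
        exact Ideal.add_mem _ h4 (Ideal.mul_mem_right _ _ hHm)
      exact (hreg.unitIn (z := ⟨lD s x Dx g / γ, hA.2.1⟩)).2 hA h5
    exact hreg.unitIn.1 h3
  cases s with
  | false => exact ⟨rfl, hδ⟩
  | true =>
    exfalso
    have e2 : lD true x Dx (g / γ) = x * Dx (g / γ) := rfl
    have h4 : (⟨lD true x Dx (g / γ), hδR⟩ : R) ∈ mId R x y := by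
      have h6 : (⟨lD true x Dx (g / γ), hδR⟩ : R) = ⟨x, hreg.hx⟩ * ⟨Dx (g / γ),
          hreg.Dx_mem _ hH⟩ := Subtype.ext e2
      rw [h6]
      exact Ideal.mul_mem_right _ _ (Loc2.x_mem hreg)
    exact (hreg.unitIn (z := ⟨lD true x Dx (g / γ), hδR⟩)).2 hδ h4

end H41F

open H41F

/-- If the object of a curve is clean, the curve can be added to the boundary. -/
theorem Stage2.add_curve [IsAlgClosed k] {π : MvPolynomial (Fin 2) k} (hπ : Prime π) {α : E → ℤ}
    (h : Stage2 (BB k (Fin 2)) (curveObj π) J e V α)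
    (hnot : ∀ j R g x y Dx Dy s t b, Pt (BB k (Fin 2)) J R →
      PtNc (BB k (Fin 2)) J e V R g x y Dx Dy s t b → b j ≠ none → V j ≠ primeLoc π hπ)
    (hclean : ∀ R, Pt (BB k (Fin 2)) J R → Lv (BB k (Fin 2)) (curveObj π) J e V α 0 R) :
    ∃ (J' : Option E → Ideal (BB k (Fin 2))) (e' : Option E → Option E → ℤ)
      (V' : Option E → Subalgebra k (KK k (Fin 2))), Nc2 (BB k (Fin 2)) J' e' V' ∧
      (∀ W, InBd (BB k (Fin 2)) J e V W → InBd (BB k (Fin 2)) J' e' V' W) ∧
      InBd (BB k (Fin 2)) J' e' V' (primeLoc π hπ) := by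
  classical
  have hnc : Nc2 (BB k (Fin 2)) J e V := ⟨h.ne, h.span, fun R hR => by
    obtain ⟨g, x, y, Dx, Dy, s, t, b, hp, -⟩ := h.pt R hR
    exact ⟨g, x, y, Dx, Dy, s, t, b, hp⟩⟩
  have hπ0 : algebraMap _ (KK k (Fin 2)) π ≠ 0 := H41F.ne_zero hπ.ne_zero
  have key : ∀ R, Pt (BB k (Fin 2)) J R → ∃ g x y Dx Dy s t b g' x' y' Dx' Dy' s' t' b',
      PtNc (BB k (Fin 2)) J e V R g x y Dx Dy s t b ∧
      PtNc (BB k (Fin 2)) (optJ J (Ideal.span {el π})) (addE e α) (addV V (primeLoc π hπ)) R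
        g' x' y' Dx' Dy' s' t' b' ∧ (∀ j, b j ≠ none → b' (some j) ≠ none) ∧
      (b' none = none → UnitIn R (algebraMap _ (KK k (Fin 2)) π / ∏ j, xi g e j ^ α j)) := by
    intro R hR
    obtain ⟨g, x, y, Dx, Dy, s, t, b, hp, hA, hc⟩ := hclean R hR
    by_cases hH : UnitIn R (algebraMap _ (KK k (Fin 2)) π / ∏ j, xi g e j ^ α j)
    · exact ⟨g, x, y, Dx, Dy, s, t, b, _, _, _, _, _, _, _, _, hp, core_unit hπ hR hp hH,
        fun j hj => hj, fun _ => hH⟩
    · have hHm : algebraMap _ (KK k (Fin 2)) π / ∏ j, xi g e j ^ α j ∈ mx R := by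
        refine ⟨hA.ah, ?_⟩
        by_contra h1
        push Not at h1
        exact hH ⟨h1.1, hA.ah, h1.2⟩
      rcases exists_unit_of_clean hp.reg hA hc with h1 | h1 | h1
      · exact absurd h1 hH
      · have h2 : (curveObj π).ω (lD s x Dx) = lD s x Dx (algebraMap _ (KK k (Fin 2)) π) :=
          one_mul _
        rw [h2] at h1
        obtain ⟨rfl, h3⟩ := deriv_unit hp.reg hA.ne hA.gx hA.ah hH h1
        obtain ⟨D1, D2, h4⟩ := core hπ h.span hR hp hHm h3
        exact ⟨g, x, y, Dx, Dy, _, t, b, _, _, _, _, _, _, _, _, hp, h4, fun j hj => hj,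
          fun h5 => absurd h5 (by simp [addb])⟩
      · have h2 : (curveObj π).ω (lD t y Dy) = lD t y Dy (algebraMap _ (KK k (Fin 2)) π) :=
          one_mul _
        rw [h2] at h1
        have hps := swap hp
        obtain ⟨rfl, h3⟩ := deriv_unit hps.reg hA.ne hA.gy hA.ah hH h1
        obtain ⟨D1, D2, h4⟩ := core hπ h.span hR hps hHm h3
        exact ⟨g, x, y, Dx, Dy, s, _, b, _, _, _, _, _, _, _, _, hp, h4, fun j hj => by
          change (b j).map not ≠ none
          simpa using hj, fun h5 => absurd h5 (by simp [addb])⟩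
  refine ⟨optJ J (Ideal.span {el π}), addE e α, addV V (primeLoc π hπ), ⟨?_, ?_, ?_⟩, ?_, ?_⟩
  · rintro (_ | i)
    · change Ideal.span {el π} ≠ ⊥
      rw [Ne, Ideal.span_singleton_eq_bot]
      intro h1
      exact hπ0 (congrArg Subtype.val h1)
    · exact h.ne i
  · exact span_add h.span
  · intro R hR
    obtain ⟨-, -, -, -, -, -, -, -, g', x', y', Dx', Dy', s', t', b', -, hp', -⟩ :=
      key R (pt_add hR)
    exact ⟨g', x', y', Dx', Dy', s', t', b', hp'⟩
  · intro W hW R hR hRW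
    have hR0 := pt_add hR
    obtain ⟨g, x, y, Dx, Dy, s, t, b, g', x', y', Dx', Dy', s', t', b', hp, hp', hb, -⟩ :=
      key R hR0
    obtain ⟨g₁, x₁, y₁, Dx₁, Dy₁, s₁, t₁, b₁, hp₁, j, hj, hVj⟩ := hW R hR0 hRW
    have h1 := (hnc.passes_iff hR0 hp₁ hp hj).1 (by rw [hVj]; exact hRW)
    exact ⟨g', x', y', Dx', Dy', s', t', b', hp', some j, hb j h1, hVj⟩
  · intro R hR hRW
    have hR0 := pt_add hR
    obtain ⟨g, x, y, Dx, Dy, s, t, b, g', x', y', Dx', Dy', s', t', b', hp, hp', hb, hn⟩ :=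
      key R hR0
    by_cases h1 : b' none = none
    · exfalso
      have hH := hn h1
      have hξ : ∀ j, UnitIn (primeLoc π hπ) (xi g e j) := by
        intro j
        by_cases hj : b j = none
        · have h2 := hp.b0 j hj
          exact ⟨h2.1, hRW h2.2.1, hRW h2.2.2⟩
        · have h2 := hp.val j hj
          have h3 : xi g e j ≠ 0 := Finset.prod_ne_zero_iff.2 fun i _ =>
            zpow_ne_zero _ (hp.gen.1 i).1
          refine ⟨h3, hRW h2.1, ?_⟩
          by_contra h4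
          exact hnot j R g x y Dx Dy s t b hR0 hp hj (eq_of_val hπ hR0.le hRW h2 h4)
      have hγ : UnitIn (primeLoc π hπ) (∏ j, xi g e j ^ α j) :=
        UnitIn.prod _ fun j _ => (hξ j).zpow _
      have h5 : UnitIn (primeLoc π hπ)
          ((algebraMap _ (KK k (Fin 2)) π / ∏ j, xi g e j ^ α j) * ∏ j, xi g e j ^ α j) :=
        UnitIn.mul ⟨hH.1, hRW hH.2.1, hRW hH.2.2⟩ hγ
      rw [div_mul_cancel₀ _ hγ.1] at h5
      exact inv_notMem hπ h5.2.2
    · exact ⟨g', x', y', Dx', Dy', s', t', b', hp', none, h1, rfl⟩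

end Pool.Agent.MP_b525bf_ag_TS
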