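import Pool.Agent.Lib.MP_b525bf_ag_TS.RegEt

/-!
# Coordinates in a neighbourhood of a point
-/

set_option autoImplicit false

namespace Pool.Agent.MP_b525bf_ag_TS

variable {k K : Type} [Field k] [Field K] [Algebra k K]

/-- The subalgebra `C[1/f]`. -/
def aw (C : Subalgebra k K) (f : K) (hf : f ∈ C) : Subalgebra k K where
  carrier := {z | ∃ n : ℕ, z * f ^ n ∈ C}
  mul_mem' := by
    rintro z w ⟨n, hn⟩ ⟨m, hm⟩
    refine ⟨n + m, ?_⟩
    have := C.mul_mem hn hm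
    rwa [show z * f ^ n * (w * f ^ m) = z * w * f ^ (n + m) by ring] at this
  add_mem' := by
    rintro z w ⟨n, hn⟩ ⟨m, hm⟩
    refine ⟨n + m, ?_⟩
    have h1 := C.mul_mem hn (C.pow_mem hf m)
    have h2 := C.mul_mem hm (C.pow_mem hf n)
    have := C.add_mem h1 h2
    rwa [show z * f ^ n * f ^ m + w * f ^ m * f ^ n = (z + w) * f ^ (n + m) by ring] at this
  algebraMap_mem' r := ⟨0, by rw [pow_zero, mul_one]; exact C.algebraMap_mem r⟩

theorem le_aw (C : Subalgebra k K) (f : K) (hf : f ∈ C) : C ≤ aw C f hf := fun z hz =>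
  ⟨0, by rw [pow_zero, mul_one]; exact hz⟩

theorem inv_mem_aw {C : Subalgebra k K} {f : K} (hf : f ∈ C) (hf0 : f ≠ 0) : f⁻¹ ∈ aw C f hf :=
  ⟨1, by rw [pow_one, inv_mul_cancel₀ hf0]; exact C.one_mem⟩

theorem aw_mono {C : Subalgebra k K} {f g : K} (hf : f ∈ C) (hg : g ∈ C) :
    aw C f hf ≤ aw C (f * g) (C.mul_mem hf hg) := by
  rintro z ⟨n, hn⟩
  refine ⟨n, ?_⟩
  rw [mul_pow, ← mul_assoc]
  exact C.mul_mem hn (C.pow_mem hg n)

theorem aw_le_ptLoc {C : Subalgebra k K} {f : C} {ψ : C →ₐ[k] k} (hψ : ψ f ≠ 0) :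
    aw C f f.2 ≤ ptLoc C ψ := by
  rintro z ⟨n, hn⟩
  exact ⟨⟨_, hn⟩, f ^ n, by rw [map_pow]; exact pow_ne_zero n hψ, by push_cast; rfl⟩

theorem exists_den {C : Subalgebra k K} {χ : C →ₐ[k] k} {S : Set K} (hS : S.Finite)
    (hSR : S ⊆ ptLoc C χ) : ∃ f : C, χ f ≠ 0 ∧ ∀ z ∈ S, z * (f : K) ∈ C := by
  induction S, hS using Set.Finite.induction_on with
  | empty => exact ⟨1, by rw [map_one]; exact one_ne_zero, fun z hz => absurd hz (by simp)⟩
  | @insert s S _ _ ih =>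
    obtain ⟨f, hf, h⟩ := ih fun z hz => hSR (Set.mem_insert_of_mem _ hz)
    obtain ⟨a, b, hb, hab⟩ := hSR (Set.mem_insert s S)
    refine ⟨b * f, by rw [map_mul]; exact mul_ne_zero hb hf, fun z hz => ?_⟩
    push_cast
    rcases Set.mem_insert_iff.1 hz with rfl | hz
    · rw [← mul_assoc, hab]; exact C.mul_mem a.2 f.2
    · rw [mul_left_comm]; exact C.mul_mem b.2 (h z hz)

theorem coe_ne_zero {C : Subalgebra k K} {χ : C →ₐ[k] k} {a : C} (ha : χ a ≠ 0) : (a : K) ≠ 0 := by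
  intro h0
  apply ha
  have : a = 0 := Subtype.ext h0
  rw [this, map_zero]

theorem inv_mem_ptLoc {C : Subalgebra k K} {χ : C →ₐ[k] k} {a : C} (ha : χ a ≠ 0) :
    (a : K)⁻¹ ∈ ptLoc C χ :=
  ⟨1, a, ha, by rw [inv_mul_cancel₀ (coe_ne_zero ha)]; rfl⟩

/-- Coordinates at a point are coordinates in a neighbourhood. -/
theorem Reg.spread {C : Subalgebra k K} (hC : C.FG) {χ : C →ₐ[k] k} {x y : K}
    {Dx Dy : Derivation k K K} (hreg : Reg (ptLoc C χ) x y Dx Dy) {S : Set K} (hS : S.Finite)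
    (hSR : S ⊆ ptLoc C χ) :
    ∃ f : C, χ f ≠ 0 ∧ ∀ ψ : C →ₐ[k] k, ψ f ≠ 0 → S ⊆ ptLoc C ψ ∧ ∃ a b : k,
      Reg (ptLoc C ψ) (x - algebraMap k K a) (y - algebraMap k K b) Dx Dy ∧
      (a = 0 → b = 0 → ψ = χ) := by
  classical
  obtain ⟨C₁, χ₁, hx₁, hy₁, hR, hx0, hy0, het⟩ := hreg.et
  obtain ⟨t, ht⟩ := hC
  have hft := etale_fg het
  obtain ⟨t₁, ht₁⟩ := (Subalgebra.fg_iff_finiteType C₁).2 hft
  have htC : ∀ g ∈ t, g ∈ C := fun g hg => by rw [← ht]; exact Algebra.subset_adjoin hg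
  have htC₁ : ∀ g ∈ t₁, g ∈ C₁ := fun g hg => by rw [← ht₁]; exact Algebra.subset_adjoin hg
  -- step 1
  obtain ⟨f₁, hf₁, h₁⟩ := exists_den (C := C) (χ := χ) (S := (t₁ : Set K)) t₁.finite_toSet
    (fun g hg => by rw [hR]; exact ptLoc_le C₁ χ₁ (htC₁ g hg))
  have hC₁ : C₁ ≤ aw C f₁ f₁.2 := by
    rw [← ht₁, Algebra.adjoin_le_iff]
    intro z hz
    exact ⟨1, by rw [pow_one]; exact h₁ z hz⟩
  -- step 2
  obtain ⟨f₂, hf₂, h₂⟩ := exists_den (C := C₁) (χ := χ₁) (S := (t : Set K)) t.finite_toSet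
    (fun g hg => by rw [← hR]; exact ptLoc_le C χ (htC g hg))
  have hC₂ : C ≤ aw C₁ f₂ f₂.2 := by
    rw [← ht, Algebra.adjoin_le_iff]
    intro z hz
    exact ⟨1, by rw [pow_one]; exact h₂ z hz⟩
  have hf₂inv : (f₂ : K)⁻¹ ∈ ptLoc C χ := by rw [hR]; exact inv_mem_ptLoc hf₂
  have hf₂0 : (f₂ : K) ≠ 0 := coe_ne_zero hf₂
  -- the residues of the generators
  have hres : ∀ g : K, g ∈ t → ∃ u v : K, u ∈ ptLoc C χ ∧ v ∈ ptLoc C χ ∧
      ∀ hg : g ∈ C, g = algebraMap k K (χ ⟨g, hg⟩) + x * u + y * v := by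
    intro g hg
    obtain ⟨c, u, hu, v, hv, h⟩ := hreg.dec g (ptLoc_le C χ (htC g hg))
    refine ⟨u, v, hu, hv, fun hgC => ?_⟩
    have hcc : c = χ ⟨g, hgC⟩ := by
      by_contra hne
      have hd : c - χ ⟨g, hgC⟩ ≠ 0 := sub_ne_zero.2 hne
      -- `g - χ g` is not a unit
      have h1 : g - algebraMap k K (χ ⟨g, hgC⟩) = algebraMap k K (c - χ ⟨g, hgC⟩) + x * u + y * v := by
        rw [map_sub]
        linear_combination h
      have hw : χ (⟨g, hgC⟩ - algebraMap k C (χ ⟨g, hgC⟩)) = 0 := by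
        rw [map_sub, AlgHom.commutes]; simp
      have hmem : g - algebraMap k K (χ ⟨g, hgC⟩) ∈ ptLoc C χ :=
        (ptLoc C χ).sub_mem (ptLoc_le C χ hgC) ((ptLoc C χ).algebraMap_mem _)
      have hinv : (g - algebraMap k K (χ ⟨g, hgC⟩))⁻¹ ∈ ptLoc C χ := by
        refine hreg.inv _ hmem fun u' hu' v' hv' h' => ?_
        refine hreg.one (algebraMap k K (c - χ ⟨g, hgC⟩)⁻¹ * (u' - u))
          ((ptLoc C χ).mul_mem ((ptLoc C χ).algebraMap_mem _) ((ptLoc C χ).sub_mem hu' hu))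
          (algebraMap k K (c - χ ⟨g, hgC⟩)⁻¹ * (v' - v))
          ((ptLoc C χ).mul_mem ((ptLoc C χ).algebraMap_mem _) ((ptLoc C χ).sub_mem hv' hv)) ?_
        have h2 : algebraMap k K (c - χ ⟨g, hgC⟩) = x * (u' - u) + y * (v' - v) := by
          have h3 := h1.symm.trans h'
          linear_combination h3
        have h3 : algebraMap k K (c - χ ⟨g, hgC⟩)⁻¹ * algebraMap k K (c - χ ⟨g, hgC⟩) = 1 := by
          rw [← map_mul, inv_mul_cancel₀ hd, map_one]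
        rw [← h3]
        conv_lhs => rw [h2]
        ring
      have hne0 : g - algebraMap k K (χ ⟨g, hgC⟩) ≠ 0 := by
        intro h0
        refine hreg.one (algebraMap k K (c - χ ⟨g, hgC⟩)⁻¹ * (- u))
          ((ptLoc C χ).mul_mem ((ptLoc C χ).algebraMap_mem _) ((ptLoc C χ).neg_mem hu))
          (algebraMap k K (c - χ ⟨g, hgC⟩)⁻¹ * (- v))
          ((ptLoc C χ).mul_mem ((ptLoc C χ).algebraMap_mem _) ((ptLoc C χ).neg_mem hv)) ?_
        rw [h0] at h1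
        have h3 : algebraMap k K (c - χ ⟨g, hgC⟩)⁻¹ * algebraMap k K (c - χ ⟨g, hgC⟩) = 1 := by
          rw [← map_mul, inv_mul_cancel₀ hd, map_one]
        have h2 : algebraMap k K (c - χ ⟨g, hgC⟩) = x * (-u) + y * (-v) := by
          linear_combination -h1
        rw [← h3]
        conv_lhs => rw [h2]
        ring
      obtain ⟨a, b, hb, hab⟩ := hinv
      have h4 : b = (⟨g, hgC⟩ - algebraMap k C (χ ⟨g, hgC⟩)) * a := by
        apply Subtype.ext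
        push_cast
        rw [← hab, ← mul_assoc]
        change (b : K) = (g - algebraMap k K (χ ⟨g, hgC⟩)) * (g - algebraMap k K (χ ⟨g, hgC⟩))⁻¹ * b
        rw [mul_inv_cancel₀ hne0, one_mul]
      apply hb
      rw [h4, map_mul, hw, zero_mul]
    rw [← hcc]
    exact h
  choose! U W hU hW hUW using hres
  -- step 3
  let S₃ : Set K := S ∪ {x, y, (f₂ : K)⁻¹} ∪ (Dx '' t ∪ Dy '' t) ∪ (U '' t ∪ W '' t)
  have hS₃ : S₃.Finite :=
    ((hS.union (by simp)).union ((t.finite_toSet.image _).union (t.finite_toSet.image _))).union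
      ((t.finite_toSet.image _).union (t.finite_toSet.image _))
  have hS₃R : S₃ ⊆ ptLoc C χ := by
    rintro z (((hz | hz) | (hz | hz)) | (hz | hz))
    · exact hSR hz
    · simp only [Set.mem_insert_iff, Set.mem_singleton_iff] at hz
      rcases hz with rfl | rfl | rfl
      · exact hreg.hx
      · exact hreg.hy
      · exact hf₂inv
    · obtain ⟨g, hg, rfl⟩ := hz
      exact hreg.Dx_mem g (ptLoc_le C χ (htC g hg))
    · obtain ⟨g, hg, rfl⟩ := hz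
      exact hreg.Dy_mem g (ptLoc_le C χ (htC g hg))
    · obtain ⟨g, hg, rfl⟩ := hz
      exact hU g hg
    · obtain ⟨g, hg, rfl⟩ := hz
      exact hW g hg
  obtain ⟨f₃, hf₃, h₃⟩ := exists_den hS₃ hS₃R
  have hF : χ (f₁ * f₃) ≠ 0 := by rw [map_mul]; exact mul_ne_zero hf₁ hf₃
  refine ⟨f₁ * f₃, hF, fun ψ hψ => ?_⟩
  obtain ⟨F, hFdef⟩ : ∃ F : C, F = f₁ * f₃ := ⟨_, rfl⟩
  rw [← hFdef] at hF hψ
  have hF0 : (F : K) ≠ 0 := coe_ne_zero hF
  let C' : Subalgebra k K := aw C F F.2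
  have hCC' : C ≤ C' := le_aw C F F.2
  have hS₃C' : S₃ ⊆ C' := by
    intro z hz
    refine ⟨1, ?_⟩
    rw [pow_one, hFdef]
    push_cast
    rw [mul_comm (f₁ : K), ← mul_assoc]
    exact C.mul_mem (h₃ z hz) f₁.2
  have hC₁C' : C₁ ≤ C' := by
    intro z hz
    obtain ⟨n, hn⟩ := aw_mono f₁.2 f₃.2 (hC₁ hz)
    refine ⟨n, ?_⟩
    rw [hFdef]
    exact hn
  have hFinv : (F : K)⁻¹ ∈ C' := inv_mem_aw F.2 hF0
  have hxC' : x ∈ C' := hS₃C' (Or.inl (Or.inl (Or.inr (by simp))))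
  have hyC' : y ∈ C' := hS₃C' (Or.inl (Or.inl (Or.inr (by simp))))
  have hf₂C' : (f₂ : K)⁻¹ ∈ C' := hS₃C' (Or.inl (Or.inl (Or.inr (by simp))))
  have hD : ∀ (D : Derivation k K K), (∀ g ∈ t, D g ∈ C') → ∀ z ∈ C', D z ∈ C' := by
    intro D hDt
    have hDC : ∀ z ∈ C, D z ∈ C' := by
      intro z hz
      rw [← ht] at hz
      induction hz using Algebra.adjoin_induction with
      | mem g hg => exact hDt g hg
      | algebraMap r => rw [Derivation.map_algebraMap]; exact C'.zero_mem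
      | add a b _ _ ha hb => rw [map_add]; exact C'.add_mem ha hb
      | mul a b ha' hb' ha hb =>
        rw [Derivation.leibniz, smul_eq_mul, smul_eq_mul]
        rw [ht] at ha' hb'
        exact C'.add_mem (C'.mul_mem (hCC' ha') hb) (C'.mul_mem (hCC' hb') ha)
    rintro z ⟨n, hn⟩
    have h1 : D (z * (F : K) ^ n) = z * D ((F : K) ^ n) + (F : K) ^ n * D z := by
      rw [Derivation.leibniz, smul_eq_mul, smul_eq_mul]
    have h2 : D z = (D (z * (F : K) ^ n) - z * D ((F : K) ^ n)) * ((F : K)⁻¹) ^ n := by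
      rw [h1, add_sub_cancel_left, mul_comm ((F : K) ^ n), mul_assoc, ← mul_pow,
        mul_inv_cancel₀ hF0, one_pow, mul_one]
    rw [h2]
    exact C'.mul_mem (C'.sub_mem (hDC _ hn) (C'.mul_mem ⟨n, hn⟩
      (hDC _ (C.pow_mem F.2 n)))) (C'.pow_mem hFinv n)
  -- étaleness
  have hetC' : (MvPolynomial.aeval ![(⟨x, hxC'⟩ : C'), ⟨y, hyC'⟩] :
      MvPolynomial (Fin 2) k →ₐ[k] C').toRingHom.Etale := by
    obtain ⟨n, hn⟩ := hC₂ F.2
    have hG : (F : K) * (f₂ : K) ^ (n + 1) ∈ C₁ := by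
      rw [pow_succ, ← mul_assoc]; exact C₁.mul_mem hn f₂.2
    have hG0 : (F : K) * (f₂ : K) ^ (n + 1) ≠ 0 := mul_ne_zero hF0 (pow_ne_zero _ hf₂0)
    have h1 := etale_incl hC₁C' hG hG0 (by
      rw [mul_inv, ← inv_pow]
      exact C'.mul_mem hFinv (C'.pow_mem hf₂C' _)) (by
      rintro z ⟨m, hm⟩
      obtain ⟨l, hl⟩ := hC₂ hm
      refine ⟨m + l, ?_⟩
      have h2 := C₁.mul_mem (C₁.mul_mem hl (C₁.pow_mem hn l)) (C₁.pow_mem f₂.2 ((n + 1) * m))
      have h3 : z * (F : K) ^ m * (f₂ : K) ^ l * ((F : K) * (f₂ : K) ^ n) ^ l *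
          (f₂ : K) ^ ((n + 1) * m) = z * ((F : K) * (f₂ : K) ^ (n + 1)) ^ (m + l) := by
        ring
      rwa [h3] at h2)
    have h2 : (MvPolynomial.aeval ![(⟨x, hxC'⟩ : C'), ⟨y, hyC'⟩] :
        MvPolynomial (Fin 2) k →ₐ[k] C') = (Subalgebra.inclusion hC₁C').comp
          (MvPolynomial.aeval ![(⟨x, hx₁⟩ : C₁), ⟨y, hy₁⟩]) := by
      refine MvPolynomial.algHom_ext fun i => ?_
      fin_cases i
      · simp
      · simp
    have h3 : (MvPolynomial.aeval ![(⟨x, hxC'⟩ : C'), ⟨y, hyC'⟩] :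
        MvPolynomial (Fin 2) k →ₐ[k] C').toRingHom = (Subalgebra.inclusion hC₁C').toRingHom.comp
          (MvPolynomial.aeval ![(⟨x, hx₁⟩ : C₁), ⟨y, hy₁⟩] :
            MvPolynomial (Fin 2) k →ₐ[k] C₁).toRingHom := by
      rw [h2]; rfl
    rw [h3]
    exact RingHom.Etale.stableUnderComposition _ _ het h1
  -- the point `ψ`
  have hC'ψ : C' ≤ ptLoc C ψ := aw_le_ptLoc hψ
  obtain ⟨ψ', hψ'def⟩ : ∃ ψ' : C' →ₐ[k] k, ψ' = (res C ψ).comp (Subalgebra.inclusion hC'ψ) :=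
    ⟨_, rfl⟩
  have hψ' : ptLoc C' ψ' = ptLoc C ψ := by rw [hψ'def]; exact ptLoc_eq_of_le hCC' hC'ψ
  refine ⟨fun z hz => hC'ψ (hS₃C' (Or.inl (Or.inl (Or.inl hz)))), ψ' ⟨x, hxC'⟩, ψ' ⟨y, hyC'⟩,
    ?_, ?_⟩
  · have hxa : x - algebraMap k K (ψ' ⟨x, hxC'⟩) ∈ C' := C'.sub_mem hxC' (C'.algebraMap_mem _)
    have hyb : y - algebraMap k K (ψ' ⟨y, hyC'⟩) ∈ C' := C'.sub_mem hyC' (C'.algebraMap_mem _)
    rw [← hψ']
    refine Reg.of_etale ψ' hxa hyb ?_ ?_ ?_ ?_ ?_ ?_ ?_ ?_ ?_ hreg.comm ?_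
    · have : (⟨x - algebraMap k K (ψ' ⟨x, hxC'⟩), hxa⟩ : C') =
          ⟨x, hxC'⟩ - algebraMap k C' (ψ' ⟨x, hxC'⟩) := rfl
      rw [this, map_sub, AlgHom.commutes]
      simp
    · have : (⟨y - algebraMap k K (ψ' ⟨y, hyC'⟩), hyb⟩ : C') =
          ⟨y, hyC'⟩ - algebraMap k C' (ψ' ⟨y, hyC'⟩) := rfl
      rw [this, map_sub, AlgHom.commutes]
      simp
    · exact etale_translate' (ψ' ⟨x, hxC'⟩) (ψ' ⟨y, hyC'⟩) hxC' hyC' hxa hyb hetC'
    · rw [map_sub, Derivation.map_algebraMap, sub_zero, hreg.xx]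
    · rw [map_sub, Derivation.map_algebraMap, sub_zero, hreg.xy]
    · rw [map_sub, Derivation.map_algebraMap, sub_zero, hreg.yx]
    · rw [map_sub, Derivation.map_algebraMap, sub_zero, hreg.yy]
    · exact hD Dx fun g hg => hS₃C' (Or.inl (Or.inr (Or.inl ⟨g, hg, rfl⟩)))
    · exact hD Dy fun g hg => hS₃C' (Or.inl (Or.inr (Or.inr ⟨g, hg, rfl⟩)))
    · intro D
      rw [map_sub, map_sub, Derivation.map_algebraMap, Derivation.map_algebraMap, sub_zero,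
        sub_zero]
      exact hreg.basis D
  · intro ha hb
    have hgen : ∀ g (hg : g ∈ t), ψ ⟨g, htC g hg⟩ = χ ⟨g, htC g hg⟩ := by
      intro g hg
      have hu : U g ∈ C' := hS₃C' (Or.inr (Or.inl ⟨g, hg, rfl⟩))
      have hw : W g ∈ C' := hS₃C' (Or.inr (Or.inr ⟨g, hg, rfl⟩))
      have h1 : (⟨g, hCC' (htC g hg)⟩ : C') = algebraMap k C' (χ ⟨g, htC g hg⟩) +
          ⟨x, hxC'⟩ * ⟨U g, hu⟩ + ⟨y, hyC'⟩ * ⟨W g, hw⟩ := by
        apply Subtype.ext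
        exact hUW g hg (htC g hg)
      have h2 := congrArg ψ' h1
      rw [map_add, map_add, map_mul, map_mul, AlgHom.commutes, ha, hb, zero_mul, zero_mul,
        add_zero, add_zero] at h2
      have h3 : ψ' ⟨g, hCC' (htC g hg)⟩ = ψ ⟨g, htC g hg⟩ := by
        rw [hψ'def]; exact res_coe ⟨g, htC g hg⟩ _
      rw [← h3]
      exact h2
    refine AlgHom.ext fun z => ?_
    obtain ⟨z, hz⟩ := z
    have hz' := hz
    rw [← ht] at hz'
    induction hz' using Algebra.adjoin_induction with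
    | mem g hg => exact hgen g hg
    | algebraMap r =>
      have : (⟨algebraMap k K r, hz⟩ : C) = algebraMap k C r := rfl
      rw [this, AlgHom.commutes, AlgHom.commutes]
    | add a b ha' hb' iha ihb =>
      rw [ht] at ha' hb'
      have : (⟨a + b, hz⟩ : C) = ⟨a, ha'⟩ + ⟨b, hb'⟩ := rfl
      rw [this, map_add, map_add, iha ha', ihb hb']
    | mul a b ha' hb' iha ihb =>
      rw [ht] at ha' hb'
      have : (⟨a * b, hz⟩ : C) = ⟨a, ha'⟩ * ⟨b, hb'⟩ := rfl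
      rw [this, map_mul, map_mul, iha ha', ihb hb']

end Pool.Agent.MP_b525bf_ag_TS
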