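import Pool.Agent.Lib.MP_b525bf_ag_TS.Pts
import Pool.Agent.Lib.MP_b525bf_ag_TS.Blow
import Pool.Agent.Lib.MP_b525bf_ag_TS.Spread

/-!
# B3: the set of points where the object is not clean is finite
-/

set_option autoImplicit false

namespace Pool.Agent.MP_b525bf_ag_TS

variable {k K : Type} [Field k] [Field K] [Algebra k K] {B : Subalgebra k K} {E : Type}
  [Fintype E] {J : E → Ideal B} {e : E → E → ℤ} {V : E → Subalgebra k K} {α : E → ℤ}
  {θ : Obj k K}

/-- An ideal of finite colength contains a power of a nonunit. -/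
theorem exists_pow_mem {R : Subalgebra k K} (I : Ideal R) [FiniteDimensional k (R ⧸ I)] (x : R)
    (hx : ∀ z : R, IsUnit (x * z - 1)) : ∃ N : ℕ, x ^ N ∈ I := by
  have := IsArtinianRing.of_finite k (R ⧸ I)
  obtain ⟨n, y, hy⟩ := IsArtinian.exists_pow_succ_smul_dvd (Ideal.Quotient.mk I x)
    (1 : R ⧸ I)
  obtain ⟨z, rfl⟩ := Ideal.Quotient.mk_surjective y
  refine ⟨n, ?_⟩
  rw [smul_eq_mul, smul_eq_mul, mul_one, ← map_pow, ← map_mul, ← map_pow, Ideal.Quotient.eq] at hy
  have h1 : x ^ n.succ * z - x ^ n = x ^ n * (x * z - 1) := by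
    rw [pow_succ]; ring
  rw [h1] at hy
  exact (Ideal.mul_unit_mem_iff_mem I (hx z)).1 hy

/-- Membership in the ideal of the coefficients. -/
theorem mem_Jw {R : Subalgebra k K} {x y : K} {Dx Dy : Derivation k K K} {s t : Bool} {γ : K}
    (hA : Ad θ R x y Dx Dy s t γ) {z : R} (hz : z ∈ Jw θ R x y Dx Dy s t γ) :
    ∃ p ∈ R, ∃ q ∈ R, ∃ r ∈ R, (z : K) = θ.h / γ * p + θ.ω (lD s x Dx) / γ * q +
      θ.ω (lD t y Dy) / γ * r := by
  have hset : {z : R | (z : K) = θ.h / γ ∨ (z : K) = θ.ω (lD s x Dx) / γ ∨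
      (z : K) = θ.ω (lD t y Dy) / γ} = {⟨_, hA.ah⟩, ⟨_, hA.ax⟩, ⟨_, hA.ay⟩} := by
    ext z
    simp only [Set.mem_ofPred_eq, Set.mem_insert_iff, Set.mem_singleton_iff]
    constructor
    · rintro (h | h | h)
      · exact Or.inl (Subtype.ext h)
      · exact Or.inr (Or.inl (Subtype.ext h))
      · exact Or.inr (Or.inr (Subtype.ext h))
    · rintro (h | h | h)
      · exact Or.inl (congrArg Subtype.val h)
      · exact Or.inr (Or.inl (congrArg Subtype.val h))
      · exact Or.inr (Or.inr (congrArg Subtype.val h))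
  unfold Jw at hz
  rw [hset, Ideal.span, Submodule.mem_span_triple] at hz
  obtain ⟨p, q, r, h⟩ := hz
  refine ⟨p, p.2, q, q.2, r, r.2, ?_⟩
  rw [← h]
  simp only [smul_eq_mul]
  push_cast
  ring

theorem Reg.isUnit_sub {R : Subalgebra k K} {x y : K} {Dx Dy : Derivation k K K}
    (hreg : Reg R x y Dx Dy) (z : R) : IsUnit (⟨x, hreg.hx⟩ * z - 1 : R) := by
  have hmem : x * (z : K) - 1 ∈ R := R.sub_mem (R.mul_mem hreg.hx z.2) R.one_mem
  have hinv : (x * (z : K) - 1)⁻¹ ∈ R := by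
    refine hreg.inv _ hmem fun u hu v hv huv => ?_
    refine hreg.one (z - u) (R.sub_mem z.2 hu) (-v) (R.neg_mem hv) ?_
    linear_combination -huv
  have hne : x * (z : K) - 1 ≠ 0 := by
    intro h0
    refine hreg.one z z.2 0 R.zero_mem ?_
    linear_combination -h0
  refine IsUnit.of_mul_eq_one (⟨_, hinv⟩ : R) ?_
  apply Subtype.ext
  change (x * (z : K) - 1) * (x * (z : K) - 1)⁻¹ = 1
  exact mul_inv_cancel₀ hne

theorem Reg.not_unit {R : Subalgebra k K} {x y : K} {Dx Dy : Derivation k K K}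
    (hreg : Reg R x y Dx Dy) : ¬ UnitIn R x := fun h =>
  hreg.one x⁻¹ h.2.2 0 R.zero_mem (by rw [mul_inv_cancel₀ h.1, mul_zero, add_zero])

/-- Away from the zeros of the coordinate it is a unit. -/
theorem Reg.unit_of_ne {R : Subalgebra k K} {x y : K} {Dx Dy : Derivation k K K} {a b : k}
    (hreg : Reg R (x - algebraMap k K a) (y - algebraMap k K b) Dx Dy) (ha : a ≠ 0) :
    UnitIn R x := by
  have hx : x ∈ R := by
    have := R.add_mem hreg.hx (R.algebraMap_mem a)
    rwa [sub_add_cancel] at this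
  have hane : algebraMap k K a⁻¹ * algebraMap k K a = 1 := by
    rw [← map_mul, inv_mul_cancel₀ ha, map_one]
  refine ⟨?_, hx, hreg.inv x hx fun u hu v hv huv => ?_⟩
  · intro h0
    refine hreg.one (-algebraMap k K a⁻¹) (R.neg_mem (R.algebraMap_mem _)) 0 R.zero_mem ?_
    rw [h0]
    linear_combination -hane
  · refine hreg.one (algebraMap k K a⁻¹ * (u - 1)) (R.mul_mem (R.algebraMap_mem _)
      (R.sub_mem hu R.one_mem)) (algebraMap k K a⁻¹ * v) (R.mul_mem (R.algebraMap_mem _) hv) ?_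
    linear_combination -hane + algebraMap k K a⁻¹ * huv

/-- The logarithmic derivations at a nearby point. -/
theorem lD_near {R : Subalgebra k K} {x : K} {Dx : Derivation k K K} (s : Bool) {a : k}
    [Decidable (a = 0)] (hx : a ≠ 0 → UnitIn R x) : ∃ ε : K, UnitIn R ε ∧
      lD (s && decide (a = 0)) (x - algebraMap k K a) Dx = ε • lD s x Dx := by
  by_cases ha : a = 0
  · refine ⟨1, UnitIn.one R, ?_⟩
    have h1 : decide (a = 0) = true := by simp [ha]
    have h2 : algebraMap k K a = 0 := by rw [ha, map_zero]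
    rw [one_smul, h1, h2, Bool.and_true, sub_zero]
  · cases s with
    | false =>
      refine ⟨1, UnitIn.one R, ?_⟩
      simp [lD]
    | true =>
      refine ⟨x⁻¹, (hx ha).inv, ?_⟩
      simp only [ha, decide_false, Bool.and_false, lD, Bool.false_eq_true, if_false, if_true]
      rw [smul_smul, inv_mul_cancel₀ (hx ha).1, one_smul]

/-- Every point has a neighbourhood in its chart such that the object is clean at all other points
of the neighbourhood. -/
theorem Stage2.exists_nbhd (h : Stage2 B θ J e V α) (hB : B.FG) {h₀ : E → K}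
    (hh₀ : TupIn B J h₀) (χ : chartF B J h₀ →ₐ[k] k) : ∃ f : chartF B J h₀, χ f ≠ 0 ∧
      ∀ ψ : chartF B J h₀ →ₐ[k] k, ψ f ≠ 0 → ψ ≠ χ →
        Lv B θ J e V α 0 (ptLoc (chartF B J h₀) ψ) := by
  classical
  have hPt : ∀ ψ, Pt B J (ptLoc (chartF B J h₀) ψ) := fun ψ => ⟨h₀, hh₀, ψ, rfl⟩
  have hGen : ∀ ψ, GenAt B J (ptLoc (chartF B J h₀) ψ) h₀ := fun ψ => ⟨hh₀, fun i w hw =>
    ptLoc_le _ _ (Algebra.subset_adjoin (Or.inr ⟨i, w, hw, rfl⟩))⟩
  obtain ⟨h₁, x, y, Dx, Dy, s, t, b, hp₁, hA₁⟩ := h.pt _ (hPt χ)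
  have hp := hp₁.change (hGen χ)
  have hA : Ad θ (ptLoc (chartF B J h₀) χ) x y Dx Dy s t (∏ j, xi h₀ e j ^ α j) :=
    (Ad.congr_unit hp.reg hA₁ (gam_div_unit (fun i => hp₁.gen.unit (hGen χ) i) e α)).1
  obtain ⟨γ, hγ⟩ : ∃ γ : K, γ = ∏ j, xi h₀ e j ^ α j := ⟨_, rfl⟩
  rw [← hγ] at hA
  have hX0 : ∀ j, xi h₀ e j ≠ 0 := fun j => xi_ne (fun i => (hh₀ i).1) e j
  -- powers of the coordinates
  have hfin := hA.fin
  obtain ⟨N, hN⟩ := exists_pow_mem (Jw θ (ptLoc (chartF B J h₀) χ) x y Dx Dy s t γ)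
    ⟨x, hp.reg.hx⟩ hp.reg.isUnit_sub
  obtain ⟨M, hM⟩ := exists_pow_mem (Jw θ (ptLoc (chartF B J h₀) χ) x y Dx Dy s t γ)
    ⟨y, hp.reg.hy⟩ hp.reg.symm.isUnit_sub
  obtain ⟨p, hpR, q, hqR, r, hrR, hN'⟩ := mem_Jw hA hN
  obtain ⟨p', hpR', q', hqR', r', hrR', hM'⟩ := mem_Jw hA hM
  have hN1 : x ^ N = θ.h / γ * p + θ.ω (lD s x Dx) / γ * q + θ.ω (lD t y Dy) / γ * r := hN'
  have hM1 : y ^ M = θ.h / γ * p' + θ.ω (lD s x Dx) / γ * q' + θ.ω (lD t y Dy) / γ * r' := hM'
  -- the units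
  obtain ⟨ν, hν0, hνx, hνy⟩ : ∃ ν : E → K, (∀ j, b j = none → ν j = 1) ∧
      (∀ j, b j = some false → ν j = x) ∧ ∀ j, b j = some true → ν j = y := by
    refine ⟨fun j => if b j = none then 1 else if b j = some false then x else y, ?_, ?_, ?_⟩
    · intro j hj; simp [hj]
    · intro j hj; simp [hj]
    · intro j hj; simp [hj]
  have hu : ∀ j, UnitIn (ptLoc (chartF B J h₀) χ) (xi h₀ e j / ν j) := by
    intro j
    cases hb : b j with
    | none => rw [hν0 j hb, div_one]; exact hp.b0 j hb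
    | some v =>
      cases v with
      | false => rw [hνx j hb]; exact hp.bx j hb
      | true => rw [hνy j hb]; exact hp.by' j hb
  let S : Set K := {θ.h / γ, θ.ω (lD s x Dx) / γ, θ.ω (lD t y Dy) / γ, p, q, r, p', q', r',
    lD s x Dx γ / γ, lD t y Dy γ / γ} ∪ (Set.range (fun j => xi h₀ e j / ν j) ∪
      Set.range (fun j => (xi h₀ e j / ν j)⁻¹))
  have hS : S.Finite := by
    refine Set.Finite.union ?_ ((Set.finite_range _).union (Set.finite_range _))
    simp
  have hSR : S ⊆ ptLoc (chartF B J h₀) χ := by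
    rintro z (hz | (⟨j, rfl⟩ | ⟨j, rfl⟩))
    · simp only [Set.mem_insert_iff, Set.mem_singleton_iff] at hz
      rcases hz with rfl | rfl | rfl | rfl | rfl | rfl | rfl | rfl | rfl | rfl | rfl
      · exact hA.ah
      · exact hA.ax
      · exact hA.ay
      · exact hpR
      · exact hqR
      · exact hrR
      · exact hpR'
      · exact hqR'
      · exact hrR'
      · exact hA.gx
      · exact hA.gy
    · exact (hu j).2.1
    · exact (hu j).2.2
  obtain ⟨f, hf, hspread⟩ := hp.reg.spread (chartF_fg hB h₀) hS hSR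
  refine ⟨f, hf, fun ψ hψ hψχ => ?_⟩
  obtain ⟨hSψ, a, a', hreg, hψ0⟩ := hspread ψ hψ
  obtain ⟨R', hR'⟩ : ∃ R' : Subalgebra k K, R' = ptLoc (chartF B J h₀) ψ := ⟨_, rfl⟩
  have hPt' := hPt ψ
  have hGen' := hGen ψ
  rw [← hR'] at hSψ hreg hPt' hGen' ⊢
  have haa : a ≠ 0 ∨ a' ≠ 0 := by
    by_contra hcon
    push Not at hcon
    exact hψχ (hψ0 hcon.1 hcon.2)
  have mS : ∀ z, z ∈ ({θ.h / γ, θ.ω (lD s x Dx) / γ, θ.ω (lD t y Dy) / γ, p, q, r, p', q', r',
      lD s x Dx γ / γ, lD t y Dy γ / γ} : Set K) → z ∈ R' := fun z hz => hSψ (Or.inl hz)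
  have hH : θ.h / γ ∈ R' := mS _ (by simp)
  have hAx : θ.ω (lD s x Dx) / γ ∈ R' := mS _ (by simp)
  have hAy : θ.ω (lD t y Dy) / γ ∈ R' := mS _ (by simp)
  have hp1 : p ∈ R' := mS _ (by simp)
  have hq1 : q ∈ R' := mS _ (by simp)
  have hr1 : r ∈ R' := mS _ (by simp)
  have hp2 : p' ∈ R' := mS _ (by simp)
  have hq2 : q' ∈ R' := mS _ (by simp)
  have hr2 : r' ∈ R' := mS _ (by simp)
  have hgx : lD s x Dx γ / γ ∈ R' := mS _ (by simp)
  have hgy : lD t y Dy γ / γ ∈ R' := mS _ (by simp)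
  have hu' : ∀ j, UnitIn R' (xi h₀ e j / ν j) := fun j =>
    ⟨(hu j).1, hSψ (Or.inr (Or.inl ⟨j, rfl⟩)), hSψ (Or.inr (Or.inr ⟨j, rfl⟩))⟩
  have hxu : a ≠ 0 → UnitIn R' x := fun ha => hreg.unit_of_ne ha
  have hyu : a' ≠ 0 → UnitIn R' y := fun ha => hreg.symm.unit_of_ne ha
  obtain ⟨ε, hε, hεD⟩ := lD_near (x := x) (Dx := Dx) s hxu
  obtain ⟨η, hη, hηD⟩ := lD_near (x := y) (Dx := Dy) t hyu
  -- boundary
  obtain ⟨b', hb'0, hb'x, hb'y⟩ : ∃ b' : E → Option Bool,
      (∀ j, b' j = none ↔ b j = none ∨ (b j = some false ∧ a ≠ 0) ∨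
        (b j = some true ∧ a' ≠ 0)) ∧
      (∀ j, b' j = some false ↔ b j = some false ∧ a = 0) ∧
      ∀ j, b' j = some true ↔ b j = some true ∧ a' = 0 := by
    refine ⟨fun j => if b j = some false ∧ a = 0 then some false else
      if b j = some true ∧ a' = 0 then some true else none, ?_, ?_, ?_⟩ <;>
    · intro j
      dsimp only
      cases hb : b j with
      | none => simp
      | some v =>
        cases v <;> by_cases ha : a = 0 <;> by_cases ha' : a' = 0 <;> simp [ha, ha']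
  have hval : ∀ j, b' j ≠ none → Val R' (xi h₀ e j) (V j) := by
    intro j hj
    obtain ⟨h₂, x₂, y₂, Dx₂, Dy₂, s₂, t₂, b₂, hp₂, -⟩ := h.pt _ hPt'
    have hp₃ := hp₂.change hGen'
    refine hp₃.val j fun hb₂ => ?_
    have hunit := hp₃.b0 j hb₂
    cases hb : b' j with
    | none => exact hj hb
    | some v =>
      cases v with
      | false =>
        obtain ⟨h1, h2⟩ := (hb'x j).1 hb
        have h3 := hu' j
        rw [hνx j h1] at h3
        have h4 := hunit.div h3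
        rw [div_div_cancel₀ (hX0 j)] at h4
        rw [h2, map_zero, sub_zero] at hreg
        exact hreg.not_unit h4
      | true =>
        obtain ⟨h1, h2⟩ := (hb'y j).1 hb
        have h3 := hu' j
        rw [hνy j h1] at h3
        have h4 := hunit.div h3
        rw [div_div_cancel₀ (hX0 j)] at h4
        rw [h2, map_zero, sub_zero] at hreg
        exact hreg.symm.not_unit h4
  have hnc : PtNc B J e V R' h₀ (x - algebraMap k K a) (y - algebraMap k K a') Dx Dy
      (s && decide (a = 0)) (t && decide (a' = 0)) b' :=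
    { gen := hGen'
      reg := hreg
      b0 := fun j hj => by
        have h3 := hu' j
        rcases (hb'0 j).1 hj with h1 | ⟨h1, h2⟩ | ⟨h1, h2⟩
        · rwa [hν0 j h1, div_one] at h3
        · rw [hνx j h1] at h3
          have := h3.mul (hxu h2)
          rwa [div_mul_cancel₀ _ (hxu h2).1] at this
        · rw [hνy j h1] at h3
          have := h3.mul (hyu h2)
          rwa [div_mul_cancel₀ _ (hyu h2).1] at this
      bx := fun j hj => by
        obtain ⟨h1, h2⟩ := (hb'x j).1 hj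
        have h3 := hu' j
        rw [hνx j h1] at h3
        rwa [h2, map_zero, sub_zero]
      by' := fun j hj => by
        obtain ⟨h1, h2⟩ := (hb'y j).1 hj
        have h3 := hu' j
        rw [hνy j h1] at h3
        rwa [h2, map_zero, sub_zero]
      s_iff := by
        rw [Bool.and_eq_true, decide_eq_true_iff, hp.s_iff]
        constructor
        · rintro ⟨⟨j, hj⟩, h2⟩
          exact ⟨j, (hb'x j).2 ⟨hj, h2⟩⟩
        · rintro ⟨j, hj⟩
          obtain ⟨h1, h2⟩ := (hb'x j).1 hj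
          exact ⟨⟨j, h1⟩, h2⟩
      t_iff := by
        rw [Bool.and_eq_true, decide_eq_true_iff, hp.t_iff]
        constructor
        · rintro ⟨⟨j, hj⟩, h2⟩
          exact ⟨j, (hb'y j).2 ⟨hj, h2⟩⟩
        · rintro ⟨j, hj⟩
          obtain ⟨h1, h2⟩ := (hb'y j).1 hj
          exact ⟨⟨j, h1⟩, h2⟩
      inj := fun j j' hj hjj' => by
        cases hb : b' j with
        | none => exact absurd hb hj
        | some v =>
          have hb2 := hjj'.symm.trans hb
          cases v with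
          | false =>
            have h1 := ((hb'x j).1 hb).1
            have h2 := ((hb'x j').1 hb2).1
            exact hp.inj j j' (by rw [h1]; simp) (by rw [h1, h2])
          | true =>
            have h1 := ((hb'y j).1 hb).1
            have h2 := ((hb'y j').1 hb2).1
            exact hp.inj j j' (by rw [h1]; simp) (by rw [h1, h2])
      val := hval }
  have hωx : θ.ω (lD (s && decide (a = 0)) (x - algebraMap k K a) Dx) / γ =
      θ.ω (lD s x Dx) / γ * ε := by
    rw [hεD, map_smul, smul_eq_mul]; ring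
  have hωy : θ.ω (lD (t && decide (a' = 0)) (y - algebraMap k K a') Dy) / γ =
      θ.ω (lD t y Dy) / γ * η := by
    rw [hηD, map_smul, smul_eq_mul]; ring
  have hωxR : θ.ω (lD (s && decide (a = 0)) (x - algebraMap k K a) Dx) / γ ∈ R' := by
    rw [hωx]; exact R'.mul_mem hAx hε.2.1
  have hωyR : θ.ω (lD (t && decide (a' = 0)) (y - algebraMap k K a') Dy) / γ ∈ R' := by
    rw [hωy]; exact R'.mul_mem hAy hη.2.1
  have hJtop : Jw θ R' (x - algebraMap k K a) (y - algebraMap k K a') Dx Dy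
      (s && decide (a = 0)) (t && decide (a' = 0)) γ = ⊤ := by
    have hcomb : ∀ (P Q T : K), P ∈ R' → Q ∈ R' → T ∈ R' → UnitIn R' (θ.h / γ * P +
        θ.ω (lD s x Dx) / γ * Q + θ.ω (lD t y Dy) / γ * T) →
        Jw θ R' (x - algebraMap k K a) (y - algebraMap k K a') Dx Dy
          (s && decide (a = 0)) (t && decide (a' = 0)) γ = ⊤ := by
      intro P Q T hP hQ hT hU
      let I := Jw θ R' (x - algebraMap k K a) (y - algebraMap k K a') Dx Dy
          (s && decide (a = 0)) (t && decide (a' = 0)) γ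
      have g1 : (⟨_, hH⟩ : R') ∈ I := Ideal.subset_span (Or.inl rfl)
      have g2 : (⟨_, hωxR⟩ : R') ∈ I := Ideal.subset_span (Or.inr (Or.inl rfl))
      have g3 : (⟨_, hωyR⟩ : R') ∈ I := Ideal.subset_span (Or.inr (Or.inr rfl))
      have g4 := I.add_mem (I.add_mem (I.mul_mem_right (⟨P, hP⟩ : R') g1)
        (I.mul_mem_right (⟨ε⁻¹ * Q, R'.mul_mem hε.2.2 hQ⟩ : R') g2))
        (I.mul_mem_right (⟨η⁻¹ * T, R'.mul_mem hη.2.2 hT⟩ : R') g3)
      refine Ideal.eq_top_of_isUnit_mem _ g4 ?_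
      refine IsUnit.of_mul_eq_one (⟨_, hU.2.2⟩ : R') ?_
      apply Subtype.ext
      push_cast
      have h5 : θ.h / γ * P + θ.ω (lD (s && decide (a = 0)) (x - algebraMap k K a) Dx) / γ *
          (ε⁻¹ * Q) + θ.ω (lD (t && decide (a' = 0)) (y - algebraMap k K a') Dy) / γ *
          (η⁻¹ * T) = θ.h / γ * P + θ.ω (lD s x Dx) / γ * Q + θ.ω (lD t y Dy) / γ * T := by
        rw [hωx, hωy]
        have e1 : θ.ω (lD s x Dx) / γ * ε * (ε⁻¹ * Q) = θ.ω (lD s x Dx) / γ * Q := by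
          rw [mul_assoc, mul_inv_cancel_left₀ hε.1]
        have e2 : θ.ω (lD t y Dy) / γ * η * (η⁻¹ * T) = θ.ω (lD t y Dy) / γ * T := by
          rw [mul_assoc, mul_inv_cancel_left₀ hη.1]
        rw [e1, e2]
      rw [h5]
      exact mul_inv_cancel₀ hU.1
    rcases haa with ha | ha
    · refine hcomb p q r hp1 hq1 hr1 ?_
      rw [← hN1]
      have := (hxu ha).zpow (N : ℤ)
      rwa [zpow_natCast] at this
    · refine hcomb p' q' r' hp2 hq2 hr2 ?_
      rw [← hM1]
      have := (hyu ha).zpow (M : ℤ)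
      rwa [zpow_natCast] at this
  refine ⟨h₀, _, _, Dx, Dy, _, _, b', hnc, ?_, Or.inl ?_⟩
  · rw [← hγ]
    exact
      { ne := hA.ne
        gx := by
          rw [hεD, Derivation.smul_apply, smul_eq_mul, mul_div_assoc]
          exact R'.mul_mem hε.2.1 hgx
        gy := by
          rw [hηD, Derivation.smul_apply, smul_eq_mul, mul_div_assoc]
          exact R'.mul_mem hη.2.1 hgy
        ah := hH
        ax := hωxR
        ay := hωyR
        fin := by
          rw [hJtop]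
          have : Subsingleton (R' ⧸ (⊤ : Ideal R')) := Ideal.Quotient.subsingleton_iff.2 rfl
          infer_instance }
  · rw [← hγ]
    exact hJtop

theorem exists_char_of_ne_top [IsAlgClosed k] {C : Subalgebra k K} (hC : C.FG) {I : Ideal C}
    (hI : I ≠ ⊤) : ∃ χ : C →ₐ[k] k, ∀ z ∈ I, χ z = 0 := by
  obtain ⟨m, hm, hIm⟩ := Ideal.exists_le_maximal I hI
  have hft : Algebra.FiniteType k C := (Subalgebra.fg_iff_finiteType C).1 hC
  let _ := Ideal.Quotient.field m
  have hfin : Module.Finite k (C ⧸ m) := finite_of_finite_type_of_isJacobsonRing k (C ⧸ m)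
  have hb := IsAlgClosed.algebraMap_bijective_of_isIntegral (k := k) (K := C ⧸ m)
  let ε : k ≃ₐ[k] (C ⧸ m) := AlgEquiv.ofBijective (Algebra.ofId k (C ⧸ m)) hb
  refine ⟨(ε.symm : (C ⧸ m) →ₐ[k] k).comp (Ideal.Quotient.mkₐ k m), fun z hz => ?_⟩
  change ε.symm (Ideal.Quotient.mk m z) = 0
  rw [Ideal.Quotient.eq_zero_iff_mem.2 (hIm hz), map_zero]

theorem Stage2.finite_bad [IsAlgClosed k] (hB : B.FG) (h : Stage2 B θ J e V α) :
    {R | Pt B J R ∧ ¬ Lv B θ J e V α 0 R}.Finite := by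
  classical
  obtain ⟨S, hSf, hST, hScov⟩ := exists_finite_charts hB h.ne
  have key : ∀ h₀ ∈ S, ∃ X : Set (chartF B J h₀ →ₐ[k] k), X.Finite ∧
      ∀ ψ, ψ ∉ X → Lv B θ J e V α 0 (ptLoc (chartF B J h₀) ψ) := by
    intro h₀ hh₀
    choose f hf hf' using fun χ => h.exists_nbhd hB (hST h₀ hh₀) χ
    have htop : Ideal.span (Set.range f) = ⊤ := by
      by_contra hne
      obtain ⟨χ, hχ⟩ := exists_char_of_ne_top (chartF_fg hB h₀) hne
      exact hf χ (hχ _ (Ideal.subset_span ⟨χ, rfl⟩))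
    obtain ⟨s', hs', hs'top⟩ := (Ideal.span_eq_top_iff_finite _).1 htop
    have hg0 : ∀ c : s', ∃ χ, f χ = c := fun c => hs' c.2
    choose g hg using hg0
    refine ⟨Set.range g, Set.finite_range g, fun ψ hψ => ?_⟩
    have hex : ∃ c ∈ s', ψ c ≠ 0 := by
      by_contra hcon
      push Not at hcon
      have hle : Ideal.span (s' : Set (chartF B J h₀)) ≤ RingHom.ker ψ := by
        rw [Ideal.span_le]
        intro c hc
        exact hcon c hc
      rw [hs'top] at hle
      have h1 : (1 : chartF B J h₀) ∈ RingHom.ker ψ := hle trivial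
      rw [RingHom.mem_ker, map_one] at h1
      exact one_ne_zero h1
    obtain ⟨c, hc, hψc⟩ := hex
    refine hf' (g ⟨c, hc⟩) ψ ?_ ?_
    · rw [hg ⟨c, hc⟩]; exact hψc
    · intro h1
      exact hψ ⟨⟨c, hc⟩, h1.symm⟩
  choose! X hX hX' using key
  have hfin : (⋃ h₀ ∈ S, (fun χ => ptLoc (chartF B J h₀) χ) '' X h₀).Finite :=
    hSf.biUnion fun h₀ hh₀ => (hX h₀ hh₀).image _
  refine hfin.subset ?_
  rintro R ⟨hR, hbad⟩
  obtain ⟨h₀, hh₀, hgen⟩ := hScov R hR
  obtain ⟨χ, rfl⟩ := hR.exists_char hgen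
  refine Set.mem_biUnion hh₀ ⟨χ, ?_, rfl⟩
  by_contra hχ
  exact hbad (hX' h₀ hh₀ χ hχ)

end Pool.Agent.MP_b525bf_ag_TS
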