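import Pool.Agent.Lib.MP_b525bf_ag_TS.SDefs

/-!
# A1: lengths under the blowing up of a point of a surface
-/

set_option autoImplicit false

namespace Pool.Agent.MP_b525bf_ag_TS

variable {k K : Type} [Field k] [Field K] [Algebra k K]

/-- The maximal ideal `(x, y)` of `R`. -/
def mId (R : Subalgebra k K) (x y : K) : Ideal R := Ideal.span {z : R | (z : K) = x ∨ (z : K) = y}

variable {R : Subalgebra k K} {x y : K} {Dx Dy : Derivation k K K}

theorem Reg.symm (h : Reg R x y Dx Dy) : Reg R y x Dy Dx where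
  hx := h.hy
  hy := h.hx
  xx := h.yy
  xy := h.yx
  yx := h.xy
  yy := h.xx
  Dx_mem := h.Dy_mem
  Dy_mem := h.Dx_mem
  comm z := (h.comm z).symm
  basis D := (h.basis D).trans (add_comm _ _)
  dec z hz := by
    obtain ⟨c, u, hu, v, hv, e⟩ := h.dec z hz
    exact ⟨c, v, hv, u, hu, by rw [e]; ring⟩
  inv z hz hne := h.inv z hz fun u hu v hv e => hne v hv u hu (by rw [e]; ring)
  one u hu v hv e := h.one v hv u hu (by rw [e]; ring)
  et := by
    obtain ⟨C, χ, hx, hy, hR, h1, h2, het⟩ := h.et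
    refine ⟨C, χ, hy, hx, hR, h2, h1, ?_⟩
    have e : (MvPolynomial.aeval ![(⟨y, hy⟩ : C), ⟨x, hx⟩] :
        MvPolynomial (Fin 2) k →ₐ[k] C).toRingHom =
        (MvPolynomial.aeval ![(⟨x, hx⟩ : C), ⟨y, hy⟩] :
        MvPolynomial (Fin 2) k →ₐ[k] C).toRingHom.comp
        (MvPolynomial.renameEquiv k (Equiv.swap (0 : Fin 2) 1)).toRingEquiv.toRingHom := by
      have e1 : (MvPolynomial.aeval ![(⟨y, hy⟩ : C), ⟨x, hx⟩] :
        MvPolynomial (Fin 2) k →ₐ[k] C) = (MvPolynomial.aeval ![(⟨x, hx⟩ : C), ⟨y, hy⟩]).comp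
        (MvPolynomial.renameEquiv k (Equiv.swap (0 : Fin 2) 1)).toAlgHom := by
        apply MvPolynomial.algHom_ext
        intro i
        fin_cases i <;> simp
      rw [e1]
      rfl
    rw [e]
    exact RingHom.Etale.stableUnderComposition _ _
      (RingHom.Etale.of_bijective (MvPolynomial.renameEquiv k (Equiv.swap (0 : Fin 2) 1)).bijective)
      het

theorem Reg.x_ne (h : Reg R x y Dx Dy) : x ≠ 0 := by
  intro e
  have := h.xx
  rw [e, map_zero] at this
  exact zero_ne_one this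

theorem Loc2.mId_eq (hx : x ∈ R) (hy : y ∈ R) : mId R x y = Ideal.span {⟨x, hx⟩, ⟨y, hy⟩} := by
  rw [mId]
  congr 1
  ext w
  constructor
  · rintro (h | h)
    · left; exact Subtype.ext h
    · right; exact Subtype.ext h
  · rintro (h | h)
    · left; rw [h]
    · right; rw [h]

/-- Elements of the ideal `(x, y)`. -/
theorem mem_mId_iff (hx : x ∈ R) (hy : y ∈ R) {z : R} :
    z ∈ mId R x y ↔ ∃ u ∈ R, ∃ v ∈ R, (z : K) = x * u + y * v := by
  rw [Loc2.mId_eq hx hy, Ideal.mem_span_pair]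
  constructor
  · rintro ⟨a, b, rfl⟩
    exact ⟨a, a.2, b, b.2, by push_cast; ring⟩
  · rintro ⟨u, hu, v, hv, h⟩
    exact ⟨⟨u, hu⟩, ⟨v, hv⟩, Subtype.ext (by push_cast; rw [h]; ring)⟩

theorem Reg.mem_mId' (h : Reg R x y Dx Dy) {z : R} :
    z ∈ mId R x y ↔ ∃ u ∈ R, ∃ v ∈ R, (z : K) = x * u + y * v := mem_mId_iff h.hx h.hy

theorem Reg.mem_mId (h : Reg R x y Dx Dy) {z : R} : z ∈ mId R x y ↔ (z : K) ∈ mx R := by
  rw [h.mem_mId']
  constructor
  · rintro ⟨u, hu, v, hv, e⟩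
    refine ⟨z.2, ?_⟩
    by_contra hne
    push Not at hne
    refine h.one (u * (z : K)⁻¹) (R.mul_mem hu hne.2) (v * (z : K)⁻¹) (R.mul_mem hv hne.2) ?_
    have : (z : K) * (z : K)⁻¹ = 1 := mul_inv_cancel₀ hne.1
    rw [← this]
    nth_rewrite 1 [e]
    ring
  · intro hz
    by_contra hne
    push Not at hne
    have h1 := h.inv z z.2 hne
    rcases hz.2 with h2 | h2
    · exact hne 0 R.zero_mem 0 R.zero_mem (by rw [h2]; ring)
    · exact h2 h1

theorem Reg.unitIn (h : Reg R x y Dx Dy) {z : R} : z ∉ mId R x y ↔ UnitIn R (z : K) := by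
  rw [h.mem_mId]
  unfold mx UnitIn
  constructor
  · intro hne
    have h1 : ¬ ((z : K) = 0 ∨ (z : K)⁻¹ ∉ R) := fun h2 => hne ⟨z.2, h2⟩
    push Not at h1
    exact ⟨h1.1, z.2, h1.2⟩
  · rintro ⟨h1, _, h3⟩ ⟨_, h4⟩
    rcases h4 with h4 | h4
    · exact h1 h4
    · exact h4 h3

namespace Loc2

/-- The ideal `(x, y)` lies in the radical. -/
theorem le_jacobson (h : Reg R x y Dx Dy) : mId R x y ≤ Ideal.jacobson (⊥ : Ideal R) := by
  intro z hz
  rw [Ideal.mem_jacobson_bot]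
  intro w
  have h1 : z * w + 1 ∉ mId R x y := by
    intro h2
    have h3 : (1 : R) ∈ mId R x y := by
      have := (mId R x y).sub_mem h2 ((mId R x y).mul_mem_right w hz)
      simpa using this
    rw [h.mem_mId'] at h3
    obtain ⟨u, hu, v, hv, e⟩ := h3
    exact h.one u hu v hv (by simpa using e)
  obtain ⟨h3, _, h4⟩ := h.unitIn.1 h1
  exact IsUnit.of_mul_eq_one ⟨_, h4⟩ (Subtype.ext (by
    push_cast
    exact mul_inv_cancel₀ h3))

theorem fg_mId (h : Reg R x y Dx Dy) : (mId R x y).FG := by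
  rw [mId_eq h.hx h.hy]
  exact Submodule.fg_span (Set.toFinite _)

theorem fg_pow (h : Reg R x y Dx Dy) (n : ℕ) : (mId R x y ^ n).FG :=
  Submodule.FG.pow (fg_mId h) n

theorem x_mem (h : Reg R x y Dx Dy) : (⟨x, h.hx⟩ : R) ∈ mId R x y :=
  Ideal.subset_span (Or.inl rfl)

theorem y_mem (h : Reg R x y Dx Dy) : (⟨y, h.hy⟩ : R) ∈ mId R x y :=
  Ideal.subset_span (Or.inr rfl)

/-- The powers of the maximal ideal are different. -/
theorem pow_ne (h : Reg R x y Dx Dy) (n : ℕ) : ¬ mId R x y ^ n ≤ mId R x y ^ (n + 1) := by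
  intro hle
  have h1 : mId R x y ^ n ≤ (⊥ : Ideal R) := by
    refine Submodule.le_of_le_smul_of_le_jacobson_bot (fg_pow h n) (le_jacobson h) ?_
    rw [smul_eq_mul, bot_sup_eq, ← pow_succ']
    exact hle
  have h2 : (⟨x, h.hx⟩ : R) ^ n ∈ mId R x y ^ n := Ideal.pow_mem_pow (x_mem h) n
  have h3 := h1 h2
  rw [Submodule.mem_bot] at h3
  have h4 := congrArg (fun z : R => (z : K)) h3
  simp only [SubmonoidClass.coe_pow, ZeroMemClass.coe_zero] at h4
  exact pow_ne_zero n h.x_ne h4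

/-- Some power of the maximal ideal is stable modulo an ideal of finite colength. -/
theorem exists_pow_le (h : Reg R x y Dx Dy) (J : Ideal R) [FiniteDimensional k (R ⧸ J)] (m : ℕ) :
    ∃ N, m ≤ N ∧ mId R x y ^ N ≤ J := by
  -- the chain of the images is stationary
  let f : ℕ →o (Submodule k (R ⧸ J))ᵒᵈ :=
    { toFun := fun n => OrderDual.toDual
        (((mId R x y ^ n).restrictScalars k).map (Ideal.Quotient.mkₐ k J).toLinearMap)
      monotone' := by
        intro a b hab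
        rw [OrderDual.toDual_le_toDual]
        apply Submodule.map_mono
        exact Ideal.pow_le_pow_right hab }
  have hart : IsArtinian k (R ⧸ J) := inferInstance
  obtain ⟨n, hn⟩ := IsArtinian.monotone_stabilizes f
  refine ⟨max m n, le_max_left _ _, ?_⟩
  have h1 : mId R x y ^ (max m n) ≤ J ⊔ mId R x y ^ (max m n + 1) := by
    intro z hz
    have h2 : f (max m n) = f (max m n + 1) :=
      (hn _ (le_max_right _ _)).symm.trans (hn _ ((le_max_right m n).trans (Nat.le_succ _)))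
    have h3 : (Ideal.Quotient.mkₐ k J).toLinearMap z ∈
        ((mId R x y ^ (max m n)).restrictScalars k).map (Ideal.Quotient.mkₐ k J).toLinearMap :=
      Submodule.mem_map_of_mem hz
    have h4 : ((mId R x y ^ (max m n)).restrictScalars k).map
        (Ideal.Quotient.mkₐ k J).toLinearMap =
        ((mId R x y ^ (max m n + 1)).restrictScalars k).map
        (Ideal.Quotient.mkₐ k J).toLinearMap := h2
    rw [h4] at h3
    obtain ⟨w, hw, hwz⟩ := h3
    have h5 : z - w ∈ J := by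
      rw [← Ideal.Quotient.eq]
      exact hwz.symm
    rw [show z = (z - w) + w by ring]
    exact Ideal.add_mem _ (Ideal.mem_sup_left h5) (Ideal.mem_sup_right hw)
  refine Submodule.le_of_le_smul_of_le_jacobson_bot (fg_pow h _) (le_jacobson h) ?_
  rw [smul_eq_mul, ← pow_succ']
  exact h1

end Loc2

open Loc2

/-- An ideal of finite colength has an order. -/
theorem Reg.exists_order (h : Reg R x y Dx Dy) (J : Ideal R) [FiniteDimensional k (R ⧸ J)] :
    ∃ μ : ℕ, J ≤ mId R x y ^ μ ∧ ¬ J ≤ mId R x y ^ (μ + 1) := by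
  classical
  obtain ⟨N, _, hN⟩ := exists_pow_le h J 0
  have hex : ∃ n, ¬ J ≤ mId R x y ^ n := ⟨N + 1, fun hle => pow_ne h N (hN.trans hle)⟩
  have h1 := Nat.find_spec hex
  have h2 : Nat.find hex ≠ 0 := by
    intro h0
    rw [h0, pow_zero, Ideal.one_eq_top] at h1
    exact h1 le_top
  obtain ⟨μ, hμ⟩ := Nat.exists_eq_succ_of_ne_zero h2
  refine ⟨μ, ?_, ?_⟩
  · by_contra hne
    exact Nat.find_min hex (m := μ) (by omega) hne
  · rw [hμ] at h1
    exact h1

namespace Loc2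

/-- The span of the monomials of degree less than `μ`. -/
noncomputable def mono (k : Type) {K : Type} [Field k] [Field K] [Algebra k K]
    (R : Subalgebra k K) (X Y : R) (μ : ℕ) : Submodule k R :=
  Submodule.span k (Set.range fun ij : Fin μ × Fin μ => X ^ (ij.1 : ℕ) * Y ^ (ij.2 : ℕ))

theorem mono_mem {X Y : R} {μ i j : ℕ} (hi : i < μ) (hj : j < μ) :
    X ^ i * Y ^ j ∈ mono k R X Y μ :=
  Submodule.subset_span ⟨(⟨i, hi⟩, ⟨j, hj⟩), rfl⟩

theorem mul_mono {X Y : R} {μ : ℕ} {w : R} (hw : w ∈ mono k R X Y μ) :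
    X * w ∈ mono k R X Y (μ + 1) ∧ Y * w ∈ mono k R X Y (μ + 1) := by
  unfold mono at hw
  induction hw using Submodule.span_induction with
  | mem z hz =>
    obtain ⟨⟨i, j⟩, rfl⟩ := hz
    constructor
    · have := mono_mem (k := k) (X := X) (Y := Y) (μ := μ + 1) (i := (i : ℕ) + 1) (j := (j : ℕ))
        (by omega) (by omega)
      rw [pow_succ'] at this
      rw [← mul_assoc]
      exact this
    · have := mono_mem (k := k) (X := X) (Y := Y) (μ := μ + 1) (i := (i : ℕ)) (j := (j : ℕ) + 1)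
        (by omega) (by omega)
      rw [pow_succ'] at this
      rw [show Y * (X ^ (i : ℕ) * Y ^ (j : ℕ)) = X ^ (i : ℕ) * (Y * Y ^ (j : ℕ)) by ring]
      exact this
  | zero => simp
  | add a b _ _ ha hb =>
    rw [mul_add, mul_add]
    exact ⟨add_mem ha.1 hb.1, add_mem ha.2 hb.2⟩
  | smul c a _ ha =>
    rw [mul_smul_comm, mul_smul_comm]
    exact ⟨Submodule.smul_mem _ _ ha.1, Submodule.smul_mem _ _ ha.2⟩

theorem dec_pow (h : Reg R x y Dx Dy) (μ : ℕ) (z : R) :
    ∃ w ∈ mono k R ⟨x, h.hx⟩ ⟨y, h.hy⟩ μ, z - w ∈ mId R x y ^ μ := by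
  induction μ generalizing z with
  | zero => exact ⟨0, Submodule.zero_mem _, by simp⟩
  | succ μ ih =>
    obtain ⟨c, u, hu, v, hv, e⟩ := h.dec z z.2
    obtain ⟨w₁, h1, h1'⟩ := ih ⟨u, hu⟩
    obtain ⟨w₂, h2, h2'⟩ := ih ⟨v, hv⟩
    refine ⟨algebraMap k R c + ⟨x, h.hx⟩ * w₁ + ⟨y, h.hy⟩ * w₂, ?_, ?_⟩
    · refine add_mem (add_mem ?_ (mul_mono h1).1) (mul_mono h2).2
      have := mono_mem (k := k) (X := (⟨x, h.hx⟩ : R)) (Y := ⟨y, h.hy⟩) (μ := μ + 1)
        (i := 0) (j := 0) (by omega) (by omega)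
      rw [pow_zero, pow_zero, mul_one] at this
      rw [Algebra.algebraMap_eq_smul_one]
      exact Submodule.smul_mem _ _ this
    · have e' : z = algebraMap k R c + ⟨x, h.hx⟩ * ⟨u, hu⟩ + ⟨y, h.hy⟩ * ⟨v, hv⟩ :=
        Subtype.ext e
      rw [e', pow_succ']
      rw [show algebraMap k R c + ⟨x, h.hx⟩ * ⟨u, hu⟩ + ⟨y, h.hy⟩ * ⟨v, hv⟩ -
        (algebraMap k R c + ⟨x, h.hx⟩ * w₁ + ⟨y, h.hy⟩ * w₂) =
        (⟨x, h.hx⟩ : R) * (⟨u, hu⟩ - w₁) + ⟨y, h.hy⟩ * (⟨v, hv⟩ - w₂) by ring]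
      exact Ideal.add_mem _ (Ideal.mul_mem_mul (x_mem h) h1') (Ideal.mul_mem_mul (y_mem h) h2')

end Loc2

theorem Reg.finite_pow (h : Reg R x y Dx Dy) (μ : ℕ) :
    FiniteDimensional k (R ⧸ mId R x y ^ μ) := by
  have hfin : FiniteDimensional k (mono k R ⟨x, h.hx⟩ ⟨y, h.hy⟩ μ) :=
    FiniteDimensional.span_of_finite k (Set.finite_range _)
  refine Module.Finite.of_surjective
    ((Ideal.Quotient.mkₐ k (mId R x y ^ μ)).toLinearMap ∘ₗ
      (mono k R ⟨x, h.hx⟩ ⟨y, h.hy⟩ μ).subtype) ?_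
  intro a
  obtain ⟨z, rfl⟩ := Ideal.Quotient.mk_surjective a
  obtain ⟨w, hw, hzw⟩ := dec_pow h μ z
  refine ⟨⟨w, hw⟩, ?_⟩
  exact (Ideal.Quotient.eq.2 hzw).symm

theorem Loc2.one_notMem (h : Reg R x y Dx Dy) : (1 : R) ∉ mId R x y := by
  rw [h.mem_mId']
  rintro ⟨u, hu, v, hv, e⟩
  exact h.one u hu v hv (by simpa using e)

theorem Reg.one_le_finrank (h : Reg R x y Dx Dy) {μ : ℕ} (hμ : 1 ≤ μ) :
    1 ≤ Module.finrank k (R ⧸ mId R x y ^ μ) := by
  have := h.finite_pow μ
  have : Nontrivial (R ⧸ mId R x y ^ μ) := by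
    rw [Ideal.Quotient.nontrivial_iff]
    intro e
    have h1 : (1 : R) ∈ mId R x y ^ μ := by rw [e]; trivial
    exact one_notMem h (Ideal.pow_le_self (by omega) h1)
  exact Module.finrank_pos

/-- The derivations lower the order. -/
theorem Loc2.D_mem (h : Reg R x y Dx Dy) {z : R} (hz : z ∈ mId R x y ^ 2) :
    (⟨Dx z, h.Dx_mem z z.2⟩ : R) ∈ mId R x y ∧ (⟨Dy z, h.Dy_mem z z.2⟩ : R) ∈ mId R x y := by
  rw [pow_two] at hz
  refine Submodule.mul_induction_on (C := fun z : R => (⟨Dx z, h.Dx_mem z z.2⟩ : R) ∈ mId R x y ∧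
    (⟨Dy z, h.Dy_mem z z.2⟩ : R) ∈ mId R x y) hz ?_ ?_
  · intro a ha b hb
    constructor
    · have e : (⟨Dx (a * b : R), h.Dx_mem _ (a * b).2⟩ : R) =
          a * ⟨Dx b, h.Dx_mem b b.2⟩ + b * ⟨Dx a, h.Dx_mem a a.2⟩ :=
        Subtype.ext (by push_cast; rw [Derivation.leibniz]; simp [smul_eq_mul])
      rw [e]
      exact Ideal.add_mem _ (Ideal.mul_mem_right _ _ ha) (Ideal.mul_mem_right _ _ hb)
    · have e : (⟨Dy (a * b : R), h.Dy_mem _ (a * b).2⟩ : R) =
          a * ⟨Dy b, h.Dy_mem b b.2⟩ + b * ⟨Dy a, h.Dy_mem a a.2⟩ :=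
        Subtype.ext (by push_cast; rw [Derivation.leibniz]; simp [smul_eq_mul])
      rw [e]
      exact Ideal.add_mem _ (Ideal.mul_mem_right _ _ ha) (Ideal.mul_mem_right _ _ hb)
  · intro a b ha hb
    constructor
    · have e : (⟨Dx (a + b : R), h.Dx_mem _ (a + b).2⟩ : R) =
          ⟨Dx a, h.Dx_mem a a.2⟩ + ⟨Dx b, h.Dx_mem b b.2⟩ :=
        Subtype.ext (by push_cast; rw [map_add])
      rw [e]
      exact Ideal.add_mem _ ha.1 hb.1
    · have e : (⟨Dy (a + b : R), h.Dy_mem _ (a + b).2⟩ : R) =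
          ⟨Dy a, h.Dy_mem a a.2⟩ + ⟨Dy b, h.Dy_mem b b.2⟩ :=
        Subtype.ext (by push_cast; rw [map_add])
      rw [e]
      exact Ideal.add_mem _ ha.2 hb.2

theorem Loc2.const_mem (h : Reg R x y Dx Dy) {c : k} (hc : algebraMap k R c ∈ mId R x y) :
    c = 0 := by
  by_contra hne
  apply one_notMem h
  have := (mId R x y).mul_mem_left (algebraMap k R c⁻¹) hc
  rw [← map_mul, inv_mul_cancel₀ hne, map_one] at this
  exact this

theorem Loc2.smul_mk (I : Ideal R) (c : k) (a : R) :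
    c • (Ideal.Quotient.mk I a) = Ideal.Quotient.mk I (algebraMap k R c * a) := by
  rw [← Algebra.smul_def]
  exact ((Ideal.Quotient.mkₐ k I).toLinearMap.map_smul c a).symm

theorem Reg.three_le_finrank (h : Reg R x y Dx Dy) {μ : ℕ} (hμ : 2 ≤ μ) :
    3 ≤ Module.finrank k (R ⧸ mId R x y ^ μ) := by
  have := h.finite_pow μ
  let v : Fin 3 → R ⧸ mId R x y ^ μ :=
    ![Ideal.Quotient.mk _ 1, Ideal.Quotient.mk _ ⟨x, h.hx⟩, Ideal.Quotient.mk _ ⟨y, h.hy⟩]
  have hli : LinearIndependent k v := by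
    rw [Fintype.linearIndependent_iff]
    intro g hg
    have h1 : algebraMap k R (g 0) + algebraMap k R (g 1) * ⟨x, h.hx⟩ +
        algebraMap k R (g 2) * ⟨y, h.hy⟩ ∈ mId R x y ^ μ := by
      rw [← Ideal.Quotient.eq_zero_iff_mem]
      rw [← hg, Fin.sum_univ_three]
      simp only [v, Matrix.cons_val_zero, Matrix.cons_val_one, Matrix.cons_val]
      rw [smul_mk, smul_mk, smul_mk, ← map_add, ← map_add, mul_one]
    have h2 := Ideal.pow_le_pow_right hμ h1
    have h3 : g 0 = 0 := by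
      apply const_mem h
      have h4 := Ideal.pow_le_self two_ne_zero h2
      have h5 := (mId R x y).sub_mem h4 ((mId R x y).add_mem
        ((mId R x y).mul_mem_left (algebraMap k R (g 1)) (x_mem h))
        ((mId R x y).mul_mem_left (algebraMap k R (g 2)) (y_mem h)))
      rw [show algebraMap k R (g 0) + algebraMap k R (g 1) * ⟨x, h.hx⟩ +
        algebraMap k R (g 2) * ⟨y, h.hy⟩ - (algebraMap k R (g 1) * ⟨x, h.hx⟩ +
        algebraMap k R (g 2) * ⟨y, h.hy⟩) = algebraMap k R (g 0) by ring] at h5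
      exact h5
    have h6 := D_mem h h2
    have hc : ∀ (D : Derivation k K K) (c : k) (z : K), D (algebraMap k K c * z) =
        algebraMap k K c * D z := by
      intro D c z
      rw [Derivation.leibniz, Derivation.map_algebraMap, smul_zero, add_zero, smul_eq_mul]
    have h7 : g 1 = 0 := by
      apply const_mem h
      convert h6.1 using 1
      apply Subtype.ext
      push_cast
      rw [map_add, map_add, Derivation.map_algebraMap, hc, hc, h.xx, h.xy]
      ring
    have h8 : g 2 = 0 := by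
      apply const_mem h
      convert h6.2 using 1
      apply Subtype.ext
      push_cast
      rw [map_add, map_add, Derivation.map_algebraMap, hc, hc, h.yx, h.yy]
      ring
    intro i
    fin_cases i
    · exact h3
    · exact h7
    · exact h8
  have := hli.fintype_card_le_finrank
  simpa using this

theorem ptLoc_le (C : Subalgebra k K) (χ : C →ₐ[k] k) : C ≤ ptLoc C χ := fun z hz =>
  ⟨⟨z, hz⟩, 1, by rw [map_one]; exact one_ne_zero, by simp⟩

theorem QT.qt_le {R' : Subalgebra k K} {c : k} (hQ : QT R R' x y c) : qt R x y ≤ R' := by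
  obtain ⟨χ, _, _, rfl⟩ := hQ
  exact ptLoc_le _ _

theorem le_qt : R ≤ qt R x y := fun _ hz => Algebra.subset_adjoin (Or.inl hz)

theorem div_mem_qt : y / x ∈ qt R x y := Algebra.subset_adjoin (Or.inr rfl)

theorem QT.le {R' : Subalgebra k K} {c : k} (hQ : QT R R' x y c) : R ≤ R' :=
  le_qt.trans hQ.qt_le

theorem QT.div_mem {R' : Subalgebra k K} {c : k} (hQ : QT R R' x y c) : y / x ∈ R' :=
  hQ.qt_le div_mem_qt

theorem Loc2.div_pow_mem_qt (h : Reg R x y Dx Dy) {z : R} {μ : ℕ}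
    (hz : z ∈ mId R x y ^ μ) : (z : K) / x ^ μ ∈ qt R x y := by
  induction μ generalizing z with
  | zero =>
    rw [pow_zero, div_one]
    exact le_qt z.2
  | succ μ ih =>
    rw [pow_succ'] at hz
    refine Submodule.mul_induction_on (C := fun z : R => (z : K) / x ^ (μ + 1) ∈ qt R x y) hz ?_ ?_
    · intro a ha b hb
      obtain ⟨u, hu, v, hv, e⟩ := h.mem_mId'.1 ha
      have e1 : ((a * b : R) : K) / x ^ (μ + 1) = (u + (y / x) * v) * ((b : K) / x ^ μ) := by
        push_cast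
        rw [e]
        have := h.x_ne
        field_simp
        ring
      rw [e1]
      exact mul_mem (add_mem (le_qt hu) (mul_mem div_mem_qt (le_qt hv))) (ih hb)
    · intro a b ha hb
      push_cast
      rw [add_div]
      exact add_mem ha hb

theorem QT.div_pow_mem (h : Reg R x y Dx Dy) {R' : Subalgebra k K} {c : k}
    (hQ : QT R R' x y c) {z : R} {μ : ℕ} (hz : z ∈ mId R x y ^ μ) : (z : K) / x ^ μ ∈ R' :=
  hQ.qt_le (div_pow_mem_qt h hz)

namespace Loc2

open Polynomial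

theorem aeval_mem {S : Subalgebra k K} {t : K} (ht : t ∈ S) (p : k[X]) : aeval t p ∈ S := by
  have h1 : aeval t p ∈ Algebra.adjoin k {t} := aeval_mem_adjoin_singleton k t
  exact (Algebra.adjoin_le (Set.singleton_subset_iff.2 ht)) h1

/-- The elements of the chart modulo the exceptional divisor. -/
theorem qt_dec (h : Reg R x y Dx Dy) {z : K} (hz : z ∈ qt R x y) :
    ∃ (p : k[X]) (w : K), w ∈ qt R x y ∧ z = aeval (y / x) p + x * w := by
  have hT : ∀ p : k[X], aeval (y / x) p ∈ qt R x y := aeval_mem div_mem_qt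
  have hx : x ∈ qt R x y := le_qt h.hx
  unfold qt at hz
  induction hz using Algebra.adjoin_induction with
  | mem z hz =>
    rcases hz with hz | hz
    · obtain ⟨c, u, hu, v, hv, e⟩ := h.dec z hz
      refine ⟨C c, u + (y / x) * v, add_mem (le_qt hu) (mul_mem div_mem_qt (le_qt hv)), ?_⟩
      rw [e, aeval_C]
      have := h.x_ne
      field_simp
      ring
    · refine ⟨X, 0, zero_mem _, ?_⟩
      rw [aeval_X, mul_zero, add_zero]
      exact hz
  | algebraMap r => exact ⟨C r, 0, zero_mem _, by rw [aeval_C, mul_zero, add_zero]⟩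
  | add a b _ _ ha hb =>
    obtain ⟨p, w, hw, e⟩ := ha
    obtain ⟨p', w', hw', e'⟩ := hb
    exact ⟨p + p', w + w', add_mem hw hw', by rw [map_add, e, e']; ring⟩
  | mul a b _ _ ha hb =>
    obtain ⟨p, w, hw, e⟩ := ha
    obtain ⟨p', w', hw', e'⟩ := hb
    exact ⟨p * p', w * aeval (y / x) p' + aeval (y / x) p * w' + x * w * w',
      add_mem (add_mem (mul_mem hw (hT _)) (mul_mem (hT _) hw')) (mul_mem (mul_mem hx hw) hw'),
      by rw [map_mul, e, e']; ring⟩

/-- Binary forms. -/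
theorem hom_mem (h : Reg R x y Dx Dy) {μ : ℕ} {P : k[X]} (hP : P.natDegree ≤ μ) :
    ∃ z : R, z ∈ mId R x y ^ μ ∧ (z : K) = x ^ μ * aeval (y / x) P := by
  refine ⟨∑ i ∈ Finset.range (μ + 1), algebraMap k R (P.coeff i) *
    ((⟨x, h.hx⟩ : R) ^ (μ - i) * (⟨y, h.hy⟩ : R) ^ i), ?_, ?_⟩
  · refine Ideal.sum_mem _ fun i hi => Ideal.mul_mem_left _ _ ?_
    have hi' := Finset.mem_range.1 hi
    have e : μ = (μ - i) + i := by omega
    have h1 := Ideal.mul_mem_mul (Ideal.pow_mem_pow (x_mem h) (μ - i))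
      (Ideal.pow_mem_pow (y_mem h) i)
    rw [← pow_add, ← e] at h1
    exact h1
  · have h1 : P = ∑ i ∈ Finset.range (μ + 1), C (P.coeff i) * X ^ i :=
      P.as_sum_range_C_mul_X_pow' (by omega)
    have h2 : aeval (y / x) P = ∑ i ∈ Finset.range (μ + 1),
        algebraMap k K (P.coeff i) * (y / x) ^ i := by
      conv_lhs => rw [h1]
      rw [map_sum]
      refine Finset.sum_congr rfl fun i _ => ?_
      rw [map_mul, aeval_C, map_pow, aeval_X]
    rw [h2, Finset.mul_sum]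
    push_cast
    refine Finset.sum_congr rfl fun i hi => ?_
    have hi' := Finset.mem_range.1 hi
    have e : x ^ μ = x ^ (μ - i) * x ^ i := by
      rw [← pow_add]; congr 1; omega
    rw [e, div_pow]
    have := h.x_ne
    show algebraMap k K (P.coeff i) * (x ^ (μ - i) * y ^ i) = _
    field_simp

/-- The leading form of an element of the maximal ideal. -/
theorem lead_one (h : Reg R x y Dx Dy) {a : R} (ha : a ∈ mId R x y) :
    ∃ (α β : k) (a' : R), a' ∈ mId R x y ^ 2 ∧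
      a = algebraMap k R α * ⟨x, h.hx⟩ + algebraMap k R β * ⟨y, h.hy⟩ + a' := by
  obtain ⟨u, hu, v, hv, e⟩ := h.mem_mId'.1 ha
  obtain ⟨w₁, h1, h1'⟩ := dec_pow h 1 ⟨u, hu⟩
  obtain ⟨w₂, h2, h2'⟩ := dec_pow h 1 ⟨v, hv⟩
  have hmono : ∀ w ∈ mono k R (⟨x, h.hx⟩ : R) ⟨y, h.hy⟩ 1, ∃ c : k, w = algebraMap k R c := by
    intro w hw
    unfold mono at hw
    induction hw using Submodule.span_induction with
    | mem z hz =>
      obtain ⟨⟨i, j⟩, rfl⟩ := hz
      exact ⟨1, by simp⟩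
    | zero => exact ⟨0, by simp⟩
    | add a b _ _ ha hb =>
      obtain ⟨c, rfl⟩ := ha
      obtain ⟨c', rfl⟩ := hb
      exact ⟨c + c', by rw [map_add]⟩
    | smul r a _ ha =>
      obtain ⟨c, rfl⟩ := ha
      exact ⟨r * c, by rw [map_mul, Algebra.smul_def]⟩
  obtain ⟨α, rfl⟩ := hmono _ h1
  obtain ⟨β, rfl⟩ := hmono _ h2
  rw [pow_one] at h1' h2'
  refine ⟨α, β, ⟨x, h.hx⟩ * (⟨u, hu⟩ - algebraMap k R α) + ⟨y, h.hy⟩ * (⟨v, hv⟩ -
    algebraMap k R β), ?_, ?_⟩
  · rw [pow_two]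
    exact Ideal.add_mem _ (Ideal.mul_mem_mul (x_mem h) h1') (Ideal.mul_mem_mul (y_mem h) h2')
  · have e' : a = ⟨x, h.hx⟩ * ⟨u, hu⟩ + ⟨y, h.hy⟩ * ⟨v, hv⟩ := Subtype.ext e
    rw [e']
    ring

/-- The leading form. -/
theorem lead (h : Reg R x y Dx Dy) {μ : ℕ} {F : R} (hF : F ∈ mId R x y ^ μ) :
    ∃ P : k[X], P.natDegree ≤ μ ∧ ∃ G : R, G ∈ mId R x y ^ (μ + 1) ∧
      (F : K) = x ^ μ * aeval (y / x) P + G := by
  induction μ generalizing F with
  | zero =>
    obtain ⟨c, u, hu, v, hv, e⟩ := h.dec F F.2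
    refine ⟨C c, by rw [natDegree_C], ⟨x, h.hx⟩ * ⟨u, hu⟩ + ⟨y, h.hy⟩ * ⟨v, hv⟩, ?_, ?_⟩
    · rw [zero_add, pow_one]
      exact Ideal.add_mem _ (Ideal.mul_mem_right _ _ (x_mem h))
        (Ideal.mul_mem_right _ _ (y_mem h))
    · push_cast
      rw [e, aeval_C]
      ring
  | succ μ ih =>
    rw [pow_succ'] at hF
    refine Submodule.mul_induction_on (C := fun F : R => ∃ P : k[X], P.natDegree ≤ μ + 1 ∧
      ∃ G : R, G ∈ mId R x y ^ (μ + 1 + 1) ∧ (F : K) = x ^ (μ + 1) * aeval (y / x) P + G)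
      hF ?_ ?_
    · intro a ha b hb
      obtain ⟨α, β, a', ha', ea⟩ := lead_one h ha
      obtain ⟨P, hP, G, hG, eb⟩ := ih hb
      refine ⟨(C α + C β * X) * P, ?_, (algebraMap k R α * ⟨x, h.hx⟩ +
        algebraMap k R β * ⟨y, h.hy⟩) * G + a' * b, ?_, ?_⟩
      · refine natDegree_mul_le.trans ?_
        have h1 : (C α + C β * X : k[X]).natDegree ≤ 1 := by
          refine (natDegree_add_le _ _).trans (max_le ?_ ?_)
          · rw [natDegree_C]; omega
          · exact (natDegree_C_mul_le _ _).trans natDegree_X_le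
        omega
      · refine Ideal.add_mem _ ?_ ?_
        · rw [pow_succ' _ (μ + 1)]
          exact Ideal.mul_mem_mul (Ideal.add_mem _ (Ideal.mul_mem_left _ _ (x_mem h))
            (Ideal.mul_mem_left _ _ (y_mem h))) hG
        · rw [show μ + 1 + 1 = 2 + μ by ring, pow_add]
          exact Ideal.mul_mem_mul ha' hb
      · have h1 : ((algebraMap k R α * ⟨x, h.hx⟩ + algebraMap k R β * ⟨y, h.hy⟩ : R) : K) =
            x * aeval (y / x) (C α + C β * X) := by
          push_cast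
          rw [map_add, map_mul, aeval_C, aeval_C, aeval_X]
          have := h.x_ne
          show algebraMap k K α * x + algebraMap k K β * y = _
          field_simp
        have h2 : (a : K) = x * aeval (y / x) (C α + C β * X) + a' := by
          rw [← h1, ea]
          push_cast
          ring
        push_cast at h1 ⊢
        rw [h1, map_mul, h2, eb, pow_succ']
        ring
    · rintro a b ⟨P, hP, G, hG, e⟩ ⟨P', hP', G', hG', e'⟩
      refine ⟨P + P', (natDegree_add_le _ _).trans (max_le hP hP'), G + G',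
        Ideal.add_mem _ hG hG', ?_⟩
      push_cast
      rw [map_add, e, e']
      ring

/-- Evaluation at the point of the chart. -/
theorem chi_aeval {χ : qt R x y →ₐ[k] k} {c : k} (hχ : ∀ h, χ ⟨y / x, h⟩ = c) (q : k[X])
    (hq : aeval (y / x) q ∈ qt R x y) : χ ⟨aeval (y / x) q, hq⟩ = q.eval c := by
  have e : (⟨aeval (y / x) q, hq⟩ : qt R x y) = aeval (⟨y / x, div_mem_qt⟩ : qt R x y) q := by
    apply Subtype.ext
    have := aeval_algHom_apply (qt R x y).val (⟨y / x, div_mem_qt⟩ : qt R x y) q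
    exact this
  rw [e, ← aeval_algHom_apply, hχ, coe_aeval_eq_eval]

/-- Elements of `R'` modulo `x`. -/
theorem QT_dec (h : Reg R x y Dx Dy) {R' : Subalgebra k K} {c : k} (hQ : QT R R' x y c)
    {z : K} (hz : z ∈ R') : ∃ p q : k[X], q.eval c ≠ 0 ∧ ∃ w ∈ R',
      z * aeval (y / x) q = aeval (y / x) p + x * w := by
  have hle := hQ.qt_le
  obtain ⟨χ, hx, hyx, rfl⟩ := hQ
  obtain ⟨a, b, hb, e⟩ := hz
  obtain ⟨p, w, hw, ea⟩ := qt_dec h a.2
  obtain ⟨q, w', hw', eb⟩ := qt_dec h b.2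
  refine ⟨p, q, ?_, w - z * w', sub_mem (hle hw) (mul_mem ⟨a, b, hb, e⟩ (hle hw')), ?_⟩
  · intro h0
    apply hb
    have hq := aeval_mem (S := qt R x y) (div_mem_qt (R := R) (x := x) (y := y)) q
    have hxm : x ∈ qt R x y := le_qt h.hx
    have e1 : b = ⟨aeval (y / x) q, hq⟩ + ⟨x, hxm⟩ * ⟨w', hw'⟩ := Subtype.ext eb
    rw [e1, map_add, map_mul, chi_aeval hyx, h0, hx, zero_mul, add_zero]
  · rw [ea, eb] at e
    linear_combination e

/-- Polynomials in `y / x` which do not vanish at the point are units. -/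
theorem QT_inv {R' : Subalgebra k K} {c : k} (hQ : QT R R' x y c) (q : k[X])
    (hq : q.eval c ≠ 0) : aeval (y / x) q ≠ 0 ∧ (aeval (y / x) q)⁻¹ ∈ R' := by
  obtain ⟨χ, hx, hyx, rfl⟩ := hQ
  have hq' := aeval_mem (S := qt R x y) (div_mem_qt (R := R) (x := x) (y := y)) q
  have h1 : χ ⟨aeval (y / x) q, hq'⟩ ≠ 0 := by rw [chi_aeval hyx]; exact hq
  have h2 : aeval (y / x) q ≠ 0 := by
    intro h0
    apply h1
    rw [show (⟨aeval (y / x) q, hq'⟩ : qt R x y) = 0 from Subtype.ext h0, map_zero]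
  exact ⟨h2, 1, ⟨_, hq'⟩, h1, inv_mul_cancel₀ h2⟩

/-- Modulo `x` and a nonzero polynomial of degree at most `μ` in `y / x` all elements of `R'` are
polynomials of degree at most `μ` in `y / x`. -/
theorem QT_poly (h : Reg R x y Dx Dy) {R' : Subalgebra k K} {c : k} (hQ : QT R R' x y c)
    {μ : ℕ} (I : Ideal R') (hxI : (⟨x, hQ.le h.hx⟩ : R') ∈ I) {P : k[X]} (hP0 : P ≠ 0)
    (hP : P.natDegree ≤ μ) (hPI : aeval (⟨y / x, hQ.div_mem⟩ : R') P ∈ I) (z : R') :
    ∃ r : k[X], r.natDegree ≤ μ ∧ z - aeval (⟨y / x, hQ.div_mem⟩ : R') r ∈ I := by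
  set T : R' := ⟨y / x, hQ.div_mem⟩ with hT
  have hval : ∀ q : k[X], ((aeval T q : R') : K) = aeval (y / x) q := by
    intro q
    exact (aeval_algHom_apply R'.val T q).symm
  have hunit : ∀ q : k[X], q.eval c ≠ 0 → IsUnit (aeval T q) := by
    intro q hq
    obtain ⟨h1, h2⟩ := QT_inv hQ q hq
    refine IsUnit.of_mul_eq_one ⟨_, h2⟩ (Subtype.ext ?_)
    show ((aeval T q : R') : K) * _ = 1
    rw [hval]
    exact mul_inv_cancel₀ h1
  -- the factor at the point
  obtain ⟨U, hPU, hU⟩ := exists_eq_pow_rootMultiplicity_mul_and_not_dvd P hP0 c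
  set e := rootMultiplicity c P with he
  have hU' : U.eval c ≠ 0 := by
    intro h0
    exact hU (dvd_iff_isRoot.2 h0)
  have heμ : e ≤ μ := by
    have h1 := natDegree_le_of_dvd (pow_rootMultiplicity_dvd P c) hP0
    rw [natDegree_pow, natDegree_X_sub_C, mul_one] at h1
    omega
  have hTe : aeval T ((X - C c) ^ e) ∈ I := by
    rw [hPU, map_mul] at hPI
    obtain ⟨u, hu⟩ := hunit U hU'
    have h1 := I.mul_mem_right ((u⁻¹ : (R')ˣ) : R') hPI
    rw [← hu, mul_assoc, Units.mul_inv, mul_one] at h1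
    exact h1
  obtain ⟨p, q, hq, w, hw, hz⟩ := QT_dec h hQ z.2
  have hcop : IsCoprime ((X - C c) ^ e) q := by
    refine IsCoprime.pow_left ?_
    rw [(irreducible_X_sub_C c).coprime_iff_not_dvd]
    intro h1
    exact hq (dvd_iff_isRoot.1 h1)
  obtain ⟨s, t, hst⟩ := hcop
  have hmon : ((X - C c) ^ e : k[X]).Monic := (monic_X_sub_C c).pow e
  refine ⟨(t * p) %ₘ ((X - C c) ^ e), ?_, ?_⟩
  · have h1 := natDegree_modByMonic_le (t * p) hmon
    have h2 : ((X - C c) ^ e : k[X]).natDegree = e := by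
      rw [natDegree_pow, natDegree_X_sub_C, mul_one]
    omega
  · have hzq : z * aeval T q - aeval T p ∈ I := by
      have e1 : z * aeval T q - aeval T p = ⟨x, hQ.le h.hx⟩ * ⟨w, hw⟩ := by
        apply Subtype.ext
        show (z : K) * ((aeval T q : R') : K) - ((aeval T p : R') : K) = x * w
        rw [hval, hval, hz]
        ring
      rw [e1]
      exact I.mul_mem_right _ hxI
    have e2 : aeval T ((t * p) %ₘ ((X - C c) ^ e)) = aeval T (t * p) -
        aeval T ((X - C c) ^ e) * aeval T ((t * p) /ₘ ((X - C c) ^ e)) := by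
      rw [← map_mul, ← map_sub]
      congr 1
      exact modByMonic_eq_sub_mul_div _ _
    have e3 : (1 : R') = aeval T s * aeval T ((X - C c) ^ e) + aeval T t * aeval T q := by
      rw [← map_mul, ← map_mul, ← map_add, hst, map_one]
    have e4 : z - aeval T ((t * p) %ₘ ((X - C c) ^ e)) =
        z * aeval T s * aeval T ((X - C c) ^ e) + aeval T t * (z * aeval T q - aeval T p) +
        aeval T ((t * p) /ₘ ((X - C c) ^ e)) * aeval T ((X - C c) ^ e) := by
      rw [e2, map_mul]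
      linear_combination z * e3
    rw [e4]
    exact I.add_mem (I.add_mem (I.mul_mem_left _ hTe) (I.mul_mem_left _ hzq))
      (I.mul_mem_left _ hTe)

end Loc2

/-- The key inequality. -/
theorem Reg.finrank_transform (h : Reg R x y Dx Dy) {R' : Subalgebra k K} {c : k}
    (hQ : QT R R' x y c) (J : Ideal R) [FiniteDimensional k (R ⧸ J)] {μ : ℕ}
    (hμ : J ≤ mId R x y ^ μ) (hμ' : ¬ J ≤ mId R x y ^ (μ + 1)) (J' : Ideal R')
    (hJ : ∀ z : R, z ∈ J → ∃ hz : (z : K) / x ^ μ ∈ R', (⟨_, hz⟩ : R') ∈ J') :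
    FiniteDimensional k (R' ⧸ J') ∧
      Module.finrank k (R' ⧸ J') + Module.finrank k (R ⧸ mId R x y ^ μ) ≤
        Module.finrank k (R ⧸ J) := by
  classical
  have hx0 := h.x_ne
  set X' : R' := ⟨x, hQ.le h.hx⟩ with hX'
  set T : R' := ⟨y / x, hQ.div_mem⟩ with hT
  have hval : ∀ q : Polynomial k, ((Polynomial.aeval T q : R') : K) =
      Polynomial.aeval (y / x) q := by
    intro q
    exact (Polynomial.aeval_algHom_apply R'.val T q).symm
  -- a polynomial in the ideal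
  obtain ⟨F, hFJ, hF⟩ := Set.not_subset.1 hμ'
  have hFJ' : F ∈ J := hFJ
  obtain ⟨P, hP, G, hG, eF⟩ := Loc2.lead h (hμ hFJ')
  have hP0 : P ≠ 0 := by
    rintro rfl
    apply hF
    rw [map_zero, mul_zero, zero_add] at eF
    rw [show F = G from Subtype.ext eF]
    exact hG
  set I : Ideal R' := J' ⊔ Ideal.span {X'} with hI
  have hxI : X' ∈ I := Ideal.mem_sup_right (Ideal.mem_span_singleton_self _)
  have hPI : Polynomial.aeval T P ∈ I := by
    obtain ⟨hz, hz'⟩ := hJ F hFJ'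
    have hG' := hQ.div_pow_mem h hG
    have e1 : Polynomial.aeval T P = ⟨_, hz⟩ - X' * ⟨_, hG'⟩ := by
      apply Subtype.ext
      show ((Polynomial.aeval T P : R') : K) = (F : K) / x ^ μ - x * ((G : K) / x ^ (μ + 1))
      rw [hval, eF, pow_succ]
      field_simp
      ring
    rw [e1]
    exact I.sub_mem (Ideal.mem_sup_left hz') (I.mul_mem_right _ hxI)
  -- the elements `z / x ^ μ`
  have hW1 : ∀ r : Polynomial k, r.natDegree ≤ μ → ∃ z : R, z ∈ mId R x y ^ μ ∧
      ((Polynomial.aeval T r : R') : K) = (z : K) / x ^ μ := by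
    intro r hr
    obtain ⟨z, hz, e⟩ := Loc2.hom_mem h hr
    refine ⟨z, hz, ?_⟩
    rw [hval, e]
    field_simp
  have hstep : ∀ n : ℕ, ∀ z : R', ∃ w : R, w ∈ mId R x y ^ μ ∧ ∃ j ∈ J', ∃ t : R',
      (z : K) = (w : K) / x ^ μ + j + x ^ n * t := by
    intro n
    induction n with
    | zero =>
      intro z
      exact ⟨0, Submodule.zero_mem _, 0, J'.zero_mem, z, by push_cast; simp⟩
    | succ n ih =>
      intro z
      obtain ⟨w, hw, j, hj, t, e⟩ := ih z
      obtain ⟨r, hr, hrt⟩ := Loc2.QT_poly h hQ I hxI hP0 hP hPI t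
      obtain ⟨w', hw', ew'⟩ := hW1 r hr
      rw [hI, Submodule.mem_sup] at hrt
      obtain ⟨j', hj', s, hs, e2⟩ := hrt
      rw [Ideal.mem_span_singleton'] at hs
      obtain ⟨s', rfl⟩ := hs
      refine ⟨w + ⟨x, h.hx⟩ ^ n * w', Ideal.add_mem _ hw (Ideal.mul_mem_left _ _ hw'),
        j + X' ^ n * j', J'.add_mem hj (J'.mul_mem_left _ hj'), s', ?_⟩
      have e3 : (t : K) = (w' : K) / x ^ μ + j' + s' * x := by
        have this : (j' : K) + s' * x = (t : K) - ((Polynomial.aeval T r : R') : K) :=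
          congrArg (fun a : R' => (a : K)) e2
        rw [ew'] at this
        linear_combination -this
      rw [e, e3]
      push_cast
      rw [pow_succ]
      field_simp
      ring
  -- surjectivity
  obtain ⟨N, hμN, hN⟩ := Loc2.exists_pow_le h J μ
  have hsurj : ∀ z : R', ∃ w : R, w ∈ mId R x y ^ μ ∧ ∃ j ∈ J', (z : K) = (w : K) / x ^ μ + j := by
    intro z
    obtain ⟨w, hw, j, hj, t, e⟩ := hstep (N - μ) z
    have hxN : (⟨x, h.hx⟩ : R) ^ N ∈ J := hN (Ideal.pow_mem_pow (Loc2.x_mem h) N)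
    obtain ⟨hz, hz'⟩ := hJ _ hxN
    refine ⟨w, hw, j + ⟨_, hz⟩ * t, J'.add_mem hj (J'.mul_mem_right _ hz'), ?_⟩
    rw [e]
    push_cast
    have e1 : x ^ N = x ^ (N - μ) * x ^ μ := by
      rw [← pow_add]; congr 1; omega
    rw [e1]
    field_simp
    ring
  -- linear algebra
  set U : Submodule k R := (mId R x y ^ μ).restrictScalars k with hU
  let g₀ : U →ₗ[k] R' :=
    { toFun := fun z => ⟨((z : R) : K) / x ^ μ, hQ.div_pow_mem h z.2⟩
      map_add' := fun a b => Subtype.ext (by push_cast; rw [add_div])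
      map_smul' := fun r a => Subtype.ext (by
        simp only [SetLike.val_smul, RingHom.id_apply]
        rw [Algebra.smul_def, Algebra.smul_def, mul_div_assoc]) }
  let g : U →ₗ[k] R' ⧸ J' := (Ideal.Quotient.mkₐ k J').toLinearMap ∘ₗ g₀
  let f : U →ₗ[k] R ⧸ J := (Ideal.Quotient.mkₐ k J).toLinearMap ∘ₗ U.subtype
  have hker : LinearMap.ker f ≤ LinearMap.ker g := by
    intro z hz
    rw [LinearMap.mem_ker] at hz ⊢
    have hz' : (z : R) ∈ J := Ideal.Quotient.eq_zero_iff_mem.1 hz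
    obtain ⟨h1, h2⟩ := hJ _ hz'
    exact Ideal.Quotient.eq_zero_iff_mem.2 h2
  have hg : Function.Surjective g := by
    intro a
    obtain ⟨z, rfl⟩ := Ideal.Quotient.mk_surjective a
    obtain ⟨w, hw, j, hj, e⟩ := hsurj z
    refine ⟨⟨w, hw⟩, ?_⟩
    show Ideal.Quotient.mk J' (g₀ ⟨w, hw⟩) = Ideal.Quotient.mk J' z
    rw [Ideal.Quotient.eq]
    have e1 : g₀ ⟨w, hw⟩ - z = -j := by
      apply Subtype.ext
      push_cast
      rw [e]
      show (w : K) / x ^ μ - _ = _
      ring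
    rw [e1]
    exact J'.neg_mem hj
  let φ : LinearMap.range f →ₗ[k] R' ⧸ J' :=
    (Submodule.liftQ (LinearMap.ker f) g hker) ∘ₗ (LinearMap.quotKerEquivRange f).symm.toLinearMap
  have hφ : Function.Surjective φ := by
    have h1 : Function.Surjective (Submodule.liftQ (LinearMap.ker f) g hker) := by
      intro a
      obtain ⟨z, rfl⟩ := hg a
      exact ⟨Submodule.Quotient.mk z, rfl⟩
    exact h1.comp (LinearMap.quotKerEquivRange f).symm.surjective
  have hfin : FiniteDimensional k (R' ⧸ J') := Module.Finite.of_surjective φ hφ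
  refine ⟨hfin, ?_⟩
  have h1 : Module.finrank k (R' ⧸ J') ≤ Module.finrank k (LinearMap.range f) :=
    LinearMap.finrank_le_finrank_of_surjective hφ
  let ψ : ((R ⧸ J) ⧸ LinearMap.range f) →ₗ[k] R ⧸ mId R x y ^ μ :=
    Submodule.liftQ (LinearMap.range f) (Ideal.Quotient.factorₐ k hμ).toLinearMap (by
      rintro _ ⟨z, rfl⟩
      rw [LinearMap.mem_ker]
      exact Ideal.Quotient.eq_zero_iff_mem.2 z.2)
  have hψ : Function.Surjective ψ := by
    intro a
    obtain ⟨z, rfl⟩ := Ideal.Quotient.mk_surjective a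
    exact ⟨Submodule.Quotient.mk (Ideal.Quotient.mk J z), rfl⟩
  have h2 : Module.finrank k (R ⧸ mId R x y ^ μ) ≤
      Module.finrank k ((R ⧸ J) ⧸ LinearMap.range f) :=
    LinearMap.finrank_le_finrank_of_surjective hψ
  have h3 := Submodule.finrank_quotient_add_finrank (LinearMap.range f)
  omega

end Pool.Agent.MP_b525bf_ag_TS
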