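import Pool.Agent.Lib.MP_b525bf_ag_TS.Pts_aux86

/-!
# Helper file for B1b, B1c: products of ideals, centres
-/

set_option autoImplicit false
set_option linter.unusedSectionVars false
set_option linter.unusedVariables false

namespace Pool.Agent.MP_b525bf_ag_TS.H86

open Pool.Agent.MP_b525bf_ag_TS

variable {k K : Type} [Field k] [Field K] [Algebra k K] {B : Subalgebra k K} {E : Type}
  [Fintype E] {J : E → Ideal B} {R : Subalgebra k K}

/-- The ideal of the elements `w` with `w / u ∈ R`. -/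
def TI (B R : Subalgebra k K) (hB : B ≤ R) (u : K) : Ideal B where
  carrier := {w | (w : K) / u ∈ R}
  add_mem' := by
    intro a b ha hb
    show ((a + b : B) : K) / u ∈ R
    push_cast
    rw [add_div]
    exact R.add_mem ha hb
  zero_mem' := by
    show ((0 : B) : K) / u ∈ R
    simp
  smul_mem' := by
    intro c w hw
    show ((c * w : B) : K) / u ∈ R
    push_cast
    rw [mul_div_assoc]
    exact R.mul_mem (hB c.2) hw

theorem mem_TI {hB : B ≤ R} {u : K} {w : B} : w ∈ TI B R hB u ↔ (w : K) / u ∈ R := Iff.rfl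

theorem TI_mul (hB : B ≤ R) (u v : K) : TI B R hB u * TI B R hB v ≤ TI B R hB (u * v) := by
  rw [Ideal.mul_le]
  intro r hr s hs
  rw [mem_TI] at *
  push_cast
  rw [mul_div_mul_comm]
  exact R.mul_mem hr hs

theorem TI_prod (hB : B ≤ R) (h : E → K) (s : Finset E)
    (hJ : ∀ i, ∀ w : B, w ∈ J i → (w : K) / h i ∈ R) :
    ∏ i ∈ s, J i ≤ TI B R hB (∏ i ∈ s, h i) := by
  classical
  induction s using Finset.induction_on with
  | empty =>
    intro w _
    rw [mem_TI, Finset.prod_empty, div_one]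
    exact hB w.2
  | insert i s hi ih =>
    rw [Finset.prod_insert hi, Finset.prod_insert hi]
    exact (Ideal.mul_mono (fun w hw => hJ i w hw) ih).trans (TI_mul hB _ _)

theorem TI_pow (hB : B ≤ R) (u : K) (n : ℕ) : TI B R hB u ^ n ≤ TI B R hB (u ^ n) := by
  induction n with
  | zero =>
    intro w _
    rw [mem_TI, pow_zero, div_one]
    exact hB w.2
  | succ n ih =>
    rw [pow_succ, pow_succ]
    exact (Ideal.mul_mono ih le_rfl).trans (TI_mul hB _ _)

theorem Pt.le_R (hR : Pt B J R) : B ≤ R := by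
  obtain ⟨h, _, χ, rfl⟩ := hR
  intro z hz
  exact le_ptLoc _ _ (Algebra.subset_adjoin (Or.inl hz))

theorem chart_le (hB : B ≤ R) {h : E → K} (hh : GenAt B J R h) : chartF B J h ≤ R := by
  unfold chartF
  rw [Algebra.adjoin_le_iff]
  rintro z (hz | ⟨i, w, hw, rfl⟩)
  · exact hB hz
  · exact hh.2 i w hw

/-- The bounds for the elements of the powers of the product of the ideals. -/
theorem pow_mem (hB : B ≤ R) {h : E → K} (hh : GenAt B J R h) {n : ℕ} {w : B}
    (hw : w ∈ (∏ i, J i) ^ n) : (w : K) / (∏ i, h i) ^ n ∈ R := by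
  have h1 := (Ideal.pow_right_mono (TI_prod hB h Finset.univ hh.2) n).trans (TI_pow hB _ n)
  exact h1 hw

theorem prod_ne {h : E → K} (hh : TupIn B J h) : (∏ i, h i) ≠ 0 :=
  Finset.prod_ne_zero_iff.2 fun i _ => (hh i).1

theorem exists_prod_mem {h : E → K} (hh : TupIn B J h) :
    ∃ w : B, w ∈ ∏ i, J i ∧ (w : K) = ∏ i, h i := by
  choose hne w hw hwh using hh
  refine ⟨∏ i, w i, Ideal.prod_mem_prod fun i _ => hw i, ?_⟩
  rw [← Finset.prod_congr rfl fun i _ => hwh i]
  exact map_prod B.val _ _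

theorem exists_pow_mem {h : E → K} (hh : TupIn B J h) (n : ℕ) :
    ∃ w : B, w ∈ (∏ i, J i) ^ n ∧ (w : K) = (∏ i, h i) ^ n := by
  obtain ⟨w, hw, hwh⟩ := exists_prod_mem hh
  exact ⟨w ^ n, Ideal.pow_mem_pow hw n, by push_cast; rw [hwh]⟩

/-- The elements of the chart are fractions. -/
theorem chart_form {h : E → K} (hh : TupIn B J h) {z : K} (hz : z ∈ chartF B J h) :
    ∃ n : ℕ, ∃ w : B, w ∈ (∏ i, J i) ^ n ∧ z = w / (∏ i, h i) ^ n := by
  classical
  have hg := prod_ne hh
  unfold chartF at hz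
  induction hz using Algebra.adjoin_induction with
  | mem x hx =>
    rcases hx with hx | ⟨i, w, hw, rfl⟩
    · exact ⟨0, ⟨x, hx⟩, by rw [pow_zero, Ideal.one_eq_top]; trivial, by simp⟩
    · choose hne u hu huh using hh
      refine ⟨1, w * ∏ j ∈ Finset.univ.erase i, u j, ?_, ?_⟩
      · rw [pow_one, ← Finset.mul_prod_erase Finset.univ J (Finset.mem_univ i)]
        exact Ideal.mul_mem_mul hw (Ideal.prod_mem_prod fun j _ => hu j)
      · have h1 : ((∏ j ∈ Finset.univ.erase i, u j : B) : K) =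
            ∏ j ∈ Finset.univ.erase i, h j := by
          rw [← Finset.prod_congr rfl fun i _ => huh i]
          exact map_prod B.val _ _
        push_cast at h1 ⊢
        rw [pow_one, h1, ← Finset.mul_prod_erase Finset.univ h (Finset.mem_univ i)]
        have h2 : (∏ j ∈ Finset.univ.erase i, h j) ≠ 0 :=
          Finset.prod_ne_zero_iff.2 fun i _ => hne i
        rw [mul_div_mul_right _ _ h2]
  | algebraMap r =>
    exact ⟨0, algebraMap k B r, by rw [pow_zero, Ideal.one_eq_top]; trivial, by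
      rw [pow_zero, div_one]; rfl⟩
  | add x y _ _ hx hy =>
    obtain ⟨n, w, hw, rfl⟩ := hx
    obtain ⟨m, v, hv, rfl⟩ := hy
    obtain ⟨gn, hgn, hgn'⟩ := exists_pow_mem hh n
    obtain ⟨gm, hgm, hgm'⟩ := exists_pow_mem hh m
    refine ⟨n + m, w * gm + gn * v, ?_, ?_⟩
    · rw [pow_add]
      exact Ideal.add_mem _ (Ideal.mul_mem_mul hw hgm) (Ideal.mul_mem_mul hgn hv)
    · push_cast
      rw [hgn', hgm', pow_add]
      field_simp
  | mul x y _ _ hx hy =>
    obtain ⟨n, w, hw, rfl⟩ := hx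
    obtain ⟨m, v, hv, rfl⟩ := hy
    refine ⟨n + m, w * v, ?_, ?_⟩
    · rw [pow_add]
      exact Ideal.mul_mem_mul hw hv
    · push_cast
      rw [pow_add]
      field_simp

/-- The fractions of degree `n` of elements of the `n`-th power are in the chart. -/
theorem pow_div_mem_chart {h : E → K} (hh : TupIn B J h) {n : ℕ} {w : B}
    (hw : w ∈ (∏ i, J i) ^ n) : (w : K) / (∏ i, h i) ^ n ∈ chartF B J h := by
  have hB : B ≤ chartF B J h := fun z hz => Algebra.subset_adjoin (Or.inl hz)
  have hJ : ∀ i, ∀ w : B, w ∈ J i → (w : K) / h i ∈ chartF B J h := fun i w hw =>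
    Algebra.subset_adjoin (Or.inr ⟨i, w, hw, rfl⟩)
  have h1 := (Ideal.pow_right_mono (TI_prod hB h Finset.univ hJ) n).trans (TI_pow hB _ n)
  exact h1 hw

section Center

variable {R₀ : Subalgebra k K} {ev₀ : R₀ →ₐ[k] k}

/-- The elements of the `n`-th power of the product which vanish at the point. -/
def CI (J : E → Ideal B) (hB : B ≤ R₀) (hev : IsEv R₀ ev₀) (h₀ : E → K) (n : ℕ) : Ideal B where
  carrier := {w | w ∈ (∏ i, J i) ^ n ∧ (w : K) / (∏ i, h₀ i) ^ n ∈ mx R₀}
  add_mem' := by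
    rintro a b ⟨ha, ha'⟩ ⟨hb, hb'⟩
    refine ⟨Ideal.add_mem _ ha hb, ?_⟩
    push_cast
    rw [add_div]
    exact mx_add hev ha' hb'
  zero_mem' := ⟨Ideal.zero_mem _, by
    show ((0 : B) : K) / _ ∈ mx R₀
    rw [ZeroMemClass.coe_zero, zero_div]; exact mx_zero R₀⟩
  smul_mem' := by
    rintro c w ⟨hw, hw'⟩
    refine ⟨Ideal.mul_mem_left _ _ hw, ?_⟩
    show ((c * w : B) : K) / _ ∈ mx R₀
    push_cast
    rw [mul_comm, mul_div_right_comm]
    exact mx_mul hev hw' (hB c.2)

theorem mem_CI {hB : B ≤ R₀} {hev : IsEv R₀ ev₀} {h₀ : E → K} {n : ℕ} {w : B} :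
    w ∈ CI J hB hev h₀ n ↔ w ∈ (∏ i, J i) ^ n ∧ (w : K) / (∏ i, h₀ i) ^ n ∈ mx R₀ := Iff.rfl

/-- The ideal of the Rees algebra. -/
def CQ (J : E → Ideal B) (hB : B ≤ R₀) (hev : IsEv R₀ ev₀) (h₀ : E → K)
    (hh₀ : GenAt B J R₀ h₀) : Ideal (reesAlgebra (∏ i, J i)) where
  carrier := {f | ∀ n, ((f : Polynomial B).coeff n : K) / (∏ i, h₀ i) ^ n ∈ mx R₀}
  add_mem' := by
    intro a b ha hb n
    have := mx_add hev (ha n) (hb n)
    rw [← add_div] at this
    simpa using this
  zero_mem' := by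
    intro n
    simp only [ZeroMemClass.coe_zero, Polynomial.coeff_zero, zero_div]
    exact mx_zero R₀
  smul_mem' := by
    intro c f hf n
    have hg := prod_ne hh₀.1
    have h1 : (((c • f : reesAlgebra (∏ i, J i)) : Polynomial B).coeff n : K) =
        ∑ x ∈ Finset.HasAntidiagonal.antidiagonal n, (((c : Polynomial B).coeff x.1 : K) *
          ((f : Polynomial B).coeff x.2 : K)) := by
      rw [smul_eq_mul, Subalgebra.coe_mul, Polynomial.coeff_mul]
      push_cast
      rfl
    rw [h1, Finset.sum_div]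
    have h2 : ∀ s : Finset (ℕ × ℕ), s ⊆ Finset.HasAntidiagonal.antidiagonal n →
        ∑ x ∈ s, (((c : Polynomial B).coeff x.1 : K) *
          ((f : Polynomial B).coeff x.2 : K)) / (∏ i, h₀ i) ^ n ∈ mx R₀ := by
      classical
      intro s
      induction s using Finset.induction_on with
      | empty => intro _; rw [Finset.sum_empty]; exact mx_zero R₀
      | insert x s hx ih =>
        intro hs
        rw [Finset.sum_insert hx]
        refine mx_add hev ?_ (ih ((Finset.subset_insert _ _).trans hs))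
        have h3 : x ∈ Finset.HasAntidiagonal.antidiagonal n := hs (Finset.mem_insert_self _ _)
        rw [Finset.HasAntidiagonal.mem_antidiagonal] at h3
        have h4 : (((c : Polynomial B).coeff x.1 : K) *
          ((f : Polynomial B).coeff x.2 : K)) / (∏ i, h₀ i) ^ n =
          ((f : Polynomial B).coeff x.2 : K) / (∏ i, h₀ i) ^ x.2 *
            (((c : Polynomial B).coeff x.1 : K) / (∏ i, h₀ i) ^ x.1) := by
          rw [← h3, pow_add]
          field_simp
        rw [h4]
        exact mx_mul hev (hf x.2) (pow_mem hB hh₀ ((mem_reesAlgebra_iff _ _).1 c.2 x.1))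
    exact h2 _ (Finset.Subset.refl _)

end Center

end Pool.Agent.MP_b525bf_ag_TS.H86
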