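import Pool.Agent.Lib.MP_b525bf_ag_TS.Loc2
import Pool.Agent.Lib.MP_b525bf_ag_TS.PtsA
import Pool.Agent.Lib.MP_b525bf_ag_TS.Pts_aux86b

/-!
# B1: points of models, blowing up of a point
-/

set_option autoImplicit false
set_option linter.unusedSectionVars false
set_option linter.unusedVariables false

namespace Pool.Agent.MP_b525bf_ag_TS

variable {k K : Type} [Field k] [Field K] [Algebra k K] {B : Subalgebra k K} {E : Type}
  [Fintype E] {J : E → Ideal B} {R : Subalgebra k K}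

/-- `I'` is the ideal of global sections of the `c`-th power of the ample line bundle which vanish
at the point `R₀`; it generates the maximal ideal of `R₀` and the unit ideal at the other points. -/
structure IsCenter (B : Subalgebra k K) (J : E → Ideal B) (R₀ : Subalgebra k K) (c : ℕ)
    (I' : Ideal B) : Prop where
  ne : I' ≠ ⊥
  mem : ∀ R, Pt B J R → ∀ h, GenAt B J R h → ∀ w ∈ I', (w : K) / (∏ i, h i) ^ c ∈ R
  other : ∀ R, Pt B J R → R ≠ R₀ → ∀ h, GenAt B J R h → ∃ w ∈ I',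
    UnitIn R ((w : K) / (∏ i, h i) ^ c)
  max : ∀ h, GenAt B J R₀ h → ∀ w ∈ I', (w : K) / (∏ i, h i) ^ c ∈ mx R₀
  gen : ∀ h, GenAt B J R₀ h → ∀ z ∈ mx R₀, z ∈ Submodule.span R₀
    {v : K | ∃ w ∈ I', v = (w : K) / (∏ i, h i) ^ c}

/-- The list of ideals with one more ideal. -/
def optJ (J : E → Ideal B) (I' : Ideal B) : Option E → Ideal B
  | none => I'
  | some i => J i

namespace H86

theorem Pt.exists_ev (hR : Pt B J R) : ∃ ev : R →ₐ[k] k, IsEv R ev := by
  obtain ⟨h, _, χ, rfl⟩ := hR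
  obtain ⟨ev, hev, _⟩ := H86.exists_ev (chartF B J h) χ
  exact ⟨ev, hev⟩

theorem unit_prod {ev : R →ₐ[k] k} (hev : IsEv R ev) (s : Finset E) (u : E → K)
    (hu : ∀ i ∈ s, u i ∈ R) (h : UnitIn R (∏ i ∈ s, u i)) : ∀ i ∈ s, UnitIn R (u i) := by
  classical
  induction s using Finset.induction_on with
  | empty => intro i hi; exact absurd hi (Finset.notMem_empty _)
  | insert j s hj ih =>
    rw [Finset.prod_insert hj] at h
    have h1 : ∏ i ∈ s, u i ∈ R := R.prod_mem fun i hi => hu i (Finset.mem_insert_of_mem hi)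
    obtain ⟨h2, h3⟩ := unitIn_of_mul hev (hu j (Finset.mem_insert_self _ _)) h1 h
    intro i hi
    rcases Finset.mem_insert.1 hi with rfl | hi
    · exact h2
    · exact ih (fun i hi => hu i (Finset.mem_insert_of_mem hi)) h3 i hi

theorem exists_center' (hB : B.FG) {R₀ : Subalgebra k K} (hR₀ : Pt B J R₀)
    {x y : K} {Dx Dy : Derivation k K K} (hreg : Reg R₀ x y Dx Dy) :
    ∃ (c : ℕ) (I' : Ideal B), IsCenter B J R₀ c I' := by
  classical
  haveI : Algebra.FiniteType k B := (Subalgebra.fg_iff_finiteType B).1 hB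
  haveI : IsNoetherianRing B := Algebra.FiniteType.isNoetherianRing k B
  obtain ⟨ev₀, hev₀⟩ := Pt.exists_ev hR₀
  have hBR := Pt.le_R hR₀
  obtain ⟨h₀, hT₀, χ₀, hRχ⟩ := id hR₀
  have hh₀ : GenAt B J R₀ h₀ := by
    refine ⟨hT₀, fun i w hw => ?_⟩
    rw [hRχ]
    exact le_ptLoc _ _ (Algebra.subset_adjoin (Or.inr ⟨i, w, hw, rfl⟩))
  have hg₀ := prod_ne hT₀
  -- generators of the ideal of the Rees algebra
  obtain ⟨S, hS⟩ := (isNoetherian_def.1 (inferInstance : IsNoetherianRing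
    (reesAlgebra (∏ i, J i)))) (CQ J hBR hev₀ h₀ hh₀)
  set c₁ : ℕ := S.sup fun f => (f : Polynomial B).natDegree with hc₁
  have claimA : ∀ R, Pt B J R → ∀ h, GenAt B J R h → ∀ n, ∀ z ∈ CI J hBR hev₀ h₀ n,
      UnitIn R ((z : K) / (∏ i, h i) ^ n) → ∃ j ≤ c₁, ∃ w ∈ CI J hBR hev₀ h₀ j,
        UnitIn R ((w : K) / (∏ i, h i) ^ j) := by
    intro R hR h hh n z hz hu
    obtain ⟨ev, hev⟩ := Pt.exists_ev hR
    have hBR' := Pt.le_R hR
    by_contra hcon
    push Not at hcon
    have h1 : ∀ f ∈ S, f ∈ CQ J hBR' hev h hh := by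
      intro f hf j
      have hfQ : f ∈ CQ J hBR hev₀ h₀ hh₀ := by
        rw [← hS]; exact Ideal.subset_span hf
      by_cases hj : j ≤ c₁
      · have h2 := hcon j hj ((f : Polynomial B).coeff j)
          ⟨(mem_reesAlgebra_iff _ _).1 f.2 j, hfQ j⟩
        rcases unit_or_mx (pow_mem hBR' hh ((mem_reesAlgebra_iff _ _).1 f.2 j)) with h3 | h3
        · exact absurd h3 h2
        · exact h3
      · have h2 : (f : Polynomial B).coeff j = 0 := by
          apply Polynomial.coeff_eq_zero_of_natDegree_lt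
          exact lt_of_le_of_lt (Finset.le_sup (f := fun f : reesAlgebra (∏ i, J i) =>
            (f : Polynomial B).natDegree) hf) (not_le.1 hj)
        rw [h2, ZeroMemClass.coe_zero, zero_div]
        exact mx_zero R
    have h2 : CQ J hBR hev₀ h₀ hh₀ ≤ CQ J hBR' hev h hh := by
      rw [← hS]
      exact Ideal.span_le.2 fun f hf => h1 f hf
    have hzm : (Polynomial.monomial n z) ∈ reesAlgebra (∏ i, J i) := by
      rw [mem_reesAlgebra_iff]
      intro i
      rw [Polynomial.coeff_monomial]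
      split_ifs with h3
      · rw [← h3]; exact hz.1
      · exact Ideal.zero_mem _
    have h3 : (⟨Polynomial.monomial n z, hzm⟩ : reesAlgebra (∏ i, J i)) ∈
        CQ J hBR hev₀ h₀ hh₀ := by
      intro i
      show ((Polynomial.coeff (Polynomial.monomial n z) i : B) : K) / _ ∈ _
      rw [Polynomial.coeff_monomial]
      split_ifs with h3
      · rw [← h3]; exact hz.2
      · rw [ZeroMemClass.coe_zero, zero_div]
        exact mx_zero R₀
    have h4 := h2 h3 n
    have h5 : ((Polynomial.coeff (Polynomial.monomial n z) n : B) : K) / (∏ i, h i) ^ n ∈ mx R :=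
      h4
    rw [Polynomial.coeff_monomial, if_pos rfl] at h5
    exact not_mx_of_unit hev hu h5
  have claimB : ∀ R, Pt B J R → R ≠ R₀ → ∀ h, GenAt B J R h → ∃ n, ∃ z ∈ CI J hBR hev₀ h₀ n,
      UnitIn R ((z : K) / (∏ i, h i) ^ n) := by
    intro R hR hne h hh
    obtain ⟨ev, hev⟩ := Pt.exists_ev hR
    have hBR' := Pt.le_R hR
    have hg := prod_ne hh.1
    by_contra hcon
    push Not at hcon
    have hcon' : ∀ n, ∀ z ∈ CI J hBR hev₀ h₀ n, (z : K) / (∏ i, h i) ^ n ∈ mx R := by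
      intro n z hz
      rcases unit_or_mx (pow_mem hBR' hh hz.1) with h3 | h3
      · exact absurd h3 (hcon n z hz)
      · exact h3
    obtain ⟨g1, hg1, hg1'⟩ := exists_pow_mem hh.1 1
    have h1 : UnitIn R₀ ((g1 : K) / (∏ i, h₀ i) ^ 1) := by
      rcases unit_or_mx (pow_mem hBR hh₀ hg1) with h3 | h3
      · exact h3
      · exfalso
        have h4 := hcon' 1 g1 ⟨hg1, h3⟩
        rw [hg1', div_self (pow_ne_zero _ hg)] at h4
        refine not_mx_of_unit hev ⟨one_ne_zero, R.one_mem, ?_⟩ h4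
        rw [inv_one]; exact R.one_mem
    rw [hg1', pow_one, pow_one, ← Finset.prod_div_distrib] at h1
    have h2 : ∀ i, UnitIn R₀ (h i / h₀ i) := by
      intro i
      refine unit_prod hev₀ Finset.univ (fun i => h i / h₀ i) (fun i _ => ?_) h1 i
        (Finset.mem_univ i)
      obtain ⟨_, w, hw, hw'⟩ := hh.1 i
      show h i / h₀ i ∈ R₀
      rw [← hw']
      exact hh₀.2 i w hw
    have h3 : GenAt B J R₀ h := by
      refine ⟨hh.1, fun i w hw => ?_⟩
      have h4 : (w : K) / h i = (w : K) / h₀ i * (h i / h₀ i)⁻¹ := by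
        have h5 := (hh.1 i).1
        have h6 := (hT₀ i).1
        field_simp
      rw [h4]
      exact R₀.mul_mem (hh₀.2 i w hw) (h2 i).2.2
    obtain ⟨χ, hχ⟩ := hR.exists_char hh
    obtain ⟨χ', hχ'⟩ := hR₀.exists_char h3
    apply hne
    rw [hχ, hχ']
    apply ptLoc_eq_of
    intro z hz hzu
    rw [← hχ] at hzu
    rw [← hχ']
    rcases unit_or_mx (chart_le hBR h3 hz) with h5 | h5
    · exact h5
    · exfalso
      obtain ⟨n, w, hw, rfl⟩ := chart_form hh.1 hz
      obtain ⟨gn, hgn, hgn'⟩ := exists_pow_mem hh.1 n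
      refine not_mx_of_unit hev hzu (hcon' n w ⟨hw, ?_⟩)
      have h6 : (w : K) / (∏ i, h₀ i) ^ n = (w : K) / (∏ i, h i) ^ n *
          ((gn : K) / (∏ i, h₀ i) ^ n) := by
        rw [hgn']; field_simp
      rw [h6]
      exact mx_mul hev₀ h5 (pow_mem hBR hh₀ hgn)
  have claimC : ∀ z ∈ mx R₀, ∃ n, ∃ w ∈ CI J hBR hev₀ h₀ n, ∃ b ∈ R₀,
      z = (w : K) / (∏ i, h₀ i) ^ n * b := by
    intro z hz
    have hz1 : z ∈ ptLoc (chartF B J h₀) χ₀ := by rw [← hRχ]; exact hz.1
    obtain ⟨a, ha, b, hb, hbu, hzb⟩ := ptLoc_frac hz1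
    rw [← hRχ] at hbu
    have h1 : a ∈ mx R₀ := by
      rw [← hzb]
      exact mx_mul hev₀ hz hbu.2.1
    obtain ⟨n, w, hw, rfl⟩ := chart_form hT₀ ha
    refine ⟨n, w, ⟨hw, h1⟩, b⁻¹, hbu.2.2, ?_⟩
    rw [← hzb]
    have := hbu.1
    field_simp
  have hmx : ∀ z ∈ mx R₀, ∃ u ∈ R₀, ∃ v ∈ R₀, z = x * u + y * v := by
    intro z hz
    by_contra hcon
    push Not at hcon
    rcases unit_or_mx (R := R₀) hz.1 with h1 | h1
    · exact not_mx_of_unit hev₀ h1 hz
    · have h2 := hreg.inv z hz.1 hcon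
      rcases hz.2 with h3 | h3
      · exact hcon 0 R₀.zero_mem 0 R₀.zero_mem (by rw [h3]; ring)
      · exact h3 h2
  have hxm : x ∈ mx R₀ := by
    refine ⟨hreg.hx, ?_⟩
    by_contra hcon
    push Not at hcon
    exact hreg.one x⁻¹ hcon.2 0 R₀.zero_mem (by rw [mul_inv_cancel₀ hcon.1]; ring)
  have hym : y ∈ mx R₀ := by
    refine ⟨hreg.hy, ?_⟩
    by_contra hcon
    push Not at hcon
    exact hreg.one 0 R₀.zero_mem y⁻¹ hcon.2 (by rw [mul_inv_cancel₀ hcon.1]; ring)
  obtain ⟨nx, wx, hwx, bx, hbx, hxe⟩ := claimC x hxm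
  obtain ⟨ny, wy, hwy, by', hby, hye⟩ := claimC y hym
  set c : ℕ := max c₁ (max nx ny) with hc
  have hc1 : c₁ ≤ c := le_max_left _ _
  have hcx : nx ≤ c := (le_max_left _ _).trans (le_max_right _ _)
  have hcy : ny ≤ c := (le_max_right _ _).trans (le_max_right _ _)
  have hgen : ∀ h, GenAt B J R₀ h → ∀ z ∈ mx R₀, z ∈ Submodule.span R₀
      {v : K | ∃ w ∈ CI J hBR hev₀ h₀ c, v = (w : K) / (∏ i, h i) ^ c} := by
    intro h hh
    have hg := prod_ne hh.1
    have key : ∀ (n : ℕ) (w : B) (b : K), n ≤ c → w ∈ CI J hBR hev₀ h₀ n → b ∈ R₀ →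
        (w : K) / (∏ i, h₀ i) ^ n * b ∈ Submodule.span R₀
          {v : K | ∃ w ∈ CI J hBR hev₀ h₀ c, v = (w : K) / (∏ i, h i) ^ c} := by
      intro n w b hn hw hb
      obtain ⟨u, hu, hu'⟩ := exists_pow_mem hT₀ (c - n)
      obtain ⟨g, hgm, hg'⟩ := exists_pow_mem hh.1 c
      have h1 : w * u ∈ CI J hBR hev₀ h₀ c := by
        refine ⟨?_, ?_⟩
        · have h2 : c = n + (c - n) := by omega
          rw [h2, pow_add]
          have h3 : n + (c - n) - n = c - n := by omega
          exact Ideal.mul_mem_mul hw.1 hu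
        · push_cast
          rw [hu']
          have h2 : (∏ i, h₀ i) ^ c = (∏ i, h₀ i) ^ n * (∏ i, h₀ i) ^ (c - n) := by
            rw [← pow_add]; congr 1; omega
          rw [h2, mul_div_mul_right _ _ (pow_ne_zero _ hg₀)]
          exact hw.2
      have h2 : (w : K) / (∏ i, h₀ i) ^ n * b =
          ((g : K) / (∏ i, h₀ i) ^ c * b) * (((w * u : B) : K) / (∏ i, h i) ^ c) := by
        push_cast
        rw [hu', hg']
        have h2 : (∏ i, h₀ i) ^ c = (∏ i, h₀ i) ^ n * (∏ i, h₀ i) ^ (c - n) := by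
          rw [← pow_add]; congr 1; omega
        rw [h2]
        field_simp
      rw [h2]
      have h3 : (g : K) / (∏ i, h₀ i) ^ c * b ∈ R₀ :=
        R₀.mul_mem (pow_mem hBR hh₀ hgm) hb
      exact Submodule.smul_mem _ (⟨_, h3⟩ : R₀) (Submodule.subset_span ⟨w * u, h1, rfl⟩)
    intro z hz
    obtain ⟨u, hu, v, hv, rfl⟩ := hmx z hz
    refine Submodule.add_mem _ ?_ ?_
    · have h1 := key nx wx bx hcx hwx hbx
      rw [← hxe] at h1
      have h2 := Submodule.smul_mem _ (⟨u, hu⟩ : R₀) h1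
      have h3 : (⟨u, hu⟩ : R₀) • x = x * u := by rw [mul_comm]; rfl
      rw [h3] at h2
      exact h2
    · have h1 := key ny wy by' hcy hwy hby
      rw [← hye] at h1
      have h2 := Submodule.smul_mem _ (⟨v, hv⟩ : R₀) h1
      have h3 : (⟨v, hv⟩ : R₀) • y = y * v := by rw [mul_comm]; rfl
      rw [h3] at h2
      exact h2
  refine ⟨c, CI J hBR hev₀ h₀ c, ?_, ?_, ?_, ?_, hgen⟩
  · intro h0
    have h1 := hgen h₀ hh₀ x hxm
    have h2 : {v : K | ∃ w ∈ CI J hBR hev₀ h₀ c, v = (w : K) / (∏ i, h₀ i) ^ c} ⊆ {0} := by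
      rintro v ⟨w, hw, rfl⟩
      rw [h0, Ideal.mem_bot] at hw
      rw [hw, ZeroMemClass.coe_zero, zero_div]
      exact Set.mem_singleton 0
    have h3 := Submodule.span_mono (R := R₀) h2 h1
    rw [Submodule.span_singleton_eq_bot.2 rfl, Submodule.mem_bot] at h3
    have h4 := hreg.xx
    rw [h3, map_zero] at h4
    exact zero_ne_one h4
  · intro R hR h hh w hw
    exact pow_mem (Pt.le_R hR) hh hw.1
  · intro R hR hne h hh
    have hg := prod_ne hh.1
    obtain ⟨n, z, hz, hzu⟩ := claimB R hR hne h hh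
    obtain ⟨j, hj, w, hw, hwu⟩ := claimA R hR h hh n z hz hzu
    have hjc : j ≤ c := hj.trans hc1
    obtain ⟨u, hu, hu'⟩ := exists_pow_mem hh.1 (c - j)
    refine ⟨w * u, ⟨?_, ?_⟩, ?_⟩
    · have h2 : c = j + (c - j) := by omega
      rw [h2, pow_add]
      have h3 : j + (c - j) - j = c - j := by omega
      exact Ideal.mul_mem_mul hw.1 hu
    · push_cast
      have h2 : (w : K) * (u : K) / (∏ i, h₀ i) ^ c = (w : K) / (∏ i, h₀ i) ^ j *
          ((u : K) / (∏ i, h₀ i) ^ (c - j)) := by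
        have h3 : (∏ i, h₀ i) ^ c = (∏ i, h₀ i) ^ j * (∏ i, h₀ i) ^ (c - j) := by
          rw [← pow_add]; congr 1; omega
        rw [h3, mul_div_mul_comm]
      rw [h2]
      exact mx_mul hev₀ hw.2 (pow_mem hBR hh₀ hu)
    · push_cast
      have h3 : (∏ i, h i) ^ c = (∏ i, h i) ^ j * (∏ i, h i) ^ (c - j) := by
        rw [← pow_add]; congr 1; omega
      rw [h3, hu', mul_div_mul_right _ _ (pow_ne_zero _ hg)]
      exact hwu
  · intro h hh w hw
    have hg := prod_ne hh.1
    obtain ⟨u, hu, hu'⟩ := exists_pow_mem hT₀ c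
    have h2 : (w : K) / (∏ i, h i) ^ c = (w : K) / (∏ i, h₀ i) ^ c *
        ((u : K) / (∏ i, h i) ^ c) := by
      rw [hu']; field_simp
    rw [h2]
    exact mx_mul hev₀ hw.2 (pow_mem hBR hh hu)

theorem UnitIn.mono {R R' : Subalgebra k K} (h : R ≤ R') {z : K} (hz : UnitIn R z) :
    UnitIn R' z := ⟨hz.1, h hz.2.1, h hz.2.2⟩

theorem unit_of_unit {ev : R →ₐ[k] k} (hev : IsEv R ev) {C : Subalgebra k K} (h : C ≤ R) {z : K}
    (hz : z ∈ ptLoc C (res ev h)) (hu : UnitIn R z) : UnitIn (ptLoc C (res ev h)) z := by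
  refine ⟨hu.1, hz, ?_⟩
  obtain ⟨a, b, hb, hzb⟩ := hz
  refine ⟨b, a, ?_, ?_⟩
  · obtain ⟨h1, h2⟩ := (unitIn_iff hev).1 hu
    show ev ⟨a, h a.2⟩ ≠ 0
    have h3 : (⟨(a : K), h a.2⟩ : R) = ⟨z, h1⟩ * ⟨b, h b.2⟩ := Subtype.ext hzb.symm
    rw [h3, map_mul]
    exact mul_ne_zero h2 hb
  · rw [← hzb]
    have := hu.1
    field_simp

/-- A chart of the blowing up of the closed point. -/
theorem qt_case {R₀ R' : Subalgebra k K} {ev' : R' →ₐ[k] k} (hev' : IsEv R' ev')
    (hle : R₀ ≤ R') {C' : Subalgebra k K}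
    (hC' : ∀ z ∈ R', ∃ a ∈ C', ∃ b ∈ C', UnitIn R' b ∧ z * b = a) {x y u : K}
    (hx : x ∈ mx R') (hu : ∃ a ∈ R₀, ∃ b ∈ R₀, u = x * a + y * b)
    (hxu : UnitIn R' (x / u)) (hyu : y / u ∈ R')
    (hC'' : ∀ S : Subalgebra k K, R₀ ≤ S → (∀ a ∈ R₀, ∀ b ∈ R₀, (x * a + y * b) / u ∈ S) →
      C' ≤ S) : ∃ h : y / x ∈ R', QT R₀ R' x y (ev' ⟨y / x, h⟩) := by
  have hx0 : x ≠ 0 := by
    rintro rfl
    apply hxu.1
    rw [zero_div]
  have hu0 : u ≠ 0 := by
    rintro rfl
    apply hxu.1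
    rw [div_zero]
  have hyx : y / x ∈ R' := by
    have h1 : y / x = y / u * (x / u)⁻¹ := by field_simp
    rw [h1]
    exact R'.mul_mem hyu hxu.2.2
  refine ⟨hyx, ?_⟩
  have hqt : qt R₀ x y ≤ R' := by
    unfold qt
    rw [Algebra.adjoin_le_iff]
    rintro z (hz | hz)
    · exact hle hz
    · rw [Set.mem_singleton_iff] at hz
      rw [hz]
      exact hyx
  have hR₀q : R₀ ≤ qt R₀ x y := fun z hz => Algebra.subset_adjoin (Or.inl hz)
  have hyq : y / x ∈ qt R₀ x y := Algebra.subset_adjoin (Or.inr rfl)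
  refine ⟨res ev' hqt, ?_, ?_, ?_⟩
  · intro h
    obtain ⟨h1, h2⟩ := (mem_mx_iff hev').1 hx
    exact h2
  · intro h
    rfl
  · apply le_antisymm
    · have hqS : qt R₀ x y ≤ ptLoc (qt R₀ x y) (res ev' hqt) := le_ptLoc _ _
      have hxuS : x / u ∈ ptLoc (qt R₀ x y) (res ev' hqt) := by
        obtain ⟨a, ha, b, hb, hab⟩ := hu
        have h1 : u / x ∈ qt R₀ x y := by
          have h2 : u / x = a + y / x * b := by
            rw [hab]; field_simp
          rw [h2]
          exact (qt R₀ x y).add_mem (hR₀q ha) ((qt R₀ x y).mul_mem hyq (hR₀q hb))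
        have h2 : UnitIn R' (u / x) := by
          have h3 : u / x = (x / u)⁻¹ := by rw [inv_div]
          rw [h3]
          exact hxu.inv
        have h3 := unit_of_unit hev' hqt (hqS h1) h2
        have h4 := h3.2.2
        rw [inv_div] at h4
        exact h4
      have hCS : C' ≤ ptLoc (qt R₀ x y) (res ev' hqt) := by
        apply hC'' _ (hR₀q.trans hqS)
        intro a ha b hb
        have h1 : (x * a + y * b) / u = (a + y / x * b) * (x / u) := by field_simp
        rw [h1]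
        exact Subalgebra.mul_mem _ (hqS ((qt R₀ x y).add_mem (hR₀q ha)
          ((qt R₀ x y).mul_mem hyq (hR₀q hb)))) hxuS
      intro z hz
      obtain ⟨a, ha, b, hb, hbu, hzb⟩ := hC' z hz
      have h1 := unit_of_unit hev' hqt (hCS hb) hbu
      have h2 : z = a * b⁻¹ := by
        rw [← hzb]
        have := hbu.1
        field_simp
      rw [h2]
      exact Subalgebra.mul_mem _ (hCS ha) h1.2.2
    · exact ptLoc_le hev' hqt

theorem blow' {R₀ : Subalgebra k K} {c : ℕ} {I' : Ideal B}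
    (hc : IsCenter B J R₀ c I') {x y : K} {Dx Dy : Derivation k K K}
    (hreg : Reg R₀ x y Dx Dy) (hR₀ : Pt B J R₀) {R' : Subalgebra k K}
    (hR' : Pt B (optJ J I') R') :
    (Pt B J R' ∧ R' ≠ R₀ ∧ ∀ h', GenAt B (optJ J I') R' h' →
      GenAt B J R' (fun i => h' (some i)) ∧
        UnitIn R' (h' none / (∏ i, h' (some i)) ^ c)) ∨
    (∃ c' : k, QT R₀ R' x y c' ∧ ∀ h', GenAt B (optJ J I') R' h' →
      UnitIn R' (h' none / (∏ i, h' (some i)) ^ c / x) ∧
      ∀ h, GenAt B J R₀ h → ∀ i, UnitIn R' (h' (some i) / h i)) ∨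
    (QT R₀ R' y x 0 ∧ ∀ h', GenAt B (optJ J I') R' h' →
      UnitIn R' (h' none / (∏ i, h' (some i)) ^ c / y) ∧
      ∀ h, GenAt B J R₀ h → ∀ i, UnitIn R' (h' (some i) / h i)) := by
  classical
  obtain ⟨h₁, hT₁, χ', hR'χ⟩ := id hR'
  obtain ⟨ev', hev'⟩ := Pt.exists_ev hR'
  have hfrac : ∀ z ∈ R', ∃ a ∈ chartF B (optJ J I') h₁, ∃ b ∈ chartF B (optJ J I') h₁,
      UnitIn R' b ∧ z * b = a := by
    intro z hz
    have hz' : z ∈ ptLoc (chartF B (optJ J I') h₁) χ' := by rw [← hR'χ]; exact hz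
    have h1 := ptLoc_frac hz'
    rw [← hR'χ] at h1
    exact h1
  have hC'R : chartF B (optJ J I') h₁ ≤ R' := by
    rw [hR'χ]
    exact le_ptLoc _ _
  have hh₁ : GenAt B (optJ J I') R' h₁ :=
    ⟨hT₁, fun i w hw => hC'R (Algebra.subset_adjoin (Or.inr ⟨i, w, hw, rfl⟩))⟩
  have hTh : TupIn B J (fun i => h₁ (some i)) := fun i => hT₁ (some i)
  have hCC' : chartF B J (fun i => h₁ (some i)) ≤ chartF B (optJ J I') h₁ := by
    apply Algebra.adjoin_mono
    rintro z (hz | ⟨i, w, hw, rfl⟩)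
    · exact Or.inl hz
    · exact Or.inr ⟨some i, w, hw, rfl⟩
  have hCR' : chartF B J (fun i => h₁ (some i)) ≤ R' := hCC'.trans hC'R
  obtain ⟨R'', hR''⟩ : ∃ R'', R'' = ptLoc (chartF B J (fun i => h₁ (some i))) (res ev' hCR') :=
    ⟨_, rfl⟩
  have hPt : Pt B J R'' := ⟨_, hTh, _, hR''⟩
  have hCR'' : chartF B J (fun i => h₁ (some i)) ≤ R'' := by
    rw [hR'']; exact le_ptLoc _ _
  have hGen : GenAt B J R'' (fun i => h₁ (some i)) :=
    ⟨hTh, fun i w hw => hCR'' (Algebra.subset_adjoin (Or.inr ⟨i, w, hw, rfl⟩))⟩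
  have hR''R' : R'' ≤ R' := by
    rw [hR'']; exact ptLoc_le hev' hCR'
  have hunit : ∀ z ∈ R'', UnitIn R' z → UnitIn R'' z := by
    intro z hz hu
    rw [hR''] at hz ⊢
    exact unit_of_unit hev' hCR' hz hu
  obtain ⟨hne0, w0, hw0, hw0'⟩ := hT₁ none
  have hw0I : w0 ∈ I' := hw0
  have hg := prod_ne hTh
  obtain ⟨u, hu⟩ : ∃ u, u = h₁ none / (∏ i, h₁ (some i)) ^ c := ⟨_, rfl⟩
  have hu0 : u ≠ 0 := by
    rw [hu]; exact div_ne_zero hne0 (pow_ne_zero _ hg)
  have huR'' : u ∈ R'' := by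
    rw [hu, ← hw0']
    exact hc.mem R'' hPt _ hGen w0 hw0I
  have hIu : ∀ v ∈ I', (v : K) / (∏ i, h₁ (some i)) ^ c / u ∈ chartF B (optJ J I') h₁ := by
    intro v hv
    have h1 : (v : K) / (∏ i, h₁ (some i)) ^ c / u = v / h₁ none := by
      rw [hu]; field_simp
    rw [h1]
    exact Algebra.subset_adjoin (Or.inr ⟨none, v, hv, rfl⟩)
  by_cases hRR : R'' = R₀
  · right
    have hGen₀ : GenAt B J R₀ (fun i => h₁ (some i)) := by rw [← hRR]; exact hGen
    have hR₀R' : R₀ ≤ R' := by rw [← hRR]; exact hR''R'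
    obtain ⟨ev₀, hev₀⟩ := Pt.exists_ev hR₀
    have humx : u ∈ mx R₀ := by
      rw [hu, ← hw0']
      exact hc.max _ hGen₀ w0 hw0I
    have hmxu : ∀ S : Subalgebra k K, R₀ ≤ S → (∀ v ∈ I',
        (v : K) / (∏ i, h₁ (some i)) ^ c / u ∈ S) → ∀ z ∈ mx R₀, z / u ∈ S := by
      intro S hS hv z hz
      have h1 := hc.gen _ hGen₀ z hz
      clear hz
      induction h1 using Submodule.span_induction with
      | mem x hx =>
        obtain ⟨w, hw, rfl⟩ := hx
        exact hv w hw
      | zero => rw [zero_div]; exact S.zero_mem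
      | add x y _ _ hx hy => rw [add_div]; exact S.add_mem hx hy
      | smul a x _ hx =>
        have h2 : (a • x : K) = (a : K) * x := rfl
        rw [h2, mul_div_assoc]
        exact S.mul_mem (hS a.2) hx
    have hmxu' : ∀ z ∈ mx R₀, z / u ∈ R' :=
      hmxu R' hR₀R' fun v hv => hC'R (hIu v hv)
    have hdec : ∀ z ∈ mx R₀, ∃ a ∈ R₀, ∃ b ∈ R₀, z = x * a + y * b := by
      intro z hz
      by_contra hcon
      push Not at hcon
      rcases hz.2 with h3 | h3
      · exact hcon 0 R₀.zero_mem 0 R₀.zero_mem (by rw [h3]; ring)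
      · exact h3 (hreg.inv z hz.1 hcon)
    have hxm : x ∈ mx R₀ := by
      refine ⟨hreg.hx, ?_⟩
      by_contra hcon
      push Not at hcon
      exact hreg.one x⁻¹ hcon.2 0 R₀.zero_mem (by rw [mul_inv_cancel₀ hcon.1]; ring)
    have hym : y ∈ mx R₀ := by
      refine ⟨hreg.hy, ?_⟩
      by_contra hcon
      push Not at hcon
      exact hreg.one 0 R₀.zero_mem y⁻¹ hcon.2 (by rw [mul_inv_cancel₀ hcon.1]; ring)
    have hcomb : ∀ a ∈ R₀, ∀ b ∈ R₀, x * a + y * b ∈ mx R₀ := fun a ha b hb =>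
      mx_add hev₀ (mx_mul hev₀ hxm ha) (mx_mul hev₀ hym hb)
    -- the maximal ideal of `R₀` is contained in the one of `R'`
    have hmm : ∀ z ∈ mx R₀, z ∈ mx R' := by
      intro z hz
      rcases unit_or_mx (hR₀R' hz.1) with h1 | h1
      · exfalso
        have h2 := hunit z (by rw [hRR]; exact hz.1) h1
        rw [hRR] at h2
        exact not_mx_of_unit hev₀ h2 hz
      · exact h1
    -- comparison of the generators
    have hcmp : ∀ h', GenAt B (optJ J I') R' h' →
        (∀ z, UnitIn R' (u / z) → UnitIn R' (h' none / (∏ i, h' (some i)) ^ c / z)) ∧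
        ∀ h, GenAt B J R₀ h → ∀ i, UnitIn R' (h' (some i) / h i) := by
      intro h' hh'
      have h2 : ∀ j, UnitIn R' (h' j / h₁ j) := fun j => GenAt.unit hh₁ hh' j
      have h3 : ∀ j, h₁ j ≠ 0 := fun j => (hT₁ j).1
      have h3' : ∀ j, h' j ≠ 0 := fun j => (hh'.1 j).1
      refine ⟨fun z hz => ?_, fun h hh i => ?_⟩
      · have hz0 : z ≠ 0 := by
          rintro rfl
          apply hz.1
          rw [div_zero]
        have hPU : UnitIn R' (∏ i, (h' (some i) / h₁ (some i))) := by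
          have : ∀ s : Finset E, UnitIn R' (∏ i ∈ s, (h' (some i) / h₁ (some i))) := by
            intro s
            induction s using Finset.induction_on with
            | empty =>
              rw [Finset.prod_empty]
              exact ⟨one_ne_zero, R'.one_mem, by rw [inv_one]; exact R'.one_mem⟩
            | insert i s hi ih =>
              rw [Finset.prod_insert hi]
              exact (h2 (some i)).mul ih
          exact this _
        have hPU' : UnitIn R' ((∏ i, (h' (some i) / h₁ (some i))) ^ c) :=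
          ⟨pow_ne_zero _ hPU.1, R'.pow_mem hPU.2.1 c, by
            rw [← inv_pow]; exact R'.pow_mem hPU.2.2 c⟩
        have h4 : h' none / (∏ i, h' (some i)) ^ c / z =
            u / z * (h' none / h₁ none) * ((∏ i, (h' (some i) / h₁ (some i))) ^ c)⁻¹ := by
          rw [Finset.prod_div_distrib, hu, div_pow]
          have h5 := prod_ne (J := J) (B := B) (h := fun i => h' (some i))
            (fun i => hh'.1 (some i))
          have h6 := h3 none
          field_simp
        rw [h4]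
        exact (hz.mul (h2 none)).mul hPU'.inv
      · have h4 : UnitIn R₀ (h₁ (some i) / h i) := GenAt.unit hh hGen₀ i
        have h5 : h' (some i) / h i = h' (some i) / h₁ (some i) * (h₁ (some i) / h i) := by
          have h6 := h3 (some i)
          field_simp
        rw [h5]
        exact (h2 (some i)).mul (UnitIn.mono hR₀R' h4)
    have hC''x : ∀ S : Subalgebra k K, R₀ ≤ S →
        (∀ a ∈ R₀, ∀ b ∈ R₀, (x * a + y * b) / u ∈ S) → chartF B (optJ J I') h₁ ≤ S := by
      intro S hS hab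
      unfold chartF
      rw [Algebra.adjoin_le_iff]
      rintro z (hz | ⟨i, w, hw, rfl⟩)
      · exact hS (Pt.le_R hR₀ hz)
      · cases i with
        | some i => exact hS (hGen₀.2 i w hw)
        | none =>
          have h1 : (w : K) / h₁ none = (w : K) / (∏ i, h₁ (some i)) ^ c / u := by
            rw [hu]; field_simp
          have h2 := hc.max _ hGen₀ w hw
          obtain ⟨a, ha, b, hb, hab'⟩ := hdec _ h2
          rw [h1, hab']
          exact hab a ha b hb
    obtain ⟨a, ha, b, hb, hab⟩ := hdec u humx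
    by_cases hxu : UnitIn R' (x / u)
    · left
      obtain ⟨hyx, hQT⟩ := qt_case hev' hR₀R' hfrac (hmm x hxm) ⟨a, ha, b, hb, hab⟩ hxu
        (hmxu' y hym) hC''x
      refine ⟨_, hQT, fun h' hh' => ?_⟩
      obtain ⟨h4, h5⟩ := hcmp h' hh'
      refine ⟨h4 x ?_, h5⟩
      rw [← inv_div]
      exact hxu.inv
    · right
      have hyu : UnitIn R' (y / u) := by
        have h1 : UnitIn R' (a * (x / u) + b * (y / u)) := by
          have h2 : a * (x / u) + b * (y / u) = 1 := by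
            have h3 : a * (x / u) + b * (y / u) = (x * a + y * b) / u := by ring
            rw [h3, ← hab, div_self hu0]
          rw [h2]
          exact ⟨one_ne_zero, R'.one_mem, by rw [inv_one]; exact R'.one_mem⟩
        rcases unitIn_add hev' (R'.mul_mem (hR₀R' ha) (hmxu' x hxm))
          (R'.mul_mem (hR₀R' hb) (hmxu' y hym)) h1 with h2 | h2
        · exact absurd (unitIn_of_mul hev' (hR₀R' ha) (hmxu' x hxm) h2).2 hxu
        · exact (unitIn_of_mul hev' (hR₀R' hb) (hmxu' y hym) h2).2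
      obtain ⟨hxy, hQT⟩ := qt_case hev' hR₀R' hfrac (hmm y hym)
        ⟨b, hb, a, ha, by rw [hab]; ring⟩ hyu (hmxu' x hxm) (fun S hS hab' => hC''x S hS
          fun a ha b hb => by
            have := hab' b hb a ha
            rwa [add_comm] at this)
      have h0 : ev' ⟨x / y, hxy⟩ = 0 := by
        by_contra hne
        apply hxu
        have h1 : UnitIn R' (x / y) := (unitIn_iff hev').2 ⟨hxy, hne⟩
        have h2 : x / u = x / y * (y / u) := by
          have h3 : y ≠ 0 := by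
            rintro rfl
            apply h1.1
            rw [div_zero]
          field_simp
        rw [h2]
        exact h1.mul hyu
      rw [h0] at hQT
      refine ⟨hQT, fun h' hh' => ?_⟩
      obtain ⟨h4, h5⟩ := hcmp h' hh'
      refine ⟨h4 y ?_, h5⟩
      rw [← inv_div]
      exact hyu.inv
  · left
    have huu : ∀ h', GenAt B (optJ J I') R' h' → GenAt B J R'' (fun i => h' (some i)) →
        UnitIn R' (h' none / (∏ i, h' (some i)) ^ c) := by
      intro h' hh' hh''
      obtain ⟨w₁, hw₁, hw₁u⟩ := hc.other R'' hPt hRR _ hh''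
      obtain ⟨hne', w', hw', hw''⟩ := hh'.1 none
      have h1 : (w₁ : K) / (∏ i, h' (some i)) ^ c =
          h' none / (∏ i, h' (some i)) ^ c * (w₁ / h' none) := by
        have h5 := prod_ne (J := J) (B := B) (h := fun i => h' (some i))
            (fun i => hh'.1 (some i))
        field_simp
      have h2 := UnitIn.mono hR''R' hw₁u
      rw [h1] at h2
      refine (unitIn_of_mul hev' ?_ (hh'.2 none w₁ hw₁) h2).1
      rw [← hw'']
      exact hR''R' (hc.mem R'' hPt _ hh'' w' hw')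
    have huU : UnitIn R'' u := by
      apply hunit u huR''
      rw [hu]
      exact huu h₁ hh₁ hGen
    have hC'R'' : chartF B (optJ J I') h₁ ≤ R'' := by
      unfold chartF
      rw [Algebra.adjoin_le_iff]
      rintro z (hz | ⟨i, w, hw, rfl⟩)
      · exact Pt.le_R hPt hz
      · cases i with
        | some i => exact hGen.2 i w hw
        | none =>
          have h1 : (w : K) / h₁ none = (w : K) / (∏ i, h₁ (some i)) ^ c * u⁻¹ := by
            rw [hu]; field_simp
          rw [h1]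
          exact R''.mul_mem (hc.mem R'' hPt _ hGen w hw) huU.2.2
    have hEq : R' = R'' := by
      apply le_antisymm _ hR''R'
      intro z hz
      obtain ⟨a, ha, b, hb, hbu, hzb⟩ := hfrac z hz
      have h1 := hunit b (hC'R'' hb) hbu
      have h2 : z = a * b⁻¹ := by
        rw [← hzb]
        have := hbu.1
        field_simp
      rw [h2]
      exact R''.mul_mem (hC'R'' ha) h1.2.2
    refine ⟨by rw [hEq]; exact hPt, by rw [hEq]; exact hRR, fun h' hh' => ?_⟩
    have hGG : GenAt B J R' (fun i => h' (some i)) :=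
      ⟨fun i => hh'.1 (some i), fun i w hw => hh'.2 (some i) w hw⟩
    exact ⟨hGG, huu h' hh' (by rw [← hEq]; exact hGG)⟩

end H86

theorem exists_center (hB : B.FG) (hJ : ∀ i, J i ≠ ⊥) {R₀ : Subalgebra k K} (hR₀ : Pt B J R₀)
    {x y : K} {Dx Dy : Derivation k K K} (hreg : Reg R₀ x y Dx Dy) :
    ∃ (c : ℕ) (I' : Ideal B), IsCenter B J R₀ c I' :=
  H86.exists_center' hB hR₀ hreg

/-- The points of the blowing up of the point `R₀`. -/
theorem Pt.blow {R₀ : Subalgebra k K} {c : ℕ} {I' : Ideal B} (hJ : ∀ i, J i ≠ ⊥)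
    (hR₀ : Pt B J R₀) (hc : IsCenter B J R₀ c I') {x y : K} {Dx Dy : Derivation k K K}
    (hreg : Reg R₀ x y Dx Dy) {R' : Subalgebra k K} (hR' : Pt B (optJ J I') R') :
    (Pt B J R' ∧ R' ≠ R₀ ∧ ∀ h', GenAt B (optJ J I') R' h' →
      GenAt B J R' (fun i => h' (some i)) ∧
        UnitIn R' (h' none / (∏ i, h' (some i)) ^ c)) ∨
    (∃ c' : k, QT R₀ R' x y c' ∧ ∀ h', GenAt B (optJ J I') R' h' →
      UnitIn R' (h' none / (∏ i, h' (some i)) ^ c / x) ∧
      ∀ h, GenAt B J R₀ h → ∀ i, UnitIn R' (h' (some i) / h i)) ∨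
    (QT R₀ R' y x 0 ∧ ∀ h', GenAt B (optJ J I') R' h' →
      UnitIn R' (h' none / (∏ i, h' (some i)) ^ c / y) ∧
      ∀ h, GenAt B J R₀ h → ∀ i, UnitIn R' (h' (some i) / h i)) :=
  H86.blow' hc hreg hR₀ hR'

end Pool.Agent.MP_b525bf_ag_TS
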