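import Pool.Agent.Lib.MP_b525bf_ag_TS.Defs

/-!
# `p`-th powers of polynomials over perfect fields
-/

set_option autoImplicit false

namespace Pool.Agent.MP_b525bf_ag_TS

open MvPolynomial

variable (p : ℕ) [hp : Fact p.Prime] {k : Type} [Field k] [IsAlgClosed k] [CharP k p] {σ : Type}

/-- A polynomial whose partial derivatives vanish is a `p`-th power. -/
theorem exists_pow_of_pderiv (f : MvPolynomial σ k) (hf : ∀ i, pderiv i f = 0) :
    ∃ F : MvPolynomial σ k, f = F ^ p := by
  classical
  -- the exponents are divisible by `p`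
  have h1 : ∀ m ∈ f.support, ∀ i, p ∣ m i := by
    intro m hm i
    by_cases hmi : m i = 0
    · rw [hmi]; exact dvd_zero p
    · have h2 := coeff_pderiv f (i := i) (m - Finsupp.single i 1)
      have h3 : m - Finsupp.single i 1 + Finsupp.single i 1 = m := by
        refine tsub_add_cancel_of_le ?_
        rw [Finsupp.single_le_iff]
        omega
      rw [hf i, coeff_zero, h3] at h2
      have h4 : ((m - Finsupp.single i 1 : σ →₀ ℕ) i : k) + 1 = (m i : k) := by
        have h5 : (m - Finsupp.single i 1 : σ →₀ ℕ) i + 1 = m i := by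
          have := DFunLike.congr_fun h3 i
          simpa using this
        rw [← h5]; push_cast; ring
      rw [h4] at h2
      have h6 : coeff m f ≠ 0 := mem_support_iff.1 hm
      have h7 : (m i : k) = 0 := by
        rcases mul_eq_zero.1 h2.symm with h | h
        · exact absurd h h6
        · exact h
      exact (CharP.cast_eq_zero_iff k p _).1 h7
  have hroot : ∀ c : k, ∃ r : k, r ^ p = c := fun c => IsAlgClosed.exists_pow_nat_eq c hp.out.pos
  choose rt hrt using hroot
  refine ⟨∑ m ∈ f.support, monomial (m.mapRange (fun n => n / p) (Nat.zero_div p))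
    (rt (coeff m f)), ?_⟩
  rw [sum_pow_char]
  conv_lhs => rw [f.as_sum]
  refine Finset.sum_congr rfl fun m hm => ?_
  have h2 : p • (m.mapRange (fun n => n / p) (Nat.zero_div p)) = m := by
    ext i
    rw [Finsupp.smul_apply, Finsupp.mapRange_apply, smul_eq_mul]
    exact Nat.mul_div_cancel' (h1 m hm i)
  rw [monomial_pow, hrt, h2]

omit [IsAlgClosed k] [CharP k p] in
/-- A polynomial which is a `p`-th power of a rational function is a `p`-th power. -/
theorem exists_pow_of_frac (f : MvPolynomial σ k) (w : KK k σ)
    (hw : w ^ p = algebraMap _ (KK k σ) f) : ∃ F : MvPolynomial σ k, f = F ^ p := by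
  obtain ⟨F, rfl⟩ := IsIntegrallyClosed.exists_algebraMap_eq_of_isIntegral_pow
    (R := MvPolynomial σ k) (K := KK k σ) (x := w) hp.out.pos (by rw [hw]; exact isIntegral_algebraMap)
  refine ⟨F, IsFractionRing.injective (MvPolynomial σ k) (KK k σ) ?_⟩
  rw [map_pow]
  exact hw.symm

end Pool.Agent.MP_b525bf_ag_TS
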