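import Pool.Agent.Lib.MP_b525bf_ag_TS.EtBasis

/-!
# A2b: change of coordinates (Jacobian criterion)
-/

set_option autoImplicit false

namespace Pool.Agent.MP_b525bf_ag_TS

open Pool.Agent.MP_b525bf_ag_X Pool.Agent.MP_b525bf_ag_X.Rg TensorProduct KaehlerDifferential MvPolynomial

namespace Chg

variable {k K : Type} [Field k] [Field K] [Algebra k K]

section Kaehler

variable {C : Subalgebra k K}

/-- A derivation of `K` as a linear map on the differentials of `C`. -/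
theorem exists_lift (D' : Derivation k K K) : ∃ l : Ω[C⁄k] →ₗ[C] K, ∀ z : C,
    l (D k C z) = D' (z : K) := by
  let d : Derivation k C K :=
    { toLinearMap := (D' : K →ₗ[k] K).comp C.val.toLinearMap
      map_one_eq_zero' := by
        change D' ((1 : C) : K) = 0
        rw [OneMemClass.coe_one, Derivation.map_one_eq_zero]
      leibniz' := by
        intro a b
        change D' ((a * b : C) : K) = a • D' (b : K) + b • D' (a : K)
        rw [MulMemClass.coe_mul, Derivation.leibniz]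
        rfl }
  refine ⟨d.liftKaehlerDifferential, fun z => ?_⟩
  rw [Derivation.liftKaehlerDifferential_comp_D]
  rfl

/-- The partial derivatives are the coefficients of the differential. -/
theorem coeff {x y : K} (hx : x ∈ C) (hy : y ∈ C) {Dx Dy : Derivation k K K}
    (xx : Dx x = 1) (xy : Dx y = 0) (yx : Dy x = 0) (yy : Dy y = 1)
    (b : Module.Basis (Fin 2) C Ω[C⁄k])
    (hb : ∀ i, b i = D k C ((![(⟨x, hx⟩ : C), ⟨y, hy⟩] : Fin 2 → C) i)) (z : C) :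
    ((b.repr (D k C z) 0 : C) : K) = Dx z ∧ ((b.repr (D k C z) 1 : C) : K) = Dy z := by
  have h0 : b 0 = D k C (⟨x, hx⟩ : C) := hb 0
  have h1 : b 1 = D k C (⟨y, hy⟩ : C) := hb 1
  have hz : D k C z = b.repr (D k C z) 0 • D k C (⟨x, hx⟩ : C)
      + b.repr (D k C z) 1 • D k C (⟨y, hy⟩ : C) := by
    conv_lhs => rw [← b.sum_repr (D k C z)]
    rw [Fin.sum_univ_two, h0, h1]
  constructor
  · obtain ⟨l, hl⟩ := exists_lift (C := C) Dx
    have h2 := congrArg l hz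
    rw [map_add, map_smul, map_smul, hl, hl, hl, xx, xy, smul_zero, add_zero] at h2
    rw [h2]
    change _ = ((b.repr (D k C z) 0 : C) : K) * 1
    rw [mul_one]
  · obtain ⟨l, hl⟩ := exists_lift (C := C) Dy
    have h2 := congrArg l hz
    rw [map_add, map_smul, map_smul, hl, hl, hl, yx, yy, smul_zero, zero_add] at h2
    rw [h2]
    change _ = ((b.repr (D k C z) 1 : C) : K) * 1
    rw [mul_one]

/-- The Jacobian criterion. -/
theorem etale_change {x y x' y' : K} (hx : x ∈ C) (hy : y ∈ C) (hx' : x' ∈ C) (hy' : y' ∈ C)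
    {Dx Dy : Derivation k K K} (xx : Dx x = 1) (xy : Dx y = 0) (yx : Dy x = 0) (yy : Dy y = 1)
    (het : (aeval ![(⟨x, hx⟩ : C), ⟨y, hy⟩] : MvPolynomial (Fin 2) k →ₐ[k] C).toRingHom.Etale)
    (hne : Dx x' * Dy y' - Dx y' * Dy x' ≠ 0)
    (hdet : (Dx x' * Dy y' - Dx y' * Dy x')⁻¹ ∈ C) :
    (aeval ![(⟨x', hx'⟩ : C), ⟨y', hy'⟩] :
      MvPolynomial (Fin 2) k →ₐ[k] C).toRingHom.Etale := by
  obtain ⟨⟨b, hb⟩, hfs, hfp⟩ := basis_of_etale het
  let v : Fin 2 → Ω[C⁄k] := fun i => D k C ((![(⟨x', hx'⟩ : C), ⟨y', hy'⟩] : Fin 2 → C) i)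
  have hv0 : v 0 = D k C (⟨x', hx'⟩ : C) := rfl
  have hv1 : v 1 = D k C (⟨y', hy'⟩ : C) := rfl
  have hX := coeff hx hy xx xy yx yy b hb ⟨x', hx'⟩
  have hY := coeff hx hy xx xy yx yy b hb ⟨y', hy'⟩
  have hdet2 : ((b.det v : C) : K) = Dx x' * Dy y' - Dx y' * Dy x' := by
    rw [Module.Basis.det_apply, Matrix.det_fin_two]
    simp only [Module.Basis.toMatrix_apply, hv0, hv1]
    push_cast
    rw [hX.1, hX.2, hY.1, hY.2]
  have hu : IsUnit (b.det v) := by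
    refine IsUnit.of_mul_eq_one (⟨_, hdet⟩ : C) (Subtype.ext ?_)
    rw [MulMemClass.coe_mul, hdet2, OneMemClass.coe_one]
    exact mul_inv_cancel₀ hne
  have hB := (Module.Basis.is_basis_iff_det b).2 hu
  exact etale_of_basis (Module.Basis.mk hB.1 hB.2.ge) fun i => by
    rw [Module.Basis.mk_apply]

end Kaehler

section Loc

variable {C : Subalgebra k K}

/-- The point of the localisation. -/
theorem exists_point (χ : C →ₐ[k] k) {f : K} (hf : f ∈ C) (hχf : χ ⟨f, hf⟩ ≠ 0) :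
    ∃ χ' : awayB C f hf →ₐ[k] k, (∀ z (hz : z ∈ C), χ' ⟨z, le_awayB f hf hz⟩ = χ ⟨z, hz⟩) ∧
      ptLoc (awayB C f hf) χ' = ptLoc C χ := by
  have hf0 : f ≠ 0 := by
    rintro rfl
    apply hχf
    have : (⟨0, hf⟩ : C) = 0 := rfl
    rw [this, map_zero]
  have key : ∀ z : awayB C f hf, ∃ m : ℕ, f ^ m * (z : K) ∈ C := fun z => z.2
  choose m hm using key
  have wd : ∀ (z : awayB C f hf) (n : ℕ) (hn : f ^ n * (z : K) ∈ C),
      χ ⟨_, hn⟩ / χ ⟨f, hf⟩ ^ n = χ ⟨_, hm z⟩ / χ ⟨f, hf⟩ ^ (m z) := by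
    intro z n hn
    rw [div_eq_div_iff (pow_ne_zero _ hχf) (pow_ne_zero _ hχf), ← map_pow, ← map_pow, ← map_mul,
      ← map_mul]
    congr 1
    refine Subtype.ext ?_
    change f ^ n * (z : K) * f ^ (m z) = f ^ (m z) * (z : K) * f ^ n
    ring
  let g : awayB C f hf → k := fun z => χ ⟨_, hm z⟩ / χ ⟨f, hf⟩ ^ (m z)
  have hg : ∀ (z : awayB C f hf) (n : ℕ) (w : C), f ^ n * (z : K) = w →
      g z = χ w / χ ⟨f, hf⟩ ^ n := by
    intro z n w hw
    have hn : f ^ n * (z : K) ∈ C := by rw [hw]; exact w.2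
    have h1 := wd z n hn
    have h2 : (⟨_, hn⟩ : C) = w := Subtype.ext hw
    rw [h2] at h1
    exact h1.symm
  have hgC : ∀ z (hz : z ∈ C), g ⟨z, le_awayB f hf hz⟩ = χ ⟨z, hz⟩ := by
    intro z hz
    rw [hg ⟨z, le_awayB f hf hz⟩ 0 ⟨z, hz⟩ (by rw [pow_zero, one_mul]), pow_zero, div_one]
  let χ' : awayB C f hf →ₐ[k] k :=
    { toFun := g
      map_one' := by
        have := hgC 1 C.one_mem
        rw [show (⟨1, C.one_mem⟩ : C) = 1 from rfl, map_one] at this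
        exact this
      map_zero' := by
        have := hgC 0 C.zero_mem
        rw [show (⟨0, C.zero_mem⟩ : C) = 0 from rfl, map_zero] at this
        exact this
      map_mul' := by
        intro a b
        obtain ⟨i, hi⟩ := a.2
        obtain ⟨j, hj⟩ := b.2
        rw [hg a i ⟨_, hi⟩ rfl, hg b j ⟨_, hj⟩ rfl, hg (a * b) (i + j) (⟨_, hi⟩ * ⟨_, hj⟩) (by
          change f ^ (i + j) * ((a : K) * b) = f ^ i * (a : K) * (f ^ j * b)
          ring), map_mul, pow_add]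
        field_simp
      map_add' := by
        intro a b
        obtain ⟨i, hi⟩ := a.2
        obtain ⟨j, hj⟩ := b.2
        rw [hg a i ⟨_, hi⟩ rfl, hg b j ⟨_, hj⟩ rfl, hg (a + b) (i + j)
          (⟨f, hf⟩ ^ j * ⟨_, hi⟩ + ⟨f, hf⟩ ^ i * ⟨_, hj⟩) (by
          change f ^ (i + j) * ((a : K) + b) = f ^ j * (f ^ i * (a : K)) + f ^ i * (f ^ j * b)
          ring), map_add, map_mul, map_mul, map_pow, map_pow, pow_add]
        field_simp
      commutes' := by
        intro r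
        have h1 := hgC (algebraMap k K r) (C.algebraMap_mem r)
        have h2 : (⟨algebraMap k K r, C.algebraMap_mem r⟩ : C) = algebraMap k C r := rfl
        rw [h2, AlgHom.commutes] at h1
        exact h1 }
  refine ⟨χ', hgC, ?_⟩
  have hχ' : ∀ z, χ' z = g z := fun _ => rfl
  ext z
  constructor
  · rintro ⟨a, b, hb, hab⟩
    obtain ⟨i, hi⟩ := a.2
    obtain ⟨j, hj⟩ := b.2
    refine ⟨⟨f, hf⟩ ^ j * ⟨_, hi⟩, ⟨f, hf⟩ ^ i * ⟨_, hj⟩, ?_, ?_⟩
    · rw [map_mul, map_pow]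
      refine mul_ne_zero (pow_ne_zero _ hχf) ?_
      intro h0
      apply hb
      rw [hχ', hg b j ⟨_, hj⟩ rfl, h0, zero_div]
    · change z * (f ^ i * (f ^ j * (b : K))) = f ^ j * (f ^ i * (a : K))
      rw [← hab]
      ring
  · rintro ⟨a, b, hb, hab⟩
    refine ⟨⟨_, le_awayB f hf a.2⟩, ⟨_, le_awayB f hf b.2⟩, ?_, hab⟩
    rw [hχ', hgC]
    exact hb

/-- The localisation. -/
theorem isLocalization {f : K} (hf : f ∈ C) (hf0 : f ≠ 0) :
    @IsLocalization.Away C _ ⟨f, hf⟩ (awayB C f hf) _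
      (Subalgebra.inclusion (le_awayB f hf)).toRingHom.toAlgebra := by
  let i1 : Algebra C (awayB C f hf) := (Subalgebra.inclusion (le_awayB f hf)).toRingHom.toAlgebra
  refine IsLocalization.Away.mk (S := awayB C f hf) (⟨f, hf⟩ : C) ?_ ?_ ?_
  · refine IsUnit.of_mul_eq_one (⟨f⁻¹, inv_mem_awayB hf hf0⟩ : awayB C f hf) ?_
    refine Subtype.ext ?_
    change f * f⁻¹ = 1
    exact mul_inv_cancel₀ hf0
  · rintro ⟨z, m, hm⟩
    refine ⟨m, ⟨_, hm⟩, Subtype.ext ?_⟩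
    change z * f ^ m = f ^ m * z
    ring
  · intro a b h
    refine ⟨0, ?_⟩
    have h1 : a = b := Subtype.ext (congrArg (Subtype.val : awayB C f hf → K) h)
    rw [h1]

/-- Étale coordinates of the localisation. -/
theorem etale_away {x y : K} (hx : x ∈ C) (hy : y ∈ C)
    (het : (aeval ![(⟨x, hx⟩ : C), ⟨y, hy⟩] : MvPolynomial (Fin 2) k →ₐ[k] C).toRingHom.Etale)
    {f : K} (hf : f ∈ C) (hf0 : f ≠ 0) :
    (aeval ![(⟨x, le_awayB f hf hx⟩ : awayB C f hf), ⟨y, le_awayB f hf hy⟩] :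
      MvPolynomial (Fin 2) k →ₐ[k] awayB C f hf).toRingHom.Etale := by
  let i1 : Algebra C (awayB C f hf) := (Subalgebra.inclusion (le_awayB f hf)).toRingHom.toAlgebra
  have htow : IsScalarTower k C (awayB C f hf) := IsScalarTower.of_algebraMap_eq fun r => rfl
  have hloc : IsLocalization.Away (⟨f, hf⟩ : C) (awayB C f hf) := isLocalization hf hf0
  have h1 := etale_localization (S := awayB C f hf) het ⟨f, hf⟩
  have h2 : (fun i => algebraMap C (awayB C f hf) ((![(⟨x, hx⟩ : C), ⟨y, hy⟩] : Fin 2 → C) i)) =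
      ![(⟨x, le_awayB f hf hx⟩ : awayB C f hf), ⟨y, le_awayB f hf hy⟩] := by
    funext i
    fin_cases i
    · rfl
    · rfl
  rw [h2] at h1
  exact h1

end Loc

section Alg

variable {R : Subalgebra k K} {x y : K} {Dx Dy : Derivation k K K}

/-- membership in the ideal generated by `x` and `y` -/
def In (R : Subalgebra k K) (x y z : K) : Prop := ∃ u ∈ R, ∃ v ∈ R, z = x * u + y * v

theorem In.add {z w : K} (hz : In R x y z) (hw : In R x y w) : In R x y (z + w) := by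
  obtain ⟨u, hu, v, hv, rfl⟩ := hz
  obtain ⟨u', hu', v', hv', rfl⟩ := hw
  exact ⟨u + u', R.add_mem hu hu', v + v', R.add_mem hv hv', by ring⟩

theorem In.mul {z w : K} (hz : In R x y z) (hw : w ∈ R) : In R x y (z * w) := by
  obtain ⟨u, hu, v, hv, rfl⟩ := hz
  exact ⟨u * w, R.mul_mem hu hw, v * w, R.mul_mem hv hw, by ring⟩

theorem In.sub {z w : K} (hz : In R x y z) (hw : In R x y w) : In R x y (z - w) := by
  obtain ⟨u, hu, v, hv, rfl⟩ := hz
  obtain ⟨u', hu', v', hv', rfl⟩ := hw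
  exact ⟨u - u', R.sub_mem hu hu', v - v', R.sub_mem hv hv', by ring⟩

theorem In.zero : In R x y 0 := ⟨0, R.zero_mem, 0, R.zero_mem, by ring⟩

theorem in_of_mx (h : Reg R x y Dx Dy) {z : K} (hz : z ∈ mx R) : In R x y z := by
  by_contra hcon
  have h1 := h.inv z hz.1 fun u hu v hv he => hcon ⟨u, hu, v, hv, he⟩
  rcases hz.2 with h2 | h2
  · rw [h2] at hcon
    exact hcon In.zero
  · exact h2 h1

theorem not_in_unit (h : Reg R x y Dx Dy) {z : K} (hz : UnitIn R z) : ¬ In R x y z := by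
  intro hin
  obtain ⟨u, hu, v, hv, he⟩ := hin.mul hz.2.2
  rw [mul_inv_cancel₀ hz.1] at he
  exact h.one u hu v hv he

theorem unit_of_not_in (h : Reg R x y Dx Dy) {z : K} (hzR : z ∈ R) (hz : ¬ In R x y z) :
    UnitIn R z := by
  refine ⟨?_, hzR, h.inv z hzR fun u hu v hv he => hz ⟨u, hu, v, hv, he⟩⟩
  rintro rfl
  exact hz In.zero

/-- The two ideals are equal. -/
theorem ideal_eq (h : Reg R x y Dx Dy) {x' y' : K} (hx' : x' ∈ mx R) (hy' : y' ∈ mx R)
    (hdet : UnitIn R (Dx x' * Dy y' - Dx y' * Dy x')) (z : K) :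
    In R x y z ↔ In R x' y' z := by
  obtain ⟨u1, hu1, v1, hv1, e1⟩ := in_of_mx h hx'
  obtain ⟨u2, hu2, v2, hv2, e2⟩ := in_of_mx h hy'
  have hDx1 : Dx x' - u1 = x * Dx u1 + y * Dx v1 := by
    rw [e1, map_add, Derivation.leibniz, Derivation.leibniz, h.xx, h.xy]
    simp only [smul_eq_mul]; ring
  have hDx2 : Dx y' - u2 = x * Dx u2 + y * Dx v2 := by
    rw [e2, map_add, Derivation.leibniz, Derivation.leibniz, h.xx, h.xy]
    simp only [smul_eq_mul]; ring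
  have hDy1 : Dy x' - v1 = x * Dy u1 + y * Dy v1 := by
    rw [e1, map_add, Derivation.leibniz, Derivation.leibniz, h.yx, h.yy]
    simp only [smul_eq_mul]; ring
  have hDy2 : Dy y' - v2 = x * Dy u2 + y * Dy v2 := by
    rw [e2, map_add, Derivation.leibniz, Derivation.leibniz, h.yx, h.yy]
    simp only [smul_eq_mul]; ring
  have i1 : In R x y (Dx x' - u1) := ⟨_, h.Dx_mem _ hu1, _, h.Dx_mem _ hv1, hDx1⟩
  have i2 : In R x y (Dx y' - u2) := ⟨_, h.Dx_mem _ hu2, _, h.Dx_mem _ hv2, hDx2⟩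
  have i3 : In R x y (Dy x' - v1) := ⟨_, h.Dy_mem _ hu1, _, h.Dy_mem _ hv1, hDy1⟩
  have i4 : In R x y (Dy y' - v2) := ⟨_, h.Dy_mem _ hu2, _, h.Dy_mem _ hv2, hDy2⟩
  have hΔ : UnitIn R (u1 * v2 - u2 * v1) := by
    refine unit_of_not_in h (R.sub_mem (R.mul_mem hu1 hv2) (R.mul_mem hu2 hv1)) fun hin => ?_
    refine not_in_unit h hdet ?_
    have e : Dx x' * Dy y' - Dx y' * Dy x' = (u1 * v2 - u2 * v1) +
        (((Dx x' - u1) * Dy y' + (Dy y' - v2) * u1) - ((Dx y' - u2) * Dy x' +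
          (Dy x' - v1) * u2)) := by ring
    rw [e]
    exact hin.add (((i1.mul (h.Dy_mem _ hy'.1)).add (i4.mul hu1)).sub
      ((i2.mul (h.Dy_mem _ hx'.1)).add (i3.mul hu2)))
  have hΔ1 : (u1 * v2 - u2 * v1) * (u1 * v2 - u2 * v1)⁻¹ = 1 := mul_inv_cancel₀ hΔ.1
  have hx : x = x' * (v2 * (u1 * v2 - u2 * v1)⁻¹) + y' * (-(v1 * (u1 * v2 - u2 * v1)⁻¹)) := by
    rw [e1, e2]
    linear_combination (-x) * hΔ1
  have hy : y = x' * (-(u2 * (u1 * v2 - u2 * v1)⁻¹)) + y' * (u1 * (u1 * v2 - u2 * v1)⁻¹) := by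
    rw [e1, e2]
    linear_combination (-y) * hΔ1
  constructor
  · rintro ⟨u, hu, v, hv, rfl⟩
    have hx0 : In R x' y' x := ⟨_, R.mul_mem hv2 hΔ.2.2, _,
      R.neg_mem (R.mul_mem hv1 hΔ.2.2), hx⟩
    have hy0 : In R x' y' y := ⟨_, R.neg_mem (R.mul_mem hu2 hΔ.2.2), _,
      R.mul_mem hu1 hΔ.2.2, hy⟩
    exact (hx0.mul hu).add (hy0.mul hv)
  · rintro ⟨u, hu, v, hv, rfl⟩
    exact ((in_of_mx h hx').mul hu).add ((in_of_mx h hy').mul hv)

theorem der_apply (a b : K) (D D' : Derivation k K K) (z : K) :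
    (a • D + b • D') z = a * D z + b * D' z := rfl

end Alg

end Chg

open Chg

variable {k K : Type} [Field k] [Field K] [Algebra k K]
  {R : Subalgebra k K} {x y : K} {Dx Dy : Derivation k K K}

/-- Change of coordinates. -/
theorem Reg.change (h : Reg R x y Dx Dy) {x' y' : K} (hx' : x' ∈ mx R) (hy' : y' ∈ mx R)
    (hdet : UnitIn R (Dx x' * Dy y' - Dx y' * Dy x')) :
    Reg R x' y' ((Dx x' * Dy y' - Dx y' * Dy x')⁻¹ • (Dy y' • Dx - Dx y' • Dy))
      ((Dx x' * Dy y' - Dx y' * Dy x')⁻¹ • (Dx x' • Dy - Dy x' • Dx)) := by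
  set Jd := Dx x' * Dy y' - Dx y' * Dy x' with hJd
  have hJ0 : Jd ≠ 0 := hdet.1
  have ap1 : ∀ z, (Jd⁻¹ • (Dy y' • Dx - Dx y' • Dy)) z = Jd⁻¹ * (Dy y' * Dx z - Dx y' * Dy z) :=
    fun _ => rfl
  have ap2 : ∀ z, (Jd⁻¹ • (Dx x' • Dy - Dy x' • Dx)) z = Jd⁻¹ * (Dx x' * Dy z - Dy x' * Dx z) :=
    fun _ => rfl
  set D1 := Jd⁻¹ • (Dy y' • Dx - Dx y' • Dy) with hD1
  set D2 := Jd⁻¹ • (Dx x' • Dy - Dy x' • Dx) with hD2
  have hxx : D1 x' = 1 := by
    rw [ap1]
    rw [inv_mul_eq_one₀ hJ0, hJd]; ring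
  have hxy : D1 y' = 0 := by
    rw [ap1]; ring
  have hyx : D2 x' = 0 := by
    rw [ap2]; ring
  have hyy : D2 y' = 1 := by
    rw [ap2]
    rw [inv_mul_eq_one₀ hJ0, hJd]; ring
  have hbasis : ∀ D : Derivation k K K, D = D x' • D1 + D y' • D2 := by
    intro D
    have hb := h.basis D
    have hD : ∀ z, D z = D x * Dx z + D y * Dy z := fun z => by
      conv_lhs => rw [hb]
      rfl
    ext z
    change D z = D x' * D1 z + D y' * D2 z
    rw [ap1, ap2, hD z, hD x', hD y']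
    field_simp
    rw [hJd]
    ring
  have hDx_mem : ∀ z ∈ R, D1 z ∈ R := by
    intro z hz
    rw [ap1]
    exact R.mul_mem hdet.2.2 (R.sub_mem (R.mul_mem (h.Dy_mem _ hy'.1) (h.Dx_mem _ hz))
      (R.mul_mem (h.Dx_mem _ hy'.1) (h.Dy_mem _ hz)))
  have hDy_mem : ∀ z ∈ R, D2 z ∈ R := by
    intro z hz
    rw [ap2]
    exact R.mul_mem hdet.2.2 (R.sub_mem (R.mul_mem (h.Dx_mem _ hx'.1) (h.Dy_mem _ hz))
      (R.mul_mem (h.Dy_mem _ hx'.1) (h.Dx_mem _ hz)))
  have hI := ideal_eq h hx' hy' hdet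
  refine ⟨hx'.1, hy'.1, hxx, hxy, hyx, hyy, hDx_mem, hDy_mem, ?_, hbasis, ?_, ?_, ?_, ?_⟩
  · intro z
    have hbr := hbasis ⁅D1, D2⁆
    have e1 : ⁅D1, D2⁆ x' = 0 := by
      rw [Derivation.commutator_apply, hxx, hyx, Derivation.map_one_eq_zero, map_zero, sub_zero]
    have e2 : ⁅D1, D2⁆ y' = 0 := by
      rw [Derivation.commutator_apply, hxy, hyy, Derivation.map_one_eq_zero, map_zero, sub_zero]
    rw [e1, e2, zero_smul, zero_smul, add_zero] at hbr
    have h2 : ⁅D1, D2⁆ z = 0 := by rw [hbr]; rfl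
    rw [Derivation.commutator_apply, sub_eq_zero] at h2
    exact h2
  · intro z hz
    obtain ⟨c, u, hu, v, hv, he⟩ := h.dec z hz
    obtain ⟨u', hu', v', hv', he'⟩ := (hI (x * u + y * v)).1 ⟨u, hu, v, hv, rfl⟩
    exact ⟨c, u', hu', v', hv', by rw [he, add_assoc, add_assoc, he']⟩
  · intro z hz hne
    refine h.inv z hz fun u hu v hv he => ?_
    obtain ⟨u', hu', v', hv', he'⟩ := (hI z).1 ⟨u, hu, v, hv, he⟩
    exact hne u' hu' v' hv' he'
  · intro u hu v hv he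
    obtain ⟨u', hu', v', hv', he'⟩ := (hI 1).2 ⟨u, hu, v, hv, he⟩
    exact h.one u' hu' v' hv' he'
  · obtain ⟨C, χ, hxC, hyC, hR, hχx, hχy, het⟩ := h.et
    have frac : ∀ z ∈ R, ∃ b : C, χ b ≠ 0 ∧ (b : K) * z ∈ C := by
      intro z hz
      rw [hR] at hz
      obtain ⟨a, b, hb, hab⟩ := hz
      exact ⟨b, hb, by rw [mul_comm, hab]; exact a.2⟩
    obtain ⟨b1, hb1, hm1⟩ := frac _ hx'.1
    obtain ⟨b2, hb2, hm2⟩ := frac _ hy'.1
    obtain ⟨b3, hb3, hm3⟩ := frac _ hdet.2.2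
    let f : C := b1 * b2 * b3
    have hf : (f : K) ∈ C := f.2
    have hχf : χ ⟨(f : K), hf⟩ ≠ 0 := by
      change χ (b1 * b2 * b3) ≠ 0
      rw [map_mul, map_mul]
      exact mul_ne_zero (mul_ne_zero hb1 hb2) hb3
    have hfK : (f : K) = b1 * b2 * b3 := rfl
    have hf0 : (f : K) ≠ 0 := by
      intro h0
      apply hχf
      have : (⟨(f : K), hf⟩ : C) = 0 := Subtype.ext h0
      rw [this, map_zero]
    have hx1 : x' ∈ awayB C (f : K) hf := ⟨1, by
      rw [pow_one, hfK]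
      have : (b1 : K) * b2 * b3 * x' = b2 * b3 * (b1 * x') := by ring
      rw [this]
      exact C.mul_mem (C.mul_mem b2.2 b3.2) hm1⟩
    have hy1 : y' ∈ awayB C (f : K) hf := ⟨1, by
      rw [pow_one, hfK]
      have : (b1 : K) * b2 * b3 * y' = b1 * b3 * (b2 * y') := by ring
      rw [this]
      exact C.mul_mem (C.mul_mem b1.2 b3.2) hm2⟩
    have hJ1 : Jd⁻¹ ∈ awayB C (f : K) hf := ⟨1, by
      rw [pow_one, hfK]
      have : (b1 : K) * b2 * b3 * Jd⁻¹ = b1 * b2 * (b3 * Jd⁻¹) := by ring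
      rw [this]
      exact C.mul_mem (C.mul_mem b1.2 b2.2) hm3⟩
    obtain ⟨χ', hχ', hpt⟩ := exists_point χ hf hχf
    have hvan : ∀ z (hz : z ∈ awayB C (f : K) hf), z ∈ mx R → χ' ⟨z, hz⟩ = 0 := by
      intro z hz hzm
      by_contra hne
      have h1 : z⁻¹ ∈ R := by
        rw [hR, ← hpt]
        refine ⟨1, ⟨z, hz⟩, hne, ?_⟩
        have hz0 : z ≠ 0 := by
          rintro rfl
          apply hne
          have : (⟨0, hz⟩ : awayB C (f : K) hf) = 0 := rfl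
          rw [this, map_zero]
        change z⁻¹ * z = 1
        exact inv_mul_cancel₀ hz0
      rcases hzm.2 with h2 | h2
      · apply hne
        have : (⟨z, hz⟩ : awayB C (f : K) hf) = 0 := Subtype.ext h2
        rw [this, map_zero]
      · exact h2 h1
    exact ⟨awayB C (f : K) hf, χ', hx1, hy1, by rw [hR, hpt], hvan _ _ hx', hvan _ _ hy',
      etale_change (le_awayB _ hf hxC) (le_awayB _ hf hyC) hx1 hy1 h.xx h.xy h.yx h.yy
        (etale_away hxC hyC het hf hf0) hJ0 hJ1⟩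

end Pool.Agent.MP_b525bf_ag_TS
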