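import Pool.Agent.Lib.MP_b525bf_ag_TS.SDefs

/-!
# A2a: the local rings of the blowing up of a point of a smooth surface
-/

set_option autoImplicit false

namespace Pool.Agent.MP_b525bf_ag_TS

namespace Qtl

section Etale

open TensorProduct

/-- A criterion for an étale homomorphism: a base change without torsion. -/
theorem etale_desc {A A' C D : Type} [CommRing A] [CommRing A'] [CommRing C] [CommRing D]
    (φ : A →+* C) (ψ : A →+* A') (ι : C →+* D) (ρ : A' →+* D)
    (hcomp : ι.comp φ = ρ.comp ψ) (hι : Function.Injective ι) (hφ : φ.Etale) {x₀ : A}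
    (hX : ψ x₀ ∈ nonZeroDivisors A') (hpow : ∀ f : A', ∃ n : ℕ, ∃ g : A, ψ x₀ ^ n * f = ψ g)
    (hsurj : ∀ d : D, d ∈ Subring.closure (Set.range ι ∪ Set.range ρ)) : ρ.Etale := by
  let _ := φ.toAlgebra
  let _ := ψ.toAlgebra
  let _ := (ι.comp φ).toAlgebra
  have : Algebra.Etale A C := hφ
  have hc : ∀ a : A, ρ (ψ a) = ι (φ a) := fun a => (RingHom.congr_fun hcomp a).symm
  let ιA : C →ₐ[A] D := { ι with commutes' := fun a => rfl }
  let ρA : A' →ₐ[A] D := { ρ with commutes' := fun a => hc a }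
  let L : A' ⊗[A] C →ₐ[A] D := Algebra.TensorProduct.productMap ρA ιA
  have hL1 : ∀ f : A', L (f ⊗ₜ 1) = ρ f := fun f => by
    show Algebra.TensorProduct.productMap ρA ιA (f ⊗ₜ 1) = ρ f
    rw [Algebra.TensorProduct.productMap_apply_tmul, map_one, mul_one]
    rfl
  have hL2 : ∀ c : C, L (1 ⊗ₜ c) = ι c := fun c => by
    show Algebra.TensorProduct.productMap ρA ιA (1 ⊗ₜ c) = ι c
    rw [Algebra.TensorProduct.productMap_apply_tmul, map_one, one_mul]
    rfl
  have hψ : ∀ (g : A) (c : C), (ψ g ⊗ₜ[A] c : A' ⊗[A] C) = 1 ⊗ₜ (φ g * c) := by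
    intro g c
    have h1 : ψ g = g • (1 : A') := by rw [Algebra.smul_def, mul_one]; rfl
    rw [h1, smul_tmul, Algebra.smul_def]
    rfl
  have hden : ∀ z : A' ⊗[A] C, ∃ n : ℕ, ∃ c : C,
      ((ψ x₀ ^ n) ⊗ₜ[A] (1 : C) : A' ⊗[A] C) * z = (1 : A') ⊗ₜ[A] c := by
    intro z
    induction z with
    | zero => exact ⟨0, 0, by rw [mul_zero, tmul_zero]⟩
    | tmul f c =>
      obtain ⟨n, g, hg⟩ := hpow f
      refine ⟨n, φ g * c, ?_⟩
      rw [Algebra.TensorProduct.tmul_mul_tmul, one_mul, hg, hψ]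
    | add z w hz hw =>
      obtain ⟨n, c, h1⟩ := hz
      obtain ⟨m, d, h2⟩ := hw
      refine ⟨n + m, φ (x₀ ^ m) * c + φ (x₀ ^ n) * d, ?_⟩
      have e : ∀ i j : ℕ, ((ψ x₀ ^ (i + j)) ⊗ₜ[A] (1 : C) : A' ⊗[A] C) =
          ((1 : A') ⊗ₜ[A] φ (x₀ ^ j)) * ((ψ x₀ ^ i) ⊗ₜ[A] (1 : C)) := by
        intro i j
        rw [Algebra.TensorProduct.tmul_mul_tmul, one_mul, mul_one, ← map_pow ψ x₀ i,
          ← map_pow ψ x₀ (i + j), hψ, hψ, mul_one, ← map_mul, ← pow_add]
      have t1 : ((ψ x₀ ^ (n + m)) ⊗ₜ[A] (1 : C) : A' ⊗[A] C) * z =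
          (1 : A') ⊗ₜ[A] (φ (x₀ ^ m) * c) := by
        rw [e n m, mul_assoc, h1, Algebra.TensorProduct.tmul_mul_tmul, one_mul]
      have t2 : ((ψ x₀ ^ (n + m)) ⊗ₜ[A] (1 : C) : A' ⊗[A] C) * w =
          (1 : A') ⊗ₜ[A] (φ (x₀ ^ n) * d) := by
        rw [add_comm n m, e m n, mul_assoc, h2, Algebra.TensorProduct.tmul_mul_tmul, one_mul]
      rw [mul_add, t1, t2, tmul_add]
  have hinj : Function.Injective L := by
    rw [injective_iff_map_eq_zero]
    intro z hz
    obtain ⟨n, c, hn⟩ := hden z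
    have h1 : ι c = 0 := by rw [← hL2, ← hn, map_mul, hz, mul_zero]
    have h2 : c = 0 := hι (by rw [h1, map_zero])
    rw [h2, tmul_zero] at hn
    have hflat : Module.Flat A' (A' ⊗[A] C) := inferInstance
    have h3 := Module.Flat.isSMulRegular_of_nonZeroDivisors (M := A' ⊗[A] C)
      (pow_mem hX n)
    refine h3 ?_
    show ψ x₀ ^ n • z = ψ x₀ ^ n • 0
    rw [smul_zero, ← hn, Algebra.smul_def]
    rfl
  have hs : Function.Surjective L := by
    intro d
    have h1 : Subring.closure (Set.range ι ∪ Set.range ρ) ≤ (L : A' ⊗[A] C →+* D).range := by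
      rw [Subring.closure_le]
      rintro _ (⟨c, rfl⟩ | ⟨f, rfl⟩)
      · exact ⟨_, hL2 c⟩
      · exact ⟨_, hL1 f⟩
    exact h1 (hsurj d)
  have h1 : (algebraMap A' (A' ⊗[A] C)).Etale := RingHom.etale_algebraMap.2 inferInstance
  have h2 : (L : A' ⊗[A] C →+* D).Etale := RingHom.Etale.of_bijective ⟨hinj, hs⟩
  have h3 := RingHom.Etale.stableUnderComposition _ _ h1 h2
  have h4 : (L : A' ⊗[A] C →+* D).comp (algebraMap A' (A' ⊗[A] C)) = ρ := by
    ext f
    exact hL1 f
  rwa [h4] at h3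

end Etale

section Chart

variable {k K : Type} [Field k] [Field K] [Algebra k K]

open MvPolynomial

/-- The étale chart of the blowing up. -/
theorem etale_chart {C : Subalgebra k K} {x y : K} (hx0 : x ≠ 0) (hx : x ∈ C) (hy : y ∈ C)
    (het : (aeval ![(⟨x, hx⟩ : C), ⟨y, hy⟩] : MvPolynomial (Fin 2) k →ₐ[k] C).toRingHom.Etale)
    (c : k) (hx' : x ∈ Algebra.adjoin k ((C : Set K) ∪ {y / x}))
    (hy' : y / x - algebraMap k K c ∈ Algebra.adjoin k ((C : Set K) ∪ {y / x})) :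
    (aeval ![(⟨x, hx'⟩ : Algebra.adjoin k ((C : Set K) ∪ {y / x})), ⟨_, hy'⟩] :
      MvPolynomial (Fin 2) k →ₐ[k] Algebra.adjoin k ((C : Set K) ∪ {y / x})).toRingHom.Etale := by
  set C' := Algebra.adjoin k ((C : Set K) ∪ {y / x}) with hC'
  have hCC' : C ≤ C' := fun z hz => Algebra.subset_adjoin (Or.inl hz)
  let ψ : MvPolynomial (Fin 2) k →ₐ[k] MvPolynomial (Fin 2) k :=
    aeval ![X 0, X 0 * (X 1 + MvPolynomial.C c)]
  have hψ0 : ψ (X 0) = X 0 := by simp [ψ]
  have hψ1 : ψ (X 1) = X 0 * (X 1 + MvPolynomial.C c) := by simp [ψ]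
  refine etale_desc (aeval ![(⟨x, hx⟩ : C), ⟨y, hy⟩] : MvPolynomial (Fin 2) k →ₐ[k] C).toRingHom
    ψ.toRingHom (Subalgebra.inclusion hCC').toRingHom _ ?_ ?_ het (x₀ := X 0) ?_ ?_ ?_
  · have h1 : (Subalgebra.inclusion hCC').comp
        (aeval ![(⟨x, hx⟩ : C), ⟨y, hy⟩] : MvPolynomial (Fin 2) k →ₐ[k] C) =
        (aeval ![(⟨x, hx'⟩ : C'), ⟨_, hy'⟩] : MvPolynomial (Fin 2) k →ₐ[k] C').comp ψ := by
      refine MvPolynomial.algHom_ext fun i => ?_
      fin_cases i
      · simp [hψ0]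
      · refine Subtype.ext ?_
        simp [hψ1]
        field_simp
    exact congrArg AlgHom.toRingHom h1
  · exact Subalgebra.inclusion_injective hCC'
  · show ψ (X 0) ∈ _
    rw [hψ0]
    exact mem_nonZeroDivisors_of_ne_zero (X_ne_zero 0)
  · show ∀ f, ∃ n : ℕ, ∃ g, ψ (X 0) ^ n * f = ψ g
    rw [hψ0]
    intro f
    induction f using MvPolynomial.induction_on with
    | C a => exact ⟨0, MvPolynomial.C a, by simp [ψ]⟩
    | add f g hf hg =>
      obtain ⟨n, f', h1⟩ := hf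
      obtain ⟨m, g', h2⟩ := hg
      refine ⟨n + m, X 0 ^ m * f' + X 0 ^ n * g', ?_⟩
      rw [map_add, map_mul, map_mul, map_pow, map_pow, hψ0, ← h1, ← h2]
      ring
    | mul_X f i hf =>
      obtain ⟨n, f', h1⟩ := hf
      fin_cases i
      · refine ⟨n, f' * X 0, ?_⟩
        rw [map_mul, hψ0, ← h1]
        exact (mul_assoc _ _ _).symm
      · refine ⟨n + 1, f' * (X 1 - MvPolynomial.C c * X 0), ?_⟩
        have h2 : ψ (MvPolynomial.C c) = MvPolynomial.C c := ψ.commutes c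
        rw [map_mul, map_sub, map_mul, hψ0, hψ1, h2, ← h1]
        show X 0 ^ (n + 1) * (f * X 1) = _
        ring
  · rintro ⟨d, hd⟩
    induction hd using Algebra.adjoin_induction with
    | mem z hz =>
      rcases hz with hz | hz
      · exact Subring.subset_closure (Or.inl ⟨⟨z, hz⟩, rfl⟩)
      · refine Subring.subset_closure (Or.inr ⟨X 1 + MvPolynomial.C c, Subtype.ext ?_⟩)
        simpa using hz.symm
    | algebraMap r =>
      refine Subring.subset_closure (Or.inr ⟨MvPolynomial.C r, Subtype.ext ?_⟩)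
      simp
    | add a b ha hb h1 h2 => exact add_mem h1 h2
    | mul a b ha hb h1 h2 => exact mul_mem h1 h2

end Chart

variable {k K : Type} [Field k] [Field K] [Algebra k K]
  {R : Subalgebra k K} {x y : K} {Dx Dy : Derivation k K K}

theorem le_ptLoc {C : Subalgebra k K} (χ : C →ₐ[k] k) : C ≤ ptLoc C χ := fun z hz =>
  ⟨⟨z, hz⟩, 1, by rw [map_one]; exact one_ne_zero, by simp⟩

/-- The denominators of a localisation are units. -/
theorem inv_mem_ptLoc {C : Subalgebra k K} {χ : C →ₐ[k] k} {b : C} (hb : χ b ≠ 0) :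
    (b : K)⁻¹ ∈ ptLoc C χ := by
  have hb0 : (b : K) ≠ 0 := by
    intro h
    apply hb
    have : b = 0 := Subtype.ext h
    rw [this, map_zero]
  exact ⟨1, b, hb, by rw [inv_mul_cancel₀ hb0]; rfl⟩

/-- A derivation which preserves `C` preserves its localisations. -/
theorem ptLoc_derivation {C : Subalgebra k K} {χ : C →ₐ[k] k} {D : Derivation k K K}
    (hD : ∀ z ∈ C, D z ∈ C) : ∀ z ∈ ptLoc C χ, D z ∈ ptLoc C χ := by
  rintro z ⟨a, b, hb, h⟩
  refine ⟨⟨D a, hD _ a.2⟩ * b - a * ⟨D b, hD _ b.2⟩, b * b, ?_, ?_⟩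
  · rw [map_mul]
    exact mul_ne_zero hb hb
  · have h1 := congrArg D h
    rw [Derivation.leibniz, smul_eq_mul, smul_eq_mul] at h1
    push_cast
    rw [← h1, ← h]
    ring

theorem x_ne' (h : Reg R x y Dx Dy) : x ≠ 0 := by
  rintro rfl
  have := h.xx
  rw [map_zero] at this
  exact zero_ne_one this

theorem qt_induction {Q : Subalgebra k K} (hQ : Q = MP_b525bf_ag_TS.qt R x y) {P : K → Prop}
    (hR : ∀ z ∈ R, P z) (hq : P (y / x)) (hk : ∀ r : k, P (algebraMap k K r))
    (hadd : ∀ a ∈ Q, ∀ b ∈ Q, P a → P b → P (a + b))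
    (hmul : ∀ a ∈ Q, ∀ b ∈ Q, P a → P b → P (a * b)) : ∀ z ∈ Q, P z := by
  subst hQ
  intro z hz
  induction hz using Algebra.adjoin_induction with
  | mem z hz =>
    rcases hz with hz | hz
    · exact hR z hz
    · rw [Set.mem_singleton_iff.1 hz]
      exact hq
  | algebraMap r => exact hk r
  | add a b ha hb h1 h2 => exact hadd a ha b hb h1 h2
  | mul a b ha hb h1 h2 => exact hmul a ha b hb h1 h2

theorem qt_derivation' {Q : Subalgebra k K} (hQ : Q = MP_b525bf_ag_TS.qt R x y)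
    {D : Derivation k K K} (hR : ∀ z ∈ R, D z ∈ Q)
    (hq : D (y / x) ∈ Q) : ∀ z ∈ Q, D z ∈ Q := by
  refine qt_induction hQ hR hq (fun r => ?_) (fun a ha b hb h1 h2 => ?_)
    (fun a ha b hb h1 h2 => ?_)
  · rw [Derivation.map_algebraMap]
    exact zero_mem _
  · rw [map_add]
    exact add_mem h1 h2
  · rw [Derivation.leibniz, smul_eq_mul, smul_eq_mul]
    exact add_mem (mul_mem ha h2) (mul_mem hb h1)

end Qtl

open Qtl

variable {k K : Type} [Field k] [Field K] [Algebra k K]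
  {R : Subalgebra k K} {x y : K} {Dx Dy : Derivation k K K}

/-- The local rings of the points of the exceptional curve. -/
theorem Reg.qt_aux (h : Reg R x y Dx Dy) {Q : Subalgebra k K}
    (hQdef : Q = MP_b525bf_ag_TS.qt R x y) {c : k} {χ : Q →ₐ[k] k}
    (hχx : ∀ h, χ ⟨x, h⟩ = 0) (hχy : ∀ h, χ ⟨y / x, h⟩ = c) :
    Reg (ptLoc Q χ) x (y / x - algebraMap k K c) (Dx + (y / x) • Dy) (x • Dy) := by
  have hx0 : x ≠ 0 := x_ne' h
  have hRQ : R ≤ Q := by
    rw [hQdef]
    exact fun z hz => Algebra.subset_adjoin (Or.inl hz)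
  have hT : y / x ∈ Q := by
    rw [hQdef]
    exact Algebra.subset_adjoin (Or.inr rfl)
  have hxQ : x ∈ Q := hRQ h.hx
  have hŷ : y / x - algebraMap k K c ∈ Q := sub_mem hT (Subalgebra.algebraMap_mem _ _)
  have hQR' : Q ≤ ptLoc Q χ := le_ptLoc χ
  have hDxT : Dx (y / x) = -(y / x ^ 2) := by
    rw [Derivation.leibniz_div, h.xx, h.xy]
    simp
    field_simp
  have hDyT : Dy (y / x) = x⁻¹ := by
    rw [Derivation.leibniz_div, h.yx, h.yy]
    simp
    field_simp
  have hD1 : ∀ z, (Dx + (y / x) • Dy) z = Dx z + y / x * Dy z := fun z => rfl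
  have hD2 : ∀ z, (x • Dy) z = x * Dy z := fun z => rfl
  have hc : ∀ D : Derivation k K K, D (y / x - algebraMap k K c) = D (y / x) := fun D => by
    rw [map_sub, Derivation.map_algebraMap, sub_zero]
  -- decomposition in the chart
  have hdec : ∀ z (hz : z ∈ Q), ∃ u ∈ Q, ∃ v ∈ Q,
      z = algebraMap k K (χ ⟨z, hz⟩) + x * u + (y / x - algebraMap k K c) * v := by
    have key : ∀ z ∈ Q, ∃ c' : k, ∃ u ∈ Q, ∃ v ∈ Q,
      z = algebraMap k K c' + x * u + (y / x - algebraMap k K c) * v := by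
      refine qt_induction hQdef (fun z hz => ?_) ?_ (fun r => ?_) (fun a ha b hb h1 h2 => ?_)
        (fun a ha b hb h1 h2 => ?_)
      · obtain ⟨c', u, hu, v, hv, e⟩ := h.dec z hz
        refine ⟨c', u + y / x * v, add_mem (hRQ hu) (mul_mem hT (hRQ hv)), 0, zero_mem _, ?_⟩
        rw [e]
        field_simp
        ring
      · exact ⟨c, 0, zero_mem _, 1, one_mem _, by ring⟩
      · exact ⟨r, 0, zero_mem _, 0, zero_mem _, by ring⟩
      · obtain ⟨c₁, u₁, hu₁, v₁, hv₁, e₁⟩ := h1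
        obtain ⟨c₂, u₂, hu₂, v₂, hv₂, e₂⟩ := h2
        refine ⟨c₁ + c₂, u₁ + u₂, add_mem hu₁ hu₂, v₁ + v₂, add_mem hv₁ hv₂, ?_⟩
        rw [map_add, e₁, e₂]
        ring
      · obtain ⟨c₁, u₁, hu₁, v₁, hv₁, e₁⟩ := h1
        obtain ⟨c₂, u₂, hu₂, v₂, hv₂, e₂⟩ := h2
        refine ⟨c₁ * c₂, u₁ * b + algebraMap k K c₁ * u₂,
          add_mem (mul_mem hu₁ hb) (mul_mem (Subalgebra.algebraMap_mem _ _) hu₂),
          v₁ * b + algebraMap k K c₁ * v₂,
          add_mem (mul_mem hv₁ hb) (mul_mem (Subalgebra.algebraMap_mem _ _) hv₂), ?_⟩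
        rw [map_mul]
        nth_rewrite 1 [e₁]
        nth_rewrite 1 [e₂]
        rw [e₂]
        ring
    intro z hz
    obtain ⟨c', u, hu, v, hv, e⟩ := key z hz
    have h1 : (⟨z, hz⟩ : Q) = algebraMap k Q c' + ⟨x, hxQ⟩ * ⟨u, hu⟩ + ⟨_, hŷ⟩ * ⟨v, hv⟩ :=
      Subtype.ext e
    have h3 : χ (⟨_, hŷ⟩ : Q) = 0 := by
      have h4 : (⟨_, hŷ⟩ : Q) = ⟨y / x, hT⟩ - algebraMap k Q c := rfl
      rw [h4, map_sub, hχy, AlgHom.commutes]
      exact sub_self c
    have h2 : χ ⟨z, hz⟩ = c' := by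
      rw [h1, map_add, map_add, map_mul, map_mul, hχx, h3, zero_mul, zero_mul, add_zero, add_zero,
        AlgHom.commutes]
      rfl
    rw [h2]
    exact ⟨u, hu, v, hv, e⟩
  have hχŷ : χ (⟨_, hŷ⟩ : Q) = 0 := by
    have h4 : (⟨_, hŷ⟩ : Q) = ⟨y / x, hT⟩ - algebraMap k Q c := rfl
    rw [h4, map_sub, hχy, AlgHom.commutes]
    exact sub_self c
  refine
    { hx := hQR' hxQ
      hy := hQR' hŷ
      xx := ?_, xy := ?_, yx := ?_, yy := ?_
      Dx_mem := ?_, Dy_mem := ?_, comm := ?_, basis := ?_, dec := ?_, inv := ?_, one := ?_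
      et := ?_ }
  · rw [hD1, h.xx, h.yx, mul_zero, add_zero]
  · rw [hc, hD1, hDxT, hDyT]
    field_simp
    ring
  · rw [hD2, h.yx, mul_zero]
  · rw [hc, hD2, hDyT, mul_inv_cancel₀ hx0]
  · refine ptLoc_derivation (qt_derivation' hQdef (fun z hz => ?_) ?_)
    · rw [hD1]
      exact add_mem (hRQ (h.Dx_mem z hz)) (mul_mem hT (hRQ (h.Dy_mem z hz)))
    · rw [hD1, hDxT, hDyT]
      have : -(y / x ^ 2) + y / x * x⁻¹ = 0 := by field_simp; ring
      rw [this]
      exact zero_mem _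
  · refine ptLoc_derivation (qt_derivation' hQdef (fun z hz => ?_) ?_)
    · rw [hD2]
      exact mul_mem hxQ (hRQ (h.Dy_mem z hz))
    · rw [hD2, hDyT, mul_inv_cancel₀ hx0]
      exact one_mem _
  · intro z
    simp only [hD1, hD2, Derivation.leibniz, smul_eq_mul, h.xx, h.yx, h.comm, map_add, hDyT]
    field_simp
    ring
  · intro D
    refine Derivation.ext fun z => ?_
    rw [hc]
    conv_lhs => rw [h.basis D]
    rw [Derivation.leibniz_div]
    simp only [Derivation.add_apply, Derivation.smul_apply, smul_eq_mul]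
    field_simp
    ring
  · rintro z ⟨a, b, hb, hz⟩
    obtain ⟨u, hu, v, hv, e⟩ := hdec a a.2
    obtain ⟨u', hu', v', hv', e'⟩ := hdec b b.2
    have hbinv := inv_mem_ptLoc hb
    have hb0 : (b : K) ≠ 0 := by
      intro h0
      apply hb
      have : b = 0 := Subtype.ext h0
      rw [this, map_zero]
    have hβ : algebraMap k K (χ b) ≠ 0 := by
      rw [Ne, map_eq_zero]
      exact hb
    refine ⟨χ a / χ b, (u - z * u') * (algebraMap k K (χ b))⁻¹, ?_,
      (v - z * v') * (algebraMap k K (χ b))⁻¹, ?_, ?_⟩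
    · refine mul_mem (sub_mem (hQR' hu) (mul_mem ⟨a, b, hb, hz⟩ (hQR' hu'))) ?_
      rw [← map_inv₀]
      exact Subalgebra.algebraMap_mem _ _
    · refine mul_mem (sub_mem (hQR' hv) (mul_mem ⟨a, b, hb, hz⟩ (hQR' hv'))) ?_
      rw [← map_inv₀]
      exact Subalgebra.algebraMap_mem _ _
    · have e1 : (a : K) = algebraMap k K (χ a) + x * u + (y / x - algebraMap k K c) * v := e
      have e2 : (b : K) = algebraMap k K (χ b) + x * u' + (y / x - algebraMap k K c) * v' := e'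
      have key : z * algebraMap k K (χ b) = algebraMap k K (χ a) + x * (u - z * u') +
          (y / x - algebraMap k K c) * (v - z * v') := by
        linear_combination hz + e1 - z * e2
      calc z = z * algebraMap k K (χ b) * (algebraMap k K (χ b))⁻¹ := by
            rw [mul_inv_cancel_right₀ hβ]
        _ = _ := by
            rw [key, map_div₀]
            ring
  · rintro z ⟨a, b, hb, hz⟩ hno
    have ha : χ a ≠ 0 := by
      intro ha
      obtain ⟨u, hu, v, hv, e⟩ := hdec a a.2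
      have e1 : (a : K) = algebraMap k K (χ a) + x * u + (y / x - algebraMap k K c) * v := e
      rw [ha, map_zero, zero_add] at e1
      have hb0 : (b : K) ≠ 0 := by
        intro h0
        apply hb
        have : b = 0 := Subtype.ext h0
        rw [this, map_zero]
      refine hno (u * (b : K)⁻¹) (mul_mem (hQR' hu) (inv_mem_ptLoc hb)) (v * (b : K)⁻¹)
        (mul_mem (hQR' hv) (inv_mem_ptLoc hb)) ?_
      rw [← mul_assoc, ← mul_assoc, ← add_mul, ← e1, ← hz, mul_inv_cancel_right₀ hb0]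
    have ha0 : (a : K) ≠ 0 := by
      intro h0
      apply ha
      have : a = 0 := Subtype.ext h0
      rw [this, map_zero]
    refine ⟨b, a, ha, ?_⟩
    have hz0 : z ≠ 0 := by
      rintro rfl
      rw [zero_mul] at hz
      exact ha0 hz.symm
    rw [← hz, inv_mul_cancel_left₀ hz0]
  · rintro u ⟨a, b, hb, hu⟩ v ⟨a', b', hb', hv⟩ h1
    have h2 : (b * b' : Q) = ⟨x, hxQ⟩ * (a * b') + ⟨_, hŷ⟩ * (a' * b) := by
      refine Subtype.ext ?_
      push_cast
      rw [← hu, ← hv]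
      linear_combination ((b : K) * b') * h1
    have h3 := congrArg χ h2
    simp only [map_add, map_mul, hχx, hχŷ, zero_mul, add_zero] at h3
    exact mul_ne_zero hb hb' h3
  · obtain ⟨C, χ₀, hxC, hyC, hR, hχ₀x, hχ₀y, het⟩ := h.et
    have hCR : C ≤ R := by
      rw [hR]
      exact le_ptLoc χ₀
    set C' := Algebra.adjoin k ((C : Set K) ∪ {y / x}) with hC'
    have hCC' : C ≤ C' := fun z hz => Algebra.subset_adjoin (Or.inl hz)
    have hC'Q : C' ≤ Q := by
      rw [hQdef]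
      exact Algebra.adjoin_mono (Set.union_subset_union_left _ hCR)
    have hTC' : y / x ∈ C' := Algebra.subset_adjoin (Or.inr rfl)
    have hŷC' : y / x - algebraMap k K c ∈ C' := sub_mem hTC' (Subalgebra.algebraMap_mem _ _)
    refine ⟨C', χ.comp (Subalgebra.inclusion hC'Q), hCC' hxC, hŷC', ?_, hχx _, hχŷ,
      etale_chart hx0 hxC hyC het c _ _⟩
    -- clearing denominators
    have hclear : ∀ a ∈ Q, ∃ s : C, (∀ hs, χ ⟨(s : K), hs⟩ ≠ 0) ∧ (s : K) * a ∈ C' := by
      refine qt_induction hQdef (fun z hz => ?_) ?_ (fun r => ?_) (fun a ha b hb h1 h2 => ?_)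
        (fun a ha b hb h1 h2 => ?_)
      · have hz' : z ∈ ptLoc C χ₀ := hR ▸ hz
        obtain ⟨a, b, hb, e⟩ := hz'
        refine ⟨b, fun hs h0 => ?_, ?_⟩
        · have hbR : (b : K)⁻¹ ∈ R := hR ▸ inv_mem_ptLoc hb
          have hb0 : (b : K) ≠ 0 := by
            intro h0
            apply hb
            have : b = 0 := Subtype.ext h0
            rw [this, map_zero]
          have h1 : (⟨(b : K), hs⟩ : Q) * ⟨(b : K)⁻¹, hRQ hbR⟩ = 1 :=
            Subtype.ext (mul_inv_cancel₀ hb0)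
          have h2 := congrArg χ h1
          rw [map_mul, h0, zero_mul, map_one] at h2
          exact zero_ne_one h2
        · rw [mul_comm, e]
          exact hCC' a.2
      · refine ⟨1, fun hs => ?_, ?_⟩
        · have : (⟨((1 : C) : K), hs⟩ : Q) = 1 := rfl
          rw [this, map_one]
          exact one_ne_zero
        · simpa using hTC'
      · refine ⟨1, fun hs => ?_, ?_⟩
        · have : (⟨((1 : C) : K), hs⟩ : Q) = 1 := rfl
          rw [this, map_one]
          exact one_ne_zero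
        · rw [OneMemClass.coe_one, one_mul]
          exact Subalgebra.algebraMap_mem _ _
      · obtain ⟨s, hs, hsa⟩ := h1
        obtain ⟨t, ht, htb⟩ := h2
        refine ⟨s * t, fun hst => ?_, ?_⟩
        · have : (⟨((s * t : C) : K), hst⟩ : Q) =
            ⟨(s : K), hRQ (hCR s.2)⟩ * ⟨(t : K), hRQ (hCR t.2)⟩ := rfl
          rw [this, map_mul]
          exact mul_ne_zero (hs _) (ht _)
        · have : ((s * t : C) : K) * (a + b) = t * (s * a) + s * (t * b) := by
            push_cast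
            ring
          rw [this]
          exact add_mem (mul_mem (hCC' t.2) hsa) (mul_mem (hCC' s.2) htb)
      · obtain ⟨s, hs, hsa⟩ := h1
        obtain ⟨t, ht, htb⟩ := h2
        refine ⟨s * t, fun hst => ?_, ?_⟩
        · have : (⟨((s * t : C) : K), hst⟩ : Q) =
            ⟨(s : K), hRQ (hCR s.2)⟩ * ⟨(t : K), hRQ (hCR t.2)⟩ := rfl
          rw [this, map_mul]
          exact mul_ne_zero (hs _) (ht _)
        · have : ((s * t : C) : K) * (a * b) = (s * a) * (t * b) := by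
            push_cast
            ring
          rw [this]
          exact mul_mem hsa htb
    refine le_antisymm ?_ ?_
    · rintro z ⟨a, b, hb, e⟩
      obtain ⟨s, hs, hsa⟩ := hclear a a.2
      obtain ⟨t, ht, htb⟩ := hclear b b.2
      refine ⟨⟨(t : K), hCC' t.2⟩ * ⟨_, hsa⟩, ⟨(s : K), hCC' s.2⟩ * ⟨_, htb⟩, ?_, ?_⟩
      · have h1 : Subalgebra.inclusion hC'Q (⟨(s : K), hCC' s.2⟩ * ⟨_, htb⟩) =
            ⟨(s : K), hRQ (hCR s.2)⟩ * (⟨(t : K), hRQ (hCR t.2)⟩ * b) := rfl
        show χ (Subalgebra.inclusion hC'Q (⟨(s : K), hCC' s.2⟩ * ⟨_, htb⟩)) ≠ 0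
        rw [h1, map_mul, map_mul]
        exact mul_ne_zero (hs _) (mul_ne_zero (ht _) hb)
      · push_cast
        rw [← e]
        ring
    · rintro z ⟨a, b, hb, e⟩
      exact ⟨Subalgebra.inclusion hC'Q a, Subalgebra.inclusion hC'Q b, hb, e⟩

/-- The local rings of the points of the exceptional curve. -/
theorem Reg.qt (h : Reg R x y Dx Dy) {R' : Subalgebra k K} {c : k} (hQ : QT R R' x y c) :
    Reg R' x (y / x - algebraMap k K c) (Dx + (y / x) • Dy) (x • Dy) := by
  obtain ⟨χ, hχx, hχy, rfl⟩ := hQ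
  exact h.qt_aux rfl hχx hχy

end Pool.Agent.MP_b525bf_ag_TS
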