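import Pool.Agent.Lib.MP_b525bf_ag_TS.Loc2
import Pool.Agent.Lib.MP_b525bf_ag_TS.Qt
import Pool.Agent.Lib.MP_b525bf_ag_TS.Change

/-!
# A2: the local rings of the blowing up of a point of a smooth surface; change of coordinates

`Reg.qt` (module `Qt`) and `Reg.change` (module `Change`).
-/
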