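import Pool.Agent.Lib.MP_b525bf_ag_TS.Defs

/-!
# Theorem TS: definitions for the blowing ups of surfaces
-/

set_option autoImplicit false

namespace Pool.Agent.MP_b525bf_ag_TS

section Local

variable {k K : Type} [Field k] [Field K] [Algebra k K]

/-- `z` is a unit of the subring `R` of the field `K`. -/
def UnitIn (R : Subalgebra k K) (z : K) : Prop := z ≠ 0 ∧ z ∈ R ∧ z⁻¹ ∈ R

/-- The localisation of the subalgebra `C` at the point `χ`. -/
def ptLoc (C : Subalgebra k K) (χ : C →ₐ[k] k) : Subalgebra k K where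
  carrier := {z | ∃ a b : C, χ b ≠ 0 ∧ z * (b : K) = a}
  mul_mem' := by
    rintro z w ⟨a, b, hb, h1⟩ ⟨a', b', hb', h2⟩
    refine ⟨a * a', b * b', by rw [map_mul]; exact mul_ne_zero hb hb', ?_⟩
    push_cast
    rw [← h1, ← h2]; ring
  add_mem' := by
    rintro z w ⟨a, b, hb, h1⟩ ⟨a', b', hb', h2⟩
    refine ⟨a * b' + a' * b, b * b', by rw [map_mul]; exact mul_ne_zero hb hb', ?_⟩
    push_cast
    rw [← h1, ← h2]; ring
  algebraMap_mem' r := ⟨algebraMap k C r, 1, by rw [map_one]; exact one_ne_zero, by simp⟩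

/-- `R` is the local ring of a rational point of a smooth surface with étale coordinates `x`, `y`
and dual derivations `Dx`, `Dy`. -/
structure Reg (R : Subalgebra k K) (x y : K) (Dx Dy : Derivation k K K) : Prop where
  hx : x ∈ R
  hy : y ∈ R
  xx : Dx x = 1
  xy : Dx y = 0
  yx : Dy x = 0
  yy : Dy y = 1
  Dx_mem : ∀ z ∈ R, Dx z ∈ R
  Dy_mem : ∀ z ∈ R, Dy z ∈ R
  comm : ∀ z, Dx (Dy z) = Dy (Dx z)
  basis : ∀ D : Derivation k K K, D = D x • Dx + D y • Dy
  dec : ∀ z ∈ R, ∃ c : k, ∃ u ∈ R, ∃ v ∈ R, z = algebraMap k K c + x * u + y * v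
  inv : ∀ z ∈ R, (∀ u ∈ R, ∀ v ∈ R, z ≠ x * u + y * v) → z⁻¹ ∈ R
  one : ∀ u ∈ R, ∀ v ∈ R, (1 : K) ≠ x * u + y * v
  et : ∃ (C : Subalgebra k K) (χ : C →ₐ[k] k) (hx : x ∈ C) (hy : y ∈ C),
    R = ptLoc C χ ∧ χ ⟨x, hx⟩ = 0 ∧ χ ⟨y, hy⟩ = 0 ∧
    (MvPolynomial.aeval ![(⟨x, hx⟩ : C), ⟨y, hy⟩] :
      MvPolynomial (Fin 2) k →ₐ[k] C).toRingHom.Etale

/-- The maximal ideal of `R`. -/
def mx (R : Subalgebra k K) : Set K := {z | z ∈ R ∧ (z = 0 ∨ z⁻¹ ∉ R)}

/-- The chart `R[y/x]` of the blowing up of the closed point. -/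
def qt (R : Subalgebra k K) (x y : K) : Subalgebra k K :=
  Algebra.adjoin k ((R : Set K) ∪ {y / x})

/-- `R'` is the local ring of the point `y / x = c` of the exceptional curve of the blowing up of
the closed point of `R`. -/
def QT (R R' : Subalgebra k K) (x y : K) (c : k) : Prop :=
  ∃ χ : qt R x y →ₐ[k] k, (∀ h, χ ⟨x, h⟩ = 0) ∧ (∀ h, χ ⟨y / x, h⟩ = c) ∧ R' = ptLoc (qt R x y) χ

/-- `V` is the localisation of `R` at the prime ideal generated by `x`. -/
def Val (R : Subalgebra k K) (x : K) (V : Subalgebra k K) : Prop :=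
  x ∈ R ∧ R ≤ V ∧ x⁻¹ ∉ V ∧ ∀ z ∈ R, (∀ u ∈ R, z ≠ x * u) → z⁻¹ ∈ V

/-- An object: a function and a form. -/
structure Obj (k K : Type) [Field k] [Field K] [Algebra k K] where
  /-- the function -/
  h : K
  /-- the form -/
  ω : Derivation k K K →ₗ[K] K

/-- The form is closed, and the function is zero or a primitive of the form. -/
def Obj.Closed (θ : Obj k K) : Prop :=
  (∀ D D' : Derivation k K K, D (θ.ω D') - D' (θ.ω D) = θ.ω ⁅D, D'⁆) ∧
    (θ.h = 0 ∨ ∀ D, θ.ω D = D θ.h)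

/-- The logarithmic derivation `x ∂ₓ` if `x` is a boundary coordinate (`s = true`), else `∂ₓ`. -/
def lD (s : Bool) (x : K) (D : Derivation k K K) : Derivation k K K := if s then x • D else D

/-- The ideal of coefficients of `θ / γ` as a logarithmic object. -/
def Jw (θ : Obj k K) (R : Subalgebra k K) (x y : K) (Dx Dy : Derivation k K K)
    (s t : Bool) (γ : K) : Ideal R :=
  Ideal.span {z : R | (z : K) = θ.h / γ ∨ (z : K) = θ.ω (lD s x Dx) / γ ∨
    (z : K) = θ.ω (lD t y Dy) / γ}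

/-- `θ / γ` is a logarithmic object with isolated zeros. -/
structure Ad (θ : Obj k K) (R : Subalgebra k K) (x y : K)
    (Dx Dy : Derivation k K K) (s t : Bool) (γ : K) : Prop where
  ne : γ ≠ 0
  gx : lD s x Dx γ / γ ∈ R
  gy : lD t y Dy γ / γ ∈ R
  ah : θ.h / γ ∈ R
  ax : θ.ω (lD s x Dx) / γ ∈ R
  ay : θ.ω (lD t y Dy) / γ ∈ R
  fin : FiniteDimensional k (R ⧸ Jw θ R x y Dx Dy s t γ)

/-- The invariant. -/
noncomputable def inv2 (θ : Obj k K) (R : Subalgebra k K) (x y : K)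
    (Dx Dy : Derivation k K K) (s t : Bool) (γ : K) : ℕ :=
  2 * Module.finrank k (R ⧸ Jw θ R x y Dx Dy s t γ) + if s = t then 0 else 1

end Local

section Model

variable {k K : Type} [Field k] [Field K] [Algebra k K] (B : Subalgebra k K) {E : Type}
  [Fintype E]

/-- `h` is a nonzero tuple of elements of the ideals `J`. -/
def TupIn (J : E → Ideal B) (h : E → K) : Prop :=
  ∀ i, h i ≠ 0 ∧ ∃ w : B, w ∈ J i ∧ (w : K) = h i

/-- The chart `B[J i / h i]` of the blowing up of the ideals `J i`. -/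
def chartF (J : E → Ideal B) (h : E → K) : Subalgebra k K :=
  Algebra.adjoin k ((B : Set K) ∪ {z | ∃ i, ∃ w : B, w ∈ J i ∧ z = w / h i})

/-- `R` is the local ring of a rational point of the blowing up of the ideals `J i`. -/
def Pt (J : E → Ideal B) (R : Subalgebra k K) : Prop :=
  ∃ h, TupIn B J h ∧ ∃ χ : chartF B J h →ₐ[k] k, R = ptLoc (chartF B J h) χ

/-- `h i` generates `J i R`. -/
def GenAt (J : E → Ideal B) (R : Subalgebra k K) (h : E → K) : Prop :=
  TupIn B J h ∧ ∀ i, ∀ w : B, w ∈ J i → (w : K) / h i ∈ R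

/-- The local equation of the divisor with degree `e j`. -/
noncomputable def xi (h : E → K) (e : E → E → ℤ) (j : E) : K :=
  ∏ i, h i ^ e j i

/-- The local data of the boundary at the point `R`: the divisor `j` has the local equation `x` if
`b j = some false`, `y` if `b j = some true`, and does not pass through the point otherwise. -/
structure PtNc (J : E → Ideal B) (e : E → E → ℤ) (V : E → Subalgebra k K)
    (R : Subalgebra k K) (h : E → K) (x y : K) (Dx Dy : Derivation k K K)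
    (s t : Bool) (b : E → Option Bool) : Prop where
  gen : GenAt B J R h
  reg : Reg R x y Dx Dy
  b0 : ∀ j, b j = none → UnitIn R (xi h e j)
  bx : ∀ j, b j = some false → UnitIn R (xi h e j / x)
  by' : ∀ j, b j = some true → UnitIn R (xi h e j / y)
  s_iff : s = true ↔ ∃ j, b j = some false
  t_iff : t = true ↔ ∃ j, b j = some true
  inj : ∀ j j', b j ≠ none → b j = b j' → j = j'
  val : ∀ j, b j ≠ none → Val R (xi h e j) (V j)

/-- A model with a boundary with normal crossings. -/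
structure Nc2 (J : E → Ideal B) (e : E → E → ℤ) (V : E → Subalgebra k K) : Prop where
  ne : ∀ i, J i ≠ ⊥
  span : ∀ d : E → ℤ, ∃ n : E → ℤ, d = ∑ j, n j • e j
  pt : ∀ R, Pt B J R → ∃ h x y Dx Dy s t b, PtNc B J e V R h x y Dx Dy s t b

/-- A stage: a model with boundary and exponents of the object along the components. -/
structure Stage2 (θ : Obj k K) (J : E → Ideal B) (e : E → E → ℤ) (V : E → Subalgebra k K)
    (α : E → ℤ) : Prop where
  ne : ∀ i, J i ≠ ⊥
  span : ∀ d : E → ℤ, ∃ n : E → ℤ, d = ∑ j, n j • e j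
  pt : ∀ R, Pt B J R → ∃ h x y Dx Dy s t b, PtNc B J e V R h x y Dx Dy s t b ∧
    Ad θ R x y Dx Dy s t (∏ j, xi h e j ^ α j)

/-- The object is clean at `R` or the invariant is at most `m`. -/
def Lv (θ : Obj k K) (J : E → Ideal B) (e : E → E → ℤ) (V : E → Subalgebra k K)
    (α : E → ℤ) (m : ℕ) (R : Subalgebra k K) : Prop :=
  ∃ h x y Dx Dy s t b, PtNc B J e V R h x y Dx Dy s t b ∧
    Ad θ R x y Dx Dy s t (∏ j, xi h e j ^ α j) ∧
    (Jw θ R x y Dx Dy s t (∏ j, xi h e j ^ α j) = ⊤ ∨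
      inv2 θ R x y Dx Dy s t (∏ j, xi h e j ^ α j) ≤ m)

/-- The curve with local ring `W` is in the boundary. -/
def InBd (J : E → Ideal B) (e : E → E → ℤ) (V : E → Subalgebra k K) (W : Subalgebra k K) : Prop :=
  ∀ R, Pt B J R → R ≤ W → ∃ h x y Dx Dy s t b, PtNc B J e V R h x y Dx Dy s t b ∧
    ∃ j, b j ≠ none ∧ V j = W

end Model

end Pool.Agent.MP_b525bf_ag_TS
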