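import Pool.Agent.Lib.MP_b525bf_ag_TS.Twist
import Pool.Agent.Lib.MP_b525bf_ag_TS.SDefs

/-!
# Theorem TS, auxiliary file for B6: neighbourhoods of a point with étale coordinates
-/

set_option autoImplicit false

namespace Pool.Agent.MP_b525bf_ag_TS

section Away

variable {k K : Type} [Field k] [Field K] [Algebra k K]

/-- The subalgebra `C[1/f]`. -/
def awaySub (C : Subalgebra k K) {f : K} (hf : f ∈ C) : Subalgebra k K where
  carrier := {z | ∃ n : ℕ, z * f ^ n ∈ C}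
  mul_mem' := by
    rintro z w ⟨n, hn⟩ ⟨m, hm⟩
    refine ⟨n + m, ?_⟩
    have := C.mul_mem hn hm
    convert this using 1
    ring
  add_mem' := by
    rintro z w ⟨n, hn⟩ ⟨m, hm⟩
    refine ⟨n + m, ?_⟩
    have h1 := C.mul_mem hn (C.pow_mem hf m)
    have h2 := C.mul_mem hm (C.pow_mem hf n)
    have := C.add_mem h1 h2
    convert this using 1
    ring
  algebraMap_mem' r := ⟨0, by rw [pow_zero, mul_one]; exact C.algebraMap_mem r⟩

variable {C : Subalgebra k K} {f : K} (hf : f ∈ C)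

theorem le_awaySub : C ≤ awaySub C hf := fun z hz => ⟨0, by rw [pow_zero, mul_one]; exact hz⟩

theorem inv_mem_awaySub (hf0 : f ≠ 0) : f⁻¹ ∈ awaySub C hf := ⟨1, by
  rw [pow_one, inv_mul_cancel₀ hf0]; exact C.one_mem⟩

theorem isLocalization_awaySub (hf0 : f ≠ 0) :
    @IsLocalization.Away C _ (⟨f, hf⟩ : C) (awaySub C hf) _
      (Subalgebra.inclusion (le_awaySub hf)).toRingHom.toAlgebra := by
  let _ := (Subalgebra.inclusion (le_awaySub hf)).toRingHom.toAlgebra
  refine IsLocalization.Away.mk _ ?_ ?_ ?_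
  · refine IsUnit.of_mul_eq_one (⟨f⁻¹, inv_mem_awaySub hf hf0⟩ : awaySub C hf) ?_
    exact Subtype.ext (mul_inv_cancel₀ hf0)
  · rintro ⟨z, n, hn⟩
    exact ⟨n, ⟨z * f ^ n, hn⟩, Subtype.ext rfl⟩
  · intro a b h
    refine ⟨0, ?_⟩
    have : a = b := Subtype.ext (congrArg (Subtype.val : awaySub C hf → K) h)
    rw [this]

theorem formallySmooth_awaySub (hf0 : f ≠ 0) :
    (Subalgebra.inclusion (le_awaySub hf)).toRingHom.FormallySmooth := by
  let _ := (Subalgebra.inclusion (le_awaySub hf)).toRingHom.toAlgebra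
  have := isLocalization_awaySub hf hf0
  exact RingHom.FormallySmooth.holdsForLocalizationAway (awaySub C hf) (⟨f, hf⟩ : C)

theorem awaySub_fg (hC : C.FG) (hf0 : f ≠ 0) : (awaySub C hf).FG := by
  rw [Subalgebra.fg_iff_finiteType] at hC ⊢
  let _ := (Subalgebra.inclusion (le_awaySub hf)).toRingHom.toAlgebra
  have := isLocalization_awaySub hf hf0
  have h1 : Algebra.FinitePresentation C (awaySub C hf) :=
    IsLocalization.Away.finitePresentation (⟨f, hf⟩ : C)
  have h2 : IsScalarTower k C (awaySub C hf) := IsScalarTower.of_algebraMap_eq fun r => rfl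
  have h3 : Algebra.FiniteType C (awaySub C hf) := inferInstance
  exact Algebra.FiniteType.trans hC h3

theorem le_ptLoc' (C : Subalgebra k K) (χ : C →ₐ[k] k) : C ≤ ptLoc C χ := fun z hz =>
  ⟨⟨z, hz⟩, 1, by rw [map_one]; exact one_ne_zero, by simp⟩

theorem awaySub_le_ptLoc {χ : C →ₐ[k] k} (hχ : χ ⟨f, hf⟩ ≠ 0) : awaySub C hf ≤ ptLoc C χ := by
  rintro z ⟨n, hn⟩
  exact ⟨⟨z * f ^ n, hn⟩, ⟨f, hf⟩ ^ n, by rw [map_pow]; exact pow_ne_zero _ hχ, rfl⟩

/-- Finitely generated subalgebras of the local ring are contained in a neighbourhood. -/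
theorem exists_awaySub (χ : C →ₐ[k] k) {D : Subalgebra k K} (hD : D.FG) (hle : D ≤ ptLoc C χ) :
    ∃ (f : K) (hf : f ∈ C), χ ⟨f, hf⟩ ≠ 0 ∧ D ≤ awaySub C hf := by
  classical
  obtain ⟨S, hS⟩ := hD
  have key : ∀ S : Finset K, (∀ z ∈ S, z ∈ ptLoc C χ) → ∃ (f : K) (hf : f ∈ C),
      χ ⟨f, hf⟩ ≠ 0 ∧ ∀ z ∈ S, z * f ∈ C := by
    intro S
    induction S using Finset.induction_on with
    | empty => exact fun _ => ⟨1, C.one_mem, by
        have : (⟨1, C.one_mem⟩ : C) = 1 := rfl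
        rw [this, map_one]; exact one_ne_zero, by simp⟩
    | insert z S _ ih =>
      intro h
      obtain ⟨f, hf, hχ, hf'⟩ := ih fun w hw => h w (Finset.mem_insert_of_mem hw)
      obtain ⟨a, b, hb, hab⟩ := h z (Finset.mem_insert_self z S)
      refine ⟨f * b, C.mul_mem hf b.2, ?_, ?_⟩
      · have : (⟨f * b, C.mul_mem hf b.2⟩ : C) = ⟨f, hf⟩ * b := rfl
        rw [this, map_mul]
        exact mul_ne_zero hχ hb
      · intro w hw
        rcases Finset.mem_insert.1 hw with rfl | hw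
        · have : w * (f * b) = f * a := by rw [← hab]; ring
          rw [this]
          exact C.mul_mem hf a.2
        · rw [← mul_assoc]
          exact C.mul_mem (hf' w hw) b.2
  obtain ⟨f, hf, hχ, h⟩ := key S fun z hz => hle (by
    rw [← hS]; exact Algebra.subset_adjoin hz)
  refine ⟨f, hf, hχ, ?_⟩
  rw [← hS]
  exact Algebra.adjoin_le fun z hz => ⟨1, by rw [pow_one]; exact h z hz⟩

end Away

section Coord

variable {k K : Type} [Field k] [Field K] [Algebra k K]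
  {R : Subalgebra k K} {x y : K} {Dx Dy : Derivation k K K}

theorem Reg.not_unit_of_eq (h : Reg R x y Dx Dy) {z a b : K} (hz : UnitIn R z) (ha : a ∈ R)
    (hb : b ∈ R) : z ≠ x * a + y * b := by
  intro e
  refine h.one (a * z⁻¹) (R.mul_mem ha hz.2.2) (b * z⁻¹) (R.mul_mem hb hz.2.2) ?_
  have h1 : (1 : K) = z * z⁻¹ := (mul_inv_cancel₀ hz.1).symm
  rw [h1]
  nth_rewrite 1 [e]
  ring

theorem Reg.unitIn_of (h : Reg R x y Dx Dy) {z : K} (hz : z ∈ R)
    (hz' : ∀ u ∈ R, ∀ v ∈ R, z ≠ x * u + y * v) : UnitIn R z := by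
  refine ⟨?_, hz, h.inv z hz hz'⟩
  rintro rfl
  exact hz' 0 R.zero_mem 0 R.zero_mem (by ring)

/-- A unit plus an element of the maximal ideal is a unit. -/
theorem Reg.unitIn_add (h : Reg R x y Dx Dy) {z a b : K} (hz : UnitIn R z) (ha : a ∈ R)
    (hb : b ∈ R) : UnitIn R (z + x * a + y * b) := by
  refine h.unitIn_of (R.add_mem (R.add_mem hz.2.1 (R.mul_mem h.hx ha)) (R.mul_mem h.hy hb)) ?_
  intro u hu v hv e
  refine h.not_unit_of_eq hz (R.sub_mem hu ha) (R.sub_mem hv hb) ?_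
  have : z = (x * u + y * v) - x * a - y * b := by rw [← e]; ring
  rw [this]
  ring

theorem Reg.x_mx (h : Reg R x y Dx Dy) {u : K} (hu : u ∈ R) : x * u ∈ mx R := by
  refine ⟨R.mul_mem h.hx hu, ?_⟩
  by_contra hcon
  push Not at hcon
  have h1 : UnitIn R (x * u) := ⟨hcon.1, R.mul_mem h.hx hu, hcon.2⟩
  exact h.not_unit_of_eq h1 hu R.zero_mem (by ring)

theorem Reg.y_mx (h : Reg R x y Dx Dy) {u : K} (hu : u ∈ R) : y * u ∈ mx R := by
  refine ⟨R.mul_mem h.hy hu, ?_⟩
  by_contra hcon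
  push Not at hcon
  have h1 : UnitIn R (y * u) := ⟨hcon.1, R.mul_mem h.hy hu, hcon.2⟩
  exact h.not_unit_of_eq h1 R.zero_mem hu (by ring)

theorem unitIn_one (R : Subalgebra k K) : UnitIn R 1 :=
  ⟨one_ne_zero, R.one_mem, by rw [inv_one]; exact R.one_mem⟩

end Coord

end Pool.Agent.MP_b525bf_ag_TS
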