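import Pool.Agent.Lib.MP_b525bf_ag_TS.TorsA
import Pool.Agent.Lib.MP_b525bf_ag_TS.Away

/-!
# B6b: the charts of the multi Rees algebra
-/

set_option autoImplicit false

namespace Pool.Agent.MP_b525bf_ag_TS

open Pool.Agent.MP_b525bf_ag Pool.Agent.MP_b525bf_ag_W Pool.Agent.MP_b525bf_ag_P AddMonoidAlgebra

open scoped Classical

variable {k K : Type} [Field k] [Field K] [Algebra k K] {E : Type} [Fintype E]

/-! ### Rescaling of coordinates -/

section Scale

variable {R : Subalgebra k K} {x y : K} {Dx Dy : Derivation k K K}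

theorem Reg.scale (h : Reg R x y Dx Dy) {u v : K} (hu : UnitIn R u) (hv : UnitIn R v) :
    ∃ Dx' Dy' : Derivation k K K, Reg R (x * u) (y * v) Dx' Dy' := by
  have hdet : UnitIn R (Dx (x * u) * Dy (y * v) - Dx (y * v) * Dy (x * u)) := by
    have e : Dx (x * u) * Dy (y * v) - Dx (y * v) * Dy (x * u) =
        u * v + x * (Dx u * (y * Dy v + v)) + y * (u * Dy v - x * (Dx v * Dy u)) := by
      simp only [Derivation.leibniz, smul_eq_mul, h.xx, h.xy, h.yx, h.yy]
      ring
    rw [e]
    have h1 := h.Dx_mem u hu.2.1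
    have h2 := h.Dy_mem u hu.2.1
    have h3 := h.Dx_mem v hv.2.1
    have h4 := h.Dy_mem v hv.2.1
    refine h.unitIn_add (hu.mul hv) ?_ ?_
    · exact R.mul_mem h1 (R.add_mem (R.mul_mem h.hy h4) hv.2.1)
    · exact R.sub_mem (R.mul_mem hu.2.1 h4) (R.mul_mem h.hx (R.mul_mem h3 h2))
  exact ⟨_, _, h.change (h.x_mx hu.2.1) (h.y_mx hv.2.1) hdet⟩

end Scale

/-! ### Units of families -/

section Units

variable {ι : Type} [AddCommGroup ι] {N : Fam k K ι}

theorem isU_one (N : Fam k K ι) : IsU N 0 1 :=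
  ⟨one_ne_zero, N.one', by rw [inv_one, neg_zero]; exact N.one'⟩

theorem isU_pow {d : ι} {x : K} (hx : IsU N d x) (n : ℕ) : IsU N (n • d) (x ^ n) := by
  induction n with
  | zero => rw [zero_nsmul, pow_zero]; exact isU_one N
  | succ n ih => rw [succ_nsmul, pow_succ]; exact ih.mul hx

theorem isU_zpow {d : ι} {x : K} (hx : IsU N d x) (n : ℤ) : IsU N (n • d) (x ^ n) := by
  cases n with
  | ofNat n =>
    rw [Int.ofNat_eq_natCast, natCast_zsmul, zpow_natCast]
    exact isU_pow hx n
  | negSucc n =>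
    rw [zpow_negSucc, negSucc_zsmul]
    exact (isU_pow hx (n + 1)).inv

theorem isU_prod {S : Type} (s : Finset S) {d : S → ι} {x : S → K}
    (hx : ∀ i ∈ s, IsU N (d i) (x i)) : IsU N (∑ i ∈ s, d i) (∏ i ∈ s, x i) := by
  induction s using Finset.induction_on with
  | empty => rw [Finset.sum_empty, Finset.prod_empty]; exact isU_one N
  | insert i s hi ih =>
    rw [Finset.sum_insert hi, Finset.prod_insert hi]
    exact (hx i (Finset.mem_insert_self i s)).mul
      (ih fun j hj => hx j (Finset.mem_insert_of_mem hj))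

theorem sum_uvec (d : E → ℤ) : ∑ i, d i • uvec i = d := by
  funext j
  rw [Finset.sum_apply, Finset.sum_eq_single j]
  · simp [uvec]
  · intro i _ hij
    simp [uvec, Pi.single_eq_of_ne (Ne.symm hij)]
  · intro h
    exact absurd (Finset.mem_univ j) h

theorem isU_mon {N : Fam k K (E → ℤ)} {g : E → K} (hg : ∀ i, IsU N (uvec i) (g i)) (d : E → ℤ) :
    IsU N d (mon g d) := by
  have h := isU_prod (N := N) Finset.univ (fun i _ => isU_zpow (hg i) (d i))
  rw [sum_uvec] at h
  exact h

/-- Units of degree zero times units. -/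
theorem isU_unit_mul {N : Fam k K ι} {R : Subalgebra k K} (hR : ∀ z ∈ R, z ∈ N.s 0) {v : K}
    (hv : UnitIn R v) : IsU N 0 v :=
  ⟨hv.1, hR _ hv.2.1, by rw [neg_zero]; exact hR _ hv.2.2⟩

end Units

variable {B : Subalgebra k K} {J : E → Ideal B} {e : E → E → ℤ} {V : E → Subalgebra k K}

theorem mon_uvec (g : E → K) (i : E) : mon g (uvec i) = g i := by
  rw [mon, Finset.prod_eq_single i]
  · simp [uvec]
  · intro j _ hj
    rw [uvec, Pi.single_eq_of_ne hj, zpow_zero]
  · intro h
    exact absurd (Finset.mem_univ i) h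

theorem xi_eq_mon (g : E → K) (e : E → E → ℤ) (j : E) : xi g e j = mon g (e j) := rfl

/-- The point below a semistable prime. -/
theorem Nc2.exists_pt [IsAlgClosed k] (hB : B.FG) (h : Nc2 B J e V)
    (q : Ideal (mrees B J e).alg) [q.IsPrime] (hq : Semi (mrees B J e) (fun _ => 1) q) :
    ∃ (g : E → K) (χ : chartF B J g →ₐ[k] k), TupIn B J g ∧
      (∀ i, IsU (atP (mrees B J e) q) (uvec i) (g i)) ∧
      Pt B J (ptLoc (chartF B J g) χ) ∧ GenAt B J (ptLoc (chartF B J g) χ) g ∧
      ∀ z ∈ ptLoc (chartF B J g) χ, z ∈ (atP (mrees B J e) q).s 0 := by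
  obtain ⟨g, hg, hU⟩ := h.exists_unit_gens hB q hq
  obtain ⟨χ, hχ⟩ := h.exists_point hB q hg hU
  exact ⟨g, χ, hg, hU, ⟨g, hg, χ, rfl⟩, ⟨hg, fun i w hw =>
    le_ptLoc' _ _ (Algebra.subset_adjoin (Or.inr ⟨i, w, hw, rfl⟩))⟩, hχ⟩

omit [Fintype E] in
theorem mem_mrees_gens {F : AddMonoidAlgebra K (E → ℤ)} (hF : F ∈ mgens B J e) :
    F ∈ Algebra.adjoin k (mgens B J e) := Algebra.subset_adjoin hF

omit [Fintype E] in
theorem mrees_sec (j : E) : (1 : K) ∈ (mrees B J e).s (-(e j)) :=
  mem_mrees_gens (Or.inr ⟨j, rfl⟩)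

omit [Fintype E] in
theorem mrees_neg_uvec (i : E) : (1 : K) ∈ (mrees B J e).s (-(uvec i)) :=
  mem_mrees_gens (Or.inl (Or.inr ⟨i, rfl⟩))

omit [Fintype E] in
theorem mrees_uvec {i : E} {w : B} (hw : w ∈ J i) : (w : K) ∈ (mrees B J e).s (uvec i) :=
  mem_mrees_gens (Or.inl (Or.inl (Or.inr ⟨i, w, hw, rfl⟩)))

theorem one_mem_sum {ι : Type} [AddCommGroup ι] (M : Fam k K ι) {S : Type} (s : Finset S)
    {d : S → ι} (h : ∀ i ∈ s, (1 : K) ∈ M.s (d i)) : (1 : K) ∈ M.s (∑ i ∈ s, d i) := by
  induction s using Finset.induction_on with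
  | empty => rw [Finset.sum_empty]; exact M.one'
  | insert i s hi ih =>
    rw [Finset.sum_insert hi, ← one_mul (1 : K)]
    exact M.mul' (h i (Finset.mem_insert_self i s))
      (ih fun j hj => h j (Finset.mem_insert_of_mem hj))

/-- The section `1` of nonpositive degrees. -/
theorem mrees_nonpos {d : E → ℤ} (hd : ∀ i, d i ≤ 0) : (1 : K) ∈ (mrees B J e).s d := by
  have h := one_mem_sum (mrees B J e) Finset.univ (d := fun i => (-(d i)).toNat • -(uvec i))
    (fun i _ => by
      have := (mrees B J e).pow' (mrees_neg_uvec (B := B) (J := J) (e := e) i) (-(d i)).toNat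
      rwa [one_pow] at this)
  have e1 : ∑ i, (-(d i)).toNat • -(uvec i : E → ℤ) = d := by
    conv_rhs => rw [← sum_uvec d]
    refine Finset.sum_congr rfl fun i _ => ?_
    have h1 : ((-(d i)).toNat : ℤ) = -(d i) := Int.toNat_of_nonneg (by have := hd i; omega)
    rw [← natCast_zsmul, h1, neg_smul_neg]
  rwa [e1] at h

theorem Nc2.int' [IsAlgClosed k] (hB : B.FG) (h : Nc2 B J e V)
    (q : Ideal (mrees B J e).alg) [q.IsPrime] (hq : Semi (mrees B J e) (fun _ => 1) q) :
    IntA (mrees B J e) (fun _ => 1) q := by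
  obtain ⟨g, χ, hg, hU, -, -, -⟩ := h.exists_pt hB q hq
  have hmem : ∀ i, uvec i ∈ (mrees B J e).degs q := by
    intro i
    obtain ⟨-, w, hw, hwg⟩ := hg i
    have h1 : g i ∈ (mrees B J e).s (uvec i) := by rw [← hwg]; exact mrees_uvec hw
    exact ⟨g i, h1, (isU_atP_iff _ q h1).1 (hU i)⟩
  intro d
  refine ⟨(∑ i, (d i).natAbs) + 1, Nat.succ_pos _, 1, one_pos, ?_⟩
  rw [one_nsmul, ← sum_uvec (((∑ i, (d i).natAbs) + 1) • (fun _ : E => (1 : ℤ)) + d)]
  refine sum_mem fun i _ => ?_
  have h1 : (d i).natAbs ≤ ∑ i, (d i).natAbs :=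
    Finset.single_le_sum (f := fun i => (d i).natAbs) (fun _ _ => Nat.zero_le _)
      (Finset.mem_univ i)
  have h2 : (((∑ i, (d i).natAbs) + 1) • (fun _ : E => (1 : ℤ)) + d) i =
      ((((∑ i, (d i).natAbs) + 1 : ℕ) : ℤ) + d i).toNat := by
    rw [Int.toNat_of_nonneg (by omega)]
    simp
  rw [h2, natCast_zsmul]
  exact nsmul_mem (hmem i) _

/-- The chart of the multi Rees algebra at a semistable prime. -/
theorem Nc2.exists_chart [IsAlgClosed k] (hB : B.FG) (h : Nc2 B J e V)
    (q : Ideal (mrees B J e).alg) [q.IsPrime] (hq : Semi (mrees B J e) (fun _ => 1) q) :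
    ∃ (T : Set E) (C : Fam k K (E → ℤ)), Chart (mrees B J e) e q T C := by
  obtain ⟨g, χ, hg, hU, hPt, hgen, hR⟩ := h.exists_pt hB q hq
  set R := ptLoc (chartF B J g) χ with hRdef
  have hg0 : ∀ i, g i ≠ 0 := fun i => (hg i).1
  obtain ⟨h', x, y, Dx, Dy, s, t, b, hp⟩ := h.pt R hPt
  have hxi : ∀ j, UnitIn R (xi g e j / xi h' e j) := fun j => hp.gen.xi_unit hgen e j
  have hxi0 : ∀ j, xi h' e j ≠ 0 := by
    intro j h0
    have := (hxi j).1
    rw [h0, div_zero] at this
    exact this rfl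
  have hx1 : ∀ j, b j = some false → UnitIn R (xi g e j / x) := by
    intro j hj
    have := (hxi j).mul (hp.bx j hj)
    rwa [div_mul_div_cancel₀ (hxi0 j)] at this
  have hy1 : ∀ j, b j = some true → UnitIn R (xi g e j / y) := by
    intro j hj
    have := (hxi j).mul (hp.by' j hj)
    rwa [div_mul_div_cancel₀ (hxi0 j)] at this
  have h01 : ∀ j, b j = none → UnitIn R (xi g e j) := by
    intro j hj
    have := (hxi j).mul (hp.b0 j hj)
    rwa [div_mul_cancel₀ _ (hxi0 j)] at this
  -- the coordinates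
  obtain ⟨u, hu, hu'⟩ : ∃ u, UnitIn R u ∧ ∀ j, b j = some false → xi g e j = x * u := by
    by_cases hh : ∃ j, b j = some false
    · obtain ⟨j, hj⟩ := hh
      refine ⟨xi g e j / x, hx1 j hj, fun j' hj' => ?_⟩
      have : j' = j := hp.inj j' j (by rw [hj']; simp) (by rw [hj', hj])
      rw [this, mul_div_cancel₀]
      exact hp.reg.x_ne
    · exact ⟨1, unitIn_one R, fun j hj => absurd ⟨j, hj⟩ hh⟩
  obtain ⟨v, hv, hv'⟩ : ∃ v, UnitIn R v ∧ ∀ j, b j = some true → xi g e j = y * v := by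
    by_cases hh : ∃ j, b j = some true
    · obtain ⟨j, hj⟩ := hh
      refine ⟨xi g e j / y, hy1 j hj, fun j' hj' => ?_⟩
      have : j' = j := hp.inj j' j (by rw [hj']; simp) (by rw [hj', hj])
      rw [this, mul_div_cancel₀]
      exact hp.reg.symm.x_ne
    · exact ⟨1, unitIn_one R, fun j hj => absurd ⟨j, hj⟩ hh⟩
  obtain ⟨Dx', Dy', hreg⟩ := hp.reg.scale hu hv
  obtain ⟨C₀, χ₀, hx0, hy0, hR0, -, -, het⟩ := hreg.et
  have hC₀ : C₀.FG := by
    rw [Subalgebra.fg_iff_finiteType]
    let φ : MvPolynomial (Fin 2) k →ₐ[k] C₀ :=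
      MvPolynomial.aeval ![(⟨x * u, hx0⟩ : C₀), ⟨y * v, hy0⟩]
    let _ := φ.toRingHom.toAlgebra
    have h1 : Algebra.Etale (MvPolynomial (Fin 2) k) C₀ := het
    have h2 : IsScalarTower k (MvPolynomial (Fin 2) k) C₀ :=
      IsScalarTower.of_algebraMap_eq fun r => (φ.commutes r).symm
    have h3 : Algebra.FiniteType (MvPolynomial (Fin 2) k) C₀ := inferInstance
    exact Algebra.FiniteType.trans inferInstance h3
  have hfs : (MvPolynomial.aeval ![(⟨x * u, hx0⟩ : C₀), ⟨y * v, hy0⟩] :
      MvPolynomial (Fin 2) k →ₐ[k] C₀).toRingHom.FormallySmooth :=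
    ((RingHom.etale_iff_formallyUnramified_and_smooth _).1 het).2.formallySmooth
  -- the neighbourhood
  have hxiR : ∀ j, xi g e j ∈ R := by
    intro j
    rcases hb : b j with _ | _ | _
    · exact (h01 j hb).2.1
    · rw [hu' j hb]
      exact hreg.hx
    · rw [hv' j hb]
      exact hreg.hy
  obtain ⟨f, hf, hχf, hD⟩ := exists_awaySub χ₀
    (D := chartF B J g ⊔ Algebra.adjoin k (Set.range fun j => xi g e j))
    (Subalgebra.FG.sup (chartF_fg hB g)
      (Subalgebra.fg_def.2 ⟨_, Set.finite_range (fun j => xi g e j), rfl⟩)) (by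
      rw [← hR0]
      refine sup_le (le_ptLoc' _ _) (Algebra.adjoin_le ?_)
      rintro _ ⟨j, rfl⟩
      exact hxiR j)
  have hf0 : f ≠ 0 := by
    rintro rfl
    apply hχf
    have : (⟨0, hf⟩ : C₀) = 0 := rfl
    rw [this, map_zero]
  set C' := awaySub C₀ hf with hC'
  have hC'R : C' ≤ R := by rw [hR0]; exact awaySub_le_ptLoc hf hχf
  have hch : chartF B J g ≤ C' := le_sup_left.trans hD
  have hxiC : ∀ j, xi g e j ∈ C' := fun j =>
    hD (le_sup_right (a := chartF B J g) (Algebra.subset_adjoin ⟨j, rfl⟩))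
  have hsec : ∀ j, (1 : K) ∈ (twist C' g hg0).s (-(e j)) := by
    intro j
    rw [mem_twist, mon_neg, one_div, inv_inv]
    exact hxiC j
  -- the smoothness
  let τ : {j | b j ≠ none} → Fin 2 := fun j => if b j = some false then 0 else 1
  have hτ : Function.Injective τ := by
    intro j j' hjj
    refine Subtype.ext (hp.inj j j' j.2 ?_)
    rcases hb : b j with _ | _ | _
    · exact absurd hb j.2
    · have h1 : τ j = 0 := if_pos hb
      rw [h1] at hjj
      by_contra h2
      have h3 : τ j' = 1 := if_neg fun h4 => h2 h4.symm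
      rw [h3] at hjj
      exact absurd hjj (by decide)
    · have h1 : τ j = 1 := if_neg (by rw [hb]; simp)
      rw [h1] at hjj
      rcases hb' : b j' with _ | _ | _
      · exact absurd hb' j'.2
      · have h3 : τ j' = 0 := if_pos hb'
        rw [h3] at hjj
        exact absurd hjj (by decide)
      · rfl
  have hξfs : (MvPolynomial.aeval (fun j : {j | b j ≠ none} => (⟨xi g e j, hxiC j⟩ : C')) :
      MvPolynomial {j | b j ≠ none} k →ₐ[k] C').toRingHom.FormallySmooth := by
    have h1 := ((formallySmooth_rename (k := k) τ hτ).comp hfs).comp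
      (formallySmooth_awaySub hf hf0)
    convert h1 using 1
    refine MvPolynomial.ringHom_ext (fun c => ?_) fun j => ?_
    · simp
      rfl
    · have h2 : (MvPolynomial.aeval ![(⟨x * u, hx0⟩ : C₀), ⟨y * v, hy0⟩] :
          MvPolynomial (Fin 2) k →ₐ[k] C₀) (MvPolynomial.X (τ j)) = xi g e j := by
        rw [MvPolynomial.aeval_X]
        rcases hb : b j with _ | _ | _
        · exact absurd hb j.2
        · have h1 : τ j = 0 := if_pos hb
          rw [h1, hu' j hb]
          rfl
        · have h1 : τ j = 1 := if_neg (by rw [hb]; simp)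
          rw [h1, hv' j hb]
          rfl
      refine Subtype.ext ?_
      simp only [AlgHom.toRingHom_eq_coe, RingHom.coe_coe, RingHom.comp_apply,
        MvPolynomial.aeval_X, MvPolynomial.rename_X, Subalgebra.coe_inclusion]
      rw [MvPolynomial.aeval_X] at h2
      exact h2.symm
  have hge : ∀ d, (twist C' g hg0).s d ≤ (atP (mrees B J e) q).s d := by
    intro d z hz
    have h1 := (atP (mrees B J e) q).mul' (hR _ (hC'R hz)) (isU_mon hU d).2.1
    rwa [div_mul_cancel₀ _ (mon_ne hg0 d), zero_add] at h1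
  refine ⟨{j | b j ≠ none}, twist C' g hg0, ?_, ?_, hge, twist_fg hg0 (awaySub_fg hf hC₀ hf0),
    hsec, twist_smooth hg0 e _ hsec _ (fun _ => rfl) hξfs⟩
  · intro j hj
    have hj' : b j = none := by
      by_contra h1
      exact hj h1
    have h1 := (isU_unit_mul (N := atP (mrees B J e) q) hR (h01 j hj')).inv.mul (isU_mon hU (e j))
    rw [neg_zero, zero_add] at h1
    have h2 : (xi g e j)⁻¹ * mon g (e j) = 1 := inv_mul_cancel₀ (h01 j hj').1
    rw [h2] at h1
    exact h1.2.1
  · have hle : Algebra.adjoin k (mgens B J e) ≤ (twist C' g hg0).alg := by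
      refine Algebra.adjoin_le ?_
      rintro _ (((⟨b, hb, rfl⟩ | ⟨i, w, hw, rfl⟩) | ⟨i, rfl⟩) | ⟨j, rfl⟩)
      · refine Fam.single_mem_alg.2 ?_
        rw [mem_twist, mon_zero, div_one]
        exact hch (Algebra.subset_adjoin (Or.inl hb))
      · refine Fam.single_mem_alg.2 ?_
        rw [mem_twist, mon_uvec]
        exact hch (Algebra.subset_adjoin (Or.inr ⟨i, w, hw, rfl⟩))
      · refine Fam.single_mem_alg.2 ?_
        rw [mem_twist, mon_neg, mon_uvec, one_div, inv_inv]
        obtain ⟨-, w, -, hwg⟩ := hg i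
        rw [← hwg]
        exact hch (Algebra.subset_adjoin (Or.inl w.2))
      · exact Fam.single_mem_alg.2 (hsec j)
    intro d z hz
    exact Fam.single_mem_alg.1 (hle hz)

theorem Nc2.tor [IsAlgClosed k] (hB : B.FG) (h : Nc2 B J e V) :
    Tor (mrees B J e) (fun _ => 1) e where
  fg := mrees_fg hB
  sec := mrees_sec
  neg := fun n => mrees_nonpos fun i => by simp
  nontriv := by
    choose w hw hw0 using fun i => Submodule.exists_mem_ne_zero_of_ne_bot (h.ne i)
    refine ⟨1, one_pos, ∏ i, (w i : K), ?_, Finset.prod_ne_zero_iff.2 fun i _ => ?_⟩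
    · have key : ∀ s : Finset E, ∏ i ∈ s, (w i : K) ∈ (mrees B J e).s (∑ i ∈ s, uvec i) := by
        intro s
        induction s using Finset.induction_on with
        | empty => rw [Finset.prod_empty, Finset.sum_empty]; exact (mrees B J e).one'
        | insert i s hi ih =>
          rw [Finset.prod_insert hi, Finset.sum_insert hi]
          exact (mrees B J e).mul' (mrees_uvec (hw i)) ih
      have h1 : ∑ i : E, uvec i = 1 • (fun _ : E => (1 : ℤ)) := by
        have := sum_uvec (fun _ : E => (1 : ℤ))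
        simpa using this
      rw [← h1]
      exact key _
    · exact fun h0 => hw0 i (Subtype.ext h0)
  gen := fun d => ⟨fun i => -|d i|, mrees_nonpos fun i => neg_nonpos.2 (abs_nonneg _),
    mrees_nonpos fun i => by
      have := le_abs_self (d i)
      simp only [Pi.add_apply]
      omega⟩
  int := fun q _ hq => h.int' hB q hq
  chart := fun q _ hq => h.exists_chart hB q hq

end Pool.Agent.MP_b525bf_ag_TS
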