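import Pool.Agent.Lib.MP_b525bf_ag_TS.InitG
import Pool.Agent.Lib.MP_b525bf_ag_TS.Trans
import Pool.Agent.Lib.MP_b525bf_ag_TS.Prime

/-!
# Helper file for F2: the local ring of a curve and divisibility in the local rings of the model
-/

set_option autoImplicit false

namespace Pool.Agent.MP_b525bf_ag_TS.H41F

open MvPolynomial Pool.Agent.MP_b525bf_ag_TS

variable {k : Type} [Field k]

theorem mem_BB {z : KK k (Fin 2)} : z ∈ BB k (Fin 2) ↔ ∃ p : MvPolynomial (Fin 2) k, (algebraMap (MvPolynomial (Fin 2) k) (KK k (Fin 2))) p = z :=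
  Iff.rfl

theorem coe_mem_BB (p : MvPolynomial (Fin 2) k) : (algebraMap (MvPolynomial (Fin 2) k) (KK k (Fin 2))) p ∈ BB k (Fin 2) := ⟨p, rfl⟩

theorem inj {p q : MvPolynomial (Fin 2) k} (h : (algebraMap (MvPolynomial (Fin 2) k) (KK k (Fin 2))) p = (algebraMap (MvPolynomial (Fin 2) k) (KK k (Fin 2))) q) : p = q :=
  IsFractionRing.injective (MvPolynomial (Fin 2) k) (KK k (Fin 2)) h

theorem ne_zero {p : MvPolynomial (Fin 2) k} (h : p ≠ 0) : (algebraMap (MvPolynomial (Fin 2) k) (KK k (Fin 2))) p ≠ 0 := fun h0 =>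
  h (inj (by rw [h0, map_zero]))

variable {π : MvPolynomial (Fin 2) k} (hπ : Prime π)

theorem BB_le : BB k (Fin 2) ≤ primeLoc π hπ := by
  rintro z ⟨p, rfl⟩
  exact ⟨p, 1, fun h => hπ.not_isUnit (isUnit_of_dvd_one h), by rw [map_one, mul_one]; rfl⟩

theorem inv_mem {p : MvPolynomial (Fin 2) k} (hp : ¬ π ∣ p) : ((algebraMap (MvPolynomial (Fin 2) k) (KK k (Fin 2))) p)⁻¹ ∈ primeLoc π hπ := by
  have h0 : p ≠ 0 := by rintro rfl; exact hp (dvd_zero _)
  exact ⟨1, p, hp, by rw [inv_mul_cancel₀ (ne_zero h0), map_one]⟩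

theorem inv_notMem : ((algebraMap (MvPolynomial (Fin 2) k) (KK k (Fin 2))) π)⁻¹ ∉ primeLoc π hπ := by
  rintro ⟨a, b, hb, h⟩
  apply hb
  refine ⟨a, inj ?_⟩
  rw [map_mul, ← h, ← mul_assoc, mul_inv_cancel₀ (ne_zero hπ.ne_zero), one_mul]

include hπ in
theorem exists_pow_poly {p : MvPolynomial (Fin 2) k} (hp : p ≠ 0) :
    ∃ (n : ℕ) (q : MvPolynomial (Fin 2) k), ¬ π ∣ q ∧ p = π ^ n * q := by
  obtain ⟨q, h, hq⟩ := (FiniteMultiplicity.of_prime_left hπ hp).exists_eq_pow_mul_and_not_dvd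
  exact ⟨_, q, hq, h⟩

/-- Every rational function is a power of `π` times a unit. -/
theorem exists_pow {z : KK k (Fin 2)} (hz : z ≠ 0) :
    ∃ (n : ℤ) (u : KK k (Fin 2)), UnitIn (primeLoc π hπ) u ∧ z = (algebraMap (MvPolynomial (Fin 2) k) (KK k (Fin 2))) π ^ n * u := by
  obtain ⟨a, b, hb, rfl⟩ := IsFractionRing.div_surjective (A := MvPolynomial (Fin 2) k) z
  have hb0 : b ≠ 0 := nonZeroDivisors.ne_zero hb
  have ha0 : a ≠ 0 := by
    rintro rfl
    apply hz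
    rw [map_zero, zero_div]
  obtain ⟨n, a', ha', rfl⟩ := exists_pow_poly hπ ha0
  obtain ⟨m, b', hb', rfl⟩ := exists_pow_poly hπ hb0
  have h1 : (algebraMap (MvPolynomial (Fin 2) k) (KK k (Fin 2))) a' ≠ 0 := ne_zero (by rintro rfl; exact ha' (dvd_zero _))
  have h2 : (algebraMap (MvPolynomial (Fin 2) k) (KK k (Fin 2))) b' ≠ 0 := ne_zero (by rintro rfl; exact hb' (dvd_zero _))
  have h3 : (algebraMap (MvPolynomial (Fin 2) k) (KK k (Fin 2))) π ≠ 0 := ne_zero hπ.ne_zero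
  refine ⟨(n : ℤ) - m, (algebraMap (MvPolynomial (Fin 2) k) (KK k (Fin 2))) a' / (algebraMap (MvPolynomial (Fin 2) k) (KK k (Fin 2))) b', ⟨div_ne_zero h1 h2, ?_, ?_⟩, ?_⟩
  · rw [div_eq_mul_inv]
    exact Subalgebra.mul_mem _ (BB_le hπ (coe_mem_BB a')) (inv_mem hπ hb')
  · rw [inv_div, div_eq_mul_inv]
    exact Subalgebra.mul_mem _ (BB_le hπ (coe_mem_BB b')) (inv_mem hπ ha')
  · rw [map_mul, map_mul, map_pow, map_pow, zpow_sub₀ h3, zpow_natCast, zpow_natCast,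
      mul_div_mul_comm]

/-- A component whose valuation ring meets the local ring of the curve is the curve. -/
theorem eq_of_val {R V : Subalgebra k (KK k (Fin 2))} {ξ : KK k (Fin 2)}
    (hBR : BB k (Fin 2) ≤ R) (hRW : R ≤ primeLoc π hπ) (hV : Val R ξ V)
    (hξ : ξ⁻¹ ∉ primeLoc π hπ) : V = primeLoc π hπ := by
  obtain ⟨h1, h2, h3, h4⟩ := hV
  have hWV : primeLoc π hπ ≤ V := by
    rintro z ⟨a, b, hb, h⟩
    have hb0 : (algebraMap (MvPolynomial (Fin 2) k) (KK k (Fin 2))) b ≠ 0 := ne_zero (by rintro rfl; exact hb (dvd_zero _))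
    have hbV : ((algebraMap (MvPolynomial (Fin 2) k) (KK k (Fin 2))) b)⁻¹ ∈ V := by
      refine h4 _ (hBR (coe_mem_BB b)) fun u hu e => hξ ?_
      have hu0 : u ≠ 0 := by rintro rfl; rw [mul_zero] at e; exact hb0 e
      have hξ0 : ξ ≠ 0 := by rintro rfl; rw [zero_mul] at e; exact hb0 e
      have e2 : ξ⁻¹ = ((algebraMap (MvPolynomial (Fin 2) k) (KK k (Fin 2))) b)⁻¹ * u := by
        rw [e, mul_inv, mul_assoc, inv_mul_cancel₀ hu0, mul_one]
      rw [e2]
      exact Subalgebra.mul_mem _ (inv_mem hπ hb) (hRW hu)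
    have e3 : z = (algebraMap (MvPolynomial (Fin 2) k) (KK k (Fin 2))) a * ((algebraMap (MvPolynomial (Fin 2) k) (KK k (Fin 2))) b)⁻¹ := by
      rw [← h, mul_assoc, mul_inv_cancel₀ hb0, mul_one]
    rw [e3]
    exact Subalgebra.mul_mem _ (h2 (hBR (coe_mem_BB a))) hbV
  apply le_antisymm _ hWV
  intro v hv
  by_contra hvW
  have hv0 : v ≠ 0 := by
    rintro rfl
    exact hvW (Subalgebra.zero_mem _)
  have h5 : (algebraMap (MvPolynomial (Fin 2) k) (KK k (Fin 2))) π ≠ 0 := ne_zero hπ.ne_zero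
  have hπW : (algebraMap (MvPolynomial (Fin 2) k) (KK k (Fin 2))) π ∈ primeLoc π hπ := BB_le hπ (coe_mem_BB π)
  have hinv : ((algebraMap (MvPolynomial (Fin 2) k) (KK k (Fin 2))) π)⁻¹ ∈ V := by
    obtain ⟨n, u, hu, e⟩ := exists_pow hπ hv0
    obtain ⟨m, rfl | rfl⟩ := n.eq_nat_or_neg
    · exfalso
      apply hvW
      rw [e, zpow_natCast]
      exact Subalgebra.mul_mem _ (Subalgebra.pow_mem _ hπW m) hu.2.1
    · rcases m with _ | m
      · exfalso
        apply hvW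
        rw [e]
        simpa using hu.2.1
      · have e2 : ((algebraMap (MvPolynomial (Fin 2) k) (KK k (Fin 2))) π)⁻¹ = v * ((algebraMap (MvPolynomial (Fin 2) k) (KK k (Fin 2))) π ^ m * u⁻¹) := by
          rw [e, zpow_neg, zpow_natCast, pow_succ]
          have := hu.1
          field_simp
        rw [e2]
        exact V.mul_mem hv (hWV (Subalgebra.mul_mem _ (Subalgebra.pow_mem _ hπW m) hu.2.2))
  apply h3
  by_cases hξ0 : ξ = 0
  · rw [hξ0, inv_zero]; exact V.zero_mem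
  obtain ⟨n, u, hu, e⟩ := exists_pow hπ hξ0
  rw [e, mul_inv, ← zpow_neg]
  refine V.mul_mem ?_ (hWV hu.2.2)
  obtain ⟨m, hm | hm⟩ := (-n).eq_nat_or_neg
  · rw [hm, zpow_natCast]
    exact V.pow_mem (hWV hπW) m
  · rw [hm, zpow_neg, zpow_natCast, ← inv_pow]
    exact V.pow_mem hinv m

/-- The localisation of `R` at the prime element `H` is the local ring of the curve. -/
theorem val_of {R : Subalgebra k (KK k (Fin 2))} {H y : KK k (Fin 2)}
    {D1 D2 : Derivation k (KK k (Fin 2)) (KK k (Fin 2))}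
    (hreg : Reg R H y D1 D2) (hBR : BB k (Fin 2) ≤ R)
    (hrep : ∀ r ∈ R, ∃ p q : MvPolynomial (Fin 2) k, r * (algebraMap (MvPolynomial (Fin 2) k) (KK k (Fin 2))) q = (algebraMap (MvPolynomial (Fin 2) k) (KK k (Fin 2))) p ∧ ¬ ∃ u ∈ R, (algebraMap (MvPolynomial (Fin 2) k) (KK k (Fin 2))) q = H * u)
    (hπH : ∃ u ∈ R, (algebraMap (MvPolynomial (Fin 2) k) (KK k (Fin 2))) π = H * u) : Val R H (primeLoc π hπ) := by
  have hB : ∀ p, (algebraMap (MvPolynomial (Fin 2) k) (KK k (Fin 2))) p ∈ R := fun p => hBR (coe_mem_BB p)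
  -- polynomials which are not divisible by `H` are not divisible by `π`
  have hnd : ∀ q : MvPolynomial (Fin 2) k, (¬ ∃ u ∈ R, (algebraMap (MvPolynomial (Fin 2) k) (KK k (Fin 2))) q = H * u) → ¬ π ∣ q := by
    rintro q hq ⟨c, rfl⟩
    apply hq
    obtain ⟨u, hu, e⟩ := hπH
    exact ⟨u * (algebraMap (MvPolynomial (Fin 2) k) (KK k (Fin 2))) c, R.mul_mem hu (hB c), by rw [map_mul, e]; ring⟩
  obtain ⟨c₁, c₂, hc, hc₂⟩ := hrep H hreg.hx
  -- `c₁` is divisible by `H`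
  have hc₁ : π ∣ c₁ := by
    obtain ⟨v, hv, ev⟩ := hπH
    obtain ⟨q₁, q₂, hq, hq₂⟩ := hrep v hv
    have e1 : π * (q₂ * c₂) = c₁ * q₁ := by
      apply inj
      rw [map_mul, map_mul, map_mul, ev, ← hc, ← hq]; ring
    rcases hπ.dvd_or_dvd (⟨_, e1.symm⟩ : π ∣ c₁ * q₁) with h | ⟨q₃, rfl⟩
    · exact h
    · exfalso
      have e2 : q₂ * c₂ = c₁ * q₃ := by
        apply mul_left_cancel₀ hπ.ne_zero
        rw [e1]; ring
      have e3 : ∃ u ∈ R, (algebraMap (MvPolynomial (Fin 2) k) (KK k (Fin 2))) q₂ * (algebraMap (MvPolynomial (Fin 2) k) (KK k (Fin 2))) c₂ = H * u :=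
        ⟨(algebraMap (MvPolynomial (Fin 2) k) (KK k (Fin 2))) c₂ * (algebraMap (MvPolynomial (Fin 2) k) (KK k (Fin 2))) q₃, R.mul_mem (hB _) (hB _), by rw [← map_mul, e2, map_mul, ← hc]; ring⟩
      rcases hreg.prime_x (hB q₂) (hB c₂) e3 with h | h
      · exact hq₂ h
      · exact hc₂ h
  -- polynomials divisible by `H` are divisible by `π`
  have hdiv : ∀ b : MvPolynomial (Fin 2) k, (∃ u ∈ R, (algebraMap (MvPolynomial (Fin 2) k) (KK k (Fin 2))) b = H * u) → π ∣ b := by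
    rintro b ⟨r, hr, e⟩
    obtain ⟨r₁, r₂, hr12, hr₂⟩ := hrep r hr
    have e1 : b * (r₂ * c₂) = c₁ * r₁ := by
      apply inj
      rw [map_mul, map_mul, map_mul, e, ← hc, ← hr12]; ring
    have h2 : π ∣ b * (r₂ * c₂) := by
      rw [e1]
      exact hc₁.mul_right _
    rcases hπ.dvd_or_dvd h2 with h | h
    · exact h
    · rcases hπ.dvd_or_dvd h with h | h
      · exact absurd h (hnd _ hr₂)
      · exact absurd h (hnd _ hc₂)
  refine ⟨hreg.hx, ?_, ?_, ?_⟩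
  · intro r hr
    obtain ⟨p, q, e, hq⟩ := hrep r hr
    exact ⟨p, q, hnd q hq, e⟩
  · rintro ⟨a, b, hb, h⟩
    have e1 : c₂ * b = a * c₁ := by
      apply inj
      rw [map_mul, map_mul, ← h, ← hc]
      have := hreg.x_ne
      field_simp
    have h2 : π ∣ c₂ * b := by
      rw [e1]
      exact hc₁.mul_left _
    rcases hπ.dvd_or_dvd h2 with h3 | h3
    · exact hnd _ hc₂ h3
    · exact hb h3
  · intro z hz hne
    obtain ⟨p, q, e, hq⟩ := hrep z hz
    have hz0 : z ≠ 0 := by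
      rintro rfl
      exact hne 0 R.zero_mem (by rw [mul_zero])
    have hp : ¬ π ∣ p := by
      intro hp
      obtain ⟨c, rfl⟩ := hp
      have h2 : ∃ u ∈ R, z * (algebraMap (MvPolynomial (Fin 2) k) (KK k (Fin 2))) q = H * u := by
        obtain ⟨u, hu, eu⟩ := hπH
        exact ⟨u * (algebraMap (MvPolynomial (Fin 2) k) (KK k (Fin 2))) c, R.mul_mem hu (hB c), by rw [e, map_mul, eu]; ring⟩
      rcases hreg.prime_x hz (hB q) h2 with ⟨u, hu, h⟩ | h
      · exact hne u hu h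
      · exact hq h
    refine ⟨q, p, hp, ?_⟩
    rw [← e, ← mul_assoc, inv_mul_cancel₀ hz0, one_mul]

end Pool.Agent.MP_b525bf_ag_TS.H41F
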