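import Pool.Agent.Lib.MP_b525bf_ag_TS.AddAux

/-!
# Helper file for F2: one more principal ideal
-/

set_option autoImplicit false

namespace Pool.Agent.MP_b525bf_ag_TS.H41F

open MvPolynomial Pool.Agent.MP_b525bf_ag_TS

section Comb

variable {K : Type} [Field K] {E : Type} [Fintype E]

/-- The degrees of the boundary with one more component. -/
def addE (e : E → E → ℤ) (α : E → ℤ) : Option E → Option E → ℤ
  | none => fun i => match i with
      | none => 1
      | some i => -∑ j, α j * e j i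
  | some j => fun i => match i with
      | none => 0
      | some i => e j i

/-- Generators for one more ideal. -/
def optH (h : E → K) (g : K) : Option E → K
  | none => g
  | some i => h i

theorem zpow_sum' {ι : Type*} (s : Finset ι) {z : K} (hz : z ≠ 0) (f : ι → ℤ) :
    z ^ (∑ i ∈ s, f i) = ∏ i ∈ s, z ^ f i := by
  classical
  induction s using Finset.induction_on with
  | empty => simp
  | insert a s ha ih => rw [Finset.sum_insert ha, Finset.prod_insert ha, zpow_add₀ hz, ih]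

theorem xi_pow (h : E → K) (e : E → E → ℤ) (n : E → ℤ) (h0 : ∀ i, h i ≠ 0) :
    ∏ j, xi h e j ^ n j = ∏ i, h i ^ (∑ j, n j * e j i) := by
  unfold xi
  have h1 : ∀ j, (∏ i, h i ^ e j i) ^ n j = ∏ i, h i ^ (n j * e j i) := by
    intro j
    rw [← Finset.prod_zpow]
    refine Finset.prod_congr rfl fun i _ => ?_
    rw [← zpow_mul, mul_comm]
  rw [Finset.prod_congr rfl fun j _ => h1 j, Finset.prod_comm]
  refine Finset.prod_congr rfl fun i _ => ?_
  rw [zpow_sum' _ (h0 i)]

theorem xi_none (h : E → K) (g : K) (e : E → E → ℤ) (α : E → ℤ) (h0 : ∀ i, h i ≠ 0) :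
    xi (optH h g) (addE e α) none = g / ∏ j, xi h e j ^ α j := by
  rw [xi_pow h e α h0]
  unfold xi
  rw [Fintype.prod_option]
  change g ^ (1 : ℤ) * ∏ i, h i ^ (-∑ j, α j * e j i) = _
  rw [zpow_one, div_eq_mul_inv, ← Finset.prod_inv_distrib]
  congr 1
  refine Finset.prod_congr rfl fun i _ => ?_
  rw [zpow_neg]

theorem xi_some (h : E → K) (g : K) (e : E → E → ℤ) (α : E → ℤ) (j : E) :
    xi (optH h g) (addE e α) (some j) = xi h e j := by
  unfold xi
  rw [Fintype.prod_option]
  change g ^ (0 : ℤ) * ∏ i, h i ^ (e j i) = _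
  rw [zpow_zero, one_mul]

theorem span_add {e : E → E → ℤ} {α : E → ℤ}
    (hs : ∀ d : E → ℤ, ∃ n : E → ℤ, d = ∑ j, n j • e j) (d : Option E → ℤ) :
    ∃ n : Option E → ℤ, d = ∑ j, n j • addE e α j := by
  obtain ⟨n, hn⟩ := hs fun i => d (some i) + d none * ∑ j, α j * e j i
  refine ⟨fun j => match j with
    | none => d none
    | some j => n j, ?_⟩
  funext i
  rw [Fintype.sum_option]
  rcases i with _ | i
  · rw [Pi.add_apply, Finset.sum_apply]
    simp [addE]
  · have h1 := congrFun hn i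
    rw [Finset.sum_apply] at h1
    rw [Pi.add_apply, Finset.sum_apply]
    change d (some i) = d none * (-∑ j, α j * e j i) + ∑ j, n j * e j i
    change d (some i) + d none * ∑ j, α j * e j i = ∑ j, n j * e j i at h1
    linear_combination h1

/-- Products with exponents: numerators and denominators. -/
theorem zprod (f : E → K) (h0 : ∀ j, f j ≠ 0) (n : E → ℤ) :
    (∏ j, f j ^ n j) * ∏ j, f j ^ (-n j).toNat = ∏ j, f j ^ (n j).toNat := by
  rw [← Finset.prod_mul_distrib]
  refine Finset.prod_congr rfl fun j _ => ?_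
  rw [← zpow_natCast, ← zpow_natCast, ← zpow_add₀ (h0 j)]
  congr 1
  omega

end Comb

section Points

variable {k : Type} [Field k] {E : Type} [Fintype E] {J : E → Ideal (BB k (Fin 2))}
  {π : MvPolynomial (Fin 2) k}

/-- The polynomial as an element of the subalgebra. -/
noncomputable def el (π : MvPolynomial (Fin 2) k) : BB k (Fin 2) := ⟨(algebraMap (MvPolynomial (Fin 2) k) (KK k (Fin 2))) π, coe_mem_BB π⟩

/-- The generators of the new ideals. -/
theorem gen_add (hπ : Prime π) {R : Subalgebra k (KK k (Fin 2))} (hBR : BB k (Fin 2) ≤ R)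
    {h : E → KK k (Fin 2)} (hh : GenAt (BB k (Fin 2)) J R h) :
    GenAt (BB k (Fin 2)) (optJ J (Ideal.span {el π})) R (optH h ((algebraMap (MvPolynomial (Fin 2) k) (KK k (Fin 2))) π)) := by
  have h0 : (algebraMap (MvPolynomial (Fin 2) k) (KK k (Fin 2))) π ≠ 0 := ne_zero hπ.ne_zero
  refine ⟨?_, ?_⟩
  · rintro (_ | i)
    · exact ⟨h0, el π, Ideal.subset_span rfl, rfl⟩
    · exact hh.1 i
  · rintro (_ | i) w hw
    · have hw' : w ∈ Ideal.span {el π} := hw
      rw [Ideal.mem_span_singleton] at hw'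
      obtain ⟨c, rfl⟩ := hw'
      have e : ((el π * c : BB k (Fin 2)) : KK k (Fin 2)) / optH h ((algebraMap (MvPolynomial (Fin 2) k) (KK k (Fin 2))) π) none = c := by
        change ((algebraMap (MvPolynomial (Fin 2) k) (KK k (Fin 2))) π * (c : KK k (Fin 2))) / (algebraMap (MvPolynomial (Fin 2) k) (KK k (Fin 2))) π = c
        rw [mul_div_cancel_left₀ _ h0]
      rw [e]
      exact hBR c.2
    · exact hh.2 i w hw

/-- The points of the new model are points of the old one. -/
theorem pt_add {R : Subalgebra k (KK k (Fin 2))}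
    (hR : Pt (BB k (Fin 2)) (optJ J (Ideal.span {el π})) R) : Pt (BB k (Fin 2)) J R := by
  obtain ⟨h', hh', χ', rfl⟩ := hR
  have hle : chartF (BB k (Fin 2)) J (fun i => h' (some i)) ≤
      chartF (BB k (Fin 2)) (optJ J (Ideal.span {el π})) h' := by
    apply Algebra.adjoin_mono
    rintro z (hz | ⟨i, w, hw, rfl⟩)
    · exact Or.inl hz
    · exact Or.inr ⟨some i, w, hw, rfl⟩
  refine ⟨fun i => h' (some i), fun i => hh' (some i), χ'.comp (Subalgebra.inclusion hle), ?_⟩
  obtain ⟨h0, w, hw, hwh⟩ := hh' none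
  have hw' : w ∈ Ideal.span {el π} := hw
  rw [Ideal.mem_span_singleton] at hw'
  obtain ⟨u, rfl⟩ := hw'
  have hwh' : (algebraMap (MvPolynomial (Fin 2) k) (KK k (Fin 2))) π * (u : KK k (Fin 2)) = h' none := hwh
  have hu0 : (u : KK k (Fin 2)) ≠ 0 := by
    intro h1
    rw [h1, mul_zero] at hwh'
    exact h0 hwh'.symm
  have hπ0 : (algebraMap (MvPolynomial (Fin 2) k) (KK k (Fin 2))) π ≠ 0 := by
    intro h1
    rw [h1, zero_mul] at hwh'
    exact h0 hwh'.symm
  -- `1 / u` lies in the chart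
  have hui : (u : KK k (Fin 2))⁻¹ ∈ chartF (BB k (Fin 2)) (optJ J (Ideal.span {el π})) h' := by
    have h1 := div_mem_chartF (J := optJ J (Ideal.span {el π})) h' none
      (w := el π) (Ideal.subset_span rfl)
    have e : ((el π : BB k (Fin 2)) : KK k (Fin 2)) / h' none = (u : KK k (Fin 2))⁻¹ := by
      rw [← hwh']
      change (algebraMap (MvPolynomial (Fin 2) k) (KK k (Fin 2))) π / ((algebraMap (MvPolynomial (Fin 2) k) (KK k (Fin 2))) π * (u : KK k (Fin 2))) = _
      rw [div_mul_eq_div_div, div_self hπ0, one_div]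
    rw [e] at h1
    exact h1
  have huC : (u : KK k (Fin 2)) ∈ chartF (BB k (Fin 2)) J (fun i => h' (some i)) :=
    le_chartF _ u.2
  -- elements of the big chart
  have key : ∀ a ∈ chartF (BB k (Fin 2)) (optJ J (Ideal.span {el π})) h', ∃ N : ℕ, ∀ m, N ≤ m →
      a * (u : KK k (Fin 2)) ^ m ∈ chartF (BB k (Fin 2)) J (fun i => h' (some i)) := by
    intro a ha
    unfold chartF at ha
    induction ha using Algebra.adjoin_induction with
    | mem z hz =>
      rcases hz with hz | ⟨i, w, hw, rfl⟩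
      · exact ⟨0, fun m _ => Subalgebra.mul_mem _ (le_chartF _ hz) (Subalgebra.pow_mem _ huC m)⟩
      · rcases i with _ | i
        · have hw' : w ∈ Ideal.span {el π} := hw
          rw [Ideal.mem_span_singleton] at hw'
          obtain ⟨c, rfl⟩ := hw'
          refine ⟨1, fun m hm => ?_⟩
          obtain ⟨m, rfl⟩ := Nat.exists_eq_add_of_le hm
          have e : ((el π * c : BB k (Fin 2)) : KK k (Fin 2)) / h' none *
              (u : KK k (Fin 2)) ^ (1 + m) = c * (u : KK k (Fin 2)) ^ m := by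
            rw [← hwh']
            change ((algebraMap (MvPolynomial (Fin 2) k) (KK k (Fin 2))) π * (c : KK k (Fin 2))) / ((algebraMap (MvPolynomial (Fin 2) k) (KK k (Fin 2))) π * (u : KK k (Fin 2))) *
              (u : KK k (Fin 2)) ^ (1 + m) = _
            rw [mul_div_mul_left _ _ hπ0, pow_add, pow_one]
            field_simp
          rw [e]
          exact Subalgebra.mul_mem _ (le_chartF _ c.2) (Subalgebra.pow_mem _ huC m)
        · exact ⟨0, fun m _ => Subalgebra.mul_mem _
            (div_mem_chartF (fun i => h' (some i)) i hw) (Subalgebra.pow_mem _ huC m)⟩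
    | algebraMap r =>
      exact ⟨0, fun m _ => Subalgebra.mul_mem _ (Subalgebra.algebraMap_mem _ r)
        (Subalgebra.pow_mem _ huC m)⟩
    | add z w hz hw ihz ihw =>
      obtain ⟨N, hN⟩ := ihz
      obtain ⟨N', hN'⟩ := ihw
      refine ⟨max N N', fun m hm => ?_⟩
      rw [add_mul]
      exact Subalgebra.add_mem _ (hN m (le_trans (le_max_left _ _) hm))
        (hN' m (le_trans (le_max_right _ _) hm))
    | mul z w hz hw ihz ihw =>
      obtain ⟨N, hN⟩ := ihz
      obtain ⟨N', hN'⟩ := ihw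
      refine ⟨N + N', fun m hm => ?_⟩
      obtain ⟨m, rfl⟩ := Nat.exists_eq_add_of_le hm
      have h1 : z * w * (u : KK k (Fin 2)) ^ (N + N' + m) =
          (z * (u : KK k (Fin 2)) ^ N) * (w * (u : KK k (Fin 2)) ^ (N' + m)) := by ring
      rw [h1]
      exact Subalgebra.mul_mem _ (hN N le_rfl) (hN' _ (by omega))
  have hχu : χ' ⟨(u : KK k (Fin 2)), hle huC⟩ ≠ 0 := by
    intro h1
    have h2 : (⟨(u : KK k (Fin 2)), hle huC⟩ :
        chartF (BB k (Fin 2)) (optJ J (Ideal.span {el π})) h') * ⟨_, hui⟩ = 1 :=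
      Subtype.ext (mul_inv_cancel₀ hu0)
    have h3 := congrArg χ' h2
    rw [map_mul, h1, zero_mul, map_one] at h3
    exact zero_ne_one h3
  apply le_antisymm
  · rintro z ⟨a, b, hb, hab⟩
    obtain ⟨N, hN⟩ := key a a.2
    obtain ⟨N', hN'⟩ := key b b.2
    refine ⟨⟨_, hN (N + N') (by omega)⟩, ⟨_, hN' (N + N') (by omega)⟩, ?_, ?_⟩
    · change χ' (b * ⟨(u : KK k (Fin 2)), hle huC⟩ ^ (N + N')) ≠ 0
      rw [map_mul, map_pow]
      exact mul_ne_zero hb (pow_ne_zero _ hχu)
    · change z * ((b : KK k (Fin 2)) * (u : KK k (Fin 2)) ^ (N + N')) =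
        (a : KK k (Fin 2)) * (u : KK k (Fin 2)) ^ (N + N')
      rw [← hab, mul_assoc]
  · rintro z ⟨a, b, hb, hab⟩
    exact ⟨⟨_, hle a.2⟩, ⟨_, hle b.2⟩, hb, hab⟩

/-- Elements of the local ring as fractions of polynomials. -/
theorem rep {R : Subalgebra k (KK k (Fin 2))} (hR : Pt (BB k (Fin 2)) J R)
    {h : E → KK k (Fin 2)} (hh : GenAt (BB k (Fin 2)) J R h) {r : KK k (Fin 2)} (hr : r ∈ R) :
    ∃ (p q : MvPolynomial (Fin 2) k) (b : KK k (Fin 2)) (m : ℕ), r * (algebraMap (MvPolynomial (Fin 2) k) (KK k (Fin 2))) q = (algebraMap (MvPolynomial (Fin 2) k) (KK k (Fin 2))) p ∧ UnitIn R b ∧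
      (algebraMap (MvPolynomial (Fin 2) k) (KK k (Fin 2))) q = b * (∏ i, h i) ^ m := by
  obtain ⟨χ, hχ⟩ := hR.exists_char hh
  have h1 : chartF (BB k (Fin 2)) J (fun _ : E => (1 : KK k (Fin 2))) ≤ BB k (Fin 2) := by
    unfold chartF
    rw [Algebra.adjoin_le_iff]
    rintro z (hz | ⟨i, w, hw, rfl⟩)
    · exact hz
    · rw [div_one]; exact w.2
  rw [hχ] at hr
  obtain ⟨a, b, hb, hab⟩ := hr
  obtain ⟨N, hN⟩ := exists_pow_mul_mem (h := fun _ : E => (1 : KK k (Fin 2))) hh.1 a a.2
  obtain ⟨N', hN'⟩ := exists_pow_mul_mem (h := fun _ : E => (1 : KK k (Fin 2))) hh.1 b b.2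
  have h2 : (∏ i, h i / (1 : KK k (Fin 2))) = ∏ i, h i :=
    Finset.prod_congr rfl fun i _ => div_one _
  rw [h2] at hN hN'
  obtain ⟨p, hp⟩ := h1 (hN (N + N') (by omega))
  obtain ⟨q, hq⟩ := h1 (hN' (N + N') (by omega))
  refine ⟨p, q, b, N + N', ?_, ?_, hq⟩
  · change (algebraMap (MvPolynomial (Fin 2) k) (KK k (Fin 2))) p = _ at hp
    change (algebraMap (MvPolynomial (Fin 2) k) (KK k (Fin 2))) q = _ at hq
    rw [hp, hq, ← hab]; ring
  · rw [hχ]
    exact ptLoc_mem b hb

end Points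

end Pool.Agent.MP_b525bf_ag_TS.H41F
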