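import Pool.Agent.Lib.MP_b525bf_ag_TS.AddAux2

/-!
# Helper file for F2: the new component at a point where the object of the curve is clean
-/

set_option autoImplicit false

namespace Pool.Agent.MP_b525bf_ag_TS.H41F

open MvPolynomial Pool.Agent.MP_b525bf_ag_TS

section General

variable {k K : Type} [Field k] [Field K] [Algebra k K] {B : Subalgebra k K} {E : Type}
  [Fintype E] {J : E → Ideal B} {e : E → E → ℤ} {V : E → Subalgebra k K}

/-- One more valuation ring. -/
def addV (V : E → Subalgebra k K) (W : Subalgebra k K) : Option E → Subalgebra k K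
  | none => W
  | some j => V j

/-- One more position. -/
def addb (b : E → Option Bool) (c : Option Bool) : Option E → Option Bool
  | none => c
  | some j => b j

/-- Exchange of the coordinates. -/
theorem swap {R : Subalgebra k K} {h : E → K} {x y : K} {Dx Dy : Derivation k K K}
    {s t : Bool} {b : E → Option Bool} (hp : PtNc B J e V R h x y Dx Dy s t b) :
    PtNc B J e V R h y x Dy Dx t s (fun j => (b j).map not) := by
  have h0 : ∀ j, (b j).map not = none ↔ b j = none := fun j => by simp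
  have h1 : ∀ j, (b j).map not = some false ↔ b j = some true := fun j => by
    cases hb : b j with
    | none => simp
    | some v => cases v <;> simp
  have h2 : ∀ j, (b j).map not = some true ↔ b j = some false := fun j => by
    cases hb : b j with
    | none => simp
    | some v => cases v <;> simp
  exact
    { gen := hp.gen
      reg := hp.reg.symm
      b0 := fun j hj => hp.b0 j ((h0 j).1 hj)
      bx := fun j hj => hp.by' j ((h1 j).1 hj)
      by' := fun j hj => hp.bx j ((h2 j).1 hj)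
      s_iff := by
        rw [hp.t_iff]
        exact exists_congr fun j => (h1 j).symm
      t_iff := by
        rw [hp.s_iff]
        exact exists_congr fun j => (h2 j).symm
      inj := fun j j' hj hjj' => by
        refine hp.inj j j' (fun h => hj ((h0 j).2 h)) ?_
        cases hb : b j with
        | none => exact absurd ((h0 j).2 hb) hj
        | some v =>
          cases hb' : b j' with
          | none => rw [hb, hb'] at hjj'; simp at hjj'
          | some v' =>
            rw [hb, hb'] at hjj'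
            cases v <;> cases v' <;> simp_all
      val := fun j hj => hp.val j fun h => hj ((h0 j).2 h) }

variable {R : Subalgebra k K} {x y : K} {Dx Dy : Derivation k K K}

theorem nd_unit (h : Reg R x y Dx Dy) {z : K} (hz : UnitIn R z) : ¬ ∃ u ∈ R, z = x * u := by
  rintro ⟨u, hu, e⟩
  refine h.one_notMem_x ⟨u * z⁻¹, R.mul_mem hu hz.2.2, ?_⟩
  rw [← mul_assoc, ← e, mul_inv_cancel₀ hz.1]

theorem nd_mul (h : Reg R x y Dx Dy) {z w : K} (hz : z ∈ R) (hw : w ∈ R)
    (h1 : ¬ ∃ u ∈ R, z = x * u) (h2 : ¬ ∃ u ∈ R, w = x * u) : ¬ ∃ u ∈ R, z * w = x * u :=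
  fun h3 => (h.prime_x hz hw h3).elim h1 h2

theorem nd_y (h : Reg R x y Dx Dy) : ¬ ∃ u ∈ R, y = x * u := by
  rintro ⟨u, hu, e⟩
  refine h.one_notMem_x ⟨Dy u, h.Dy_mem u hu, ?_⟩
  have h1 := h.yy
  rw [e, Derivation.leibniz, h.yx, smul_zero, add_zero, smul_eq_mul] at h1
  exact h1.symm

theorem nd_pow (h : Reg R x y Dx Dy) {z : K} (hz : z ∈ R) (h1 : ¬ ∃ u ∈ R, z = x * u) (n : ℕ) :
    ¬ ∃ u ∈ R, z ^ n = x * u := by
  induction n with
  | zero => rw [pow_zero]; exact nd_unit h UnitIn.one'
  | succ n ih => rw [pow_succ]; exact nd_mul h (R.pow_mem hz n) hz ih h1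

theorem nd_prod (h : Reg R x y Dx Dy) {ι : Type*} (s : Finset ι) (f : ι → K)
    (hf : ∀ i ∈ s, f i ∈ R) (h1 : ∀ i ∈ s, ¬ ∃ u ∈ R, f i = x * u) :
    ¬ ∃ u ∈ R, ∏ i ∈ s, f i = x * u := by
  classical
  induction s using Finset.induction_on with
  | empty => rw [Finset.prod_empty]; exact nd_unit h UnitIn.one'
  | insert a s ha ih =>
    rw [Finset.prod_insert ha]
    exact nd_mul h (hf a (Finset.mem_insert_self a s))
      (R.prod_mem fun i hi => hf i (Finset.mem_insert_of_mem hi))
      (h1 a (Finset.mem_insert_self a s))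
      (ih (fun i hi => hf i (Finset.mem_insert_of_mem hi))
        fun i hi => h1 i (Finset.mem_insert_of_mem hi))

end General

section Core

variable {k : Type} [Field k] {E : Type} [Fintype E] {J : E → Ideal (BB k (Fin 2))}
  {e : E → E → ℤ} {V : E → Subalgebra k (KK k (Fin 2))} {α : E → ℤ}
  {π : MvPolynomial (Fin 2) k}

/-- The new equation is a coordinate. -/
theorem core (hπ : Prime π) (hs : ∀ d : E → ℤ, ∃ n : E → ℤ, d = ∑ j, n j • e j)
    {R : Subalgebra k (KK k (Fin 2))} (hR : Pt (BB k (Fin 2)) J R)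
    {h : E → KK k (Fin 2)} {x y : KK k (Fin 2)}
    {Dx Dy : Derivation k (KK k (Fin 2)) (KK k (Fin 2))} {t : Bool} {b : E → Option Bool}
    (hp : PtNc (BB k (Fin 2)) J e V R h x y Dx Dy false t b)
    (hHm : (algebraMap (MvPolynomial (Fin 2) k) (KK k (Fin 2))) π / ∏ j, xi h e j ^ α j ∈ mx R)
    (hD : UnitIn R (Dx ((algebraMap (MvPolynomial (Fin 2) k) (KK k (Fin 2))) π / ∏ j, xi h e j ^ α j))) :
    ∃ D1 D2, PtNc (BB k (Fin 2)) (optJ J (Ideal.span {el π})) (addE e α)
      (addV V (primeLoc π hπ)) R (optH h ((algebraMap (MvPolynomial (Fin 2) k) (KK k (Fin 2))) π)) ((algebraMap (MvPolynomial (Fin 2) k) (KK k (Fin 2))) π / ∏ j, xi h e j ^ α j) y D1 D2 true t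
      (addb b (some false)) := by
  classical
  have hBR := hR.le
  set H := (algebraMap (MvPolynomial (Fin 2) k) (KK k (Fin 2))) π / ∏ j, xi h e j ^ α j with hH
  have h0 : ∀ i, h i ≠ 0 := fun i => (hp.gen.1 i).1
  have hhR : ∀ i, h i ∈ R := fun i => by
    obtain ⟨-, w, -, hw⟩ := hp.gen.1 i
    rw [← hw]
    exact hBR w.2
  have hxi0 : ∀ j, xi h e j ≠ 0 := fun j =>
    Finset.prod_ne_zero_iff.2 fun i _ => zpow_ne_zero _ (h0 i)
  have hγ0 : ∏ j, xi h e j ^ α j ≠ 0 :=
    Finset.prod_ne_zero_iff.2 fun j _ => zpow_ne_zero _ (hxi0 j)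
  have hym : y ∈ mx R := (hp.reg.mem_mId (z := ⟨y, hp.reg.hy⟩)).1 (Loc2.y_mem hp.reg)
  have hdet : UnitIn R (Dx H * Dy y - Dx y * Dy H) := by
    rw [hp.reg.yy, hp.reg.xy, mul_one, zero_mul, sub_zero]
    exact hD
  have hreg := hp.reg.change hHm hym hdet
  have hnf : ∀ j, b j ≠ some false := fun j hj =>
    absurd (hp.s_iff.2 ⟨j, hj⟩) (by decide)
  -- the equations of the components
  have hxiR : ∀ j, xi h e j ∈ R := by
    intro j
    rcases hb : b j with _ | (_ | _)
    · exact (hp.b0 j hb).2.1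
    · exact absurd hb (hnf j)
    · have h1 := hp.by' j hb
      have h2 : xi h e j = y * (xi h e j / y) := by
        rw [mul_div_cancel₀ _ hp.reg.symm.x_ne]
      rw [h2]
      exact R.mul_mem hp.reg.hy h1.2.1
  have hxind : ∀ j, ¬ ∃ u ∈ R, xi h e j = H * u := by
    intro j
    rcases hb : b j with _ | (_ | _)
    · exact nd_unit hreg (hp.b0 j hb)
    · exact absurd hb (hnf j)
    · have h1 := hp.by' j hb
      have h2 : xi h e j = y * (xi h e j / y) := by
        rw [mul_div_cancel₀ _ hp.reg.symm.x_ne]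
      rw [h2]
      exact nd_mul hreg hp.reg.hy h1.2.1 (nd_y hreg) (nd_unit hreg h1)
  have hprodR : ∀ n : E → ℕ, ∏ j, xi h e j ^ n j ∈ R := fun n =>
    R.prod_mem fun j _ => R.pow_mem (hxiR j) _
  have hprod : ∀ n : E → ℕ, ¬ ∃ u ∈ R, ∏ j, xi h e j ^ n j = H * u := fun n =>
    nd_prod hreg _ _ (fun j _ => R.pow_mem (hxiR j) _) fun j _ => nd_pow hreg (hxiR j) (hxind j) _
  -- the generators
  have hhnd : ∀ i, ¬ ∃ u ∈ R, h i = H * u := by
    rintro i ⟨u, hu, eu⟩
    obtain ⟨n, hn⟩ := hs (Pi.single i 1)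
    have h1 : ∏ j, xi h e j ^ n j = h i := by
      rw [xi_pow h e n h0, Finset.prod_eq_single i]
      · have h2 := congrFun hn i
        rw [Finset.sum_apply, Pi.single_eq_same] at h2
        simp only [Pi.smul_apply, smul_eq_mul] at h2
        rw [← h2, zpow_one]
      · intro i' _ hi'
        have h2 := congrFun hn i'
        rw [Finset.sum_apply, Pi.single_eq_of_ne hi'] at h2
        simp only [Pi.smul_apply, smul_eq_mul] at h2
        rw [← h2, zpow_zero]
      · exact fun hi => absurd (Finset.mem_univ i) hi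
    have h2 := zprod (xi h e) hxi0 n
    rw [h1, eu] at h2
    exact hprod _ ⟨u * ∏ j, xi h e j ^ (-n j).toNat, R.mul_mem hu (hprodR _), by
      rw [← h2]; ring⟩
  -- `π` is divisible by `H`
  have hπH : ∃ u ∈ R, (algebraMap (MvPolynomial (Fin 2) k) (KK k (Fin 2))) π = H * u := by
    have h2 := zprod (xi h e) hxi0 α
    have h3 : ∃ u ∈ R, (algebraMap (MvPolynomial (Fin 2) k) (KK k (Fin 2))) π * ∏ j, xi h e j ^ (-α j).toNat = H * u := by
      refine ⟨∏ j, xi h e j ^ (α j).toNat, hprodR _, ?_⟩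
      rw [← h2, hH]
      field_simp
    rcases hreg.prime_x (hBR (coe_mem_BB π)) (hprodR _) h3 with h4 | h4
    · exact h4
    · exact absurd h4 (hprod _)
  have hrep : ∀ r ∈ R, ∃ p q : MvPolynomial (Fin 2) k, r * (algebraMap (MvPolynomial (Fin 2) k) (KK k (Fin 2))) q = (algebraMap (MvPolynomial (Fin 2) k) (KK k (Fin 2))) p ∧
      ¬ ∃ u ∈ R, (algebraMap (MvPolynomial (Fin 2) k) (KK k (Fin 2))) q = H * u := by
    intro r hr
    obtain ⟨p, q, c, m, h1, h2, h3⟩ := rep hR hp.gen hr
    refine ⟨p, q, h1, ?_⟩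
    rw [h3]
    exact nd_mul hreg h2.2.1 (R.pow_mem (R.prod_mem fun i _ => hhR i) m) (nd_unit hreg h2)
      (nd_pow hreg (R.prod_mem fun i _ => hhR i) (nd_prod hreg _ _ (fun i _ => hhR i)
        fun i _ => hhnd i) m)
  have hval : Val R H (primeLoc π hπ) := val_of hπ hreg hBR hrep hπH
  have hxn : xi (optH h ((algebraMap (MvPolynomial (Fin 2) k) (KK k (Fin 2))) π)) (addE e α) none = H := xi_none h ((algebraMap (MvPolynomial (Fin 2) k) (KK k (Fin 2))) π) e α h0
  have hxs : ∀ j, xi (optH h ((algebraMap (MvPolynomial (Fin 2) k) (KK k (Fin 2))) π)) (addE e α) (some j) = xi h e j := fun j =>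
    xi_some h ((algebraMap (MvPolynomial (Fin 2) k) (KK k (Fin 2))) π) e α j
  refine ⟨_, _,
    { gen := gen_add hπ hBR hp.gen
      reg := hreg
      b0 := ?_
      bx := ?_
      by' := ?_
      s_iff := ?_
      t_iff := ?_
      inj := ?_
      val := ?_ }⟩
  · rintro (_ | j) hj
    · exact absurd hj (by simp [addb])
    · rw [hxs]; exact hp.b0 j hj
  · rintro (_ | j) hj
    · rw [hxn, div_self hreg.x_ne]; exact UnitIn.one'
    · exact absurd hj (hnf j)
  · rintro (_ | j) hj
    · exact absurd hj (by simp [addb])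
    · rw [hxs]; exact hp.by' j hj
  · exact ⟨fun _ => ⟨none, rfl⟩, fun _ => rfl⟩
  · rw [hp.t_iff]
    constructor
    · rintro ⟨j, hj⟩
      exact ⟨some j, hj⟩
    · rintro ⟨_ | j, hj⟩
      · exact absurd hj (by simp [addb])
      · exact ⟨j, hj⟩
  · rintro (_ | j) (_ | j') hj hjj'
    · rfl
    · exact absurd (show b j' = some false from hjj'.symm) (hnf j')
    · exact absurd (show b j = some false from hjj') (hnf j)
    · rw [hp.inj j j' hj hjj']
  · rintro (_ | j) hj
    · rw [hxn]; exact hval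
    · rw [hxs]; exact hp.val j hj

/-- The new component does not pass through the point. -/
theorem core_unit (hπ : Prime π)
    {R : Subalgebra k (KK k (Fin 2))} (hR : Pt (BB k (Fin 2)) J R)
    {h : E → KK k (Fin 2)} {x y : KK k (Fin 2)}
    {Dx Dy : Derivation k (KK k (Fin 2)) (KK k (Fin 2))} {s t : Bool} {b : E → Option Bool}
    (hp : PtNc (BB k (Fin 2)) J e V R h x y Dx Dy s t b)
    (hH : UnitIn R ((algebraMap (MvPolynomial (Fin 2) k) (KK k (Fin 2))) π / ∏ j, xi h e j ^ α j)) :
    PtNc (BB k (Fin 2)) (optJ J (Ideal.span {el π})) (addE e α)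
      (addV V (primeLoc π hπ)) R (optH h ((algebraMap (MvPolynomial (Fin 2) k) (KK k (Fin 2))) π)) x y Dx Dy s t (addb b none) := by
  have h0 : ∀ i, h i ≠ 0 := fun i => (hp.gen.1 i).1
  have hxn : xi (optH h ((algebraMap (MvPolynomial (Fin 2) k) (KK k (Fin 2))) π)) (addE e α) none = (algebraMap (MvPolynomial (Fin 2) k) (KK k (Fin 2))) π / ∏ j, xi h e j ^ α j :=
    xi_none h ((algebraMap (MvPolynomial (Fin 2) k) (KK k (Fin 2))) π) e α h0
  have hxs : ∀ j, xi (optH h ((algebraMap (MvPolynomial (Fin 2) k) (KK k (Fin 2))) π)) (addE e α) (some j) = xi h e j := fun j =>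
    xi_some h ((algebraMap (MvPolynomial (Fin 2) k) (KK k (Fin 2))) π) e α j
  refine
    { gen := gen_add hπ hR.le hp.gen
      reg := hp.reg
      b0 := ?_
      bx := ?_
      by' := ?_
      s_iff := ?_
      t_iff := ?_
      inj := ?_
      val := ?_ }
  · rintro (_ | j) hj
    · rw [hxn]; exact hH
    · rw [hxs]; exact hp.b0 j hj
  · rintro (_ | j) hj
    · exact absurd hj (by simp [addb])
    · rw [hxs]; exact hp.bx j hj
  · rintro (_ | j) hj
    · exact absurd hj (by simp [addb])
    · rw [hxs]; exact hp.by' j hj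
  · rw [hp.s_iff]
    constructor
    · rintro ⟨j, hj⟩
      exact ⟨some j, hj⟩
    · rintro ⟨_ | j, hj⟩
      · exact absurd hj (by simp [addb])
      · exact ⟨j, hj⟩
  · rw [hp.t_iff]
    constructor
    · rintro ⟨j, hj⟩
      exact ⟨some j, hj⟩
    · rintro ⟨_ | j, hj⟩
      · exact absurd hj (by simp [addb])
      · exact ⟨j, hj⟩
  · rintro (_ | j) (_ | j') hj hjj'
    · rfl
    · exact absurd rfl hj
    · exact absurd hjj' hj
    · rw [hp.inj j j' hj hjj']
  · rintro (_ | j) hj
    · exact absurd rfl hj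
    · rw [hxs]; exact hp.val j hj

end Core

end Pool.Agent.MP_b525bf_ag_TS.H41F
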