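import Pool.Agent.Lib.MP_b525bf_ag_TS.StageZ

/-!
# V2: products of stages with monomial functions for blocks of variables
-/

set_option autoImplicit false

namespace Pool.Agent.MP_b525bf_ag_TS

open Pool.Agent.MP_b525bf_ag Pool.Agent.MP_b525bf_ag_W Pool.Agent.MP_b525bf_ag_P AddMonoidAlgebra

theorem HasStage.toZ {k K I : Type} [Field k] [Field K] [Algebra k K] {B : Subalgebra k K} {N : ℕ}
    {ω : I → Derivation k K K →ₗ[K] K} (h : HasStage B N ω) : HasStageZ B N ω ∅ := by
  obtain ⟨ι, i1, i2, i3, J, i4, M, a, u, α, h⟩ := h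
  exact ⟨ι, i1, i2, i3, J, i4, M, a, u, α, h, fun z hz => hz.elim⟩

/-- Products of stages with monomial functions, arbitrary blocks of variables. -/
theorem hasStageZ_sigma' {k : Type} [Field k] (n : ℕ) (σ : Fin n → Type) (N : Fin n → ℕ)
    (l g : ∀ i, KK k (σ i)) (Z : ∀ i, Set (KK k (σ i)))
    (h : ∀ i, HasStageZ (BB k (σ i)) (N i) (fun _ : Unit => lform (l i) (g i)) (Z i)) :
    HasStageZ (BB k ((i : Fin n) × σ i)) (∑ i, N i) (fun i : Fin n =>
      lform (incl (fun j : σ i => (⟨i, j⟩ : (i : Fin n) × σ i)) sigma_mk_injective (l i))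
        (incl (fun j : σ i => (⟨i, j⟩ : (i : Fin n) × σ i)) sigma_mk_injective (g i)))
      {z | ∃ i, ∃ w ∈ Z i,
        incl (fun j : σ i => (⟨i, j⟩ : (i : Fin n) × σ i)) sigma_mk_injective w = z} := by
  induction n with
  | zero =>
    have hs : Function.Surjective (algebraMap k (KK k ((i : Fin 0) × σ i))) :=
      ProdStage.algebraMap_surjective_of_isEmpty
    have ht : BB k ((i : Fin 0) × σ i) = ⊤ := by
      rw [eq_top_iff]
      intro z _
      obtain ⟨r, rfl⟩ := hs z
      exact Subalgebra.algebraMap_mem _ _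
    rw [ht, Finset.univ_eq_empty, Finset.sum_empty]
    refine (HasStage.toZ (ProdStage.hasStage_triv hs _)).mono ?_
    rintro _ ⟨i, -⟩
    exact i.elim0
  | succ n ih =>
    let f : ((i : Fin n) × σ i.castSucc) → ((i : Fin (n + 1)) × σ i) :=
      fun x => ⟨x.1.castSucc, x.2⟩
    let f' : σ (Fin.last n) → ((i : Fin (n + 1)) × σ i) := fun j => ⟨Fin.last n, j⟩
    have hf : Function.Injective f := by
      rintro ⟨a, b⟩ ⟨c, d⟩ hab
      simp only [f, Sigma.mk.injEq, Fin.castSucc_inj] at hab
      obtain ⟨rfl, h2⟩ := hab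
      rw [eq_of_heq h2]
    have hf' : Function.Injective f' := sigma_mk_injective
    have hd : ∀ s t, f s ≠ f' t := by
      intro s t hst
      have := congrArg Sigma.fst hst
      exact (Fin.castSucc_lt_last s.1).ne this
    have hfg : ∀ r, r ∈ Set.range f ∨ r ∈ Set.range f' := by
      rintro ⟨a, b⟩
      rcases Fin.eq_castSucc_or_eq_last a with ⟨a, rfl⟩ | rfl
      · exact Or.inl ⟨⟨a, b⟩, rfl⟩
      · exact Or.inr ⟨b, rfl⟩
    have h1 := ih (fun i => σ i.castSucc) (fun i => N i.castSucc) (fun i => l i.castSucc)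
      (fun i => g i.castSucc) (fun i => Z i.castSucc) (fun i => h i.castSucc)
    have h2 := h (Fin.last n)
    have h3 := HasStageZ.prod (incl (k := k) f hf) (incl f' hf')
      (ProdStage.lift_incl_injective f hf f' hf' hd) (ProdStage.frac_sup f hf f' hf' hfg) h1 h2
    rw [ProdStage.bb_sup f hf f' hf' hfg] at h3
    let e : Fin (n + 1) ≃ Fin n ⊕ Unit :=
      { toFun := Fin.lastCases (Sum.inr ()) Sum.inl
        invFun := Sum.elim Fin.castSucc fun _ => Fin.last n
        left_inv := by
          intro i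
          refine Fin.lastCases ?_ (fun i => ?_) i <;> simp
        right_inv := by
          rintro (i | i) <;> simp }
    have h4 := h3.reindex e
    rw [← Fin.sum_univ_castSucc] at h4
    have h5 : {z | ∃ i, ∃ w ∈ Z i,
        incl (fun j : σ i => (⟨i, j⟩ : (i : Fin (n + 1)) × σ i)) sigma_mk_injective w = z} ⊆
        incl (k := k) f hf '' {z | ∃ i, ∃ w ∈ Z (Fin.castSucc i),
          incl (fun j : σ (Fin.castSucc i) => (⟨i, j⟩ : (i : Fin n) × σ i.castSucc))
            (sigma_mk_injective (β := fun i : Fin n => σ i.castSucc)) w = z} ∪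
        incl (k := k) f' hf' '' Z (Fin.last n) := by
      rintro _ ⟨i, w, hw, rfl⟩
      revert w
      refine Fin.lastCases ?_ (fun i => ?_) i
      · intro w hw
        exact Or.inr ⟨w, hw, rfl⟩
      · intro w hw
        refine Or.inl ⟨_, ⟨i, w, hw, rfl⟩, ?_⟩
        rw [ProdStage.incl_comp]
        rfl
    have h6 := h4.mono h5
    convert h6 using 1
    funext i
    refine Fin.lastCases ?_ (fun i => ?_) i
    · have he : e (Fin.last n) = Sum.inr () := by simp [e]
      rw [he]
      rfl
    · have he : e (Fin.castSucc i) = Sum.inl i := by simp [e]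
      rw [he]
      simp only [Sum.elim_inl]
      rw [ProdStage.incl_comp, ProdStage.incl_comp]
      rfl

end Pool.Agent.MP_b525bf_ag_TS
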