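import Pool.Agent.Lib.MP_b525bf_ag_TS.Blow
import Pool.Agent.Lib.MP_b525bf_ag_TS.FinBad

/-!
# B4: the object becomes clean after finitely many blowing ups
-/

set_option autoImplicit false

namespace Pool.Agent.MP_b525bf_ag_TS

variable {k K : Type} [Field k] [Field K] [Algebra k K] {B : Subalgebra k K} {E : Type}
  [Fintype E] {J : E → Ideal B} {e : E → E → ℤ} {V : E → Subalgebra k K} {α : E → ℤ}
  {θ : Obj k K}

theorem B4.mono {m m' : ℕ} (hm : m ≤ m') {R : Subalgebra k K} (h : Lv B θ J e V α m R) :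
    Lv B θ J e V α m' R := by
  obtain ⟨g, x, y, Dx, Dy, s, t, b, h1, h2, h3⟩ := h
  exact ⟨g, x, y, Dx, Dy, s, t, b, h1, h2, h3.imp_right fun h => h.trans hm⟩

theorem B4.exists_lv (h : Stage2 B θ J e V α) {R : Subalgebra k K} (hR : Pt B J R) :
    ∃ m, Lv B θ J e V α m R := by
  obtain ⟨g, x, y, Dx, Dy, s, t, b, h1, h2⟩ := h.pt R hR
  exact ⟨_, g, x, y, Dx, Dy, s, t, b, h1, h2, Or.inr le_rfl⟩

/-- The conclusion; the curves with the property `P` are in the boundary. -/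
def B4.HasClean (B : Subalgebra k K) (θ : Obj k K) (P : Subalgebra k K → Prop) : Prop :=
  ∃ (E' : Type) (_ : Fintype E') (J' : E' → Ideal B) (e' : E' → E' → ℤ)
    (V' : E' → Subalgebra k K) (α' : E' → ℤ), Stage2 B θ J' e' V' α' ∧
    (∀ W, P W → InBd B J' e' V' W) ∧
    ∀ R, Pt B J' R → Lv B θ J' e' V' α' 0 R

/-- Induction on the number of the points where the invariant is not at most `m`. -/
theorem B4.hasClean_step [IsAlgClosed k] (hB : B.FG) (hθ : θ.Closed)
    (P : Subalgebra k K → Prop) {m : ℕ}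
    (ih : ∀ (E : Type) [Fintype E] (J : E → Ideal B) (e : E → E → ℤ) (V : E → Subalgebra k K)
      (α : E → ℤ), Stage2 B θ J e V α → (∀ W, P W → InBd B J e V W) →
      (∀ R, Pt B J R → Lv B θ J e V α m R) → B4.HasClean B θ P)
    (n : ℕ) : ∀ (E : Type) [Fintype E] (J : E → Ideal B) (e : E → E → ℤ)
      (V : E → Subalgebra k K) (α : E → ℤ), Stage2 B θ J e V α →
      (∀ W, P W → InBd B J e V W) →
      (∀ R, Pt B J R → Lv B θ J e V α (m + 1) R) →
      {R | Pt B J R ∧ ¬ Lv B θ J e V α m R}.ncard ≤ n → B4.HasClean B θ P := by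
  induction n with
  | zero =>
    intro E _ J e V α h hP h1 h2
    apply ih E J e V α h hP
    intro R hR
    by_contra h3
    have hfin : {R | Pt B J R ∧ ¬ Lv B θ J e V α m R}.Finite :=
      (h.finite_bad hB).subset fun R hR => ⟨hR.1, fun h0 => hR.2 (B4.mono (Nat.zero_le m) h0)⟩
    have h4 : {R | Pt B J R ∧ ¬ Lv B θ J e V α m R} = ∅ :=
      (Set.ncard_eq_zero hfin).mp (Nat.le_zero.mp h2)
    have h5 : R ∈ {R | Pt B J R ∧ ¬ Lv B θ J e V α m R} := ⟨hR, h3⟩
    rw [h4] at h5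
    exact h5
  | succ n ihn =>
    intro E _ J e V α h hP h1 h2
    by_cases h3 : ∀ R, Pt B J R → Lv B θ J e V α m R
    · exact ih E J e V α h hP h3
    push Not at h3
    obtain ⟨R₀, hR₀, hbad⟩ := h3
    have hfin : {R | Pt B J R ∧ ¬ Lv B θ J e V α m R}.Finite :=
      (h.finite_bad hB).subset fun R hR => ⟨hR.1, fun h0 => hR.2 (B4.mono (Nat.zero_le m) h0)⟩
    obtain ⟨J', e', V', α', h', hin, hall⟩ := h.blow hB hθ hR₀
      (fun h0 => hbad (B4.mono (Nat.zero_le m) h0))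
    apply ihn (Option E) J' e' V' α' h' fun W hW => hin W (hP W hW)
    · intro R hR
      rcases hall R hR with ⟨h4, -, h5⟩ | h4
      · exact h5 _ (h1 R h4)
      · exact B4.mono (Nat.le_succ m) (h4 m (h1 R₀ hR₀))
    · have hsub : {R | Pt B J' R ∧ ¬ Lv B θ J' e' V' α' m R} ⊆
          {R | Pt B J R ∧ ¬ Lv B θ J e V α m R} \ {R₀} := by
        rintro R ⟨hR, hR2⟩
        rcases hall R hR with ⟨h4, h5, h6⟩ | h4
        · exact ⟨⟨h4, fun h7 => hR2 (h6 m h7)⟩, h5⟩
        · exact absurd (h4 m (h1 R₀ hR₀)) hR2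
      have h6 := Set.ncard_le_ncard hsub (hfin.subset Set.sdiff_subset)
      have h7 := Set.ncard_sdiff_singleton_lt_of_mem
        (s := {R | Pt B J R ∧ ¬ Lv B θ J e V α m R}) (a := R₀) ⟨hR₀, hbad⟩ hfin
      omega

theorem B4.hasClean_of_lv [IsAlgClosed k] (hB : B.FG) (hθ : θ.Closed)
    (P : Subalgebra k K → Prop) (m : ℕ) :
    ∀ (E : Type) [Fintype E] (J : E → Ideal B) (e : E → E → ℤ)
      (V : E → Subalgebra k K) (α : E → ℤ), Stage2 B θ J e V α →
      (∀ W, P W → InBd B J e V W) →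
      (∀ R, Pt B J R → Lv B θ J e V α m R) → B4.HasClean B θ P := by
  induction m with
  | zero =>
    intro E _ J e V α h hP h1
    exact ⟨E, inferInstance, J, e, V, α, h, hP, h1⟩
  | succ m ih =>
    intro E _ J e V α h hP h1
    exact B4.hasClean_step hB hθ P ih _ E J e V α h hP h1 le_rfl

theorem Stage2.exists_clean [IsAlgClosed k] (hB : B.FG) (hθ : θ.Closed)
    (h : Stage2 B θ J e V α) :
    ∃ (E' : Type) (_ : Fintype E') (J' : E' → Ideal B) (e' : E' → E' → ℤ)
      (V' : E' → Subalgebra k K) (α' : E' → ℤ), Stage2 B θ J' e' V' α' ∧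
      (∀ W, InBd B J e V W → InBd B J' e' V' W) ∧
      ∀ R, Pt B J' R → Lv B θ J' e' V' α' 0 R := by
  have hfin := h.finite_bad hB
  choose! f hf using fun (R : Subalgebra k K) (hR : Pt B J R) => B4.exists_lv h hR
  obtain ⟨M, hM⟩ := (hfin.image f).bddAbove
  refine B4.hasClean_of_lv hB hθ (InBd B J e V) M E J e V α h (fun W hW => hW) fun R hR => ?_
  by_cases h0 : Lv B θ J e V α 0 R
  · exact B4.mono (Nat.zero_le M) h0
  · exact B4.mono (hM (Set.mem_image_of_mem f ⟨hR, h0⟩)) (hf R hR)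

end Pool.Agent.MP_b525bf_ag_TS
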