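import Pool.Agent.Lib.MP_b525bf_ag_TS.Away
import Pool.Agent.Lib.MP_b525bf_ag_h90.Extend

/-!
# G1: the stages of the line

The torsor is the product of the line with a torus; the boundary consists of the zeros and poles of
the form.
-/

set_option autoImplicit false

namespace Pool.Agent.MP_b525bf_ag_TS

open Pool.Agent.MP_b525bf_ag Pool.Agent.MP_b525bf_ag_W Pool.Agent.MP_b525bf_ag_P AddMonoidAlgebra

namespace CurveStage

/-! ### Units of families -/

section Units

variable {k K ι : Type} [Field k] [Field K] [Algebra k K] [AddCommGroup ι] {N : Fam k K ι}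

theorem isU_one (N : Fam k K ι) : IsU N 0 1 :=
  ⟨one_ne_zero, N.one', by rw [inv_one, neg_zero]; exact N.one'⟩

theorem isU_pow {d : ι} {x : K} (hx : IsU N d x) (n : ℕ) : IsU N (n • d) (x ^ n) := by
  induction n with
  | zero => rw [zero_nsmul, pow_zero]; exact isU_one N
  | succ n ih => rw [succ_nsmul, pow_succ]; exact ih.mul hx

theorem isU_zpow {d : ι} {x : K} (hx : IsU N d x) (n : ℤ) : IsU N (n • d) (x ^ n) := by
  cases n with
  | ofNat n =>
    rw [Int.ofNat_eq_natCast, natCast_zsmul, zpow_natCast]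
    exact isU_pow hx n
  | negSucc n =>
    rw [zpow_negSucc, negSucc_zsmul]
    exact (isU_pow hx (n + 1)).inv

theorem isU_prod {S : Type} (s : Finset S) {d : S → ι} {x : S → K}
    (hx : ∀ i ∈ s, IsU N (d i) (x i)) : IsU N (∑ i ∈ s, d i) (∏ i ∈ s, x i) := by
  classical
  induction s using Finset.induction_on with
  | empty => rw [Finset.sum_empty, Finset.prod_empty]; exact isU_one N
  | insert i s hi ih =>
    rw [Finset.sum_insert hi, Finset.prod_insert hi]
    exact (hx i (Finset.mem_insert_self i s)).mul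
      (ih fun j hj => hx j (Finset.mem_insert_of_mem hj))

theorem one_mem_sum (M : Fam k K ι) {S : Type} (s : Finset S) {d : S → ι}
    (h : ∀ i ∈ s, (1 : K) ∈ M.s (d i)) : (1 : K) ∈ M.s (∑ i ∈ s, d i) := by
  classical
  induction s using Finset.induction_on with
  | empty => rw [Finset.sum_empty]; exact M.one'
  | insert i s hi ih =>
    rw [Finset.sum_insert hi, ← one_mul (1 : K)]
    exact M.mul' (h i (Finset.mem_insert_self i s))
      (ih fun j hj => h j (Finset.mem_insert_of_mem hj))

/-- The elements of a family which stay in the family under a derivation. -/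
def pfam (A : Fam k K ι) (δ : Derivation k K K) : Fam k K ι where
  s d :=
    { carrier := {z | z ∈ A.s d ∧ δ z ∈ A.s d}
      add_mem' := by
        rintro x y ⟨hx, hx'⟩ ⟨hy, hy'⟩
        refine ⟨Submodule.add_mem _ hx hy, ?_⟩
        rw [map_add]
        exact Submodule.add_mem _ hx' hy'
      zero_mem' := ⟨Submodule.zero_mem _, by rw [map_zero]; exact Submodule.zero_mem _⟩
      smul_mem' := by
        rintro c x ⟨hx, hx'⟩
        refine ⟨Submodule.smul_mem _ _ hx, ?_⟩
        rw [Derivation.map_smul]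
        exact Submodule.smul_mem _ _ hx' }
  one' := ⟨A.one', by rw [Derivation.map_one_eq_zero]; exact Submodule.zero_mem _⟩
  mul' := by
    rintro a b x y ⟨hx, hx'⟩ ⟨hy, hy'⟩
    refine ⟨A.mul' hx hy, ?_⟩
    rw [Derivation.leibniz, smul_eq_mul, smul_eq_mul, mul_comm y]
    exact Submodule.add_mem _ (A.mul' hx hy') (A.mul' hx' hy)

theorem mem_pfam {A : Fam k K ι} {δ : Derivation k K K} {d : ι} {z : K} :
    z ∈ (pfam A δ).s d ↔ z ∈ A.s d ∧ δ z ∈ A.s d := Iff.rfl

theorem isU_pfam {A : Fam k K ι} {δ : Derivation k K K} {d : ι} {z : K} (hz : IsU A d z)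
    (h : δ z ∈ A.s d) : IsU (pfam A δ) d z := by
  refine ⟨hz.1, ⟨hz.2.1, h⟩, hz.2.2, ?_⟩
  have h0 := hz.1
  have e : δ z⁻¹ = -(z⁻¹ * z⁻¹ * δ z) := by
    have h1 : z * δ z⁻¹ + z⁻¹ * δ z = 0 := by
      rw [← smul_eq_mul, ← smul_eq_mul (a := z⁻¹), ← Derivation.leibniz, mul_inv_cancel₀ h0,
        Derivation.map_one_eq_zero]
    have h2 : z * δ z⁻¹ = -(z⁻¹ * δ z) := eq_neg_of_add_eq_zero_left h1
    have h3 : δ z⁻¹ = z⁻¹ * (z * δ z⁻¹) := by rw [← mul_assoc, inv_mul_cancel₀ h0, one_mul]
    rw [h3, h2]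
    ring
  rw [e]
  have h1 := A.mul' (A.mul' hz.2.2 hz.2.2) h
  have e1 : -d + -d + d = -d := by abel
  rw [e1] at h1
  exact Submodule.neg_mem _ h1

/-- A derivation which maps the pieces of the family to the localisation preserves the
localisation. -/
theorem pres_of_le {M : Fam k K ι} {q : Ideal M.alg} [q.IsPrime] {δ : Derivation k K K}
    (h : ∀ d, ∀ z ∈ M.s d, δ z ∈ (atP M q).s d) : Pres M q δ := by
  rintro d z ⟨c, f, hf, hfq, hfz⟩
  have hfU : IsU (pfam (atP M q) δ) c f := isU_pfam ((isU_atP_iff _ q hf).2 hfq) (h c f hf)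
  have h1 : f * z ∈ (pfam (atP M q) δ).s (c + d) := ⟨le_atP M q _ hfz, h _ _ hfz⟩
  have h2 := (pfam (atP M q) δ).mul' hfU.2.2 h1
  rw [← mul_assoc, inv_mul_cancel₀ hfU.1, one_mul, neg_add_cancel_left] at h2
  exact h2.2

end Units

/-! ### The stage -/

section Stage

variable {k K E : Type} [Field k] [Field K] [Algebra k K] [Fintype E]

open scoped Classical in
/-- The unit vectors. -/
noncomputable def uv (i : E) : E → ℤ := Pi.single i 1

theorem mon_uv (g : E → K) (i : E) : mon g (uv i) = g i := by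
  classical
  rw [mon, Finset.prod_eq_single i]
  · simp [uv]
  · intro j _ hj
    rw [uv, Pi.single_eq_of_ne hj, zpow_zero]
  · intro h
    exact absurd (Finset.mem_univ i) h

theorem sum_uv (d : E → ℤ) : ∑ i, d i • uv i = d := by
  classical
  funext j
  rw [Finset.sum_apply, Finset.sum_eq_single j]
  · simp [uv]
  · intro i _ hij
    simp [uv, Pi.single_eq_of_ne (Ne.symm hij)]
  · intro h
    exact absurd (Finset.mem_univ j) h

variable {B : Subalgebra k K} {g : E → K} (hg : ∀ i, g i ≠ 0) (hgB : ∀ i, g i ∈ B)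

include hgB in
theorem sec_mem (j : E) : (1 : K) ∈ (twist B g hg).s (-(uv j)) := by
  rw [mem_twist, mon_neg, mon_uv, one_div, inv_inv]
  exact hgB j

theorem g_isU (C : Subalgebra k K) (j : E) : IsU (twist C g hg) (uv j) (g j) := by
  refine ⟨hg j, ?_, ?_⟩
  · rw [mem_twist, mon_uv, div_self (hg j)]
    exact C.one_mem
  · rw [mem_twist, mon_neg, mon_uv, div_self (inv_ne_zero (hg j))]
    exact C.one_mem

omit [Fintype E] in
theorem isU_at {M : Fam k K (E → ℤ)} (q : Ideal M.alg) [q.IsPrime] {d : E → ℤ} {z : K}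
    (hz : IsU M d z) : IsU (atP M q) d z := ⟨hz.1, le_atP M q _ hz.2.1, le_atP M q _ hz.2.2⟩

include hgB in
theorem nonpos_mem {d : E → ℤ} (hd : ∀ i, d i ≤ 0) : (1 : K) ∈ (twist B g hg).s d := by
  rw [mem_twist, one_div]
  have e : (mon g d)⁻¹ = ∏ i, g i ^ (-(d i)).toNat := by
    rw [← mon_neg]
    refine Finset.prod_congr rfl fun i _ => ?_
    rw [← zpow_natCast, Int.toNat_of_nonneg (by have := hd i; omega)]
    rfl
  rw [e]
  exact Subalgebra.prod_mem _ fun i _ => B.pow_mem (hgB i) _

/-- The charts. -/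
theorem exists_chart (hB : B.FG) {x : K} (hx : x ∈ B) (a : E → k) (ha : Function.Injective a)
    (hga : ∀ i, g i = x - algebraMap k K (a i))
    (hsm : ∀ c : k, ∀ h : x - algebraMap k K c ∈ B,
      (MvPolynomial.aeval (fun _ : Fin 1 => (⟨x - algebraMap k K c, h⟩ : B)) :
        MvPolynomial (Fin 1) k →ₐ[k] B).toRingHom.FormallySmooth)
    (q : Ideal (twist B g hg).alg) [q.IsPrime] :
    ∃ c : k, (∀ j, ¬ IsU (atP (twist B g hg) q) 0 (g j) → a j = c) ∧
      (∀ j, IsU (atP (twist B g hg) q) 0 (g j) → (1 : K) ∈ (atP (twist B g hg) q).s (uv j)) ∧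
      ∃ (T : Set E) (C : Fam k K (E → ℤ)), Chart (twist B g hg) uv q T C := by
  classical
  set A := atP (twist B g hg) q with hA
  have hgB : ∀ i, g i ∈ B := fun i => by
    rw [hga]
    exact B.sub_mem hx (B.algebraMap_mem _)
  have hB0 : ∀ z ∈ B, z ∈ A.s 0 := fun z hz => le_atP _ q _ (by
    rw [mem_twist, mon_zero, div_one]
    exact hz)
  set T : Set E := {j | ¬ IsU A 0 (g j)} with hT
  have hunit : ∀ j, IsU A 0 (g j) → (1 : K) ∈ A.s (uv j) := by
    intro j hj
    have h1 := hj.inv.mul (isU_at q (g_isU hg B j))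
    rw [neg_zero, zero_add, inv_mul_cancel₀ (hg j)] at h1
    exact h1.2.1
  have hsub : ∀ i ∈ T, ∀ j ∈ T, i = j := by
    intro i hi j hj
    by_contra hij
    have h1 : a j - a i ≠ 0 := sub_ne_zero.2 fun h => hij (ha h).symm
    have h2 : g i + -(g j) = algebraMap k K (a j - a i) := by
      rw [hga, hga, map_sub]; ring
    have h3 : IsU A 0 (g i + -(g j)) := by
      rw [h2]
      refine ⟨(map_ne_zero _).2 h1, hB0 _ (B.algebraMap_mem _), ?_⟩
      rw [neg_zero, ← map_inv₀]
      exact hB0 _ (B.algebraMap_mem _)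
    rcases isU_add _ q (hB0 _ (hgB i)) (Submodule.neg_mem _ (hB0 _ (hgB j))) h3 with h | h
    · exact hi h
    · apply hj
      refine ⟨hg j, hB0 _ (hgB j), ?_⟩
      have := Submodule.neg_mem _ h.2.2
      rwa [inv_neg, neg_neg] at this
  obtain ⟨c, hc⟩ : ∃ c : k, ∀ j ∈ T, a j = c := by
    by_cases hh : T.Nonempty
    · obtain ⟨j, hj⟩ := hh
      exact ⟨a j, fun i hi => by rw [hsub i hi j hj]⟩
    · exact ⟨0, fun j hj => absurd ⟨j, hj⟩ hh⟩
  refine ⟨c, hc, hunit, T, ?_⟩
  set f : K := ∏ j ∈ Finset.univ.filter fun j => j ∉ T, g j with hf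
  have hfB : f ∈ B := Subalgebra.prod_mem _ fun i _ => hgB i
  have hf0 : f ≠ 0 := Finset.prod_ne_zero_iff.2 fun i _ => hg i
  have hfU : IsU A 0 f := by
    have h1 := isU_prod (N := A) (Finset.univ.filter fun j => j ∉ T) (d := fun _ => 0) (x := g)
      (fun i hi => by
        rw [Finset.mem_filter] at hi
        by_contra h2
        exact hi.2 h2)
    rwa [Finset.sum_const_zero] at h1
  have hsec : ∀ j, (1 : K) ∈ (twist (awaySub B hfB) g hg).s (-(uv j)) :=
    sec_mem hg fun i => le_awaySub hfB (hgB i)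
  refine ⟨twist (awaySub B hfB) g hg, ?_, ?_, ?_, twist_fg hg (awaySub_fg hfB hB hf0), hsec, ?_⟩
  · intro j hj
    refine hunit j ?_
    by_contra h
    exact hj h
  · intro d z hz
    rw [mem_twist]
    exact le_awaySub hfB hz
  · intro d z hz
    rw [mem_twist] at hz
    obtain ⟨n, hn⟩ := hz
    have h1 := A.mul' (hB0 _ hn) (isU_pow hfU n).inv.2.1
    rw [smul_zero, neg_zero, add_zero, mul_assoc, mul_inv_cancel₀ (pow_ne_zero n hf0),
      mul_one] at h1
    have h2 := A.mul' h1 (le_atP _ q _ (mon_mem hg B d))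
    rwa [div_mul_cancel₀ _ (mon_ne hg d), zero_add] at h2
  · refine twist_smooth hg uv T hsec (fun j => ⟨g j, le_awaySub hfB (hgB j)⟩)
      (fun j => (mon_uv g _).symm) ?_
    have hcB : x - algebraMap k K c ∈ B := B.sub_mem hx (B.algebraMap_mem _)
    let τ : T → Fin 1 := fun _ => 0
    have hτ : Function.Injective τ := fun i j _ => Subtype.ext (hsub i i.2 j j.2)
    have h1 := ((formallySmooth_rename (k := k) τ hτ).comp (hsm c hcB)).comp
      (formallySmooth_awaySub hfB hf0)
    convert h1 using 1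
    refine MvPolynomial.ringHom_ext (fun r => ?_) fun j => ?_
    · simp
    · refine Subtype.ext ?_
      simp only [AlgHom.toRingHom_eq_coe, RingHom.coe_coe, RingHom.comp_apply,
        MvPolynomial.aeval_X, MvPolynomial.rename_X, Subalgebra.coe_inclusion]
      rw [hga, hc j j.2]

/-- Stages of a curve with a global coordinate. -/
theorem hasStage_of (hB : B.FG) {x : K} (hx : x ∈ B) (D : Derivation k K K) (hDx : D x = 1)
    (hDB : ∀ z ∈ B, D z ∈ B) (hxc : ∀ c : k, x ≠ algebraMap k K c)
    (hsm : ∀ c : k, ∀ h : x - algebraMap k K c ∈ B,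
      (MvPolynomial.aeval (fun _ : Fin 1 => (⟨x - algebraMap k K c, h⟩ : B)) :
        MvPolynomial (Fin 1) k →ₐ[k] B).toRingHom.FormallySmooth)
    (a : E → k) (ha : Function.Injective a) (n : E → ℤ) (ω : Derivation k K K →ₗ[K] K)
    (hω : ω = 0 ∨ ∃ c : k, c ≠ 0 ∧
      ω D = algebraMap k K c * ∏ j, (x - algebraMap k K (a j)) ^ n j) :
    HasStage B 1 fun _ : Unit => ω := by
  classical
  set g : E → K := fun j => x - algebraMap k K (a j) with hgdef
  have hg : ∀ i, g i ≠ 0 := fun i => sub_ne_zero.2 (hxc _)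
  have hgB : ∀ i, g i ∈ B := fun i => B.sub_mem hx (B.algebraMap_mem _)
  set M := twist B g hg with hM
  set h : K := ∏ j, g j with hh
  have hDg : ∀ i, D (g i) = 1 := fun i => by
    rw [hgdef]
    simp only
    rw [map_sub, hDx, Derivation.map_algebraMap, sub_zero]
  refine ⟨E → ℤ, inferInstance, inferInstance, inferInstance, E, inferInstance, M, 0, uv,
    fun _ j => n j + 1, ⟨twist_fg hg hB, sec_mem hg hgB, ?_, ?_, ?_, ?_, ?_⟩, ?_, ?_⟩
  · intro m
    rw [smul_zero, neg_zero]
    exact M.one'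
  · exact ⟨1, one_pos, 1, by rw [smul_zero]; exact M.one', one_ne_zero⟩
  · exact fun d => ⟨fun i => -|d i|, nonpos_mem hg hgB fun i => neg_nonpos.2 (abs_nonneg _),
      nonpos_mem hg hgB fun i => by
        have := le_abs_self (d i)
        simp only [Pi.add_apply]
        omega⟩
  · intro q _ _ d
    refine ⟨1, one_pos, 1, one_pos, ?_⟩
    rw [one_nsmul, one_nsmul, zero_add]
    have h1 : IsU M d (mon g d) := by
      refine ⟨mon_ne hg d, mon_mem hg B d, ?_⟩
      rw [← mon_neg]
      exact mon_mem hg B (-d)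
    exact ⟨mon g d, h1.2.1, (isU_atP_iff M q h1.2.1).1 (isU_at q h1)⟩
  · intro q _ _
    obtain ⟨c, -, -, T, C, hC⟩ := exists_chart hg hB hx a ha (fun _ => rfl) hsm q
    exact ⟨T, C, hC⟩
  · ext z
    rw [hM, mem_twist, mon_zero, div_one]
    rfl
  · intro q _ _
    obtain ⟨c, hc, hunit, -⟩ := exists_chart hg hB hx a ha (fun _ => rfl) hsm q
    set A := atP M q with hA
    have hB0 : ∀ z ∈ B, z ∈ A.s 0 := fun z hz => le_atP M q _ (by
      rw [hM, mem_twist, mon_zero, div_one]
      exact hz)
    have hgU : ∀ i, IsU A (uv i) (g i) := fun i => isU_at q (g_isU hg B i)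
    have hδg : ∀ i, (h • D) (g i) ∈ A.s (uv i) := by
      intro i
      rw [Derivation.smul_apply, hDg, smul_eq_mul, mul_one, hh,
        ← Finset.mul_prod_erase _ _ (Finset.mem_univ i)]
      have h1 := A.mul' (hgU i).2.1 (hB0 _ (Subalgebra.prod_mem B (t := Finset.univ.erase i)
        (f := g) fun j _ => hgB j))
      rwa [add_zero] at h1
    have hhU : IsU A (∑ j, uv j) h := isU_prod Finset.univ fun j _ => hgU j
    have hωU : ω = 0 ∨ IsU A (wdeg uv fun j => n j + 1) (ω (h • D)) := by
      rcases hω with hω | ⟨r, hr, hω⟩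
      · exact Or.inl hω
      · right
        have h1 : IsU A (∑ j, (n j + 1) • uv j) (∏ j, g j ^ (n j + 1)) :=
          isU_prod Finset.univ fun j _ => isU_zpow (hgU j) (n j + 1)
        have h2 : IsU A 0 (algebraMap k K r) := by
          refine ⟨(map_ne_zero _).2 hr, hB0 _ (B.algebraMap_mem _), ?_⟩
          rw [neg_zero, ← map_inv₀]
          exact hB0 _ (B.algebraMap_mem _)
        have h3 := h2.mul h1
        rw [zero_add] at h3
        have e : ω (h • D) = algebraMap k K r * ∏ j, g j ^ (n j + 1) := by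
          rw [map_smul, hω, smul_eq_mul, hh, mul_left_comm, ← Finset.prod_mul_distrib]
          congr 1
          refine Finset.prod_congr rfl fun j _ => ?_
          rw [zpow_add_one₀ (hg j), mul_comm]
        rw [e]
        exact h3
    refine ⟨fun _ => h • D, fun _ => x - algebraMap k K c, fun _ => ∑ j, uv j, ?_, ?_, ?_, ?_, ?_,
      ?_⟩
    · intro _
      refine pres_of_le fun d z hz => ?_
      rw [hM, mem_twist] at hz
      have h1 : z / mon g d ∈ (pfam A (h • D)).s 0 := by
        refine ⟨hB0 _ hz, ?_⟩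
        rw [Derivation.smul_apply, smul_eq_mul]
        exact hB0 _ (B.mul_mem (Subalgebra.prod_mem _ fun j _ => hgB j) (hDB _ hz))
      have h2 : IsU (pfam A (h • D)) (∑ i, d i • uv i) (∏ i, g i ^ d i) :=
        isU_prod Finset.univ fun i _ => isU_zpow (isU_pfam (hgU i) (hδg i)) (d i)
      rw [sum_uv] at h2
      have h3 := (pfam A (h • D)).mul' h1 h2.2.1
      have h4 : z / mon g d * ∏ i, g i ^ d i = z := div_mul_cancel₀ _ (mon_ne hg d)
      rw [h4, zero_add] at h3
      exact h3.2
    · intro _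
      by_cases hT : ∃ j, ¬ IsU A 0 (g j)
      · obtain ⟨j, hj⟩ := hT
        have h1 : x - algebraMap k K c = g j := by rw [← hc j hj]
        rw [h1]
        have h2 : (1 : K) ∈ A.s (∑ i ∈ Finset.univ.erase j, uv i) := by
          refine one_mem_sum A _ fun i hi => hunit i ?_
          by_contra h3
          have h4 : a i = a j := by rw [hc i h3, hc j hj]
          exact (Finset.mem_erase.1 hi).1 (ha h4)
        have h3 := A.mul' (hgU j).2.1 h2
        rw [mul_one, Finset.add_sum_erase _ _ (Finset.mem_univ j)] at h3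
        exact h3
      · push Not at hT
        have h1 : (1 : K) ∈ A.s (∑ i, uv i) := one_mem_sum A _ fun i _ => hunit i (hT i)
        have h2 := A.mul' (hB0 _ (B.sub_mem hx (B.algebraMap_mem c))) h1
        rwa [mul_one, zero_add] at h2
    · rw [Fintype.sum_unique, Matrix.det_fin_one]
      change IsU A (∑ j, uv j) ((h • D) (x - algebraMap k K c))
      rw [Derivation.smul_apply, map_sub, hDx, Derivation.map_algebraMap, sub_zero, smul_eq_mul,
        mul_one]
      exact hhU
    · intro _ _
      rcases hωU with h1 | h1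
      · rw [h1]
        exact Submodule.zero_mem _
      · exact h1.2.1
    · intro _
      rcases hωU with h1 | h1
      · exact Or.inl h1
      · exact Or.inr ⟨0, h1⟩
    · intro l i i' hii
      exact absurd (Subsingleton.elim i i') hii

end Stage

theorem formallySmooth_of_bijective {R A : Type} [CommRing R] [CommRing A] {φ : R →+* A}
    (h : Function.Bijective φ) : φ.FormallySmooth := by
  refine formallySmooth_of_exists_lift fun S _ I _ α f hf => ?_
  let e := RingEquiv.ofBijective φ h
  refine ⟨α.comp e.symm.toRingHom, ?_, ?_⟩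
  · refine RingHom.ext fun P => ?_
    change α (e.symm (e P)) = α P
    rw [RingEquiv.symm_apply_apply]
  · refine RingHom.ext fun z => ?_
    obtain ⟨P, rfl⟩ := e.surjective z
    have h1 := RingHom.congr_fun hf P
    rw [RingHom.comp_apply] at h1 ⊢
    rw [RingHom.comp_apply]
    change Ideal.Quotient.mk I (α (e.symm (e P))) = f (φ P)
    rw [RingEquiv.symm_apply_apply, h1]
    rfl

/-! ### The line -/

section Line

variable {k : Type} [Field k]

open MvPolynomial

/-- The coordinate of the line. -/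
noncomputable def xL (k : Type) [Field k] : KK k (Fin 1) :=
  algebraMap (MvPolynomial (Fin 1) k) (KK k (Fin 1)) (X 0)

theorem BB_fg : (BB k (Fin 1)).FG := by
  rw [Subalgebra.fg_iff_finiteType]
  exact Algebra.FiniteType.of_surjective
    (Algebra.algHom k (MvPolynomial (Fin 1) k) (KK k (Fin 1))).rangeRestrict
    (AlgHom.rangeRestrict_surjective _)

theorem xL_mem : xL k ∈ BB k (Fin 1) := ⟨X 0, rfl⟩

theorem exists_D : ∃ D : Derivation k (KK k (Fin 1)) (KK k (Fin 1)),
    ∀ g : MvPolynomial (Fin 1) k, D (algebraMap _ (KK k (Fin 1)) g) =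
      algebraMap _ (KK k (Fin 1)) (pderiv 0 g) :=
  MP_b525bf_ag.H90.exists_extend (pderiv 0) (nonZeroDivisors (MvPolynomial (Fin 1) k))
    (KK k (Fin 1))

/-- Derivations of the function field are determined by the value at the coordinate. -/
theorem derivation_eq (D : Derivation k (KK k (Fin 1)) (KK k (Fin 1))) (hD : D (xL k) = 1)
    (D' : Derivation k (KK k (Fin 1)) (KK k (Fin 1))) : D' = D' (xL k) • D := by
  have h0 : (D' - D' (xL k) • D).compAlgebraMap (MvPolynomial (Fin 1) k) = 0 := by
    refine MvPolynomial.derivation_ext fun i => ?_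
    have hi : i = 0 := Subsingleton.elim _ _
    subst hi
    change (D' - D' (xL k) • D) (xL k) = 0
    rw [Derivation.sub_apply, Derivation.smul_apply, hD, smul_eq_mul, mul_one, sub_self]
  have h1 : ∀ a : MvPolynomial (Fin 1) k, (D' - D' (xL k) • D) (algebraMap _ _ a) = 0 :=
    fun a => DFunLike.congr_fun h0 a
  refine sub_eq_zero.1 (Derivation.ext fun z => ?_)
  obtain ⟨a, b, hb, rfl⟩ := IsFractionRing.div_surjective (A := MvPolynomial (Fin 1) k) z
  have hb0 : algebraMap (MvPolynomial (Fin 1) k) (KK k (Fin 1)) b ≠ 0 := fun h2 =>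
    nonZeroDivisors.ne_zero hb (IsFractionRing.injective _ (KK k (Fin 1)) (h2.trans
      (map_zero _).symm))
  set β := algebraMap (MvPolynomial (Fin 1) k) (KK k (Fin 1)) b with hβ
  have h2 : algebraMap (MvPolynomial (Fin 1) k) (KK k (Fin 1)) a / β * β =
      algebraMap _ _ a := div_mul_cancel₀ _ hb0
  have h3 := congrArg (D' - D' (xL k) • D) h2
  rw [Derivation.leibniz, h1, h1, smul_zero, zero_add, smul_eq_mul] at h3
  exact (mul_eq_zero.1 h3).resolve_left hb0

theorem xL_aeval (P : MvPolynomial (Fin 1) k) :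
    Polynomial.aeval (xL k) (MvPolynomial.aeval (fun _ => (Polynomial.X : Polynomial k)) P) =
      algebraMap _ (KK k (Fin 1)) P := by
  have h : (Polynomial.aeval (xL k)).comp
      (MvPolynomial.aeval fun _ : Fin 1 => (Polynomial.X : Polynomial k)) =
      Algebra.algHom k (MvPolynomial (Fin 1) k) (KK k (Fin 1)) := by
    refine MvPolynomial.algHom_ext fun i => ?_
    have hi : i = 0 := Subsingleton.elim _ _
    subst hi
    simp
    rfl
  exact DFunLike.congr_fun h P

theorem smooth_shift (c : k) (h : xL k - algebraMap k (KK k (Fin 1)) c ∈ BB k (Fin 1)) :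
    (MvPolynomial.aeval (fun _ : Fin 1 => (⟨xL k - algebraMap k (KK k (Fin 1)) c, h⟩ :
      BB k (Fin 1))) : MvPolynomial (Fin 1) k →ₐ[k] BB k (Fin 1)).toRingHom.FormallySmooth := by
  set φ : MvPolynomial (Fin 1) k →ₐ[k] BB k (Fin 1) :=
    MvPolynomial.aeval (fun _ : Fin 1 => (⟨xL k - algebraMap k (KK k (Fin 1)) c, h⟩ :
      BB k (Fin 1))) with hφ
  -- the coordinate changes
  let s : MvPolynomial (Fin 1) k →ₐ[k] MvPolynomial (Fin 1) k :=
    MvPolynomial.aeval fun _ => X 0 - C c
  let t : MvPolynomial (Fin 1) k →ₐ[k] MvPolynomial (Fin 1) k :=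
    MvPolynomial.aeval fun _ => X 0 + C c
  have hst : ∀ P, s (t P) = P := by
    intro P
    have : s.comp t = AlgHom.id k _ := by
      refine MvPolynomial.algHom_ext fun i => ?_
      have hi : i = 0 := Subsingleton.elim _ _
      subst hi
      simp [s, t]
    exact DFunLike.congr_fun this P
  have hts : ∀ P, t (s P) = P := by
    intro P
    have : t.comp s = AlgHom.id k _ := by
      refine MvPolynomial.algHom_ext fun i => ?_
      have hi : i = 0 := Subsingleton.elim _ _
      subst hi
      simp [s, t]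
    exact DFunLike.congr_fun this P
  have hφs : ∀ P, (φ P : KK k (Fin 1)) = algebraMap _ (KK k (Fin 1)) (s P) := by
    intro P
    have : (BB k (Fin 1)).val.comp φ =
        (Algebra.algHom k (MvPolynomial (Fin 1) k) (KK k (Fin 1))).comp s := by
      refine MvPolynomial.algHom_ext fun i => ?_
      have hi : i = 0 := Subsingleton.elim _ _
      subst hi
      simp only [hφ, s, AlgHom.comp_apply, MvPolynomial.aeval_X, map_sub]
      rfl
    exact DFunLike.congr_fun this P
  have hinj : Function.Injective (algebraMap (MvPolynomial (Fin 1) k) (KK k (Fin 1))) :=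
    IsFractionRing.injective _ _
  have hbij : Function.Bijective φ := by
    constructor
    · intro P Q hPQ
      have h1 : (φ P : KK k (Fin 1)) = φ Q := congrArg Subtype.val hPQ
      rw [hφs, hφs] at h1
      have h2 := hinj h1
      rw [← hts P, h2, hts]
    · rintro ⟨_, P, rfl⟩
      exact ⟨t P, Subtype.ext (by rw [hφs, hst]; rfl)⟩
  exact formallySmooth_of_bijective hbij

/-- Factorisation of polynomials. -/
theorem poly_eq [IsAlgClosed k] (p : Polynomial k) (S : Finset k)
    [DecidableEq k] (hS : p.roots.toFinset ⊆ S) :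
    Polynomial.aeval (xL k) p = algebraMap k (KK k (Fin 1)) p.leadingCoeff *
      ∏ a ∈ S, (xL k - algebraMap k (KK k (Fin 1)) a) ^ p.roots.count a := by
  have h1 : p = Polynomial.C p.leadingCoeff *
      (p.roots.map fun a => Polynomial.X - Polynomial.C a).prod :=
    (IsAlgClosed.splits p).eq_prod_roots
  conv_lhs => rw [h1]
  rw [map_mul, Polynomial.aeval_C, map_multiset_prod, Multiset.map_map,
    Finset.prod_multiset_map_count]
  congr 1
  rw [← Finset.prod_subset hS]
  · refine Finset.prod_congr rfl fun a _ => ?_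
    simp
  · intro a _ ha
    rw [Multiset.mem_toFinset, ← Multiset.count_eq_zero] at ha
    rw [ha, pow_zero]

theorem factor [IsAlgClosed k] {F : KK k (Fin 1)} (hF : F ≠ 0) :
    ∃ (S : Finset k) (n : k → ℤ) (c : k), c ≠ 0 ∧ F = algebraMap k (KK k (Fin 1)) c *
      ∏ a ∈ S, (xL k - algebraMap k (KK k (Fin 1)) a) ^ n a := by
  classical
  obtain ⟨P, Q, hQ, rfl⟩ := IsFractionRing.div_surjective (A := MvPolynomial (Fin 1) k) F
  have hinj : Function.Injective (algebraMap (MvPolynomial (Fin 1) k) (KK k (Fin 1))) :=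
    IsFractionRing.injective _ _
  have hP0 : algebraMap (MvPolynomial (Fin 1) k) (KK k (Fin 1)) P ≠ 0 :=
    (div_ne_zero_iff.1 hF).1
  have hQ0 : algebraMap (MvPolynomial (Fin 1) k) (KK k (Fin 1)) Q ≠ 0 :=
    (div_ne_zero_iff.1 hF).2
  rw [← xL_aeval] at hP0 hQ0
  rw [← xL_aeval P, ← xL_aeval Q]
  set p := MvPolynomial.aeval (fun _ => (Polynomial.X : Polynomial k)) P with hp
  set r := MvPolynomial.aeval (fun _ => (Polynomial.X : Polynomial k)) Q with hr
  have hp0 : p ≠ 0 := by
    intro h
    rw [h, map_zero] at hP0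
    exact hP0 rfl
  have hr0 : r ≠ 0 := by
    intro h
    rw [h, map_zero] at hQ0
    exact hQ0 rfl
  obtain ⟨D, hD⟩ := exists_D (k := k)
  have hne : ∀ a : k, xL k - algebraMap k (KK k (Fin 1)) a ≠ 0 := by
    intro a h
    have h1 := congrArg D h
    rw [map_sub, Derivation.map_algebraMap, sub_zero, map_zero, xL, hD,
      MvPolynomial.pderiv_X_self, map_one] at h1
    exact one_ne_zero h1
  refine ⟨p.roots.toFinset ∪ r.roots.toFinset,
    fun a => (p.roots.count a : ℤ) - r.roots.count a, p.leadingCoeff / r.leadingCoeff,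
    div_ne_zero (Polynomial.leadingCoeff_ne_zero.2 hp0)
      (Polynomial.leadingCoeff_ne_zero.2 hr0), ?_⟩
  rw [poly_eq p _ Finset.subset_union_left, poly_eq r _ Finset.subset_union_right,
    mul_div_mul_comm, ← map_div₀, ← Finset.prod_div_distrib]
  congr 1
  refine Finset.prod_congr rfl fun a _ => ?_
  rw [zpow_sub₀ (hne a), zpow_natCast, zpow_natCast]

end Line

end CurveStage

open CurveStage in
/-- The stages of the line. -/
theorem hasStage_line {k : Type} [Field k] [IsAlgClosed k] (l g : KK k (Fin 1)) :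
    HasStage (BB k (Fin 1)) 1 fun _ : Unit => lform l g := by
  obtain ⟨D, hD⟩ := exists_D (k := k)
  have hDx : D (xL k) = 1 := by
    rw [xL, hD, MvPolynomial.pderiv_X_self, map_one]
  have hDB : ∀ z ∈ BB k (Fin 1), D z ∈ BB k (Fin 1) := by
    rintro _ ⟨P, rfl⟩
    exact ⟨MvPolynomial.pderiv (0 : Fin 1) P, (hD P).symm⟩
  have hxc : ∀ c : k, xL k ≠ algebraMap k (KK k (Fin 1)) c := by
    intro c h
    have h1 := congrArg D h
    rw [hDx, Derivation.map_algebraMap] at h1
    exact one_ne_zero h1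
  by_cases h0 : lform l g D = 0
  · have h1 : lform (k := k) l g = 0 := by
      refine LinearMap.ext fun D' => ?_
      rw [derivation_eq D hDx D', LinearMap.map_smul, h0, smul_zero]
      rfl
    exact hasStage_of BB_fg xL_mem D hDx hDB hxc smooth_shift (E := Empty) (fun i => i.elim)
      (fun i => i.elim) (fun i => i.elim) (lform l g) (Or.inl h1)
  · obtain ⟨S, n, c, hc, h1⟩ := factor h0
    refine hasStage_of BB_fg xL_mem D hDx hDB hxc smooth_shift (E := S) Subtype.val
      Subtype.val_injective (fun j => n j) (lform l g) (Or.inr ⟨c, hc, ?_⟩)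
    rw [h1]
    congr 1
    exact (Finset.prod_coe_sort S fun a => (xL k - algebraMap k (KK k (Fin 1)) a) ^ n a).symm

open CurveStage in
/-- The stages of the point. -/
theorem hasStage_point {k : Type} [Field k] (l g : KK k (Fin 0)) :
    HasStage (BB k (Fin 0)) 0 fun _ : Unit => lform l g := by
  have hs : ∀ z : KK k (Fin 0), ∃ c : k, algebraMap k (KK k (Fin 0)) c = z := by
    intro z
    obtain ⟨P, Q, hQ, rfl⟩ := IsFractionRing.div_surjective (A := MvPolynomial (Fin 0) k) z
    obtain ⟨a, rfl⟩ := MvPolynomial.C_surjective (Fin 0) P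
    obtain ⟨b, rfl⟩ := MvPolynomial.C_surjective (Fin 0) Q
    refine ⟨a / b, ?_⟩
    rw [map_div₀]
    rfl
  have hB : ∀ z : KK k (Fin 0), z ∈ BB k (Fin 0) := by
    intro z
    obtain ⟨c, rfl⟩ := hs z
    exact (BB k (Fin 0)).algebraMap_mem c
  have hfg : (BB k (Fin 0)).FG := by
    rw [Subalgebra.fg_iff_finiteType]
    exact Algebra.FiniteType.of_surjective
      (Algebra.algHom k (MvPolynomial (Fin 0) k) (KK k (Fin 0))).rangeRestrict
      (AlgHom.rangeRestrict_surjective _)
  have h0 : lform (k := k) l g = 0 := by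
    refine LinearMap.ext fun D => ?_
    obtain ⟨c, rfl⟩ := hs g
    change l * D (algebraMap k (KK k (Fin 0)) c) = 0
    rw [Derivation.map_algebraMap, mul_zero]
  set x : Empty → KK k (Fin 0) := fun i => i.elim with hx
  have hx0 : ∀ i, x i ≠ 0 := fun i => i.elim
  set M := twist (BB k (Fin 0)) x hx0 with hM
  have hd : ∀ d : Empty → ℤ, d = 0 := fun d => Subsingleton.elim _ _
  refine ⟨Empty → ℤ, inferInstance, inferInstance, inferInstance, Empty, inferInstance, M, 0, uv,
    fun _ _ => 0, ⟨twist_fg hx0 hfg, fun j => j.elim, ?_, ?_, ?_, ?_, ?_⟩, ?_, ?_⟩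
  · intro m
    rw [smul_zero, neg_zero]
    exact M.one'
  · exact ⟨1, one_pos, 1, by rw [smul_zero]; exact M.one', one_ne_zero⟩
  · intro d
    rw [hd d]
    exact ⟨0, M.one', by rw [add_zero]; exact M.one'⟩
  · intro q _ _ d
    refine ⟨1, one_pos, 1, one_pos, ?_⟩
    rw [hd (1 • (1 • 0 + d))]
    exact zero_mem _
  · intro q _ _
    refine ⟨∅, M, fun j => j.elim, fun _ => le_rfl, le_atP M q, twist_fg hx0 hfg,
      fun j => j.elim, ?_⟩
    refine twist_smooth hx0 uv ∅ _ (fun j => j.1.elim) (fun j => j.1.elim) ?_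
    refine formallySmooth_of_bijective ⟨?_, ?_⟩
    · intro P Q hPQ
      obtain ⟨a, rfl⟩ := MvPolynomial.C_surjective _ P
      obtain ⟨b, rfl⟩ := MvPolynomial.C_surjective _ Q
      have h1 : algebraMap k (BB k (Fin 0)) a = algebraMap k (BB k (Fin 0)) b := by
        simpa using hPQ
      rw [FaithfulSMul.algebraMap_injective k (BB k (Fin 0)) h1]
    · rintro ⟨z, hz⟩
      obtain ⟨c, rfl⟩ := hs z
      refine ⟨MvPolynomial.C c, Subtype.ext ?_⟩
      simp
  · ext z
    constructor
    · intro _
      exact hB z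
    · intro hz
      rw [hM, mem_twist]
      exact hB _
  · intro q _ _
    refine ⟨fun l => l.elim0, fun l => l.elim0, fun l => l.elim0, fun l => l.elim0,
      fun l => l.elim0, ?_, fun _ l => l.elim0, fun _ => Or.inl h0, fun l => l.elim0⟩
    rw [Matrix.det_fin_zero, Finset.univ_eq_empty, Finset.sum_empty]
    exact isU_one _

end Pool.Agent.MP_b525bf_ag_TS
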