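import Pool.Agent.Lib.MP_b525bf_ag_TS.Prod

/-!
# Stages with monomial functions
-/

set_option autoImplicit false

namespace Pool.Agent.MP_b525bf_ag_TS

open Pool.Agent.MP_b525bf_ag Pool.Agent.MP_b525bf_ag_W Pool.Agent.MP_b525bf_ag_P AddMonoidAlgebra

section

variable {k K ι J I : Type} [Field k] [Field K] [Algebra k K] [AddCommGroup ι] [Fintype J]

/-- At all points the function `z` is the monomial with exponents `e` in the equations of the
components of the boundary, times a unit. -/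
def Mono (M : Fam k K ι) (a : ι) (u : J → ι) (e : J → ℤ) (z : K) : Prop :=
  ∀ (q : Ideal M.alg) [q.IsPrime], Semi M a q → IsU (atP M q) (wdeg u e) z

/-- There is a stage with piece of degree zero `B` for the forms `ω` such that the functions in `Z`
are monomials. -/
def HasStageZ (B : Subalgebra k K) (N : ℕ) (ω : I → Derivation k K K →ₗ[K] K) (Z : Set K) : Prop :=
  ∃ (ι : Type) (_ : AddCommGroup ι) (_ : Module.Free ℤ ι) (_ : Module.Finite ℤ ι) (J : Type)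
    (_ : Fintype J) (M : Fam k K ι) (a : ι) (u : J → ι) (α : I → J → ℤ),
    LogStage B M a u N ω α ∧ ∀ z ∈ Z, ∃ e : J → ℤ, Mono M a u e z

theorem HasStageZ.hasStage {B : Subalgebra k K} {N : ℕ} {ω : I → Derivation k K K →ₗ[K] K}
    {Z : Set K} (h : HasStageZ B N ω Z) : HasStage B N ω := by
  obtain ⟨ι, i1, i2, i3, J, i4, M, a, u, α, h, -⟩ := h
  exact ⟨ι, i1, i2, i3, J, i4, M, a, u, α, h⟩

variable {M : Fam k K ι} {a : ι} {u : J → ι} {e e' : J → ℤ} {z z' : K}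

theorem wdeg_add (u : J → ι) (e e' : J → ℤ) : wdeg u (e + e') = wdeg u e + wdeg u e' := by
  unfold wdeg
  rw [← Finset.sum_add_distrib]
  exact Finset.sum_congr rfl fun j _ => by rw [Pi.add_apply, add_smul]

theorem wdeg_neg (u : J → ι) (e : J → ℤ) : wdeg u (-e) = -wdeg u e := by
  unfold wdeg
  rw [← Finset.sum_neg_distrib]
  exact Finset.sum_congr rfl fun j _ => by rw [Pi.neg_apply, neg_smul]

theorem wdeg_zero (u : J → ι) : wdeg u (0 : J → ℤ) = 0 := by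
  unfold wdeg
  exact Finset.sum_eq_zero fun j _ => by rw [Pi.zero_apply, zero_smul]

theorem Mono.mul (h : Mono M a u e z) (h' : Mono M a u e' z') : Mono M a u (e + e') (z * z') := by
  intro q _ hq
  rw [wdeg_add]
  exact (h q hq).mul (h' q hq)

theorem Mono.inv (h : Mono M a u e z) : Mono M a u (-e) z⁻¹ := by
  intro q _ hq
  rw [wdeg_neg]
  exact (h q hq).inv

theorem mono_algebraMap {c : k} (hc : c ≠ 0) : Mono M a u 0 (algebraMap k K c) := by
  intro q _ hq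
  rw [wdeg_zero]
  have h1 : ∀ c : k, algebraMap k K c ∈ (atP M q).s 0 := fun c => by
    rw [Algebra.algebraMap_eq_smul_one]
    exact Submodule.smul_mem _ _ (atP M q).one'
  refine ⟨(map_ne_zero_iff _ (algebraMap k K).injective).2 hc, h1 c, ?_⟩
  rw [neg_zero, ← map_inv₀]
  exact h1 _

/-- The monomial functions form a subgroup of the multiplicative group. -/
def monoSub (M : Fam k K ι) (a : ι) (u : J → ι) : Subgroup Kˣ where
  carrier := {z | ∃ e : J → ℤ, Mono M a u e (z : K)}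
  mul_mem' := by
    rintro z w ⟨e, he⟩ ⟨e', he'⟩
    exact ⟨e + e', by rw [Units.val_mul]; exact he.mul he'⟩
  one_mem' := ⟨0, by
    have := mono_algebraMap (M := M) (a := a) (u := u) (one_ne_zero (α := k))
    rwa [map_one] at this⟩
  inv_mem' := by
    rintro z ⟨e, he⟩
    exact ⟨-e, by rw [Units.val_inv_eq_inv_val]; exact he.inv⟩

/-- The products of elements of `Z`, of their inverses and of constants. -/
def mulClosure (k : Type) {K : Type} [Field k] [Field K] [Algebra k K] (Z : Set K) : Set K :=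
  {z | ∃ w ∈ Subgroup.closure {w : Kˣ | (w : K) ∈ Z ∨ ∃ c : k, (w : K) = algebraMap k K c},
    (w : K) = z}

theorem mem_mulClosure {Z : Set K} {z : K} (hz : z ∈ Z) (h0 : z ≠ 0) : z ∈ mulClosure k Z :=
  ⟨Units.mk0 z h0, Subgroup.subset_closure (Or.inl hz), rfl⟩

theorem mulClosure_mul {Z : Set K} {z w : K} (hz : z ∈ mulClosure k Z)
    (hw : w ∈ mulClosure k Z) : z * w ∈ mulClosure k Z := by
  obtain ⟨z', hz', rfl⟩ := hz
  obtain ⟨w', hw', rfl⟩ := hw
  exact ⟨z' * w', Subgroup.mul_mem _ hz' hw', Units.val_mul _ _⟩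

theorem mulClosure_zpow {Z : Set K} {z : K} (hz : z ∈ mulClosure k Z) (n : ℤ) :
    z ^ n ∈ mulClosure k Z := by
  obtain ⟨z', hz', rfl⟩ := hz
  exact ⟨z' ^ n, Subgroup.zpow_mem _ hz' n, Units.val_zpow_eq_zpow_val _ _⟩

theorem mulClosure_prod {Z : Set K} {A : Type} (s : Finset A) {z : A → K}
    (hz : ∀ i ∈ s, z i ∈ mulClosure k Z) : ∏ i ∈ s, z i ∈ mulClosure k Z := by
  classical
  induction s using Finset.induction_on with
  | empty => exact ⟨1, Subgroup.one_mem _, by rw [Finset.prod_empty, Units.val_one]⟩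
  | insert i s his ih =>
    rw [Finset.prod_insert his]
    exact mulClosure_mul (hz i (Finset.mem_insert_self _ _))
      (ih fun j hj => hz j (Finset.mem_insert_of_mem hj))

/-- Monomial functions can be multiplied. -/
theorem HasStageZ.closure {B : Subalgebra k K} {N : ℕ} {ω : I → Derivation k K K →ₗ[K] K}
    {Z : Set K} (h : HasStageZ B N ω Z) : HasStageZ B N ω (mulClosure k Z) := by
  obtain ⟨ι, i1, i2, i3, J, i4, M, a, u, α, h, hZ⟩ := h
  refine ⟨ι, i1, i2, i3, J, i4, M, a, u, α, h, ?_⟩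
  rintro _ ⟨w, hw, rfl⟩
  have h1 : Subgroup.closure {w : Kˣ | (w : K) ∈ Z ∨ ∃ c : k, (w : K) = algebraMap k K c} ≤
      monoSub M a u := by
    rw [Subgroup.closure_le]
    rintro w (hw | ⟨c, hc⟩)
    · exact hZ _ hw
    · refine ⟨0, ?_⟩
      rw [hc]
      refine mono_algebraMap ?_
      rintro rfl
      rw [map_zero] at hc
      exact w.ne_zero hc
  exact h1 hw

theorem HasStageZ.mono {B : Subalgebra k K} {N : ℕ} {ω : I → Derivation k K K →ₗ[K] K}
    {Z Z' : Set K} (h : HasStageZ B N ω Z) (hZ : Z' ⊆ Z) : HasStageZ B N ω Z' := by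
  obtain ⟨ι, i1, i2, i3, J, i4, M, a, u, α, h, h1⟩ := h
  exact ⟨ι, i1, i2, i3, J, i4, M, a, u, α, h, fun z hz => h1 z (hZ hz)⟩

/-- The forms can be multiplied by monomial functions. -/
theorem HasStageZ.smul {B : Subalgebra k K} {N : ℕ} {ω : I → Derivation k K K →ₗ[K] K}
    {Z : Set K} (h : HasStageZ B N ω Z) {μ : I → K} (hμ : ∀ i, μ i ∈ Z) :
    HasStageZ B N (fun i => μ i • ω i) Z := by
  obtain ⟨ι, i1, i2, i3, J, i4, M, a, u, α, h, hZ⟩ := h
  choose e he using fun i => hZ _ (hμ i)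
  refine ⟨ι, i1, i2, i3, J, i4, M, a, u, fun i => e i + α i, ⟨h.tor, h.zero, ?_⟩, hZ⟩
  intro q _ hq
  obtain ⟨δ, y, d, a1, a2, a3, a4, a5, a6⟩ := h.loc q hq
  refine ⟨δ, y, d, a1, a2, a3, ?_, ?_, ?_⟩
  · intro i l
    change μ i * ω i (δ l) ∈ (atP M q).s (wdeg u (e i + α i))
    rw [wdeg_add]
    exact (atP M q).mul' (he i q hq).2.1 (a4 i l)
  · intro i
    change μ i • ω i = 0 ∨ ∃ l, IsU (atP M q) (wdeg u (e i + α i)) (μ i * ω i (δ l))
    rcases a5 i with h1 | ⟨l, h1⟩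
    · left; rw [h1, smul_zero]
    · right
      refine ⟨l, ?_⟩
      rw [wdeg_add]
      exact (he i q hq).mul h1
  · intro l i i' hii
    rcases a6 l i i' hii with h1 | h1
    · left
      change μ i * ω i (δ l) = 0
      rw [h1, mul_zero]
    · right
      change μ i' * ω i' (δ l) = 0
      rw [h1, mul_zero]

end

section Prod

variable {k K K₁ K₂ I I₁ I₂ : Type} [Field k] [Field K] [Algebra k K]
  [Field K₁] [Algebra k K₁] [Field K₂] [Algebra k K₂]

/-- Products of stages with monomial functions. -/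
theorem HasStageZ.prod (α₁ : K₁ →ₐ[k] K) (α₂ : K₂ →ₐ[k] K)
    (hα : Function.Injective (Algebra.TensorProduct.lift α₁ α₂ fun _ _ => Commute.all _ _))
    (hfrac : ∀ z : K, ∃ a ∈ α₁.range ⊔ α₂.range, ∃ b ∈ α₁.range ⊔ α₂.range, b ≠ 0 ∧ z * b = a)
    {B₁ : Subalgebra k K₁} {B₂ : Subalgebra k K₂} {N₁ N₂ : ℕ} {l₁ g₁ : I₁ → K₁}
    {l₂ g₂ : I₂ → K₂} {Z₁ : Set K₁} {Z₂ : Set K₂}
    (h₁ : HasStageZ B₁ N₁ (fun i => lform (l₁ i) (g₁ i)) Z₁)
    (h₂ : HasStageZ B₂ N₂ (fun i => lform (l₂ i) (g₂ i)) Z₂) :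
    HasStageZ (B₁.map α₁ ⊔ B₂.map α₂) (N₁ + N₂) (fun i : I₁ ⊕ I₂ =>
      lform (Sum.elim (fun i => α₁ (l₁ i)) (fun i => α₂ (l₂ i)) i)
        (Sum.elim (fun i => α₁ (g₁ i)) (fun i => α₂ (g₂ i)) i)) (α₁ '' Z₁ ∪ α₂ '' Z₂) := by
  obtain ⟨ι₁, _, _, _, J₁, _, M₁, a₁, u₁, w₁, ⟨t₁, z₁, L₁⟩, m₁⟩ := h₁
  obtain ⟨ι₂, _, _, _, J₂, _, M₂, a₂, u₂, w₂, ⟨t₂, z₂, L₂⟩, m₂⟩ := h₂
  refine ⟨ι₁ × ι₂, inferInstance, inferInstance, inferInstance, J₁ ⊕ J₂, inferInstance,
    prodFam α₁ α₂ M₁ M₂, (a₁, a₂), prodU u₁ u₂,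
    Sum.elim (fun i => Sum.elim (w₁ i) 0) (fun i => Sum.elim 0 (w₂ i)), ⟨?_, ?_, ?_⟩, ?_⟩
  · exact tor_prod α₁ α₂ hα t₁ t₂
  · change (M₁.s 0).map α₁.toLinearMap * (M₂.s 0).map α₂.toLinearMap = _
    rw [z₁, z₂, ← Subalgebra.mul_toSubmodule]
    rfl
  · intro q _ hq
    obtain ⟨s₁, s₂⟩ := semi_prod α₁ α₂ q hq
    have h := ProdStage.ld_prod α₁ α₂ hα hfrac q (L₁ _ s₁) (L₂ _ s₂)
    convert h using 1
    funext i
    rcases i with i | i
    · exact ProdStage.wdeg_left u₁ u₂ (w₁ i)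
    · exact ProdStage.wdeg_right u₁ u₂ (w₂ i)
  · rintro _ (⟨z, hz, rfl⟩ | ⟨z, hz, rfl⟩)
    · obtain ⟨e, he⟩ := m₁ z hz
      refine ⟨Sum.elim e 0, ?_⟩
      intro q _ hq
      obtain ⟨s₁, s₂⟩ := semi_prod α₁ α₂ q hq
      rw [ProdStage.wdeg_left]
      exact ProdStage.isU_left α₁ α₂ q (he _ s₁)
    · obtain ⟨e, he⟩ := m₂ z hz
      refine ⟨Sum.elim 0 e, ?_⟩
      intro q _ hq
      obtain ⟨s₁, s₂⟩ := semi_prod α₁ α₂ q hq
      rw [ProdStage.wdeg_right]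
      exact ProdStage.isU_right α₁ α₂ q (he _ s₂)

theorem HasStageZ.reindex (e : I₁ ≃ I₂) {B : Subalgebra k K} {N : ℕ}
    {ω : I₂ → Derivation k K K →ₗ[K] K} {Z : Set K} (h : HasStageZ B N ω Z) :
    HasStageZ B N (fun i => ω (e i)) Z := by
  obtain ⟨ι, _, _, _, J, _, M, a, u, w, ⟨t, z, L⟩, hm⟩ := h
  refine ⟨ι, inferInstance, inferInstance, inferInstance, J, inferInstance, M, a, u,
    fun i => w (e i), ⟨t, z, ?_⟩, hm⟩
  intro q _ hq
  obtain ⟨δ, y, d, a1, a2, a3, a4, a5, a6⟩ := L q hq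
  exact ⟨δ, y, d, a1, a2, a3, fun i => a4 (e i), fun i => a5 (e i),
    fun l i i' hne => a6 l (e i) (e i') fun h => hne (e.injective h)⟩

end Prod

end Pool.Agent.MP_b525bf_ag_TS
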