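import Pool.Agent.Lib.MP_b525bf_ag_TS.CurveStage
import Pool.Agent.Lib.MP_b525bf_ag_TS.StageZ

/-!
# V1b: stages of the line and the point with monomial functions
-/

set_option autoImplicit false

namespace Pool.Agent.MP_b525bf_ag_TS

open Pool.Agent.MP_b525bf_ag Pool.Agent.MP_b525bf_ag_W Pool.Agent.MP_b525bf_ag_P AddMonoidAlgebra

namespace CurveStage

section StageZ

variable {k K E : Type} [Field k] [Field K] [Algebra k K] [Fintype E] {B : Subalgebra k K}

/-- Stages of a curve with a global coordinate, with monomial functions. -/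
theorem hasStageZ_of (hB : B.FG) {x : K} (hx : x ∈ B) (D : Derivation k K K) (hDx : D x = 1)
    (hDB : ∀ z ∈ B, D z ∈ B) (hxc : ∀ c : k, x ≠ algebraMap k K c)
    (hsm : ∀ c : k, ∀ h : x - algebraMap k K c ∈ B,
      (MvPolynomial.aeval (fun _ : Fin 1 => (⟨x - algebraMap k K c, h⟩ : B)) :
        MvPolynomial (Fin 1) k →ₐ[k] B).toRingHom.FormallySmooth)
    (a : E → k) (ha : Function.Injective a) (n : E → ℤ) (ω : Derivation k K K →ₗ[K] K)
    (hω : ω = 0 ∨ ∃ c : k, c ≠ 0 ∧
      ω D = algebraMap k K c * ∏ j, (x - algebraMap k K (a j)) ^ n j)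
    {Z : Set K} (hZ : ∀ z ∈ Z, ∃ c : k, c ≠ 0 ∧ ∃ m : E → ℤ,
      z = algebraMap k K c * ∏ j, (x - algebraMap k K (a j)) ^ m j) :
    HasStageZ B 1 (fun _ : Unit => ω) Z := by
  classical
  set g : E → K := fun j => x - algebraMap k K (a j) with hgdef
  have hg : ∀ i, g i ≠ 0 := fun i => sub_ne_zero.2 (hxc _)
  have hgB : ∀ i, g i ∈ B := fun i => B.sub_mem hx (B.algebraMap_mem _)
  set M := twist B g hg with hM
  set h : K := ∏ j, g j with hh
  have hDg : ∀ i, D (g i) = 1 := fun i => by
    rw [hgdef]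
    simp only
    rw [map_sub, hDx, Derivation.map_algebraMap, sub_zero]
  refine ⟨E → ℤ, inferInstance, inferInstance, inferInstance, E, inferInstance, M, 0, uv,
    fun _ j => n j + 1, ⟨⟨twist_fg hg hB, sec_mem hg hgB, ?_, ?_, ?_, ?_, ?_⟩, ?_, ?_⟩, ?_⟩
  · intro m
    rw [smul_zero, neg_zero]
    exact M.one'
  · exact ⟨1, one_pos, 1, by rw [smul_zero]; exact M.one', one_ne_zero⟩
  · exact fun d => ⟨fun i => -|d i|, nonpos_mem hg hgB fun i => neg_nonpos.2 (abs_nonneg _),
      nonpos_mem hg hgB fun i => by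
        have := le_abs_self (d i)
        simp only [Pi.add_apply]
        omega⟩
  · intro q _ _ d
    refine ⟨1, one_pos, 1, one_pos, ?_⟩
    rw [one_nsmul, one_nsmul, zero_add]
    have h1 : IsU M d (mon g d) := by
      refine ⟨mon_ne hg d, mon_mem hg B d, ?_⟩
      rw [← mon_neg]
      exact mon_mem hg B (-d)
    exact ⟨mon g d, h1.2.1, (isU_atP_iff M q h1.2.1).1 (isU_at q h1)⟩
  · intro q _ _
    obtain ⟨c, -, -, T, C, hC⟩ := exists_chart hg hB hx a ha (fun _ => rfl) hsm q
    exact ⟨T, C, hC⟩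
  · ext z
    rw [hM, mem_twist, mon_zero, div_one]
    rfl
  · intro q _ _
    obtain ⟨c, hc, hunit, -⟩ := exists_chart hg hB hx a ha (fun _ => rfl) hsm q
    set A := atP M q with hA
    have hB0 : ∀ z ∈ B, z ∈ A.s 0 := fun z hz => le_atP M q _ (by
      rw [hM, mem_twist, mon_zero, div_one]
      exact hz)
    have hgU : ∀ i, IsU A (uv i) (g i) := fun i => isU_at q (g_isU hg B i)
    have hδg : ∀ i, (h • D) (g i) ∈ A.s (uv i) := by
      intro i
      rw [Derivation.smul_apply, hDg, smul_eq_mul, mul_one, hh,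
        ← Finset.mul_prod_erase _ _ (Finset.mem_univ i)]
      have h1 := A.mul' (hgU i).2.1 (hB0 _ (Subalgebra.prod_mem B (t := Finset.univ.erase i)
        (f := g) fun j _ => hgB j))
      rwa [add_zero] at h1
    have hhU : IsU A (∑ j, uv j) h := isU_prod Finset.univ fun j _ => hgU j
    have hωU : ω = 0 ∨ IsU A (wdeg uv fun j => n j + 1) (ω (h • D)) := by
      rcases hω with hω | ⟨r, hr, hω⟩
      · exact Or.inl hω
      · right
        have h1 : IsU A (∑ j, (n j + 1) • uv j) (∏ j, g j ^ (n j + 1)) :=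
          isU_prod Finset.univ fun j _ => isU_zpow (hgU j) (n j + 1)
        have h2 : IsU A 0 (algebraMap k K r) := by
          refine ⟨(map_ne_zero _).2 hr, hB0 _ (B.algebraMap_mem _), ?_⟩
          rw [neg_zero, ← map_inv₀]
          exact hB0 _ (B.algebraMap_mem _)
        have h3 := h2.mul h1
        rw [zero_add] at h3
        have e : ω (h • D) = algebraMap k K r * ∏ j, g j ^ (n j + 1) := by
          rw [map_smul, hω, smul_eq_mul, hh, mul_left_comm, ← Finset.prod_mul_distrib]
          congr 1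
          refine Finset.prod_congr rfl fun j _ => ?_
          rw [zpow_add_one₀ (hg j), mul_comm]
        rw [e]
        exact h3
    refine ⟨fun _ => h • D, fun _ => x - algebraMap k K c, fun _ => ∑ j, uv j, ?_, ?_, ?_, ?_, ?_,
      ?_⟩
    · intro _
      refine pres_of_le fun d z hz => ?_
      rw [hM, mem_twist] at hz
      have h1 : z / mon g d ∈ (pfam A (h • D)).s 0 := by
        refine ⟨hB0 _ hz, ?_⟩
        rw [Derivation.smul_apply, smul_eq_mul]
        exact hB0 _ (B.mul_mem (Subalgebra.prod_mem _ fun j _ => hgB j) (hDB _ hz))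
      have h2 : IsU (pfam A (h • D)) (∑ i, d i • uv i) (∏ i, g i ^ d i) :=
        isU_prod Finset.univ fun i _ => isU_zpow (isU_pfam (hgU i) (hδg i)) (d i)
      rw [sum_uv] at h2
      have h3 := (pfam A (h • D)).mul' h1 h2.2.1
      have h4 : z / mon g d * ∏ i, g i ^ d i = z := div_mul_cancel₀ _ (mon_ne hg d)
      rw [h4, zero_add] at h3
      exact h3.2
    · intro _
      by_cases hT : ∃ j, ¬ IsU A 0 (g j)
      · obtain ⟨j, hj⟩ := hT
        have h1 : x - algebraMap k K c = g j := by rw [← hc j hj]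
        rw [h1]
        have h2 : (1 : K) ∈ A.s (∑ i ∈ Finset.univ.erase j, uv i) := by
          refine one_mem_sum A _ fun i hi => hunit i ?_
          by_contra h3
          have h4 : a i = a j := by rw [hc i h3, hc j hj]
          exact (Finset.mem_erase.1 hi).1 (ha h4)
        have h3 := A.mul' (hgU j).2.1 h2
        rw [mul_one, Finset.add_sum_erase _ _ (Finset.mem_univ j)] at h3
        exact h3
      · push Not at hT
        have h1 : (1 : K) ∈ A.s (∑ i, uv i) := one_mem_sum A _ fun i _ => hunit i (hT i)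
        have h2 := A.mul' (hB0 _ (B.sub_mem hx (B.algebraMap_mem c))) h1
        rwa [mul_one, zero_add] at h2
    · rw [Fintype.sum_unique, Matrix.det_fin_one]
      change IsU A (∑ j, uv j) ((h • D) (x - algebraMap k K c))
      rw [Derivation.smul_apply, map_sub, hDx, Derivation.map_algebraMap, sub_zero, smul_eq_mul,
        mul_one]
      exact hhU
    · intro _ _
      rcases hωU with h1 | h1
      · rw [h1]
        exact Submodule.zero_mem _
      · exact h1.2.1
    · intro _
      rcases hωU with h1 | h1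
      · exact Or.inl h1
      · exact Or.inr ⟨0, h1⟩
    · intro l i i' hii
      exact absurd (Subsingleton.elim i i') hii
  · intro z hz
    obtain ⟨c, hc, m, e⟩ := hZ z hz
    refine ⟨m, fun q _ _ => ?_⟩
    set A := atP M q with hA
    have hB0 : ∀ z ∈ B, z ∈ A.s 0 := fun z hz => le_atP M q _ (by
      rw [hM, mem_twist, mon_zero, div_one]
      exact hz)
    have hgU : ∀ i, IsU A (uv i) (g i) := fun i => isU_at q (g_isU hg B i)
    have h1 : IsU A (∑ j, m j • uv j) (∏ j, g j ^ m j) :=
      isU_prod Finset.univ fun j _ => isU_zpow (hgU j) (m j)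
    have h2 : IsU A 0 (algebraMap k K c) := by
      refine ⟨(map_ne_zero _).2 hc, hB0 _ (B.algebraMap_mem _), ?_⟩
      rw [neg_zero, ← map_inv₀]
      exact hB0 _ (B.algebraMap_mem _)
    have h3 := h2.mul h1
    rw [zero_add] at h3
    rw [e]
    exact h3

end StageZ

/-- The factorisation with a larger set of points. -/
theorem factor' {k : Type} [Field k] [IsAlgClosed k] (F : KK k (Fin 1)) :
    ∃ S : Finset k, F ≠ 0 → ∀ S' : Finset k, S ⊆ S' → ∃ c : k, c ≠ 0 ∧ ∃ m : S' → ℤ,
      F = algebraMap k (KK k (Fin 1)) c *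
        ∏ j : S', (xL k - algebraMap k (KK k (Fin 1)) j.1) ^ m j := by
  classical
  by_cases hF : F = 0
  · exact ⟨∅, fun h => absurd hF h⟩
  obtain ⟨S, n, c, hc, h⟩ := factor hF
  refine ⟨S, fun _ S' hS => ⟨c, hc, fun j => if j.1 ∈ S then n j else 0, ?_⟩⟩
  rw [h]
  congr 1
  have h1 : ∏ j : S', (xL k - algebraMap k (KK k (Fin 1)) j.1) ^
      (if j.1 ∈ S then n j.1 else 0) = ∏ a ∈ S', (xL k - algebraMap k (KK k (Fin 1)) a) ^
      (if a ∈ S then n a else 0) :=
    Finset.prod_coe_sort S' fun a => (xL k - algebraMap k (KK k (Fin 1)) a) ^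
      (if a ∈ S then n a else 0)
  rw [h1, ← Finset.prod_subset hS]
  · refine Finset.prod_congr rfl fun a ha => ?_
    rw [if_pos ha]
  · intro a _ ha
    rw [if_neg ha, zpow_zero]

end CurveStage

open CurveStage in
/-- Every form on the line has a stage in which the functions of a given finite set are
monomials. -/
theorem hasStageZ_line {k : Type} [Field k] [IsAlgClosed k] (l g : KK k (Fin 1))
    (Z : Set (KK k (Fin 1))) (hZ : Z.Finite) (h0 : (0 : KK k (Fin 1)) ∉ Z) :
    HasStageZ (BB k (Fin 1)) 1 (fun _ : Unit => lform l g) Z := by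
  classical
  obtain ⟨D, hD⟩ := exists_D (k := k)
  have hDx : D (xL k) = 1 := by
    rw [xL, hD, MvPolynomial.pderiv_X_self, map_one]
  have hDB : ∀ z ∈ BB k (Fin 1), D z ∈ BB k (Fin 1) := by
    rintro _ ⟨P, rfl⟩
    exact ⟨MvPolynomial.pderiv (0 : Fin 1) P, (hD P).symm⟩
  have hxc : ∀ c : k, xL k ≠ algebraMap k (KK k (Fin 1)) c := by
    intro c h
    have h1 := congrArg D h
    rw [hDx, Derivation.map_algebraMap] at h1
    exact one_ne_zero h1
  choose S hS using fun F : KK k (Fin 1) => factor' F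
  have hZS : ∀ S' : Finset k, hZ.toFinset.biUnion S ⊆ S' → ∀ z ∈ Z, ∃ c : k, c ≠ 0 ∧
      ∃ m : S' → ℤ, z = algebraMap k (KK k (Fin 1)) c *
        ∏ j : S', (xL k - algebraMap k (KK k (Fin 1)) j.1) ^ m j := by
    intro S' hS' z hz
    refine hS z (fun h => h0 (h ▸ hz)) S' (Finset.Subset.trans ?_ hS')
    exact Finset.subset_biUnion_of_mem S (hZ.mem_toFinset.2 hz)
  refine hasStageZ_of BB_fg xL_mem D hDx hDB hxc smooth_shift
    (E := (hZ.toFinset.biUnion S ∪ S (lform l g D) : Finset k)) Subtype.val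
    Subtype.val_injective
    (if h : lform l g D = 0 then 0 else
      (hS (lform l g D) h _ Finset.subset_union_right).choose_spec.2.choose)
    (lform l g) ?_ (hZS _ Finset.subset_union_left)
  by_cases h : lform l g D = 0
  · left
    refine LinearMap.ext fun D' => ?_
    rw [derivation_eq D hDx D', LinearMap.map_smul, h, smul_zero]
    rfl
  · right
    rw [dif_neg h]
    have h1 := (hS (lform l g D) h _
      (Finset.subset_union_right (s₁ := hZ.toFinset.biUnion S))).choose_spec
    exact ⟨_, h1.1, h1.2.choose_spec⟩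

/-- The block without variables. -/
theorem hasStageZ_point {k : Type} [Field k] (l g : KK k (Fin 0))
    (Z : Set (KK k (Fin 0))) (h0 : (0 : KK k (Fin 0)) ∉ Z) :
    HasStageZ (BB k (Fin 0)) 0 (fun _ : Unit => lform l g) Z := by
  have hs : ∀ z : KK k (Fin 0), ∃ c : k, algebraMap k (KK k (Fin 0)) c = z := by
    intro z
    obtain ⟨P, Q, hQ, rfl⟩ := IsFractionRing.div_surjective (A := MvPolynomial (Fin 0) k) z
    obtain ⟨a, rfl⟩ := MvPolynomial.C_surjective (Fin 0) P
    obtain ⟨b, rfl⟩ := MvPolynomial.C_surjective (Fin 0) Q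
    refine ⟨a / b, ?_⟩
    rw [map_div₀]
    rfl
  obtain ⟨ι, i1, i2, i3, J, i4, M, a, u, α, h⟩ := hasStage_point l g
  refine ⟨ι, i1, i2, i3, J, i4, M, a, u, α, h, fun z hz => ⟨0, ?_⟩⟩
  obtain ⟨c, rfl⟩ := hs z
  refine mono_algebraMap ?_
  rintro rfl
  rw [map_zero] at hz
  exact h0 hz

end Pool.Agent.MP_b525bf_ag_TS
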