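import Pool.Agent.Lib.MP_b525bf_ag_P.Defs

/-!
# Theorem TS: definitions for families with logarithmic structure

Blueprint: team-store `b525bf_TS_blueprint.md`.
-/

set_option autoImplicit false

namespace Pool.Agent.MP_b525bf_ag_TS

open Pool.Agent.MP_b525bf_ag Pool.Agent.MP_b525bf_ag_W Pool.Agent.MP_b525bf_ag_P AddMonoidAlgebra

/-- The form `l dg` as a functional on derivations. -/
def lform {k K : Type} [Field k] [Field K] [Algebra k K] (l g : K) :
    Derivation k K K →ₗ[K] K where
  toFun D := l * D g
  map_add' D D' := by rw [Derivation.add_apply, mul_add]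
  map_smul' c D := by
    rw [Derivation.smul_apply, RingHom.id_apply, smul_eq_mul, smul_eq_mul]; ring

section Log

variable {k K ι : Type} [Field k] [Field K] [Algebra k K] [AddCommGroup ι]

/-- The derivation `D` preserves the homogeneous localisation at `q`. -/
def Pres (M : Fam k K ι) (q : Ideal M.alg) [q.IsPrime] (D : Derivation k K K) : Prop :=
  ∀ d, ∀ y ∈ (atP M q).s d, D y ∈ (atP M q).s d

/-- The logarithmic structure at `q`: a basis `δ` of the logarithmic derivations, coordinates `y`
of degrees `d`; the form `ω i` is zero or a multiple of the monomial of degree `c i` by a nowhere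
vanishing logarithmic form; each `δ l` is seen by at most one of the forms. -/
def LD {I : Type} (M : Fam k K ι) (q : Ideal M.alg) [q.IsPrime] (N : ℕ)
    (ω : I → Derivation k K K →ₗ[K] K) (c : I → ι) : Prop :=
  ∃ (δ : Fin N → Derivation k K K) (y : Fin N → K) (d : Fin N → ι),
    (∀ l, Pres M q (δ l)) ∧ (∀ l, y l ∈ (atP M q).s (d l)) ∧
    IsU (atP M q) (∑ l, d l) (Matrix.of fun l m => δ l (y m)).det ∧
    (∀ i l, ω i (δ l) ∈ (atP M q).s (c i)) ∧
    (∀ i, ω i = 0 ∨ ∃ l, IsU (atP M q) (c i) (ω i (δ l))) ∧
    ∀ l i i', i ≠ i' → ω i (δ l) = 0 ∨ ω i' (δ l) = 0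

/-- A stage: a toric family with logarithmic structure. The sections `1` of degree `-(u j)` are the
equations of the components of the boundary. -/
structure LogStage {J I : Type} [Fintype J] (B : Subalgebra k K) (M : Fam k K ι) (a : ι)
    (u : J → ι) (N : ℕ) (ω : I → Derivation k K K →ₗ[K] K) (α : I → J → ℤ) : Prop where
  tor : Tor M a u
  zero : M.s 0 = Subalgebra.toSubmodule B
  loc : ∀ (q : Ideal M.alg) [q.IsPrime], Semi M a q → LD M q N ω fun i => wdeg u (α i)

end Log

/-- There is a stage with piece of degree zero `B` for the forms `ω`. -/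
def HasStage {k K I : Type} [Field k] [Field K] [Algebra k K] (B : Subalgebra k K) (N : ℕ)
    (ω : I → Derivation k K K →ₗ[K] K) : Prop :=
  ∃ (ι : Type) (_ : AddCommGroup ι) (_ : Module.Free ℤ ι) (_ : Module.Finite ℤ ι) (J : Type)
    (_ : Fintype J) (M : Fam k K ι) (a : ι) (u : J → ι) (α : I → J → ℤ),
    LogStage B M a u N ω α

/-- The subfield `K ^ p (f)`. -/
def Lf {k K : Type} [Field k] [Field K] [Algebra k K] (p : ℕ) (f : K) : IntermediateField k K :=
  IntermediateField.adjoin k ({z | ∃ w, z = w ^ p} ∪ {f})

/-- The fractions of polynomials in the variables `σ`. -/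
abbrev KK (k σ : Type) [Field k] : Type := FractionRing (MvPolynomial σ k)

/-- The ring of polynomials as a subalgebra of its field of fractions. -/
noncomputable def BB (k σ : Type) [Field k] : Subalgebra k (KK k σ) :=
  (Algebra.algHom k (MvPolynomial σ k) (KK k σ)).range

/-- The homomorphism of the fields of fractions for a map of the variables. -/
noncomputable def incl {k σ τ : Type} [Field k] (f : σ → τ) (hf : Function.Injective f) :
    KK k σ →ₐ[k] KK k τ :=
  IsFractionRing.liftAlgHom (K := KK k σ)
    (g := (Algebra.algHom k (MvPolynomial τ k) (KK k τ)).comp (MvPolynomial.rename f))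
    ((IsFractionRing.injective (MvPolynomial τ k) (KK k τ)).comp
      (MvPolynomial.rename_injective f hf))

end Pool.Agent.MP_b525bf_ag_TS
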