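import Pool.Agent.Lib.MP_b525bf_ag_TS.Defs

/-!
# Theorem TS for several equations: definitions
-/

set_option autoImplicit false

namespace Pool.Agent.MP_b525bf_ag_TS

/-- The subfield `K ^ p (f_1, ..., f_r)`. -/
def Lfs {k K : Type} [Field k] [Field K] [Algebra k K] (p : ℕ) {r : ℕ} (f : Fin r → K) :
    IntermediateField k K :=
  IntermediateField.adjoin k ({z | ∃ w, z = w ^ p} ∪ Set.range f)

end Pool.Agent.MP_b525bf_ag_TS
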