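import Pool.Agent.Lib.MP_b525bf_ag_TS.Defs

/-!
# Theorem TU: definitions used in the statement
-/

set_option autoImplicit false

namespace Pool.Agent.MP_b525bf_ag_TS

section

variable {k : Type} [Field k] {n m : ℕ} {s : Fin n → ℕ}

/-- The inclusion of the field of rational functions in the variables of the `i`-th block. -/
noncomputable def incT (m : ℕ) (i : Fin n) :
    KK k (Fin (s i)) →ₐ[k] KK k (((i : Fin n) × Fin (s i)) ⊕ Fin m) :=
  incl (fun j : Fin (s i) => (Sum.inl ⟨i, j⟩ : ((i : Fin n) × Fin (s i)) ⊕ Fin m))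
    (Sum.inl_injective.comp (sigma_mk_injective (β := fun i : Fin n => Fin (s i))))

/-- `z` is the product of the monomial with exponents `e` in the variables `t_l` and of nonzero
rational functions in the variables of single blocks. -/
def IsProdFun (e : Fin m → ℤ) (z : KK k (((i : Fin n) × Fin (s i)) ⊕ Fin m)) : Prop :=
  ∃ a : ∀ i, KK k (Fin (s i)), (∀ i, a i ≠ 0) ∧
    z = (∏ l, algebraMap (MvPolynomial (((i : Fin n) × Fin (s i)) ⊕ Fin m) k) _
      (MvPolynomial.X (Sum.inr l)) ^ e l) * ∏ i, incT m i (a i)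

end

end Pool.Agent.MP_b525bf_ag_TS
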