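import Pool.Agent.Lib.MP_b525bf_ag_TS.Defs

/-!
# D4: degrees of purely inseparable extensions
-/

set_option autoImplicit false

namespace Pool.Agent.MP_b525bf_ag_TS

namespace Deg

open MvPolynomial

section Poly

variable {p : ℕ} [hp : Fact p.Prime] {k : Type} [Field k] [CharP k p] {σ : Type}

theorem pow_eq (F : MvPolynomial σ k) :
    F ^ p = MvPolynomial.map (frobenius k p) (expand p F) := by
  have h : frobenius (MvPolynomial σ k) p =
      (MvPolynomial.map (frobenius k p)).comp (expand p : MvPolynomial σ k →ₐ[k] _).toRingHom := by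
    apply MvPolynomial.ringHom_ext
    · intro r
      simp [frobenius_def]
    · intro i
      simp [frobenius_def]
  have := congrArg (fun φ : MvPolynomial σ k →+* MvPolynomial σ k => φ F) h
  simpa [frobenius_def] using this

theorem coeff_pow (F : MvPolynomial σ k) (e : σ →₀ ℕ) :
    (F ^ p).coeff (p • e) = (F.coeff e) ^ p := by
  rw [pow_eq, coeff_map, coeff_expand_smul p hp.out.ne_zero, frobenius_def]

theorem coeff_pow_zero (F : MvPolynomial σ k) {e : σ →₀ ℕ} {i : σ} (h : ¬ p ∣ e i) :
    (F ^ p).coeff e = 0 := by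
  rw [pow_eq, coeff_map, coeff_expand_of_not_dvd _ h, map_zero]

/-- The exponent of a basis monomial. -/
noncomputable def bexp [Fintype σ] (β : σ → Fin p) : σ →₀ ℕ :=
  Finsupp.equivFunOnFinite.symm fun i => (β i : ℕ)

theorem indep [Fintype σ] [DecidableEq σ] (F : (σ → Fin p) → MvPolynomial σ k)
    (h : ∑ β : σ → Fin p, F β ^ p * monomial (bexp β) 1 = 0) (β₀ : σ → Fin p) : F β₀ = 0 := by
  ext e
  rw [coeff_zero]
  have h1 := congrArg (coeff (p • e + bexp β₀)) h
  rw [coeff_sum, coeff_zero, Finset.sum_eq_single β₀] at h1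
  · rw [coeff_mul_monomial', if_pos (by exact le_add_self), add_tsub_cancel_right, mul_one,
      coeff_pow] at h1
    exact pow_eq_zero_iff hp.out.ne_zero |>.mp h1
  · intro β _ hβ
    rw [coeff_mul_monomial']
    split_ifs with hle
    · obtain ⟨i, hi⟩ := Function.ne_iff.mp hβ
      rw [coeff_pow_zero (i := i), zero_mul]
      intro hdvd
      have h2 := hle i
      simp only [Finsupp.coe_tsub, Finsupp.coe_add, Finsupp.coe_smul, Pi.sub_apply, Pi.add_apply,
        Pi.smul_apply, smul_eq_mul, bexp, Finsupp.equivFunOnFinite_symm_apply_apply] at hdvd h2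
      have hb := (β i).isLt
      have hb0 := (β₀ i).isLt
      apply hi
      apply Fin.ext
      obtain ⟨c, hc⟩ := hdvd
      have h3 : p * e i + (β₀ i : ℕ) = p * c + (β i : ℕ) := by omega
      have h4 := congrArg (· % p) h3
      simpa [Nat.mul_add_mod, Nat.mod_eq_of_lt hb, Nat.mod_eq_of_lt hb0] using h4.symm
    · rfl
  · intro h
    exact absurd (Finset.mem_univ _) h

theorem exists_root [IsAlgClosed k] (c : k) : ∃ d : k, d ^ p = c :=
  IsAlgClosed.exists_pow_nat_eq c hp.out.pos

/-- Every polynomial is a combination of basis monomials with coefficients `p`-th powers. -/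
theorem exists_dec [Fintype σ] [DecidableEq σ] [IsAlgClosed k] (F : MvPolynomial σ k) :
    ∃ G : (σ → Fin p) → MvPolynomial σ k, F = ∑ β : σ → Fin p, G β ^ p * monomial (bexp β) 1 := by
  induction F using MvPolynomial.induction_on' with
  | monomial u a =>
    obtain ⟨d, hd⟩ := exists_root (p := p) a
    let β₀ : σ → Fin p := fun i => ⟨u i % p, Nat.mod_lt _ hp.out.pos⟩
    let e : σ →₀ ℕ := Finsupp.equivFunOnFinite.symm fun i => u i / p
    refine ⟨fun β => if β = β₀ then monomial e d else 0, ?_⟩
    rw [Finset.sum_eq_single β₀]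
    · have he : u = p • e + bexp β₀ := by
        ext i
        simp only [Finsupp.coe_add, Finsupp.coe_smul, Pi.add_apply, Pi.smul_apply, smul_eq_mul,
          bexp, Finsupp.equivFunOnFinite_symm_apply_apply, e, β₀]
        exact (Nat.div_add_mod _ _).symm
      simp only [if_true]
      rw [monomial_pow, monomial_mul, mul_one, hd, ← he]
    · intro β _ hβ
      simp only [if_neg hβ]
      rw [zero_pow hp.out.ne_zero, zero_mul]
    · intro h; exact absurd (Finset.mem_univ _) h
  | add P Q hP hQ =>
    obtain ⟨G, hG⟩ := hP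
    obtain ⟨H, hH⟩ := hQ
    refine ⟨fun β => G β + H β, ?_⟩
    conv_lhs => rw [hG, hH]
    rw [← Finset.sum_add_distrib]
    refine Finset.sum_congr rfl fun β _ => ?_
    rw [add_pow_char, add_mul]

end Poly

section Fields

variable (p : ℕ) [hp : Fact p.Prime] {k : Type} [Field k] [CharP k p] [IsAlgClosed k]
  {K : Type} [Field K] [Algebra k K] [CharP K p]

/-- The subfield of `p`-th powers. -/
def Kp : IntermediateField k K where
  carrier := {z | ∃ w, z = w ^ p}
  mul_mem' := by
    rintro _ _ ⟨a, rfl⟩ ⟨b, rfl⟩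
    exact ⟨a * b, (mul_pow _ _ _).symm⟩
  add_mem' := by
    rintro _ _ ⟨a, rfl⟩ ⟨b, rfl⟩
    exact ⟨a + b, (add_pow_char _ _ _).symm⟩
  algebraMap_mem' := by
    intro c
    obtain ⟨d, hd⟩ := exists_root (p := p) c
    exact ⟨algebraMap k K d, by rw [← map_pow, hd]⟩
  inv_mem' := by
    rintro _ ⟨a, rfl⟩
    exact ⟨a⁻¹, (inv_pow _ _).symm⟩

theorem mem_Kp {z : K} : z ∈ Kp (k := k) p ↔ ∃ w, z = w ^ p := Iff.rfl

theorem Kp_le (f : K) : Kp (k := k) p ≤ Lf (k := k) p f := by
  intro z hz
  exact IntermediateField.subset_adjoin _ _ (Or.inl hz)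

theorem extend_eq (f : K) : IntermediateField.extendScalars (Kp_le (k := k) p f) =
    IntermediateField.adjoin (Kp (k := k) (K := K) p) {f} := by
  apply le_antisymm
  · intro z hz
    have h1 : Lf (k := k) p f ≤ (IntermediateField.adjoin (Kp (k := k) (K := K) p)
        {f}).restrictScalars k := by
      unfold Lf
      rw [IntermediateField.adjoin_le_iff]
      rintro z (hz | hz)
      · show z ∈ IntermediateField.adjoin (Kp (k := k) (K := K) p) {f}
        exact IntermediateField.algebraMap_mem (IntermediateField.adjoin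
          (Kp (k := k) (K := K) p) {f}) (⟨z, hz⟩ : Kp (k := k) (K := K) p)
      · show z ∈ IntermediateField.adjoin (Kp (k := k) (K := K) p) {f}
        rw [Set.mem_singleton_iff.1 hz]
        exact IntermediateField.mem_adjoin_simple_self _ f
    exact h1 hz
  · have h1 : f ∈ Lf (k := k) p f := IntermediateField.subset_adjoin _ _ (Or.inr rfl)
    exact IntermediateField.adjoin_simple_le_iff.2
      ((IntermediateField.mem_extendScalars (Kp_le (k := k) p f)).2 h1)

theorem finrank_adjoin (f : K) (hf : ∀ w, w ^ p ≠ f) :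
    Module.finrank (Kp (k := k) (K := K) p)
      (IntermediateField.adjoin (Kp (k := k) (K := K) p) {f}) = p := by
  obtain ⟨a, haf⟩ : ∃ a : Kp (k := k) (K := K) p, (a : K) = f ^ p := ⟨⟨f ^ p, f, rfl⟩, rfl⟩
  have ha : ∀ b : Kp (k := k) (K := K) p, b ^ p ≠ a := by
    rintro ⟨b, hb⟩ h
    obtain ⟨w, rfl⟩ := (mem_Kp p).1 hb
    have h1 : (w ^ p) ^ p = f ^ p := by
      rw [← haf, ← h]
      rfl
    exact hf w (frobenius_inj K p h1)
  have hirr := X_pow_sub_C_irreducible_of_prime hp.out ha
  have hmon : (Polynomial.X ^ p - Polynomial.C a).Monic :=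
    Polynomial.monic_X_pow_sub_C a hp.out.ne_zero
  have hroot : Polynomial.aeval f (Polynomial.X ^ p - Polynomial.C a) = 0 := by
    rw [map_sub, map_pow, Polynomial.aeval_X, Polynomial.aeval_C]
    rw [show algebraMap (Kp (k := k) (K := K) p) K a = f ^ p from haf, sub_self]
  have hint : IsIntegral (Kp (k := k) (K := K) p) f := ⟨_, hmon, hroot⟩
  rw [IntermediateField.adjoin.finrank hint,
    ← minpoly.eq_of_irreducible_of_monic hirr hroot hmon, Polynomial.natDegree_X_pow_sub_C]

end Fields

section Rank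

variable {p : ℕ} [hp : Fact p.Prime] {k : Type} [Field k] [CharP k p] [IsAlgClosed k]
  {σ : Type} [Fintype σ]

instance : CharP (KK k σ) p := charP_of_injective_algebraMap (algebraMap k (KK k σ)).injective p

theorem finrank_Kp : Module.finrank (Kp (k := k) (K := KK k σ) p) (KK k σ) =
    p ^ Fintype.card σ := by
  classical
  let v : (σ → Fin p) → KK k σ := fun β => algebraMap (MvPolynomial σ k) _ (monomial (bexp β) 1)
  have hli : LinearIndependent (Kp (k := k) (K := KK k σ) p) v := by
    rw [Fintype.linearIndependent_iff]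
    intro c hc β₀
    have h1 : ∀ β, ∃ w : KK k σ, (c β : KK k σ) = w ^ p := fun β => (c β).2
    choose w hw using h1
    obtain ⟨b, hb⟩ := IsLocalization.exist_integer_multiples_of_finset
      (nonZeroDivisors (MvPolynomial σ k)) (Finset.univ.image w)
    have h2 : ∀ β, ∃ F : MvPolynomial σ k, algebraMap _ (KK k σ) F =
        algebraMap _ (KK k σ) (b : MvPolynomial σ k) * w β := by
      intro β
      obtain ⟨F, hF⟩ := hb (w β) (Finset.mem_image_of_mem _ (Finset.mem_univ _))
      exact ⟨F, by rw [hF, Algebra.smul_def]⟩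
    choose F hF using h2
    have hb0 : algebraMap _ (KK k σ) (b : MvPolynomial σ k) ≠ 0 := by
      rw [Ne, FaithfulSMul.algebraMap_eq_zero_iff]
      exact nonZeroDivisors.ne_zero b.2
    have h3 : ∑ β : σ → Fin p, F β ^ p * monomial (bexp β) 1 = 0 := by
      apply FaithfulSMul.algebraMap_injective (MvPolynomial σ k) (KK k σ)
      rw [map_sum, map_zero]
      have h4 : ∀ β, algebraMap (MvPolynomial σ k) (KK k σ) (F β ^ p * monomial (bexp β) 1) =
          algebraMap _ (KK k σ) (b : MvPolynomial σ k) ^ p * (c β • v β) := by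
        intro β
        rw [map_mul, map_pow, hF, mul_pow, ← hw, mul_assoc]
        rfl
      rw [Finset.sum_congr rfl fun β _ => h4 β, ← Finset.mul_sum, hc, mul_zero]
    have h5 := indep F h3 β₀
    have h6 : w β₀ = 0 := by
      have := hF β₀
      rw [h5, map_zero] at this
      exact (mul_eq_zero.mp this.symm).resolve_left hb0
    apply Subtype.ext
    rw [hw, h6, zero_pow hp.out.ne_zero]
    rfl
  have hsp : ⊤ ≤ Submodule.span (Kp (k := k) (K := KK k σ) p) (Set.range v) := by
    intro z _
    obtain ⟨F, G, hG, rfl⟩ := IsFractionRing.div_surjective (A := MvPolynomial σ k) z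
    have hG0 : algebraMap _ (KK k σ) G ≠ 0 := by
      rw [Ne, FaithfulSMul.algebraMap_eq_zero_iff]
      exact nonZeroDivisors.ne_zero hG
    obtain ⟨H, hH⟩ := exists_dec (p := p) (F * G ^ (p - 1))
    have h1 : algebraMap _ (KK k σ) F / algebraMap _ (KK k σ) G =
        ∑ β : σ → Fin p, (⟨(algebraMap _ (KK k σ) (H β) / algebraMap _ (KK k σ) G) ^ p,
          ⟨_, rfl⟩⟩ : Kp (k := k) (K := KK k σ) p) • v β := by
      have h2 : algebraMap _ (KK k σ) F / algebraMap _ (KK k σ) G =
          algebraMap _ (KK k σ) (F * G ^ (p - 1)) / algebraMap _ (KK k σ) G ^ p := by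
        rw [map_mul, map_pow, div_eq_div_iff hG0 (pow_ne_zero _ hG0), mul_assoc, ← pow_succ,
          Nat.sub_add_cancel hp.out.pos]
      rw [h2, hH, map_sum, Finset.sum_div]
      refine Finset.sum_congr rfl fun β _ => ?_
      rw [map_mul, map_pow]
      show _ = (algebraMap _ (KK k σ) (H β) / algebraMap _ (KK k σ) G) ^ p * v β
      rw [div_pow, div_mul_eq_mul_div]
    rw [h1]
    exact Submodule.sum_mem _ fun β _ => Submodule.smul_mem _ _
      (Submodule.subset_span ⟨β, rfl⟩)
  rw [Module.finrank_eq_card_basis (Module.Basis.mk hli hsp), Fintype.card_fun, Fintype.card_fin]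

end Rank

end Deg

/-- The degree of the field of rational functions over `K ^ p (f)`. -/
theorem finrank_Lf (p : ℕ) [Fact p.Prime] {k : Type} [Field k] [IsAlgClosed k] [CharP k p]
    {σ : Type} [Fintype σ] {m : ℕ} (hσ : Fintype.card σ = m + 1) (f : KK k σ)
    (hf : ∀ w, w ^ p ≠ f) : Module.finrank (Lf (k := k) p f) (KK k σ) = p ^ m := by
  have hpp : 0 < p := (Fact.out : p.Prime).pos
  have h1 := IntermediateField.relfinrank_mul_finrank_top (Deg.Kp_le (k := k) p f)
  rw [IntermediateField.relfinrank_eq_finrank_of_le (Deg.Kp_le (k := k) p f), Deg.extend_eq,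
    Deg.finrank_adjoin p f hf, Deg.finrank_Kp, hσ, pow_succ, mul_comm] at h1
  exact Nat.eq_of_mul_eq_mul_right hpp h1

end Pool.Agent.MP_b525bf_ag_TS
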