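import Pool.Agent.Lib.MP_b525bf_ag_TS.Deg
import Pool.Agent.Lib.MP_b525bf_ag_TS.DefsR

/-!
# R2: degrees for several equations
-/

set_option autoImplicit false

namespace Pool.Agent.MP_b525bf_ag_TS

namespace DegR

/-- Functions with linearly independent differentials have a dual family of derivations. -/
theorem dual_ders {k K : Type} [Field k] [Field K] [Algebra k K] {r : ℕ} (f : Fin r → K)
    (hf : LinearIndependent K fun j => lform (k := k) 1 (f j)) :
    ∃ D : Fin r → Derivation k K K, ∀ i j, D i (f j) = if i = j then 1 else 0 := by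
  have h1 : ∀ i, ∃ D : Derivation k K K, (∀ j, j ≠ i → D (f j) = 0) ∧ D (f i) ≠ 0 := by
    intro i
    by_contra hcon
    push Not at hcon
    have h2 : ⨅ j : {j // j ≠ i}, LinearMap.ker (lform (k := k) 1 (f j)) ≤
        LinearMap.ker (lform (k := k) 1 (f i)) := by
      intro D hD
      rw [Submodule.mem_iInf] at hD
      rw [LinearMap.mem_ker]
      show 1 * D (f i) = 0
      rw [one_mul]
      refine hcon D fun j hj => ?_
      have h3 := hD ⟨j, hj⟩
      rw [LinearMap.mem_ker] at h3
      have h4 : 1 * D (f j) = 0 := h3
      rwa [one_mul] at h4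
    have h3 := mem_span_of_iInf_ker_le_ker h2
    rw [linearIndependent_iff_notMem_span] at hf
    refine hf i (Submodule.span_mono ?_ h3)
    rintro _ ⟨⟨j, hj⟩, rfl⟩
    exact ⟨j, ⟨Set.mem_univ _, hj⟩, rfl⟩
  choose D hD0 hD1 using h1
  refine ⟨fun i => (D i (f i))⁻¹ • D i, fun i j => ?_⟩
  rw [Derivation.smul_apply, smul_eq_mul]
  split_ifs with h
  · subst h
    exact inv_mul_cancel₀ (hD1 i)
  · rw [hD0 i j (Ne.symm h), mul_zero]

/-- A polynomial of degree less than `p` whose coefficients are constants for a derivation `D` and
which vanishes at `f` with `D f = 1` is zero. -/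
theorem poly_eq_zero {K : Type} [Field K] (p : ℕ) [hp : Fact p.Prime] [CharP K p] {k : Type}
    [Field k] [Algebra k K] (D : Derivation k K K) (f : K) (hf : D f = 1) :
    ∀ (n : ℕ) (P : Polynomial K), P.natDegree ≤ n → n < p → (∀ i, D (P.coeff i) = 0) →
      P.eval f = 0 → P = 0 := by
  intro n
  induction n with
  | zero =>
    intro P hP _ _ h0
    obtain ⟨a, rfl⟩ := Polynomial.natDegree_eq_zero.1 (Nat.le_zero.1 hP)
    rw [Polynomial.eval_C] at h0
    rw [h0, map_zero]
  | succ n ih =>
    intro P hP hn hD h0
    have h1 : Polynomial.derivative P = 0 := by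
      apply ih
      · exact (Polynomial.natDegree_derivative_le P).trans (by omega)
      · omega
      · intro i
        rw [Polynomial.coeff_derivative, Derivation.leibniz, hD, smul_zero, add_zero,
          show ((i : K) + 1) = ((i + 1 : ℕ) : K) by push_cast; ring, Derivation.map_natCast,
          smul_zero]
      · have h2 : D (P.eval f) = (Polynomial.derivative P).eval f * D f := by
          rw [Polynomial.eval_eq_sum_range, map_sum, Polynomial.derivative_eval,
            Polynomial.sum_def, Finset.sum_mul]
          rw [Finset.sum_subset (s₁ := P.support) (s₂ := Finset.range (P.natDegree + 1))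
            (f := fun i => P.coeff i * ↑i * f ^ (i - 1) * D f)]
          · refine Finset.sum_congr rfl fun i _ => ?_
            rw [Derivation.leibniz, hD, smul_zero, add_zero, Derivation.leibniz_pow, smul_eq_mul,
              smul_eq_mul, nsmul_eq_mul]
            ring
          · exact Polynomial.supp_subset_range_natDegree_succ
          · intro i _ hi
            rw [Polynomial.notMem_support_iff] at hi
            rw [hi]; ring
        rw [h0, map_zero, hf, mul_one] at h2
        exact h2.symm
    have h3 : P.natDegree = 0 := by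
      by_contra hne
      have h4 := congrArg (fun Q => Polynomial.coeff Q (P.natDegree - 1)) h1
      simp only [Polynomial.coeff_derivative, Polynomial.coeff_zero] at h4
      rw [Nat.sub_add_cancel (Nat.pos_of_ne_zero hne)] at h4
      rcases mul_eq_zero.1 h4 with h5 | h5
      · rw [Polynomial.coeff_natDegree, Polynomial.leadingCoeff_eq_zero] at h5
        rw [h5, Polynomial.natDegree_zero] at hne
        exact hne rfl
      · have h6 : ((P.natDegree : ℕ) : K) = 0 := by
          rw [← h5]
          have : P.natDegree = (P.natDegree - 1) + 1 := by omega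
          conv_lhs => rw [this]
          push_cast
          ring
        rw [CharP.cast_eq_zero_iff K p] at h6
        have := Nat.le_of_dvd (Nat.pos_of_ne_zero hne) h6
        omega
    obtain ⟨a, rfl⟩ := Polynomial.natDegree_eq_zero.1 h3
    rw [Polynomial.eval_C] at h0
    rw [h0, map_zero]

theorem der_pow {K : Type} [Field K] (p : ℕ) [CharP K p] {k : Type}
    [Field k] [Algebra k K] (D : Derivation k K K) (w : K) : D (w ^ p) = 0 := by
  rw [Derivation.leibniz_pow, nsmul_eq_mul, CharP.cast_eq_zero, zero_mul]

theorem mono_indep_aux {K : Type} [Field K] (p : ℕ) [hp : Fact p.Prime] [CharP K p] {k : Type}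
    [Field k] [Algebra k K] : ∀ (r : ℕ) (f : Fin r → K) (D : Fin r → Derivation k K K),
    (∀ i j, D i (f j) = if i = j then 1 else 0) → ∀ (c : (Fin r → Fin p) → K),
    ∑ e, c e ^ p * ∏ j, f j ^ (e j : ℕ) = 0 → ∀ e, c e = 0 := by
  intro r
  induction r with
  | zero =>
    intro f D _ c h e
    rw [Fintype.sum_subsingleton _ e, Finset.univ_eq_empty, Finset.prod_empty, mul_one] at h
    exact pow_eq_zero_iff hp.out.ne_zero |>.mp h
  | succ r ih =>
    intro f D hD c h e
    -- the coefficients of the polynomial in the first variable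
    let g : Fin p → K := fun a =>
      ∑ e : Fin r → Fin p, c (Fin.cons a e) ^ p * ∏ j, f j.succ ^ (e j : ℕ)
    have hg : ∀ a, D 0 (g a) = 0 := by
      intro a
      rw [map_sum]
      refine Finset.sum_eq_zero fun e _ => ?_
      rw [Derivation.leibniz, der_pow, smul_zero, add_zero]
      have h1 : D 0 (∏ j, f j.succ ^ (e j : ℕ)) = 0 := by
        have : ∀ s : Finset (Fin r), D 0 (∏ j ∈ s, f j.succ ^ (e j : ℕ)) = 0 := by
          intro s
          induction s using Finset.induction_on with
          | empty => rw [Finset.prod_empty, Derivation.map_one_eq_zero]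
          | insert j s hj ih' =>
            rw [Finset.prod_insert hj, Derivation.leibniz, ih', smul_zero, zero_add,
              Derivation.leibniz_pow, hD, if_neg (Fin.succ_ne_zero j).symm, smul_zero, smul_zero,
              smul_zero]
        exact this _
      rw [h1, smul_zero]
    have h2 : ∑ a : Fin p, g a * f 0 ^ (a : ℕ) = 0 := by
      rw [← h, ← (Fin.consEquiv fun _ : Fin (r + 1) => Fin p).sum_comp, Fintype.sum_prod_type]
      refine Finset.sum_congr rfl fun a _ => ?_
      rw [Finset.sum_mul]
      refine Finset.sum_congr rfl fun e _ => ?_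
      rw [Fin.prod_univ_succ]
      show _ = c (Fin.cons a e) ^ p * (f 0 ^ ((Fin.cons a e : Fin (r + 1) → Fin p) 0 : ℕ) *
        ∏ i : Fin r, f i.succ ^ ((Fin.cons a e : Fin (r + 1) → Fin p) i.succ : ℕ))
      simp only [Fin.cons_zero, Fin.cons_succ]
      ring
    -- the polynomial
    let P : Polynomial K := ∑ a : Fin p, Polynomial.monomial (a : ℕ) (g a)
    have hc : ∀ i : ℕ, P.coeff i = if hi : i < p then g ⟨i, hi⟩ else 0 := by
      intro i
      rw [Polynomial.finset_sum_coeff]
      simp only [Polynomial.coeff_monomial]
      split_ifs with hi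
      · rw [Finset.sum_eq_single ⟨i, hi⟩]
        · rw [if_pos rfl]
        · intro b _ hb
          rw [if_neg]
          intro h; exact hb (Fin.ext h)
        · intro h; exact absurd (Finset.mem_univ _) h
      · refine Finset.sum_eq_zero fun a _ => ?_
        rw [if_neg]
        intro h; exact hi (h ▸ a.2)
    have hP : P = 0 := by
      apply poly_eq_zero p (D 0) (f 0) (by rw [hD, if_pos rfl]) (p - 1) P
      · rw [Polynomial.natDegree_le_iff_coeff_eq_zero]
        intro N hN
        rw [hc, dif_neg (by omega)]
      · have := hp.out.pos; omega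
      · intro i
        rw [hc]
        split_ifs with hi
        · exact hg _
        · exact map_zero _
      · rw [Polynomial.eval_finset_sum]
        simp only [Polynomial.eval_monomial]
        exact h2
    have h3 : ∀ a, g a = 0 := by
      intro a
      have h4 := hc a
      rw [hP, Polynomial.coeff_zero, dif_pos a.2] at h4
      exact h4.symm
    have h5 := ih (fun j => f j.succ) (fun j => D j.succ) (fun i j => by
      rw [hD]; simp only [Fin.succ_inj]) (fun e' => c (Fin.cons (e 0) e')) (h3 (e 0))
      (fun j => e j.succ)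
    rw [show (Fin.cons (e 0) fun j => e j.succ : Fin (r + 1) → Fin p) = e from
      Fin.cons_self_tail e] at h5
    exact h5

section Rank

variable (p : ℕ) [hp : Fact p.Prime] {k : Type} [Field k] [CharP k p] [IsAlgClosed k]
  {K : Type} [Field K] [Algebra k K] [CharP K p]

/-- Adjoining a function outside a field between `K ^ p` and `K` gives an extension of degree
`p`. -/
theorem finrank_adjoin_of_notMem (L : IntermediateField k K) (hL : Deg.Kp (k := k) p ≤ L) (f : K)
    (hf : f ∉ L) : Module.finrank L (IntermediateField.adjoin L {f}) = p := by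
  obtain ⟨a, haf⟩ : ∃ a : L, (a : K) = f ^ p := ⟨⟨f ^ p, hL ⟨f, rfl⟩⟩, rfl⟩
  have ha : ∀ b : L, b ^ p ≠ a := by
    rintro ⟨b, hb⟩ h
    have h1 : b ^ p = f ^ p := by
      rw [← haf, ← h]
      rfl
    exact hf (frobenius_inj K p h1 ▸ hb)
  have hirr := X_pow_sub_C_irreducible_of_prime hp.out ha
  have hmon : (Polynomial.X ^ p - Polynomial.C a).Monic :=
    Polynomial.monic_X_pow_sub_C a hp.out.ne_zero
  have hroot : Polynomial.aeval f (Polynomial.X ^ p - Polynomial.C a) = 0 := by
    rw [map_sub, map_pow, Polynomial.aeval_X, Polynomial.aeval_C]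
    rw [show algebraMap L K a = f ^ p from haf, sub_self]
  have hint : IsIntegral L f := ⟨_, hmon, hroot⟩
  rw [IntermediateField.adjoin.finrank hint,
    ← minpoly.eq_of_irreducible_of_monic hirr hroot hmon, Polynomial.natDegree_X_pow_sub_C]

theorem Kp_le {r : ℕ} (f : Fin r → K) : Deg.Kp (k := k) p ≤ Lfs (k := k) p f := by
  intro z hz
  exact IntermediateField.subset_adjoin _ _ (Or.inl hz)

theorem Lfs_le {r : ℕ} (f : Fin (r + 1) → K) :
    Lfs (k := k) p (fun j : Fin r => f j.succ) ≤ Lfs (k := k) p f := by
  apply IntermediateField.adjoin.mono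
  rintro z (hz | ⟨j, rfl⟩)
  · exact Or.inl hz
  · exact Or.inr ⟨j.succ, rfl⟩

theorem Lfs_zero (f : Fin 0 → K) : Lfs (k := k) p f = Deg.Kp (k := k) p := by
  apply le_antisymm
  · unfold Lfs
    rw [IntermediateField.adjoin_le_iff]
    rintro z (hz | ⟨j, rfl⟩)
    · exact hz
    · exact j.elim0
  · exact Kp_le p f

theorem extend_eq {r : ℕ} (f : Fin (r + 1) → K) :
    IntermediateField.extendScalars (Lfs_le (k := k) p f) =
      IntermediateField.adjoin (Lfs (k := k) p (fun j : Fin r => f j.succ)) {f 0} := by
  apply le_antisymm
  · intro z hz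
    have h1 : Lfs (k := k) p f ≤ (IntermediateField.adjoin
        (Lfs (k := k) p (fun j : Fin r => f j.succ)) {f 0}).restrictScalars k := by
      rw [Lfs, IntermediateField.adjoin_le_iff]
      rintro z (hz | ⟨j, rfl⟩)
      · show z ∈ IntermediateField.adjoin (Lfs (k := k) p (fun j : Fin r => f j.succ)) {f 0}
        exact IntermediateField.algebraMap_mem (IntermediateField.adjoin
          (Lfs (k := k) p (fun j : Fin r => f j.succ)) {f 0})
          (⟨z, IntermediateField.subset_adjoin _ _ (Or.inl hz)⟩ :
            Lfs (k := k) p (fun j : Fin r => f j.succ))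
      · show f j ∈ IntermediateField.adjoin (Lfs (k := k) p (fun j : Fin r => f j.succ)) {f 0}
        refine Fin.cases ?_ (fun i => ?_) j
        · exact IntermediateField.mem_adjoin_simple_self _ (f 0)
        · exact IntermediateField.algebraMap_mem (IntermediateField.adjoin
            (Lfs (k := k) p (fun j : Fin r => f j.succ)) {f 0})
            (⟨f i.succ, IntermediateField.subset_adjoin _ _ (Or.inr ⟨i, rfl⟩)⟩ :
              Lfs (k := k) p (fun j : Fin r => f j.succ))
    exact h1 hz
  · have h1 : f 0 ∈ Lfs (k := k) p f := IntermediateField.subset_adjoin _ _ (Or.inr ⟨0, rfl⟩)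
    exact IntermediateField.adjoin_simple_le_iff.2
      ((IntermediateField.mem_extendScalars (Lfs_le (k := k) p f)).2 h1)

/-- A derivation which kills the functions kills the field generated by them and `K ^ p`. -/
theorem der_Lfs {r : ℕ} (f : Fin r → K) (D : Derivation k K K) (hD : ∀ j, D (f j) = 0) {z : K}
    (hz : z ∈ Lfs (k := k) p f) : D z = 0 := by
  let F : IntermediateField k K :=
    { carrier := {z | D z = 0}
      mul_mem' := by
        intro a b ha hb
        show D (a * b) = 0
        rw [Derivation.leibniz, show D a = 0 from ha, show D b = 0 from hb, smul_zero, smul_zero,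
          add_zero]
      add_mem' := by
        intro a b ha hb
        show D (a + b) = 0
        rw [map_add, show D a = 0 from ha, show D b = 0 from hb, add_zero]
      algebraMap_mem' := fun c => Derivation.map_algebraMap D c
      inv_mem' := by
        intro a ha
        show D a⁻¹ = 0
        rw [Derivation.leibniz_inv, show D a = 0 from ha, smul_zero] }
  have h1 : Lfs (k := k) p f ≤ F := by
    unfold Lfs
    rw [IntermediateField.adjoin_le_iff]
    rintro z (⟨w, rfl⟩ | ⟨j, rfl⟩)
    · exact der_pow p D w
    · exact hD j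
  exact h1 hz

theorem finrank_aux : ∀ (r : ℕ) (f : Fin r → K) (D : Fin r → Derivation k K K),
    (∀ i j, D i (f j) = if i = j then 1 else 0) →
    p ^ r * Module.finrank (Lfs (k := k) p f) K = Module.finrank (Deg.Kp (k := k) (K := K) p) K := by
  intro r
  induction r with
  | zero =>
    intro f D _
    rw [pow_zero, one_mul, Lfs_zero]
  | succ r ih =>
    intro f D hD
    have h1 := ih (fun j => f j.succ) (fun j => D j.succ) (fun i j => by
      rw [hD]; simp only [Fin.succ_inj])
    have h2 : f 0 ∉ Lfs (k := k) p (fun j : Fin r => f j.succ) := by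
      intro h
      have h3 := der_Lfs p _ (D 0) (fun j => by
        rw [hD, if_neg (Fin.succ_ne_zero j).symm]) h
      rw [hD, if_pos rfl] at h3
      exact one_ne_zero h3
    have h3 := IntermediateField.relfinrank_mul_finrank_top (Lfs_le (k := k) p f)
    rw [IntermediateField.relfinrank_eq_finrank_of_le (Lfs_le (k := k) p f), extend_eq,
      finrank_adjoin_of_notMem p _ (Kp_le p _) _ h2] at h3
    rw [← h1, ← h3]
    ring

end Rank

end DegR

variable (p : ℕ) [Fact p.Prime] {k : Type} [Field k] [IsAlgClosed k] [CharP k p]
  {σ : Type} [Fintype σ]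

/-- If the differentials of `f_1, ..., f_r` are linearly independent then the monomials in the `f_j`
with exponents less than `p` are linearly independent over `K ^ p`. -/
theorem mono_indep {r : ℕ} (f : Fin r → KK k σ)
    (hf : LinearIndependent (KK k σ) fun j => lform (k := k) 1 (f j))
    (c : (Fin r → Fin p) → KK k σ)
    (h : ∑ e, c e ^ p * ∏ j, f j ^ (e j : ℕ) = 0) (e : Fin r → Fin p) : c e = 0 := by
  obtain ⟨D, hD⟩ := DegR.dual_ders f hf
  exact DegR.mono_indep_aux p r f D hD c h e

/-- The degree of the field of rational functions over `K ^ p (f_1, ..., f_r)`. -/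
theorem finrank_Lfs {m r : ℕ} (hσ : Fintype.card σ = m + r) (f : Fin r → KK k σ)
    (hf : LinearIndependent (KK k σ) fun j => lform (k := k) 1 (f j)) :
    Module.finrank (Lfs (k := k) p f) (KK k σ) = p ^ m := by
  obtain ⟨D, hD⟩ := DegR.dual_ders f hf
  have h1 := DegR.finrank_aux p r f D hD
  rw [Deg.finrank_Kp, hσ, pow_add, mul_comm] at h1
  exact Nat.eq_of_mul_eq_mul_right (pow_pos (Fact.out : p.Prime).pos r) h1

end Pool.Agent.MP_b525bf_ag_TS
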