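import Pool.Agent.Lib.MP_b525bf_ag_TS.Defs
import Pool.Agent.Lib.MP_b525bf_ag_P.TorGrp

/-!
# C2: toric modifications of stages; total order
-/

set_option autoImplicit false

namespace Pool.Agent.MP_b525bf_ag_TS

open Pool.Agent.MP_b525bf_ag Pool.Agent.MP_b525bf_ag_W Pool.Agent.MP_b525bf_ag_P AddMonoidAlgebra

variable {k K ι J I : Type} [Field k] [Field K] [Algebra k K] [AddCommGroup ι] [Fintype J]
  {M : Fam k K ι} {a : ι} {u : J → ι} {v : J → ℕ} {B : Subalgebra k K} {N : ℕ}
  {ω : I → Derivation k K K →ₗ[K] K} {α : I → J → ℤ}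

/-- The elements with a derivative in the family `N` form a family. -/
def derFam {κ : Type} [AddCommGroup κ] (D : Derivation k K K) (N : Fam k K κ) : Fam k K κ where
  s c := N.s c ⊓ (N.s c).comap (D : K →ₗ[k] K)
  one' := by
    refine ⟨N.one', ?_⟩
    rw [SetLike.mem_coe, Submodule.mem_comap]
    simp
  mul' := by
    rintro b c x y ⟨hx, hx'⟩ ⟨hy, hy'⟩
    refine ⟨N.mul' hx hy, ?_⟩
    rw [SetLike.mem_coe, Submodule.mem_comap] at hx' hy' ⊢
    simp only [Derivation.coeFn_coe] at hx' hy' ⊢
    rw [Derivation.leibniz, smul_eq_mul, smul_eq_mul]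
    refine Submodule.add_mem _ (N.mul' hx hy') ?_
    have h1 := N.mul' hy hx'
    rwa [add_comm c b] at h1

theorem mem_derFam {κ : Type} [AddCommGroup κ] {D : Derivation k K K} {N : Fam k K κ} {c : κ}
    {x : K} : x ∈ (derFam D N).s c ↔ x ∈ N.s c ∧ D x ∈ N.s c := Iff.rfl

/-- A derivation which maps a family into its localisation preserves the localisation. -/
theorem pres_of_map {κ : Type} [AddCommGroup κ] (M : Fam k K κ) (q : Ideal M.alg) [q.IsPrime]
    (D : Derivation k K K) (h : ∀ c, ∀ y ∈ M.s c, D y ∈ (atP M q).s c) : Pres M q D := by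
  intro c x hx
  obtain ⟨b, f, hf, hfq, hf0, hfx⟩ := exists_frac _ q hx
  have hU : IsU (atP M q) b f := (isU_atP_iff _ q hf).2 hfq
  have e : D x = f⁻¹ * D (f * x) - (x * f⁻¹) * D f := by
    rw [Derivation.leibniz, smul_eq_mul, smul_eq_mul]
    field_simp
    ring
  rw [e]
  refine Submodule.sub_mem _ ?_ ?_
  · have h1 := (atP M q).mul' hU.2.2 (h (b + c) _ hfx)
    rwa [neg_add_cancel_left] at h1
  · have h1 := (atP M q).mul' ((atP M q).mul' hx hU.2.2) (h b f hf)
    rwa [neg_add_cancel_right] at h1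

/-- The logarithmic structure passes to the points of the toric modification. -/
theorem LD.torStep (hsec : ∀ j, (1 : K) ∈ M.s (-(u j))) {q : Ideal M.alg} [q.IsPrime]
    {q' : Ideal (torStep M u v).alg} [q'.IsPrime] (hov : Over M (torStep M u v) (inlZ ι) q q')
    {c : I → ι} (h : LD M q N ω c) :
    LD (torStep M u v) q' N ω fun i => inlZ ι (c i) := by
  have hle : ∀ d, M.s d ≤ (MP_b525bf_ag_P.torStep M u v).s (inlZ ι d) := le_torStep
  obtain ⟨δ, y, d, h1, h2, h3, h4, h5, h6⟩ := h
  refine ⟨δ, y, fun l => inlZ ι (d l), ?_, ?_, ?_, ?_, ?_, h6⟩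
  · intro l
    apply pres_of_map
    intro b z hz
    have h7 : (MP_b525bf_ag_P.torStep M u v).s b ≤
        (derFam (δ l) (atP (MP_b525bf_ag_P.torStep M u v) q')).s b := by
      refine torStep_le_of ?_ ?_ ?_ b
      · intro e w hw
        exact ⟨le_atP _ _ _ (hle e hw), Over.atP hle hov e (h1 l e w (le_atP _ _ _ hw))⟩
      · refine ⟨?_, ?_⟩
        · have h8 := le_atP _ q' _ (torStep_sec (v := v) hsec none)
          have h9 : -(torU u v none) = (0, -1) := by simp [torU]
          rwa [h9] at h8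
        · rw [SetLike.mem_coe, Submodule.mem_comap]
          simp
      · intro j hj
        refine ⟨?_, ?_⟩
        · have h8 := le_atP _ q' _ (torStep_sec (v := v) hsec (some j))
          have h9 : -(torU u v (some j)) = (-(u j), (v j : ℤ)) := by simp [torU]
          rwa [h9] at h8
        · rw [SetLike.mem_coe, Submodule.mem_comap]
          simp
    exact (h7 hz).2
  · intro l
    exact Over.atP hle hov (d l) (h2 l)
  · have h7 := (Over.isU hle hov h3.2.1).1 h3
    rwa [map_sum] at h7
  · intro i l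
    exact Over.atP hle hov (c i) (h4 i l)
  · intro i
    rcases h5 i with h7 | ⟨l, h7⟩
    · exact Or.inl h7
    · exact Or.inr ⟨l, (Over.isU hle hov h7.2.1).1 h7⟩

theorem LogStage.torStep [Module.Free ℤ ι] [Module.Finite ℤ ι] (h : LogStage B M a u N ω α)
    (hv : ∃ j, 0 < v j) : ∃ a' : ι × ℤ,
      LogStage B (torStep M u v) a' (torU u v) N ω (fun i => torC v (α i)) ∧
      ∀ (q' : Ideal (torStep M u v).alg) [q'.IsPrime], Semi (torStep M u v) a' q' →
        ∃ (q : Ideal M.alg) (_ : q.IsPrime), Over M (torStep M u v) (inlZ ι) q q' ∧ Semi M a q ∧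
        ∃ j, 0 < v j ∧ (1 : K) ∈ (atP (torStep M u v) q').s (torU u v (some j)) := by
  obtain ⟨ρ₀, hρ⟩ := tor_torStep h.tor hv
  obtain ⟨htor, hpt⟩ := hρ ρ₀ le_rfl
  refine ⟨(ρ₀ • a, 1), ⟨htor, ?_, ?_⟩, hpt⟩
  · exact (torStep_zero h.tor.sec 0).trans h.zero
  · intro q' _ hs
    obtain ⟨q, hq, hov, hsq, -⟩ := hpt q' hs
    have h1 := LD.torStep (v := v) h.tor.sec hov (h.loc q hsq)
    have e : (fun i => wdeg (torU u v) (torC v (α i))) = fun i => inlZ ι (wdeg u (α i)) := by
      funext i
      exact wdeg_torC u v (α i)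
    rw [e]
    exact h1

namespace OrdS

open Pool.Agent.MP_b525bf_ag_P.Total

variable {k K I : Type} [Field k] [Field K] [Algebra k K] {B : Subalgebra k K} {N : ℕ}
  {ω : I → Derivation k K K →ₗ[K] K}

/-- `D` with exponents `α` is a stage. -/
def IsSt (D : PD k K) (B : Subalgebra k K) (N : ℕ) (ω : I → Derivation k K K →ₗ[K] K)
    (α : I → D.J → ℤ) : Prop := LogStage B D.M D.a D.u N ω α

/-- the toric step is a refinement -/
theorem step_ref (D : PD k K) {α : I → D.J → ℤ}
    (h : IsSt D B N ω α) (v : D.J → ℕ) (hv : ∃ j, 0 < v j) :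
    ∃ a', IsSt (D.step v a') B N ω (fun i => torC v (α i)) ∧ Ref D (D.step v a') (torC v) ∧
      (∀ j j', D.UP j j' → (D.step v a').UP (some j) (some j')) ∧
      ∀ (q' : Ideal (D.step v a').M.alg) [q'.IsPrime], Semi (D.step v a').M (D.step v a').a q' →
        ∃ j, 0 < v j ∧ (1 : K) ∈ (atP (D.step v a').M q').s ((D.step v a').u (some j)) := by
  obtain ⟨a', h1, h2⟩ := LogStage.torStep (v := v) h hv
  have hle : ∀ d, D.M.s d ≤ (torStep D.M D.u v).s (inlZ D.ι d) := le_torStep
  refine ⟨a', h1, ⟨fun c c' => torC_sub v c c', ?_, ?_⟩, ?_, ?_⟩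
  · intro c hc q' hq' hs
    obtain ⟨q, hq, hov, hsq, _⟩ := h2 q' hs
    change (1 : K) ∈ (atP (torStep D.M D.u v) q').s (wdeg (torU D.u v) (torC v c)) ∨
      (1 : K) ∈ (atP (torStep D.M D.u v) q').s (-(wdeg (torU D.u v) (torC v c)))
    rw [wdeg_torC]
    rcases hc q hsq with h3 | h3
    · exact Or.inl (Over.atP hle hov _ h3)
    · right
      have := Over.atP hle hov _ h3
      rwa [map_neg] at this
  · exact torStep_zero h.tor.sec 0
  · intro j j' hjj q' hq' hs
    obtain ⟨q, hq, hov, hsq, _⟩ := h2 q' hs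
    have key : ∀ j, (1 : K) ∈ (atP D.M q).s (D.u j) →
        (1 : K) ∈ (atP (torStep D.M D.u v) q').s (torU D.u v (some j)) := by
      intro j h3
      have h4 := Over.atP hle hov _ h3
      have h5 : (1 : K) ∈ (atP (torStep D.M D.u v) q').s (-(torU D.u v none)) :=
        le_atP _ _ _ (torStep_sec h.tor.sec none)
      have h6 := (atP (torStep D.M D.u v) q').mul' h4
        ((atP (torStep D.M D.u v) q').pow' h5 (v j))
      rw [one_pow, one_mul] at h6
      convert h6 using 2
      ext
      · simp [torU]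
      · simp [torU]
    rcases hjj q hsq with h3 | h3
    · exact Or.inl (key j h3)
    · exact Or.inr (key j' h3)
  · intro q' hq' hs
    obtain ⟨q, hq, hov, hsq, h3⟩ := h2 q' hs
    exact h3

theorem ord_of_bad_empty (D : PD k K) (hsec0 : ∀ j, (1 : K) ∈ D.M.s (-(D.u j)))
    (c : D.J → ℤ) (hb : bad D c = ∅) : D.Ord c := by
  classical
  intro q hq hs
  have hsec : ∀ j, (1 : K) ∈ (atP D.M q).s (-(D.u j)) := fun j => le_atP _ _ _ (hsec0 j)
  by_cases h1 : ∃ j, 0 < c j ∧ (1 : K) ∉ (atP D.M q).s (D.u j)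
  · obtain ⟨j0, hj0, hn0⟩ := h1
    right
    apply one_mem_sum
    intro j
    rcases le_or_gt 0 (c j) with hj | hj
    · obtain ⟨m, hm⟩ := Int.eq_ofNat_of_zero_le hj
      rw [hm]
      have := (atP D.M q).pow' (hsec j) m
      rw [one_pow] at this
      convert this using 2
      simp
    · have hu : (1 : K) ∈ (atP D.M q).s (D.u j) := by
        by_contra hcon
        have : (j0, j) ∈ bad D c := by
          refine ⟨hj0, hj, ?_⟩
          intro hUP
          rcases hUP q hs with h3 | h3
          · exact hn0 h3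
          · exact hcon h3
        rw [hb] at this
        exact this
      obtain ⟨m, hm⟩ := Int.eq_ofNat_of_zero_le (show 0 ≤ -(c j) by omega)
      have := (atP D.M q).pow' hu m
      rw [one_pow] at this
      convert this using 2
      rw [← neg_smul, hm]
      simp
  · push Not at h1
    left
    have : wdeg D.u c = -(wdeg D.u (-c)) := by rw [wdeg_neg, neg_neg]
    rw [this]
    apply one_mem_sum
    intro j
    rcases le_or_gt (c j) 0 with hj | hj
    · obtain ⟨m, hm⟩ := Int.eq_ofNat_of_zero_le (show 0 ≤ -(c j) by omega)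
      have := (atP D.M q).pow' (hsec j) m
      rw [one_pow] at this
      convert this using 2
      rw [Pi.neg_apply, hm]
      simp
    · obtain ⟨m, hm⟩ := Int.eq_ofNat_of_zero_le hj.le
      have := (atP D.M q).pow' (h1 j hj) m
      rw [one_pow] at this
      convert this using 2
      rw [Pi.neg_apply, hm]
      simp

/-- One vector. -/
theorem exists_ord_one (n : ℕ) : ∀ (D : PD k K) (α : I → D.J → ℤ)
    (_ : IsSt D B N ω α) (c : D.J → ℤ) (_ : (bad D c).ncard = n),
    ∃ (D' : PD k K) (T : (D.J → ℤ) → (D'.J → ℤ)), IsSt D' B N ω (fun i => T (α i)) ∧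
      Ref D D' T ∧ D'.Ord (T c) := by
  classical
  induction n using Nat.strong_induction_on with
  | _ n ih =>
  intro D α h c hc
  by_cases hb : bad D c = ∅
  · exact ⟨D, id, h, Ref.refl D, ord_of_bad_empty D h.tor.sec c hb⟩
  obtain ⟨⟨i, i'⟩, hi, hi', hii⟩ := Set.nonempty_iff_ne_empty.2 hb
  simp only at hi hi' hii
  have hne : i ≠ i' := by rintro rfl; omega
  let v : D.J → ℕ := fun j => if j = i then (c i').natAbs else if j = i' then (c i).natAbs else 0
  have hvi : v i = (c i').natAbs := by simp [v]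
  have hvi' : v i' = (c i).natAbs := by simp [v, hne.symm]
  have hv : ∃ j, 0 < v j := ⟨i, by rw [hvi]; omega⟩
  obtain ⟨a', h1, h2, h3, h4⟩ := step_ref D h v hv
  have hc0 : torC v c none = 0 := by
    have h5 : torC v c none = ∑ j, (v j : ℤ) * c j := rfl
    rw [h5, ← Finset.sum_subset (Finset.subset_univ {i, i'}), Finset.sum_pair hne, hvi, hvi']
    · rw [Int.natAbs_of_nonneg hi.le, Int.ofNat_natAbs_of_nonpos hi'.le]
      ring
    · intro j _ hj
      simp only [Finset.mem_insert, Finset.mem_singleton, not_or] at hj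
      have : v j = 0 := by simp [v, hj.1, hj.2]
      rw [this]
      simp
  have hlt : (bad (D.step v a') (torC v c)).ncard < n := by
    rw [← hc]
    have hsub : bad (D.step v a') (torC v c) ⊆
        (fun x : D.J × D.J => (some x.1, some x.2)) '' (bad D c \ {(i, i')}) := by
      rintro ⟨x, y⟩ ⟨hx, hy, hxy⟩
      simp only at hx hy hxy
      cases x with
      | none =>
        change 0 < torC v c none at hx
        omega
      | some x =>
        cases y with
        | none =>
          change torC v c none < 0 at hy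
          omega
        | some y =>
          refine ⟨(x, y), ⟨⟨hx, hy, fun hUP => hxy (h3 x y hUP)⟩, ?_⟩, rfl⟩
          intro hxy'
          rw [Set.mem_singleton_iff, Prod.mk.injEq] at hxy'
          obtain ⟨rfl, rfl⟩ := hxy'
          apply hxy
          intro q' hq' hs
          obtain ⟨j, hj, hju⟩ := h4 q' hs
          by_cases hjx : j = x
          · left; rw [← hjx]; exact hju
          · by_cases hjy : j = y
            · right; rw [← hjy]; exact hju
            · exfalso
              have : v j = 0 := by simp [v, hjx, hjy]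
              omega
    calc (bad (D.step v a') (torC v c)).ncard
        ≤ ((fun x : D.J × D.J => (some x.1, some x.2)) '' (bad D c \ {(i, i')})).ncard :=
          Set.ncard_le_ncard hsub (Set.toFinite _)
      _ ≤ (bad D c \ {(i, i')}).ncard := Set.ncard_image_le (Set.toFinite _)
      _ < (bad D c).ncard := Set.ncard_sdiff_singleton_lt_of_mem
          (show (i, i') ∈ bad D c from ⟨hi, hi', hii⟩) (bad_finite D c)
  obtain ⟨D', T, h5, h6, h7⟩ := ih _ hlt (D.step v a') _ h1 (torC v c) rfl
  exact ⟨D', T ∘ torC v, h5, h2.trans h6, h7⟩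

/-- A list of vectors. -/
theorem exists_ord_list (n : ℕ) : ∀ (D : PD k K) (α : I → D.J → ℤ)
    (_ : IsSt D B N ω α) (cs : List (D.J → ℤ)) (_ : cs.length = n),
    ∃ (D' : PD k K) (T : (D.J → ℤ) → (D'.J → ℤ)), IsSt D' B N ω (fun i => T (α i)) ∧
      Ref D D' T ∧ ∀ c ∈ cs, D'.Ord (T c) := by
  induction n with
  | zero =>
    intro D α h cs hcs
    rw [List.length_eq_zero_iff] at hcs
    subst hcs
    exact ⟨D, id, h, Ref.refl D, by simp⟩
  | succ n ih =>
    intro D α h cs hcs
    cases cs with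
    | nil => simp at hcs
    | cons c cs =>
      obtain ⟨D1, T1, h1, h2, h3⟩ := exists_ord_one _ D α h c rfl
      obtain ⟨D2, T2, h4, h5, h6⟩ := ih D1 _ h1 (cs.map T1) (by simpa using hcs)
      refine ⟨D2, T2 ∘ T1, h4, h2.trans h5, ?_⟩
      intro c' hc'
      rw [List.mem_cons] at hc'
      rcases hc' with rfl | hc'
      · exact h5.ord _ h3
      · exact h6 _ (List.mem_map.2 ⟨c', hc', rfl⟩)

end OrdS

open Pool.Agent.MP_b525bf_ag_P.Total OrdS

/-- After finitely many toric modifications the monomials of the forms are totally ordered by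
divisibility at every semistable point. -/
theorem LogStage.exists_ordered [Module.Free ℤ ι] [Module.Finite ℤ ι] [Finite I]
    (h : LogStage B M a u N ω α) :
    ∃ (ι' : Type) (_ : AddCommGroup ι') (_ : Module.Free ℤ ι') (_ : Module.Finite ℤ ι')
      (J' : Type) (_ : Fintype J') (M' : Fam k K ι') (a' : ι') (u' : J' → ι')
      (α' : I → J' → ℤ), LogStage B M' a' u' N ω α' ∧
      ∀ (q : Ideal M'.alg) [q.IsPrime], Semi M' a' q → ∀ i i',
        (1 : K) ∈ (atP M' q).s (wdeg u' (α' i) - wdeg u' (α' i')) ∨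
        (1 : K) ∈ (atP M' q).s (wdeg u' (α' i') - wdeg u' (α' i)) := by
  classical
  let D : PD k K := ⟨ι, J, M, a, u⟩
  have hfin : (Set.range (fun x : I × I => α x.1 - α x.2)).Finite := Set.finite_range _
  obtain ⟨D', T, h1, h2, h3⟩ := exists_ord_list (B := B) (N := N) (ω := ω) _ D α h
    hfin.toFinset.toList rfl
  refine ⟨D'.ι, D'.acg, D'.free, D'.fin, D'.J, D'.fJ, D'.M, D'.a, D'.u, fun i => T (α i), h1, ?_⟩
  intro q hq hs i i'
  have h4 : D'.Ord (T (α i - α i')) := by
    apply h3
    rw [Finset.mem_toList, Set.Finite.mem_toFinset]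
    exact ⟨(i, i'), rfl⟩
  have h5 := h4 q hs
  rw [h2.sub, wdeg_sub, neg_sub] at h5
  exact h5

end Pool.Agent.MP_b525bf_ag_TS
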