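import Pool.Agent.Lib.MP_b525bf_ag_TS.Inter
import Pool.Agent.Lib.MP_b525bf_ag_TS.Order

/-!
# D2: descent along a totally ordered stage
-/

set_option autoImplicit false

namespace Pool.Agent.MP_b525bf_ag_TS

open Pool.Agent.MP_b525bf_ag Pool.Agent.MP_b525bf_ag_W Pool.Agent.MP_b525bf_ag_P AddMonoidAlgebra

variable {k K ι J I : Type} [Field k] [Field K] [Algebra k K] [AddCommGroup ι] [Fintype J]
  {M : Fam k K ι} {a : ι} {u : J → ι} {B : Subalgebra k K}
  {ω : I → Derivation k K K →ₗ[K] K} {α : I → J → ℤ}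

omit [Fintype J] in
theorem prod_mem_fam (N : Fam k K ι) {n : Type} (s : Finset n) {x : n → K} {d : n → ι}
    (h : ∀ i ∈ s, x i ∈ N.s (d i)) : ∏ i ∈ s, x i ∈ N.s (∑ i ∈ s, d i) := by
  classical
  induction s using Finset.induction_on with
  | empty => rw [Finset.prod_empty, Finset.sum_empty]; exact N.one'
  | insert i s his ih =>
    rw [Finset.prod_insert his, Finset.sum_insert his]
    exact N.mul' (h i (Finset.mem_insert_self _ _))
      (ih fun j hj => h j (Finset.mem_insert_of_mem hj))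

omit [Fintype J] in
/-- Determinants of homogeneous matrices. -/
theorem det_mem_fam (N : Fam k K ι) {n : Type} [Fintype n] [DecidableEq n] {A : Matrix n n K}
    {d : n → ι} (h : ∀ i j, A i j ∈ N.s (d j)) : A.det ∈ N.s (∑ j, d j) := by
  rw [Matrix.det_apply]
  refine Submodule.sum_mem _ fun σ _ => ?_
  have h1 : ∏ i, A (σ i) i ∈ N.s (∑ j, d j) := prod_mem_fam N Finset.univ fun i _ => h _ _
  rcases Int.units_eq_one_or (Equiv.Perm.sign σ) with h2 | h2
  · rw [h2, one_smul]; exact h1
  · rw [h2, Units.neg_smul, one_smul]; exact Submodule.neg_mem _ h1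

omit [Fintype J] in
/-- A finite set of degrees which are totally ordered has a largest element. -/
theorem exists_top (N : Fam k K ι) (c : I → ι) (s : Finset I) (hs : s.Nonempty)
    (hord : ∀ i i', (1 : K) ∈ N.s (c i - c i') ∨ (1 : K) ∈ N.s (c i' - c i)) :
    ∃ i₀ ∈ s, ∀ i ∈ s, (1 : K) ∈ N.s (c i₀ - c i) := by
  classical
  induction hs using Finset.Nonempty.cons_induction with
  | singleton i =>
    refine ⟨i, Finset.mem_singleton_self i, fun j hj => ?_⟩
    rw [Finset.mem_singleton.1 hj, sub_self]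
    exact N.one'
  | cons i s hi _ ih =>
    obtain ⟨i₀, hi₀, h₀⟩ := ih
    rcases hord i i₀ with h | h
    · refine ⟨i, Finset.mem_cons_self _ _, fun j hj => ?_⟩
      rcases Finset.mem_cons.1 hj with rfl | hj
      · rw [sub_self]; exact N.one'
      · have h1 := N.mul' h (h₀ j hj)
        rwa [mul_one, sub_add_sub_cancel] at h1
    · refine ⟨i₀, Finset.mem_cons_of_mem hi₀, fun j hj => ?_⟩
      rcases Finset.mem_cons.1 hj with rfl | hj
      · exact h
      · exact h₀ j hj

/-- The derivations which kill `f`. -/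
theorem LogStage.exists_derivs [Fintype I] {m : ℕ} (h : LogStage B M a u (m + 1) ω α)
    (hne : ∃ i, ω i ≠ 0) {f ν : K} (hf : ∀ D : Derivation k K K, D f = ν * ∑ i, ω i D)
    (q : Ideal M.alg) [q.IsPrime] (hq : Semi M a q)
    (hord : ∀ i i', (1 : K) ∈ (atP M q).s (wdeg u (α i) - wdeg u (α i')) ∨
        (1 : K) ∈ (atP M q).s (wdeg u (α i') - wdeg u (α i))) :
    ∃ (D : Fin m → Derivation k K K) (y : Fin m → K) (d : Fin m → ι),
        (∀ l, D l f = 0) ∧ (∀ l, Pres M q (D l)) ∧
        (∀ l, y l ∈ (atP M q).s (d l)) ∧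
        IsU (atP M q) (∑ l, d l) (Matrix.of fun l j => D l (y j)).det := by
  classical
  obtain ⟨δ, y, d, hpres, hy, hdet, hmem, hunit, hdisj⟩ := h.loc q hq
  set N := atP M q with hN
  set c : I → ι := fun i => wdeg u (α i) with hc
  obtain ⟨i₁, hi₁⟩ := hne
  obtain ⟨i₀, hi₀, htop⟩ := exists_top N c (Finset.univ.filter fun i => ω i ≠ 0)
    ⟨i₁, by simpa using hi₁⟩ hord
  have hi₀' : ω i₀ ≠ 0 := by simpa using hi₀
  obtain ⟨l₀, hl₀⟩ := (hunit i₀).resolve_left hi₀'
  set w0 : K := ω i₀ (δ l₀) with hw0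
  have hw0ne : w0 ≠ 0 := hl₀.1
  -- the values of the sum of the forms
  have hsum0 : ∑ i, ω i (δ l₀) = w0 := by
    refine Finset.sum_eq_single i₀ (fun i _ hi => ?_) (fun h => absurd (Finset.mem_univ _) h)
    exact (hdisj l₀ i i₀ hi).resolve_right hw0ne
  have hsum : ∀ l, ∑ i, ω i (δ l) ∈ N.s (c i₀) := by
    intro l
    refine Submodule.sum_mem _ fun i _ => ?_
    by_cases hi : ω i = 0
    · rw [hi, LinearMap.zero_apply]; exact Submodule.zero_mem _
    · have h1 := N.mul' (htop i (by simpa using hi)) (hmem i l)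
      rwa [one_mul, sub_add_cancel] at h1
  -- the coefficients
  set r : Fin (m + 1) → K := fun l => (∑ i, ω i (δ l)) * w0⁻¹ with hr
  have hr0 : ∀ l, r l ∈ N.s 0 := by
    intro l
    have h1 := N.mul' (hsum l) hl₀.2.2
    rwa [add_neg_cancel] at h1
  set D : Fin m → Derivation k K K := fun l =>
    δ (l₀.succAbove l) - r (l₀.succAbove l) • δ l₀ with hD
  -- the modified matrix
  set A : Matrix (Fin (m + 1)) (Fin (m + 1)) K := Matrix.of fun l j => δ l (y j) with hA
  set A' : Matrix (Fin (m + 1)) (Fin (m + 1)) K :=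
    Matrix.of fun l j => if l = l₀ then δ l₀ (y j) else δ l (y j) - r l * δ l₀ (y j) with hA'
  have hAA' : A.det = A'.det := by
    refine Matrix.det_eq_of_forall_row_eq_smul_add_const
      (fun l => if l = l₀ then 0 else r l) l₀ (by simp) fun l j => ?_
    by_cases hl : l = l₀
    · simp [hA, hA', hl]
    · simp [hA, hA', hl]
  have hA'mem : ∀ l j, A' l j ∈ N.s (d j) := by
    intro l j
    have h1 : ∀ l, δ l (y j) ∈ N.s (d j) := fun l => hpres l _ _ (hy j)
    by_cases hl : l = l₀
    · simp only [hA', Matrix.of_apply, hl, if_true]; exact h1 l₀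
    · simp only [hA', Matrix.of_apply, hl, if_false]
      refine Submodule.sub_mem _ (h1 l) ?_
      have h2 := N.mul' (hr0 l) (h1 l₀)
      rwa [zero_add] at h2
  have hexp : A'.det = ∑ j : Fin (m + 1), (-1) ^ ((l₀ : ℕ) + (j : ℕ)) * A' l₀ j *
      (A'.submatrix l₀.succAbove j.succAbove).det := Matrix.det_succ_row A' l₀
  have hterm : ∀ j : Fin (m + 1), (A'.submatrix l₀.succAbove j.succAbove).det ∈
      N.s (∑ l, d (j.succAbove l)) := fun j => det_mem_fam N fun i l => hA'mem _ _
  have hsumd : ∀ j : Fin (m + 1), d j + ∑ l, d (j.succAbove l) = ∑ l, d l := fun j =>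
    (Fin.sum_univ_succAbove d j).symm
  have hU : IsU N (∑ l, d l) (∑ j : Fin (m + 1), (-1) ^ ((l₀ : ℕ) + (j : ℕ)) * A' l₀ j *
      (A'.submatrix l₀.succAbove j.succAbove).det) := by
    rw [← hexp, ← hAA']; exact hdet
  have hmem2 : ∀ j : Fin (m + 1), A' l₀ j * (A'.submatrix l₀.succAbove j.succAbove).det ∈
      N.s (∑ l, d l) := by
    intro j
    have h1 := N.mul' (hA'mem l₀ j) (hterm j)
    rwa [hsumd] at h1
  obtain ⟨t, ⟨j, rfl⟩, hj⟩ := exists_isU_of_span M q
    (T := Set.range fun j : Fin (m + 1) => A' l₀ j *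
      (A'.submatrix l₀.succAbove j.succAbove).det) (by
      rintro _ ⟨j, rfl⟩
      exact hmem2 j) (y := ∑ j : Fin (m + 1), (-1) ^ ((l₀ : ℕ) + (j : ℕ)) * A' l₀ j *
      (A'.submatrix l₀.succAbove j.succAbove).det) (by
      refine Submodule.sum_mem _ fun j _ => ?_
      have h1 : (-1 : K) ^ ((l₀ : ℕ) + (j : ℕ)) * A' l₀ j *
          (A'.submatrix l₀.succAbove j.succAbove).det = ((-1 : k) ^ ((l₀ : ℕ) + (j : ℕ))) •
          (A' l₀ j * (A'.submatrix l₀.succAbove j.succAbove).det) := by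
        rw [Algebra.smul_def, map_pow, map_neg, map_one, mul_assoc]
      rw [h1]
      exact Submodule.smul_mem _ _ (Submodule.subset_span ⟨j, rfl⟩)) hU
  have hj' : IsU N (∑ l, d (j.succAbove l))
      (A'.submatrix l₀.succAbove j.succAbove).det := by
    refine IsU.of_mul_right (hA'mem l₀ j) (hterm j) ?_
    rw [hsumd]; exact hj
  refine ⟨D, fun l => y (j.succAbove l), fun l => d (j.succAbove l), ?_, ?_, ?_, ?_⟩
  · intro l
    have h1 : ∀ l, δ l f = ν * ∑ i, ω i (δ l) := fun l => hf (δ l)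
    simp only [hD, Derivation.sub_apply, Derivation.smul_apply, smul_eq_mul, h1, hr, hsum0]
    field_simp
    ring
  · intro l b z hz
    simp only [hD, Derivation.sub_apply, Derivation.smul_apply, smul_eq_mul]
    refine Submodule.sub_mem _ (hpres _ _ _ hz) ?_
    have h2 := N.mul' (hr0 (l₀.succAbove l)) (hpres l₀ _ _ hz)
    rwa [zero_add] at h2
  · intro l
    exact hy _
  · have h1 : (Matrix.of fun l i => D l (y (j.succAbove i))) =
        A'.submatrix l₀.succAbove j.succAbove := by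
      ext l i
      simp only [hD, hA', Matrix.of_apply, Matrix.submatrix_apply, Derivation.sub_apply,
        Derivation.smul_apply, smul_eq_mul, Fin.succAbove_ne l₀ l, if_false]
    rw [h1]
    exact hj'

/-- A derivation which kills `f` is zero on `K ^ p (f)`. -/
theorem eq_zero_of_mem_Lf (p : ℕ) [Fact p.Prime] [CharP k p] {f : K} {D : Derivation k K K}
    (hD : D f = 0) {z : K} (hz : z ∈ Lf (k := k) p f) : D z = 0 := by
  have hp : (p : K) = 0 := by
    rw [← map_natCast (algebraMap k K), CharP.cast_eq_zero k p, map_zero]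
  induction hz using IntermediateField.adjoin_induction with
  | mem z hz =>
    rcases hz with ⟨w, rfl⟩ | hz
    · rw [Derivation.leibniz_pow, nsmul_eq_mul, hp, zero_mul]
    · rw [Set.mem_singleton_iff.1 hz, hD]
  | algebraMap r => exact D.map_algebraMap r
  | add x y _ _ hx hy => rw [map_add, hx, hy, add_zero]
  | inv x _ hx =>
    rw [Derivation.leibniz_inv, hx, smul_zero]
  | mul x y _ _ hx hy => rw [Derivation.leibniz, hx, hy, smul_zero, smul_zero, add_zero]

theorem HasStage.hasResolution (p : ℕ) [Fact p.Prime] [CharP k p] [Fintype I] {m : ℕ}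
    (h : HasStage B (m + 1) ω) (hne : ∃ i, ω i ≠ 0) {f ν : K}
    (hf : ∀ D : Derivation k K K, D f = ν * ∑ i, ω i D)
    (hdeg : Module.finrank (Lf (k := k) p f) K = p ^ m) :
    HasResolution k (B ⊓ (Lf (k := k) p f).toSubalgebra : Subalgebra k K) := by
  obtain ⟨ι, i1, i2, i3, J, i4, M, a, u, α, h⟩ := h
  obtain ⟨ι', j1, j2, j3, J', j4, M', a', u', α', h', hord⟩ := h.exists_ordered
  have hG := goodM_interFam p h'.tor (Lf (k := k) p f)
    (fun z => IntermediateField.subset_adjoin _ _ (Or.inl ⟨z, rfl⟩)) hdeg (by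
      intro q _ hq
      obtain ⟨D, y, d, h1, h2, h3, h4⟩ := h'.exists_derivs hne hf q hq (hord q hq)
      exact ⟨D, y, d, fun l z hz => eq_zero_of_mem_Lf p (h1 l) hz, h2, h3, h4⟩)
  obtain ⟨M'', hM'', h0⟩ := hG.exists_goodC
  refine hasResolution_of_goodC_one k _ K ?_ M'' hM'' ?_
  · exact Subtype.val_injective
  · intro z
    rw [h0]
    constructor
    · intro hz
      refine ⟨⟨z, ?_, hz.2⟩, rfl⟩
      have h1 : z ∈ M'.s 0 := hz.1
      rw [h'.zero] at h1
      exact h1
    · rintro ⟨⟨x, hx⟩, rfl⟩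
      refine ⟨?_, hx.2⟩
      change x ∈ M'.s 0
      rw [h'.zero]
      exact hx.1

end Pool.Agent.MP_b525bf_ag_TS
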