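import Pool.Agent.Lib.MP_b525bf_ag_TS.Desc

/-!
# R1: descent for several equations
-/

set_option autoImplicit false

namespace Pool.Agent.MP_b525bf_ag_TS

open Pool.Agent.MP_b525bf_ag Pool.Agent.MP_b525bf_ag_W Pool.Agent.MP_b525bf_ag_P AddMonoidAlgebra

section Greedy

variable {k V I : Type} [Field k] [AddCommGroup V] [Module k V]

/-- The greedy algorithm: a basis adapted to a total preorder. -/
theorem exists_greedy (v : I → V) (le : I → I → Prop) (hrefl : ∀ i, le i i)
    (htrans : ∀ i j l, le i j → le j l → le i l) (htot : ∀ i j, le i j ∨ le j i)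
    (s : Finset I) : ∃ T : Finset I, T ⊆ s ∧ LinearIndepOn k v (T : Set I) ∧
      ∀ i ∈ s, ∃ A : I → k, (∀ j, A j ≠ 0 → j ∈ T ∧ le i j) ∧ v i = ∑ j ∈ T, A j • v j := by
  classical
  induction hn : s.card generalizing s with
  | zero =>
    rw [Finset.card_eq_zero] at hn
    subst hn
    exact ⟨∅, le_rfl, by simp, by simp⟩
  | succ n ih =>
    -- a smallest element
    have hbot : ∃ i₀ ∈ s, ∀ j ∈ s, le i₀ j := by
      have hne : s.Nonempty := Finset.card_pos.1 (by omega)
      clear hn ih
      induction hne using Finset.Nonempty.cons_induction with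
      | singleton i =>
        exact ⟨i, Finset.mem_singleton_self i, fun j hj => by
          rw [Finset.mem_singleton.1 hj]; exact hrefl i⟩
      | cons i s hi _ ih =>
        obtain ⟨i₀, hi₀, h₀⟩ := ih
        rcases htot i i₀ with h | h
        · refine ⟨i, Finset.mem_cons_self _ _, fun j hj => ?_⟩
          rcases Finset.mem_cons.1 hj with rfl | hj
          · exact hrefl _
          · exact htrans _ _ _ h (h₀ j hj)
        · refine ⟨i₀, Finset.mem_cons_of_mem hi₀, fun j hj => ?_⟩
          rcases Finset.mem_cons.1 hj with rfl | hj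
          · exact h
          · exact h₀ j hj
    obtain ⟨i₀, hi₀, hmin⟩ := hbot
    obtain ⟨T, hTs, hT, hspan⟩ := ih (s.erase i₀) (by
      rw [Finset.card_erase_of_mem hi₀, hn]; rfl)
    by_cases hv : v i₀ ∈ Submodule.span k (v '' (T : Set I))
    · refine ⟨T, hTs.trans (Finset.erase_subset _ _), hT, fun i hi => ?_⟩
      by_cases h : i = i₀
      · subst h
        obtain ⟨A, hA⟩ := (Submodule.mem_span_image_finset_iff_exists_fun k).1 hv
        refine ⟨fun j => if h : j ∈ T then A ⟨j, h⟩ else 0, fun j hj => ?_, ?_⟩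
        · by_cases hjT : j ∈ T
          · exact ⟨hjT, hmin j (Finset.erase_subset _ _ (hTs hjT))⟩
          · simp [hjT] at hj
        · rw [← hA, ← Finset.sum_coe_sort T]
          exact Finset.sum_congr rfl fun j _ => by simp [j.2]
      · exact hspan i (Finset.mem_erase.2 ⟨h, hi⟩)
    · have hi₀T : i₀ ∉ T := fun h => hv (Submodule.subset_span ⟨i₀, h, rfl⟩)
      refine ⟨insert i₀ T, ?_, ?_, fun i hi => ?_⟩
      · rw [Finset.insert_subset_iff]
        exact ⟨hi₀, hTs.trans (Finset.erase_subset _ _)⟩
      · rw [Finset.coe_insert]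
        exact hT.insert hv
      · by_cases h : i = i₀
        · subst h
          refine ⟨fun j => if j = i then 1 else 0, fun j hj => ?_, ?_⟩
          · by_cases hji : j = i
            · subst hji
              exact ⟨Finset.mem_insert_self _ _, hrefl _⟩
            · simp [hji] at hj
          · rw [Finset.sum_eq_single i]
            · simp
            · intro j _ hj
              simp [hj]
            · intro h
              exact absurd (Finset.mem_insert_self _ _) h
        · obtain ⟨A, hA1, hA2⟩ := hspan i (Finset.mem_erase.2 ⟨h, hi⟩)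
          refine ⟨A, fun j hj => ⟨Finset.mem_insert_of_mem (hA1 j hj).1, (hA1 j hj).2⟩, ?_⟩
          rw [Finset.sum_insert hi₀T, hA2]
          have : A i₀ = 0 := by
            by_contra hcon
            exact hi₀T (hA1 i₀ hcon).1
          rw [this, zero_smul, zero_add]

/-- The version with an enumeration of the basis of `k ^ r`. -/
theorem exists_greedy_fin {r : ℕ} (v : I → Fin r → k) (le : I → I → Prop) (hrefl : ∀ i, le i i)
    (htrans : ∀ i j l, le i j → le j l → le i l) (htot : ∀ i j, le i j ∨ le j i)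
    (s : Finset I) (hs : Submodule.span k (v '' (s : Set I)) = ⊤) :
    ∃ t : Fin r → I, Function.Injective t ∧ (∀ a, t a ∈ s) ∧
      ∀ i ∈ s, ∃ A : Fin r → k, (∀ a, A a ≠ 0 → le i (t a)) ∧ v i = ∑ a, A a • v (t a) := by
  classical
  obtain ⟨T, hTs, hT, hspan⟩ := exists_greedy (k := k) v le hrefl htrans htot s
  have h1 : Submodule.span k (v '' (T : Set I)) = ⊤ := by
    rw [eq_top_iff, ← hs, Submodule.span_le]
    rintro _ ⟨i, hi, rfl⟩
    obtain ⟨A, -, hA⟩ := hspan i hi
    rw [SetLike.mem_coe, hA]
    exact Submodule.sum_mem _ fun j hj =>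
      Submodule.smul_mem _ _ (Submodule.subset_span ⟨j, hj, rfl⟩)
  have h2 : T.card = r := by
    have h3 : LinearIndependent k (fun x : T => v x) := hT
    have h4 : ⊤ ≤ Submodule.span k (Set.range fun x : T => v x) := by
      rw [← h1]
      refine Submodule.span_mono ?_
      rintro _ ⟨i, hi, rfl⟩
      exact ⟨⟨i, hi⟩, rfl⟩
    have h5 := Module.finrank_eq_card_basis (Module.Basis.mk h3 h4)
    rw [Module.finrank_fin_fun, Fintype.card_coe] at h5
    exact h5.symm
  let ε : Fin r ≃ T := (T.equivFinOfCardEq h2).symm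
  refine ⟨fun a => ε a, fun a b hab => ε.injective (Subtype.ext hab), fun a => hTs (ε a).2,
    fun i hi => ?_⟩
  obtain ⟨A, hA1, hA2⟩ := hspan i hi
  refine ⟨fun a => A (ε a), fun a ha => (hA1 _ ha).2, ?_⟩
  rw [hA2, ← Finset.sum_coe_sort T fun j => A j • v j]
  exact (Fintype.sum_equiv ε _ _ fun a => rfl).symm

end Greedy

section Minor

variable {k K ι : Type} [Field k] [Field K] [Algebra k K] [AddCommGroup ι]

/-- A homogeneous matrix with unit determinant: each row has an entry with unit minor. -/
theorem exists_minor_row (M : Fam k K ι) (q : Ideal M.alg) [q.IsPrime] {n : ℕ}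
    (X : Matrix (Fin (n + 1)) (Fin (n + 1)) K) {d : Fin (n + 1) → ι}
    (hX : ∀ i j, X i j ∈ (atP M q).s (d j)) (hdet : IsU (atP M q) (∑ j, d j) X.det)
    (l₀ : Fin (n + 1)) : ∃ j : Fin (n + 1), IsU (atP M q) (∑ l, d (j.succAbove l))
      (X.submatrix l₀.succAbove j.succAbove).det := by
  classical
  set N := atP M q with hN
  have hexp : X.det = ∑ j : Fin (n + 1), (-1) ^ ((l₀ : ℕ) + (j : ℕ)) * X l₀ j *
      (X.submatrix l₀.succAbove j.succAbove).det := Matrix.det_succ_row X l₀
  have hterm : ∀ j : Fin (n + 1), (X.submatrix l₀.succAbove j.succAbove).det ∈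
      N.s (∑ l, d (j.succAbove l)) := fun j => det_mem_fam N fun i l => hX _ _
  have hsumd : ∀ j : Fin (n + 1), d j + ∑ l, d (j.succAbove l) = ∑ l, d l := fun j =>
    (Fin.sum_univ_succAbove d j).symm
  rw [hexp] at hdet
  obtain ⟨t, ⟨j, rfl⟩, hj⟩ := exists_isU_of_span M q
    (T := Set.range fun j : Fin (n + 1) => X l₀ j *
      (X.submatrix l₀.succAbove j.succAbove).det) (by
      rintro _ ⟨j, rfl⟩
      have h1 := N.mul' (hX l₀ j) (hterm j)
      rwa [hsumd] at h1) (y := ∑ j : Fin (n + 1), (-1) ^ ((l₀ : ℕ) + (j : ℕ)) * X l₀ j *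
      (X.submatrix l₀.succAbove j.succAbove).det) (by
      refine Submodule.sum_mem _ fun j _ => ?_
      have h1 : (-1 : K) ^ ((l₀ : ℕ) + (j : ℕ)) * X l₀ j *
          (X.submatrix l₀.succAbove j.succAbove).det = ((-1 : k) ^ ((l₀ : ℕ) + (j : ℕ))) •
          (X l₀ j * (X.submatrix l₀.succAbove j.succAbove).det) := by
        rw [Algebra.smul_def, map_pow, map_neg, map_one, mul_assoc]
      rw [h1]
      exact Submodule.smul_mem _ _ (Submodule.subset_span ⟨j, rfl⟩)) hdet
  refine ⟨j, IsU.of_mul_right (hX l₀ j) (hterm j) ?_⟩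
  rw [hsumd]
  exact hj

/-- A unit minor of the first rows of a homogeneous matrix with unit determinant. -/
theorem exists_minor (M : Fam k K ι) (q : Ideal M.alg) [q.IsPrime] {m : ℕ} (r : ℕ)
    (X : Matrix (Fin (m + r)) (Fin (m + r)) K) {d : Fin (m + r) → ι}
    (hX : ∀ i j, X i j ∈ (atP M q).s (d j)) (hdet : IsU (atP M q) (∑ j, d j) X.det) :
    ∃ c : Fin m → Fin (m + r), IsU (atP M q) (∑ j, d (c j))
      (X.submatrix (Fin.castAdd r) c).det := by
  induction r with
  | zero => exact ⟨id, hdet⟩
  | succ r ih =>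
    obtain ⟨j, hj⟩ := exists_minor_row M q (n := m + r) X hX hdet (Fin.last (m + r))
    obtain ⟨c, hc⟩ := ih (X.submatrix (Fin.last (m + r)).succAbove j.succAbove)
      (d := fun l => d (j.succAbove l)) (fun _ _ => hX _ _) hj
    refine ⟨fun l => j.succAbove (c l), ?_⟩
    have h1 : (X.submatrix (Fin.last (m + r)).succAbove j.succAbove).submatrix (Fin.castAdd r) c =
        X.submatrix (Fin.castAdd (r + 1)) (fun l => j.succAbove (c l)) := by
      ext a b
      simp only [Matrix.submatrix_apply, Fin.succAbove_last]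
      rfl
    rw [h1] at hc
    exact hc

end Minor

section Main

variable {k K ι J I : Type} [Field k] [Field K] [Algebra k K] [AddCommGroup ι] [Fintype J]
  {M : Fam k K ι} {a : ι} {u : J → ι} {B : Subalgebra k K}
  {ω : I → Derivation k K K →ₗ[K] K} {α : I → J → ℤ}

omit [Fintype J] in
theorem derivation_sum_apply {A : Type} (s : Finset A) (D : A → Derivation k K K) (z : K) :
    (∑ a ∈ s, D a) z = ∑ a ∈ s, D a z := by
  classical
  induction s using Finset.induction_on with
  | empty => rw [Finset.sum_empty, Finset.sum_empty]; rfl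
  | insert a s ha ih => rw [Finset.sum_insert ha, Finset.sum_insert ha, Derivation.add_apply, ih]

/-- A permutation which puts given rows at the end. -/
theorem exists_perm_rows {m r : ℕ} (t : Fin r → Fin (m + r)) (ht : Function.Injective t) :
    ∃ e : Fin (m + r) ≃ Fin (m + r), ∀ a, e (Fin.natAdd m a) = t a := by
  classical
  let S : Set (Fin (m + r)) := Set.range t
  have hcard : Fintype.card (Sᶜ : Set (Fin (m + r))) = m := by
    have h1 : Fintype.card S = r := by
      rw [Set.card_range_of_injective ht, Fintype.card_fin]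
    rw [Fintype.card_compl_set, Fintype.card_fin, h1]
    omega
  let ε : Fin m ≃ (Sᶜ : Set (Fin (m + r))) := (Fintype.equivFinOfCardEq hcard).symm
  let e : Fin (m + r) ≃ Fin (m + r) :=
    finSumFinEquiv.symm.trans ((Equiv.sumComm _ _).trans
      (((Equiv.ofInjective t ht).sumCongr ε).trans (Equiv.Set.sumCompl S)))
  refine ⟨e, fun a => ?_⟩
  simp [e, S]

/-- The derivations which kill several equations. -/
theorem LogStage.exists_derivs_r [Fintype I] {m r : ℕ} (h : LogStage B M a u (m + r) ω α)
    (C : Fin r → I → k)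
    (hC : LinearIndependent K fun j => ∑ i, algebraMap k K (C j i) • ω i)
    (q : Ideal M.alg) [q.IsPrime] (hq : Semi M a q)
    (hord : ∀ i i', (1 : K) ∈ (atP M q).s (wdeg u (α i) - wdeg u (α i')) ∨
        (1 : K) ∈ (atP M q).s (wdeg u (α i') - wdeg u (α i))) :
    ∃ (D : Fin m → Derivation k K K) (y : Fin m → K) (d : Fin m → ι),
        (∀ l j, ∑ i, algebraMap k K (C j i) * ω i (D l) = 0) ∧ (∀ l, Pres M q (D l)) ∧
        (∀ l, y l ∈ (atP M q).s (d l)) ∧
        IsU (atP M q) (∑ l, d l) (Matrix.of fun l j => D l (y j)).det := by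
  classical
  obtain ⟨δ, y, d, hpres, hy, hdet, hmem, hunit, hdisj⟩ := h.loc q hq
  set N := atP M q with hN
  set c : I → ι := fun i => wdeg u (α i) with hc
  set s : Finset I := Finset.univ.filter fun i => ω i ≠ 0 with hs
  have hms : ∀ i, i ∈ s ↔ ω i ≠ 0 := fun i => by simp [hs]
  -- the columns of the nonzero forms span
  have hspan : Submodule.span k ((fun i j => C j i) '' (s : Set I)) = (⊤ : Submodule k (Fin r → k)) := by
    by_contra hcon
    obtain ⟨φ, hφ0, hφ⟩ := Submodule.exists_le_ker_of_lt_top _ (lt_top_iff_ne_top.2 hcon)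
    have h1 : ∀ i ∈ s, ∑ j, C j i * φ (Pi.single j 1) = 0 := by
      intro i hi
      have h2 : φ (fun j => C j i) = 0 := hφ (Submodule.subset_span ⟨i, hi, rfl⟩)
      rw [← h2]
      conv_rhs => rw [pi_eq_sum_univ (fun j => C j i)]
      rw [map_sum]
      refine Finset.sum_congr rfl fun j _ => ?_
      rw [map_smul, smul_eq_mul]
      congr 2
      ext l
      simp [Pi.single_apply, eq_comm]
    have h2 := Fintype.linearIndependent_iff.1 hC
      (fun j => algebraMap k K (φ (Pi.single j 1))) (by
        simp only [Finset.smul_sum]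
        rw [Finset.sum_comm]
        refine Finset.sum_eq_zero fun i _ => ?_
        by_cases hi : ω i = 0
        · simp [hi]
        · have h3 := h1 i ((hms i).2 hi)
          simp only [smul_smul]
          rw [← Finset.sum_smul]
          have h4 : ∑ j, algebraMap k K (φ (Pi.single j 1)) * algebraMap k K (C j i) = 0 := by
            rw [← map_zero (algebraMap k K), ← h3, map_sum]
            exact Finset.sum_congr rfl fun j _ => by rw [map_mul, mul_comm]
          rw [h4, zero_smul])
    apply hφ0
    refine LinearMap.pi_ext' fun j => LinearMap.ext_ring ?_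
    have h3 := h2 j
    rw [FaithfulSMul.algebraMap_eq_zero_iff] at h3
    simpa using h3
  obtain ⟨t, htinj, hts, hA⟩ := exists_greedy_fin (fun i j => C j i)
    (fun i i' => (1 : K) ∈ N.s (c i' - c i)) (fun i => by rw [sub_self]; exact N.one')
    (fun i j l h1 h2 => by
      have h3 := N.mul' h1 h2
      rwa [mul_one, add_comm, sub_add_sub_cancel] at h3)
    (fun i j => (hord i j).symm) s hspan
  -- the unit coefficients
  have hex : ∀ a, ∃ l, IsU N (c (t a)) (ω (t a) (δ l)) := fun a =>
    (hunit (t a)).resolve_left ((hms _).1 (hts a))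
  choose l hl using hex
  have hinj : Function.Injective l := by
    intro a b hab
    by_contra hne
    have h1 := hdisj (l a) (t a) (t b) (fun h => hne (htinj h))
    rcases h1 with h1 | h1
    · exact (hl a).1 h1
    · rw [hab] at h1
      exact (hl b).1 h1
  have hother : ∀ a i, i ≠ t a → ω i (δ (l a)) = 0 := fun a i hi =>
    (hdisj (l a) i (t a) hi).resolve_right (hl a).1
  set w : Fin r → K := fun a => ω (t a) (δ (l a)) with hw
  have hw0 : ∀ a, w a ≠ 0 := fun a => (hl a).1
  choose! A hA1 hA2 using hA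
  -- the coefficients
  set ρ : Fin (m + r) → Fin r → K := fun x a =>
    (∑ i ∈ s, algebraMap k K (A i a) * ω i (δ x)) * (w a)⁻¹ with hρ
  have hρ0 : ∀ x a, ρ x a ∈ N.s 0 := by
    intro x a
    have h1 : ∑ i ∈ s, algebraMap k K (A i a) * ω i (δ x) ∈ N.s (c (t a)) := by
      refine Submodule.sum_mem _ fun i hi => ?_
      by_cases h0 : A i a = 0
      · rw [h0, map_zero, zero_mul]; exact Submodule.zero_mem _
      · rw [← Algebra.smul_def]
        refine Submodule.smul_mem _ _ ?_
        have h2 := N.mul' (hA1 i hi a h0) (hmem i x)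
        rwa [one_mul, sub_add_cancel] at h2
    have h2 := N.mul' h1 (hl a).2.2
    rwa [add_neg_cancel] at h2
  set D : Fin (m + r) → Derivation k K K := fun x =>
    δ x - ∑ a, ρ x a • δ (l a) with hD
  have hDapp : ∀ x z, D x z = δ x z - ∑ a, ρ x a * δ (l a) z := by
    intro x z
    simp only [hD, Derivation.sub_apply]
    congr 1
    rw [derivation_sum_apply]
    rfl
  have hDpres : ∀ x, Pres M q (D x) := by
    intro x b z hz
    rw [hDapp]
    refine Submodule.sub_mem _ (hpres _ _ _ hz) (Submodule.sum_mem _ fun a _ => ?_)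
    have h2 := N.mul' (hρ0 x a) (hpres (l a) _ _ hz)
    rwa [zero_add] at h2
  have hDω : ∀ x j, ∑ i, algebraMap k K (C j i) * ω i (D x) = 0 := by
    intro x j
    have h1 : ∀ i, ω i (D x) = ω i (δ x) - ∑ a, ρ x a * ω i (δ (l a)) := by
      intro i
      simp only [hD, map_sub, map_sum, map_smul, smul_eq_mul]
    have h2 : ∑ i, algebraMap k K (C j i) * ω i (D x) =
        ∑ i ∈ s, algebraMap k K (C j i) * ω i (δ x) -
          ∑ a, ρ x a * (algebraMap k K (C j (t a)) * w a) := by
      simp only [h1, mul_sub, Finset.sum_sub_distrib]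
      congr 1
      · symm
        refine Finset.sum_subset (Finset.subset_univ _) fun i _ hi => ?_
        have : ω i = 0 := by
          by_contra hcon
          exact hi ((hms i).2 hcon)
        rw [this, LinearMap.zero_apply, mul_zero]
      · simp only [Finset.mul_sum]
        rw [Finset.sum_comm]
        refine Finset.sum_congr rfl fun a _ => ?_
        rw [Finset.sum_eq_single (t a)]
        · ring
        · intro i _ hi
          rw [hother a i hi, mul_zero, mul_zero]
        · intro h
          exact absurd (Finset.mem_univ _) h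
    rw [h2, sub_eq_zero]
    have h3 : ∀ a, ρ x a * (algebraMap k K (C j (t a)) * w a) =
        ∑ i ∈ s, algebraMap k K (A i a * C j (t a)) * ω i (δ x) := by
      intro a
      simp only [hρ]
      have h4 : (∑ i ∈ s, algebraMap k K (A i a) * ω i (δ x)) * (w a)⁻¹ *
          (algebraMap k K (C j (t a)) * w a) =
          (∑ i ∈ s, algebraMap k K (A i a) * ω i (δ x)) * algebraMap k K (C j (t a)) := by
        field_simp [hw0 a]
      rw [h4, Finset.sum_mul]
      refine Finset.sum_congr rfl fun i _ => ?_
      rw [map_mul]; ring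
    simp only [h3]
    rw [Finset.sum_comm]
    refine Finset.sum_congr rfl fun i hi => ?_
    rw [← Finset.sum_mul, ← map_sum]
    congr 2
    have h5 := congrFun (hA2 i hi) j
    simpa [Finset.sum_apply, smul_eq_mul] using h5
  -- the matrix
  obtain ⟨e, he⟩ := exists_perm_rows l hinj
  set Ae : Matrix (Fin (m + r)) (Fin (m + r)) K :=
    (Matrix.of fun x z => δ x (y z)).submatrix e e with hAe
  set R : Matrix (Fin m) (Fin r) K := Matrix.of fun x a => -ρ (e (Fin.castAdd r x)) a with hR
  set P : Matrix (Fin (m + r)) (Fin (m + r)) K :=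
    (Matrix.fromBlocks 1 R 0 1).submatrix finSumFinEquiv.symm finSumFinEquiv.symm with hP
  have hPdet : P.det = 1 := by
    rw [hP, Matrix.det_submatrix_equiv_self, Matrix.det_fromBlocks_zero₂₁, Matrix.det_one,
      Matrix.det_one, mul_one]
  have hXdet : (P * Ae).det = (Matrix.of fun x z => δ x (y z)).det := by
    rw [Matrix.det_mul, hPdet, one_mul, hAe, Matrix.det_submatrix_equiv_self]
  have hX1 : ∀ x z, (P * Ae) (Fin.castAdd r x) z = D (e (Fin.castAdd r x)) (y (e z)) := by
    intro x z
    rw [Matrix.mul_apply, ← Equiv.sum_comp finSumFinEquiv, Fintype.sum_sum_type]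
    simp only [hP, Matrix.submatrix_apply, Equiv.symm_apply_apply, finSumFinEquiv_apply_left,
      finSumFinEquiv_apply_right, finSumFinEquiv_symm_apply_castAdd,
      finSumFinEquiv_symm_apply_natAdd, Matrix.fromBlocks_apply₁₁, Matrix.fromBlocks_apply₁₂,
      hAe, Matrix.of_apply, Matrix.one_apply, ite_mul, one_mul, zero_mul, Finset.sum_ite_eq,
      Finset.mem_univ, if_true, hR, he, neg_mul, Finset.sum_neg_distrib]
    rw [hDapp, sub_eq_add_neg]
  have hX2 : ∀ a z, (P * Ae) (Fin.natAdd m a) z = δ (l a) (y (e z)) := by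
    intro a z
    rw [Matrix.mul_apply, ← Equiv.sum_comp finSumFinEquiv, Fintype.sum_sum_type]
    simp only [hP, Matrix.submatrix_apply, Equiv.symm_apply_apply, finSumFinEquiv_apply_left,
      finSumFinEquiv_apply_right, finSumFinEquiv_symm_apply_castAdd,
      finSumFinEquiv_symm_apply_natAdd, Matrix.fromBlocks_apply₂₁, Matrix.fromBlocks_apply₂₂,
      hAe, Matrix.of_apply, Matrix.one_apply, Matrix.zero_apply, ite_mul, one_mul, zero_mul,
      Finset.sum_ite_eq, Finset.mem_univ, if_true, he, Finset.sum_const_zero, zero_add]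
  have hXmem : ∀ x z, (P * Ae) x z ∈ N.s (d (e z)) := by
    intro x z
    refine Fin.addCases (fun x => ?_) (fun a => ?_) x
    · rw [hX1]; exact hDpres _ _ _ (hy _)
    · rw [hX2]; exact hpres _ _ _ (hy _)
  have hXU : IsU N (∑ z, d (e z)) (P * Ae).det := by
    rw [hXdet, Equiv.sum_comp e d]
    exact hdet
  obtain ⟨cc, hcc⟩ := exists_minor M q r (P * Ae) hXmem hXU
  refine ⟨fun x => D (e (Fin.castAdd r x)), fun x => y (e (cc x)), fun x => d (e (cc x)),
    fun x j => hDω _ j, fun x => hDpres _, fun x => hy _, ?_⟩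
  have h1 : (Matrix.of fun x j => D (e (Fin.castAdd r x)) (y (e (cc j)))) =
      (P * Ae).submatrix (Fin.castAdd r) cc := by
    ext x j
    rw [Matrix.submatrix_apply, hX1]
    rfl
  rw [h1]
  exact hcc

end Main

end Pool.Agent.MP_b525bf_ag_TS
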