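import Pool.Agent.Lib.MP_b525bf_ag_TS.DescR
import Pool.Agent.Lib.MP_b525bf_ag_TS.DefsR

/-!
# R1: descent for several equations, second part
-/

set_option autoImplicit false

namespace Pool.Agent.MP_b525bf_ag_TS

open Pool.Agent.MP_b525bf_ag Pool.Agent.MP_b525bf_ag_W Pool.Agent.MP_b525bf_ag_P AddMonoidAlgebra

variable {k K I : Type} [Field k] [Field K] [Algebra k K] {B : Subalgebra k K}
  {ω : I → Derivation k K K →ₗ[K] K}

/-- A derivation which kills `f_1, ..., f_r` is zero on `K ^ p (f_1, ..., f_r)`. -/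
theorem eq_zero_of_mem_Lfs (p : ℕ) [Fact p.Prime] [CharP k p] {r : ℕ} {f : Fin r → K}
    {D : Derivation k K K} (hD : ∀ j, D (f j) = 0) {z : K} (hz : z ∈ Lfs (k := k) p f) :
    D z = 0 := by
  have hp : (p : K) = 0 := by
    rw [← map_natCast (algebraMap k K), CharP.cast_eq_zero k p, map_zero]
  induction hz using IntermediateField.adjoin_induction with
  | mem z hz =>
    rcases hz with ⟨w, rfl⟩ | ⟨j, rfl⟩
    · rw [Derivation.leibniz_pow, nsmul_eq_mul, hp, zero_mul]
    · exact hD j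
  | algebraMap r => exact D.map_algebraMap r
  | add x y _ _ hx hy => rw [map_add, hx, hy, add_zero]
  | inv x _ hx =>
    rw [Derivation.leibniz_inv, hx, smul_zero]
  | mul x y _ _ hx hy => rw [Derivation.leibniz, hx, hy, smul_zero, smul_zero, add_zero]

theorem HasStage.hasResolution_r (p : ℕ) [Fact p.Prime] [CharP k p] [Fintype I] {m r : ℕ}
    (h : HasStage B (m + r) ω) (C : Fin r → I → k)
    (hC : LinearIndependent K fun j => ∑ i, algebraMap k K (C j i) • ω i) {f : Fin r → K}
    {ν : Fin r → Fin r → K} (hf : ∀ j, ∀ D : Derivation k K K,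
      D (f j) = ∑ l, ν j l * ∑ i, algebraMap k K (C l i) * ω i D)
    (hdeg : Module.finrank (Lfs (k := k) p f) K = p ^ m) :
    HasResolution k (B ⊓ (Lfs (k := k) p f).toSubalgebra : Subalgebra k K) := by
  obtain ⟨ι, i1, i2, i3, J, i4, M, a, u, α, h⟩ := h
  obtain ⟨ι', j1, j2, j3, J', j4, M', a', u', α', h', hord⟩ := h.exists_ordered
  have hG := goodM_interFam p h'.tor (Lfs (k := k) p f)
    (fun z => IntermediateField.subset_adjoin _ _ (Or.inl ⟨z, rfl⟩)) hdeg (by
      intro q _ hq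
      obtain ⟨D, y, d, h1, h2, h3, h4⟩ := h'.exists_derivs_r C hC q hq (hord q hq)
      exact ⟨D, y, d, fun l z hz => eq_zero_of_mem_Lfs p
        (fun j => by rw [hf j]; simp only [h1 l, mul_zero, Finset.sum_const_zero]) hz, h2, h3, h4⟩)
  obtain ⟨M'', hM'', h0⟩ := hG.exists_goodC
  refine hasResolution_of_goodC_one k _ K ?_ M'' hM'' ?_
  · exact Subtype.val_injective
  · intro z
    rw [h0]
    constructor
    · intro hz
      refine ⟨⟨z, ?_, hz.2⟩, rfl⟩
      have h1 : z ∈ M'.s 0 := hz.1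
      rw [h'.zero] at h1
      exact h1
    · rintro ⟨⟨x, hx⟩, rfl⟩
      refine ⟨?_, hx.2⟩
      change x ∈ M'.s 0
      rw [h'.zero]
      exact hx.1

end Pool.Agent.MP_b525bf_ag_TS
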