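import Pool.Agent.Lib.MP_b525bf_ag_TS.SDefs
import Pool.Agent.Lib.MP_b525bf_ag_X.Tame2
import Pool.Agent.Lib.MP_b525bf_ag_X.Rigid

/-!
# Étale coordinates and bases of the module of differentials
-/

set_option autoImplicit false

namespace Pool.Agent.MP_b525bf_ag_TS

open Pool.Agent.MP_b525bf_ag_X TensorProduct KaehlerDifferential MvPolynomial

variable {k C : Type} [Field k] [CommRing C] [Algebra k C] {n : ℕ}

/-- The differentials of étale coordinates are a basis. -/
theorem basis_of_etale {x : Fin n → C}
    (h : (aeval x : MvPolynomial (Fin n) k →ₐ[k] C).toRingHom.Etale) :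
    (∃ b : Module.Basis (Fin n) C Ω[C⁄k], ∀ i, b i = D k C (x i)) ∧
      Algebra.FormallySmooth k C ∧ Algebra.FinitePresentation k C := by
  let _ : Algebra (MvPolynomial (Fin n) k) C := (aeval x).toRingHom.toAlgebra
  have htow : IsScalarTower k (MvPolynomial (Fin n) k) C :=
    IsScalarTower.of_algebraMap_eq' (aeval x).comp_algebraMap.symm
  have het : Algebra.Etale (MvPolynomial (Fin n) k) C := h
  refine ⟨?_, ?_, ?_⟩
  · let b0 := (mvPolynomialBasis k (Fin n)).baseChange C
    refine ⟨b0.map (tensorKaehlerEquivOfFormallyEtale k (MvPolynomial (Fin n) k) C), fun i => ?_⟩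
    rw [Module.Basis.map_apply, Module.Basis.baseChange_apply, mvPolynomialBasis_apply,
      ← tensorKaehlerEquivOfFormallyEtale_symm_D_algebraMap k, LinearEquiv.apply_symm_apply]
    congr 1
    exact aeval_X x i
  · exact Algebra.FormallySmooth.comp k (MvPolynomial (Fin n) k) C
  · exact Algebra.FinitePresentation.trans k (MvPolynomial (Fin n) k) C

/-- Elements whose differentials are a basis are étale coordinates. -/
theorem etale_of_basis [Algebra.FormallySmooth k C] [Algebra.FinitePresentation k C]
    {x : Fin n → C} (b : Module.Basis (Fin n) C Ω[C⁄k]) (hb : ∀ i, b i = D k C (x i)) :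
    (aeval x : MvPolynomial (Fin n) k →ₐ[k] C).toRingHom.Etale := by
  let _ : Algebra (MvPolynomial (Fin n) k) C := (aeval x).toRingHom.toAlgebra
  have htow : IsScalarTower k (MvPolynomial (Fin n) k) C :=
    IsScalarTower.of_algebraMap_eq' (aeval x).comp_algebraMap.symm
  have hfp2 : Algebra.FinitePresentation (MvPolynomial (Fin n) k) C :=
    Algebra.FinitePresentation.of_restrict_scalars_finitePresentation k _ _
  have het : Algebra.FormallyEtale (MvPolynomial (Fin n) k) C := by
    refine formallyEtale_of_basis (k := k) (mvPolynomialBasis k (Fin n)) b fun i => ?_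
    rw [mvPolynomialBasis_apply, mapBaseChange_tmul, one_smul, map_D, hb]
    congr 1
    exact aeval_X x i
  have het2 : Algebra.Etale (MvPolynomial (Fin n) k) C := ⟨het, hfp2⟩
  exact het2

/-- Étale coordinates stay étale after a localisation. -/
theorem etale_localization {x : Fin n → C}
    (h : (aeval x : MvPolynomial (Fin n) k →ₐ[k] C).toRingHom.Etale) {S : Type} [CommRing S]
    [Algebra k S] [Algebra C S] [IsScalarTower k C S] (f : C) [IsLocalization.Away f S] :
    (aeval (fun i => algebraMap C S (x i)) : MvPolynomial (Fin n) k →ₐ[k] S).toRingHom.Etale := by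
  have h1 : (algebraMap C S).Etale := by
    rw [RingHom.etale_algebraMap]
    exact Algebra.Etale.of_isLocalizationAway f
  have h2 := RingHom.Etale.stableUnderComposition _ _ h h1
  convert h2 using 1
  apply MvPolynomial.ringHom_ext
  · intro r
    change aeval _ (MvPolynomial.C r) = algebraMap C S (aeval x (MvPolynomial.C r))
    rw [aeval_C, aeval_C, ← IsScalarTower.algebraMap_apply k C]
  · intro i
    change aeval _ (X i) = algebraMap C S (aeval x (X i))
    rw [aeval_X, aeval_X]

end Pool.Agent.MP_b525bf_ag_TS
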