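import Pool.Agent.Lib.MP_b525bf_ag_TS.Defs

/-!
# D1a: the local structure of the extension by a nondegenerate system of derivations
-/

set_option autoImplicit false

namespace Pool.Agent.MP_b525bf_ag_TS

open Pool.Agent.MP_b525bf_ag Pool.Agent.MP_b525bf_ag_W Pool.Agent.MP_b525bf_ag_P AddMonoidAlgebra

namespace Expand

variable {k K ι J : Type} [Field k] [Field K] [Algebra k K] [AddCommGroup ι]

theorem prod_mem (M : Fam k K ι) {σ : Type} (s : Finset σ) (x : σ → K) (e : σ → ι)
    (h : ∀ i ∈ s, x i ∈ M.s (e i)) : ∏ i ∈ s, x i ∈ M.s (∑ i ∈ s, e i) := by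
  classical
  induction s using Finset.induction_on with
  | empty => simpa using M.one'
  | insert a s ha ih =>
    rw [Finset.prod_insert ha, Finset.sum_insert ha]
    exact M.mul' (h a (Finset.mem_insert_self a s))
      (ih fun i hi => h i (Finset.mem_insert_of_mem hi))

theorem det_mem (M : Fam k K ι) {n : ℕ} (A : Matrix (Fin n) (Fin n) K) (e : Fin n → ι)
    (h : ∀ r c, A r c ∈ M.s (e c)) : A.det ∈ M.s (∑ c, e c) := by
  rw [Matrix.det_apply]
  refine Submodule.sum_mem _ fun σ _ => ?_
  rw [Units.smul_def]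
  exact zsmul_mem (prod_mem M _ _ _ fun i _ => h _ _) _

theorem adj_mem (M : Fam k K ι) {n : ℕ} (A : Matrix (Fin n) (Fin n) K) (e : Fin n → ι)
    (h : ∀ r c, A r c ∈ M.s (e c)) (j l : Fin n) : A.adjugate j l ∈ M.s (∑ c, e c - e j) := by
  obtain _ | n := n
  · exact j.elim0
  · rw [Matrix.adjugate_fin_succ_eq_det_submatrix]
    have h1 : (A.submatrix l.succAbove j.succAbove).det ∈ M.s (∑ c, e (j.succAbove c)) :=
      det_mem M _ _ fun r c => h _ _
    rw [Fin.sum_univ_succAbove e j, add_sub_cancel_left]
    rcases neg_one_pow_eq_or K (l + j : ℕ) with h2 | h2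
    · rw [h2, one_mul]; exact h1
    · rw [h2, neg_one_mul]; exact Submodule.neg_mem _ h1

/-- The dual derivations. -/
noncomputable def dual {m : ℕ} (D : Fin m → Derivation k K K) (y : Fin m → K) (j : Fin m) :
    Derivation k K K :=
  ∑ l, (Matrix.of fun l j => D l (y j))⁻¹ j l • D l

theorem dual_apply {m : ℕ} (D : Fin m → Derivation k K K) (y : Fin m → K) (j : Fin m) (z : K) :
    dual D y j z = ∑ l, (Matrix.of fun l j => D l (y j))⁻¹ j l * D l z := by
  have h : ∀ s : Finset (Fin m), (∑ l ∈ s, (Matrix.of fun l j => D l (y j))⁻¹ j l • D l) z =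
      ∑ l ∈ s, (Matrix.of fun l j => D l (y j))⁻¹ j l * D l z := by
    intro s
    induction s using Finset.induction_on with
    | empty => simp
    | insert a s ha ih =>
      rw [Finset.sum_insert ha, Finset.sum_insert ha, Derivation.add_apply, ih,
        Derivation.smul_apply, smul_eq_mul]
  exact h _

theorem dual_y {m : ℕ} (D : Fin m → Derivation k K K) (y : Fin m → K)
    (hdet : (Matrix.of fun l j => D l (y j)).det ≠ 0) (i j : Fin m) :
    dual D y j (y i) = if i = j then 1 else 0 := by
  rw [dual_apply]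
  have h := Matrix.nonsing_inv_mul _ (isUnit_iff_ne_zero.2 hdet)
  have h1 := congrFun (congrFun h j) i
  rw [Matrix.mul_apply, Matrix.one_apply] at h1
  rw [show (if i = j then (1 : K) else 0) = if j = i then 1 else 0 by
    by_cases hij : i = j <;> simp [hij, eq_comm], ← h1]
  rfl

theorem dual_mem {M : Fam k K ι} {m : ℕ} {D : Fin m → Derivation k K K} {y : Fin m → K}
    {d : Fin m → ι} (hDp : ∀ l d, ∀ y ∈ M.s d, D l y ∈ M.s d) (hy : ∀ l, y l ∈ M.s (d l))
    (hdet : IsU M (∑ l, d l) (Matrix.of fun l j => D l (y j)).det) (j : Fin m) (b : ι) (z : K)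
    (hz : z ∈ M.s b) : dual D y j z ∈ M.s (b - d j) := by
  rw [dual_apply]
  refine Submodule.sum_mem _ fun l _ => ?_
  have h1 : (Matrix.of fun l j => D l (y j))⁻¹ j l ∈ M.s (-(d j)) := by
    rw [Matrix.inv_def, Ring.inverse_eq_inv', Matrix.smul_apply, smul_eq_mul]
    have h2 := adj_mem M (Matrix.of fun l j => D l (y j)) d
      (fun r c => hDp r (d c) (y c) (hy c)) j l
    have h3 := M.mul' hdet.2.2 h2
    have e : -∑ l, d l + (∑ c, d c - d j) = -(d j) := by abel
    rwa [e] at h3
  have h4 := M.mul' h1 (hDp l b z hz)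
  have e : -(d j) + b = b - d j := by abel
  rwa [e] at h4

theorem dual_L {m : ℕ} {L : IntermediateField k K} {D : Fin m → Derivation k K K}
    {y : Fin m → K} (hDL : ∀ l, ∀ z ∈ L, D l z = 0) (j : Fin m) (z : K) (hz : z ∈ L) :
    dual D y j z = 0 := by
  rw [dual_apply]
  exact Finset.sum_eq_zero fun l _ => by rw [hDL l z hz, mul_zero]

theorem aeval_pderiv {m : ℕ} {L : IntermediateField k K} {E : Derivation k K K}
    {y : Fin m → K} (hE : ∀ z ∈ L, E z = 0) {j : Fin m}
    (hy : ∀ i, E (y i) = if i = j then 1 else 0) (P : MvPolynomial (Fin m) L) :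
    E (MvPolynomial.aeval y P) = MvPolynomial.aeval y (MvPolynomial.pderiv j P) := by
  induction P using MvPolynomial.induction_on with
  | C a =>
    rw [MvPolynomial.aeval_C, MvPolynomial.pderiv_C, map_zero]
    exact hE _ a.2
  | add P Q hP hQ => rw [map_add, map_add, map_add, map_add, hP, hQ]
  | mul_X P i hP =>
    rw [map_mul, Derivation.leibniz, MvPolynomial.aeval_X, hP, hy, MvPolynomial.pderiv_mul,
      MvPolynomial.pderiv_X, map_add, map_mul, map_mul, MvPolynomial.aeval_X]
    by_cases h : i = j
    · subst h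
      simp only [smul_eq_mul, if_true, Pi.single_eq_same, map_one]
      ring
    · rw [if_neg h, Pi.single_eq_of_ne h, map_zero]
      simp only [smul_eq_mul]
      ring

theorem natCast_L {L : IntermediateField k K} (n : ℕ) : ((n : L) : K) = (n : K) := by
  simp

theorem key (p : ℕ) [Fact p.Prime] [CharP k p] {L : IntermediateField k K} {m : ℕ}
    {E : Fin m → Derivation k K K} {y : Fin m → K} {d : Fin m → ι}
    (V : ι → Submodule k K) (hL : ∀ j, ∀ z ∈ L, E j z = 0)
    (hE : ∀ j i, E j (y i) = if i = j then 1 else 0)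
    (hV : ∀ j b, ∀ z ∈ V b, E j z ∈ V (b - d j))
    (hy : ∀ j b, ∀ z ∈ V b, y j * z ∈ V (b + d j)) :
    ∀ (N : ℕ) (b : ι) (P : MvPolynomial (Fin m) L),
      (∀ β, P.coeff β ≠ 0 → ∑ i, β i ≤ N) → (∀ β, P.coeff β ≠ 0 → ∀ j, β j < p) →
      MvPolynomial.aeval y P ∈ V b →
      ∀ β : Fin m →₀ ℕ, ((P.coeff β : L) : K) ∈ V (b - ∑ j, β j • d j) := by
  classical
  have hmon : ∀ (s : Finset (Fin m)) (β : Fin m → ℕ) (b : ι) (z : K),
      z ∈ V b → (∏ j ∈ s, y j ^ β j) * z ∈ V (b + ∑ j ∈ s, β j • d j) := by
    intro s β b z hz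
    induction s using Finset.induction_on with
    | empty => simpa using hz
    | insert a s ha ih =>
      rw [Finset.prod_insert ha, Finset.sum_insert ha, mul_assoc]
      have h1 : ∀ (n : ℕ) (b : ι) (z : K), z ∈ V b → y a ^ n * z ∈ V (b + n • d a) := by
        intro n
        induction n with
        | zero => intro b z hz; simpa using hz
        | succ n ih =>
          intro b z hz
          have h2 := hy a _ _ (ih b z hz)
          have e : b + n • d a + d a = b + (n + 1) • d a := by rw [succ_nsmul]; abel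
          rw [e] at h2
          convert h2 using 1
          ring
      have h2 := h1 (β a) _ _ ih
      have e : b + ∑ j ∈ s, β j • d j + β a • d a = b + (β a • d a + ∑ j ∈ s, β j • d j) := by
        abel
      rwa [e] at h2
  intro N
  induction N with
  | zero =>
    intro b P hN hp hP β
    have h0 : ∀ β, β ≠ 0 → P.coeff β = 0 := by
      intro β hβ
      by_contra h
      have h1 := hN β h
      refine hβ (Finsupp.ext fun i => ?_)
      have h2 : β i ≤ ∑ i, β i :=
        Finset.single_le_sum (f := fun i => β i) (fun _ _ => Nat.zero_le _) (Finset.mem_univ i)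
      simpa using Nat.le_zero.1 (h2.trans h1)
    by_cases hβ : β = 0
    · subst hβ
      have h3 : P = MvPolynomial.C (P.coeff 0) := by
        refine MvPolynomial.ext _ _ fun γ => ?_
        rw [MvPolynomial.coeff_C]
        by_cases hγ : (0 : Fin m →₀ ℕ) = γ
        · rw [if_pos hγ, hγ]
        · rw [if_neg hγ, h0 γ (Ne.symm hγ)]
      rw [h3, MvPolynomial.aeval_C] at hP
      simpa using hP
    · rw [h0 β hβ]
      simp
  | succ N ih =>
    intro b P hN hp hP
    have hne : ∀ β : Fin m →₀ ℕ, β ≠ 0 → ((P.coeff β : L) : K) ∈ V (b - ∑ j, β j • d j) := by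
      intro β hβ
      by_cases hc : P.coeff β = 0
      · rw [hc]; simp
      · obtain ⟨j, hj⟩ : ∃ j, β j ≠ 0 := by
          by_contra h
          push Not at h
          exact hβ (Finsupp.ext h)
        have h1 : MvPolynomial.aeval y (MvPolynomial.pderiv j P) ∈ V (b - d j) := by
          rw [← aeval_pderiv (hL j) (hE j)]
          exact hV j b _ hP
        have h2 := ih (b - d j) (MvPolynomial.pderiv j P) (fun γ hγ => by
            rw [MvPolynomial.coeff_pderiv] at hγ
            have h3 := hN _ (left_ne_zero_of_mul hγ)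
            have h4 : ∑ i, (γ + Finsupp.single j 1 : Fin m →₀ ℕ) i = ∑ i, γ i + 1 := by
              simp [Finset.sum_add_distrib, Finsupp.single_apply]
            omega)
          (fun γ hγ i => by
            rw [MvPolynomial.coeff_pderiv] at hγ
            have h3 := hp _ (left_ne_zero_of_mul hγ) i
            exact lt_of_le_of_lt (by simp) h3)
          h1 (β - Finsupp.single j 1)
        have h3 : β - Finsupp.single j 1 + Finsupp.single j 1 = β := by
          refine Finsupp.ext fun i => ?_
          simp only [Finsupp.coe_add, Finsupp.coe_tsub, Pi.add_apply, Pi.sub_apply,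
            Finsupp.single_apply]
          by_cases hij : j = i
          · subst hij; simp; omega
          · simp [hij]
        rw [MvPolynomial.coeff_pderiv, h3] at h2
        have h4 : (b - d j) - ∑ i, (β - Finsupp.single j 1 : Fin m →₀ ℕ) i • d i = b - ∑ i, β i • d i := by
          have h5 : ∑ i, β i • d i = ∑ i, (β - Finsupp.single j 1 : Fin m →₀ ℕ) i • d i + d j := by
            conv_lhs => rw [← h3]
            simp [add_smul, Finset.sum_add_distrib, Finsupp.single_apply, ite_smul]
          rw [h5]; abel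
        rw [h4] at h2
        have h5 : (β - Finsupp.single j 1 : Fin m →₀ ℕ) j + 1 = β j := by
          simp; omega
        have h6 : ((((β - Finsupp.single j 1 : Fin m →₀ ℕ) j : ℕ) : L) + 1) = ((β j : ℕ) : L) := by
          rw [← h5]; push_cast; rfl
        rw [h6] at h2
        have h7 : ((β j : ℕ) : k) ≠ 0 := by
          intro h
          rw [CharP.cast_eq_zero_iff k p] at h
          exact absurd (Nat.le_of_dvd (Nat.pos_of_ne_zero hj) h) (not_le.2 (hp β hc j))
        have h8 := Submodule.smul_mem _ (((β j : ℕ) : k)⁻¹) h2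
        have h9 : (((β j : ℕ) : k)⁻¹ • ((P.coeff β * ((β j : ℕ) : L) : L) : K)) =
            ((P.coeff β : L) : K) := by
          rw [Algebra.smul_def, map_inv₀, map_natCast]
          push_cast
          have : ((β j : ℕ) : K) ≠ 0 := by
            rw [← map_natCast (algebraMap k K)]
            exact (map_ne_zero _).2 h7
          field_simp
        rwa [h9] at h8
    intro β
    by_cases hβ : β = 0
    · subst hβ
      have h1 : MvPolynomial.aeval y P =
          ∑ γ ∈ P.support, ((P.coeff γ : L) : K) * ∏ j, y j ^ γ j := by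
        rw [MvPolynomial.aeval_def, MvPolynomial.eval₂_eq']
        rfl
      have h2 : ∑ γ ∈ P.support, ((P.coeff γ : L) : K) * ∏ j, y j ^ γ j =
          ((P.coeff 0 : L) : K) + ∑ γ ∈ P.support.erase 0, ((P.coeff γ : L) : K) * ∏ j, y j ^ γ j := by
        by_cases h0 : (0 : Fin m →₀ ℕ) ∈ P.support
        · rw [← Finset.add_sum_erase _ _ h0]
          simp
        · rw [Finset.erase_eq_of_notMem h0, MvPolynomial.notMem_support_iff.1 h0]
          simp
      have h3 : ((P.coeff 0 : L) : K) = MvPolynomial.aeval y P -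
          ∑ γ ∈ P.support.erase 0, ((P.coeff γ : L) : K) * ∏ j, y j ^ γ j := by
        rw [h1, h2]; ring
      rw [h3]
      have h4 : b - ∑ j, (0 : Fin m →₀ ℕ) j • d j = b := by simp
      rw [h4]
      refine Submodule.sub_mem _ hP (Submodule.sum_mem _ fun γ hγ => ?_)
      have h5 := hmon Finset.univ γ _ _ (hne γ (Finset.ne_of_mem_erase hγ))
      rw [mul_comm, sub_add_cancel] at h5
      exact h5
    · exact hne β hβ

end Expand

/-- The local structure: the homogeneous localisation is free over its intersection with `L`, with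
basis the monomials in elements `y` with exponents less than `p`. -/
theorem exists_expansion {k K ι : Type} [Field k] [Field K] [Algebra k K] [AddCommGroup ι]
    (p : ℕ) [Fact p.Prime] [CharP k p] {M : Fam k K ι} {q : Ideal M.alg}
    [q.IsPrime] {L : IntermediateField k K} (hL : ∀ z : K, z ^ p ∈ L) {m : ℕ}
    (hm : Module.finrank L K = p ^ m) {D : Fin m → Derivation k K K} {y : Fin m → K}
    {d : Fin m → ι} (hDL : ∀ l, ∀ z ∈ L, D l z = 0) (hDp : ∀ l, Pres M q (D l))
    (hy : ∀ l, y l ∈ (atP M q).s (d l))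
    (hdet : IsU (atP M q) (∑ l, d l) (Matrix.of fun l j => D l (y j)).det) :
    (∀ (b : ι), ∀ z ∈ (atP M q).s b, ∃ c : (Fin m → Fin p) → K,
      (∀ β, c β ∈ L ∧ c β ∈ (atP M q).s (b - ∑ l, (β l : ℕ) • d l)) ∧
      z = ∑ β, c β * ∏ l, y l ^ (β l : ℕ)) ∧
    ∀ c : (Fin m → Fin p) → K, (∀ β, c β ∈ L) → ∑ β, c β * ∏ l, y l ^ (β l : ℕ) = 0 →
      ∀ β, c β = 0 := by
  classical
  have _ := hL
  have hp0 : 0 < p := (Fact.out : p.Prime).pos
  -- the polynomial with coefficients `c`
  let toF : (Fin m → Fin p) → (Fin m →₀ ℕ) := fun β => Finsupp.equivFunOnFinite.symm fun l => β l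
  have htoF : ∀ β l, toF β l = β l := fun β l => rfl
  have htoF_inj : Function.Injective toF := by
    intro β γ h
    funext l
    exact Fin.ext (by rw [← htoF β l, ← htoF γ l, h])
  let pol : ((Fin m → Fin p) → L) → MvPolynomial (Fin m) L := fun c =>
    ∑ β, MvPolynomial.monomial (toF β) (c β)
  have hcoeff : ∀ c β, (pol c).coeff (toF β) = c β := by
    intro c β
    simp only [pol, MvPolynomial.coeff_sum, MvPolynomial.coeff_monomial]
    rw [Finset.sum_eq_single β]
    · rw [if_pos rfl]
    · intro γ _ hγ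
      rw [if_neg fun h => hγ (htoF_inj h)]
    · intro h; exact absurd (Finset.mem_univ _) h
  have hcoeff' : ∀ c γ, (pol c).coeff γ ≠ 0 → ∀ j, γ j < p := by
    intro c γ h j
    simp only [pol, MvPolynomial.coeff_sum, MvPolynomial.coeff_monomial] at h
    obtain ⟨β, _, hβ⟩ := Finset.exists_ne_zero_of_sum_ne_zero h
    have h1 : toF β = γ := by
      by_contra h1
      rw [if_neg h1] at hβ
      exact hβ rfl
    rw [← h1, htoF]
    exact (β j).2
  have hdeg : ∀ c γ, (pol c).coeff γ ≠ 0 → ∑ i, γ i ≤ m * p := by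
    intro c γ h
    calc ∑ i, γ i ≤ ∑ _i : Fin m, p := Finset.sum_le_sum fun i _ => (hcoeff' c γ h i).le
      _ = m * p := by simp
  have haeval : ∀ c, MvPolynomial.aeval y (pol c) = ∑ β, (c β : K) * ∏ l, y l ^ (β l : ℕ) := by
    intro c
    simp only [pol, map_sum, MvPolynomial.aeval_monomial]
    refine Finset.sum_congr rfl fun β _ => ?_
    congr 1
    rw [Finsupp.prod_fintype _ _ fun i => pow_zero _]
    rfl
  have hdet0 := hdet.1
  have hE : ∀ j i, Expand.dual D y j (y i) = if i = j then 1 else 0 :=
    fun j i => Expand.dual_y D y hdet0 i j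
  have hEL : ∀ j, ∀ z ∈ L, Expand.dual D y j z = 0 := fun j z hz => Expand.dual_L hDL j z hz
  -- independence
  have hind : ∀ c : (Fin m → Fin p) → L, ∑ β, (c β : K) * ∏ l, y l ^ (β l : ℕ) = 0 →
      ∀ β, c β = 0 := by
    intro c hc β
    have h := Expand.key p (E := Expand.dual D y) (y := y) (d := d) (L := L)
      (fun _ => (⊥ : Submodule k K)) hEL hE
      (fun j b z hz => by
        rw [Submodule.mem_bot] at hz ⊢
        rw [hz, map_zero])
      (fun j b z hz => by
        rw [Submodule.mem_bot] at hz ⊢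
        rw [hz, mul_zero])
      (m * p) 0 (pol c) (hdeg c) (hcoeff' c)
      (by rw [Submodule.mem_bot, haeval]; exact hc) (toF β)
    rw [Submodule.mem_bot, hcoeff] at h
    exact Subtype.ext (by simpa using h)
  have hli : LinearIndependent L fun β : Fin m → Fin p => ∏ l, y l ^ (β l : ℕ) := by
    rw [Fintype.linearIndependent_iff]
    intro g hg
    refine hind g ?_
    rw [← hg]
    exact Finset.sum_congr rfl fun β _ => rfl
  have hfin : FiniteDimensional L K := by
    refine Module.finite_of_finrank_pos ?_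
    rw [hm]
    exact pow_pos hp0 m
  have hspan := hli.span_eq_top_of_card_eq_finrank' (by rw [hm]; simp)
  have hex : ∀ z : K, ∃ c : (Fin m → Fin p) → L, z = ∑ β, (c β : K) * ∏ l, y l ^ (β l : ℕ) := by
    intro z
    have hz : z ∈ Submodule.span L (Set.range fun β : Fin m → Fin p => ∏ l, y l ^ (β l : ℕ)) := by
      rw [hspan]; trivial
    rw [Submodule.mem_span_range_iff_exists_fun] at hz
    obtain ⟨c, hc⟩ := hz
    exact ⟨c, by rw [← hc]; exact Finset.sum_congr rfl fun β _ => rfl⟩
  refine ⟨fun b z hz => ?_, fun c hc h β => ?_⟩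
  · obtain ⟨c, hc⟩ := hex z
    refine ⟨fun β => c β, fun β => ⟨(c β).2, ?_⟩, hc⟩
    have h := Expand.key p (E := Expand.dual D y) (y := y) (d := d) (L := L) (atP M q).s hEL hE
      (fun j b z hz => Expand.dual_mem (M := atP M q) (fun l => hDp l) hy hdet j b z hz)
      (fun j b z hz => by
        have h := (atP M q).mul' (hy j) hz
        rwa [add_comm] at h)
      (m * p) b (pol c) (hdeg c) (hcoeff' c) (by rw [haeval, ← hc]; exact hz) (toF β)
    rw [hcoeff] at h
    exact h
  · have h1 := hind (fun β => ⟨c β, hc β⟩) h β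
    exact congrArg Subtype.val h1

end Pool.Agent.MP_b525bf_ag_TS
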