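import Pool.Agent.Lib.MP_b525bf_ag_TS.Defs

/-!
# D3: purely inseparable hypersurfaces
-/

set_option autoImplicit false
set_option linter.unusedSectionVars false

namespace Pool.Agent.MP_b525bf_ag_TS

open Pool.Agent.MP_b525bf_ag Polynomial

namespace D3

open AlgebraicGeometry CategoryTheory

/-- The restriction of an isomorphism to a smaller open set. -/
theorem isIso_restrict_of_le {X Y : Scheme.{0}} (f : X ⟶ Y) {U V : Y.Opens} (h : IsIso (f ∣_ U))
    (hV : V ≤ U) : IsIso (f ∣_ V) := by
  have h1 : IsIso ((f ∣_ U) ∣_ (U.ι ⁻¹ᵁ V)) := inferInstance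
  have e : U.ι ''ᵁ (U.ι ⁻¹ᵁ V) = V := by
    rw [Scheme.Hom.image_preimage_eq_opensRange_inf, Scheme.Opens.opensRange_ι]
    exact inf_eq_right.mpr hV
  have h2 := (MorphismProperty.isomorphisms Scheme.{0}).arrow_mk_iso_iff
    (morphismRestrictRestrict f U (U.ι ⁻¹ᵁ V) ≪≫ morphismRestrictEq f e)
  rw [MorphismProperty.isomorphisms.iff, MorphismProperty.isomorphisms.iff] at h2
  exact h2.mp h1

end D3

open AlgebraicGeometry CategoryTheory in
/-- A resolution of a finite birational extension is a resolution. -/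
theorem hasResolution_of_finite_birational {k A A' : Type} [Field k] [CommRing A] [IsDomain A]
    [Algebra k A] [CommRing A'] [IsDomain A'] [Algebra k A'] [Algebra A A'] [IsScalarTower k A A']
    (hinj : Function.Injective (algebraMap A A')) [Module.Finite A A']
    (hfrac : ∃ c : A, c ≠ 0 ∧ ∀ z : A', ∃ w : A, algebraMap A A' w = algebraMap A A' c * z)
    (h : HasResolution k A') : HasResolution k A := by
  obtain ⟨Y, π, h1, h2, h3, U, hU, hi⟩ := h
  obtain ⟨c, hc, hfrac⟩ := hfrac
  set f : Spec (CommRingCat.of A') ⟶ Spec (CommRingCat.of A) :=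
    Spec.map (CommRingCat.ofHom (algebraMap A A')) with hf
  have hfin : IsFinite f := by
    rw [hf, IsFinite.SpecMap_iff]
    exact RingHom.finite_algebraMap.mpr inferInstance
  -- a basic open set
  obtain ⟨x, hx⟩ : (U : Set (Spec (CommRingCat.of A'))).Nonempty := hU.nonempty
  obtain ⟨_, ⟨a', rfl⟩, hxa, haU⟩ :=
    PrimeSpectrum.isTopologicalBasis_basic_opens.exists_subset_of_mem_open hx U.isOpen
  have ha' : a' ≠ 0 := by
    rintro rfl
    simp only [PrimeSpectrum.basicOpen_zero] at hxa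
    exact hxa
  obtain ⟨w, hw⟩ := hfrac a'
  have hc' : algebraMap A A' c ≠ 0 := fun h => hc (hinj (by rw [h, map_zero]))
  have hw0 : w ≠ 0 := by
    rintro rfl
    rw [map_zero] at hw
    exact mul_ne_zero hc' ha' hw.symm
  have hr : c * w ≠ 0 := mul_ne_zero hc hw0
  let W : (Spec (CommRingCat.of A)).Opens := PrimeSpectrum.basicOpen (c * w)
  have hfW : f ⁻¹ᵁ W ≤ U := by
    intro y hy
    apply haU
    have hy' : y ∈ PrimeSpectrum.basicOpen (algebraMap A A' (c * w)) := hy
    rw [map_mul, hw, ← mul_assoc] at hy'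
    exact PrimeSpectrum.basicOpen_mul_le_right _ _ hy'
  have hbij : Function.Bijective (Localization.awayMap (algebraMap A A') (c * w)) := by
    constructor
    · rw [Localization.awayMap_injective_iff]
      intro a ha
      exact ⟨0, by rw [pow_zero, one_mul]; exact hinj (by rw [ha, map_zero])⟩
    · rw [Localization.awayMap_surjective_iff]
      intro z
      obtain ⟨v, hv⟩ := hfrac z
      exact ⟨v * w, 1, by rw [map_mul, hv, pow_one, map_mul]; ring⟩
  have hiso : IsIso (f ∣_ W) := by
    have h4 := (MorphismProperty.isomorphisms Scheme.{0}).arrow_mk_iso_iff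
      (SpecMapRestrictBasicOpenIso (CommRingCat.ofHom (algebraMap A A')) (c * w))
    rw [MorphismProperty.isomorphisms.iff, MorphismProperty.isomorphisms.iff] at h4
    refine h4.mpr ?_
    have h5 : IsIso (CommRingCat.ofHom
        (Localization.awayMap (CommRingCat.ofHom (algebraMap A A')).hom (c * w))) := by
      rw [ConcreteCategory.isIso_iff_bijective]
      exact hbij
    infer_instance
  refine ⟨Y, π ≫ f, h1, inferInstance, ?_, W, ?_, ?_⟩
  · rw [Category.assoc, hf, ← Spec.map_comp, ← CommRingCat.ofHom_comp,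
      ← IsScalarTower.algebraMap_eq]
    exact h3
  · have hirr : IrreducibleSpace (PrimeSpectrum A) := inferInstance
    have hne : (PrimeSpectrum.basicOpen (c * w) : Set (PrimeSpectrum A)).Nonempty :=
      ⟨⟨⊥, Ideal.isPrime_bot⟩, fun h => hr ((Submodule.mem_bot A).mp h)⟩
    exact (PrimeSpectrum.basicOpen (c * w)).isOpen.dense hne
  · rw [morphismRestrict_comp]
    exact @IsIso.comp_isIso _ _ _ _ _ _ _ (D3.isIso_restrict_of_le π hi hfW) hiso

open AlgebraicGeometry CategoryTheory in
/-- Resolutions and semilinear isomorphisms. -/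
theorem hasResolution_of_ringEquiv {k A A' : Type} [Field k] [CommRing A] [Algebra k A]
    [CommRing A'] [Algebra k A'] (τ : k ≃+* k) (e : A ≃+* A')
    (he : ∀ c, e (algebraMap k A c) = algebraMap k A' (τ c)) (h : HasResolution k A) :
    HasResolution k A' := by
  obtain ⟨Y, π, h1, h2, h3, U, hU, hi⟩ := h
  let i : Spec (CommRingCat.of A) ⟶ Spec (CommRingCat.of A') :=
    Spec.map (e.symm.toCommRingCatIso).hom
  have hii : IsIso i := inferInstance
  have e1 : i ⁻¹ᵁ ((inv i) ⁻¹ᵁ U) = U := by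
    rw [← Scheme.Hom.comp_preimage, IsIso.hom_inv_id]; rfl
  refine ⟨Y, π ≫ i, h1, inferInstance, ?_, (inv i) ⁻¹ᵁ U, ?_, ?_⟩
  · have h4 : i ≫ Spec.map (CommRingCat.ofHom (algebraMap k A')) =
        Spec.map (CommRingCat.ofHom (algebraMap k A)) ≫ Spec.map (τ.symm.toCommRingCatIso).hom := by
      rw [← Spec.map_comp, ← Spec.map_comp]
      congr 1
      ext r
      change e.symm (algebraMap k A' r) = algebraMap k A (τ.symm r)
      rw [e.symm_apply_eq, he, τ.apply_symm_apply]
    rw [Category.assoc, h4, ← Category.assoc]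
    infer_instance
  · have h4 : ((inv i) ⁻¹ᵁ U : Set _) = (inv i).homeomorph ⁻¹' (U : Set _) := rfl
    rw [h4]
    exact hU.preimage (inv i).homeomorph.isOpenMap
  · rw [morphismRestrict_comp]
    have h5 : IsIso (π ∣_ i ⁻¹ᵁ ((inv i) ⁻¹ᵁ U)) := by rw [e1]; exact hi
    have h6 : IsIso (i ∣_ ((inv i) ⁻¹ᵁ U)) := inferInstance
    exact @IsIso.comp_isIso _ _ _ _ _ _ _ h5 h6

namespace D3

section Frob

variable (p : ℕ) [Fact p.Prime] {k : Type} [Field k] [CharP k p] {σ : Type}

/-- The homomorphism `∑ a i z ^ i ↦ ∑ (a i) ^ p f ^ i`. -/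
noncomputable def frob0 (f : MvPolynomial σ k) :
    AdjoinRoot (X ^ p - C f : Polynomial (MvPolynomial σ k)) →+* KK k σ :=
  AdjoinRoot.lift ((algebraMap (MvPolynomial σ k) (KK k σ)).comp (frobenius (MvPolynomial σ k) p))
    (algebraMap _ (KK k σ) f) (by
      rw [eval₂_sub, eval₂_pow, eval₂_X, eval₂_C, RingHom.comp_apply, frobenius_def, map_pow,
        sub_self])

theorem frob0_mk (f : MvPolynomial σ k) (q : Polynomial (MvPolynomial σ k)) :
    frob0 p f (AdjoinRoot.mk _ q) = q.eval₂ ((algebraMap (MvPolynomial σ k) (KK k σ)).comp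
      (frobenius (MvPolynomial σ k) p)) (algebraMap _ (KK k σ) f) :=
  AdjoinRoot.lift_mk _ _

theorem not_pow {f : MvPolynomial σ k} (hf : ∀ F : MvPolynomial σ k, f ≠ F ^ p) (b : KK k σ) :
    b ^ p ≠ algebraMap _ (KK k σ) f := by
  intro h
  have hp : 0 < p := (Fact.out : p.Prime).pos
  obtain ⟨y, hy⟩ := IsIntegrallyClosed.exists_algebraMap_eq_of_isIntegral_pow
    (R := MvPolynomial σ k) (K := KK k σ) (x := b) hp (by rw [h]; exact isIntegral_algebraMap)
  apply hf y
  apply IsFractionRing.injective (MvPolynomial σ k) (KK k σ)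
  rw [map_pow, hy, h]

theorem frob0_injective {f : MvPolynomial σ k} (hf : ∀ F : MvPolynomial σ k, f ≠ F ^ p) :
    Function.Injective (frob0 p f) := by
  have hp : p.Prime := Fact.out
  have : CharP (KK k σ) p :=
    charP_of_injective_algebraMap (IsFractionRing.injective (MvPolynomial σ k) (KK k σ)) p
  set F := algebraMap _ (KK k σ) f with hF
  rw [injective_iff_map_eq_zero]
  intro x
  induction x using AdjoinRoot.induction_on with | ih q => ?_
  intro hx
  rw [frob0_mk] at hx
  rw [AdjoinRoot.mk_eq_zero]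
  set ψ : Polynomial (KK k σ) →+* KK k σ := eval₂RingHom (frobenius (KK k σ) p) F with hψ
  have h1 : ψ (q.map (algebraMap _ (KK k σ))) = 0 := by
    rw [hψ, coe_eval₂RingHom, eval₂_map, ← hx]
    congr 1
    ext a <;> simp [frobenius_def]
  have hirr : Irreducible (X ^ p - C F : Polynomial (KK k σ)) :=
    X_pow_sub_C_irreducible_of_prime hp (not_pow p hf)
  have h2 : ψ (X ^ p - C F) = 0 := by
    rw [hψ, coe_eval₂RingHom, eval₂_sub, eval₂_pow, eval₂_X, eval₂_C, frobenius_def, sub_self]
  have hmax : (Ideal.span {(X ^ p - C F : Polynomial (KK k σ))}).IsMaximal :=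
    PrincipalIdealRing.isMaximal_of_irreducible hirr
  have hle : Ideal.span {(X ^ p - C F : Polynomial (KK k σ))} ≤ RingHom.ker ψ := by
    rw [Ideal.span_singleton_le_iff_mem, RingHom.mem_ker]
    exact h2
  have hker : Ideal.span {(X ^ p - C F : Polynomial (KK k σ))} = RingHom.ker ψ :=
    hmax.eq_of_le (RingHom.ker_ne_top ψ) hle
  have h3 : (X ^ p - C F : Polynomial (KK k σ)) ∣ q.map (algebraMap _ (KK k σ)) := by
    rw [← Ideal.mem_span_singleton, hker, RingHom.mem_ker]
    exact h1
  have h4 : (X ^ p - C F : Polynomial (KK k σ)) =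
      (X ^ p - C f : Polynomial (MvPolynomial σ k)).map (algebraMap _ (KK k σ)) := by
    rw [Polynomial.map_sub, Polynomial.map_pow, map_X, map_C]
  rw [h4, Polynomial.map_dvd_map _ (IsFractionRing.injective (MvPolynomial σ k) (KK k σ))
    (monic_X_pow_sub_C f hp.ne_zero)] at h3
  exact h3

/-- The `p`-th powers of polynomials and `f`. -/
def gens (f : MvPolynomial σ k) : Set (KK k σ) :=
  {z | ∃ a : MvPolynomial σ k, z = (algebraMap _ (KK k σ) a) ^ p} ∪ {algebraMap _ (KK k σ) f}

theorem frob0_mem (f : MvPolynomial σ k) (x : AdjoinRoot (X ^ p - C f :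
    Polynomial (MvPolynomial σ k))) : frob0 p f x ∈ Algebra.adjoin k (gens p f) := by
  induction x using AdjoinRoot.induction_on with | ih q => ?_
  rw [frob0_mk, eval₂_eq_sum_range]
  refine Subalgebra.sum_mem _ fun i _ => Subalgebra.mul_mem _ ?_ (Subalgebra.pow_mem _ ?_ _)
  · apply Algebra.subset_adjoin
    left
    exact ⟨q.coeff i, by rw [RingHom.comp_apply, frobenius_def, map_pow]⟩
  · apply Algebra.subset_adjoin
    right
    rfl

theorem adjoin_le_range [IsAlgClosed k] (f : MvPolynomial σ k) :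
    ∀ z ∈ Algebra.adjoin k (gens p f), ∃ x, frob0 p f x = z := by
  have : PerfectRing k p := PerfectField.toPerfectRing p
  let S : Subalgebra k (KK k σ) :=
    { (frob0 p f).range with
      algebraMap_mem' := by
        intro c
        obtain ⟨d, hd⟩ := (frobeniusEquiv k p).surjective c
        refine ⟨AdjoinRoot.of _ (MvPolynomial.C d), ?_⟩
        rw [← hd, frobeniusEquiv_apply, frobenius_def]
        have h1 : AdjoinRoot.of (X ^ p - C f) (MvPolynomial.C d) =
            AdjoinRoot.mk (X ^ p - C f) (C (MvPolynomial.C d)) := rfl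
        rw [h1, frob0_mk, eval₂_C, RingHom.comp_apply, frobenius_def, ← map_pow]
        exact (IsScalarTower.algebraMap_apply k (MvPolynomial σ k) (KK k σ) (d ^ p)).symm }
  have h1 : Algebra.adjoin k (gens p f) ≤ S := by
    rw [Algebra.adjoin_le_iff]
    rintro z (⟨a, rfl⟩ | rfl)
    · refine ⟨AdjoinRoot.mk _ (C a), ?_⟩
      rw [frob0_mk, eval₂_C, RingHom.comp_apply, frobenius_def, map_pow]
    · refine ⟨AdjoinRoot.mk _ X, ?_⟩
      rw [frob0_mk, eval₂_X]
  intro z hz
  exact h1 hz

/-- The hypersurface is isomorphic to the algebra generated by the `p`-th powers and `f`. -/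
noncomputable def frobE [IsAlgClosed k] {f : MvPolynomial σ k}
    (hf : ∀ F : MvPolynomial σ k, f ≠ F ^ p) :
    AdjoinRoot (X ^ p - C f : Polynomial (MvPolynomial σ k)) ≃+* Algebra.adjoin k (gens p f) :=
  RingEquiv.ofBijective ((frob0 p f).codRestrict (Algebra.adjoin k (gens p f)) (frob0_mem p f))
    ⟨fun x y h => frob0_injective p hf (congrArg Subtype.val h), fun z => by
      obtain ⟨x, hx⟩ := adjoin_le_range p f z z.2
      exact ⟨x, Subtype.ext hx⟩⟩

/-- The algebra generated by the `p`-th powers and `f`. -/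
noncomputable abbrev A1 (f : MvPolynomial σ k) : Subalgebra k (KK k σ) := Algebra.adjoin k (gens p f)

/-- The intersection. -/
noncomputable abbrev A2 (f : MvPolynomial σ k) : Subalgebra k (KK k σ) :=
  BB k σ ⊓ (Lf (k := k) p (algebraMap _ (KK k σ) f)).toSubalgebra

theorem A1_le_BB (f : MvPolynomial σ k) : A1 p f ≤ BB k σ := by
  rw [A1, Algebra.adjoin_le_iff]
  rintro z (⟨a, rfl⟩ | rfl)
  · exact (BB k σ).pow_mem ⟨a, rfl⟩ p
  · exact ⟨f, rfl⟩

theorem A1_le_A2 (f : MvPolynomial σ k) : A1 p f ≤ A2 p f := by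
  refine le_inf (A1_le_BB p f) ?_
  rw [A1, Algebra.adjoin_le_iff]
  rintro z (⟨a, rfl⟩ | rfl)
  · exact IntermediateField.subset_adjoin k _ (Or.inl ⟨_, rfl⟩)
  · exact IntermediateField.subset_adjoin k _ (Or.inr rfl)

/-- The elements of `K ^ p (f)` are fractions. -/
theorem exists_frac (f : MvPolynomial σ k) {z : KK k σ}
    (hz : z ∈ Lf (k := k) p (algebraMap _ (KK k σ) f)) :
    ∃ v ∈ A1 p f, v ≠ 0 ∧ v * z ∈ A1 p f := by
  have h1 : Lf (k := k) p (algebraMap _ (KK k σ) f) ≤ IntermediateField.adjoin k (gens p f) := by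
    rw [Lf, IntermediateField.adjoin_le_iff]
    rintro z (⟨w, rfl⟩ | rfl)
    · obtain ⟨a, b, -, rfl⟩ := IsFractionRing.div_surjective (A := MvPolynomial σ k) w
      rw [div_pow]
      exact div_mem (IntermediateField.subset_adjoin k _ (Or.inl ⟨a, rfl⟩))
        (IntermediateField.subset_adjoin k _ (Or.inl ⟨b, rfl⟩))
    · exact IntermediateField.subset_adjoin k _ (Or.inr rfl)
  obtain ⟨r, hr, s, hs, h2⟩ := IntermediateField.mem_adjoin_iff_div.mp (h1 hz)
  by_cases hs0 : s = 0
  · refine ⟨1, (A1 p f).one_mem, one_ne_zero, ?_⟩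
    rw [h2, hs0, div_zero, mul_zero]
    exact (A1 p f).zero_mem
  · refine ⟨s, hs, hs0, ?_⟩
    rw [h2, mul_div_cancel₀ _ hs0]
    exact hr

theorem main_finite [Finite σ] (f : MvPolynomial σ k) :
    letI : Algebra (A1 p f) (A2 p f) := (Subalgebra.inclusion (A1_le_A2 p f)).toRingHom.toAlgebra
    Module.Finite (A1 p f) (A2 p f) := by
  let i0 : Algebra (A1 p f) (A2 p f) :=
    (Subalgebra.inclusion (A1_le_A2 p f)).toRingHom.toAlgebra
  let i1 : Algebra (A1 p f) (BB k σ) :=
    (Subalgebra.inclusion (A1_le_BB p f)).toRingHom.toAlgebra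
  have i2 : IsScalarTower k (A1 p f) (BB k σ) := IsScalarTower.of_algebraMap_eq' rfl
  have h1 : Algebra.FiniteType k (BB k σ) :=
    (inferInstance : Algebra.FiniteType k (MvPolynomial σ k)).equiv
      (AlgEquiv.ofInjective (Algebra.algHom k (MvPolynomial σ k) (KK k σ))
        (IsFractionRing.injective (MvPolynomial σ k) (KK k σ)))
  have h2 : Algebra.FiniteType (A1 p f) (BB k σ) := .of_restrictScalars_finiteType k _ _
  have h3 : Algebra.IsIntegral (A1 p f) (BB k σ) := by
    refine ⟨fun b => IsIntegral.of_pow (Fact.out : p.Prime).pos ?_⟩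
    obtain ⟨b, a, rfl⟩ := b
    have h4 : (Algebra.algHom k (MvPolynomial σ k) (KK k σ) a) ^ p ∈ A1 p f :=
      Algebra.subset_adjoin (Or.inl ⟨a, rfl⟩)
    exact isIntegral_algebraMap (R := A1 p f) (x := ⟨_, h4⟩)
  have h5 : Module.Finite (A1 p f) (BB k σ) := Algebra.IsIntegral.finite
  have h6 : (⊤ : Subalgebra k (A1 p f)).FG :=
    fg_of_fg_of_fg k (A1 p f) (BB k σ) h1.out h5.fg_top
      (Subalgebra.inclusion_injective (A1_le_BB p f))
  have h7 : Algebra.FiniteType k (A1 p f) := ⟨h6⟩
  have h8 : IsNoetherianRing (A1 p f) := Algebra.FiniteType.isNoetherianRing k _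
  have h9 : IsNoetherian (A1 p f) (BB k σ) :=
    isNoetherian_of_isNoetherianRing_of_finite (A1 p f) (BB k σ)
  let ι : A2 p f →ₗ[A1 p f] BB k σ :=
    { toFun := fun z => ⟨z, z.2.1⟩
      map_add' := fun _ _ => rfl
      map_smul' := fun _ _ => rfl }
  exact Module.Finite.of_injective ι fun x y h =>
    Subtype.ext (congrArg (fun z : BB k σ => (z : KK k σ)) h)

open Classical in
theorem main_frac [Finite σ] (f : MvPolynomial σ k) :
    ∃ c : A1 p f, c ≠ 0 ∧ ∀ z : A2 p f, (c : KK k σ) * z ∈ A1 p f := by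
  let i0 : Algebra (A1 p f) (A2 p f) :=
    (Subalgebra.inclusion (A1_le_A2 p f)).toRingHom.toAlgebra
  have h0 : Module.Finite (A1 p f) (A2 p f) := main_finite p f
  obtain ⟨S, hS⟩ := h0.fg_top
  choose v hv hv0 hvz using fun z : A2 p f => exists_frac p f z.2.2
  refine ⟨⟨∏ z ∈ S, v z, (A1 p f).prod_mem fun z _ => hv z⟩, ?_, ?_⟩
  · intro h
    have h1 := congrArg Subtype.val h
    exact Finset.prod_ne_zero_iff.mpr (fun z _ => hv0 z) h1
  · intro z
    have hz : z ∈ Submodule.span (A1 p f) (S : Set (A2 p f)) := by rw [hS]; trivial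
    change (∏ z ∈ S, v z) * (z : KK k σ) ∈ A1 p f
    induction hz using Submodule.span_induction with
    | mem z hz =>
      have hz' : z ∈ S := hz
      rw [← Finset.prod_erase_mul S v hz', mul_assoc]
      exact (A1 p f).mul_mem ((A1 p f).prod_mem fun z _ => hv z) (hvz z)
    | zero =>
      change _ * (0 : KK k σ) ∈ _
      rw [mul_zero]
      exact (A1 p f).zero_mem
    | add x y _ _ hx hy =>
      change _ * ((x : KK k σ) + y) ∈ _
      rw [mul_add]
      exact (A1 p f).add_mem hx hy
    | smul a x _ hx =>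
      change _ * ((a : KK k σ) * x) ∈ _
      rw [mul_left_comm]
      exact (A1 p f).mul_mem a.2 hx

end Frob

end D3

/-- The intersection with `K ^ p (f)` is the normalisation of the hypersurface `z ^ p = f`. -/
theorem hasResolution_hypersurface (p : ℕ) [Fact p.Prime] {k : Type} [Field k] [IsAlgClosed k]
    [CharP k p] {σ : Type} [Finite σ] (f : MvPolynomial σ k)
    (hf : ∀ F : MvPolynomial σ k, f ≠ F ^ p)
    (h : HasResolution k (BB k σ ⊓
      (Lf (k := k) p (algebraMap _ (KK k σ) f)).toSubalgebra : Subalgebra k (KK k σ))) :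
    HasResolution k (AdjoinRoot (X ^ p - C f : Polynomial (MvPolynomial σ k))) := by
  have : PerfectRing k p := PerfectField.toPerfectRing p
  have h1 : HasResolution k (D3.A1 p f) := by
    let i0 : Algebra (D3.A1 p f) (D3.A2 p f) :=
      (Subalgebra.inclusion (D3.A1_le_A2 p f)).toRingHom.toAlgebra
    have i1 : IsScalarTower k (D3.A1 p f) (D3.A2 p f) := IsScalarTower.of_algebraMap_eq' rfl
    have i2 : Module.Finite (D3.A1 p f) (D3.A2 p f) := D3.main_finite p f
    obtain ⟨c, hc, hcz⟩ := D3.main_frac p f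
    exact hasResolution_of_finite_birational (A' := D3.A2 p f)
      (Subalgebra.inclusion_injective (D3.A1_le_A2 p f))
      ⟨c, hc, fun z => ⟨⟨_, hcz z⟩, rfl⟩⟩ h
  refine hasResolution_of_ringEquiv (frobeniusEquiv k p).symm (D3.frobE p hf).symm ?_ h1
  intro c
  rw [RingEquiv.symm_apply_eq]
  apply Subtype.ext
  have h2 : algebraMap k (AdjoinRoot (X ^ p - C f : Polynomial (MvPolynomial σ k)))
      ((frobeniusEquiv k p).symm c) =
      AdjoinRoot.mk _ (C (MvPolynomial.C ((frobeniusEquiv k p).symm c))) := rfl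
  rw [h2]
  change algebraMap k (KK k σ) c = D3.frob0 p f _
  rw [D3.frob0_mk, eval₂_C, RingHom.comp_apply, frobenius_def, ← map_pow]
  have h3 : ((frobeniusEquiv k p).symm c) ^ p = c := by
    rw [← frobenius_def, ← frobeniusEquiv_apply, RingEquiv.apply_symm_apply]
  rw [h3]
  exact IsScalarTower.algebraMap_apply k (MvPolynomial σ k) (KK k σ) c

end Pool.Agent.MP_b525bf_ag_TS
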