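import Pool.Agent.Lib.MP_b525bf_ag_TS.Pts
import Pool.Agent.Lib.MP_b525bf_ag_h90.Extend

/-!
# B5: the initial stage
-/

set_option autoImplicit false

namespace Pool.Agent.MP_b525bf_ag_TS

open MvPolynomial

variable {k : Type} [Field k]

theorem BB_fg (σ : Type) [Finite σ] : (BB k σ).FG := by
  have h : (⊤ : Subalgebra k (MvPolynomial σ k)).FG := Algebra.FiniteType.out
  have := h.map (Algebra.algHom k (MvPolynomial σ k) (KK k σ))
  rwa [Algebra.map_top] at this

/-- The derivation `∂ᵢ` of the field of rational functions. -/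
theorem exists_partial {σ : Type} [Finite σ] (i : σ) : ∃ D : Derivation k (KK k σ) (KK k σ),
    ∀ g : MvPolynomial σ k, D (algebraMap _ (KK k σ) g) = algebraMap _ (KK k σ) (pderiv i g) :=
  Pool.Agent.MP_b525bf_ag.H90.exists_extend (pderiv i) (nonZeroDivisors (MvPolynomial σ k))
    (KK k σ)

namespace B5

/-- derivations of the field of rational functions are determined by their values on the
variables -/
theorem der_ext {σ : Type} {D D' : Derivation k (KK k σ) (KK k σ)}
    (h : ∀ i, D (algebraMap (MvPolynomial σ k) (KK k σ) (X i)) =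
      D' (algebraMap (MvPolynomial σ k) (KK k σ) (X i))) : D = D' := by
  have h1 : ∀ g : MvPolynomial σ k, D (algebraMap _ (KK k σ) g) = D' (algebraMap _ (KK k σ) g) := by
    intro g
    induction g using MvPolynomial.induction_on with
    | C a =>
      have e : algebraMap (MvPolynomial σ k) (KK k σ) (C a) = algebraMap k (KK k σ) a := by
        rw [← MvPolynomial.algebraMap_eq, ← IsScalarTower.algebraMap_apply]
      rw [e, D.map_algebraMap, D'.map_algebraMap]
    | add f g hf hg => rw [map_add, map_add, map_add, hf, hg]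
    | mul_X f i hf => rw [map_mul, D.leibniz, D'.leibniz, hf, h i]
  refine Derivation.ext fun z => ?_
  obtain ⟨f, g, hg, rfl⟩ := IsFractionRing.div_surjective (MvPolynomial σ k) z
  rw [D.leibniz_div, D'.leibniz_div, h1, h1]

variable (χ : BB k (Fin 2) →ₐ[k] k)

/-- evaluation at the point -/
noncomputable def ev : MvPolynomial (Fin 2) k →ₐ[k] k :=
  χ.comp (Algebra.algHom k (MvPolynomial (Fin 2) k) (KK k (Fin 2))).rangeRestrict

theorem ev_apply (g : MvPolynomial (Fin 2) k) (h : algebraMap _ (KK k (Fin 2)) g ∈ BB k (Fin 2)) :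
    χ ⟨algebraMap _ (KK k (Fin 2)) g, h⟩ = ev χ g := rfl

theorem mem_BB (g : MvPolynomial (Fin 2) k) :
    algebraMap _ (KK k (Fin 2)) g ∈ BB k (Fin 2) := ⟨g, rfl⟩

theorem mem_ptLoc {z : KK k (Fin 2)} : z ∈ ptLoc (BB k (Fin 2)) χ ↔
    ∃ f g : MvPolynomial (Fin 2) k, ev χ g ≠ 0 ∧
      z * algebraMap _ (KK k (Fin 2)) g = algebraMap _ (KK k (Fin 2)) f := by
  constructor
  · rintro ⟨⟨_, f, rfl⟩, ⟨_, g, rfl⟩, h1, h2⟩
    exact ⟨f, g, h1, h2⟩
  · rintro ⟨f, g, h1, h2⟩
    exact ⟨⟨_, mem_BB f⟩, ⟨_, mem_BB g⟩, h1, h2⟩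

theorem poly_mem (f : MvPolynomial (Fin 2) k) :
    algebraMap _ (KK k (Fin 2)) f ∈ ptLoc (BB k (Fin 2)) χ :=
  (mem_ptLoc χ).2 ⟨f, 1, by rw [map_one]; exact one_ne_zero, by rw [map_one, mul_one]⟩

theorem am_ne {g : MvPolynomial (Fin 2) k} (h : ev χ g ≠ 0) :
    algebraMap (MvPolynomial (Fin 2) k) (KK k (Fin 2)) g ≠ 0 := by
  intro h0
  apply h
  have : g = 0 := IsFractionRing.injective (MvPolynomial (Fin 2) k) (KK k (Fin 2))
    (h0.trans (map_zero _).symm)
  rw [this, map_zero]

theorem unit_mem {g : MvPolynomial (Fin 2) k} (h : ev χ g ≠ 0) :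
    (algebraMap (MvPolynomial (Fin 2) k) (KK k (Fin 2)) g)⁻¹ ∈ ptLoc (BB k (Fin 2)) χ :=
  (mem_ptLoc χ).2 ⟨1, g, h, by rw [map_one, inv_mul_cancel₀ (am_ne χ h)]⟩

theorem ev_C (c : k) : ev χ (C c) = c := by
  rw [← MvPolynomial.algebraMap_eq, AlgHom.commutes]
  rfl

/-- polynomials which vanish at the point -/
theorem exists_of_ev_zero {f : MvPolynomial (Fin 2) k} (hf : ev χ f = 0) :
    ∃ u v : MvPolynomial (Fin 2) k,
      f = (X 0 - C (ev χ (X 0))) * u + (X 1 - C (ev χ (X 1))) * v := by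
  set I : Ideal (MvPolynomial (Fin 2) k) :=
    Ideal.span {X 0 - C (ev χ (X 0)), X 1 - C (ev χ (X 1))} with hI
  have h1 : Ideal.Quotient.mkₐ k I = (Algebra.ofId k _).comp (ev χ) := by
    refine MvPolynomial.algHom_ext fun i => ?_
    have h2 : X i - C (ev χ (X i)) ∈ I := by
      fin_cases i
      · exact Ideal.subset_span (Or.inl rfl)
      · exact Ideal.subset_span (Or.inr rfl)
    have h3 : Ideal.Quotient.mk I (X i) = Ideal.Quotient.mk I (C (ev χ (X i))) :=
      Ideal.Quotient.eq.2 h2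
    change Ideal.Quotient.mk I (X i) = algebraMap k _ (ev χ (X i))
    rw [h3]
    rfl
  have h2 : f ∈ I := by
    rw [← Ideal.Quotient.eq_zero_iff_mem]
    have := DFunLike.congr_fun h1 f
    change Ideal.Quotient.mk I f = algebraMap k _ (ev χ f) at this
    rw [this, hf, map_zero]
  rw [hI, Ideal.mem_span_pair] at h2
  obtain ⟨u, v, h3⟩ := h2
  exact ⟨u, v, by rw [← h3]; ring⟩

variable {χ}

/-- the point of the plane is a regular point -/
theorem reg {Dx Dy : Derivation k (KK k (Fin 2)) (KK k (Fin 2))}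
    (hDx : ∀ g : MvPolynomial (Fin 2) k,
      Dx (algebraMap _ (KK k (Fin 2)) g) = algebraMap _ (KK k (Fin 2)) (pderiv 0 g))
    (hDy : ∀ g : MvPolynomial (Fin 2) k,
      Dy (algebraMap _ (KK k (Fin 2)) g) = algebraMap _ (KK k (Fin 2)) (pderiv 1 g)) :
    Reg (ptLoc (BB k (Fin 2)) χ)
      (algebraMap (MvPolynomial (Fin 2) k) (KK k (Fin 2)) (X 0 - C (ev χ (X 0))))
      (algebraMap (MvPolynomial (Fin 2) k) (KK k (Fin 2)) (X 1 - C (ev χ (X 1)))) Dx Dy := by
  have hpr : ∀ {D : Derivation k (KK k (Fin 2)) (KK k (Fin 2))} {i : Fin 2},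
      (∀ g : MvPolynomial (Fin 2) k,
        D (algebraMap _ (KK k (Fin 2)) g) = algebraMap _ (KK k (Fin 2)) (pderiv i g)) →
      ∀ z ∈ ptLoc (BB k (Fin 2)) χ, D z ∈ ptLoc (BB k (Fin 2)) χ := by
    intro D i hD z hz
    obtain ⟨f, g, h1, h2⟩ := (mem_ptLoc χ).1 hz
    have h3 := congrArg D h2
    rw [D.leibniz, hD, hD, smul_eq_mul, smul_eq_mul] at h3
    refine (mem_ptLoc χ).2 ⟨pderiv i f * g - f * pderiv i g, g * g, ?_, ?_⟩
    · rw [map_mul]; exact mul_ne_zero h1 h1
    · rw [map_mul, map_sub, map_mul, map_mul, ← h3, ← h2]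
      ring
  have hdec : ∀ z ∈ ptLoc (BB k (Fin 2)) χ, ∃ c : k, (∃ u ∈ ptLoc (BB k (Fin 2)) χ,
      ∃ v ∈ ptLoc (BB k (Fin 2)) χ, z = algebraMap k (KK k (Fin 2)) c +
        algebraMap (MvPolynomial (Fin 2) k) (KK k (Fin 2)) (X 0 - C (ev χ (X 0))) * u +
        algebraMap (MvPolynomial (Fin 2) k) (KK k (Fin 2)) (X 1 - C (ev χ (X 1))) * v) ∧
      (c ≠ 0 → z⁻¹ ∈ ptLoc (BB k (Fin 2)) χ) := by
    intro z hz
    obtain ⟨f, g, h1, h2⟩ := (mem_ptLoc χ).1 hz
    set c : k := ev χ f / ev χ g with hc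
    have h3 : ev χ (f - C c * g) = 0 := by
      rw [map_sub, map_mul, ev_C, hc, div_mul_cancel₀ _ h1, sub_self]
    obtain ⟨u, v, h4⟩ := exists_of_ev_zero χ h3
    have hg := am_ne χ h1
    have hCc : algebraMap (MvPolynomial (Fin 2) k) (KK k (Fin 2)) (C c) =
        algebraMap k (KK k (Fin 2)) c := by
      rw [← MvPolynomial.algebraMap_eq, ← IsScalarTower.algebraMap_apply]
    refine ⟨c, ⟨algebraMap _ _ u * (algebraMap _ _ g)⁻¹,
      Subalgebra.mul_mem _ (poly_mem χ u) (unit_mem χ h1),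
      algebraMap _ _ v * (algebraMap _ _ g)⁻¹,
      Subalgebra.mul_mem _ (poly_mem χ v) (unit_mem χ h1), ?_⟩, ?_⟩
    · have h5 := congrArg (algebraMap (MvPolynomial (Fin 2) k) (KK k (Fin 2))) h4
      rw [map_sub, map_mul, ← h2, hCc, map_add, map_mul, map_mul] at h5
      field_simp
      linear_combination h5
    · intro hc0
      have hf : ev χ f ≠ 0 := by
        intro h0
        rw [hc, h0, zero_div] at hc0
        exact hc0 rfl
      have hz : z = algebraMap _ _ f * (algebraMap _ _ g)⁻¹ := by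
        rw [← h2, mul_assoc, mul_inv_cancel₀ hg, mul_one]
      rw [hz, mul_inv, inv_inv]
      exact Subalgebra.mul_mem _ (unit_mem χ hf) (poly_mem χ g)
  refine
    { hx := poly_mem χ _
      hy := poly_mem χ _
      xx := ?_
      xy := ?_
      yx := ?_
      yy := ?_
      Dx_mem := hpr hDx
      Dy_mem := hpr hDy
      comm := ?_
      basis := ?_
      dec := ?_
      inv := ?_
      one := ?_
      et := ?_ }
  · rw [hDx]; simp
  · rw [hDx]; simp
  · rw [hDy]; simp
  · rw [hDy]; simp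
  · intro z
    have h1 : ⁅Dx, Dy⁆ = 0 := by
      refine der_ext fun i => ?_
      rw [Derivation.commutator_apply, hDx, hDy, hDx, hDy, Derivation.zero_apply]
      fin_cases i <;> simp
    have h2 := DFunLike.congr_fun h1 z
    rw [Derivation.commutator_apply, Derivation.zero_apply, sub_eq_zero] at h2
    exact h2
  · intro D
    refine der_ext fun i => ?_
    rw [Derivation.add_apply, Derivation.smul_apply, Derivation.smul_apply, hDx, hDy, map_sub,
      map_sub]
    have hC : ∀ c : k, D (algebraMap (MvPolynomial (Fin 2) k) (KK k (Fin 2)) (C c)) = 0 := by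
      intro c
      rw [← MvPolynomial.algebraMap_eq, ← IsScalarTower.algebraMap_apply, D.map_algebraMap]
    rw [map_sub, map_sub, hC, hC, sub_zero, sub_zero]
    fin_cases i <;> simp
  · intro z hz
    obtain ⟨c, ⟨u, hu, v, hv, h⟩, -⟩ := hdec z hz
    exact ⟨c, u, hu, v, hv, h⟩
  · intro z hz hnot
    obtain ⟨c, ⟨u, hu, v, hv, h⟩, hinv⟩ := hdec z hz
    apply hinv
    intro hc0
    apply hnot u hu v hv
    rw [h, hc0, map_zero, zero_add]
  · intro u hu v hv h
    obtain ⟨f, g, h1, h2⟩ := (mem_ptLoc χ).1 hu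
    obtain ⟨f', g', h1', h2'⟩ := (mem_ptLoc χ).1 hv
    have h3 : g * g' = (X 0 - C (ev χ (X 0))) * f * g' + (X 1 - C (ev χ (X 1))) * f' * g := by
      apply IsFractionRing.injective (MvPolynomial (Fin 2) k) (KK k (Fin 2))
      rw [map_add, map_mul, map_mul, map_mul, map_mul, map_mul, ← h2, ← h2']
      linear_combination (algebraMap (MvPolynomial (Fin 2) k) (KK k (Fin 2)) g *
        algebraMap (MvPolynomial (Fin 2) k) (KK k (Fin 2)) g') * h
    have h4 := congrArg (ev χ) h3
    rw [map_add, map_mul, map_mul, map_mul, map_mul, map_mul, map_sub, map_sub, ev_C, ev_C,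
      sub_self, sub_self] at h4
    simp only [zero_mul, add_zero] at h4
    exact mul_ne_zero h1 h1' h4
  · refine ⟨BB k (Fin 2), χ, mem_BB _, mem_BB _, rfl, ?_, ?_, ?_⟩
    · rw [ev_apply, map_sub, ev_C, sub_self]
    · rw [ev_apply, map_sub, ev_C, sub_self]
    · apply RingHom.Etale.of_bijective
      set ι : MvPolynomial (Fin 2) k →ₐ[k] BB k (Fin 2) :=
        (Algebra.algHom k (MvPolynomial (Fin 2) k) (KK k (Fin 2))).rangeRestrict with hι
      have hcomp : ι.comp
          (MvPolynomial.aeval ![X 0 - C (ev χ (X 0)), X 1 - C (ev χ (X 1))]) =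
          (MvPolynomial.aeval ![(⟨_, mem_BB (X 0 - C (ev χ (X 0)))⟩ : BB k (Fin 2)),
            ⟨_, mem_BB (X 1 - C (ev χ (X 1)))⟩] :
            MvPolynomial (Fin 2) k →ₐ[k] BB k (Fin 2)) := by
        refine MvPolynomial.algHom_ext fun i => ?_
        rw [AlgHom.comp_apply, aeval_X, aeval_X]
        fin_cases i <;> rfl
      rw [← hcomp]
      have hb1 : Function.Bijective ι := by
        refine ⟨?_, AlgHom.rangeRestrict_surjective _⟩
        intro f g h
        exact IsFractionRing.injective (MvPolynomial (Fin 2) k) (KK k (Fin 2))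
          (congrArg Subtype.val h)
      have hb2 : Function.Bijective (MvPolynomial.aeval
          ![X 0 - C (ev χ (X 0)), X 1 - C (ev χ (X 1))] :
            MvPolynomial (Fin 2) k →ₐ[k] MvPolynomial (Fin 2) k) := by
        set T : MvPolynomial (Fin 2) k →ₐ[k] MvPolynomial (Fin 2) k := MvPolynomial.aeval
          ![X 0 - C (ev χ (X 0)), X 1 - C (ev χ (X 1))] with hT
        set T' : MvPolynomial (Fin 2) k →ₐ[k] MvPolynomial (Fin 2) k := MvPolynomial.aeval
          ![X 0 + C (ev χ (X 0)), X 1 + C (ev χ (X 1))] with hT'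
        have hC : ∀ (S : MvPolynomial (Fin 2) k →ₐ[k] MvPolynomial (Fin 2) k) (c : k),
            S (C c) = C c := fun S c => by
          rw [← MvPolynomial.algebraMap_eq, AlgHom.commutes]
        have h1 : T.comp T' = AlgHom.id k _ := by
          refine MvPolynomial.algHom_ext fun i => ?_
          rw [AlgHom.comp_apply, hT', aeval_X]
          fin_cases i
          · show T (X 0 + C (ev χ (X 0))) = X 0
            rw [map_add, hC, hT, aeval_X]
            show X 0 - C (ev χ (X 0)) + C (ev χ (X 0)) = X 0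
            ring
          · show T (X 1 + C (ev χ (X 1))) = X 1
            rw [map_add, hC, hT, aeval_X]
            show X 1 - C (ev χ (X 1)) + C (ev χ (X 1)) = X 1
            ring
        have h2 : T'.comp T = AlgHom.id k _ := by
          refine MvPolynomial.algHom_ext fun i => ?_
          rw [AlgHom.comp_apply, hT, aeval_X]
          fin_cases i
          · show T' (X 0 - C (ev χ (X 0))) = X 0
            rw [map_sub, hC, hT', aeval_X]
            show X 0 + C (ev χ (X 0)) - C (ev χ (X 0)) = X 0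
            ring
          · show T' (X 1 - C (ev χ (X 1))) = X 1
            rw [map_sub, hC, hT', aeval_X]
            show X 1 + C (ev χ (X 1)) - C (ev χ (X 1)) = X 1
            ring
        exact ⟨Function.LeftInverse.injective (g := T') fun f => DFunLike.congr_fun h2 f,
          Function.RightInverse.surjective (g := T') fun f => DFunLike.congr_fun h1 f⟩
      exact hb1.comp hb2

/-- the points of the plane -/
theorem pt_cases {J : Empty → Ideal (BB k (Fin 2))} {R : Subalgebra k (KK k (Fin 2))}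
    (h : Pt (BB k (Fin 2)) J R) : ∃ χ : BB k (Fin 2) →ₐ[k] k, R = ptLoc (BB k (Fin 2)) χ := by
  obtain ⟨f, -, χ, hR⟩ := h
  have hC : chartF (BB k (Fin 2)) J f = BB k (Fin 2) := by
    unfold chartF
    have : {z : KK k (Fin 2) | ∃ i, ∃ w : BB k (Fin 2), w ∈ J i ∧ z = w / f i} = ∅ := by
      ext z
      constructor
      · rintro ⟨i, -⟩
        exact i.elim
      · intro h
        exact h.elim
    rw [this, Set.union_empty, Algebra.adjoin_eq]
  have key : ∀ C : Subalgebra k (KK k (Fin 2)), C = BB k (Fin 2) → ∀ χ : C →ₐ[k] k,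
      ∃ χ' : BB k (Fin 2) →ₐ[k] k, ptLoc C χ = ptLoc (BB k (Fin 2)) χ' := by
    rintro C rfl χ
    exact ⟨χ, rfl⟩
  obtain ⟨χ', h'⟩ := key _ hC χ
  exact ⟨χ', hR.trans h'⟩

theorem ptNc (J : Empty → Ideal (BB k (Fin 2))) (e : Empty → Empty → ℤ)
    (V : Empty → Subalgebra k (KK k (Fin 2))) {R : Subalgebra k (KK k (Fin 2))}
    {x y : KK k (Fin 2)} {Dx Dy : Derivation k (KK k (Fin 2)) (KK k (Fin 2))}
    (h : Reg R x y Dx Dy) :
    PtNc (BB k (Fin 2)) J e V R (fun i => i.elim) x y Dx Dy false false (fun i => i.elim) where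
  gen := ⟨fun i => i.elim, fun i => i.elim⟩
  reg := h
  b0 j := j.elim
  bx j := j.elim
  by' j := j.elim
  s_iff := ⟨fun h => absurd h (by decide), fun ⟨j, _⟩ => j.elim⟩
  t_iff := ⟨fun h => absurd h (by decide), fun ⟨j, _⟩ => j.elim⟩
  inj j := j.elim
  val j := j.elim

/-- a finite algebra is closed under the inverses of its elements -/
theorem surj_of_units {P S : Type} [CommRing P] [Algebra k P] [CommRing S] [Algebra k S]
    (hP : FiniteDimensional k P) (L : P →ₐ[k] S)
    (h : ∀ z : S, ∃ a b : P, ∃ u : S, L b * u = 1 ∧ L b * z = L a) : Function.Surjective L := by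
  have hW : FiniteDimensional k L.range :=
    Module.Finite.of_surjective L.rangeRestrict.toLinearMap L.rangeRestrict_surjective
  intro z
  obtain ⟨a, b, u, hu, hz⟩ := h z
  let w : L.range := ⟨L b, b, rfl⟩
  let w' : L.range := ⟨L a, a, rfl⟩
  have hinj : Function.Injective (LinearMap.mulLeft k w) := by
    rw [← LinearMap.ker_eq_bot, LinearMap.ker_eq_bot']
    intro c hc
    have h3 : L b * (c : S) = 0 := congrArg Subtype.val hc
    apply Subtype.ext
    calc (c : S) = u * (L b * c) := by rw [← mul_assoc, mul_comm u, hu, one_mul]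
      _ = 0 := by rw [h3, mul_zero]
  obtain ⟨c, hc⟩ := (LinearMap.injective_iff_surjective.1 hinj) w'
  have h3 : L b * (c : S) = L a := congrArg Subtype.val hc
  obtain ⟨d, hd⟩ := c.2
  refine ⟨d, ?_⟩
  change L d = _ at hd
  rw [hd]
  calc (c : S) = u * (L b * c) := by rw [← mul_assoc, mul_comm u, hu, one_mul]
    _ = u * (L b * z) := by rw [h3, hz]
    _ = z := by rw [← mul_assoc, mul_comm u, hu, one_mul]

/-- quotients of the local ring of a point which are finite before localisation -/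
theorem fin_quot (χ : BB k (Fin 2) →ₐ[k] k) (J : Ideal (ptLoc (BB k (Fin 2)) χ))
    (I : Ideal (MvPolynomial (Fin 2) k))
    (hI : ∀ f ∈ I, (⟨_, poly_mem χ f⟩ : ptLoc (BB k (Fin 2)) χ) ∈ J)
    (hfin : FiniteDimensional k (MvPolynomial (Fin 2) k ⧸ I)) :
    FiniteDimensional k (ptLoc (BB k (Fin 2)) χ ⧸ J) := by
  let φ : MvPolynomial (Fin 2) k →ₐ[k] ptLoc (BB k (Fin 2)) χ :=
    (Algebra.algHom k (MvPolynomial (Fin 2) k) (KK k (Fin 2))).codRestrict _ (poly_mem χ)
  let L : (MvPolynomial (Fin 2) k ⧸ I) →ₐ[k] (ptLoc (BB k (Fin 2)) χ ⧸ J) :=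
    Ideal.Quotient.liftₐ I ((Ideal.Quotient.mkₐ k J).comp φ) fun f hf =>
      Ideal.Quotient.eq_zero_iff_mem.2 (hI f hf)
  have hL : ∀ f, L (Ideal.Quotient.mk I f) = Ideal.Quotient.mk J (φ f) := fun f => rfl
  have hsurj : Function.Surjective L := by
    refine surj_of_units (P := MvPolynomial (Fin 2) k ⧸ I) (S := ptLoc (BB k (Fin 2)) χ ⧸ J)
      hfin L fun z => ?_
    obtain ⟨r, rfl⟩ := Ideal.Quotient.mk_surjective z
    obtain ⟨f, g, h1, h2⟩ := (mem_ptLoc χ).1 r.2
    refine ⟨Ideal.Quotient.mk I f, Ideal.Quotient.mk I g,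
      Ideal.Quotient.mk J ⟨_, unit_mem χ h1⟩, ?_, ?_⟩
    · rw [hL, ← map_mul, ← map_one (Ideal.Quotient.mk J)]
      congr 1
      apply Subtype.ext
      change algebraMap _ _ g * (algebraMap _ _ g)⁻¹ = 1
      exact mul_inv_cancel₀ (am_ne χ h1)
    · rw [hL, hL, ← map_mul]
      congr 1
      apply Subtype.ext
      change algebraMap _ _ g * (r : KK k (Fin 2)) = algebraMap _ _ f
      rw [← h2, mul_comm]
  exact Module.Finite.of_surjective L.toLinearMap hsurj

end B5

open B5

/-- The plane. -/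
theorem nc2_init [IsAlgClosed k] (J : Empty → Ideal (BB k (Fin 2))) (e : Empty → Empty → ℤ)
    (V : Empty → Subalgebra k (KK k (Fin 2))) : Nc2 (BB k (Fin 2)) J e V where
  ne i := i.elim
  span d := ⟨fun i => i.elim, funext fun i => i.elim⟩
  pt R hR := by
    obtain ⟨χ, rfl⟩ := pt_cases hR
    obtain ⟨Dx, hDx⟩ := exists_partial (k := k) (0 : Fin 2)
    obtain ⟨Dy, hDy⟩ := exists_partial (k := k) (1 : Fin 2)
    exact ⟨_, _, _, Dx, Dy, _, _, _, ptNc J e V (reg hDx hDy)⟩

/-- The initial stage for a polynomial with isolated critical points. -/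
theorem stage2_init [IsAlgClosed k] (g : MvPolynomial (Fin 2) k)
    (hg : FiniteDimensional k
      (MvPolynomial (Fin 2) k ⧸ Ideal.span {pderiv 0 g, pderiv 1 g}))
    (J : Empty → Ideal (BB k (Fin 2))) (e : Empty → Empty → ℤ)
    (V : Empty → Subalgebra k (KK k (Fin 2))) (α : Empty → ℤ) :
    Stage2 (BB k (Fin 2)) ⟨0, lform 1 (algebraMap _ (KK k (Fin 2)) g)⟩ J e V α where
  ne i := i.elim
  span d := ⟨fun i => i.elim, funext fun i => i.elim⟩
  pt R hR := by
    obtain ⟨χ, rfl⟩ := pt_cases hR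
    obtain ⟨Dx, hDx⟩ := exists_partial (k := k) (0 : Fin 2)
    obtain ⟨Dy, hDy⟩ := exists_partial (k := k) (1 : Fin 2)
    have hreg := reg (χ := χ) hDx hDy
    refine ⟨_, _, _, Dx, Dy, _, _, _, ptNc J e V hreg, ?_⟩
    have hx : (lform 1 (algebraMap (MvPolynomial (Fin 2) k) (KK k (Fin 2)) g)) Dx =
        algebraMap _ (KK k (Fin 2)) (pderiv 0 g) := by
      change 1 * Dx _ = _
      rw [one_mul, hDx]
    have hy : (lform 1 (algebraMap (MvPolynomial (Fin 2) k) (KK k (Fin 2)) g)) Dy =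
        algebraMap _ (KK k (Fin 2)) (pderiv 1 g) := by
      change 1 * Dy _ = _
      rw [one_mul, hDy]
    rw [Fintype.prod_empty]
    refine
      { ne := one_ne_zero
        gx := ?_
        gy := ?_
        ah := ?_
        ax := ?_
        ay := ?_
        fin := ?_ }
    · change Dx 1 / 1 ∈ _
      rw [Derivation.map_one_eq_zero, zero_div]
      exact Subalgebra.zero_mem _
    · change Dy 1 / 1 ∈ _
      rw [Derivation.map_one_eq_zero, zero_div]
      exact Subalgebra.zero_mem _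
    · change (0 : KK k (Fin 2)) / 1 ∈ _
      rw [zero_div]
      exact Subalgebra.zero_mem _
    · change (lform 1 (algebraMap (MvPolynomial (Fin 2) k) (KK k (Fin 2)) g)) Dx / 1 ∈ _
      rw [hx, div_one]
      exact poly_mem χ _
    · change (lform 1 (algebraMap (MvPolynomial (Fin 2) k) (KK k (Fin 2)) g)) Dy / 1 ∈ _
      rw [hy, div_one]
      exact poly_mem χ _
    · refine fin_quot χ _ _ ?_ hg
      intro f hf
      rw [Ideal.mem_span_pair] at hf
      obtain ⟨u, v, rfl⟩ := hf
      have h1 : (⟨_, poly_mem χ (pderiv 0 g)⟩ : ptLoc (BB k (Fin 2)) χ) ∈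
          Jw (⟨0, lform 1 (algebraMap _ (KK k (Fin 2)) g)⟩ : Obj k (KK k (Fin 2)))
            (ptLoc (BB k (Fin 2)) χ)
            (algebraMap (MvPolynomial (Fin 2) k) (KK k (Fin 2)) (X 0 - C (ev χ (X 0))))
            (algebraMap (MvPolynomial (Fin 2) k) (KK k (Fin 2)) (X 1 - C (ev χ (X 1))))
            Dx Dy false false 1 := by
        refine Ideal.subset_span (Or.inr (Or.inl ?_))
        change _ = (lform 1 (algebraMap (MvPolynomial (Fin 2) k) (KK k (Fin 2)) g)) Dx / 1
        rw [hx, div_one]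
      have h2 : (⟨_, poly_mem χ (pderiv 1 g)⟩ : ptLoc (BB k (Fin 2)) χ) ∈
          Jw (⟨0, lform 1 (algebraMap _ (KK k (Fin 2)) g)⟩ : Obj k (KK k (Fin 2)))
            (ptLoc (BB k (Fin 2)) χ)
            (algebraMap (MvPolynomial (Fin 2) k) (KK k (Fin 2)) (X 0 - C (ev χ (X 0))))
            (algebraMap (MvPolynomial (Fin 2) k) (KK k (Fin 2)) (X 1 - C (ev χ (X 1))))
            Dx Dy false false 1 := by
        refine Ideal.subset_span (Or.inr (Or.inr ?_))
        change _ = (lform 1 (algebraMap (MvPolynomial (Fin 2) k) (KK k (Fin 2)) g)) Dy / 1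
        rw [hy, div_one]
      have h3 := Ideal.add_mem _ (Ideal.mul_mem_left _ ⟨_, poly_mem χ u⟩ h1)
        (Ideal.mul_mem_left _ ⟨_, poly_mem χ v⟩ h2)
      convert h3 using 1
      apply Subtype.ext
      change algebraMap _ _ (u * pderiv 0 g + v * pderiv 1 g) = algebraMap _ _ u *
        algebraMap _ _ (pderiv 0 g) + algebraMap _ _ v * algebraMap _ _ (pderiv 1 g)
      rw [map_add, map_mul, map_mul]

/-- The forms `dg` are closed. -/
theorem lform_closed {K : Type} [Field K] [Algebra k K] (g : K) :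
    Obj.Closed (⟨0, lform 1 g⟩ : Obj k K) := by
  refine ⟨fun D D' => ?_, Or.inl rfl⟩
  change D (1 * D' g) - D' (1 * D g) = 1 * ⁅D, D'⁆ g
  rw [one_mul, one_mul, one_mul, Derivation.commutator_apply]

end Pool.Agent.MP_b525bf_ag_TS
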