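import Pool.Agent.Lib.MP_b525bf_ag_TS.Defs
import Pool.Agent.Lib.MP_b525bf_ag_P.ProdA
import Pool.Agent.Lib.MP_b525bf_ag_h90.Extend

/-!
# C1: products of stages
-/

set_option autoImplicit false

namespace Pool.Agent.MP_b525bf_ag_TS

open Pool.Agent.MP_b525bf_ag Pool.Agent.MP_b525bf_ag_W Pool.Agent.MP_b525bf_ag_P AddMonoidAlgebra

namespace ProdStage

open TensorProduct

variable {k K K₁ K₂ : Type} [Field k] [Field K] [Algebra k K]
  [Field K₁] [Algebra k K₁] [Field K₂] [Algebra k K₂]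

/-- The derivation of the tensor product. -/
noncomputable def tder (D₁ : Derivation k K₁ K₁) (D₂ : Derivation k K₂ K₂) :
    Derivation k (K₁ ⊗[k] K₂) (K₁ ⊗[k] K₂) :=
  Derivation.mk' ((D₁ : K₁ →ₗ[k] K₁).rTensor K₂ + (D₂ : K₂ →ₗ[k] K₂).lTensor K₁) (by
    intro a b
    induction a with
    | zero => simp
    | add a a' ha ha' =>
      rw [add_mul, map_add, ha, ha', map_add, add_smul, smul_add]
      abel
    | tmul x y =>
      induction b with
      | zero => simp
      | add b b' hb hb' =>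
        rw [mul_add, map_add, hb, hb', map_add, add_smul, smul_add]
        abel
      | tmul z w =>
        rw [Algebra.TensorProduct.tmul_mul_tmul]
        simp only [LinearMap.add_apply, LinearMap.rTensor_tmul, LinearMap.lTensor_tmul,
          Derivation.coeFn_coe, Derivation.leibniz, smul_eq_mul, mul_add,
          Algebra.TensorProduct.tmul_mul_tmul, add_tmul, tmul_add]
        rw [mul_comm w y, mul_comm z x]
        abel)

theorem tder_tmul (D₁ : Derivation k K₁ K₁) (D₂ : Derivation k K₂ K₂) (x : K₁) (y : K₂) :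
    tder D₁ D₂ (x ⊗ₜ y) = D₁ x ⊗ₜ y + x ⊗ₜ D₂ y := rfl

end ProdStage

/-- Extension of derivations to the field of fractions of a product. -/
theorem exists_derivation {k K K₁ K₂ : Type} [Field k] [Field K] [Algebra k K]
  [Field K₁] [Algebra k K₁] [Field K₂] [Algebra k K₂] (α₁ : K₁ →ₐ[k] K) (α₂ : K₂ →ₐ[k] K)
    (hα : Function.Injective (Algebra.TensorProduct.lift α₁ α₂ fun _ _ => Commute.all _ _))
    (hfrac : ∀ z : K, ∃ a ∈ α₁.range ⊔ α₂.range, ∃ b ∈ α₁.range ⊔ α₂.range, b ≠ 0 ∧ z * b = a)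
    (D₁ : Derivation k K₁ K₁) (D₂ : Derivation k K₂ K₂) :
    ∃ D : Derivation k K K, (∀ z, D (α₁ z) = α₁ (D₁ z)) ∧ ∀ z, D (α₂ z) = α₂ (D₂ z) := by
  let φ := Algebra.TensorProduct.lift α₁ α₂ fun _ _ => Commute.all _ _
  let _ : Algebra (TensorProduct k K₁ K₂) K := φ.toRingHom.toAlgebra
  have hmap : ∀ t, algebraMap (TensorProduct k K₁ K₂) K t = φ t := fun _ => rfl
  have : IsScalarTower k (TensorProduct k K₁ K₂) K := IsScalarTower.of_algebraMap_eq fun r => by
    rw [hmap]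
    exact (φ.commutes r).symm
  have : FaithfulSMul (TensorProduct k K₁ K₂) K :=
    (faithfulSMul_iff_algebraMap_injective _ _).2 hα
  have hrange : α₁.range ⊔ α₂.range ≤ φ.range := by
    refine sup_le ?_ ?_
    · rintro _ ⟨x, rfl⟩
      exact ⟨x ⊗ₜ 1, by
        change φ (x ⊗ₜ 1) = _
        simp [φ]⟩
    · rintro _ ⟨x, rfl⟩
      exact ⟨1 ⊗ₜ x, by
        change φ (1 ⊗ₜ x) = _
        simp [φ]⟩
  have : IsFractionRing (TensorProduct k K₁ K₂) K := IsFractionRing.of_field _ K fun z => by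
    obtain ⟨a, ha, b, hb, hb0, hz⟩ := hfrac z
    obtain ⟨x, hx⟩ := hrange ha
    obtain ⟨y, hy⟩ := hrange hb
    refine ⟨x, y, ?_⟩
    rw [hmap, hmap]
    change φ x = a at hx
    change φ y = b at hy
    rw [hx, hy, ← hz, mul_div_cancel_right₀ _ hb0]
  obtain ⟨D, hD⟩ := MP_b525bf_ag.H90.exists_extend (ProdStage.tder D₁ D₂)
    (nonZeroDivisors (TensorProduct k K₁ K₂)) K
  refine ⟨D, fun z => ?_, fun z => ?_⟩
  · have h := hD (z ⊗ₜ 1)
    rw [ProdStage.tder_tmul, Derivation.map_one_eq_zero, TensorProduct.tmul_zero, add_zero] at h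
    simpa [hmap, φ] using h
  · have h := hD (1 ⊗ₜ z)
    rw [ProdStage.tder_tmul, Derivation.map_one_eq_zero, TensorProduct.zero_tmul, zero_add] at h
    simpa [hmap, φ] using h


namespace ProdStage

section LForm

variable {k K K₁ : Type} [Field k] [Field K] [Algebra k K] [Field K₁] [Algebra k K₁]

theorem lform_apply (l g : K) (D : Derivation k K K) : lform l g D = l * D g := rfl

/-- The image of the zero form is zero. -/
theorem lform_map_eq_zero (α : K₁ →ₐ[k] K) {l g : K₁}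
    (h : (lform l g : Derivation k K₁ K₁ →ₗ[K₁] K₁) = 0) :
    (lform (α l) (α g) : Derivation k K K →ₗ[K] K) = 0 := by
  by_cases hl : l = 0
  · refine LinearMap.ext fun D => ?_
    rw [lform_apply, hl, map_zero, zero_mul]
    rfl
  have h1 : ∀ D : Derivation k K₁ K₁, D g = 0 := by
    intro D
    have h2 := LinearMap.congr_fun h D
    rw [lform_apply] at h2
    exact (mul_eq_zero.1 h2).resolve_left hl
  have h3 : KaehlerDifferential.D k K₁ g = 0 := by
    rw [← Module.forall_dual_apply_eq_zero_iff K₁]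
    intro f
    exact h1 (f.compDer (KaehlerDifferential.D k K₁))
  refine LinearMap.ext fun D => ?_
  rw [lform_apply]
  let _ : Algebra K₁ K := α.toRingHom.toAlgebra
  have : IsScalarTower k K₁ K := IsScalarTower.of_algebraMap_eq fun r => (α.commutes r).symm
  have h4 : (D.compAlgebraMap K₁) g = 0 := by
    rw [← Derivation.liftKaehlerDifferential_comp_D, h3, map_zero]
  have h5 : D (α g) = 0 := h4
  rw [h5, mul_zero]
  rfl

end LForm

end ProdStage

section

variable {k K K₁ K₂ ι₁ ι₂ : Type} [Field k] [Field K] [Algebra k K]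
  [Field K₁] [Algebra k K₁] [Field K₂] [Algebra k K₂] [AddCommGroup ι₁] [AddCommGroup ι₂]

namespace ProdStage

variable (α₁ : K₁ →ₐ[k] K) (α₂ : K₂ →ₐ[k] K) {M₁ : Fam k K₁ ι₁} {M₂ : Fam k K₂ ι₂}
  (q : Ideal (prodFam α₁ α₂ M₁ M₂).alg)

theorem mem_left [q.IsPrime] {d : ι₁} {x : K₁} (hx : x ∈ (atP M₁ (qL α₁ α₂ q)).s d) :
    α₁ x ∈ (atP (prodFam α₁ α₂ M₁ M₂) q).s (d, 0) := by
  have h := mem_atP_prod α₁ α₂ q hx (atP M₂ (qR α₁ α₂ q)).one'
  rwa [map_one, mul_one] at h

theorem mem_right [q.IsPrime] {d : ι₂} {x : K₂} (hx : x ∈ (atP M₂ (qR α₁ α₂ q)).s d) :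
    α₂ x ∈ (atP (prodFam α₁ α₂ M₁ M₂) q).s (0, d) := by
  have h := mem_atP_prod α₁ α₂ q (atP M₁ (qL α₁ α₂ q)).one' hx
  rwa [map_one, one_mul] at h

theorem isU_left [q.IsPrime] {d : ι₁} {x : K₁} (hx : IsU (atP M₁ (qL α₁ α₂ q)) d x) :
    IsU (atP (prodFam α₁ α₂ M₁ M₂) q) (d, 0) (α₁ x) := by
  refine ⟨(map_ne_zero α₁).2 hx.1, mem_left α₁ α₂ q hx.2.1, ?_⟩
  have h := mem_left α₁ α₂ q hx.2.2
  rwa [map_inv₀, ← neg_zero (G := ι₂), ← Prod.neg_mk] at h

theorem isU_right [q.IsPrime] {d : ι₂} {x : K₂} (hx : IsU (atP M₂ (qR α₁ α₂ q)) d x) :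
    IsU (atP (prodFam α₁ α₂ M₁ M₂) q) (0, d) (α₂ x) := by
  refine ⟨(map_ne_zero α₂).2 hx.1, mem_right α₁ α₂ q hx.2.1, ?_⟩
  have h := mem_right α₁ α₂ q hx.2.2
  rwa [map_inv₀, ← neg_zero (G := ι₁), ← Prod.neg_mk] at h

/-- Criterion for the preservation of the localisation. -/
theorem pres_of {K ι : Type} [Field K] [Algebra k K] [AddCommGroup ι] {M : Fam k K ι}
    {q : Ideal M.alg} [q.IsPrime] {D : Derivation k K K}
    (h : ∀ d, ∀ y ∈ M.s d, D y ∈ (atP M q).s d) : Pres M q D := by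
  rintro d y ⟨c, f, hf, hfq, hy⟩
  have hU := (isU_atP_iff M q hf).2 hfq
  have h1 := h _ _ hy
  have h2 := h _ _ hf
  have hy' : y ∈ (atP M q).s d := ⟨c, f, hf, hfq, hy⟩
  rw [Derivation.leibniz, smul_eq_mul, smul_eq_mul] at h1
  have h3 := (atP M q).mul' hy' h2
  rw [add_comm d c] at h3
  have h4 := Submodule.sub_mem _ h1 h3
  rw [add_sub_cancel_right] at h4
  have h5 := (atP M q).mul' hU.2.2 h4
  rwa [← mul_assoc, inv_mul_cancel₀ hU.1, one_mul, neg_add_cancel_left] at h5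

theorem pres_prod [q.IsPrime] {D : Derivation k K K} {D₁ : Derivation k K₁ K₁}
    {D₂ : Derivation k K₂ K₂} (h₁ : ∀ z, D (α₁ z) = α₁ (D₁ z)) (h₂ : ∀ z, D (α₂ z) = α₂ (D₂ z))
    (p₁ : Pres M₁ (qL α₁ α₂ q) D₁) (p₂ : Pres M₂ (qR α₁ α₂ q) D₂) :
    Pres (prodFam α₁ α₂ M₁ M₂) q D := by
  refine pres_of ?_
  rintro ⟨d₁, d₂⟩ y hy
  refine prodFam_induction (C := fun y => D y ∈ (atP (prodFam α₁ α₂ M₁ M₂) q).s (d₁, d₂)) ?_ ?_ hy
  · intro x₁ hx₁ x₂ hx₂
    have e1 := le_atP M₁ (qL α₁ α₂ q) _ hx₁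
    have e2 := le_atP M₂ (qR α₁ α₂ q) _ hx₂
    rw [Derivation.leibniz, smul_eq_mul, smul_eq_mul, h₁, h₂]
    have e3 := mem_atP_prod α₁ α₂ q e1 (p₂ _ _ e2)
    have e4 := mem_atP_prod α₁ α₂ q (p₁ _ _ e1) e2
    rw [mul_comm (α₁ (D₁ x₁))] at e4
    exact Submodule.add_mem _ e3 e4
  · intro x y hx hy
    rw [map_add]
    exact Submodule.add_mem _ hx hy

theorem pres_zero {K ι : Type} [Field K] [Algebra k K] [AddCommGroup ι] {M : Fam k K ι}
    {q : Ideal M.alg} [q.IsPrime] : Pres M q (0 : Derivation k K K) := by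
  intro d y _
  rw [Derivation.zero_apply]
  exact Submodule.zero_mem _

theorem sum_fst_zero {N : ℕ} (d : Fin N → ι₁) :
    ∑ l, ((d l, 0) : ι₁ × ι₂) = (∑ l, d l, 0) := by
  refine Prod.ext ?_ ?_
  · rw [Prod.fst_sum]
  · rw [Prod.snd_sum]
    simp

theorem sum_zero_snd {N : ℕ} (d : Fin N → ι₂) :
    ∑ l, ((0, d l) : ι₁ × ι₂) = (0, ∑ l, d l) := by
  refine Prod.ext ?_ ?_
  · rw [Prod.fst_sum]
    simp
  · rw [Prod.snd_sum]

/-- The determinant of the product. -/
theorem det_append {N₁ N₂ : ℕ} {E : Fin (N₁ + N₂) → Derivation k K K} {y : Fin (N₁ + N₂) → K}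
    (A : Matrix (Fin N₁) (Fin N₁) K) (B : Matrix (Fin N₂) (Fin N₂) K)
    (h₁ : ∀ l m, E (Fin.castAdd N₂ l) (y (Fin.castAdd N₂ m)) = A l m)
    (h₂ : ∀ l m, E (Fin.natAdd N₁ l) (y (Fin.natAdd N₁ m)) = B l m)
    (h₃ : ∀ l m, E (Fin.natAdd N₁ l) (y (Fin.castAdd N₂ m)) = 0)
    (h₄ : ∀ l m, E (Fin.castAdd N₂ l) (y (Fin.natAdd N₁ m)) = 0) :
    (Matrix.of fun l m => E l (y m)).det = A.det * B.det := by
  rw [← Matrix.det_submatrix_equiv_self finSumFinEquiv]
  have h : (Matrix.of fun l m => E l (y m)).submatrix finSumFinEquiv finSumFinEquiv =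
      Matrix.fromBlocks A 0 0 B := by
    refine Matrix.ext fun i j => ?_
    rcases i with i | i <;> rcases j with j | j
    · exact h₁ i j
    · exact h₄ i j
    · exact h₃ i j
    · exact h₂ i j
  rw [h, Matrix.det_fromBlocks_zero₂₁]

theorem wdeg_left {J₁ J₂ : Type} [Fintype J₁] [Fintype J₂] (u₁ : J₁ → ι₁) (u₂ : J₂ → ι₂)
    (c : J₁ → ℤ) : wdeg (prodU u₁ u₂) (Sum.elim c 0) = (wdeg u₁ c, 0) := by
  unfold wdeg prodU
  rw [Fintype.sum_sum_type]
  refine Prod.ext ?_ ?_ <;> simp [Prod.fst_sum, Prod.snd_sum]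

theorem wdeg_right {J₁ J₂ : Type} [Fintype J₁] [Fintype J₂] (u₁ : J₁ → ι₁) (u₂ : J₂ → ι₂)
    (c : J₂ → ℤ) : wdeg (prodU u₁ u₂) (Sum.elim 0 c) = (0, wdeg u₂ c) := by
  unfold wdeg prodU
  rw [Fintype.sum_sum_type]
  refine Prod.ext ?_ ?_ <;> simp [Prod.fst_sum, Prod.snd_sum]

end ProdStage

end

namespace ProdStage

variable {k K K₁ K₂ ι₁ ι₂ I₁ I₂ : Type} [Field k] [Field K] [Algebra k K]
  [Field K₁] [Algebra k K₁] [Field K₂] [Algebra k K₂] [AddCommGroup ι₁] [AddCommGroup ι₂]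

/-- The logarithmic structure of the product. -/
theorem ld_prod (α₁ : K₁ →ₐ[k] K) (α₂ : K₂ →ₐ[k] K)
    (hα : Function.Injective (Algebra.TensorProduct.lift α₁ α₂ fun _ _ => Commute.all _ _))
    (hfrac : ∀ z : K, ∃ a ∈ α₁.range ⊔ α₂.range, ∃ b ∈ α₁.range ⊔ α₂.range, b ≠ 0 ∧ z * b = a)
    {M₁ : Fam k K₁ ι₁} {M₂ : Fam k K₂ ι₂} (q : Ideal (prodFam α₁ α₂ M₁ M₂).alg) [q.IsPrime]
    {N₁ N₂ : ℕ} {l₁ g₁ : I₁ → K₁} {l₂ g₂ : I₂ → K₂} {c₁ : I₁ → ι₁} {c₂ : I₂ → ι₂}
    (h₁ : LD M₁ (qL α₁ α₂ q) N₁ (fun i => lform (l₁ i) (g₁ i)) c₁)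
    (h₂ : LD M₂ (qR α₁ α₂ q) N₂ (fun i => lform (l₂ i) (g₂ i)) c₂) :
    LD (prodFam α₁ α₂ M₁ M₂) q (N₁ + N₂) (fun i : I₁ ⊕ I₂ =>
      lform (Sum.elim (fun i => α₁ (l₁ i)) (fun i => α₂ (l₂ i)) i)
        (Sum.elim (fun i => α₁ (g₁ i)) (fun i => α₂ (g₂ i)) i))
      (Sum.elim (fun i => (c₁ i, 0)) (fun i => (0, c₂ i))) := by
  obtain ⟨δ₁, y₁, d₁, a1, a2, a3, a4, a5, a6⟩ := h₁
  obtain ⟨δ₂, y₂, d₂, b1, b2, b3, b4, b5, b6⟩ := h₂
  choose E₁ e11 e12 using fun l => exists_derivation α₁ α₂ hα hfrac (δ₁ l) 0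
  choose E₂ e21 e22 using fun l => exists_derivation α₁ α₂ hα hfrac 0 (δ₂ l)
  have e12' : ∀ l z, E₁ l (α₂ z) = 0 := fun l z => by rw [e12, Derivation.zero_apply, map_zero]
  have e21' : ∀ l z, E₂ l (α₁ z) = 0 := fun l z => by rw [e21, Derivation.zero_apply, map_zero]
  refine ⟨Fin.append E₁ E₂, Fin.append (fun l => α₁ (y₁ l)) (fun l => α₂ (y₂ l)),
    Fin.append (fun l => (d₁ l, 0)) (fun l => (0, d₂ l)), ?_, ?_, ?_, ?_, ?_, ?_⟩
  · refine Fin.addCases (fun l => ?_) (fun l => ?_)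
    · rw [Fin.append_left]
      exact pres_prod α₁ α₂ q (e11 l) (e12 l) (a1 l) pres_zero
    · rw [Fin.append_right]
      exact pres_prod α₁ α₂ q (e21 l) (e22 l) pres_zero (b1 l)
  · refine Fin.addCases (fun l => ?_) (fun l => ?_)
    · rw [Fin.append_left, Fin.append_left]
      exact mem_left α₁ α₂ q (a2 l)
    · rw [Fin.append_right, Fin.append_right]
      exact mem_right α₁ α₂ q (b2 l)
  · have hs : ∑ l, Fin.append (fun l => ((d₁ l, 0) : ι₁ × ι₂)) (fun l => (0, d₂ l)) l =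
        (∑ l, d₁ l, 0) + (0, ∑ l, d₂ l) := by
      rw [Fin.sum_univ_add]
      simp only [Fin.append_left, Fin.append_right]
      rw [sum_fst_zero, sum_zero_snd]
    have hd := det_append (E := Fin.append E₁ E₂)
      (y := Fin.append (fun l => α₁ (y₁ l)) (fun l => α₂ (y₂ l)))
      (α₁.toRingHom.mapMatrix (Matrix.of fun l m => δ₁ l (y₁ m)))
      (α₂.toRingHom.mapMatrix (Matrix.of fun l m => δ₂ l (y₂ m)))
      (fun l m => by
        rw [Fin.append_left, Fin.append_left, e11]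
        rfl)
      (fun l m => by
        rw [Fin.append_right, Fin.append_right, e22]
        rfl)
      (fun l m => by
        rw [Fin.append_right, Fin.append_left, e21'])
      (fun l m => by
        rw [Fin.append_right, Fin.append_left, e12'])
    rw [hs, hd, ← RingHom.map_det, ← RingHom.map_det]
    exact (isU_left α₁ α₂ q a3).mul (isU_right α₁ α₂ q b3)
  · rintro (i | i)
    · refine Fin.addCases (fun l => ?_) (fun l => ?_)
      · rw [Fin.append_left]
        change α₁ (l₁ i) * E₁ l (α₁ (g₁ i)) ∈ _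
        rw [e11, ← map_mul]
        exact mem_left α₁ α₂ q (a4 i l)
      · rw [Fin.append_right]
        change α₁ (l₁ i) * E₂ l (α₁ (g₁ i)) ∈ _
        rw [e21', mul_zero]
        exact Submodule.zero_mem _
    · refine Fin.addCases (fun l => ?_) (fun l => ?_)
      · rw [Fin.append_left]
        change α₂ (l₂ i) * E₁ l (α₂ (g₂ i)) ∈ _
        rw [e12', mul_zero]
        exact Submodule.zero_mem _
      · rw [Fin.append_right]
        change α₂ (l₂ i) * E₂ l (α₂ (g₂ i)) ∈ _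
        rw [e22, ← map_mul]
        exact mem_right α₁ α₂ q (b4 i l)
  · rintro (i | i)
    · rcases a5 i with h | ⟨l, hl⟩
      · exact Or.inl (lform_map_eq_zero α₁ h)
      · refine Or.inr ⟨Fin.castAdd N₂ l, ?_⟩
        rw [Fin.append_left]
        change IsU _ _ (α₁ (l₁ i) * E₁ l (α₁ (g₁ i)))
        rw [e11, ← map_mul]
        exact isU_left α₁ α₂ q hl
    · rcases b5 i with h | ⟨l, hl⟩
      · exact Or.inl (lform_map_eq_zero α₂ h)
      · refine Or.inr ⟨Fin.natAdd N₁ l, ?_⟩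
        rw [Fin.append_right]
        change IsU _ _ (α₂ (l₂ i) * E₂ l (α₂ (g₂ i)))
        rw [e22, ← map_mul]
        exact isU_right α₁ α₂ q hl
  · refine Fin.addCases (fun l => ?_) (fun l => ?_)
    · rintro (i | i) (i' | i') hne
      · rw [Fin.append_left]
        rcases a6 l i i' (fun h => hne (congrArg Sum.inl h)) with h | h
        · left
          change α₁ (l₁ i) * E₁ l (α₁ (g₁ i)) = 0
          rw [e11, ← map_mul]
          change l₁ i * δ₁ l (g₁ i) = 0 at h
          rw [h, map_zero]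
        · right
          change α₁ (l₁ i') * E₁ l (α₁ (g₁ i')) = 0
          rw [e11, ← map_mul]
          change l₁ i' * δ₁ l (g₁ i') = 0 at h
          rw [h, map_zero]
      · right
        rw [Fin.append_left]
        change α₂ (l₂ i') * E₁ l (α₂ (g₂ i')) = 0
        rw [e12', mul_zero]
      · left
        rw [Fin.append_left]
        change α₂ (l₂ i) * E₁ l (α₂ (g₂ i)) = 0
        rw [e12', mul_zero]
      · left
        rw [Fin.append_left]
        change α₂ (l₂ i) * E₁ l (α₂ (g₂ i)) = 0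
        rw [e12', mul_zero]
    · rintro (i | i) (i' | i') hne
      · left
        rw [Fin.append_right]
        change α₁ (l₁ i) * E₂ l (α₁ (g₁ i)) = 0
        rw [e21', mul_zero]
      · left
        rw [Fin.append_right]
        change α₁ (l₁ i) * E₂ l (α₁ (g₁ i)) = 0
        rw [e21', mul_zero]
      · right
        rw [Fin.append_right]
        change α₁ (l₁ i') * E₂ l (α₁ (g₁ i')) = 0
        rw [e21', mul_zero]
      · rw [Fin.append_right]
        rcases b6 l i i' (fun h => hne (congrArg Sum.inr h)) with h | h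
        · left
          change α₂ (l₂ i) * E₂ l (α₂ (g₂ i)) = 0
          rw [e22, ← map_mul]
          change l₂ i * δ₂ l (g₂ i) = 0 at h
          rw [h, map_zero]
        · right
          change α₂ (l₂ i') * E₂ l (α₂ (g₂ i')) = 0
          rw [e22, ← map_mul]
          change l₂ i' * δ₂ l (g₂ i') = 0 at h
          rw [h, map_zero]

end ProdStage

section General

variable {k K K₁ K₂ I I₁ I₂ : Type} [Field k] [Field K] [Algebra k K]
  [Field K₁] [Algebra k K₁] [Field K₂] [Algebra k K₂]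

/-- Products of stages. -/
theorem HasStage.prod (α₁ : K₁ →ₐ[k] K) (α₂ : K₂ →ₐ[k] K)
    (hα : Function.Injective (Algebra.TensorProduct.lift α₁ α₂ fun _ _ => Commute.all _ _))
    (hfrac : ∀ z : K, ∃ a ∈ α₁.range ⊔ α₂.range, ∃ b ∈ α₁.range ⊔ α₂.range, b ≠ 0 ∧ z * b = a)
    {B₁ : Subalgebra k K₁} {B₂ : Subalgebra k K₂} {N₁ N₂ : ℕ} {l₁ g₁ : I₁ → K₁}
    {l₂ g₂ : I₂ → K₂}
    (h₁ : HasStage B₁ N₁ fun i => lform (l₁ i) (g₁ i))
    (h₂ : HasStage B₂ N₂ fun i => lform (l₂ i) (g₂ i)) :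
    HasStage (B₁.map α₁ ⊔ B₂.map α₂) (N₁ + N₂) fun i : I₁ ⊕ I₂ =>
      lform (Sum.elim (fun i => α₁ (l₁ i)) (fun i => α₂ (l₂ i)) i)
        (Sum.elim (fun i => α₁ (g₁ i)) (fun i => α₂ (g₂ i)) i) := by
  obtain ⟨ι₁, _, _, _, J₁, _, M₁, a₁, u₁, w₁, t₁, z₁, L₁⟩ := h₁
  obtain ⟨ι₂, _, _, _, J₂, _, M₂, a₂, u₂, w₂, t₂, z₂, L₂⟩ := h₂
  refine ⟨ι₁ × ι₂, inferInstance, inferInstance, inferInstance, J₁ ⊕ J₂, inferInstance,
    prodFam α₁ α₂ M₁ M₂, (a₁, a₂), prodU u₁ u₂,
    Sum.elim (fun i => Sum.elim (w₁ i) 0) (fun i => Sum.elim 0 (w₂ i)), ?_, ?_, ?_⟩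
  · exact tor_prod α₁ α₂ hα t₁ t₂
  · change (M₁.s 0).map α₁.toLinearMap * (M₂.s 0).map α₂.toLinearMap = _
    rw [z₁, z₂, ← Subalgebra.mul_toSubmodule]
    rfl
  · intro q _ hq
    obtain ⟨s₁, s₂⟩ := semi_prod α₁ α₂ q hq
    have h := ProdStage.ld_prod α₁ α₂ hα hfrac q (L₁ _ s₁) (L₂ _ s₂)
    convert h using 1
    funext i
    rcases i with i | i
    · exact ProdStage.wdeg_left u₁ u₂ (w₁ i)
    · exact ProdStage.wdeg_right u₁ u₂ (w₂ i)

theorem HasStage.reindex (e : I₁ ≃ I₂) {B : Subalgebra k K} {N : ℕ}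
    {ω : I₂ → Derivation k K K →ₗ[K] K} (h : HasStage B N ω) :
    HasStage B N fun i => ω (e i) := by
  obtain ⟨ι, _, _, _, J, _, M, a, u, w, t, z, L⟩ := h
  refine ⟨ι, inferInstance, inferInstance, inferInstance, J, inferInstance, M, a, u,
    fun i => w (e i), t, z, ?_⟩
  intro q _ hq
  obtain ⟨δ, y, d, a1, a2, a3, a4, a5, a6⟩ := L q hq
  exact ⟨δ, y, d, a1, a2, a3, fun i => a4 (e i), fun i => a5 (e i),
    fun l i i' hne => a6 l (e i) (e i') fun h => hne (e.injective h)⟩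

end General

namespace ProdStage

section Triv

variable {k K : Type} [Field k] [Field K] [Algebra k K]

/-- The family of a point. -/
def pfam (k K : Type) [Field k] [Field K] [Algebra k K] : Fam k K PUnit where
  s _ := ⊤
  one' := trivial
  mul' := fun _ _ => trivial

theorem pfam_alg (h : Function.Surjective (algebraMap k K)) : (pfam k K).alg = ⊥ := by
  rw [eq_bot_iff]
  intro F _
  obtain ⟨r, hr⟩ := h (F.coeff 0)
  have h1 : F = algebraMap k (AddMonoidAlgebra K PUnit) r := by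
    ext
    rw [AddMonoidAlgebra.coe_algebraMap]
    simp [hr]
  rw [h1]
  exact Subalgebra.algebraMap_mem _ _

/-- The stage of a point, zero forms. -/
theorem hasStage_triv0 {I : Type} (h : Function.Surjective (algebraMap k K))
    (ω : I → Derivation k K K →ₗ[K] K) (hω : ∀ i, ω i = 0) :
    HasStage (⊤ : Subalgebra k K) 0 ω := by
  have hbot := pfam_alg h
  have hfg : (pfam k K).alg.FG := by
    rw [hbot]
    exact Subalgebra.fg_bot
  have hsm : ∀ (u : PEmpty.{1} → PUnit.{1}) (h : ∀ j, (1 : K) ∈ (pfam k K).s (-(u j))),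
      (secMap (pfam k K) u ∅ h).toRingHom.FormallySmooth := by
    intro u h
    refine RingHom.FormallySmooth.of_bijective ⟨?_, ?_⟩
    · have h1 : Function.Injective ((secMap (pfam k K) u ∅ h).comp
          (MvPolynomial.isEmptyAlgEquiv k (∅ : Set PEmpty.{1})).symm.toAlgHom) :=
        RingHom.injective (((secMap (pfam k K) u ∅ h).comp
          (MvPolynomial.isEmptyAlgEquiv k (∅ : Set PEmpty.{1})).symm.toAlgHom).toRingHom)
      intro x y hxy
      apply (MvPolynomial.isEmptyAlgEquiv k (∅ : Set PEmpty.{1})).injective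
      apply h1
      change secMap (pfam k K) u ∅ h ((MvPolynomial.isEmptyAlgEquiv k _).symm
        (MvPolynomial.isEmptyAlgEquiv k _ x)) = secMap (pfam k K) u ∅ h
        ((MvPolynomial.isEmptyAlgEquiv k _).symm (MvPolynomial.isEmptyAlgEquiv k _ y))
      rw [AlgEquiv.symm_apply_apply, AlgEquiv.symm_apply_apply]
      exact hxy
    · rintro ⟨x, hx⟩
      have h1 : x ∈ (⊥ : Subalgebra k (AddMonoidAlgebra K PUnit)) := hbot ▸ hx
      obtain ⟨r, rfl⟩ := Algebra.mem_bot.1 h1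
      refine ⟨MvPolynomial.C r, ?_⟩
      change (MvPolynomial.aeval _) (MvPolynomial.C r) = _
      rw [MvPolynomial.aeval_C]
      rfl
  have hdeg : ∀ (q : Ideal (pfam k K).alg) [q.IsPrime] (d : PUnit), d ∈ (pfam k K).degs q :=
    fun q _ _ => AddSubmonoid.zero_mem _
  refine ⟨PUnit, inferInstance, inferInstance, inferInstance, PEmpty, inferInstance, pfam k K,
    PUnit.unit, PEmpty.elim, fun _ j => j.elim, ?_, rfl, ?_⟩
  · refine ⟨hfg, fun j => j.elim, fun _ => trivial, ⟨1, Nat.one_pos, 1, trivial, one_ne_zero⟩,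
      fun _ => ⟨PUnit.unit, trivial, trivial⟩, ?_, ?_⟩
    · intro q _ _ d
      exact ⟨1, Nat.one_pos, 1, Nat.one_pos, hdeg q _⟩
    · intro q _ _
      exact ⟨∅, pfam k K, ⟨fun j => j.elim, fun _ => le_rfl, fun d => le_atP _ _ d, hfg,
        fun j => j.elim, hsm _ _⟩⟩
  · intro q _ _
    refine ⟨Fin.elim0, Fin.elim0, Fin.elim0, fun l => l.elim0, fun l => l.elim0, ?_,
      fun i l => l.elim0, fun i => Or.inl (hω i), fun l => l.elim0⟩
    rw [Matrix.det_fin_zero, Finset.univ_eq_empty, Finset.sum_empty]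
    refine ⟨one_ne_zero, (atP (pfam k K) q).one', ?_⟩
    rw [inv_one, neg_zero]
    exact (atP (pfam k K) q).one'

/-- The stage of a point. -/
theorem hasStage_triv {I : Type} [IsEmpty I] (h : Function.Surjective (algebraMap k K))
    (ω : I → Derivation k K K →ₗ[K] K) : HasStage (⊤ : Subalgebra k K) 0 ω :=
  hasStage_triv0 h ω fun i => isEmptyElim i

end Triv

end ProdStage

section General

variable {k K₁ K₂ I : Type} [Field k] [Field K₁] [Algebra k K₁] [Field K₂] [Algebra k K₂]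

/-- Transport of stages. -/
theorem HasStage.map (e : K₁ ≃ₐ[k] K₂) {B : Subalgebra k K₁} {N : ℕ} {l g : I → K₁}
    (h : HasStage B N fun i => lform (l i) (g i)) :
    HasStage (B.map (e : K₁ →ₐ[k] K₂)) N fun i => lform (e (l i)) (e (g i)) := by
  have hα : Function.Injective (Algebra.TensorProduct.lift (e : K₁ →ₐ[k] K₂) (Algebra.ofId k K₂)
      fun _ _ => Commute.all _ _) := by
    have h1 : Algebra.TensorProduct.lift (e : K₁ →ₐ[k] K₂) (Algebra.ofId k K₂)
        (fun _ _ => Commute.all _ _) =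
        (e : K₁ →ₐ[k] K₂).comp (Algebra.TensorProduct.rid k k K₁).toAlgHom := by
      refine Algebra.TensorProduct.ext' fun x y => ?_
      rw [Algebra.TensorProduct.lift_tmul, AlgHom.comp_apply]
      change _ = (e : K₁ →ₐ[k] K₂) (Algebra.TensorProduct.rid k k K₁ (x ⊗ₜ y))
      rw [Algebra.TensorProduct.rid_tmul, map_smul, Algebra.smul_def, mul_comm]
      rfl
    rw [h1]
    exact (e : K₁ →ₐ[k] K₂).injective.comp (Algebra.TensorProduct.rid k k K₁).injective
  have h2 := HasStage.prod (e : K₁ →ₐ[k] K₂) (Algebra.ofId k K₂) hα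
    (fun z => ⟨z, (le_sup_left : (e : K₁ →ₐ[k] K₂).range ≤ _) ⟨e.symm z, by simp⟩, 1,
      one_mem _, one_ne_zero, mul_one z⟩) h
    (ProdStage.hasStage_triv (I := PEmpty) (K := k) Function.surjective_id
      (fun i => lform i.elim i.elim))
  have h3 := h2.reindex (Equiv.sumEmpty I PEmpty).symm
  have h4 : B.map (e : K₁ →ₐ[k] K₂) ⊔ (⊤ : Subalgebra k k).map (Algebra.ofId k K₂) =
      B.map (e : K₁ →ₐ[k] K₂) := by
    refine sup_eq_left.2 ?_
    rintro _ ⟨x, -, rfl⟩
    exact (B.map _).algebraMap_mem x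
  rw [h4] at h3
  exact h3

end General

namespace ProdStage

section Incl

variable {k σ τ ρ : Type} [Field k]

theorem incl_algebraMap (f : σ → τ) (hf : Function.Injective f) (P : MvPolynomial σ k) :
    incl f hf (algebraMap _ (KK k σ) P) = algebraMap _ (KK k τ) (MvPolynomial.rename f P) :=
  IsFractionRing.lift_algebraMap
    (g := ((Algebra.algHom k (MvPolynomial τ k) (KK k τ)).comp (MvPolynomial.rename f)).toRingHom)
    ((IsFractionRing.injective (MvPolynomial τ k) (KK k τ)).comp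
      (MvPolynomial.rename_injective f hf)) P

theorem algHom_frac_ext {L : Type} [Field L] [Algebra k L] {f g : KK k σ →ₐ[k] L}
    (h : ∀ b : MvPolynomial σ k, f (algebraMap _ _ b) = g (algebraMap _ _ b)) : f = g := by
  refine AlgHom.ext fun z => ?_
  obtain ⟨a, b, rfl⟩ := IsLocalization.exists_mk'_eq (nonZeroDivisors (MvPolynomial σ k)) z
  rw [IsFractionRing.mk'_eq_div, map_div₀, map_div₀, h, h]

theorem incl_comp (f : σ → τ) (hf : Function.Injective f) (g : τ → ρ) (hg : Function.Injective g)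
    (z : KK k σ) : incl g hg (incl f hf z) = incl (g ∘ f) (hg.comp hf) z := by
  have h : (incl (k := k) g hg).comp (incl f hf) = incl (g ∘ f) (hg.comp hf) := by
    refine algHom_frac_ext fun b => ?_
    rw [AlgHom.comp_apply, incl_algebraMap, incl_algebraMap, incl_algebraMap,
      MvPolynomial.rename_rename]
  exact AlgHom.congr_fun h z

theorem map_incl (f : σ → τ) (hf : Function.Injective f) :
    (BB k σ).map (incl f hf) = (MvPolynomial.rename (R := k) f).range.map
      (Algebra.algHom k (MvPolynomial τ k) (KK k τ)) := by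
  refine le_antisymm ?_ ?_
  · rintro _ ⟨_, ⟨b, rfl⟩, rfl⟩
    exact ⟨MvPolynomial.rename f b, ⟨b, rfl⟩, (incl_algebraMap f hf b).symm⟩
  · rintro _ ⟨_, ⟨b, rfl⟩, rfl⟩
    exact ⟨algebraMap _ _ b, ⟨b, rfl⟩, incl_algebraMap f hf b⟩

/-- The ring of polynomials in two groups of variables. -/
theorem bb_sup (f : σ → ρ) (hf : Function.Injective f) (g : τ → ρ) (hg : Function.Injective g)
    (hfg : ∀ r, r ∈ Set.range f ∨ r ∈ Set.range g) :
    (BB k σ).map (incl f hf) ⊔ (BB k τ).map (incl g hg) = BB k ρ := by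
  have h : (MvPolynomial.rename (R := k) f).range ⊔ (MvPolynomial.rename (R := k) g).range =
      ⊤ := by
    rw [eq_top_iff, ← MvPolynomial.adjoin_range_X, Algebra.adjoin_le_iff]
    rintro _ ⟨r, rfl⟩
    rcases hfg r with ⟨s, rfl⟩ | ⟨t, rfl⟩
    · exact (le_sup_left : (MvPolynomial.rename (R := k) f).range ≤ _)
        ⟨MvPolynomial.X s, MvPolynomial.rename_X f s⟩
    · exact (le_sup_right : (MvPolynomial.rename (R := k) g).range ≤ _)
        ⟨MvPolynomial.X t, MvPolynomial.rename_X g t⟩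
  rw [map_incl, map_incl, ← Algebra.map_sup, h, Algebra.map_top]
  rfl

/-- Every element of the field of rational functions is a fraction. -/
theorem frac_sup (f : σ → ρ) (hf : Function.Injective f) (g : τ → ρ) (hg : Function.Injective g)
    (hfg : ∀ r, r ∈ Set.range f ∨ r ∈ Set.range g) (z : KK k ρ) :
    ∃ a ∈ (incl (k := k) f hf).range ⊔ (incl (k := k) g hg).range,
      ∃ b ∈ (incl (k := k) f hf).range ⊔ (incl (k := k) g hg).range, b ≠ 0 ∧ z * b = a := by
  have hle : BB k ρ ≤ (incl (k := k) f hf).range ⊔ (incl (k := k) g hg).range := by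
    rw [← bb_sup f hf g hg hfg]
    refine sup_le_sup ?_ ?_
    · rintro _ ⟨x, -, rfl⟩
      exact ⟨x, rfl⟩
    · rintro _ ⟨x, -, rfl⟩
      exact ⟨x, rfl⟩
  obtain ⟨a, b, rfl⟩ := IsLocalization.exists_mk'_eq (nonZeroDivisors (MvPolynomial ρ k)) z
  refine ⟨algebraMap _ _ a, hle ⟨a, rfl⟩, algebraMap _ _ (b : MvPolynomial ρ k), hle ⟨b, rfl⟩, ?_,
    IsLocalization.mk'_spec _ _ _⟩
  exact (map_ne_zero_iff _ (IsFractionRing.injective (MvPolynomial ρ k) (KK k ρ))).2
    (nonZeroDivisors.coe_ne_zero b)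

open TensorProduct

theorem exists_denoms (z : KK k σ ⊗[k] KK k τ) :
    ∃ b₁ : MvPolynomial σ k, b₁ ≠ 0 ∧ ∃ b₂ : MvPolynomial τ k, b₂ ≠ 0 ∧
      ∃ w : MvPolynomial σ k ⊗[k] MvPolynomial τ k,
      (algebraMap _ (KK k σ) b₁ ⊗ₜ[k] algebraMap _ (KK k τ) b₂) * z =
        Algebra.TensorProduct.map (Algebra.algHom k (MvPolynomial σ k) (KK k σ))
          (Algebra.algHom k (MvPolynomial τ k) (KK k τ)) w := by
  induction z with
  | zero => exact ⟨1, one_ne_zero, 1, one_ne_zero, 0, by rw [mul_zero, map_zero]⟩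
  | tmul x y =>
    obtain ⟨a, b, rfl⟩ := IsLocalization.exists_mk'_eq (nonZeroDivisors (MvPolynomial σ k)) x
    obtain ⟨c, d, rfl⟩ := IsLocalization.exists_mk'_eq (nonZeroDivisors (MvPolynomial τ k)) y
    refine ⟨b, nonZeroDivisors.coe_ne_zero b, d, nonZeroDivisors.coe_ne_zero d, a ⊗ₜ c, ?_⟩
    rw [Algebra.TensorProduct.tmul_mul_tmul, Algebra.TensorProduct.map_tmul,
      IsLocalization.mk'_spec', IsLocalization.mk'_spec']
    rfl
  | add x y hx hy =>
    obtain ⟨b₁, hb₁, b₂, hb₂, w, hw⟩ := hx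
    obtain ⟨c₁, hc₁, c₂, hc₂, v, hv⟩ := hy
    refine ⟨b₁ * c₁, mul_ne_zero hb₁ hc₁, b₂ * c₂, mul_ne_zero hb₂ hc₂,
      (c₁ ⊗ₜ c₂) * w + (b₁ ⊗ₜ b₂) * v, ?_⟩
    have h1 : ∀ (u₁ : MvPolynomial σ k) (u₂ : MvPolynomial τ k)
        (w : MvPolynomial σ k ⊗[k] MvPolynomial τ k),
        Algebra.TensorProduct.map (Algebra.algHom k (MvPolynomial σ k) (KK k σ))
          (Algebra.algHom k (MvPolynomial τ k) (KK k τ)) ((u₁ ⊗ₜ u₂) * w) =
        (algebraMap _ (KK k σ) u₁ ⊗ₜ[k] algebraMap _ (KK k τ) u₂) *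
          Algebra.TensorProduct.map (Algebra.algHom k (MvPolynomial σ k) (KK k σ))
          (Algebra.algHom k (MvPolynomial τ k) (KK k τ)) w := by
      intro u₁ u₂ w
      rw [map_mul, Algebra.TensorProduct.map_tmul]
      rfl
    rw [map_add, h1, h1, ← hw, ← hv, map_mul, map_mul, ← Algebra.TensorProduct.tmul_mul_tmul]
    ring

/-- The tensor product of the rings of polynomials. -/
theorem lift_rename_injective (f : σ → ρ) (hf : Function.Injective f) (g : τ → ρ)
    (hg : Function.Injective g) (hd : ∀ s t, f s ≠ g t) :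
    Function.Injective (Algebra.TensorProduct.lift (MvPolynomial.rename (R := k) f)
      (MvPolynomial.rename g) fun _ _ => Commute.all _ _) := by
  have h1 : Algebra.TensorProduct.lift (MvPolynomial.rename (R := k) f)
      (MvPolynomial.rename g) (fun _ _ => Commute.all _ _) =
      (MvPolynomial.rename (Sum.elim f g)).comp
        (MvPolynomial.tensorEquivSum k σ τ k).toAlgHom := by
    refine Algebra.TensorProduct.ext ?_ ?_
    · refine MvPolynomial.algHom_ext fun s => ?_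
      simp
    · refine MvPolynomial.algHom_ext fun s => ?_
      simp
  rw [h1]
  refine (MvPolynomial.rename_injective _ ?_).comp (MvPolynomial.tensorEquivSum k σ τ k).injective
  rintro (a | a) (b | b) hab
  · exact congrArg _ (hf hab)
  · exact absurd hab (hd a b)
  · exact absurd hab.symm (hd b a)
  · exact congrArg _ (hg hab)

/-- The product of the fields of rational functions. -/
theorem lift_incl_injective (f : σ → ρ) (hf : Function.Injective f) (g : τ → ρ)
    (hg : Function.Injective g) (hd : ∀ s t, f s ≠ g t) :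
    Function.Injective (Algebra.TensorProduct.lift (incl (k := k) f hf) (incl g hg)
      fun _ _ => Commute.all _ _) := by
  rw [injective_iff_map_eq_zero]
  intro z hz
  obtain ⟨b₁, hb₁, b₂, hb₂, w, hw⟩ := exists_denoms z
  have h3 : ∀ w, Algebra.TensorProduct.lift (incl (k := k) f hf) (incl g hg)
      (fun _ _ => Commute.all _ _) (Algebra.TensorProduct.map
        (Algebra.algHom k (MvPolynomial σ k) (KK k σ))
        (Algebra.algHom k (MvPolynomial τ k) (KK k τ)) w) =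
      algebraMap _ (KK k ρ) (Algebra.TensorProduct.lift (MvPolynomial.rename (R := k) f)
        (MvPolynomial.rename g) (fun _ _ => Commute.all _ _) w) := by
    intro w
    induction w with
    | zero => simp
    | add x y hx hy => rw [map_add, map_add, map_add, hx, hy, map_add]
    | tmul x y =>
      rw [Algebra.TensorProduct.map_tmul, Algebra.TensorProduct.lift_tmul,
        Algebra.TensorProduct.lift_tmul, map_mul, ← incl_algebraMap f hf, ← incl_algebraMap g hg]
      rfl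
  have h4 := h3 w
  rw [← hw, map_mul, hz, mul_zero] at h4
  have h5 : w = 0 := (map_eq_zero_iff _ (lift_rename_injective f hf g hg hd)).1
    ((map_eq_zero_iff _ (IsFractionRing.injective (MvPolynomial ρ k) (KK k ρ))).1 h4.symm)
  rw [h5, map_zero] at hw
  have h6 : ((algebraMap _ (KK k σ) b₁)⁻¹ ⊗ₜ[k] (algebraMap _ (KK k τ) b₂)⁻¹) *
      ((algebraMap _ (KK k σ) b₁ ⊗ₜ[k] algebraMap _ (KK k τ) b₂) * z) = 0 := by
    rw [hw, mul_zero]
  rwa [← mul_assoc, Algebra.TensorProduct.tmul_mul_tmul, inv_mul_cancel₀, inv_mul_cancel₀,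
    ← Algebra.TensorProduct.one_def, one_mul] at h6
  · exact (map_ne_zero_iff _ (IsFractionRing.injective (MvPolynomial τ k) (KK k τ))).2 hb₂
  · exact (map_ne_zero_iff _ (IsFractionRing.injective (MvPolynomial σ k) (KK k σ))).2 hb₁

theorem algebraMap_surjective_of_isEmpty [IsEmpty σ] :
    Function.Surjective (algebraMap k (KK k σ)) := by
  have h : ∀ P : MvPolynomial σ k, ∃ r : k, P = MvPolynomial.C r := by
    intro P
    obtain ⟨r, hr⟩ := MvPolynomial.C_surjective σ P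
    exact ⟨r, hr.symm⟩
  intro z
  obtain ⟨a, b, rfl⟩ := IsLocalization.exists_mk'_eq (nonZeroDivisors (MvPolynomial σ k)) z
  obtain ⟨r, hr⟩ := h a
  obtain ⟨s, hs⟩ := h b
  refine ⟨r / s, ?_⟩
  rw [IsFractionRing.mk'_eq_div, hr, hs, map_div₀]
  rfl

end Incl

end ProdStage

theorem ProdStage.hasStage_pi' {k : Type} [Field k] (n : ℕ) (l g : Fin n → KK k (Fin 2))
    (h : ∀ i, HasStage (BB k (Fin 2)) 2 fun _ : Unit => lform (l i) (g i)) :
    HasStage (BB k (Fin n × Fin 2)) (2 * n) fun i : Fin n =>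
      lform (incl (fun j : Fin 2 => (i, j)) (Prod.mk_right_injective i) (l i))
        (incl (fun j : Fin 2 => (i, j)) (Prod.mk_right_injective i) (g i)) := by
  induction n with
  | zero =>
    have hs : Function.Surjective (algebraMap k (KK k (Fin 0 × Fin 2))) :=
      ProdStage.algebraMap_surjective_of_isEmpty
    have ht : BB k (Fin 0 × Fin 2) = ⊤ := by
      rw [eq_top_iff]
      intro z _
      obtain ⟨r, rfl⟩ := hs z
      exact Subalgebra.algebraMap_mem _ _
    rw [ht]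
    exact ProdStage.hasStage_triv hs _
  | succ n ih =>
    let f : Fin n × Fin 2 → Fin (n + 1) × Fin 2 := fun x => (x.1.castSucc, x.2)
    let f' : Fin 2 → Fin (n + 1) × Fin 2 := fun j => (Fin.last n, j)
    have hf : Function.Injective f := by
      rintro ⟨a, b⟩ ⟨c, d⟩ hab
      simp only [f, Prod.mk.injEq, Fin.castSucc_inj] at hab
      rw [hab.1, hab.2]
    have hf' : Function.Injective f' := Prod.mk_right_injective _
    have hd : ∀ s t, f s ≠ f' t := by
      intro s t hst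
      have := congrArg Prod.fst hst
      exact (Fin.castSucc_lt_last s.1).ne this
    have hfg : ∀ r, r ∈ Set.range f ∨ r ∈ Set.range f' := by
      rintro ⟨a, b⟩
      rcases Fin.eq_castSucc_or_eq_last a with ⟨a, rfl⟩ | rfl
      · exact Or.inl ⟨(a, b), rfl⟩
      · exact Or.inr ⟨b, rfl⟩
    have h1 := ih (fun i => l i.castSucc) (fun i => g i.castSucc) (fun i => h i.castSucc)
    have h2 := h (Fin.last n)
    have h3 := HasStage.prod (incl (k := k) f hf) (incl f' hf')
      (ProdStage.lift_incl_injective f hf f' hf' hd) (ProdStage.frac_sup f hf f' hf' hfg) h1 h2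
    rw [ProdStage.bb_sup f hf f' hf' hfg] at h3
    let e : Fin (n + 1) ≃ Fin n ⊕ Unit :=
      { toFun := Fin.lastCases (Sum.inr ()) Sum.inl
        invFun := Sum.elim Fin.castSucc fun _ => Fin.last n
        left_inv := by
          intro i
          refine Fin.lastCases ?_ (fun i => ?_) i <;> simp
        right_inv := by
          rintro (i | i) <;> simp }
    have h4 := h3.reindex e
    rw [← Nat.mul_succ] at h4
    convert h4 using 1
    funext i
    refine Fin.lastCases ?_ (fun i => ?_) i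
    · have he : e (Fin.last n) = Sum.inr () := by simp [e]
      rw [he]
      rfl
    · have he : e (Fin.castSucc i) = Sum.inl i := by simp [e]
      rw [he]
      simp only [Sum.elim_inl]
      rw [ProdStage.incl_comp, ProdStage.incl_comp]
      rfl

/-- The products of `n` planes. -/
theorem hasStage_pi {k : Type} [Field k] (n : ℕ) (hn : 0 < n) (l g : Fin n → KK k (Fin 2))
    (h : ∀ i, HasStage (BB k (Fin 2)) 2 fun _ : Unit => lform (l i) (g i)) :
    HasStage (BB k (Fin n × Fin 2)) (2 * n) fun i : Fin n =>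
      lform (incl (fun j : Fin 2 => (i, j)) (Prod.mk_right_injective i) (l i))
        (incl (fun j : Fin 2 => (i, j)) (Prod.mk_right_injective i) (g i)) := by
  have _ := hn
  exact ProdStage.hasStage_pi' n l g h

end Pool.Agent.MP_b525bf_ag_TS
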