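import Pool.Agent.Lib.MP_b525bf_ag_TS.TorsB

/-!
# B6c: clean stages give toric families with logarithmic structure
-/

set_option autoImplicit false

namespace Pool.Agent.MP_b525bf_ag_TS

open Pool.Agent.MP_b525bf_ag Pool.Agent.MP_b525bf_ag_W Pool.Agent.MP_b525bf_ag_P AddMonoidAlgebra

variable {k K : Type} [Field k] [Field K] [Algebra k K] {E : Type} [Fintype E]

/-! ### Logarithmic derivatives -/

section LogDer

/-- The logarithmic derivative of `z` is in `R`. -/
def LdIn (R : Subalgebra k K) (δ : Derivation k K K) (z : K) : Prop := z ≠ 0 ∧ δ z / z ∈ R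

variable {R : Subalgebra k K} {δ : Derivation k K K}

theorem LdIn.mul {z w : K} (hz : LdIn R δ z) (hw : LdIn R δ w) : LdIn R δ (z * w) := by
  refine ⟨mul_ne_zero hz.1 hw.1, ?_⟩
  have e : δ (z * w) / (z * w) = δ z / z + δ w / w := by
    rw [Derivation.leibniz, smul_eq_mul, smul_eq_mul]
    have := hz.1
    have := hw.1
    field_simp
    ring
  rw [e]
  exact R.add_mem hz.2 hw.2

theorem LdIn.one : LdIn R δ 1 :=
  ⟨one_ne_zero, by rw [Derivation.map_one_eq_zero, zero_div]; exact R.zero_mem⟩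

theorem LdIn.inv {z : K} (hz : LdIn R δ z) : LdIn R δ z⁻¹ := by
  refine ⟨inv_ne_zero hz.1, ?_⟩
  have h0 := hz.1
  have h1 : z * δ z⁻¹ + z⁻¹ * δ z = 0 := by
    rw [← smul_eq_mul, ← smul_eq_mul (a := z⁻¹), ← Derivation.leibniz, mul_inv_cancel₀ h0,
      Derivation.map_one_eq_zero]
  have e : δ z⁻¹ / z⁻¹ = -(δ z / z) := by
    rw [div_inv_eq_mul, mul_comm, div_eq_inv_mul]
    exact eq_neg_of_add_eq_zero_left h1
  rw [e]
  exact R.neg_mem hz.2

theorem LdIn.pow {z : K} (hz : LdIn R δ z) (n : ℕ) : LdIn R δ (z ^ n) := by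
  induction n with
  | zero => rw [pow_zero]; exact LdIn.one
  | succ n ih => rw [pow_succ]; exact ih.mul hz

theorem LdIn.zpow {z : K} (hz : LdIn R δ z) (n : ℤ) : LdIn R δ (z ^ n) := by
  cases n with
  | ofNat n => rw [Int.ofNat_eq_natCast, zpow_natCast]; exact hz.pow n
  | negSucc n => rw [zpow_negSucc]; exact (hz.pow (n + 1)).inv

theorem LdIn.prod {S : Type} (s : Finset S) {z : S → K} (hz : ∀ i ∈ s, LdIn R δ (z i)) :
    LdIn R δ (∏ i ∈ s, z i) := by
  classical
  induction s using Finset.induction_on with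
  | empty => rw [Finset.prod_empty]; exact LdIn.one
  | insert i s hi ih =>
    rw [Finset.prod_insert hi]
    exact (hz i (Finset.mem_insert_self i s)).mul
      (ih fun j hj => hz j (Finset.mem_insert_of_mem hj))

theorem LdIn.unit (hδ : ∀ z ∈ R, δ z ∈ R) {v : K} (hv : UnitIn R v) : LdIn R δ v :=
  ⟨hv.1, by rw [div_eq_mul_inv]; exact R.mul_mem (hδ v hv.2.1) hv.2.2⟩

end LogDer

theorem mon_sum {g : E → K} (hg : ∀ i, g i ≠ 0) {S : Type} (s : Finset S) (n : S → ℤ)
    (e : S → E → ℤ) : mon g (∑ j ∈ s, n j • e j) = ∏ j ∈ s, mon g (e j) ^ n j := by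
  classical
  induction s using Finset.induction_on with
  | empty => rw [Finset.sum_empty, Finset.prod_empty, mon_zero]
  | insert i s hi ih =>
    rw [Finset.sum_insert hi, Finset.prod_insert hi, mon_add hg, ih]
    congr 1
    rw [mon, mon, ← Finset.prod_zpow]
    refine Finset.prod_congr rfl fun l _ => ?_
    rw [Pi.smul_apply, smul_eq_mul, mul_comm, zpow_mul]

variable {B : Subalgebra k K} {J : E → Ideal B} {e : E → E → ℤ} {V : E → Subalgebra k K}

/-- A derivation which preserves the local ring and is logarithmic preserves the homogeneous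
localisation. -/
theorem Nc2.pres (h : Nc2 B J e V) {q : Ideal (mrees B J e).alg} [q.IsPrime]
    {R : Subalgebra k K} (hPt : Pt B J R) (hR : ∀ z ∈ R, z ∈ (atP (mrees B J e) q).s 0)
    {g : E → K} (hgen : GenAt B J R g)
    (hU : ∀ i, IsU (atP (mrees B J e) q) (uvec i) (g i)) {δ : Derivation k K K}
    (hδ : ∀ z ∈ R, δ z ∈ R) (hδ' : ∀ j, LdIn R δ (xi g e j)) :
    Pres (mrees B J e) q δ := by
  have hg0 : ∀ i, g i ≠ 0 := fun i => (hgen.1 i).1
  have hmon : ∀ d, LdIn R δ (mon g d) := by
    intro d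
    obtain ⟨n, rfl⟩ := h.span d
    rw [mon_sum hg0]
    exact LdIn.prod _ fun j _ => (hδ' j).zpow (n j)
  rintro d z ⟨c, f, hf, hfq, hfz⟩
  have ha : f * z / mon g (c + d) ∈ R := h.mrees_mem hPt hgen hfz
  have hb : f / mon g c ∈ R := h.mrees_mem hPt hgen hf
  have hfU : IsU (atP (mrees B J e) q) c f := (isU_atP_iff _ q hf).2 hfq
  have hbU : IsU (atP (mrees B J e) q) 0 (f / mon g c) := by
    have := hfU.mul (isU_mon hU c).inv
    rwa [add_neg_cancel, ← div_eq_mul_inv] at this
  set a := f * z / mon g (c + d) with haeq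
  set b := f / mon g c with hbeq
  have hz : z ∈ (atP (mrees B J e) q).s d := ⟨c, f, hf, hfq, hfz⟩
  have hab : z * b = a * mon g d := by
    rw [haeq, hbeq, mon_add hg0]
    have h1 := mon_ne hg0 c
    have h2 := mon_ne hg0 d
    field_simp
  have h1 : z * δ b + b * δ z = a * δ (mon g d) + mon g d * δ a := by
    have := congrArg δ hab
    rwa [Derivation.leibniz, Derivation.leibniz, smul_eq_mul, smul_eq_mul, smul_eq_mul,
      smul_eq_mul] at this
  have h2 : δ z = b⁻¹ * (a * (δ (mon g d) / mon g d) * mon g d + δ a * mon g d - z * δ b) := by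
    have h3 := mon_ne hg0 d
    have h4 := hbU.1
    have h5 : b * δ z = a * δ (mon g d) + mon g d * δ a - z * δ b := by rw [← h1]; ring
    rw [mul_assoc a, div_mul_cancel₀ _ h3, mul_comm (δ a), ← h5, ← mul_assoc,
      inv_mul_cancel₀ h4, one_mul]
  have hm : mon g d ∈ (atP (mrees B J e) q).s d := (isU_mon hU d).2.1
  have t1 : a * (δ (mon g d) / mon g d) * mon g d ∈ (atP (mrees B J e) q).s d := by
    have := (atP (mrees B J e) q).mul' (hR _ (R.mul_mem ha (hmon d).2)) hm
    rwa [zero_add] at this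
  have t2 : δ a * mon g d ∈ (atP (mrees B J e) q).s d := by
    have := (atP (mrees B J e) q).mul' (hR _ (hδ a ha)) hm
    rwa [zero_add] at this
  have t3 : z * δ b ∈ (atP (mrees B J e) q).s d := by
    have := (atP (mrees B J e) q).mul' hz (hR _ (hδ b hb))
    rwa [add_zero] at this
  have t4 := (atP (mrees B J e) q).mul' hbU.2.2 (Submodule.sub_mem _ (Submodule.add_mem _ t1 t2) t3)
  rw [neg_zero, zero_add] at t4
  rw [h2]
  exact t4

theorem lD_mem {R : Subalgebra k K} {x : K} {D : Derivation k K K} (hx : x ∈ R)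
    (hD : ∀ z ∈ R, D z ∈ R) (s : Bool) : ∀ z ∈ R, lD s x D z ∈ R := by
  intro z hz
  rw [lD]
  split_ifs
  · rw [Derivation.smul_apply, smul_eq_mul]
    exact R.mul_mem hx (hD z hz)
  · exact hD z hz

theorem lD_eq_zero {x z : K} {D : Derivation k K K} (hD : D z = 0) (s : Bool) :
    lD s x D z = 0 := by
  rw [lD]
  split_ifs
  · rw [Derivation.smul_apply, hD, smul_zero]
  · exact hD

/-- A clean stage gives a toric family with logarithmic structure. -/
theorem Stage2.hasStage [IsAlgClosed k] (hB : B.FG) {θ : Obj k K} {α : E → ℤ}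
    (h : Stage2 B θ J e V α) (hθ : θ.h = 0 ∨ θ.ω = 0)
    (hclean : ∀ R, Pt B J R → Lv B θ J e V α 0 R) :
    HasStage B 2 (fun _ : Unit => θ.ω) := by
  have hN : Nc2 B J e V := ⟨h.ne, h.span, fun R hR => by
    obtain ⟨h', x, y, Dx, Dy, s, t, b, hp, -⟩ := h.pt R hR
    exact ⟨h', x, y, Dx, Dy, s, t, b, hp⟩⟩
  refine ⟨E → ℤ, inferInstance, inferInstance, inferInstance, E, inferInstance, mrees B J e,
    fun _ => 1, e, fun _ => α, hN.tor hB, mrees_zero, ?_⟩
  intro q _ hq
  obtain ⟨g, χ, -, hU, hPt, hgen, hR⟩ := hN.exists_pt hB q hq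
  set R := ptLoc (chartF B J g) χ with hRdef
  obtain ⟨h', x, y, Dx, Dy, s, t, b, hp, hA, hJ⟩ := hclean R hPt
  set A := atP (mrees B J e) q with hAdef
  set γ := ∏ j, xi h' e j ^ α j with hγ
  have hJ' : Jw θ R x y Dx Dy s t γ = ⊤ := by
    rcases hJ with hJ | hJ
    · exact hJ
    · have h1 : Module.finrank k (R ⧸ Jw θ R x y Dx Dy s t γ) = 0 := by
        rw [inv2] at hJ
        omega
      have := hA.fin
      rw [Module.finrank_zero_iff] at h1
      exact Ideal.Quotient.subsingleton_iff.1 h1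
  have hU' : ∀ i, IsU A (uvec i) (h' i) := by
    intro i
    have h1 : UnitIn R (h' i / g i) := hgen.unit hp.gen i
    have h2 := (isU_unit_mul (N := A) hR h1).mul (hU i)
    rwa [zero_add, div_mul_cancel₀ _ (hgen.1 i).1] at h2
  have hxi : ∀ j, IsU A (e j) (xi h' e j) := fun j => isU_mon hU' (e j)
  -- the degrees of the coordinates
  have hdx : ∃ dx, x ∈ A.s dx ∧ IsU A dx (lD s x Dx x) := by
    cases hs : s with
    | false =>
      refine ⟨0, hR x hp.reg.hx, ?_⟩
      have : lD false x Dx x = 1 := hp.reg.xx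
      rw [this]
      exact isU_one A
    | true =>
      obtain ⟨j, hj⟩ := hp.s_iff.1 hs
      have h1 := hp.bx j hj
      have h2 := (hxi j).mul (isU_unit_mul (N := A) hR h1).inv
      have h3 : xi h' e j * (xi h' e j / x)⁻¹ = x := by
        rw [inv_div, mul_div_cancel₀]
        exact (hxi j).1
      rw [h3, neg_zero, add_zero] at h2
      refine ⟨e j, h2.2.1, ?_⟩
      have : lD true x Dx x = x := by
        change (x • Dx) x = x
        rw [Derivation.smul_apply, hp.reg.xx, smul_eq_mul, mul_one]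
      rw [this]
      exact h2
  have hdy : ∃ dy, y ∈ A.s dy ∧ IsU A dy (lD t y Dy y) := by
    cases ht : t with
    | false =>
      refine ⟨0, hR y hp.reg.hy, ?_⟩
      have : lD false y Dy y = 1 := hp.reg.yy
      rw [this]
      exact isU_one A
    | true =>
      obtain ⟨j, hj⟩ := hp.t_iff.1 ht
      have h1 := hp.by' j hj
      have h2 := (hxi j).mul (isU_unit_mul (N := A) hR h1).inv
      have h3 : xi h' e j * (xi h' e j / y)⁻¹ = y := by
        rw [inv_div, mul_div_cancel₀]
        exact (hxi j).1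
      rw [h3, neg_zero, add_zero] at h2
      refine ⟨e j, h2.2.1, ?_⟩
      have : lD true y Dy y = y := by
        change (y • Dy) y = y
        rw [Derivation.smul_apply, hp.reg.yy, smul_eq_mul, mul_one]
      rw [this]
      exact h2
  obtain ⟨dx, hdx1, hdx2⟩ := hdx
  obtain ⟨dy, hdy1, hdy2⟩ := hdy
  have mx' : ∀ z ∈ R, lD s x Dx z ∈ R := lD_mem hp.reg.hx hp.reg.Dx_mem s
  have my' : ∀ z ∈ R, lD t y Dy z ∈ R := lD_mem hp.reg.hy hp.reg.Dy_mem t
  have hx0 : x ≠ 0 := hp.reg.x_ne
  have hy0 : y ≠ 0 := hp.reg.symm.x_ne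
  have lx : ∀ j, LdIn R (lD s x Dx) (xi h' e j) := by
    intro j
    rcases hb : b j with _ | _ | _
    · exact LdIn.unit mx' (hp.b0 j hb)
    · have h1 := LdIn.unit mx' (hp.bx j hb)
      have hs : s = true := hp.s_iff.2 ⟨j, hb⟩
      have h2 : LdIn R (lD s x Dx) x := by
        refine ⟨hx0, ?_⟩
        rw [hs]
        change (x • Dx) x / x ∈ R
        rw [Derivation.smul_apply, hp.reg.xx, smul_eq_mul, mul_one, div_self hx0]
        exact R.one_mem
      have h3 := h1.mul h2
      rwa [div_mul_cancel₀ _ hx0] at h3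
    · have h1 := LdIn.unit mx' (hp.by' j hb)
      have h2 : LdIn R (lD s x Dx) y := by
        refine ⟨hy0, ?_⟩
        rw [lD_eq_zero hp.reg.xy, zero_div]
        exact R.zero_mem
      have h3 := h1.mul h2
      rwa [div_mul_cancel₀ _ hy0] at h3
  have ly : ∀ j, LdIn R (lD t y Dy) (xi h' e j) := by
    intro j
    rcases hb : b j with _ | _ | _
    · exact LdIn.unit my' (hp.b0 j hb)
    · have h1 := LdIn.unit my' (hp.bx j hb)
      have h2 : LdIn R (lD t y Dy) x := by
        refine ⟨hx0, ?_⟩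
        rw [lD_eq_zero hp.reg.yx, zero_div]
        exact R.zero_mem
      have h3 := h1.mul h2
      rwa [div_mul_cancel₀ _ hx0] at h3
    · have h1 := LdIn.unit my' (hp.by' j hb)
      have ht : t = true := hp.t_iff.2 ⟨j, hb⟩
      have h2 : LdIn R (lD t y Dy) y := by
        refine ⟨hy0, ?_⟩
        rw [ht]
        change (y • Dy) y / y ∈ R
        rw [Derivation.smul_apply, hp.reg.yy, smul_eq_mul, mul_one, div_self hy0]
        exact R.one_mem
      have h3 := h1.mul h2
      rwa [div_mul_cancel₀ _ hy0] at h3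
  have hγU : IsU A (wdeg e α) γ := isU_prod Finset.univ fun j _ => isU_zpow (hxi j) (α j)
  have hω : ∀ z : K, z / γ ∈ R → z ∈ A.s (wdeg e α) := by
    intro z hz
    have h1 := A.mul' (hR _ hz) hγU.2.1
    rwa [zero_add, div_mul_cancel₀ _ hγU.1] at h1
  have hωU : ∀ z : K, UnitIn R (z / γ) → IsU A (wdeg e α) z := by
    intro z hz
    have h1 := (isU_unit_mul (N := A) hR hz).mul hγU
    rwa [zero_add, div_mul_cancel₀ _ hγU.1] at h1
  refine ⟨![lD s x Dx, lD t y Dy], ![x, y], ![dx, dy], ?_, ?_, ?_, ?_, ?_, ?_⟩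
  · intro l
    fin_cases l
    · exact hN.pres hPt hR hp.gen hU' mx' lx
    · exact hN.pres hPt hR hp.gen hU' my' ly
  · intro l
    fin_cases l
    · exact hdx1
    · exact hdy1
  · have h1 := hdx2.mul hdy2
    rw [Fin.sum_univ_two]
    change IsU A (dx + dy) _
    convert h1 using 1
    rw [Matrix.det_fin_two]
    change lD s x Dx x * lD t y Dy y - lD s x Dx y * lD t y Dy x = _
    rw [lD_eq_zero hp.reg.xy, zero_mul, sub_zero]
  · intro i l
    fin_cases l
    · exact hω _ hA.ax
    · exact hω _ hA.ay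
  · intro i
    rcases hθ with hθ | hθ
    · right
      by_contra hcon
      push Not at hcon
      have n0 : ¬ UnitIn R (θ.ω (lD s x Dx) / γ) := fun h1 => hcon 0 (hωU _ h1)
      have n1 : ¬ UnitIn R (θ.ω (lD t y Dy) / γ) := fun h1 => hcon 1 (hωU _ h1)
      have key : ∀ z : R, z ∈ Jw θ R x y Dx Dy s t γ → ∃ u ∈ R, ∃ v ∈ R, (z : K) = x * u + y * v := by
        intro z hz
        induction hz using Submodule.span_induction with
        | mem w hw =>
          rcases hw with hw | hw | hw
          · exact ⟨0, R.zero_mem, 0, R.zero_mem, by rw [hw, hθ, zero_div]; ring⟩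
          · by_contra h1
            push Not at h1
            exact n0 (hw ▸ hp.reg.unitIn_of w.2 h1)
          · by_contra h1
            push Not at h1
            exact n1 (hw ▸ hp.reg.unitIn_of w.2 h1)
        | zero => exact ⟨0, R.zero_mem, 0, R.zero_mem, by simp⟩
        | add w w' _ _ ih ih' =>
          obtain ⟨u, hu, v, hv, e1⟩ := ih
          obtain ⟨u', hu', v', hv', e2⟩ := ih'
          refine ⟨u + u', R.add_mem hu hu', v + v', R.add_mem hv hv', ?_⟩
          rw [AddMemClass.coe_add, e1, e2]; ring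
        | smul r w _ ih =>
          obtain ⟨u, hu, v, hv, e1⟩ := ih
          refine ⟨r * u, R.mul_mem r.2 hu, r * v, R.mul_mem r.2 hv, ?_⟩
          rw [smul_eq_mul, MulMemClass.coe_mul, e1]; ring
      obtain ⟨u, hu, v, hv, e1⟩ := key 1 (by rw [hJ']; exact Submodule.mem_top)
      exact hp.reg.one u hu v hv e1
    · left
      exact hθ
  · intro l i i' hii
    exact absurd (Subsingleton.elim i i') hii

end Pool.Agent.MP_b525bf_ag_TS
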