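import Pool.Agent.Lib.MP_b525bf_ag_TS.Clean
import Pool.Agent.Lib.MP_b525bf_ag_TS.Init
import Pool.Agent.Lib.MP_b525bf_ag_TS.TorsC
import Pool.Agent.Lib.MP_b525bf_ag_TS.Prod
import Pool.Agent.Lib.MP_b525bf_ag_TS.Desc
import Pool.Agent.Lib.MP_b525bf_ag_TS.Hyp
import Pool.Agent.Lib.MP_b525bf_ag_TS.Deg
import Pool.Agent.Lib.MP_b525bf_ag_TS.PPow

/-!
# E: Theorem TS
-/

set_option autoImplicit false

namespace Pool.Agent.MP_b525bf_ag_TS

open Pool.Agent.MP_b525bf_ag Polynomial

/-- The inclusion of the rational functions in the `i`-th pair of variables. -/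
noncomputable abbrev inc {k : Type} [Field k] {n : ℕ} (i : Fin n) :
    KK k (Fin 2) →ₐ[k] KK k (Fin n × Fin 2) :=
  incl (fun j : Fin 2 => (i, j)) (Prod.mk_right_injective i)

theorem inc_algebraMap {k : Type} [Field k] {n : ℕ} (i : Fin n) (g : MvPolynomial (Fin 2) k) :
    inc i (algebraMap _ (KK k (Fin 2)) g) =
      algebraMap _ (KK k (Fin n × Fin 2)) (MvPolynomial.rename (fun j => (i, j)) g) := by
  unfold inc incl
  rw [IsFractionRing.liftAlgHom_apply, IsFractionRing.lift_algebraMap]
  rfl

section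

variable (p : ℕ) [hp : Fact p.Prime] {k : Type} [Field k] [IsAlgClosed k] [CharP k p]

/-- If all derivations of the field kill the polynomial then it is a `p`-th power. -/
theorem exists_pow_of_derivation {σ : Type} [Finite σ] (f : MvPolynomial σ k)
    (hf : ∀ D : Derivation k (KK k σ) (KK k σ), D (algebraMap _ (KK k σ) f) = 0) :
    ∃ F : MvPolynomial σ k, f = F ^ p := by
  refine exists_pow_of_pderiv p f fun i => ?_
  obtain ⟨D, hD⟩ := exists_partial (k := k) i
  have h1 := hf D
  rw [hD] at h1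
  exact (IsFractionRing.injective (MvPolynomial σ k) (KK k σ)) (by rw [h1, map_zero])

/-- From stages for the factors to the resolution of the hypersurface. -/
theorem hasResolution_of_stages (n : ℕ) (hn : 0 < n) (f : MvPolynomial (Fin n × Fin 2) k)
    (hfp : ∀ F : MvPolynomial (Fin n × Fin 2) k, f ≠ F ^ p)
    (ν : KK k (Fin n × Fin 2)) (l g : Fin n → KK k (Fin 2))
    (hst : ∀ i, HasStage (BB k (Fin 2)) 2 fun _ : Unit => lform (l i) (g i))
    (hf : ∀ D : Derivation k (KK k (Fin n × Fin 2)) (KK k (Fin n × Fin 2)),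
      D (algebraMap _ (KK k (Fin n × Fin 2)) f) =
        ν * ∑ i, inc i (l i) * D (inc i (g i))) :
    HasResolution k (AdjoinRoot (X ^ p - C f : Polynomial (MvPolynomial (Fin n × Fin 2) k))) := by
  have h1 := hasStage_pi n hn l g hst
  obtain ⟨m, hm⟩ : ∃ m, 2 * n = m + 1 := ⟨2 * n - 1, by omega⟩
  rw [hm] at h1
  refine hasResolution_hypersurface p f hfp ?_
  refine h1.hasResolution p ?_ (ν := ν) hf ?_
  · by_contra hcon
    push Not at hcon
    obtain ⟨F, hF⟩ := exists_pow_of_derivation p f (fun D => by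
      rw [hf D]
      have h2 : ∀ i, inc i (l i) * D (inc i (g i)) = 0 := fun i => by
        have h3 := congrArg (fun φ => φ D) (hcon i)
        exact h3
      simp only [h2, Finset.sum_const_zero, mul_zero])
    exact hfp F hF
  · refine finrank_Lf p (by simp [← hm, mul_comm]) _ fun w hw => ?_
    obtain ⟨F, hF⟩ := exists_pow_of_frac p f w hw
    exact hfp F hF

omit [IsAlgClosed k] in
/-- The partial derivatives of a sum of polynomials in separate variables which is a `p`-th power
vanish. -/
theorem pderiv_eq_zero_of_sum_eq_pow {n : ℕ} (g : Fin n → MvPolynomial (Fin 2) k)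
    {F : MvPolynomial (Fin n × Fin 2) k}
    (hF : ∑ i, MvPolynomial.rename (fun j => (i, j)) (g i) = F ^ p) (i : Fin n) (j : Fin 2) :
    MvPolynomial.pderiv j (g i) = 0 := by
  classical
  have h1 := congrArg (MvPolynomial.pderiv (i, j)) hF
  have hpz : ((p : ℕ) : MvPolynomial (Fin n × Fin 2) k) = 0 := CharP.cast_eq_zero _ p
  rw [MvPolynomial.pderiv_pow, hpz, zero_mul, zero_mul, map_sum, Finset.sum_eq_single i] at h1
  · have h2 := MvPolynomial.pderiv_rename (f := fun j : Fin 2 => (i, j))
      (Prod.mk_right_injective i) j (g i)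
    rw [h2] at h1
    exact MvPolynomial.rename_injective _ (Prod.mk_right_injective i) (by rw [h1, map_zero])
  · intro i' _ hi'
    refine MvPolynomial.pderiv_eq_zero_of_notMem_vars fun hmem => ?_
    obtain ⟨j', -, hj'⟩ := Finset.mem_image.1 (MvPolynomial.vars_rename _ _ hmem)
    exact hi' (congrArg Prod.fst hj')
  · intro h
    exact absurd (Finset.mem_univ _) h

/-- Theorem TS, first form. -/
theorem hasResolution_sum
    (n : ℕ) (hn : 0 < n) (g : Fin n → MvPolynomial (Fin 2) k)
    (hg : ∀ i, FiniteDimensional k (MvPolynomial (Fin 2) k ⧸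
      Ideal.span {MvPolynomial.pderiv 0 (g i), MvPolynomial.pderiv 1 (g i)})) :
    HasResolution k (AdjoinRoot (X ^ p - C (∑ i, MvPolynomial.rename (fun j => (i, j)) (g i)) :
      Polynomial (MvPolynomial (Fin n × Fin 2) k))) := by
  refine hasResolution_of_stages p n hn _ ?_ 1 (fun _ => 1)
    (fun i => algebraMap _ (KK k (Fin 2)) (g i)) ?_ ?_
  · intro F hF
    have h1 := pderiv_eq_zero_of_sum_eq_pow p g hF ⟨0, hn⟩
    have h2 := hg ⟨0, hn⟩
    rw [h1, h1, Set.pair_eq_singleton, Ideal.span_singleton_zero] at h2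
    have h3 : FiniteDimensional k (MvPolynomial (Fin 2) k) :=
      Module.Finite.equiv (AlgEquiv.quotientBot k (MvPolynomial (Fin 2) k)).toLinearEquiv
    have h4 : Algebra.IsIntegral k (MvPolynomial (Fin 2) k) := Algebra.IsIntegral.of_finite _ _
    exact MvPolynomial.transcendental_X (R := k) (0 : Fin 2) (h4.isIntegral _).isAlgebraic
  · intro i
    obtain ⟨E, i1, J, e, V, α, h1, -, h2⟩ :=
      (stage2_init (g i) (hg i) (fun j => j.elim) (fun j => j.elim) (fun j => j.elim)
        (fun j => j.elim)).exists_clean (BB_fg _) (lform_closed _)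
    exact h1.hasStage (BB_fg _) (Or.inl rfl) h2
  · intro D
    rw [map_sum, map_sum, one_mul]
    refine Finset.sum_congr rfl fun i _ => ?_
    rw [inc_algebraMap, map_one, one_mul]

end

end Pool.Agent.MP_b525bf_ag_TS
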