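import Pool.Agent.Lib.MP_b525bf_ag_TS.Add
import Pool.Agent.Lib.MP_b525bf_ag_TS.Clean
import Pool.Agent.Lib.MP_b525bf_ag_TS.TorsC

/-!
# F3: all closed rational forms on the plane
-/

set_option autoImplicit false

namespace Pool.Agent.MP_b525bf_ag_TS

open MvPolynomial

variable {k : Type} [Field k]

namespace PlaneAux

/-! ### Partial derivatives of prime polynomials -/

/-- A polynomial over a perfect field all of whose partial derivatives vanish is not prime. -/
theorem exists_pderiv_ne_zero [IsAlgClosed k] {σ : Type} {π : MvPolynomial σ k}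
    (hπ : Prime π) : ∃ i, pderiv i π ≠ 0 := by
  classical
  by_contra hcon
  push Not at hcon
  have key : ∀ m : σ →₀ ℕ, coeff m π ≠ 0 → ∀ i, (m i : k) = 0 := by
    intro m hm i
    by_cases hi : m i = 0
    · rw [hi, Nat.cast_zero]
    · have h1 : m = (m - Finsupp.single i 1) + Finsupp.single i 1 := by
        ext j
        by_cases hj : j = i
        · subst hj
          simp only [Finsupp.add_apply, Finsupp.tsub_apply, Finsupp.single_eq_same]
          omega
        · simp [Ne.symm hj]
      have h2 := coeff_pderiv (i := i) π (m - Finsupp.single i 1)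
      rw [hcon i, coeff_zero, ← h1] at h2
      have h3 := (mul_eq_zero.1 h2.symm).resolve_left hm
      have h4 : (((m - Finsupp.single i 1 : σ →₀ ℕ) i : ℕ) : k) + 1 = (m i : k) := by
        have : (m - Finsupp.single i 1 : σ →₀ ℕ) i + 1 = m i := by
          simp only [Finsupp.tsub_apply, Finsupp.single_eq_same]
          omega
        exact_mod_cast congrArg (Nat.cast : ℕ → k) this
      rwa [h4] at h3
  obtain ⟨p, hp⟩ := CharP.exists k
  rcases CharP.char_is_prime_or_zero k p with hpp | rfl
  · haveI : Fact p.Prime := ⟨hpp⟩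
    have hroot : ∀ c : k, ∃ z : k, z ^ p = c := fun c =>
      IsAlgClosed.exists_pow_nat_eq c hpp.pos
    choose r hr using hroot
    let g : MvPolynomial σ k := ∑ m ∈ π.support,
      monomial (m.mapRange (fun n => n / p) (Nat.zero_div p)) (r (coeff m π))
    have hg : π = g ^ p := by
      rw [sum_pow_char]
      conv_lhs => rw [as_sum π]
      refine Finset.sum_congr rfl fun m hm => ?_
      rw [monomial_pow, hr]
      have h5 : p • (m.mapRange (fun n => n / p) (Nat.zero_div p)) = m := by
        ext j
        rw [Finsupp.smul_apply, Finsupp.mapRange_apply, smul_eq_mul]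
        exact Nat.mul_div_cancel' ((CharP.cast_eq_zero_iff k p _).1
          (key m (mem_support_iff.1 hm) j))
      rw [h5]
    have h6 := hπ.irreducible
    have h7 : π = g * g ^ (p - 1) := by
      rw [← pow_succ', Nat.sub_add_cancel hpp.one_le]; exact hg
    rcases h6.isUnit_or_isUnit h7 with h8 | h8
    · exact hπ.not_isUnit (hg ▸ h8.pow p)
    · have h9 : p - 1 ≠ 0 := by have := hpp.two_le; omega
      have h10 : IsUnit g := (isUnit_pow_iff h9).1 h8
      exact hπ.not_isUnit (hg ▸ h10.pow p)
  · haveI : CharZero k := CharP.charP_to_charZero k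
    have h1 : π = C (coeff 0 π) := by
      ext m
      rw [coeff_C]
      split_ifs with h2
      · rw [h2]
      · by_contra h3
        apply h2
        ext i
        have := key m h3 i
        rw [Finsupp.zero_apply]
        exact (Nat.cast_eq_zero.1 this).symm
    have h2 : coeff 0 π ≠ 0 := by
      intro h3
      rw [h3, C_0] at h1
      exact hπ.ne_zero h1
    exact hπ.not_isUnit (h1 ▸ (isUnit_iff_ne_zero.2 h2).map C)

/-- A prime polynomial does not divide its nonzero partial derivatives. -/
theorem not_dvd_pderiv {σ : Type} {π : MvPolynomial σ k} (i : σ) (h : pderiv i π ≠ 0) :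
    ¬ π ∣ pderiv i π := by
  classical
  intro hdvd
  have h1 := totalDegree_le_of_dvd_of_isDomain hdvd h
  have h2 : (pderiv i π).totalDegree + 1 ≤ π.totalDegree := by
    obtain ⟨m, hm, hm'⟩ := Finset.exists_mem_eq_sup (pderiv i π).support
      (support_nonempty.2 h) (fun s => s.sum fun _ e => e)
    have h3 : (pderiv i π).totalDegree = m.sum fun _ e => e := hm'
    have h4 : m + Finsupp.single i 1 ∈ π.support := by
      rw [mem_support_iff] at hm ⊢
      rw [coeff_pderiv] at hm
      exact left_ne_zero_of_mul hm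
    have h5 := le_totalDegree h4
    rw [h3]
    rw [Finsupp.sum_add_index' (fun _ => rfl) (fun _ _ _ => rfl)] at h5
    rwa [Finsupp.sum_single_index rfl] at h5
  omega

/-! ### The local rings of the curves -/

theorem primeLoc_congr {π π' : MvPolynomial (Fin 2) k} (hπ : Prime π) (hπ' : Prime π')
    (h : Associated π π') : primeLoc π hπ = primeLoc π' hπ' := by
  ext z
  constructor
  · rintro ⟨a, b, hb, h1⟩
    exact ⟨a, b, fun h2 => hb (h.dvd.trans h2), h1⟩
  · rintro ⟨a, b, hb, h1⟩
    exact ⟨a, b, fun h2 => hb (h.symm.dvd.trans h2), h1⟩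

theorem algebraMap_mem_primeLoc {π : MvPolynomial (Fin 2) k} (hπ : Prime π)
    (a : MvPolynomial (Fin 2) k) : algebraMap _ (KK k (Fin 2)) a ∈ primeLoc π hπ :=
  ⟨a, 1, fun h => hπ.not_isUnit (isUnit_of_dvd_one h), by rw [map_one, mul_one]⟩

theorem algebraMap_inj {a b : MvPolynomial (Fin 2) k}
    (h : algebraMap _ (KK k (Fin 2)) a = algebraMap _ (KK k (Fin 2)) b) : a = b :=
  IsFractionRing.injective (MvPolynomial (Fin 2) k) (KK k (Fin 2)) h

/-- If the fraction `a / b` vanishes on the curve then `π` divides `a`. -/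
theorem dvd_of_vanish {π : MvPolynomial (Fin 2) k} (hπ : Prime π) {z : KK k (Fin 2)}
    (hz : Vanish π hπ z) {a b : MvPolynomial (Fin 2) k}
    (h : z * algebraMap _ (KK k (Fin 2)) b = algebraMap _ (KK k (Fin 2)) a) : π ∣ a := by
  obtain ⟨w, ⟨c, d, hd, hw⟩, rfl⟩ := hz
  have h1 : a * d = π * (c * b) := by
    apply algebraMap_inj
    rw [map_mul, map_mul, map_mul, ← h, ← hw]
    ring
  have h2 : π ∣ a * d := ⟨_, h1⟩
  exact (hπ.dvd_or_dvd h2).resolve_right hd

/-! ### Derivations -/

/-- Derivations of the field of rational functions are determined by their values at the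
variables. -/
theorem deriv_ext {D D' : Derivation k (KK k (Fin 2)) (KK k (Fin 2))}
    (h : ∀ i : Fin 2, D (algebraMap (MvPolynomial (Fin 2) k) (KK k (Fin 2)) (X i)) =
      D' (algebraMap (MvPolynomial (Fin 2) k) (KK k (Fin 2)) (X i))) : D = D' := by
  have h1 : D.compAlgebraMap (MvPolynomial (Fin 2) k) =
      D'.compAlgebraMap (MvPolynomial (Fin 2) k) := MvPolynomial.derivation_ext h
  have h2 : ∀ a : MvPolynomial (Fin 2) k, D (algebraMap _ (KK k (Fin 2)) a) =
      D' (algebraMap _ (KK k (Fin 2)) a) := fun a => congrArg (fun E : Derivation k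
        (MvPolynomial (Fin 2) k) (KK k (Fin 2)) => E a) h1
  ext z
  obtain ⟨a, b, hb, rfl⟩ := IsFractionRing.div_surjective (A := MvPolynomial (Fin 2) k) z
  have hb0 : algebraMap (MvPolynomial (Fin 2) k) (KK k (Fin 2)) b ≠ 0 :=
    (map_ne_zero_iff _ (IsFractionRing.injective _ _)).2 (nonZeroDivisors.ne_zero hb)
  rw [Derivation.leibniz_div, Derivation.leibniz_div, h2, h2]

/-- The form `ω` vanishes if it vanishes on the partial derivatives. -/
theorem form_eq_zero {ω : Derivation k (KK k (Fin 2)) (KK k (Fin 2)) →ₗ[KK k (Fin 2)] KK k (Fin 2)}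
    {D : Fin 2 → Derivation k (KK k (Fin 2)) (KK k (Fin 2))}
    (hD : ∀ i, ∀ g : MvPolynomial (Fin 2) k, D i (algebraMap _ (KK k (Fin 2)) g) =
      algebraMap _ (KK k (Fin 2)) (pderiv i g))
    (h : ∀ i, ω (D i) = 0) : ω = 0 := by
  classical
  ext E
  have h1 : E = E (algebraMap (MvPolynomial (Fin 2) k) (KK k (Fin 2)) (X 0)) • D 0 +
      E (algebraMap (MvPolynomial (Fin 2) k) (KK k (Fin 2)) (X 1)) • D 1 := by
    apply deriv_ext
    intro j
    rw [Derivation.add_apply, Derivation.smul_apply, Derivation.smul_apply, hD, hD, pderiv_X,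
      pderiv_X]
    fin_cases j
    · simp
    · simp
  rw [h1, map_add, map_smul, map_smul, h, h, smul_zero, smul_zero, add_zero,
    LinearMap.zero_apply]

theorem partial_unique {D D' : Fin 2 → Derivation k (KK k (Fin 2)) (KK k (Fin 2))}
    (hD : ∀ i, ∀ g : MvPolynomial (Fin 2) k, D i (algebraMap _ (KK k (Fin 2)) g) =
      algebraMap _ (KK k (Fin 2)) (pderiv i g))
    (hD' : ∀ i, ∀ g : MvPolynomial (Fin 2) k, D' i (algebraMap _ (KK k (Fin 2)) g) =
      algebraMap _ (KK k (Fin 2)) (pderiv i g)) : D = D' := by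
  funext i
  exact deriv_ext fun j => by rw [hD, hD']

/-- The form `l dg` is closed. -/
theorem lform_closed' {K : Type} [Field K] [Algebra k K] {l g : K}
    (hc : ∀ D D' : Derivation k K K, D l * D' g = D' l * D g) (D D' : Derivation k K K) :
    D (lform l g D') - D' (lform l g D) = lform l g ⁅D, D'⁆ := by
  change D (l * D' g) - D' (l * D g) = l * ⁅D, D'⁆ g
  rw [Derivation.leibniz, Derivation.leibniz, Derivation.commutator_apply, smul_eq_mul,
    smul_eq_mul, smul_eq_mul, smul_eq_mul]
  have := hc D D'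
  linear_combination this

/-! ### Boundaries -/

variable {E : Type} [Fintype E] {J : E → Ideal (BB k (Fin 2))} {e : E → E → ℤ}
  {V : E → Subalgebra k (KK k (Fin 2))}

/-- Forgetting the object. -/
theorem nc2_of_stage {θ : Obj k (KK k (Fin 2))} {α : E → ℤ}
    (h : Stage2 (BB k (Fin 2)) θ J e V α) : Nc2 (BB k (Fin 2)) J e V where
  ne := h.ne
  span := h.span
  pt R hR := by
    obtain ⟨g, x, y, Dx, Dy, s, t, b, hp, -⟩ := h.pt R hR
    exact ⟨g, x, y, Dx, Dy, s, t, b, hp⟩

/-- A curve which is a component at one point is in the boundary. -/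
theorem inBd_of_component (h : Nc2 (BB k (Fin 2)) J e V) {W : Subalgebra k (KK k (Fin 2))}
    {j : E} {R : Subalgebra k (KK k (Fin 2))}
    {g : E → KK k (Fin 2)} {x y : KK k (Fin 2)}
    {Dx Dy : Derivation k (KK k (Fin 2)) (KK k (Fin 2))} {s t : Bool} {b : E → Option Bool}
    (hp : PtNc (BB k (Fin 2)) J e V R g x y Dx Dy s t b) (hj : b j ≠ none) (hW : V j = W) :
    InBd (BB k (Fin 2)) J e V W := by
  intro R' hR' hle
  obtain ⟨g', x', y', Dx', Dy', s', t', b', hp'⟩ := h.pt R' hR'
  refine ⟨g', x', y', Dx', Dy', s', t', b', hp', j, ?_, hW⟩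
  rw [← hW] at hle
  exact (h.passes_iff hR' hp hp' hj).1 hle

end PlaneAux

open PlaneAux

/-- Embedded resolution of plane curves: every finite set of curves is contained in the boundary of
a model. -/
theorem exists_nc2 [IsAlgClosed k] (S : Finset (MvPolynomial (Fin 2) k)) :
    ∃ (E : Type) (_ : Fintype E) (J : E → Ideal (BB k (Fin 2))) (e : E → E → ℤ)
      (V : E → Subalgebra k (KK k (Fin 2))), Nc2 (BB k (Fin 2)) J e V ∧
      ∀ π ∈ S, ∀ hπ : Prime π, InBd (BB k (Fin 2)) J e V (primeLoc π hπ) := by
  classical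
  induction S using Finset.induction_on with
  | empty =>
    refine ⟨Empty, inferInstance, fun i => i.elim, fun i => i.elim, fun i => i.elim,
      nc2_init _ _ _, ?_⟩
    intro π hπ
    simp at hπ
  | insert π S _ ih =>
    obtain ⟨E, _, J, e, V, hnc, hS⟩ := ih
    by_cases hπ : Prime π
    · by_cases hin : InBd (BB k (Fin 2)) J e V (primeLoc π hπ)
      · refine ⟨E, inferInstance, J, e, V, hnc, fun π' h' hπ' => ?_⟩
        rcases Finset.mem_insert.1 h' with rfl | h'
        · exact hin
        · exact hS π' h' hπ'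
      · -- the curve is not yet in the boundary
        have hgood : ∀ (π' : MvPolynomial (Fin 2) k) (hπ' : Prime π'),
            InBd (BB k (Fin 2)) J e V (primeLoc π' hπ') ∨ (curveObj π).GoodOn π' hπ' := by
          intro π' hπ'
          right
          intro D hD
          have e1 : ∀ i, (curveObj π).ω (D i) =
              algebraMap _ (KK k (Fin 2)) (pderiv i π) := by
            intro i
            change 1 * D i (algebraMap _ (KK k (Fin 2)) π) = _
            rw [one_mul, hD]
          refine ⟨algebraMap_mem_primeLoc hπ' π, fun i => ?_, ?_⟩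
          · rw [e1]; exact algebraMap_mem_primeLoc hπ' _
          · rintro ⟨h1, h2⟩
            have h3 : π' ∣ π := dvd_of_vanish hπ' (b := 1) h1 (by
              rw [map_one, mul_one]; rfl)
            have h4 : Associated π' π := hπ'.associated_of_dvd hπ h3
            obtain ⟨i, hi⟩ := exists_pderiv_ne_zero hπ
            have h5 : π' ∣ pderiv i π := dvd_of_vanish hπ' (b := 1) (h2 i) (by
              rw [map_one, mul_one, e1])
            exact not_dvd_pderiv i hi (h4.symm.dvd.trans h5)
        obtain ⟨α, hst⟩ := hnc.exists_stage2 (θ := curveObj π)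
          (Or.inl ((map_ne_zero_iff _ (IsFractionRing.injective _ _)).2 hπ.ne_zero)) hgood
        have hclosed : (curveObj π).Closed := by
          refine ⟨fun D D' => ?_, Or.inr fun D => one_mul _⟩
          exact lform_closed' (fun D D' => by
            rw [Derivation.map_one_eq_zero, Derivation.map_one_eq_zero, zero_mul, zero_mul]) D D'
        obtain ⟨E', _, J', e', V', α', hst', hin', hclean⟩ :=
          hst.exists_clean (BB_fg (Fin 2)) hclosed
        by_cases hin2 : InBd (BB k (Fin 2)) J' e' V' (primeLoc π hπ)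
        · refine ⟨E', inferInstance, J', e', V', nc2_of_stage hst', fun π' h' hπ' => ?_⟩
          rcases Finset.mem_insert.1 h' with rfl | h'
          · exact hin2
          · exact hin' _ (hS π' h' hπ')
        · obtain ⟨J'', e'', V'', h1, h2, h3⟩ := hst'.add_curve hπ (by
            intro j R g x y Dx Dy s t b hR hp hj hV
            exact hin2 (inBd_of_component (nc2_of_stage hst') hp hj hV)) hclean
          refine ⟨Option E', inferInstance, J'', e'', V'', h1, fun π' h' hπ' => ?_⟩
          rcases Finset.mem_insert.1 h' with rfl | h'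
          · exact h3
          · exact h2 _ (hin' _ (hS π' h' hπ'))
    · refine ⟨E, inferInstance, J, e, V, hnc, fun π' h' hπ' => ?_⟩
      rcases Finset.mem_insert.1 h' with rfl | h'
      · exact absurd hπ' hπ
      · exact hS π' h' hπ'

/-- Every closed form `l dg` on the plane has a stage. -/
theorem hasStage_plane [IsAlgClosed k] (l g : KK k (Fin 2))
    (hc : ∀ D D' : Derivation k (KK k (Fin 2)) (KK k (Fin 2)), D l * D' g = D' l * D g) :
    HasStage (BB k (Fin 2)) 2 fun _ : Unit => lform l g := by
  classical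
  have hpart : ∀ i : Fin 2, ∃ D : Derivation k (KK k (Fin 2)) (KK k (Fin 2)),
      ∀ g : MvPolynomial (Fin 2) k, D (algebraMap _ (KK k (Fin 2)) g) =
        algebraMap _ (KK k (Fin 2)) (pderiv i g) := fun i => exists_partial i
  choose D hD using hpart
  by_cases h0 : (lform l g : Derivation k (KK k (Fin 2)) (KK k (Fin 2)) →ₗ[KK k (Fin 2)]
      KK k (Fin 2)) = 0
  · -- the zero form
    obtain ⟨E, _, J, e, V, hnc, -⟩ := exists_nc2 (k := k) ∅
    have hgood : ∀ (π' : MvPolynomial (Fin 2) k) (hπ' : Prime π'),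
        InBd (BB k (Fin 2)) J e V (primeLoc π' hπ') ∨
        (⟨1, 0⟩ : Obj k (KK k (Fin 2))).GoodOn π' hπ' := by
      intro π' hπ'
      right
      intro D _
      refine ⟨one_mem _, fun i => zero_mem _, ?_⟩
      rintro ⟨h1, -⟩
      have h3 : π' ∣ 1 := dvd_of_vanish hπ' (a := 1) (b := 1) h1 (by
        rw [map_one, mul_one])
      exact hπ'.not_isUnit (isUnit_of_dvd_one h3)
    obtain ⟨α, hst⟩ := hnc.exists_stage2 (θ := ⟨1, 0⟩) (Or.inl one_ne_zero) hgood
    have hclosed : (⟨1, 0⟩ : Obj k (KK k (Fin 2))).Closed := by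
      refine ⟨fun D D' => ?_, Or.inr fun D => ?_⟩
      · simp
      · simp
    obtain ⟨E', _, J', e', V', α', hst', -, hclean⟩ :=
      hst.exists_clean (BB_fg (Fin 2)) hclosed
    have h1 := hst'.hasStage (BB_fg (Fin 2)) (Or.inr rfl) hclean
    rw [h0]
    exact h1
  · -- numerators and denominators of the coefficients
    have hfrac : ∀ i, ∃ a b : MvPolynomial (Fin 2) k, b ≠ 0 ∧
        lform l g (D i) * algebraMap _ (KK k (Fin 2)) b = algebraMap _ (KK k (Fin 2)) a := by
      intro i
      obtain ⟨a, b, hb, h1⟩ := IsFractionRing.div_surjective (A := MvPolynomial (Fin 2) k)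
        (lform l g (D i))
      have hb0 : algebraMap (MvPolynomial (Fin 2) k) (KK k (Fin 2)) b ≠ 0 :=
        (map_ne_zero_iff _ (IsFractionRing.injective _ _)).2 (nonZeroDivisors.ne_zero hb)
      exact ⟨a, b, nonZeroDivisors.ne_zero hb, by rw [← h1, div_mul_cancel₀ _ hb0]⟩
    choose a b hb hab using hfrac
    obtain ⟨i₀, hi₀⟩ : ∃ i, lform l g (D i) ≠ 0 := by
      by_contra hcon
      push Not at hcon
      exact h0 (form_eq_zero hD hcon)
    have ha₀ : a i₀ ≠ 0 := by
      intro h1
      have h2 := hab i₀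
      rw [h1, map_zero] at h2
      have hb0 : algebraMap (MvPolynomial (Fin 2) k) (KK k (Fin 2)) (b i₀) ≠ 0 :=
        (map_ne_zero_iff _ (IsFractionRing.injective _ _)).2 (hb i₀)
      exact hi₀ ((mul_eq_zero.1 h2).resolve_right hb0)
    let T : Multiset (MvPolynomial (Fin 2) k) :=
      UniqueFactorizationMonoid.factors (a i₀) +
        ∑ i, UniqueFactorizationMonoid.factors (b i)
    obtain ⟨E, _, J, e, V, hnc, hS⟩ := exists_nc2 (k := k) T.toFinset
    have hgood : ∀ (π : MvPolynomial (Fin 2) k) (hπ : Prime π),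
        InBd (BB k (Fin 2)) J e V (primeLoc π hπ) ∨
        (⟨0, lform l g⟩ : Obj k (KK k (Fin 2))).GoodOn π hπ := by
      intro π hπ
      by_cases hdvd : π ∣ a i₀ ∨ ∃ i, π ∣ b i
      · left
        have h1 : ∃ π' ∈ T, Associated π π' := by
          rcases hdvd with h1 | ⟨i, h1⟩
          · obtain ⟨π', h2, h3⟩ := UniqueFactorizationMonoid.exists_mem_factors_of_dvd ha₀
              hπ.irreducible h1
            exact ⟨π', Multiset.mem_add.2 (Or.inl h2), h3⟩
          · obtain ⟨π', h2, h3⟩ := UniqueFactorizationMonoid.exists_mem_factors_of_dvd (hb i)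
              hπ.irreducible h1
            exact ⟨π', Multiset.mem_add.2 (Or.inr (Multiset.mem_sum.2
              ⟨i, Finset.mem_univ i, h2⟩)), h3⟩
        obtain ⟨π', h2, h3⟩ := h1
        have hπ' : Prime π' := h3.prime hπ
        rw [primeLoc_congr hπ hπ' h3]
        exact hS π' (Multiset.mem_toFinset.2 h2) hπ'
      · right
        push Not at hdvd
        intro D' hD'
        have hDD : D' = D := partial_unique hD' hD
        subst hDD
        refine ⟨zero_mem _, fun i => ⟨a i, b i, hdvd.2 i, hab i⟩, ?_⟩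
        rintro ⟨-, h1⟩
        exact hdvd.1 (dvd_of_vanish hπ (h1 i₀) (hab i₀))
    obtain ⟨α, hst⟩ := hnc.exists_stage2 (θ := ⟨0, lform l g⟩) (Or.inr h0) hgood
    have hclosed : (⟨0, lform l g⟩ : Obj k (KK k (Fin 2))).Closed :=
      ⟨lform_closed' hc, Or.inl rfl⟩
    obtain ⟨E', _, J', e', V', α', hst', -, hclean⟩ :=
      hst.exists_clean (BB_fg (Fin 2)) hclosed
    exact hst'.hasStage (BB_fg (Fin 2)) (Or.inl rfl) hclean

end Pool.Agent.MP_b525bf_ag_TS
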