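import Pool.Agent.Lib.MP_b525bf_ag_TS.Final
import Pool.Agent.Lib.MP_b525bf_ag_TS.Plane

/-!
# E2: Theorem TS, general form
-/

set_option autoImplicit false

namespace Pool.Agent.MP_b525bf_ag_TS

open Pool.Agent.MP_b525bf_ag Polynomial

/-- Logarithmic derivatives of products. -/
theorem derivation_prod {k K I : Type} [Field k] [Field K] [Algebra k K] (D : Derivation k K K)
    (s : Finset I) (G : I → K) (hG : ∀ i ∈ s, G i ≠ 0) :
    D (∏ i ∈ s, G i) = (∏ i ∈ s, G i) * ∑ i ∈ s, (G i)⁻¹ * D (G i) := by
  classical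
  induction s using Finset.induction_on with
  | empty => rw [Finset.prod_empty, Finset.sum_empty, D.map_one_eq_zero, mul_zero]
  | insert i s his ih =>
    rw [Finset.prod_insert his, Finset.sum_insert his, Derivation.leibniz,
      ih fun j hj => hG j (Finset.mem_insert_of_mem hj)]
    have h0 := hG i (Finset.mem_insert_self _ _)
    simp only [smul_eq_mul]
    field_simp
    ring

section

variable (p : ℕ) [Fact p.Prime] {k : Type} [Field k] [IsAlgClosed k] [CharP k p]

/-- Theorem TS: the polynomial `f` is not a `p`-th power and `df = ν (ω₁ + ... + ωₙ)` with closed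
rational forms `ωᵢ = lᵢ dgᵢ` in the `i`-th pair of variables. -/
theorem hasResolution_separated (n : ℕ) (hn : 0 < n) (f : MvPolynomial (Fin n × Fin 2) k)
    (hfp : ∀ F : MvPolynomial (Fin n × Fin 2) k, f ≠ F ^ p)
    (ν : KK k (Fin n × Fin 2)) (l g : Fin n → KK k (Fin 2))
    (hc : ∀ i, ∀ D D' : Derivation k (KK k (Fin 2)) (KK k (Fin 2)),
      D (l i) * D' (g i) = D' (l i) * D (g i))
    (hf : ∀ D : Derivation k (KK k (Fin n × Fin 2)) (KK k (Fin n × Fin 2)),
      D (algebraMap _ (KK k (Fin n × Fin 2)) f) =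
        ν * ∑ i, inc i (l i) * D (inc i (g i))) :
    HasResolution k (AdjoinRoot (X ^ p - C f : Polynomial (MvPolynomial (Fin n × Fin 2) k))) :=
  hasResolution_of_stages p n hn f hfp ν l g (fun i => hasStage_plane (l i) (g i) (hc i)) hf

/-- Sums of arbitrary polynomials in two variables. -/
theorem hasResolution_sum_all (n : ℕ) (hn : 0 < n) (g : Fin n → MvPolynomial (Fin 2) k)
    (hfp : ∀ F : MvPolynomial (Fin n × Fin 2) k,
      ∑ i, MvPolynomial.rename (fun j => (i, j)) (g i) ≠ F ^ p) :
    HasResolution k (AdjoinRoot (X ^ p - C (∑ i, MvPolynomial.rename (fun j => (i, j)) (g i)) :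
      Polynomial (MvPolynomial (Fin n × Fin 2) k))) := by
  refine hasResolution_separated p n hn _ hfp 1 (fun _ => 1)
    (fun i => algebraMap _ (KK k (Fin 2)) (g i)) ?_ ?_
  · intro i D D'
    rw [D.map_one_eq_zero, D'.map_one_eq_zero, zero_mul, zero_mul]
  · intro D
    rw [map_sum, map_sum, one_mul]
    refine Finset.sum_congr rfl fun i _ => ?_
    rw [inc_algebraMap, map_one, one_mul]

/-- Products of arbitrary polynomials in two variables. -/
theorem hasResolution_prod_all (n : ℕ) (hn : 0 < n) (g : Fin n → MvPolynomial (Fin 2) k)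
    (hfp : ∀ F : MvPolynomial (Fin n × Fin 2) k,
      ∏ i, MvPolynomial.rename (fun j => (i, j)) (g i) ≠ F ^ p) :
    HasResolution k (AdjoinRoot (X ^ p - C (∏ i, MvPolynomial.rename (fun j => (i, j)) (g i)) :
      Polynomial (MvPolynomial (Fin n × Fin 2) k))) := by
  have hp : p.Prime := Fact.out
  have hg0 : ∀ i, g i ≠ 0 := by
    intro i hi
    refine hfp 0 ?_
    rw [zero_pow hp.ne_zero]
    exact Finset.prod_eq_zero (Finset.mem_univ i) (by rw [hi, map_zero])
  refine hasResolution_separated p n hn _ hfp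
    (algebraMap _ (KK k (Fin n × Fin 2)) (∏ i, MvPolynomial.rename (fun j => (i, j)) (g i)))
    (fun i => (algebraMap _ (KK k (Fin 2)) (g i))⁻¹)
    (fun i => algebraMap _ (KK k (Fin 2)) (g i)) ?_ ?_
  · intro i D D'
    rw [Derivation.leibniz_inv, Derivation.leibniz_inv]
    simp only [smul_eq_mul]
    ring
  · intro D
    rw [map_prod, derivation_prod D]
    · congr 1
      refine Finset.sum_congr rfl fun i _ => ?_
      rw [inc_algebraMap, map_inv₀, inc_algebraMap]
    · intro i _ h
      rw [FaithfulSMul.algebraMap_eq_zero_iff] at h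
      exact hg0 i (MvPolynomial.rename_injective _ (Prod.mk_right_injective i)
        (by rw [h, map_zero]))

end

end Pool.Agent.MP_b525bf_ag_TS
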