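import Pool.Agent.Lib.MP_b525bf_ag_TS.Final2
import Pool.Agent.Lib.MP_b525bf_ag_TS.CurveStage
import Pool.Agent.Lib.MP_b525bf_ag_TS.Blocks

/-!
# E3: Theorem TS for blocks of at most two variables
-/

set_option autoImplicit false

namespace Pool.Agent.MP_b525bf_ag_TS

open Pool.Agent.MP_b525bf_ag Polynomial

/-- The inclusion of the field of rational functions in the variables of the `i`-th block. -/
noncomputable def incB {k : Type} [Field k] {n : ℕ} {s : Fin n → ℕ} (i : Fin n) :
    KK k (Fin (s i)) →ₐ[k] KK k ((i : Fin n) × Fin (s i)) :=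
  incl (Sigma.mk (β := fun i => Fin (s i)) i) sigma_mk_injective

theorem incB_algebraMap {k : Type} [Field k] {n : ℕ} {s : Fin n → ℕ} (i : Fin n)
    (g : MvPolynomial (Fin (s i)) k) :
    incB i (algebraMap _ (KK k (Fin (s i))) g) =
      algebraMap _ (KK k ((i : Fin n) × Fin (s i)))
        (MvPolynomial.rename (fun j => (⟨i, j⟩ : (i : Fin n) × Fin (s i))) g) :=
  ProdStage.incl_algebraMap _ _ g

section

variable (p : ℕ) [hp : Fact p.Prime] {k : Type} [Field k] [IsAlgClosed k] [CharP k p]

/-- Every closed form in at most two variables has a stage. -/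
theorem hasStage_small (s : ℕ) (hs : s ≤ 2) (l g : KK k (Fin s))
    (hc : ∀ D D' : Derivation k (KK k (Fin s)) (KK k (Fin s)), D l * D' g = D' l * D g) :
    HasStage (BB k (Fin s)) s fun _ : Unit => lform l g := by
  match s, hs, l, g, hc with
  | 0, _, l, g, _ => exact hasStage_fin_zero l g
  | 1, _, l, g, _ => exact hasStage_line l g
  | 2, _, l, g, hc => exact hasStage_plane l g hc

/-- Theorem TS. The variables are divided into blocks of at most two variables. The polynomial `f`
is not a `p`-th power and `df = ν (ω₁ + ... + ωₙ)` with closed rational forms `ωᵢ = lᵢ dgᵢ` in the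
variables of the `i`-th block. Then the hypersurface `z ^ p = f` has a resolution. -/
theorem hasResolution_blocks (n : ℕ) (s : Fin n → ℕ) (hs : ∀ i, s i ≤ 2)
    (f : MvPolynomial ((i : Fin n) × Fin (s i)) k)
    (hfp : ∀ F : MvPolynomial ((i : Fin n) × Fin (s i)) k, f ≠ F ^ p)
    (ν : KK k ((i : Fin n) × Fin (s i))) (l g : ∀ i, KK k (Fin (s i)))
    (hc : ∀ i, ∀ D D' : Derivation k (KK k (Fin (s i))) (KK k (Fin (s i))),
      D (l i) * D' (g i) = D' (l i) * D (g i))
    (hf : ∀ D : Derivation k (KK k ((i : Fin n) × Fin (s i))) (KK k ((i : Fin n) × Fin (s i))),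
      D (algebraMap _ (KK k ((i : Fin n) × Fin (s i))) f) =
        ν * ∑ i, incB i (l i) * D (incB i (g i))) :
    HasResolution k
      (AdjoinRoot (X ^ p - C f : Polynomial (MvPolynomial ((i : Fin n) × Fin (s i)) k))) := by
  have h1 := hasStage_sigma n s l g fun i => hasStage_small (s i) (hs i) (l i) (g i) (hc i)
  refine hasResolution_hypersurface p f hfp ?_
  have hpos : 0 < ∑ i, s i := by
    by_contra hcon
    have h0 : ∀ i, s i = 0 := by simpa using hcon
    have : IsEmpty ((i : Fin n) × Fin (s i)) := ⟨fun x => by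
      have := x.2.2
      have := h0 x.1
      omega⟩
    obtain ⟨c, hc⟩ := MvPolynomial.C_surjective ((i : Fin n) × Fin (s i)) f
    obtain ⟨r, hr⟩ := IsAlgClosed.exists_pow_nat_eq c hp.out.pos
    exact hfp (MvPolynomial.C r) (by rw [← map_pow, hr, hc])
  obtain ⟨m, hm⟩ : ∃ m, ∑ i, s i = m + 1 := ⟨∑ i, s i - 1, by omega⟩
  rw [hm] at h1
  refine h1.hasResolution p ?_ (ν := ν) hf ?_
  · by_contra hcon
    push Not at hcon
    obtain ⟨F, hF⟩ := exists_pow_of_derivation p f (fun D => by
      rw [hf D]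
      have h2 : ∀ i, incB i (l i) * D (incB i (g i)) = 0 := fun i => by
        have h3 := congrArg (fun φ => φ D) (hcon i)
        exact h3
      simp only [h2, Finset.sum_const_zero, mul_zero])
    exact hfp F hF
  · refine finrank_Lf p (by simp [← hm]) _ fun w hw => ?_
    obtain ⟨F, hF⟩ := exists_pow_of_frac p f w hw
    exact hfp F hF

/-- Sums of arbitrary polynomials in blocks of at most two variables. -/
theorem hasResolution_blocks_sum (n : ℕ) (s : Fin n → ℕ) (hs : ∀ i, s i ≤ 2)
    (g : ∀ i, MvPolynomial (Fin (s i)) k)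
    (hfp : ∀ F : MvPolynomial ((i : Fin n) × Fin (s i)) k,
      ∑ i, MvPolynomial.rename (fun j => (⟨i, j⟩ : (i : Fin n) × Fin (s i))) (g i) ≠ F ^ p) :
    HasResolution k (AdjoinRoot (X ^ p - C (∑ i, MvPolynomial.rename
      (fun j => (⟨i, j⟩ : (i : Fin n) × Fin (s i))) (g i)) :
      Polynomial (MvPolynomial ((i : Fin n) × Fin (s i)) k))) := by
  refine hasResolution_blocks p n s hs _ hfp 1 (fun _ => 1)
    (fun i => algebraMap _ (KK k (Fin (s i))) (g i)) ?_ ?_
  · intro i D D'
    rw [D.map_one_eq_zero, D'.map_one_eq_zero, zero_mul, zero_mul]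
  · intro D
    rw [map_sum, map_sum, one_mul]
    refine Finset.sum_congr rfl fun i _ => ?_
    rw [incB_algebraMap, map_one, one_mul]

/-- Products of arbitrary polynomials in blocks of at most two variables. -/
theorem hasResolution_blocks_prod (n : ℕ) (s : Fin n → ℕ) (hs : ∀ i, s i ≤ 2)
    (g : ∀ i, MvPolynomial (Fin (s i)) k)
    (hfp : ∀ F : MvPolynomial ((i : Fin n) × Fin (s i)) k,
      ∏ i, MvPolynomial.rename (fun j => (⟨i, j⟩ : (i : Fin n) × Fin (s i))) (g i) ≠ F ^ p) :
    HasResolution k (AdjoinRoot (X ^ p - C (∏ i, MvPolynomial.rename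
      (fun j => (⟨i, j⟩ : (i : Fin n) × Fin (s i))) (g i)) :
      Polynomial (MvPolynomial ((i : Fin n) × Fin (s i)) k))) := by
  have hg0 : ∀ i, g i ≠ 0 := by
    intro i hi
    refine hfp 0 ?_
    rw [zero_pow hp.out.ne_zero]
    exact Finset.prod_eq_zero (Finset.mem_univ i) (by rw [hi, map_zero])
  refine hasResolution_blocks p n s hs _ hfp
    (algebraMap _ (KK k ((i : Fin n) × Fin (s i))) (∏ i, MvPolynomial.rename
      (fun j => (⟨i, j⟩ : (i : Fin n) × Fin (s i))) (g i)))
    (fun i => (algebraMap _ (KK k (Fin (s i))) (g i))⁻¹)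
    (fun i => algebraMap _ (KK k (Fin (s i))) (g i)) ?_ ?_
  · intro i D D'
    rw [Derivation.leibniz_inv, Derivation.leibniz_inv]
    simp only [smul_eq_mul]
    ring
  · intro D
    rw [map_prod, derivation_prod D]
    · congr 1
      refine Finset.sum_congr rfl fun i _ => ?_
      rw [incB_algebraMap, map_inv₀, incB_algebraMap]
    · intro i _ h
      rw [FaithfulSMul.algebraMap_eq_zero_iff] at h
      exact hg0 i (MvPolynomial.rename_injective _
        (sigma_mk_injective (β := fun i : Fin n => Fin (s i))) (by rw [map_zero]; exact h))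

end

end Pool.Agent.MP_b525bf_ag_TS
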