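import Pool.Agent.Lib.MP_b525bf_ag_TS.Hyp
import Pool.Agent.Lib.MP_b525bf_ag_TS.DefsR

/-!
# R3: several purely inseparable equations
-/

set_option autoImplicit false
set_option linter.unusedSectionVars false

namespace Pool.Agent.MP_b525bf_ag_TS

open Pool.Agent.MP_b525bf_ag

namespace R3

section Gen

variable {R : Type} [CommRing R] {r : ℕ} (p : ℕ) (f : Fin r → R)

/-- The ideal of the equations. -/
noncomputable abbrev eqs : Ideal (MvPolynomial (Fin r) R) :=
  Ideal.span (Set.range fun j : Fin r => MvPolynomial.X (R := R) j ^ p - MvPolynomial.C (f j))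

/-- The monomials with exponents less than `p`. -/
noncomputable def mono (e : Fin r → Fin p) : MvPolynomial (Fin r) R :=
  ∏ j, MvPolynomial.X j ^ (e j : ℕ)

/-- `q` is congruent to a combination of the monomials. -/
def Comb (q : MvPolynomial (Fin r) R) : Prop :=
  ∃ c : (Fin r → Fin p) → R, q - ∑ e, MvPolynomial.C (c e) * mono p e ∈ eqs p f

theorem Comb.congr {q q' : MvPolynomial (Fin r) R} (h : Comb p f q) (h' : q' - q ∈ eqs p f) :
    Comb p f q' := by
  obtain ⟨c, hc⟩ := h
  refine ⟨c, ?_⟩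
  have := (eqs p f).add_mem h' hc
  rwa [sub_add_sub_cancel] at this

theorem Comb.add {q q' : MvPolynomial (Fin r) R} (h : Comb p f q) (h' : Comb p f q') :
    Comb p f (q + q') := by
  obtain ⟨c, hc⟩ := h
  obtain ⟨d, hd⟩ := h'
  refine ⟨c + d, ?_⟩
  have h1 := (eqs p f).add_mem hc hd
  have h2 : ∑ e, MvPolynomial.C ((c + d) e) * mono (R := R) p e =
      ∑ e, MvPolynomial.C (c e) * mono p e + ∑ e, MvPolynomial.C (d e) * mono p e := by
    rw [← Finset.sum_add_distrib]
    refine Finset.sum_congr rfl fun e _ => ?_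
    rw [Pi.add_apply, map_add, add_mul]
  rw [h2, add_sub_add_comm]
  exact h1

theorem Comb.C_mul {q : MvPolynomial (Fin r) R} (h : Comb p f q) (a : R) :
    Comb p f (MvPolynomial.C a * q) := by
  obtain ⟨c, hc⟩ := h
  refine ⟨fun e => a * c e, ?_⟩
  have h1 := (eqs p f).mul_mem_left (MvPolynomial.C a) hc
  have h2 : ∑ e, MvPolynomial.C (a * c e) * mono (R := R) p e =
      MvPolynomial.C a * ∑ e, MvPolynomial.C (c e) * mono p e := by
    rw [Finset.mul_sum]
    refine Finset.sum_congr rfl fun e _ => ?_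
    rw [map_mul, mul_assoc]
  rw [h2, ← mul_sub]
  exact h1

theorem Comb.mono (e : Fin r → Fin p) : Comb p f (mono p e) := by
  refine ⟨fun e' => if e' = e then 1 else 0, ?_⟩
  have h2 : ∑ e', MvPolynomial.C (if e' = e then (1 : R) else 0) * R3.mono (R := R) p e' =
      R3.mono p e := by
    rw [Finset.sum_eq_single e]
    · rw [if_pos rfl, map_one, one_mul]
    · intro b _ hb
      rw [if_neg hb, map_zero, zero_mul]
    · intro h
      exact absurd (Finset.mem_univ _) h
  rw [h2, sub_self]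
  exact (eqs p f).zero_mem

theorem Comb.zero : Comb p f 0 := by
  refine ⟨fun _ => 0, ?_⟩
  simp only [map_zero, zero_mul, Finset.sum_const_zero, sub_self]
  exact (eqs p f).zero_mem

theorem Comb.sum {ι : Type} (s : Finset ι) (g : ι → MvPolynomial (Fin r) R)
    (h : ∀ i ∈ s, Comb p f (g i)) : Comb p f (∑ i ∈ s, g i) := by
  classical
  induction s using Finset.induction_on with
  | empty =>
    rw [Finset.sum_empty]
    exact Comb.zero p f
  | insert a s ha ih =>
    rw [Finset.sum_insert ha]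
    exact (h a (Finset.mem_insert_self _ _)).add p f
      (ih fun i hi => h i (Finset.mem_insert_of_mem hi))

variable (hp : 0 < p)

include hp in
theorem Comb.mono_mul_X (e : Fin r → Fin p) (i : Fin r) :
    Comb p f (R3.mono p e * MvPolynomial.X i) := by
  have key : R3.mono (R := R) p e * MvPolynomial.X i =
      (∏ j ∈ Finset.univ.erase i, MvPolynomial.X j ^ (e j : ℕ)) *
        MvPolynomial.X i ^ ((e i : ℕ) + 1) := by
    rw [R3.mono, ← Finset.prod_erase_mul Finset.univ _ (Finset.mem_univ i), pow_succ,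
      mul_assoc]
  by_cases h : (e i : ℕ) + 1 < p
  · have h1 : R3.mono (R := R) p e * MvPolynomial.X i =
        R3.mono p (Function.update e i ⟨(e i : ℕ) + 1, h⟩) := by
      rw [key, R3.mono, ← Finset.prod_erase_mul Finset.univ _ (Finset.mem_univ i)]
      congr 1
      · refine Finset.prod_congr rfl fun j hj => ?_
        rw [Function.update_of_ne (Finset.ne_of_mem_erase hj)]
      · rw [Function.update_self]
    rw [h1]
    exact Comb.mono p f _
  · have h2 : (e i : ℕ) + 1 = p := by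
      have := (e i).2
      omega
    have h3 : Comb p f (MvPolynomial.C (f i) * R3.mono p (Function.update e i ⟨0, hp⟩)) :=
      (Comb.mono p f _).C_mul p f _
    refine h3.congr p f ?_
    have h4 : R3.mono (R := R) p (Function.update e i ⟨0, hp⟩) =
        ∏ j ∈ Finset.univ.erase i, MvPolynomial.X j ^ (e j : ℕ) := by
      rw [R3.mono, ← Finset.prod_erase_mul Finset.univ _ (Finset.mem_univ i), Function.update_self]
      simp only [pow_zero, mul_one]
      refine Finset.prod_congr rfl fun j hj => ?_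
      rw [Function.update_of_ne (Finset.ne_of_mem_erase hj)]
    rw [key, h2, h4, mul_comm (MvPolynomial.C (f i)), ← mul_sub]
    exact (eqs p f).mul_mem_left _ (Ideal.subset_span ⟨i, rfl⟩)

include hp in
theorem comb_all (q : MvPolynomial (Fin r) R) : Comb p f q := by
  induction q using MvPolynomial.induction_on with
  | C a =>
    have h1 : R3.mono (R := R) p (fun _ : Fin r => ⟨0, hp⟩) = 1 := by
      rw [R3.mono]
      simp only [pow_zero, Finset.prod_const_one]
    have h2 := (Comb.mono p f (fun _ : Fin r => ⟨0, hp⟩)).C_mul p f a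
    rwa [h1, mul_one] at h2
  | add a b ha hb => exact ha.add p f hb
  | mul_X a i ha =>
    obtain ⟨c, hc⟩ := ha
    have h1 : Comb p f (∑ e, MvPolynomial.C (c e) * (R3.mono p e * MvPolynomial.X i)) :=
      Comb.sum p f _ _ fun e _ => (Comb.mono_mul_X p f hp e i).C_mul p f _
    refine h1.congr p f ?_
    have h2 := (eqs p f).mul_mem_right (MvPolynomial.X i) hc
    rw [sub_mul, Finset.sum_mul] at h2
    simp only [mul_assoc] at h2
    exact h2

variable {K : Type} [CommRing K] (φ : R →+* K) (F : Fin r → K) (hF : ∀ j, φ (f j) = F j ^ p)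

include hF in
theorem eqs_le : eqs p f ≤ RingHom.ker (MvPolynomial.eval₂Hom φ F) := by
  rw [eqs, Ideal.span_le]
  rintro _ ⟨j, rfl⟩
  rw [SetLike.mem_coe, RingHom.mem_ker]
  simp only
  rw [map_sub, map_pow, MvPolynomial.eval₂Hom_X', MvPolynomial.eval₂Hom_C, hF, sub_self]

/-- The homomorphism of the quotient. -/
noncomputable def fr : MvPolynomial (Fin r) R ⧸ eqs p f →+* K :=
  Ideal.Quotient.lift (eqs p f) (MvPolynomial.eval₂Hom φ F) fun _ ha => eqs_le p f φ F hF ha

theorem fr_mk (q : MvPolynomial (Fin r) R) :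
    fr p f φ F hF (Ideal.Quotient.mk _ q) = MvPolynomial.eval₂Hom φ F q :=
  Ideal.Quotient.lift_mk _ _ _

theorem fr_C (a : R) : fr p f φ F hF (Ideal.Quotient.mk _ (MvPolynomial.C a)) = φ a := by
  rw [fr_mk, MvPolynomial.eval₂Hom_C]

theorem fr_X (j : Fin r) : fr p f φ F hF (Ideal.Quotient.mk _ (MvPolynomial.X j)) = F j := by
  rw [fr_mk, MvPolynomial.eval₂Hom_X']

include hp in
theorem fr_injective (hf : ∀ c : (Fin r → Fin p) → R,
    ∑ e, φ (c e) * ∏ j, F j ^ (e j : ℕ) = 0 → ∀ e, c e = 0) :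
    Function.Injective (fr p f φ F hF) := by
  rw [injective_iff_map_eq_zero]
  intro x hx
  obtain ⟨q, rfl⟩ := Ideal.Quotient.mk_surjective x
  rw [fr_mk] at hx
  obtain ⟨c, hc⟩ := comb_all p f hp q
  have h1 := eqs_le p f φ F hF hc
  rw [RingHom.mem_ker, map_sub, hx, zero_sub, neg_eq_zero, map_sum] at h1
  have h2 : ∀ e, MvPolynomial.eval₂Hom φ F (MvPolynomial.C (c e) * R3.mono p e) =
      φ (c e) * ∏ j, F j ^ (e j : ℕ) := by
    intro e
    rw [map_mul, MvPolynomial.eval₂Hom_C, R3.mono, map_prod]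
    congr 1
    refine Finset.prod_congr rfl fun j _ => ?_
    rw [map_pow, MvPolynomial.eval₂Hom_X']
  rw [Finset.sum_congr rfl fun e _ => h2 e] at h1
  have h3 := hf c h1
  have h4 : ∑ e, MvPolynomial.C (c e) * R3.mono (R := R) p e = 0 :=
    Finset.sum_eq_zero fun e _ => by rw [h3 e, map_zero, zero_mul]
  rw [h4, sub_zero] at hc
  exact Ideal.Quotient.eq_zero_iff_mem.mpr hc

/-- The values. -/
theorem fr_mem (S : Subring K) (h1 : ∀ a, φ a ∈ S) (h2 : ∀ j, F j ∈ S)
    (x : MvPolynomial (Fin r) R ⧸ eqs p f) : fr p f φ F hF x ∈ S := by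
  obtain ⟨q, rfl⟩ := Ideal.Quotient.mk_surjective x
  rw [fr_mk]
  induction q using MvPolynomial.induction_on with
  | C a =>
    rw [MvPolynomial.eval₂Hom_C]
    exact h1 a
  | add a b ha hb =>
    rw [map_add]
    exact S.add_mem ha hb
  | mul_X a i ha =>
    rw [map_mul, MvPolynomial.eval₂Hom_X']
    exact S.mul_mem ha (h2 i)

include hp hF in
theorem exists_equiv (hf : ∀ c : (Fin r → Fin p) → R,
    ∑ e, φ (c e) * ∏ j, F j ^ (e j : ℕ) = 0 → ∀ e, c e = 0) (S : Subring K)
    (h1 : ∀ a, φ a ∈ S) (h2 : ∀ j, F j ∈ S)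
    (h3 : ∀ T : Subring K, (∀ a, φ a ∈ T) → (∀ j, F j ∈ T) → S ≤ T) :
    ∃ E : S ≃+* MvPolynomial (Fin r) R ⧸ eqs p f,
      ∀ a, E ⟨φ a, h1 a⟩ = Ideal.Quotient.mk _ (MvPolynomial.C a) := by
  have hS : S ≤ (fr p f φ F hF).range :=
    h3 _ (fun a => ⟨_, fr_C p f φ F hF a⟩) (fun j => ⟨_, fr_X p f φ F hF j⟩)
  let E : MvPolynomial (Fin r) R ⧸ eqs p f ≃+* S :=
    RingEquiv.ofBijective ((fr p f φ F hF).codRestrict S (fr_mem p f φ F hF S h1 h2))
      ⟨fun x y h => fr_injective p f hp φ F hF hf (congrArg Subtype.val h), fun z => by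
        obtain ⟨x, hx⟩ := hS z.2
        exact ⟨x, Subtype.ext hx⟩⟩
  refine ⟨E.symm, fun a => ?_⟩
  rw [RingEquiv.symm_apply_eq]
  apply Subtype.ext
  exact (fr_C p f φ F hF a).symm

end Gen

section Frob

variable (p : ℕ) [Fact p.Prime] {k : Type} [Field k] [CharP k p] {σ : Type} {r : ℕ}

/-- The `p`-th powers of polynomials and the `f`. -/
def gens (f : Fin r → MvPolynomial σ k) : Set (KK k σ) :=
  {z | ∃ a : MvPolynomial σ k, z = (algebraMap _ (KK k σ) a) ^ p} ∪
    Set.range fun j => algebraMap _ (KK k σ) (f j)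

/-- The algebra generated by the `p`-th powers and the `f`. -/
noncomputable abbrev A1 (f : Fin r → MvPolynomial σ k) : Subalgebra k (KK k σ) :=
  Algebra.adjoin k (gens p f)

/-- The intersection. -/
noncomputable abbrev A2 (f : Fin r → MvPolynomial σ k) : Subalgebra k (KK k σ) :=
  BB k σ ⊓ (Lfs (k := k) p fun j => algebraMap _ (KK k σ) (f j)).toSubalgebra

theorem A1_le_BB (f : Fin r → MvPolynomial σ k) : A1 p f ≤ BB k σ := by
  rw [A1, Algebra.adjoin_le_iff]
  rintro z (⟨a, rfl⟩ | ⟨j, rfl⟩)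
  · exact (BB k σ).pow_mem ⟨a, rfl⟩ p
  · exact ⟨f j, rfl⟩

theorem A1_le_A2 (f : Fin r → MvPolynomial σ k) : A1 p f ≤ A2 p f := by
  refine le_inf (A1_le_BB p f) ?_
  rw [A1, Algebra.adjoin_le_iff]
  rintro z (⟨a, rfl⟩ | ⟨j, rfl⟩)
  · exact IntermediateField.subset_adjoin k _ (Or.inl ⟨_, rfl⟩)
  · exact IntermediateField.subset_adjoin k _ (Or.inr ⟨j, rfl⟩)

/-- The elements of `K ^ p (f)` are fractions. -/
theorem exists_frac (f : Fin r → MvPolynomial σ k) {z : KK k σ}
    (hz : z ∈ Lfs (k := k) p fun j => algebraMap _ (KK k σ) (f j)) :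
    ∃ v ∈ A1 p f, v ≠ 0 ∧ v * z ∈ A1 p f := by
  have h1 : (Lfs (k := k) p fun j => algebraMap _ (KK k σ) (f j)) ≤
      IntermediateField.adjoin k (gens p f) := by
    rw [Lfs, IntermediateField.adjoin_le_iff]
    rintro z (⟨w, rfl⟩ | ⟨j, rfl⟩)
    · obtain ⟨a, b, -, rfl⟩ := IsFractionRing.div_surjective (A := MvPolynomial σ k) w
      rw [div_pow]
      exact div_mem (IntermediateField.subset_adjoin k _ (Or.inl ⟨a, rfl⟩))
        (IntermediateField.subset_adjoin k _ (Or.inl ⟨b, rfl⟩))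
    · exact IntermediateField.subset_adjoin k _ (Or.inr ⟨j, rfl⟩)
  obtain ⟨r, hr, s, hs, h2⟩ := IntermediateField.mem_adjoin_iff_div.mp (h1 hz)
  by_cases hs0 : s = 0
  · refine ⟨1, (A1 p f).one_mem, one_ne_zero, ?_⟩
    rw [h2, hs0, div_zero, mul_zero]
    exact (A1 p f).zero_mem
  · refine ⟨s, hs, hs0, ?_⟩
    rw [h2, mul_div_cancel₀ _ hs0]
    exact hr

theorem main_finite [Finite σ] (f : Fin r → MvPolynomial σ k) :
    letI : Algebra (A1 p f) (A2 p f) := (Subalgebra.inclusion (A1_le_A2 p f)).toRingHom.toAlgebra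
    Module.Finite (A1 p f) (A2 p f) := by
  let i0 : Algebra (A1 p f) (A2 p f) :=
    (Subalgebra.inclusion (A1_le_A2 p f)).toRingHom.toAlgebra
  let i1 : Algebra (A1 p f) (BB k σ) :=
    (Subalgebra.inclusion (A1_le_BB p f)).toRingHom.toAlgebra
  have i2 : IsScalarTower k (A1 p f) (BB k σ) := IsScalarTower.of_algebraMap_eq' rfl
  have h1 : Algebra.FiniteType k (BB k σ) :=
    (inferInstance : Algebra.FiniteType k (MvPolynomial σ k)).equiv
      (AlgEquiv.ofInjective (Algebra.algHom k (MvPolynomial σ k) (KK k σ))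
        (IsFractionRing.injective (MvPolynomial σ k) (KK k σ)))
  have h2 : Algebra.FiniteType (A1 p f) (BB k σ) := .of_restrictScalars_finiteType k _ _
  have h3 : Algebra.IsIntegral (A1 p f) (BB k σ) := by
    refine ⟨fun b => IsIntegral.of_pow (Fact.out : p.Prime).pos ?_⟩
    obtain ⟨b, a, rfl⟩ := b
    have h4 : (Algebra.algHom k (MvPolynomial σ k) (KK k σ) a) ^ p ∈ A1 p f :=
      Algebra.subset_adjoin (Or.inl ⟨a, rfl⟩)
    exact isIntegral_algebraMap (R := A1 p f) (x := ⟨_, h4⟩)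
  have h5 : Module.Finite (A1 p f) (BB k σ) := Algebra.IsIntegral.finite
  have h6 : (⊤ : Subalgebra k (A1 p f)).FG :=
    fg_of_fg_of_fg k (A1 p f) (BB k σ) h1.out h5.fg_top
      (Subalgebra.inclusion_injective (A1_le_BB p f))
  have h7 : Algebra.FiniteType k (A1 p f) := ⟨h6⟩
  have h8 : IsNoetherianRing (A1 p f) := Algebra.FiniteType.isNoetherianRing k _
  have h9 : IsNoetherian (A1 p f) (BB k σ) :=
    isNoetherian_of_isNoetherianRing_of_finite (A1 p f) (BB k σ)
  let ι : A2 p f →ₗ[A1 p f] BB k σ :=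
    { toFun := fun z => ⟨z, z.2.1⟩
      map_add' := fun _ _ => rfl
      map_smul' := fun _ _ => rfl }
  exact Module.Finite.of_injective ι fun x y h =>
    Subtype.ext (congrArg (fun z : BB k σ => (z : KK k σ)) h)

open Classical in
theorem main_frac [Finite σ] (f : Fin r → MvPolynomial σ k) :
    ∃ c : A1 p f, c ≠ 0 ∧ ∀ z : A2 p f, (c : KK k σ) * z ∈ A1 p f := by
  let i0 : Algebra (A1 p f) (A2 p f) :=
    (Subalgebra.inclusion (A1_le_A2 p f)).toRingHom.toAlgebra
  have h0 : Module.Finite (A1 p f) (A2 p f) := main_finite p f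
  obtain ⟨S, hS⟩ := h0.fg_top
  choose v hv hv0 hvz using fun z : A2 p f => exists_frac p f z.2.2
  refine ⟨⟨∏ z ∈ S, v z, (A1 p f).prod_mem fun z _ => hv z⟩, ?_, ?_⟩
  · intro h
    have h1 := congrArg Subtype.val h
    exact Finset.prod_ne_zero_iff.mpr (fun z _ => hv0 z) h1
  · intro z
    have hz : z ∈ Submodule.span (A1 p f) (S : Set (A2 p f)) := by rw [hS]; trivial
    change (∏ z ∈ S, v z) * (z : KK k σ) ∈ A1 p f
    induction hz using Submodule.span_induction with
    | mem z hz =>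
      have hz' : z ∈ S := hz
      rw [← Finset.prod_erase_mul S v hz', mul_assoc]
      exact (A1 p f).mul_mem ((A1 p f).prod_mem fun z _ => hv z) (hvz z)
    | zero =>
      change _ * (0 : KK k σ) ∈ _
      rw [mul_zero]
      exact (A1 p f).zero_mem
    | add x y _ _ hx hy =>
      change _ * ((x : KK k σ) + y) ∈ _
      rw [mul_add]
      exact (A1 p f).add_mem hx hy
    | smul a x _ hx =>
      change _ * ((a : KK k σ) * x) ∈ _
      rw [mul_left_comm]
      exact (A1 p f).mul_mem a.2 hx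

theorem exists_A1_equiv [IsAlgClosed k] {f : Fin r → MvPolynomial σ k}
    (hf : ∀ c : (Fin r → Fin p) → KK k σ,
      ∑ e, c e ^ p * ∏ j, (algebraMap _ (KK k σ) (f j)) ^ (e j : ℕ) = 0 → ∀ e, c e = 0) :
    ∃ E : A1 p f ≃+* MvPolynomial (Fin r) (MvPolynomial σ k) ⧸ eqs p f,
      ∀ c d : k, d ^ p = c → E (algebraMap k (A1 p f) c) =
        Ideal.Quotient.mk _ (MvPolynomial.C (MvPolynomial.C d)) := by
  have hpr : PerfectRing k p := PerfectField.toPerfectRing p
  have hp0 : 0 < p := (Fact.out : p.Prime).pos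
  let φ : MvPolynomial σ k →+* KK k σ :=
    (algebraMap (MvPolynomial σ k) (KK k σ)).comp (frobenius (MvPolynomial σ k) p)
  have hφ : ∀ a, φ a = (algebraMap _ (KK k σ) a) ^ p := by
    intro a
    change algebraMap (MvPolynomial σ k) (KK k σ) (a ^ p) = _
    rw [map_pow]
  have hφC : ∀ d : k, φ (MvPolynomial.C d) = algebraMap k (KK k σ) (d ^ p) := by
    intro d
    rw [hφ, ← map_pow, ← map_pow]
    exact (IsScalarTower.algebraMap_apply k (MvPolynomial σ k) (KK k σ) (d ^ p)).symm
  have h1 : ∀ a, φ a ∈ (A1 p f).toSubring := by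
    intro a
    rw [hφ]
    exact Algebra.subset_adjoin (Or.inl ⟨a, rfl⟩)
  have h3 : ∀ T : Subring (KK k σ), (∀ a, φ a ∈ T) →
      (∀ j, algebraMap (MvPolynomial σ k) (KK k σ) (f j) ∈ T) → (A1 p f).toSubring ≤ T := by
    intro T hT1 hT2
    let T' : Subalgebra k (KK k σ) :=
      { T with
        algebraMap_mem' := by
          intro c
          obtain ⟨d, hd⟩ := (frobeniusEquiv k p).surjective c
          rw [← hd, frobeniusEquiv_apply, frobenius_def, ← hφC]
          exact hT1 _ }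
    have h4 : A1 p f ≤ T' := by
      rw [A1, Algebra.adjoin_le_iff]
      rintro z (⟨a, rfl⟩ | ⟨j, rfl⟩)
      · rw [← hφ]
        exact hT1 a
      · exact hT2 j
    intro z hz
    exact h4 hz
  obtain ⟨E, hE⟩ := exists_equiv p f hp0 φ (fun j => algebraMap (MvPolynomial σ k) (KK k σ) (f j))
    (fun j => hφ (f j)) (fun c hc e => by
      apply IsFractionRing.injective (MvPolynomial σ k) (KK k σ)
      rw [map_zero]
      refine hf (fun e => algebraMap _ (KK k σ) (c e)) ?_ e
      simp only [hφ] at hc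
      exact hc) (A1 p f).toSubring h1
    (fun j => Algebra.subset_adjoin (Or.inr ⟨j, rfl⟩)) h3
  refine ⟨E, fun c d hd => ?_⟩
  rw [← hE]
  congr 1
  apply Subtype.ext
  change algebraMap k (KK k σ) c = φ (MvPolynomial.C d)
  rw [hφC, hd]

end Frob

end R3

/-- The intersection with `K ^ p (f_1, ..., f_r)` is the normalisation of the variety
`z_1 ^ p = f_1, ..., z_r ^ p = f_r`. -/
theorem hasResolution_equations (p : ℕ) [Fact p.Prime] {k : Type} [Field k] [IsAlgClosed k]
    [CharP k p] {σ : Type} [Finite σ] {r : ℕ} (f : Fin r → MvPolynomial σ k)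
    (hf : ∀ c : (Fin r → Fin p) → KK k σ,
      ∑ e, c e ^ p * ∏ j, (algebraMap _ (KK k σ) (f j)) ^ (e j : ℕ) = 0 → ∀ e, c e = 0)
    (h : HasResolution k (BB k σ ⊓
      (Lfs (k := k) p fun j => algebraMap _ (KK k σ) (f j)).toSubalgebra :
        Subalgebra k (KK k σ))) :
    HasResolution k (MvPolynomial (Fin r) (MvPolynomial σ k) ⧸ Ideal.span
      (Set.range fun j : Fin r => MvPolynomial.X (R := MvPolynomial σ k) j ^ p -
        MvPolynomial.C (f j))) := by
  have : PerfectRing k p := PerfectField.toPerfectRing p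
  have h1 : HasResolution k (R3.A1 p f) := by
    let i0 : Algebra (R3.A1 p f) (R3.A2 p f) :=
      (Subalgebra.inclusion (R3.A1_le_A2 p f)).toRingHom.toAlgebra
    have i1 : IsScalarTower k (R3.A1 p f) (R3.A2 p f) := IsScalarTower.of_algebraMap_eq' rfl
    have i2 : Module.Finite (R3.A1 p f) (R3.A2 p f) := R3.main_finite p f
    obtain ⟨c, hc, hcz⟩ := R3.main_frac p f
    exact hasResolution_of_finite_birational (A' := R3.A2 p f)
      (Subalgebra.inclusion_injective (R3.A1_le_A2 p f))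
      ⟨c, hc, fun z => ⟨⟨_, hcz z⟩, rfl⟩⟩ h
  obtain ⟨E, hE⟩ := R3.exists_A1_equiv p hf
  refine hasResolution_of_ringEquiv (frobeniusEquiv k p).symm E ?_ h1
  intro c
  refine (hE c ((frobeniusEquiv k p).symm c) ?_).trans rfl
  rw [← frobenius_def, ← frobeniusEquiv_apply, RingEquiv.apply_symm_apply]

end Pool.Agent.MP_b525bf_ag_TS
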