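import Pool.Agent.Lib.MP_b525bf_ag_TS.Final3
import Pool.Agent.Lib.MP_b525bf_ag_TS.DescR2
import Pool.Agent.Lib.MP_b525bf_ag_TS.DegR
import Pool.Agent.Lib.MP_b525bf_ag_TS.HypR

/-!
# E4: Theorem TS for several equations
-/

set_option autoImplicit false

namespace Pool.Agent.MP_b525bf_ag_TS

open Pool.Agent.MP_b525bf_ag

/-- If `r` vectors are combinations of `r` other vectors and are linearly independent then the other
vectors are linearly independent. -/
theorem linearIndependent_of_comb {K V : Type} [Field K] [AddCommGroup V] [Module K V] {r : ℕ}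
    {v w : Fin r → V} {ν : Fin r → Fin r → K} (h : ∀ j, v j = ∑ l, ν j l • w l)
    (hv : LinearIndependent K v) : LinearIndependent K w := by
  have h1 : Submodule.span K (Set.range v) ≤ Submodule.span K (Set.range w) := by
    rw [Submodule.span_le]
    rintro _ ⟨j, rfl⟩
    rw [h j]
    exact Submodule.sum_mem _ fun l _ => Submodule.smul_mem _ _ (Submodule.subset_span ⟨l, rfl⟩)
  have h2 : Module.finrank K (Submodule.span K (Set.range v)) = r := by
    rw [finrank_span_eq_card hv, Fintype.card_fin]
  have h3 : Module.Finite K (Submodule.span K (Set.range w)) :=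
    FiniteDimensional.span_of_finite K (Set.finite_range w)
  have h4 := Submodule.finrank_mono h1
  rw [linearIndependent_iff_card_le_finrank_span, Fintype.card_fin]
  rwa [h2] at h4

section

variable (p : ℕ) [hp : Fact p.Prime] {k : Type} [Field k] [IsAlgClosed k] [CharP k p]

include p hp in
/-- The number of functions with linearly independent differentials is at most the number of
variables. -/
theorem card_le_of_linearIndependent {σ : Type} [Fintype σ] {r : ℕ} (f : Fin r → KK k σ)
    (hf : LinearIndependent (KK k σ) fun j => lform (k := k) 1 (f j)) : r ≤ Fintype.card σ := by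
  classical
  have h1 := fun c h e => mono_indep p f hf c h e
  have h2 : LinearIndependent (Deg.Kp (k := k) (K := KK k σ) p)
      fun e : Fin r → Fin p => ∏ j, f j ^ (e j : ℕ) := by
    rw [Fintype.linearIndependent_iff]
    intro c hc e
    have h3 : ∀ e, ∃ w : KK k σ, (c e : KK k σ) = w ^ p := fun e => (c e).2
    choose w hw using h3
    have h4 := h1 w (by
      rw [← hc]
      refine Finset.sum_congr rfl fun e _ => ?_
      rw [← hw e]
      rfl) e
    apply Subtype.ext
    rw [hw e, h4, zero_pow hp.out.ne_zero]
    rfl
  have h3 : Module.Finite (Deg.Kp (k := k) (K := KK k σ) p) (KK k σ) := by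
    refine Module.finite_of_finrank_pos ?_
    rw [Deg.finrank_Kp]
    exact pow_pos hp.out.pos _
  have h4 := h2.fintype_card_le_finrank
  rw [Deg.finrank_Kp, Fintype.card_fun, Fintype.card_fin, Fintype.card_fin] at h4
  exact (Nat.pow_le_pow_iff_right hp.out.one_lt).1 h4

/-- Theorem TS for several equations. The variables are divided into blocks of at most two
variables and `ωᵢ = lᵢ dgᵢ` is a closed rational form in the variables of the `i`-th block. The
differentials of the polynomials `f_1, ..., f_r` are linearly independent and they span the same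
space as `r` combinations of the `ωᵢ` with constant coefficients. Then the variety
`z_1 ^ p = f_1, ..., z_r ^ p = f_r` has a resolution. -/
theorem hasResolution_equations_blocks (n : ℕ) (s : Fin n → ℕ) (hs : ∀ i, s i ≤ 2) {r : ℕ}
    (f : Fin r → MvPolynomial ((i : Fin n) × Fin (s i)) k)
    (hfl : LinearIndependent (KK k ((i : Fin n) × Fin (s i)))
      fun j => lform (k := k) 1 (algebraMap _ (KK k ((i : Fin n) × Fin (s i))) (f j)))
    (ν : Fin r → Fin r → KK k ((i : Fin n) × Fin (s i))) (c : Fin r → Fin n → k)
    (l g : ∀ i, KK k (Fin (s i)))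
    (hc : ∀ i, ∀ D D' : Derivation k (KK k (Fin (s i))) (KK k (Fin (s i))),
      D (l i) * D' (g i) = D' (l i) * D (g i))
    (hf : ∀ j, ∀ D : Derivation k (KK k ((i : Fin n) × Fin (s i)))
        (KK k ((i : Fin n) × Fin (s i))),
      D (algebraMap _ (KK k ((i : Fin n) × Fin (s i))) (f j)) =
        ∑ m, ν j m * ∑ i, algebraMap k _ (c m i) * (incB i (l i) * D (incB i (g i)))) :
    HasResolution k (MvPolynomial (Fin r) (MvPolynomial ((i : Fin n) × Fin (s i)) k) ⧸ Ideal.span
      (Set.range fun j : Fin r =>
        MvPolynomial.X (R := MvPolynomial ((i : Fin n) × Fin (s i)) k) j ^ p -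
          MvPolynomial.C (f j))) := by
  have h1 := hasStage_sigma n s l g fun i => hasStage_small (s i) (hs i) (l i) (g i) (hc i)
  refine hasResolution_equations p f (fun c h e => mono_indep p _ hfl c h e) ?_
  have hle := card_le_of_linearIndependent p _ hfl
  obtain ⟨m, hm⟩ : ∃ m, ∑ i, s i = m + r := ⟨∑ i, s i - r, by
    have : Fintype.card ((i : Fin n) × Fin (s i)) = ∑ i, s i := by simp
    omega⟩
  rw [hm] at h1
  refine h1.hasResolution_r p c ?_ (ν := ν) hf ?_
  · refine linearIndependent_of_comb (ν := ν) (fun j => ?_) hfl
    apply LinearMap.ext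
    intro D
    change 1 * D _ = _
    rw [one_mul, hf j D]
    simp only [LinearMap.smul_apply, LinearMap.sum_apply, smul_eq_mul]
    rfl
  · exact finrank_Lfs p (by simp [← hm]) _ hfl

end

end Pool.Agent.MP_b525bf_ag_TS
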