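import Pool.Agent.Lib.MP_b525bf_ag_TS.Plane
import Pool.Agent.Lib.MP_b525bf_ag_TS.StageZ

/-!
# V1a: stages of the plane with monomial functions
-/

set_option autoImplicit false

namespace Pool.Agent.MP_b525bf_ag_TS

section Clean

open Pool.Agent.MP_b525bf_ag Pool.Agent.MP_b525bf_ag_W Pool.Agent.MP_b525bf_ag_P AddMonoidAlgebra

variable {k K : Type} [Field k] [Field K] [Algebra k K] {B : Subalgebra k K} {E : Type}
  [Fintype E] {J : E → Ideal B} {e : E → E → ℤ} {V : E → Subalgebra k K}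

/-- A clean stage gives a toric family with logarithmic structure. -/
theorem Stage2.logStage [IsAlgClosed k] (hB : B.FG) {θ : Obj k K} {α : E → ℤ}
    (h : Stage2 B θ J e V α) (hθ : θ.h = 0 ∨ θ.ω = 0)
    (hclean : ∀ R, Pt B J R → Lv B θ J e V α 0 R) :
    LogStage B (mrees B J e) (fun _ => 1) e 2 (fun _ : Unit => θ.ω) (fun _ => α) := by
  have hN : Nc2 B J e V := ⟨h.ne, h.span, fun R hR => by
    obtain ⟨h', x, y, Dx, Dy, s, t, b, hp, -⟩ := h.pt R hR
    exact ⟨h', x, y, Dx, Dy, s, t, b, hp⟩⟩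
  refine ⟨hN.tor hB, mrees_zero, ?_⟩
  intro q _ hq
  obtain ⟨g, χ, -, hU, hPt, hgen, hR⟩ := hN.exists_pt hB q hq
  set R := ptLoc (chartF B J g) χ with hRdef
  obtain ⟨h', x, y, Dx, Dy, s, t, b, hp, hA, hJ⟩ := hclean R hPt
  set A := atP (mrees B J e) q with hAdef
  set γ := ∏ j, xi h' e j ^ α j with hγ
  have hJ' : Jw θ R x y Dx Dy s t γ = ⊤ := by
    rcases hJ with hJ | hJ
    · exact hJ
    · have h1 : Module.finrank k (R ⧸ Jw θ R x y Dx Dy s t γ) = 0 := by
        rw [inv2] at hJ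
        omega
      have := hA.fin
      rw [Module.finrank_zero_iff] at h1
      exact Ideal.Quotient.subsingleton_iff.1 h1
  have hU' : ∀ i, IsU A (uvec i) (h' i) := by
    intro i
    have h1 : UnitIn R (h' i / g i) := hgen.unit hp.gen i
    have h2 := (isU_unit_mul (N := A) hR h1).mul (hU i)
    rwa [zero_add, div_mul_cancel₀ _ (hgen.1 i).1] at h2
  have hxi : ∀ j, IsU A (e j) (xi h' e j) := fun j => isU_mon hU' (e j)
  -- the degrees of the coordinates
  have hdx : ∃ dx, x ∈ A.s dx ∧ IsU A dx (lD s x Dx x) := by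
    cases hs : s with
    | false =>
      refine ⟨0, hR x hp.reg.hx, ?_⟩
      have : lD false x Dx x = 1 := hp.reg.xx
      rw [this]
      exact isU_one A
    | true =>
      obtain ⟨j, hj⟩ := hp.s_iff.1 hs
      have h1 := hp.bx j hj
      have h2 := (hxi j).mul (isU_unit_mul (N := A) hR h1).inv
      have h3 : xi h' e j * (xi h' e j / x)⁻¹ = x := by
        rw [inv_div, mul_div_cancel₀]
        exact (hxi j).1
      rw [h3, neg_zero, add_zero] at h2
      refine ⟨e j, h2.2.1, ?_⟩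
      have : lD true x Dx x = x := by
        change (x • Dx) x = x
        rw [Derivation.smul_apply, hp.reg.xx, smul_eq_mul, mul_one]
      rw [this]
      exact h2
  have hdy : ∃ dy, y ∈ A.s dy ∧ IsU A dy (lD t y Dy y) := by
    cases ht : t with
    | false =>
      refine ⟨0, hR y hp.reg.hy, ?_⟩
      have : lD false y Dy y = 1 := hp.reg.yy
      rw [this]
      exact isU_one A
    | true =>
      obtain ⟨j, hj⟩ := hp.t_iff.1 ht
      have h1 := hp.by' j hj
      have h2 := (hxi j).mul (isU_unit_mul (N := A) hR h1).inv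
      have h3 : xi h' e j * (xi h' e j / y)⁻¹ = y := by
        rw [inv_div, mul_div_cancel₀]
        exact (hxi j).1
      rw [h3, neg_zero, add_zero] at h2
      refine ⟨e j, h2.2.1, ?_⟩
      have : lD true y Dy y = y := by
        change (y • Dy) y = y
        rw [Derivation.smul_apply, hp.reg.yy, smul_eq_mul, mul_one]
      rw [this]
      exact h2
  obtain ⟨dx, hdx1, hdx2⟩ := hdx
  obtain ⟨dy, hdy1, hdy2⟩ := hdy
  have mx' : ∀ z ∈ R, lD s x Dx z ∈ R := lD_mem hp.reg.hx hp.reg.Dx_mem s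
  have my' : ∀ z ∈ R, lD t y Dy z ∈ R := lD_mem hp.reg.hy hp.reg.Dy_mem t
  have hx0 : x ≠ 0 := hp.reg.x_ne
  have hy0 : y ≠ 0 := hp.reg.symm.x_ne
  have lx : ∀ j, LdIn R (lD s x Dx) (xi h' e j) := by
    intro j
    rcases hb : b j with _ | _ | _
    · exact LdIn.unit mx' (hp.b0 j hb)
    · have h1 := LdIn.unit mx' (hp.bx j hb)
      have hs : s = true := hp.s_iff.2 ⟨j, hb⟩
      have h2 : LdIn R (lD s x Dx) x := by
        refine ⟨hx0, ?_⟩
        rw [hs]
        change (x • Dx) x / x ∈ R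
        rw [Derivation.smul_apply, hp.reg.xx, smul_eq_mul, mul_one, div_self hx0]
        exact R.one_mem
      have h3 := h1.mul h2
      rwa [div_mul_cancel₀ _ hx0] at h3
    · have h1 := LdIn.unit mx' (hp.by' j hb)
      have h2 : LdIn R (lD s x Dx) y := by
        refine ⟨hy0, ?_⟩
        rw [lD_eq_zero hp.reg.xy, zero_div]
        exact R.zero_mem
      have h3 := h1.mul h2
      rwa [div_mul_cancel₀ _ hy0] at h3
  have ly : ∀ j, LdIn R (lD t y Dy) (xi h' e j) := by
    intro j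
    rcases hb : b j with _ | _ | _
    · exact LdIn.unit my' (hp.b0 j hb)
    · have h1 := LdIn.unit my' (hp.bx j hb)
      have h2 : LdIn R (lD t y Dy) x := by
        refine ⟨hx0, ?_⟩
        rw [lD_eq_zero hp.reg.yx, zero_div]
        exact R.zero_mem
      have h3 := h1.mul h2
      rwa [div_mul_cancel₀ _ hx0] at h3
    · have h1 := LdIn.unit my' (hp.by' j hb)
      have ht : t = true := hp.t_iff.2 ⟨j, hb⟩
      have h2 : LdIn R (lD t y Dy) y := by
        refine ⟨hy0, ?_⟩
        rw [ht]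
        change (y • Dy) y / y ∈ R
        rw [Derivation.smul_apply, hp.reg.yy, smul_eq_mul, mul_one, div_self hy0]
        exact R.one_mem
      have h3 := h1.mul h2
      rwa [div_mul_cancel₀ _ hy0] at h3
  have hγU : IsU A (wdeg e α) γ := isU_prod Finset.univ fun j _ => isU_zpow (hxi j) (α j)
  have hω : ∀ z : K, z / γ ∈ R → z ∈ A.s (wdeg e α) := by
    intro z hz
    have h1 := A.mul' (hR _ hz) hγU.2.1
    rwa [zero_add, div_mul_cancel₀ _ hγU.1] at h1
  have hωU : ∀ z : K, UnitIn R (z / γ) → IsU A (wdeg e α) z := by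
    intro z hz
    have h1 := (isU_unit_mul (N := A) hR hz).mul hγU
    rwa [zero_add, div_mul_cancel₀ _ hγU.1] at h1
  refine ⟨![lD s x Dx, lD t y Dy], ![x, y], ![dx, dy], ?_, ?_, ?_, ?_, ?_, ?_⟩
  · intro l
    fin_cases l
    · exact hN.pres hPt hR hp.gen hU' mx' lx
    · exact hN.pres hPt hR hp.gen hU' my' ly
  · intro l
    fin_cases l
    · exact hdx1
    · exact hdy1
  · have h1 := hdx2.mul hdy2
    rw [Fin.sum_univ_two]
    change IsU A (dx + dy) _
    convert h1 using 1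
    rw [Matrix.det_fin_two]
    change lD s x Dx x * lD t y Dy y - lD s x Dx y * lD t y Dy x = _
    rw [lD_eq_zero hp.reg.xy, zero_mul, sub_zero]
  · intro i l
    fin_cases l
    · exact hω _ hA.ax
    · exact hω _ hA.ay
  · intro i
    rcases hθ with hθ | hθ
    · right
      by_contra hcon
      push Not at hcon
      have n0 : ¬ UnitIn R (θ.ω (lD s x Dx) / γ) := fun h1 => hcon 0 (hωU _ h1)
      have n1 : ¬ UnitIn R (θ.ω (lD t y Dy) / γ) := fun h1 => hcon 1 (hωU _ h1)
      have key : ∀ z : R, z ∈ Jw θ R x y Dx Dy s t γ → ∃ u ∈ R, ∃ v ∈ R, (z : K) = x * u + y * v := by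
        intro z hz
        induction hz using Submodule.span_induction with
        | mem w hw =>
          rcases hw with hw | hw | hw
          · exact ⟨0, R.zero_mem, 0, R.zero_mem, by rw [hw, hθ, zero_div]; ring⟩
          · by_contra h1
            push Not at h1
            exact n0 (hw ▸ hp.reg.unitIn_of w.2 h1)
          · by_contra h1
            push Not at h1
            exact n1 (hw ▸ hp.reg.unitIn_of w.2 h1)
        | zero => exact ⟨0, R.zero_mem, 0, R.zero_mem, by simp⟩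
        | add w w' _ _ ih ih' =>
          obtain ⟨u, hu, v, hv, e1⟩ := ih
          obtain ⟨u', hu', v', hv', e2⟩ := ih'
          refine ⟨u + u', R.add_mem hu hu', v + v', R.add_mem hv hv', ?_⟩
          rw [AddMemClass.coe_add, e1, e2]; ring
        | smul r w _ ih =>
          obtain ⟨u, hu, v, hv, e1⟩ := ih
          refine ⟨r * u, R.mul_mem r.2 hu, r * v, R.mul_mem r.2 hv, ?_⟩
          rw [smul_eq_mul, MulMemClass.coe_mul, e1]; ring
      obtain ⟨u, hu, v, hv, e1⟩ := key 1 (by rw [hJ']; exact Submodule.mem_top)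
      exact hp.reg.one u hu v hv e1
    · left
      exact hθ
  · intro l i i' hii
    exact absurd (Subsingleton.elim i i') hii


/-- Functions which are monomials in the equations of the boundary at all points of the model are
monomials of the toric family. -/
theorem Nc2.mono_of [IsAlgClosed k] (hB : B.FG) (hN : Nc2 B J e V) {z : K} {β : E → ℤ}
    (hz : ∀ R, Pt B J R → ∃ h x y Dx Dy s t b,
      PtNc B J e V R h x y Dx Dy s t b ∧ UnitIn R (z / ∏ j, xi h e j ^ β j)) :
    Mono (mrees B J e) (fun _ => 1) e β z := by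
  intro q _ hq
  obtain ⟨g, χ, -, hU, hPt, hgen, hR⟩ := hN.exists_pt hB q hq
  obtain ⟨h', x, y, Dx, Dy, s, t, b, hp, hu⟩ := hz _ hPt
  have hU' : ∀ i, IsU (atP (mrees B J e) q) (uvec i) (h' i) := by
    intro i
    have h1 := hgen.unit hp.gen i
    have h2 := (isU_unit_mul (N := atP (mrees B J e) q) hR h1).mul (hU i)
    rwa [zero_add, div_mul_cancel₀ _ (hgen.1 i).1] at h2
  have hxi : ∀ j, IsU (atP (mrees B J e) q) (e j) (xi h' e j) := fun j => isU_mon hU' (e j)
  have hγU : IsU (atP (mrees B J e) q) (wdeg e β) (∏ j, xi h' e j ^ β j) :=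
    isU_prod Finset.univ fun j _ => isU_zpow (hxi j) (β j)
  have h1 := (isU_unit_mul (N := atP (mrees B J e) q) hR hu).mul hγU
  rwa [zero_add, div_mul_cancel₀ _ hγU.1] at h1

/-- A clean stage gives a toric family with logarithmic structure, in which the functions which are
monomials at all points of the model are monomials. -/
theorem Stage2.hasStageZ [IsAlgClosed k] (hB : B.FG) {θ : Obj k K} {α : E → ℤ}
    (h : Stage2 B θ J e V α) (hθ : θ.h = 0 ∨ θ.ω = 0)
    (hclean : ∀ R, Pt B J R → Lv B θ J e V α 0 R) (Z : Set K)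
    (hZ : ∀ z ∈ Z, ∃ β : E → ℤ, ∀ R, Pt B J R → ∃ h x y Dx Dy s t b,
      PtNc B J e V R h x y Dx Dy s t b ∧ UnitIn R (z / ∏ j, xi h e j ^ β j)) :
    HasStageZ B 2 (fun _ : Unit => θ.ω) Z := by
  have hN : Nc2 B J e V := ⟨h.ne, h.span, fun R hR => by
    obtain ⟨h', x, y, Dx, Dy, s, t, b, hp, -⟩ := h.pt R hR
    exact ⟨h', x, y, Dx, Dy, s, t, b, hp⟩⟩
  refine ⟨E → ℤ, inferInstance, inferInstance, inferInstance, E, inferInstance, mrees B J e,
    fun _ => 1, e, fun _ => α, h.logStage hB hθ hclean, fun z hz => ?_⟩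
  obtain ⟨β, hβ⟩ := hZ z hz
  exact ⟨β, hN.mono_of hB hβ⟩

end Clean

section Unit

variable {k K : Type} [Field k] [Field K] [Algebra k K]
  {R : Subalgebra k K} {x y : K} {Dx Dy : Derivation k K K}

/-- A divisor of a power of `x` is a unit or divisible by `x`. -/
theorem Reg.dvd_x_pow (h : Reg R x y Dx Dy) (n : ℕ) : ∀ w ∈ R, ∀ u ∈ R, w * u = x ^ n →
    UnitIn R w ∨ ∃ a ∈ R, w = x * a := by
  induction n with
  | zero =>
    intro w hw u hu hwu
    left
    rw [pow_zero] at hwu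
    have h0 : w ≠ 0 := by rintro rfl; simp at hwu
    refine ⟨h0, hw, ?_⟩
    rw [inv_eq_of_mul_eq_one_right hwu]
    exact hu
  | succ n ih =>
    intro w hw u hu hwu
    rcases h.prime_x hw hu ⟨x ^ n, R.pow_mem h.hx n, by rw [hwu, pow_succ']⟩ with h1 | h1
    · exact Or.inr h1
    · obtain ⟨a, ha, rfl⟩ := h1
      refine ih w hw a ha ?_
      have h2 : x * (w * a) = x * x ^ n := by rw [← pow_succ', ← hwu]; ring
      exact mul_left_cancel₀ h.x_ne h2

/-- An element generating an ideal of finite colength is a unit. -/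
theorem Reg.unitIn_of_finite (h : Reg R x y Dx Dy) {w : K} (hw : w ∈ R) (I : Ideal R)
    (hI : ∀ z ∈ I, ∃ u ∈ R, (z : K) = w * u) [FiniteDimensional k (R ⧸ I)] : UnitIn R w := by
  obtain ⟨N, -, hN⟩ := Loc2.exists_pow_le h I 0
  obtain ⟨u, hu, e1⟩ := hI _ (hN (Ideal.pow_mem_pow (Loc2.x_mem h) N))
  obtain ⟨v, hv, e2⟩ := hI _ (hN (Ideal.pow_mem_pow (Loc2.y_mem h) N))
  have e1' : w * u = x ^ N := by rw [← e1]; simp
  have e2' : y ^ N = w * v := by rw [← e2]; simp
  rcases h.dvd_x_pow N w hw u hu e1' with h1 | ⟨a, ha, rfl⟩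
  · exact h1
  · exfalso
    obtain ⟨c, hc, e3⟩ := h.reg_pow N R.one_mem ⟨a * v, R.mul_mem ha hv, by
      rw [mul_one, e2']; ring⟩
    exact h.one_notMem_x ⟨c, hc, e3⟩

/-- If the object `(z, 0)` divided by `γ` has isolated zeros then `z / γ` is a unit. -/
theorem Ad.unitIn {z γ : K} {s t : Bool} (h : Reg R x y Dx Dy)
    (hA : Ad (⟨z, 0⟩ : Obj k K) R x y Dx Dy s t γ) : UnitIn R (z / γ) := by
  have := hA.fin
  refine h.unitIn_of_finite hA.ah (Jw (⟨z, 0⟩ : Obj k K) R x y Dx Dy s t γ) fun w hw => ?_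
  unfold Jw at hw
  induction hw using Submodule.span_induction with
  | mem w hw =>
    rcases hw with hw | hw | hw
    · exact ⟨1, R.one_mem, by rw [hw, mul_one]⟩
    · exact ⟨0, R.zero_mem, by rw [hw]; simp⟩
    · exact ⟨0, R.zero_mem, by rw [hw]; simp⟩
  | zero => exact ⟨0, R.zero_mem, by simp⟩
  | add a b _ _ ha hb =>
    obtain ⟨u, hu, e1⟩ := ha
    obtain ⟨v, hv, e2⟩ := hb
    exact ⟨u + v, R.add_mem hu hv, by push_cast; rw [e1, e2]; ring⟩
  | smul r a _ ha =>
    obtain ⟨u, hu, e1⟩ := ha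
    exact ⟨r * u, R.mul_mem r.2 hu, by rw [smul_eq_mul]; push_cast; rw [e1]; ring⟩

end Unit

section Plane

open MvPolynomial PlaneAux

variable {k : Type} [Field k]

/-- Rational functions are fractions of polynomials. -/
theorem PlaneAux.exists_frac (z : KK k (Fin 2)) : ∃ a b : MvPolynomial (Fin 2) k, b ≠ 0 ∧
    z * algebraMap _ (KK k (Fin 2)) b = algebraMap _ (KK k (Fin 2)) a := by
  obtain ⟨a, b, hb, h1⟩ := IsFractionRing.div_surjective (A := MvPolynomial (Fin 2) k) z
  have hb0 : algebraMap (MvPolynomial (Fin 2) k) (KK k (Fin 2)) b ≠ 0 :=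
    (map_ne_zero_iff _ (IsFractionRing.injective _ _)).2 (nonZeroDivisors.ne_zero hb)
  exact ⟨a, b, nonZeroDivisors.ne_zero hb, by rw [← h1, div_mul_cancel₀ _ hb0]⟩

/-- The function `z` defines a stage, if the primes of its numerator and of its denominator are in
the boundary. -/
theorem PlaneAux.exists_mono [IsAlgClosed k] {E : Type} [Fintype E]
    {J : E → Ideal (BB k (Fin 2))} {e : E → E → ℤ} {V : E → Subalgebra k (KK k (Fin 2))}
    (hN : Nc2 (BB k (Fin 2)) J e V) {z : KK k (Fin 2)} (hz : z ≠ 0)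
    {a b : MvPolynomial (Fin 2) k}
    (hab : z * algebraMap _ (KK k (Fin 2)) b = algebraMap _ (KK k (Fin 2)) a)
    (h : ∀ (π : MvPolynomial (Fin 2) k) (hπ : Prime π), π ∣ a ∨ π ∣ b →
      InBd (BB k (Fin 2)) J e V (primeLoc π hπ)) :
    ∃ β : E → ℤ, ∀ R, Pt (BB k (Fin 2)) J R → ∃ h x y Dx Dy s t b,
      PtNc (BB k (Fin 2)) J e V R h x y Dx Dy s t b ∧ UnitIn R (z / ∏ j, xi h e j ^ β j) := by
  obtain ⟨β, hst⟩ := hN.exists_stage2 (θ := ⟨z, 0⟩) (Or.inl hz) (by
    intro π hπ
    by_cases hdvd : π ∣ a ∨ π ∣ b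
    · exact Or.inl (h π hπ hdvd)
    · right
      push Not at hdvd
      intro D _
      refine ⟨⟨a, b, hdvd.2, hab⟩, fun i => zero_mem _, ?_⟩
      rintro ⟨h1, -⟩
      exact hdvd.1 (dvd_of_vanish hπ h1 hab))
  refine ⟨β, fun R hR => ?_⟩
  obtain ⟨g, x, y, Dx, Dy, s, t, b, hp, hA⟩ := hst.pt R hR
  exact ⟨g, x, y, Dx, Dy, s, t, b, hp, Ad.unitIn hp.reg hA⟩

open UniqueFactorizationMonoid in
/-- The stage of an object. -/
theorem PlaneAux.hasStageZ_of_obj [IsAlgClosed k] {θ : Obj k (KK k (Fin 2))}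
    (hθ0 : θ.h ≠ 0 ∨ θ.ω ≠ 0) (hcl : θ.Closed) (hθ : θ.h = 0 ∨ θ.ω = 0)
    (T : Finset (MvPolynomial (Fin 2) k))
    (hT : ∀ (π : MvPolynomial (Fin 2) k) (hπ : Prime π),
      (∃ π' ∈ T, Associated π π') ∨ θ.GoodOn π hπ)
    (Z : Set (KK k (Fin 2))) (hZ : Z.Finite) (h0 : (0 : KK k (Fin 2)) ∉ Z) :
    HasStageZ (BB k (Fin 2)) 2 (fun _ : Unit => θ.ω) Z := by
  classical
  choose a b hb hab using fun z : KK k (Fin 2) => exists_frac z
  let F : KK k (Fin 2) → Finset (MvPolynomial (Fin 2) k) := fun z =>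
    (factors (a z)).toFinset ∪ (factors (b z)).toFinset
  obtain ⟨E, _, J, e, V, hnc, hS⟩ := exists_nc2 (k := k) (T ∪ hZ.toFinset.biUnion F)
  have hS' : ∀ (π π' : MvPolynomial (Fin 2) k) (hπ : Prime π), π' ∈ T ∪ hZ.toFinset.biUnion F →
      Associated π π' → InBd (BB k (Fin 2)) J e V (primeLoc π hπ) := by
    intro π π' hπ h1 h2
    have hπ' : Prime π' := h2.prime hπ
    rw [primeLoc_congr hπ hπ' h2]
    exact hS π' h1 hπ'
  obtain ⟨α, hst⟩ := hnc.exists_stage2 (θ := θ) hθ0 (by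
    intro π hπ
    rcases hT π hπ with ⟨π', h1, h2⟩ | h1
    · exact Or.inl (hS' π π' hπ (Finset.mem_union_left _ h1) h2)
    · exact Or.inr h1)
  obtain ⟨E', _, J', e', V', α', hst', hin', hclean⟩ :=
    hst.exists_clean (BB_fg (Fin 2)) hcl
  refine hst'.hasStageZ (BB_fg (Fin 2)) hθ hclean Z fun z hz => ?_
  have hz0 : z ≠ 0 := fun h1 => h0 (h1 ▸ hz)
  have ha : a z ≠ 0 := by
    intro h1
    have h2 := hab z
    rw [h1, map_zero] at h2
    have hb0 : algebraMap (MvPolynomial (Fin 2) k) (KK k (Fin 2)) (b z) ≠ 0 :=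
      (map_ne_zero_iff _ (IsFractionRing.injective _ _)).2 (hb z)
    exact hz0 ((mul_eq_zero.1 h2).resolve_right hb0)
  refine exists_mono (nc2_of_stage hst') hz0 (hab z) fun π hπ hdvd => hin' _ ?_
  have h1 : ∃ π' ∈ F z, Associated π π' := by
    rcases hdvd with h1 | h1
    · obtain ⟨π', h2, h3⟩ := exists_mem_factors_of_dvd ha hπ.irreducible h1
      exact ⟨π', Finset.mem_union_left _ (Multiset.mem_toFinset.2 h2), h3⟩
    · obtain ⟨π', h2, h3⟩ := exists_mem_factors_of_dvd (hb z) hπ.irreducible h1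
      exact ⟨π', Finset.mem_union_right _ (Multiset.mem_toFinset.2 h2), h3⟩
  obtain ⟨π', h2, h3⟩ := h1
  exact hS' π π' hπ (Finset.mem_union_right _
    (Finset.mem_biUnion.2 ⟨z, hZ.mem_toFinset.2 hz, h2⟩)) h3

/-- Every closed form `l dg` on the plane has a stage in which the functions of a given finite set
are monomials. -/
theorem hasStageZ_plane [IsAlgClosed k] (l g : KK k (Fin 2))
    (hc : ∀ D D' : Derivation k (KK k (Fin 2)) (KK k (Fin 2)), D l * D' g = D' l * D g)
    (Z : Set (KK k (Fin 2))) (hZ : Z.Finite) (h0 : (0 : KK k (Fin 2)) ∉ Z) :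
    HasStageZ (BB k (Fin 2)) 2 (fun _ : Unit => lform l g) Z := by
  classical
  have hpart : ∀ i : Fin 2, ∃ D : Derivation k (KK k (Fin 2)) (KK k (Fin 2)),
      ∀ g : MvPolynomial (Fin 2) k, D (algebraMap _ (KK k (Fin 2)) g) =
        algebraMap _ (KK k (Fin 2)) (pderiv i g) := fun i => exists_partial i
  choose D hD using hpart
  by_cases h1 : (lform l g : Derivation k (KK k (Fin 2)) (KK k (Fin 2)) →ₗ[KK k (Fin 2)]
      KK k (Fin 2)) = 0
  · -- the zero form
    have h2 := hasStageZ_of_obj (k := k) (θ := ⟨1, 0⟩) (Or.inl one_ne_zero)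
      ⟨fun D D' => by simp, Or.inr fun D => by simp⟩ (Or.inr rfl) ∅ (fun π' hπ' => by
        right
        intro D _
        refine ⟨one_mem _, fun i => zero_mem _, ?_⟩
        rintro ⟨h1, -⟩
        have h3 : π' ∣ 1 := dvd_of_vanish hπ' (a := 1) (b := 1) h1 (by
          rw [map_one, mul_one])
        exact hπ'.not_isUnit (isUnit_of_dvd_one h3)) Z hZ h0
    rw [h1]
    exact h2
  · -- numerators and denominators of the coefficients
    choose a b hb hab using fun i => exists_frac (lform l g (D i))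
    obtain ⟨i₀, hi₀⟩ : ∃ i, lform l g (D i) ≠ 0 := by
      by_contra hcon
      push Not at hcon
      exact h1 (form_eq_zero hD hcon)
    have ha₀ : a i₀ ≠ 0 := by
      intro h1
      have h2 := hab i₀
      rw [h1, map_zero] at h2
      have hb0 : algebraMap (MvPolynomial (Fin 2) k) (KK k (Fin 2)) (b i₀) ≠ 0 :=
        (map_ne_zero_iff _ (IsFractionRing.injective _ _)).2 (hb i₀)
      exact hi₀ ((mul_eq_zero.1 h2).resolve_right hb0)
    let T : Multiset (MvPolynomial (Fin 2) k) :=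
      UniqueFactorizationMonoid.factors (a i₀) +
        ∑ i, UniqueFactorizationMonoid.factors (b i)
    refine hasStageZ_of_obj (k := k) (θ := ⟨0, lform l g⟩) (Or.inr h1)
      ⟨lform_closed' hc, Or.inl rfl⟩ (Or.inl rfl) T.toFinset (fun π hπ => ?_) Z hZ h0
    by_cases hdvd : π ∣ a i₀ ∨ ∃ i, π ∣ b i
    · left
      rcases hdvd with h1 | ⟨i, h1⟩
      · obtain ⟨π', h2, h3⟩ := UniqueFactorizationMonoid.exists_mem_factors_of_dvd ha₀
          hπ.irreducible h1
        exact ⟨π', Multiset.mem_toFinset.2 (Multiset.mem_add.2 (Or.inl h2)), h3⟩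
      · obtain ⟨π', h2, h3⟩ := UniqueFactorizationMonoid.exists_mem_factors_of_dvd (hb i)
          hπ.irreducible h1
        exact ⟨π', Multiset.mem_toFinset.2 (Multiset.mem_add.2 (Or.inr (Multiset.mem_sum.2
          ⟨i, Finset.mem_univ i, h2⟩))), h3⟩
    · right
      push Not at hdvd
      intro D' hD'
      have hDD : D' = D := partial_unique hD' hD
      subst hDD
      refine ⟨zero_mem _, fun i => ⟨a i, b i, hdvd.2 i, hab i⟩, ?_⟩
      rintro ⟨-, h1⟩
      exact hdvd.1 (dvd_of_vanish hπ (h1 i₀) (hab i₀))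

end Plane

end Pool.Agent.MP_b525bf_ag_TS
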