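import Pool.Agent.Lib.MP_b525bf_ag_TS.TorusZ
import Pool.Agent.Lib.MP_b525bf_ag_TS.BlocksZ
import Pool.Agent.Lib.MP_b525bf_ag_TS.PlaneZ
import Pool.Agent.Lib.MP_b525bf_ag_TS.CurveZ
import Pool.Agent.Lib.MP_b525bf_ag_TS.Final4
import Pool.Agent.Lib.MP_b525bf_ag_TS.DefsZ

/-!
# V4: Theorem TU
-/

set_option autoImplicit false

namespace Pool.Agent.MP_b525bf_ag_TS

open Pool.Agent.MP_b525bf_ag Pool.Agent.MP_b525bf_ag_W Pool.Agent.MP_b525bf_ag_P AddMonoidAlgebra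

/-- The variables `t_l` as rational functions. -/
noncomputable def tvar (k σ : Type) [Field k] {m : ℕ} (l : Fin m) : KK k (σ ⊕ Fin m) :=
  algebraMap (MvPolynomial (σ ⊕ Fin m) k) _ (MvPolynomial.X (Sum.inr l))

theorem tvar_ne (k σ : Type) [Field k] {m : ℕ} (l : Fin m) : tvar k σ l ≠ 0 :=
  (map_ne_zero_iff _ (IsFractionRing.injective (MvPolynomial (σ ⊕ Fin m) k) _)).2
    (MvPolynomial.X_ne_zero _)

/-- Adding variables to a stage. -/
theorem HasStageZ.torus {k σ I : Type} [Field k] {m N : ℕ} {l g : I → KK k σ} {Z : Set (KK k σ)}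
    (h : HasStageZ (BB k σ) N (fun i => lform (l i) (g i)) Z) {s : ℕ} (A : Fin s → Fin m → ℤ)
    (hA : LinearIndependent k fun j l => (A j l : k)) (b : Fin s → KK k σ) (hb : ∀ j, b j ∈ Z) :
    HasStageZ (BB k (σ ⊕ Fin m)) (N + m) (Sum.elim
      (fun i => lform (incl (Sum.inl : σ → σ ⊕ Fin m) Sum.inl_injective (l i))
        (incl (Sum.inl : σ → σ ⊕ Fin m) Sum.inl_injective (g i)))
      (fun j : Fin s => lform
        ((∏ l, tvar k σ l ^ A j l) * incl (Sum.inl : σ → σ ⊕ Fin m) Sum.inl_injective (b j))⁻¹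
        ((∏ l, tvar k σ l ^ A j l) * incl (Sum.inl : σ → σ ⊕ Fin m) Sum.inl_injective (b j))))
      (incl (Sum.inl : σ → σ ⊕ Fin m) Sum.inl_injective '' Z ∪ Set.range (tvar k σ)) := by
  have hd : ∀ (s : σ) (t : Fin m), (Sum.inl s : σ ⊕ Fin m) ≠ Sum.inr t := fun s t => Sum.inl_ne_inr
  have hfg : ∀ r : σ ⊕ Fin m, r ∈ Set.range (Sum.inl : σ → σ ⊕ Fin m) ∨
      r ∈ Set.range (Sum.inr : Fin m → σ ⊕ Fin m) := by
    rintro (r | r)
    · exact Or.inl ⟨r, rfl⟩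
    · exact Or.inr ⟨r, rfl⟩
  set α₁ : KK k σ →ₐ[k] KK k (σ ⊕ Fin m) := incl Sum.inl Sum.inl_injective with hα₁
  set α₂ : KK k (Fin m) →ₐ[k] KK k (σ ⊕ Fin m) := incl Sum.inr Sum.inr_injective with hα₂
  have hα := ProdStage.lift_incl_injective (k := k) (Sum.inl : σ → σ ⊕ Fin m) Sum.inl_injective
    Sum.inr Sum.inr_injective hd
  have hfrac := ProdStage.frac_sup (k := k) (Sum.inl : σ → σ ⊕ Fin m) Sum.inl_injective
    Sum.inr Sum.inr_injective hfg
  have ht : ∀ l, tvar k σ l = α₂ (tv k m l) := by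
    intro l
    rw [hα₂, tv, ProdStage.incl_algebraMap, MvPolynomial.rename_X]
    rfl
  obtain ⟨ι₁, _, _, _, J₁, _, M₁, a₁, u₁, w₁, ⟨t₁, z₁, L₁⟩, m₁⟩ := h
  refine ⟨ι₁ × (Fin m → ℤ), inferInstance, inferInstance, inferInstance, J₁ ⊕ Fin m,
    inferInstance, prodFam α₁ α₂ M₁ (torFam k m), (a₁, 0), prodU u₁ fun j => uvec j,
    Sum.elim (fun i => Sum.elim (w₁ i) 0) (fun _ => 0), ⟨?_, ?_, ?_⟩, ?_⟩
  · exact tor_prod α₁ α₂ hα t₁ (torFam_tor k m)
  · change (M₁.s 0).map α₁.toLinearMap * ((torFam k m).s 0).map α₂.toLinearMap = _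
    rw [z₁, torFam_zero, ← ProdStage.bb_sup (k := k) (Sum.inl : σ → σ ⊕ Fin m)
      Sum.inl_injective Sum.inr Sum.inr_injective hfg, ← Subalgebra.mul_toSubmodule]
    rfl
  · intro q _ hq
    obtain ⟨s₁, s₂⟩ := semi_prod α₁ α₂ q hq
    have h := ld_torus α₁ α₂ hα hfrac q (L₁ _ s₁) A hA b fun j => by
      obtain ⟨e, he⟩ := m₁ (b j) (hb j)
      exact ⟨_, he _ s₁⟩
    simp only [ht]
    convert h using 1
    funext i
    rcases i with i | i
    · exact ProdStage.wdeg_left u₁ _ (w₁ i)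
    · exact wdeg_zero _
  · rintro _ (⟨z, hz, rfl⟩ | ⟨l, rfl⟩)
    · obtain ⟨e, he⟩ := m₁ z hz
      refine ⟨Sum.elim e 0, ?_⟩
      intro q _ hq
      obtain ⟨s₁, s₂⟩ := semi_prod α₁ α₂ q hq
      rw [ProdStage.wdeg_left]
      exact ProdStage.isU_left α₁ α₂ q (he _ s₁)
    · refine ⟨Sum.elim 0 (uvec l), ?_⟩
      intro q _ hq
      rw [ProdStage.wdeg_right, ht]
      have h1 : wdeg (fun j : Fin m => (uvec j : Fin m → ℤ)) (uvec l) = uvec l := sum_uvec _
      rw [h1]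
      exact ProdStage.isU_right α₁ α₂ q (isU_tv k m _ l)

/-- Every closed form in at most two variables has a stage in which the functions of a given finite
set are monomials. -/
theorem hasStageZ_small {k : Type} [Field k] [IsAlgClosed k] (s : ℕ) (hs : s ≤ 2)
    (l g : KK k (Fin s))
    (hc : ∀ D D' : Derivation k (KK k (Fin s)) (KK k (Fin s)), D l * D' g = D' l * D g)
    (Z : Set (KK k (Fin s))) (hZ : Z.Finite) (h0 : (0 : KK k (Fin s)) ∉ Z) :
    HasStageZ (BB k (Fin s)) s (fun _ : Unit => lform l g) Z := by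
  match s, hs, l, g, hc, Z, hZ, h0 with
  | 0, _, l, g, _, Z, _, h0 => exact hasStageZ_point l g Z h0
  | 1, _, l, g, _, Z, hZ, h0 => exact hasStageZ_line l g Z hZ h0
  | 2, _, l, g, hc, Z, hZ, h0 => exact hasStageZ_plane l g hc Z hZ h0

section

variable {k : Type} [Field k] {n m : ℕ} {s : Fin n → ℕ}

theorem incT_eq (i : Fin n) (z : KK k (Fin (s i))) : incT m i z =
    incl (Sum.inl : ((i : Fin n) × Fin (s i)) → ((i : Fin n) × Fin (s i)) ⊕ Fin m)
      Sum.inl_injective (incl (fun j : Fin (s i) => (⟨i, j⟩ : (i : Fin n) × Fin (s i)))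
        (sigma_mk_injective (β := fun i : Fin n => Fin (s i))) z) := by
  rw [ProdStage.incl_comp]
  rfl

end

/-- The stage for Theorem TU. -/
theorem hasStage_TU {k : Type} [Field k] [IsAlgClosed k] (n m : ℕ) (s : Fin n → ℕ)
    (hs : ∀ i, s i ≤ 2) (l g : ∀ i, KK k (Fin (s i)))
    (hc : ∀ i, ∀ D D' : Derivation k (KK k (Fin (s i))) (KK k (Fin (s i))),
      D (l i) * D' (g i) = D' (l i) * D (g i))
    (μ : Fin n → KK k (((i : Fin n) × Fin (s i)) ⊕ Fin m)) (hμ : ∀ i, ∃ e, IsProdFun e (μ i))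
    {N : ℕ} (ρ φ : Fin N → KK k (((i : Fin n) × Fin (s i)) ⊕ Fin m))
    (hρ : ∀ j, ∃ e, IsProdFun e (ρ j)) (A : Fin N → Fin m → ℤ) (hφ : ∀ j, IsProdFun (A j) (φ j))
    (hA : LinearIndependent k fun j l => (A j l : k)) :
    HasStage (BB k (((i : Fin n) × Fin (s i)) ⊕ Fin m)) ((∑ i, s i) + m)
      (Sum.elim (fun i => μ i • lform (incT m i (l i)) (incT m i (g i)))
        (fun j => lform (ρ j) (φ j))) := by
  classical
  choose eμ aμ hμ0 hμ using hμ
  choose eρ aρ hρ0 hρ using hρ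
  choose aφ hφ0 hφ using hφ
  -- the functions of the blocks
  let Z : ∀ i, Set (KK k (Fin (s i))) := fun i =>
    Set.range (fun i' => aμ i' i) ∪ Set.range (fun j => aρ j i) ∪ Set.range fun j => aφ j i
  have hZfin : ∀ i, (Z i).Finite := fun i =>
    ((Set.finite_range _).union (Set.finite_range _)).union (Set.finite_range _)
  have hZ0 : ∀ i, (0 : KK k (Fin (s i))) ∉ Z i := by
    rintro i ((⟨i', h⟩ | ⟨j, h⟩) | ⟨j, h⟩)
    · exact hμ0 i' i h
    · exact hρ0 j i h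
    · exact hφ0 j i h
  have h1 := hasStageZ_sigma' n (fun i => Fin (s i)) s l g Z fun i =>
    hasStageZ_small (s i) (hs i) (l i) (g i) (hc i) (Z i) (hZfin i) (hZ0 i)
  have h2 := h1.closure
  set inc : ∀ i, KK k (Fin (s i)) →ₐ[k] KK k ((i : Fin n) × Fin (s i)) := fun i =>
    incl (fun j : Fin (s i) => (⟨i, j⟩ : (i : Fin n) × Fin (s i)))
      (sigma_mk_injective (β := fun i : Fin n => Fin (s i))) with hinc
  have hprod : ∀ a : ∀ i, KK k (Fin (s i)), (∀ i, a i ∈ Z i) → ∏ i, inc i (a i) ∈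
      mulClosure k {z | ∃ i, ∃ w ∈ Z i, inc i w = z} := by
    intro a ha
    have ha0 : ∀ i, a i ≠ 0 := fun i h => hZ0 i (h ▸ ha i)
    refine mulClosure_prod _ fun i _ => mem_mulClosure ⟨i, a i, ha i, rfl⟩ ?_
    exact (map_ne_zero _).2 (ha0 i)
  have h3 := h2.torus A hA (fun j => ∏ i, inc i (aφ j i)) fun j => hprod _ fun i =>
    Or.inr ⟨j, rfl⟩
  have h4 := h3.closure
  set inl : KK k ((i : Fin n) × Fin (s i)) →ₐ[k] KK k (((i : Fin n) × Fin (s i)) ⊕ Fin m) :=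
    incl Sum.inl Sum.inl_injective with hinl
  set Z₂ : Set (KK k (((i : Fin n) × Fin (s i)) ⊕ Fin m)) :=
    inl '' (mulClosure k {z | ∃ i, ∃ w ∈ Z i, inc i w = z}) ∪
      Set.range (tvar k ((i : Fin n) × Fin (s i))) with hZ₂
  have hprod2 : ∀ (e : Fin m → ℤ) (a : ∀ i, KK k (Fin (s i))), (∀ i, a i ∈ Z i) →
      (∏ l, tvar k ((i : Fin n) × Fin (s i)) l ^ e l) * ∏ i, incT m i (a i) ∈
        mulClosure k Z₂ := by
    intro e a ha
    have ha0 : ∀ i, a i ≠ 0 := fun i h => hZ0 i (h ▸ ha i)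
    have m1 : ∀ l, tvar k ((i : Fin n) × Fin (s i)) l ∈ mulClosure k Z₂ := fun l =>
      mem_mulClosure (Set.mem_union_right _ ⟨l, rfl⟩) (tvar_ne k _ l)
    have m2 : ∀ i, incT m i (a i) ∈ mulClosure k Z₂ := fun i =>
      mem_mulClosure (Set.mem_union_left _ ⟨inc i (a i), mem_mulClosure ⟨i, a i, ha i, rfl⟩
        ((map_ne_zero _).2 (ha0 i)), (incT_eq i (a i)).symm⟩) ((map_ne_zero _).2 (ha0 i))
    exact mulClosure_mul (mulClosure_prod _ fun l _ => mulClosure_zpow (m1 l) _)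
      (mulClosure_prod _ fun i _ => m2 i)
  have hφ' : ∀ j, (∏ l, tvar k ((i : Fin n) × Fin (s i)) l ^ A j l) *
      inl (∏ i, inc i (aφ j i)) = φ j := by
    intro j
    rw [hφ j, map_prod]
    congr 1
    exact Finset.prod_congr rfl fun i _ => (incT_eq i (aφ j i)).symm
  have hφ0' : ∀ j, φ j ≠ 0 := by
    intro j
    rw [hφ j]
    exact mul_ne_zero (Finset.prod_ne_zero_iff.2 fun l _ => zpow_ne_zero _ (tvar_ne k _ l))
      (Finset.prod_ne_zero_iff.2 fun i _ => (map_ne_zero _).2 (hφ0 j i))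
  have h5 := (h4.smul (μ := Sum.elim μ fun j => ρ j * φ j) (by
    rintro (i | j)
    · change μ i ∈ mulClosure k Z₂
      rw [hμ i]
      exact hprod2 _ _ fun i' => Or.inl (Or.inl ⟨i, rfl⟩)
    · change ρ j * φ j ∈ mulClosure k Z₂
      refine mulClosure_mul ?_ ?_
      · rw [hρ j]
        exact hprod2 _ _ fun i' => Or.inl (Or.inr ⟨j, rfl⟩)
      · rw [hφ j]
        exact hprod2 _ _ fun i' => Or.inr ⟨j, rfl⟩)).hasStage
  convert h5 using 1
  funext i
  rcases i with i | j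
  · change μ i • lform (incT m i (l i)) (incT m i (g i)) =
      μ i • lform (inl (inc i (l i))) (inl (inc i (g i)))
    rw [incT_eq, incT_eq]
  · change lform (ρ j) (φ j) = (ρ j * φ j) • lform
      ((∏ l, tvar k ((i : Fin n) × Fin (s i)) l ^ A j l) * inl (∏ i, inc i (aφ j i)))⁻¹
      ((∏ l, tvar k ((i : Fin n) × Fin (s i)) l ^ A j l) * inl (∏ i, inc i (aφ j i)))
    rw [hφ' j]
    refine LinearMap.ext fun D => ?_
    change ρ j * D (φ j) = (ρ j * φ j) * ((φ j)⁻¹ * D (φ j))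
    have := hφ0' j
    field_simp

end Pool.Agent.MP_b525bf_ag_TS
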