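import Pool.Agent.Lib.MP_b525bf_ag_TS.FinalZ

/-!
# V5: Theorem TU, final form
-/

set_option autoImplicit false

namespace Pool.Agent.MP_b525bf_ag_TS

open Pool.Agent.MP_b525bf_ag

section

variable (p : ℕ) [hp : Fact p.Prime] {k : Type} [Field k] [IsAlgClosed k] [CharP k p]

/-- From a stage to the resolution of the variety `z_1 ^ p = f_1, ..., z_r ^ p = f_r`. -/
theorem hasResolution_equations_of_stage {σ I : Type} [Fintype σ] [Fintype I] {r : ℕ}
    (f : Fin r → MvPolynomial σ k)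
    (hfl : LinearIndependent (KK k σ) fun j => lform (k := k) 1 (algebraMap _ (KK k σ) (f j)))
    {ω : I → Derivation k (KK k σ) (KK k σ) →ₗ[KK k σ] KK k σ}
    (h : HasStage (BB k σ) (Fintype.card σ) ω)
    (ν : Fin r → Fin r → KK k σ) (c : Fin r → I → k)
    (hf : ∀ j, ∀ D : Derivation k (KK k σ) (KK k σ),
      D (algebraMap _ (KK k σ) (f j)) = ∑ t, ν j t * ∑ i, algebraMap k _ (c t i) * ω i D) :
    HasResolution k (MvPolynomial (Fin r) (MvPolynomial σ k) ⧸ Ideal.span
      (Set.range fun j : Fin r =>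
        MvPolynomial.X (R := MvPolynomial σ k) j ^ p - MvPolynomial.C (f j))) := by
  refine hasResolution_equations p f (fun c h e => mono_indep p _ hfl c h e) ?_
  have hle := card_le_of_linearIndependent p _ hfl
  obtain ⟨m, hm⟩ : ∃ m, Fintype.card σ = m + r := ⟨Fintype.card σ - r, by omega⟩
  rw [hm] at h
  refine h.hasResolution_r p c ?_ (ν := ν) hf ?_
  · refine linearIndependent_of_comb (ν := ν) (fun j => ?_) hfl
    apply LinearMap.ext
    intro D
    change 1 * D _ = _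
    rw [one_mul, hf j D]
    simp only [LinearMap.smul_apply, LinearMap.sum_apply, smul_eq_mul]
  · exact finrank_Lfs p hm _ hfl

/-- Theorem TU. -/
theorem hasResolution_TU (n m : ℕ) (s : Fin n → ℕ) (hs : ∀ i, s i ≤ 2) {r : ℕ}
    (f : Fin r → MvPolynomial (((i : Fin n) × Fin (s i)) ⊕ Fin m) k)
    (hfl : LinearIndependent (KK k (((i : Fin n) × Fin (s i)) ⊕ Fin m))
      fun j => lform (k := k) 1 (algebraMap _ (KK k (((i : Fin n) × Fin (s i)) ⊕ Fin m)) (f j)))
    (l g : ∀ i, KK k (Fin (s i)))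
    (hc : ∀ i, ∀ D D' : Derivation k (KK k (Fin (s i))) (KK k (Fin (s i))),
      D (l i) * D' (g i) = D' (l i) * D (g i))
    (μ : Fin n → KK k (((i : Fin n) × Fin (s i)) ⊕ Fin m)) (hμ : ∀ i, ∃ e, IsProdFun e (μ i))
    {N : ℕ} (ρ φ : Fin N → KK k (((i : Fin n) × Fin (s i)) ⊕ Fin m))
    (hρ : ∀ j, ∃ e, IsProdFun e (ρ j)) (A : Fin N → Fin m → ℤ) (hφ : ∀ j, IsProdFun (A j) (φ j))
    (hA : LinearIndependent k fun j l => (A j l : k))
    (ν : Fin r → Fin r → KK k (((i : Fin n) × Fin (s i)) ⊕ Fin m))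
    (c : Fin r → Fin n → k) (c' : Fin r → Fin N → k)
    (hf : ∀ j, ∀ D : Derivation k (KK k (((i : Fin n) × Fin (s i)) ⊕ Fin m))
        (KK k (((i : Fin n) × Fin (s i)) ⊕ Fin m)),
      D (algebraMap _ (KK k (((i : Fin n) × Fin (s i)) ⊕ Fin m)) (f j)) =
        ∑ t, ν j t * (∑ i, algebraMap k _ (c t i) * (μ i * (incT m i (l i) * D (incT m i (g i)))) +
          ∑ i, algebraMap k _ (c' t i) * (ρ i * D (φ i)))) :
    HasResolution k (MvPolynomial (Fin r) (MvPolynomial (((i : Fin n) × Fin (s i)) ⊕ Fin m) k) ⧸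
      Ideal.span (Set.range fun j : Fin r =>
        MvPolynomial.X (R := MvPolynomial (((i : Fin n) × Fin (s i)) ⊕ Fin m) k) j ^ p -
          MvPolynomial.C (f j))) := by
  have h1 := hasStage_TU n m s hs l g hc μ hμ ρ φ hρ A hφ hA
  have hcard : Fintype.card (((i : Fin n) × Fin (s i)) ⊕ Fin m) = (∑ i, s i) + m := by simp
  rw [← hcard] at h1
  refine hasResolution_equations_of_stage p f hfl h1 ν (fun t => Sum.elim (c t) (c' t))
    fun j D => ?_
  rw [hf j D]
  refine Finset.sum_congr rfl fun t _ => ?_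
  rw [Fintype.sum_sum_type]
  rfl

end

end Pool.Agent.MP_b525bf_ag_TS
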