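import Pool.Agent.Lib.MP_b525bf_ag_TS.FinalZ2

/-!
# V6: the variety of Theorem TU is a variety
-/

set_option autoImplicit false

namespace Pool.Agent.MP_b525bf_ag_TS

open Pool.Agent.MP_b525bf_ag

/-- The coordinate ring of `z_1 ^ p = f_1, ..., z_r ^ p = f_r` is a domain if the differentials of
the `f_j` are linearly independent. -/
theorem isDomain_equations (p : ℕ) [Fact p.Prime] {k : Type} [Field k] [IsAlgClosed k]
    [CharP k p] {σ : Type} [Fintype σ] {r : ℕ} (f : Fin r → MvPolynomial σ k)
    (hfl : LinearIndependent (KK k σ) fun j => lform (k := k) 1 (algebraMap _ (KK k σ) (f j))) :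
    IsDomain (MvPolynomial (Fin r) (MvPolynomial σ k) ⧸ Ideal.span
      (Set.range fun j : Fin r => MvPolynomial.X (R := MvPolynomial σ k) j ^ p -
        MvPolynomial.C (f j))) := by
  obtain ⟨E, -⟩ := R3.exists_A1_equiv p (f := f) fun c h e => mono_indep p _ hfl c h e
  exact E.symm.toMulEquiv.isDomain (R3.A1 p f)

end Pool.Agent.MP_b525bf_ag_TS
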