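import Pool.Agent.Lib.MP_b525bf_ag_TS.InitGMain

/-!
# F1: the exponents of an object on a model of the plane
-/

set_option autoImplicit false

namespace Pool.Agent.MP_b525bf_ag_TS

open MvPolynomial

variable {k : Type} [Field k]

/-- The local ring of the plane at the generic point of the curve `π = 0` (for a prime `π`). -/
noncomputable def primeLoc (π : MvPolynomial (Fin 2) k) (hπ : Prime π) :
    Subalgebra k (KK k (Fin 2)) where
  carrier := {z | ∃ a b : MvPolynomial (Fin 2) k, ¬ π ∣ b ∧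
    z * algebraMap _ (KK k (Fin 2)) b = algebraMap _ (KK k (Fin 2)) a}
  mul_mem' := by
    rintro z w ⟨a, b, hb, h1⟩ ⟨a', b', hb', h2⟩
    refine ⟨a * a', b * b', fun h => (hπ.dvd_or_dvd h).elim hb hb', ?_⟩
    rw [map_mul, map_mul, ← h1, ← h2]; ring
  add_mem' := by
    rintro z w ⟨a, b, hb, h1⟩ ⟨a', b', hb', h2⟩
    refine ⟨a * b' + a' * b, b * b', fun h => (hπ.dvd_or_dvd h).elim hb hb', ?_⟩
    rw [map_add, map_mul, map_mul, map_mul, ← h1, ← h2]; ring
  algebraMap_mem' r := ⟨C r, 1, fun h => hπ.not_isUnit (isUnit_of_dvd_one h), by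
    rw [map_one, mul_one]; rfl⟩

/-- The rational function `z` vanishes on the curve `π = 0`. -/
def Vanish (π : MvPolynomial (Fin 2) k) (hπ : Prime π) (z : KK k (Fin 2)) : Prop :=
  ∃ w ∈ primeLoc π hπ, z = algebraMap _ (KK k (Fin 2)) π * w

/-- The object is regular and does not vanish identically on the curve `π = 0`. -/
def Obj.GoodOn (θ : Obj k (KK k (Fin 2))) (π : MvPolynomial (Fin 2) k) (hπ : Prime π) : Prop :=
  ∀ D : Fin 2 → Derivation k (KK k (Fin 2)) (KK k (Fin 2)),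
    (∀ i, ∀ g : MvPolynomial (Fin 2) k, D i (algebraMap _ (KK k (Fin 2)) g) =
      algebraMap _ (KK k (Fin 2)) (pderiv i g)) →
    θ.h ∈ primeLoc π hπ ∧ (∀ i, θ.ω (D i) ∈ primeLoc π hπ) ∧
      ¬ (Vanish π hπ θ.h ∧ ∀ i, Vanish π hπ (θ.ω (D i)))

variable {E : Type} [Fintype E] {J : E → Ideal (BB k (Fin 2))} {e : E → E → ℤ}
  {V : E → Subalgebra k (KK k (Fin 2))}

/-- A component through one point passes through all points which are contained in its valuation
ring. -/
theorem Nc2.passes_iff (h : Nc2 (BB k (Fin 2)) J e V) {R R' : Subalgebra k (KK k (Fin 2))}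
    (hR' : Pt (BB k (Fin 2)) J R')
    {g g' : E → KK k (Fin 2)} {x y x' y' : KK k (Fin 2)}
    {Dx Dy Dx' Dy' : Derivation k (KK k (Fin 2)) (KK k (Fin 2))} {s t s' t' : Bool}
    {b b' : E → Option Bool} (hp : PtNc (BB k (Fin 2)) J e V R g x y Dx Dy s t b)
    (hp' : PtNc (BB k (Fin 2)) J e V R' g' x' y' Dx' Dy' s' t' b') {j : E} (hj : b j ≠ none) :
    R' ≤ V j ↔ b' j ≠ none :=
  F1.passes_iff hp hp' hj

/-- Every object which is regular and nonzero on all curves outside the boundary defines a stage,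
with suitable exponents. -/
theorem Nc2.exists_stage2 [IsAlgClosed k] (h : Nc2 (BB k (Fin 2)) J e V)
    {θ : Obj k (KK k (Fin 2))} (h0 : θ.h ≠ 0 ∨ θ.ω ≠ 0)
    (hθ : ∀ (π : MvPolynomial (Fin 2) k) (hπ : Prime π),
      InBd (BB k (Fin 2)) J e V (primeLoc π hπ) ∨ θ.GoodOn π hπ) :
    ∃ α : E → ℤ, Stage2 (BB k (Fin 2)) θ J e V α := by
  let φ : MvPolynomial (Fin 2) k →ₐ[k] KK k (Fin 2) :=
    Algebra.algHom k (MvPolynomial (Fin 2) k) (KK k (Fin 2))
  have hφ : Function.Injective φ :=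
    IsFractionRing.injective (MvPolynomial (Fin 2) k) (KK k (Fin 2))
  have hfr : ∀ z : KK k (Fin 2), ∃ f g, IsRelPrime f g ∧ φ g ≠ 0 ∧ z * φ g = φ f := by
    intro z
    obtain ⟨f, g, hfg, rfl⟩ := IsFractionRing.exists_reduced_fraction (MvPolynomial (Fin 2) k) z
    refine ⟨f, g, hfg, fun h0 => nonZeroDivisors.ne_zero g.2 (hφ (by rw [h0, map_zero])), ?_⟩
    exact IsLocalization.mk'_spec _ f g
  choose D hD using fun i : Fin 2 => exists_partial (k := k) i
  have hloc : ∀ (π : MvPolynomial (Fin 2) k) (hπ : Prime π),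
      primeLoc π hπ = F1.curveLoc φ π hπ := fun π hπ => rfl
  have hθ' : ∀ (π : MvPolynomial (Fin 2) k) (hπ : Prime π),
      InBd φ.range J e V (F1.curveLoc φ π hπ) ∨ F1.GoodG φ θ D π hπ := fun π hπ =>
    (hθ π hπ).imp (fun h => h) fun h => h D hD
  exact F1.exists_stage2_gen hφ hfr hD h h0 hθ'

end Pool.Agent.MP_b525bf_ag_TS
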