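import Pool.Agent.Lib.MP_b525bf_ag_TS.InitGVal

/-!
# F1, part 3: the exponents of an object along the components of the boundary
-/

set_option autoImplicit false

namespace Pool.Agent.MP_b525bf_ag_TS

namespace F1

variable {k K : Type} [Field k] [Field K] [Algebra k K]

section Gen

variable {B : Subalgebra k K} {E : Type} [Fintype E] {J : E → Ideal B} {e : E → E → ℤ}
  {W : E → Subalgebra k K} {R : Subalgebra k K} {h : E → K} {x y : K} {Dx Dy : Derivation k K K}
  {s t : Bool} {b : E → Option Bool}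

omit [Fintype E] in
lemma gen_mono {V : Subalgebra k K} (hh : GenAt B J R h) (hV : R ≤ V) : GenAt B J V h :=
  ⟨hh.1, fun i w hw => hV (hh.2 i w hw)⟩

/-- The roles of `x` and `y` can be exchanged. -/
lemma swap (hp : PtNc B J e W R h x y Dx Dy s t b) :
    PtNc B J e W R h y x Dy Dx t s fun j => (b j).map (!·) where
  gen := hp.gen
  reg := hp.reg.symm
  b0 j hj := hp.b0 j (by rcases hb : b j with _ | _ | _ <;> simp [hb] at hj ⊢)
  bx j hj := hp.by' j (by rcases hb : b j with _ | _ | _ <;> simp [hb] at hj ⊢)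
  by' j hj := hp.bx j (by rcases hb : b j with _ | _ | _ <;> simp [hb] at hj ⊢)
  s_iff := by
    rw [hp.t_iff]
    refine exists_congr fun j => ?_
    rcases hb : b j with _ | _ | _ <;> simp
  t_iff := by
    rw [hp.s_iff]
    refine exists_congr fun j => ?_
    rcases hb : b j with _ | _ | _ <;> simp
  inj j j' hj he := by
    refine hp.inj j j' (fun h => hj (by rw [h]; rfl)) ?_
    rcases hb : b j with _ | _ | _ <;> rcases hb' : b j' with _ | _ | _ <;> simp [hb, hb'] at he ⊢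
  val j hj := hp.val j fun h => hj (by rw [h]; rfl)

lemma val_x (hp : PtNc B J e W R h x y Dx Dy s t b) {j : E} (hj : b j = some false) :
    Val R x (W j) := by
  have h1 := hp.bx j hj
  have h2 := (hp.val j (by rw [hj]; simp)).mul_unit h1.inv
  have h3 : xi h e j * (xi h e j / x)⁻¹ = x := by
    have := xi_ne hp j
    have := x_ne hp.reg
    field_simp
  rwa [h3] at h2

lemma val_y (hp : PtNc B J e W R h x y Dx Dy s t b) {j : E} (hj : b j = some true) :
    Val R y (W j) := val_x (swap hp) (by rw [hj]; rfl)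

lemma y_unit {V : Subalgebra k K} (hr : Reg R x y Dx Dy) (hV : Val R x V) : UnitIn V y :=
  ⟨y_ne hr, hV.2.1 hr.hy, hV.2.2.2 y hr.hy fun u hu he =>
    reg_y_pow hr 1 u hu (by rw [pow_one]; exact he)⟩

/-- The other components are units. -/
lemma other_unit (hp : PtNc B J e W R h x y Dx Dy s t b) {j j' : E} (hj : b j ≠ none)
    (hne : j ≠ j') : UnitIn (W j) (xi h e j') := by
  have hle : R ≤ W j := (hp.val j hj).2.1
  rcases hb : b j with _ | _ | _
  · exact absurd hb hj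
  · rcases hb' : b j' with _ | _ | _
    · exact unit_mono hle (hp.b0 j' hb')
    · exact absurd (hp.inj j j' hj (by rw [hb, hb'])) hne
    · have h1 := (unit_mono hle (hp.by' j' hb')).mul (y_unit hp.reg (val_x hp hb))
      rwa [div_mul_cancel₀ _ (y_ne hp.reg)] at h1
  · rcases hb' : b j' with _ | _ | _
    · exact unit_mono hle (hp.b0 j' hb')
    · have h1 := (unit_mono hle (hp.bx j' hb')).mul (y_unit hp.reg.symm (val_y hp hb))
      rwa [div_mul_cancel₀ _ (x_ne hp.reg)] at h1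
    · exact absurd (hp.inj j j' hj (by rw [hb, hb'])) hne

/-- `γ` is the power of the equation of the component times a unit. -/
lemma gamma_unit (hp : PtNc B J e W R h x y Dx Dy s t b) {j : E} (hj : b j ≠ none) (α : E → ℤ) :
    UnitIn (W j) ((∏ i, xi h e i ^ α i) / xi h e j ^ α j) := by
  classical
  have h1 : (∏ i, xi h e i ^ α i) / xi h e j ^ α j =
      ∏ i ∈ Finset.univ.erase j, xi h e i ^ α i := by
    rw [← Finset.mul_prod_erase Finset.univ (fun i => xi h e i ^ α i) (Finset.mem_univ j),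
      mul_div_cancel_left₀ _ (zpow_ne_zero _ (xi_ne hp j))]
  rw [h1]
  refine unit_prod _ fun i hi => (other_unit hp hj ?_).zpow _
  exact fun he => (Finset.mem_erase.1 hi).1 he.symm

end Gen

/-! ### Divisibility of the object -/

/-- The object is divisible by `ξ ^ n` along `V`. -/
def PP (θ : Obj k K) (V : Subalgebra k K) (ξ : K) (δ ε : Derivation k K K) (n : ℤ) : Prop :=
  θ.h / ξ ^ n ∈ V ∧ θ.ω δ / ξ ^ n ∈ V ∧ θ.ω ε / ξ ^ n ∈ V

/-- The object is divisible by `ξ ^ n` along `V`, invariant form. -/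
def QQ (θ : Obj k K) (V : Subalgebra k K) (ξ : K) (n : ℤ) : Prop :=
  θ.h / ξ ^ n ∈ V ∧ ∀ D : Derivation k K K, (∀ z ∈ V, D z ∈ V) → D ξ / ξ ∈ V →
    θ.ω D / ξ ^ n ∈ V

lemma div_zpow_mem {V : Subalgebra k K} {ξ ξ' z : K} (hξ : ξ ≠ 0) (hu : UnitIn V (ξ' / ξ))
    (n : ℤ) (hz : z / ξ ^ n ∈ V) : z / ξ' ^ n ∈ V := by
  have h0 : ξ' ≠ 0 := fun h => hu.1 (by rw [h, zero_div])
  have h1 : z / ξ' ^ n = z / ξ ^ n * ((ξ' / ξ) ^ n)⁻¹ := by
    rw [div_zpow]
    have := zpow_ne_zero n hξ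
    have := zpow_ne_zero n h0
    field_simp
  rw [h1]
  exact V.mul_mem hz (hu.zpow n).inv.2.1

lemma qq_unit {θ : Obj k K} {V : Subalgebra k K} {ξ ξ' : K} (hξ : ξ ≠ 0)
    (hu : UnitIn V (ξ' / ξ)) {n : ℤ} (hq : QQ θ V ξ n) : QQ θ V ξ' n := by
  refine ⟨div_zpow_mem hξ hu n hq.1, fun D hD h1 => div_zpow_mem hξ hu n (hq.2 D hD ?_)⟩
  have h0 : ξ' ≠ 0 := fun h => hu.1 (by rw [h, zero_div])
  have h2 : ξ = ξ' * (ξ' / ξ)⁻¹ := by field_simp
  rw [h2]
  refine log_mul h0 hu.inv.1 h1 ?_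
  rw [div_eq_mul_inv]
  exact V.mul_mem (hD _ hu.inv.2.1) hu.inv.2.2

section Exp

variable {B : Subalgebra k K} {E : Type} [Fintype E] {J : E → Ideal B} {e : E → E → ℤ}
  {W : E → Subalgebra k K} {R : Subalgebra k K} {h : E → K} {x y : K} {Dx Dy : Derivation k K K}
  {s t : Bool} {b : E → Option Bool} {θ : Obj k K}

lemma smul_lD {c : K} (s : Bool) {D : Derivation k K K} {x : K} (hx : x ≠ 0) :
    c • D = (if s then c / x else c) • lD s x D := by
  unfold lD
  split_ifs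
  · rw [smul_smul, div_mul_cancel₀ _ hx]
  · rfl

lemma pp_qq (hp : PtNc B J e W R h x y Dx Dy s t b) {j : E} (hj : b j = some false) {n : ℤ}
    (hq : PP θ (W j) (xi h e j) (lD s x Dx) (lD t y Dy) n) : QQ θ (W j) (xi h e j) n := by
  refine ⟨hq.1, fun D hD h1 => ?_⟩
  have hV := val_x hp hj
  have hx0 := x_ne hp.reg
  have hy0 := y_ne hp.reg
  have hyu := y_unit hp.reg hV
  have hs : s = true := hp.s_iff.2 ⟨j, hj⟩
  have hb := unit_mono hV.2.1 (hp.bx j hj)
  have h2 : D x / x ∈ W j := by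
    have h3 : x = xi h e j * (xi h e j / x)⁻¹ := by
      have := xi_ne hp j
      field_simp
    rw [h3]
    refine log_mul (xi_ne hp j) hb.inv.1 h1 ?_
    rw [div_eq_mul_inv]
    exact (W j).mul_mem (hD _ hb.inv.2.1) hb.inv.2.2
  have h3 : D = (D x / x) • lD s x Dx + (if t then D y / y else D y) • lD t y Dy := by
    conv_lhs => rw [hp.reg.basis D, smul_lD (D := Dx) s hx0, smul_lD (D := Dy) t hy0]
    rw [hs, if_pos rfl]
  have h4 : θ.ω D / xi h e j ^ n = (D x / x) * (θ.ω (lD s x Dx) / xi h e j ^ n) +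
      (if t then D y / y else D y) * (θ.ω (lD t y Dy) / xi h e j ^ n) := by
    conv_lhs => rw [h3, map_add, map_smul, map_smul, smul_eq_mul, smul_eq_mul]
    ring
  rw [h4]
  refine (W j).add_mem ((W j).mul_mem h2 hq.2.1) ((W j).mul_mem ?_ hq.2.2)
  split_ifs
  · rw [div_eq_mul_inv]
    exact (W j).mul_mem (hD _ hyu.2.1) hyu.2.2
  · exact hD _ hyu.2.1

/-- The divisibility does not depend on the coordinates. -/
lemma pp_iff [IsNoetherianRing R] (hF : Fr R) (hp : PtNc B J e W R h x y Dx Dy s t b) {j : E}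
    (hj : b j ≠ none) {n : ℤ} :
    PP θ (W j) (xi h e j) (lD s x Dx) (lD t y Dy) n ↔ QQ θ (W j) (xi h e j) n := by
  constructor
  · intro hq
    rcases hb : b j with _ | _ | _
    · exact absurd hb hj
    · exact pp_qq hp hb hq
    · exact pp_qq (swap hp) (by rw [hb]; rfl) ⟨hq.1, hq.2.2, hq.2.1⟩
  · intro hq
    have hV := hp.val j hj
    exact ⟨hq.1, hq.2 _ (val_der hF hV fun z hz => lD_mem hp.reg.hx hp.reg.Dx_mem s hz)
      (hV.2.1 (log_xi_x hp j)), hq.2 _
      (val_der hF hV fun z hz => lD_mem hp.reg.hy hp.reg.Dy_mem t hz) (hV.2.1 (log_xi_y hp j))⟩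

lemma div_mono {V : Subalgebra k K} {ξ z : K} (hV : Val R ξ V) {m n : ℤ} (hmn : m ≤ n)
    (hz : z / ξ ^ n ∈ V) : z / ξ ^ m ∈ V := by
  have hξ := val_ne hV
  have h1 : z / ξ ^ m = z / ξ ^ n * ξ ^ (n - m) := by
    rw [zpow_sub₀ hξ]
    have := zpow_ne_zero n hξ
    have := zpow_ne_zero m hξ
    field_simp
  rw [h1]
  exact V.mul_mem hz (val_pow_mem hV (by omega))

lemma exists_div [IsNoetherianRing R] (hF : Fr R) {V : Subalgebra k K} {ξ : K} (hV : Val R ξ V)
    (z : K) : ∃ n : ℤ, z / ξ ^ n ∈ V ∧ (z ≠ 0 → ∀ m : ℤ, z / ξ ^ m ∈ V → m ≤ n) := by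
  rcases eq_or_ne z 0 with rfl | h0
  · exact ⟨0, by rw [zero_div]; exact V.zero_mem, fun h => absurd rfl h⟩
  · obtain ⟨n, a, b, ha, hb, hau, hbu, he⟩ := val_order hF hV h0
    have hξ := val_ne hV
    refine ⟨n, ?_, fun _ m hm => ?_⟩
    · rw [he, mul_div_assoc, mul_div_left_comm, div_self (zpow_ne_zero n hξ), mul_one]
      exact (unit_div hau hbu).2.1
    · have h1 : z / ξ ^ m = ξ ^ (n - m) * (a / b) := by
        rw [he, zpow_sub₀ hξ]
        ring
      rw [h1] at hm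
      have := val_nonneg hV (unit_div hau hbu) hm
      omega

lemma exists_max [IsNoetherianRing R] (hF : Fr R) {V : Subalgebra k K} {ξ : K} (hV : Val R ξ V)
    {δ ε : Derivation k K K} (hne : θ.h ≠ 0 ∨ θ.ω δ ≠ 0 ∨ θ.ω ε ≠ 0) :
    ∃ n : ℤ, PP θ V ξ δ ε n ∧ ¬ PP θ V ξ δ ε (n + 1) := by
  obtain ⟨n₁, h1, h1'⟩ := exists_div hF hV θ.h
  obtain ⟨n₂, h2, h2'⟩ := exists_div hF hV (θ.ω δ)
  obtain ⟨n₃, h3, h3'⟩ := exists_div hF hV (θ.ω ε)
  have hb : ∃ N : ℤ, ∀ m, PP θ V ξ δ ε m → m ≤ N := by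
    rcases hne with h | h | h
    · exact ⟨n₁, fun m hm => h1' h m hm.1⟩
    · exact ⟨n₂, fun m hm => h2' h m hm.2.1⟩
    · exact ⟨n₃, fun m hm => h3' h m hm.2.2⟩
  have hi : ∃ m, PP θ V ξ δ ε m := ⟨min n₁ (min n₂ n₃), div_mono hV (min_le_left _ _) h1,
    div_mono hV ((min_le_right _ _).trans (min_le_left _ _)) h2,
    div_mono hV ((min_le_right _ _).trans (min_le_right _ _)) h3⟩
  obtain ⟨n, hn, hn'⟩ := Int.exists_greatest_of_bdd hb hi
  exact ⟨n, hn, fun h => by have := hn' _ h; omega⟩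

lemma omega_ne (hr : Reg R x y Dx Dy) (s t : Bool) (hω : θ.ω ≠ 0) :
    θ.ω (lD s x Dx) ≠ 0 ∨ θ.ω (lD t y Dy) ≠ 0 := by
  by_contra hcon
  push Not at hcon
  apply hω
  refine LinearMap.ext fun D => ?_
  rw [hr.basis D, smul_lD (D := Dx) s (x_ne hr), smul_lD (D := Dy) t (y_ne hr), map_add, map_smul,
    map_smul, hcon.1, hcon.2, smul_zero, smul_zero, add_zero]
  rfl

/-- The exponents of the object along the components of the boundary. -/
lemma exists_alpha (hF : ∀ R, Pt B J R → Fr R) (h0 : θ.h ≠ 0 ∨ θ.ω ≠ 0) :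
    ∃ α : E → ℤ, ∀ (R : Subalgebra k K) (h : E → K) (x y : K) (Dx Dy : Derivation k K K)
      (s t : Bool) (b : E → Option Bool), Pt B J R → PtNc B J e W R h x y Dx Dy s t b →
      ∀ j, b j ≠ none → PP θ (W j) (xi h e j) (lD s x Dx) (lD t y Dy) (α j) ∧
        ¬ PP θ (W j) (xi h e j) (lD s x Dx) (lD t y Dy) (α j + 1) := by
  have key : ∀ j : E, ∃ a : ℤ, ∀ (R : Subalgebra k K) (h : E → K) (x y : K)
      (Dx Dy : Derivation k K K) (s t : Bool) (b : E → Option Bool), Pt B J R →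
      PtNc B J e W R h x y Dx Dy s t b → b j ≠ none →
      PP θ (W j) (xi h e j) (lD s x Dx) (lD t y Dy) a ∧
        ¬ PP θ (W j) (xi h e j) (lD s x Dx) (lD t y Dy) (a + 1) := by
    intro j
    by_cases hex : ∃ (R : Subalgebra k K) (h : E → K) (x y : K)
        (Dx Dy : Derivation k K K) (s t : Bool) (b : E → Option Bool), Pt B J R ∧
        PtNc B J e W R h x y Dx Dy s t b ∧ b j ≠ none
    · obtain ⟨R, h, x, y, Dx, Dy, s, t, b, hR, hp, hj⟩ := hex
      have := reg_noeth hp.reg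
      have hne : θ.h ≠ 0 ∨ θ.ω (lD s x Dx) ≠ 0 ∨ θ.ω (lD t y Dy) ≠ 0 :=
        h0.imp_right fun h => omega_ne hp.reg s t h
      obtain ⟨a, ha, ha'⟩ := exists_max (hF R hR) (hp.val j hj) hne
      rw [pp_iff (hF R hR) hp hj] at ha ha'
      refine ⟨a, fun R' h' x' y' Dx' Dy' s' t' b' hR' hp' hj' => ?_⟩
      have := reg_noeth hp'.reg
      have g1 := gen_mono hp.gen (hp.val j hj).2.1
      have g2 := gen_mono hp'.gen (hp'.val j hj').2.1
      rw [pp_iff (hF R' hR') hp' hj', pp_iff (hF R' hR') hp' hj']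
      exact ⟨qq_unit (xi_ne hp j) (g1.xi_unit g2 e j) ha,
        fun hq => ha' (qq_unit (xi_ne hp' j) (g2.xi_unit g1 e j) hq)⟩
    · exact ⟨0, fun R' h' x' y' Dx' Dy' s' t' b' hR' hp' hj' =>
        absurd ⟨R', h', x', y', Dx', Dy', s', t', b', hR', hp', hj'⟩ hex⟩
  choose α hα using key
  exact ⟨α, fun R h x y Dx Dy s t b hR hp j hj => hα j R h x y Dx Dy s t b hR hp hj⟩

end Exp

end F1

variable {k K : Type} [Field k] [Field K] [Algebra k K]

/-- A component through one point passes through all points which are contained in its valuation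
ring. -/
theorem F1.passes_iff {B : Subalgebra k K} {E : Type} [Fintype E] {J : E → Ideal B}
    {e : E → E → ℤ} {V : E → Subalgebra k K} {R R' : Subalgebra k K}
    {g g' : E → K} {x y x' y' : K} {Dx Dy Dx' Dy' : Derivation k K K} {s t s' t' : Bool}
    {b b' : E → Option Bool} (hp : PtNc B J e V R g x y Dx Dy s t b)
    (hp' : PtNc B J e V R' g' x' y' Dx' Dy' s' t' b') {j : E} (hj : b j ≠ none) :
    R' ≤ V j ↔ b' j ≠ none := by
  constructor
  · intro hle hn
    have hV := hp.val j hj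
    have h1 := F1.unit_mono hle (hp'.b0 j hn)
    have h2 := (F1.gen_mono hp'.gen hle).xi_unit (F1.gen_mono hp.gen hV.2.1) e j
    have h3 := h2.mul h1
    rw [div_mul_cancel₀ _ h1.1] at h3
    exact hV.2.2.1 h3.2.2
  · exact fun h => (hp'.val j h).2.1

end Pool.Agent.MP_b525bf_ag_TS
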