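import Pool.Agent.Lib.MP_b525bf_ag_TS.InitGAlpha
import Pool.Agent.Lib.MP_b525bf_ag_TS.Init

/-!
# F1, part 4: curves through a point of a model of the plane
-/

set_option autoImplicit false

namespace Pool.Agent.MP_b525bf_ag_TS

namespace F1

open MvPolynomial

section Loc

variable {k K : Type} [Field k] [Field K] [Algebra k K]

/-- The localisation of `R` at the prime ideal `P`. -/
def locAt (R : Subalgebra k K) (P : Ideal R) [hP : P.IsPrime] : Subalgebra k K where
  carrier := {z | ∃ a b : R, b ∉ P ∧ z * (b : K) = a}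
  mul_mem' := by
    rintro z w ⟨a, b, hb, h1⟩ ⟨a', b', hb', h2⟩
    refine ⟨a * a', b * b', fun h => (hP.mem_or_mem h).elim hb hb', ?_⟩
    push_cast
    rw [← h1, ← h2]; ring
  add_mem' := by
    rintro z w ⟨a, b, hb, h1⟩ ⟨a', b', hb', h2⟩
    refine ⟨a * b' + a' * b, b * b', fun h => (hP.mem_or_mem h).elim hb hb', ?_⟩
    push_cast
    rw [← h1, ← h2]; ring
  algebraMap_mem' r := ⟨algebraMap k R r, 1, hP.one_notMem, by simp⟩

variable {R : Subalgebra k K} {P : Ideal R} [hP : P.IsPrime]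

lemma le_locAt : R ≤ locAt R P := fun z hz => ⟨⟨z, hz⟩, 1, hP.one_notMem, by simp⟩

lemma locAt_unit {z : R} (hz : z ∉ P) : UnitIn (locAt R P) (z : K) := by
  have h0 : (z : K) ≠ 0 := fun h => hz (by
    have : z = 0 := Subtype.ext h
    rw [this]; exact P.zero_mem)
  exact ⟨h0, le_locAt z.2, 1, z, hz, by rw [inv_mul_cancel₀ h0]; rfl⟩

lemma notMem_of_unit {z : R} (hz : UnitIn (locAt R P) (z : K)) : z ∉ P := by
  intro h
  obtain ⟨h0, -, a, b, hb, he⟩ := hz
  apply hb
  have h1 : b = z * a := Subtype.ext (by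
    change (b : K) = z * a
    rw [← he, mul_inv_cancel_left₀ h0])
  rw [h1]
  exact P.mul_mem_right a h

/-- The functions which are regular at `R` outside the boundary. -/
def offB (R : Subalgebra k K) (x y : K) (hx : x ∈ R) (hy : y ∈ R) (s t : Bool) :
    Subalgebra k K where
  carrier := {z | ∃ m n : ℕ, (s = false → m = 0) ∧ (t = false → n = 0) ∧
    z * (x ^ m * y ^ n) ∈ R}
  mul_mem' := by
    rintro z w ⟨m, n, h1, h2, h3⟩ ⟨m', n', h1', h2', h3'⟩
    refine ⟨m + m', n + n', fun h => by rw [h1 h, h1' h], fun h => by rw [h2 h, h2' h], ?_⟩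
    have := R.mul_mem h3 h3'
    have he : z * w * (x ^ (m + m') * y ^ (n + n')) =
      z * (x ^ m * y ^ n) * (w * (x ^ m' * y ^ n')) := by ring
    rwa [he]
  add_mem' := by
    rintro z w ⟨m, n, h1, h2, h3⟩ ⟨m', n', h1', h2', h3'⟩
    refine ⟨m + m', n + n', fun h => by rw [h1 h, h1' h], fun h => by rw [h2 h, h2' h], ?_⟩
    have h4 := R.mul_mem h3 (R.mul_mem (R.pow_mem hx m') (R.pow_mem hy n'))
    have h5 := R.mul_mem h3' (R.mul_mem (R.pow_mem hx m) (R.pow_mem hy n))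
    have he : (z + w) * (x ^ (m + m') * y ^ (n + n')) =
      z * (x ^ m * y ^ n) * (x ^ m' * y ^ n') + w * (x ^ m' * y ^ n') * (x ^ m * y ^ n) := by ring
    rw [he]
    exact R.add_mem h4 h5
  algebraMap_mem' r := ⟨0, 0, fun _ => rfl, fun _ => rfl, by
    rw [pow_zero, pow_zero, mul_one, mul_one]; exact R.algebraMap_mem r⟩

variable {x y : K} {hx : x ∈ R} {hy : y ∈ R} {s t : Bool}

omit hP in
lemma le_offB : R ≤ offB R x y hx hy s t := fun z hz => ⟨0, 0, fun _ => rfl, fun _ => rfl, by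
  rwa [pow_zero, pow_zero, mul_one, mul_one]⟩

lemma offB_le (hxP : s = true → (⟨x, hx⟩ : R) ∉ P) (hyP : t = true → (⟨y, hy⟩ : R) ∉ P) :
    offB R x y hx hy s t ≤ locAt R P := by
  rintro z ⟨m, n, h1, h2, h3⟩
  refine ⟨⟨_, h3⟩, ⟨x, hx⟩ ^ m * ⟨y, hy⟩ ^ n, fun h => ?_, rfl⟩
  rcases hP.mem_or_mem h with h | h
  · rcases hs : s with _ | _
    · rw [h1 hs, pow_zero] at h
      exact hP.one_notMem h
    · exact hxP hs (hP.mem_of_pow_mem m h)
  · rcases ht : t with _ | _
    · rw [h2 ht, pow_zero] at h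
      exact hP.one_notMem h
    · exact hyP ht (hP.mem_of_pow_mem n h)

omit hP in
lemma val_dvd {V : Subalgebra k K} (hV : Val R x V) {f : K} (hf : f ∈ R) (h : f / x ∈ V) :
    ∃ u ∈ R, f = x * u := by
  by_contra hcon
  push Not at hcon
  have h1 := hV.2.2.2 f hf hcon
  have h0 : f ≠ 0 := fun h0 => hcon 0 R.zero_mem (by rw [h0, mul_zero])
  apply hV.2.2.1
  have h2 := V.mul_mem h h1
  rwa [div_mul_eq_mul_div, mul_inv_cancel₀ h0, one_div] at h2

omit hP in
lemma descend {V : Subalgebra k K} (hV : Val R x V) {z : K} (hz : z ∈ V) (n : ℕ)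
    (hn : z * x ^ n ∈ R) : z ∈ R := by
  induction n with
  | zero => rwa [pow_zero, mul_one] at hn
  | succ n ih =>
    have hx0 := val_ne hV
    obtain ⟨u, hu, he⟩ := val_dvd hV hn (by
      rw [pow_succ, ← mul_assoc, mul_div_cancel_right₀ _ hx0]
      exact V.mul_mem hz (V.pow_mem (hV.2.1 hV.1) n))
    apply ih
    have h1 : z * x ^ n = u := by
      apply mul_left_cancel₀ hx0
      rw [← he]; ring
    rwa [h1]

end Loc

section Model

variable {k K : Type} [Field k] [Field K] [Algebra k K] {B : Subalgebra k K}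
  {E : Type} [Fintype E] {J : E → Ideal B} {e : E → E → ℤ}
  {W : E → Subalgebra k K} {R : Subalgebra k K} {h : E → K} {x y : K} {Dx Dy : Derivation k K K}
  {s t : Bool} {b : E → Option Bool}

lemma x_offB (hr : Reg R x y Dx Dy) (hs : s = true) :
    UnitIn (offB R x y hr.hx hr.hy s t) x :=
  ⟨x_ne hr, le_offB hr.hx, 1, 0, fun h => by simp [hs] at h, fun _ => rfl, by
    rw [pow_one, pow_zero, mul_one, inv_mul_cancel₀ (x_ne hr)]; exact R.one_mem⟩

lemma y_offB (hr : Reg R x y Dx Dy) (ht : t = true) :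
    UnitIn (offB R x y hr.hx hr.hy s t) y :=
  ⟨y_ne hr, le_offB hr.hy, 0, 1, fun _ => rfl, fun h => by simp [ht] at h, by
    rw [pow_one, pow_zero, one_mul, inv_mul_cancel₀ (y_ne hr)]; exact R.one_mem⟩

/-- The local equations of the boundary are invertible outside the boundary. -/
lemma xi_offB (hp : PtNc B J e W R h x y Dx Dy s t b) (j : E) :
    UnitIn (offB R x y hp.reg.hx hp.reg.hy s t) (xi h e j) := by
  rcases hj : b j with _ | _ | _
  · exact unit_mono le_offB (hp.b0 j hj)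
  · have h1 := (unit_mono (le_offB (x := x) (y := y) (hx := hp.reg.hx) (hy := hp.reg.hy) (s := s)
      (t := t)) (hp.bx j hj)).mul (x_offB hp.reg (hp.s_iff.2 ⟨j, hj⟩))
    rwa [div_mul_cancel₀ _ (x_ne hp.reg)] at h1
  · have h1 := (unit_mono (le_offB (x := x) (y := y) (hx := hp.reg.hx) (hy := hp.reg.hy) (s := s)
      (t := t)) (hp.by' j hj)).mul (y_offB hp.reg (hp.t_iff.2 ⟨j, hj⟩))
    rwa [div_mul_cancel₀ _ (y_ne hp.reg)] at h1

lemma gamma_offB (hp : PtNc B J e W R h x y Dx Dy s t b) (α : E → ℤ) :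
    UnitIn (offB R x y hp.reg.hx hp.reg.hy s t) (∏ j, xi h e j ^ α j) :=
  unit_prod _ fun j _ => (xi_offB hp j).zpow _

/-- The generators of the ideals are invertible outside the boundary. -/
lemma h_offB (hspan : ∀ d : E → ℤ, ∃ n : E → ℤ, d = ∑ j, n j • e j)
    (hp : PtNc B J e W R h x y Dx Dy s t b) (i : E) :
    UnitIn (offB R x y hp.reg.hx hp.reg.hy s t) (h i) := by
  classical
  obtain ⟨n, hn⟩ := hspan (Pi.single i 1)
  have h1 : h i = ∏ j, xi h e j ^ n j := by
    have h2 : h i = ∏ l, h l ^ (Pi.single i (1 : ℤ) : E → ℤ) l := by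
      rw [Finset.prod_eq_single i]
      · rw [Pi.single_eq_same, zpow_one]
      · intro l _ hl
        rw [Pi.single_eq_of_ne hl, zpow_zero]
      · intro hi
        exact absurd (Finset.mem_univ i) hi
    rw [h2, hn]
    have hsum : ∀ (l : E) (s : Finset E) (m : E → ℤ), h l ^ (∑ j ∈ s, m j) =
        ∏ j ∈ s, h l ^ m j := by
      intro l s m
      induction s using Finset.induction_on with
      | empty => rw [Finset.sum_empty, Finset.prod_empty, zpow_zero]
      | insert a s ha ih =>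
        rw [Finset.sum_insert ha, Finset.prod_insert ha, zpow_add₀ (hp.gen.1 l).1, ih]
    have h3 : ∀ l, h l ^ (∑ j, n j • e j) l = ∏ j, h l ^ (e j l * n j) := by
      intro l
      rw [Finset.sum_apply, hsum]
      refine Finset.prod_congr rfl fun j _ => ?_
      rw [Pi.smul_apply, smul_eq_mul, mul_comm]
    simp_rw [h3]
    rw [Finset.prod_comm]
    refine Finset.prod_congr rfl fun j _ => ?_
    unfold xi
    rw [← Finset.prod_zpow]
    exact Finset.prod_congr rfl fun l _ => zpow_mul _ _ _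
  rw [h1]
  exact unit_prod _ fun j _ => (xi_offB hp j).zpow _

/-- Functions which are regular outside the boundary and along the boundary are regular. -/
lemma offB_mem (hp : PtNc B J e W R h x y Dx Dy s t b) {z : K}
    (hz : z ∈ offB R x y hp.reg.hx hp.reg.hy s t) (hV : ∀ j, b j ≠ none → z ∈ W j) : z ∈ R := by
  obtain ⟨m, n, h1, h2, h3⟩ := hz
  have h4 : z * x ^ m ∈ R := by
    rcases ht : t with _ | _
    · rw [h2 ht, pow_zero, mul_one] at h3
      exact h3
    · obtain ⟨j, hj⟩ := hp.t_iff.1 ht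
      have hV' := val_y hp hj
      refine descend hV' ((W j).mul_mem (hV j (by rw [hj]; simp))
        ((W j).pow_mem (hV'.2.1 hp.reg.hx) m)) n ?_
      rwa [mul_assoc]
  rcases hs : s with _ | _
  · rwa [h1 hs, pow_zero, mul_one] at h4
  · obtain ⟨j, hj⟩ := hp.s_iff.1 hs
    exact descend (val_x hp hj) (hV j (by rw [hj]; simp)) m h4

lemma chart_den (hh : TupIn B J h) {c : K} (hc : c ∈ chartF B J h) :
    ∃ n : ℕ, c * (∏ i, h i) ^ n ∈ B := by
  classical
  have hB : ∀ i, h i ∈ B := fun i => by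
    obtain ⟨w, -, hw⟩ := (hh i).2
    rw [← hw]; exact w.2
  have hH : (∏ i, h i) ∈ B := B.prod_mem fun i _ => hB i
  induction hc using Algebra.adjoin_induction with
  | mem c hc =>
    rcases hc with hc | ⟨i, w, -, rfl⟩
    · exact ⟨0, by rw [pow_zero, mul_one]; exact hc⟩
    · refine ⟨1, ?_⟩
      have h1 : (w : K) / h i * (∏ i, h i) ^ 1 = w * ∏ l ∈ Finset.univ.erase i, h l := by
        rw [pow_one, ← Finset.mul_prod_erase Finset.univ h (Finset.mem_univ i)]
        have := (hh i).1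
        field_simp
      rw [h1]
      exact B.mul_mem w.2 (B.prod_mem fun i _ => hB i)
  | algebraMap r => exact ⟨0, by rw [pow_zero, mul_one]; exact B.algebraMap_mem r⟩
  | add c c' _ _ h1 h2 =>
    obtain ⟨n, hn⟩ := h1
    obtain ⟨n', hn'⟩ := h2
    refine ⟨n + n', ?_⟩
    have he : (c + c') * (∏ i, h i) ^ (n + n') =
      c * (∏ i, h i) ^ n * (∏ i, h i) ^ n' + c' * (∏ i, h i) ^ n' * (∏ i, h i) ^ n := by ring
    rw [he]
    exact B.add_mem (B.mul_mem hn (B.pow_mem hH n')) (B.mul_mem hn' (B.pow_mem hH n))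
  | mul c c' _ _ h1 h2 =>
    obtain ⟨n, hn⟩ := h1
    obtain ⟨n', hn'⟩ := h2
    refine ⟨n + n', ?_⟩
    have he : c * c' * (∏ i, h i) ^ (n + n') =
      c * (∏ i, h i) ^ n * (c' * (∏ i, h i) ^ n') := by ring
    rw [he]
    exact B.mul_mem hn hn'

omit [Fintype E] in
lemma le_pt (hR : Pt B J R) : B ≤ R := by
  obtain ⟨g, -, χ, rfl⟩ := hR
  exact le_trans (fun z hz => Algebra.subset_adjoin (Or.inl hz)) (le_ptLoc _ _)

end Model

/-! ### The plane -/

section Plane

variable {k : Type} [Field k]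

/-- Height one primes of the polynomial ring are principal. -/
lemma mv_prime (q : Ideal (MvPolynomial (Fin 2) k)) [hq : q.IsPrime] (h0 : q ≠ ⊥)
    (hm : ¬ q.IsMaximal) : ∃ π, Prime π ∧ q = Ideal.span {π} := by
  obtain ⟨π, hπ, hp⟩ := hq.exists_mem_prime_of_ne_bot h0
  refine ⟨π, hp, ?_⟩
  by_contra hne
  have hpp : (Ideal.span {π}).IsPrime := (Ideal.span_singleton_prime hp.ne_zero).2 hp
  have h1 : Ideal.span {π} < q :=
    lt_of_le_of_ne ((Ideal.span_singleton_le_iff_mem _).2 hπ) (Ne.symm hne)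
  have h2 : (⊥ : Ideal (MvPolynomial (Fin 2) k)) < Ideal.span {π} :=
    bot_lt_iff_ne_bot.2 fun he => hp.ne_zero (Ideal.span_singleton_eq_bot.1 he)
  obtain ⟨m, hmm, hqm⟩ := Ideal.exists_le_maximal q hq.ne_top
  have h3 : q < m := lt_of_le_of_ne hqm fun he => hm (he ▸ hmm)
  have h4 := Ideal.height_add_one_le_of_lt_of_isPrime h1
  have h5 := Ideal.height_add_one_le_of_lt_of_isPrime h2
  have h6 := Ideal.height_add_one_le_of_lt_of_isPrime h3
  rw [Ideal.height_bot, zero_add] at h5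
  have h7 : ((3 : ℕ) : ℕ∞) ≤ m.height := by
    calc ((3 : ℕ) : ℕ∞) = 1 + 1 + 1 := by norm_num
      _ ≤ (Ideal.span {π}).height + 1 + 1 := by gcongr
      _ ≤ q.height + 1 := by gcongr
      _ ≤ _ := h6
  have h8 := Ideal.height_le_ringKrullDim_of_ne_top hmm.ne_top
  rw [MvPolynomial.ringKrullDim_of_isNoetherianRing, ringKrullDim_eq_zero_of_field, zero_add,
    Nat.card_eq_fintype_card, Fintype.card_fin] at h8
  have h9 : (((3 : ℕ) : ℕ∞) : WithBot ℕ∞) ≤ (((2 : ℕ) : ℕ∞) : WithBot ℕ∞) :=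
    le_trans (WithBot.coe_le_coe.2 h7) h8
  have h10 := WithBot.coe_le_coe.1 h9
  have h11 : (3 : ℕ) ≤ 2 := Nat.cast_le.1 h10
  omega

variable {K : Type} [Field K] [Algebra k K]

/-- The polynomials as elements of `R`. -/
noncomputable def toR {φ : MvPolynomial (Fin 2) k →ₐ[k] K} {R : Subalgebra k K} (hle : φ.range ≤ R) :
    MvPolynomial (Fin 2) k →ₐ[k] R :=
  φ.codRestrict R fun f => hle ⟨f, rfl⟩

variable {φ : MvPolynomial (Fin 2) k →ₐ[k] K}

lemma toR_coe {R : Subalgebra k K} (hle : φ.range ≤ R)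
    (f : MvPolynomial (Fin 2) k) : (toR hle f : K) = φ f := rfl

lemma Fr_of_le {R : Subalgebra k K} (hφ : ∀ z : K, ∃ f g, φ g ≠ 0 ∧ z * φ g = φ f)
    (h : φ.range ≤ R) : Fr R := by
  intro z
  obtain ⟨f, g, hg, he⟩ := hφ z
  exact ⟨φ f, h ⟨f, rfl⟩, φ g, h ⟨g, rfl⟩, hg, he⟩

variable {E : Type} [Fintype E] {J : E → Ideal φ.range} {e : E → E → ℤ}
  {V : E → Subalgebra k K} {R : Subalgebra k K}
  {h : E → K} {x y : K}
  {Dx Dy : Derivation k K K} {s t : Bool} {b : E → Option Bool}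

/-- The hypotheses on a prime ideal which is not contained in the boundary. -/
structure Off (hx : x ∈ R) (hy : y ∈ R) (s t : Bool) (P : Ideal R) : Prop where
  x_notMem : s = true → (⟨x, hx⟩ : R) ∉ P
  y_notMem : t = true → (⟨y, hy⟩ : R) ∉ P

variable {P : Ideal R} [hP : P.IsPrime]

/-- Elements of `R` are fractions of polynomials. -/
lemma frac (hR : Pt φ.range J R) (hp : PtNc φ.range J e V R h x y Dx Dy s t b)
    (hspan : ∀ d : E → ℤ, ∃ n : E → ℤ, d = ∑ j, n j • e j)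
    (hoff : Off hp.reg.hx hp.reg.hy s t P) (a : R) :
    ∃ f g : MvPolynomial (Fin 2) k, toR (le_pt hR) g ∉ P ∧ a * toR (le_pt hR) g =
      toR (le_pt hR) f := by
  have hle := offB_le hoff.x_notMem hoff.y_notMem
  have hH : UnitIn (locAt R P) (∏ i, h i) :=
    unit_prod _ fun i _ => unit_mono hle (h_offB hspan hp i)
  have hHB : (∏ i, h i) ∈ φ.range := φ.range.prod_mem fun i _ => by
    obtain ⟨w, -, hw⟩ := (hp.gen.1 i).2
    rw [← hw]; exact w.2
  obtain ⟨H, hH'⟩ := hHB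
  have hH'' : (toR (le_pt hR) H : K) = ∏ i, h i := hH'
  obtain ⟨χ, hχ⟩ := hR.exists_char hp.gen
  have ha : (a : K) ∈ ptLoc (chartF φ.range J h) χ := by
    rw [← hχ]; exact a.2
  obtain ⟨c₁, c₂, hc, he⟩ := ha
  obtain ⟨n₁, f₁, hf₁⟩ := chart_den hp.gen.1 c₁.2
  obtain ⟨n₂, f₂, hf₂⟩ := chart_den hp.gen.1 c₂.2
  have hf₁' : (toR (le_pt hR) f₁ : K) = c₁ * (∏ i, h i) ^ n₁ := hf₁
  have hf₂' : (toR (le_pt hR) f₂ : K) = c₂ * (∏ i, h i) ^ n₂ := hf₂
  have hc₂ : UnitIn R (c₂ : K) := by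
    rw [hχ]; exact ptLoc_unit c₂ hc
  refine ⟨f₁ * H ^ n₂, f₂ * H ^ n₁, ?_, Subtype.ext ?_⟩
  · apply notMem_of_unit
    rw [map_mul, map_pow]
    push_cast
    rw [hf₂', hH'']
    exact ((unit_mono le_locAt hc₂).mul (unit_pow hH _)).mul (unit_pow hH _)
  · rw [map_mul, map_mul, map_pow, map_pow]
    push_cast
    rw [hf₁', hf₂', hH'', ← he]
    ring

lemma comap_not_maximal [IsAlgClosed k] (hR : Pt φ.range J R)
    (hp : PtNc φ.range J e V R h x y Dx Dy s t b)
    (hspan : ∀ d : E → ℤ, ∃ n : E → ℤ, d = ∑ j, n j • e j)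
    (hoff : Off hp.reg.hx hp.reg.hy s t P)
    (hne : P ≠ mId R x y) : ¬ (P.comap (toR (le_pt hR))).IsMaximal := by
  intro hmax
  apply hne
  obtain ⟨v, hv⟩ := MvPolynomial.isMaximal_iff_eq_vanishingIdeal_singleton.1 hmax
  have hmem : ∀ f, toR (le_pt hR) f ∈ P ↔ aeval v f = 0 := fun f => by
    rw [← mem_vanishingIdeal_singleton_iff, ← hv, Ideal.mem_comap]
  have hsub : ∀ f : MvPolynomial (Fin 2) k,
      toR (le_pt hR) f - algebraMap k R (aeval v f) ∈ P := fun f => by
    have h1 := (hmem (f - C (aeval v f))).2 (by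
      rw [map_sub, algHom_C, Algebra.algebraMap_self_apply, sub_self])
    rwa [map_sub, algHom_C] at h1
  -- every element of `R` is congruent to a scalar
  have hscal : ∀ a : R, ∃ r : k, a - algebraMap k R r ∈ P := by
    intro a
    obtain ⟨f, g, hg, he⟩ := frac hR hp hspan hoff a
    have hg0 : aeval v g ≠ 0 := fun h0 => hg ((hmem g).2 h0)
    refine ⟨aeval v f / aeval v g, ?_⟩
    have h1 : (a - algebraMap k R (aeval v f / aeval v g)) * toR (le_pt hR) g ∈ P := by
      have h2 := P.sub_mem (hsub f) (P.mul_mem_left (algebraMap k R (aeval v f / aeval v g))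
        (hsub g))
      have h3 : (a - algebraMap k R (aeval v f / aeval v g)) * toR (le_pt hR) g =
          toR (le_pt hR) f - algebraMap k R (aeval v f) -
            algebraMap k R (aeval v f / aeval v g) *
              (toR (le_pt hR) g - algebraMap k R (aeval v g)) := by
        rw [sub_mul, he, mul_sub, ← map_mul, div_mul_cancel₀ _ hg0]
        ring
      rwa [h3]
    exact (hP.mem_or_mem h1).resolve_right hg
  have hm := mId_maximal hp.reg
  refine (hm.eq_of_le hP.ne_top fun z hz => ?_).symm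
  obtain ⟨r, hr⟩ := hscal z
  rcases eq_or_ne r 0 with rfl | hr0
  · rwa [map_zero, sub_zero] at hr
  · exfalso
    have hle : P ≤ mId R x y := by
      intro w hw
      rw [mem_mId_iff hp.reg]
      exact fun hu => hP.ne_top (Ideal.eq_top_of_isUnit_mem _ hw hu)
    have h1 : algebraMap k R r ∈ mId R x y := by
      have := Ideal.sub_mem _ hz (hle hr)
      rwa [sub_sub_cancel] at this
    exact (mem_mId_iff hp.reg).1 h1 ((IsUnit.mk0 r hr0).map (algebraMap k R))

/-- The curve defined by a prime ideal outside the boundary. -/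
lemma exists_curve [IsAlgClosed k] (hR : Pt φ.range J R)
    (hp : PtNc φ.range J e V R h x y Dx Dy s t b)
    (hspan : ∀ d : E → ℤ, ∃ n : E → ℤ, d = ∑ j, n j • e j)
    (hoff : Off hp.reg.hx hp.reg.hy s t P) (h0 : P ≠ ⊥) (hne : P ≠ mId R x y) :
    ∃ π, Prime π ∧ P.comap (toR (le_pt hR)) = Ideal.span {π} := by
  refine mv_prime _ ?_ (comap_not_maximal hR hp hspan hoff hne)
  obtain ⟨z, hz, hz0⟩ := Submodule.exists_mem_ne_zero_of_ne_bot h0
  obtain ⟨f, g, hg, he⟩ := frac hR hp hspan hoff z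
  intro hbot
  have h1 : f ∈ P.comap (toR (le_pt hR)) := by
    rw [Ideal.mem_comap, ← he]
    exact P.mul_mem_right _ hz
  rw [hbot, Ideal.mem_bot] at h1
  rw [h1, map_zero] at he
  rcases mul_eq_zero.1 he with h2 | h2
  · exact hz0 h2
  · exact hg (by rw [h2]; exact P.zero_mem)

/-! ### Curves -/

/-- The local ring of the plane at the curve `π = 0`. -/
def curveLoc (φ : MvPolynomial (Fin 2) k →ₐ[k] K) (π : MvPolynomial (Fin 2) k)
    (hπ : Prime π) : Subalgebra k K where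
  carrier := {z | ∃ a b : MvPolynomial (Fin 2) k, ¬ π ∣ b ∧ z * φ b = φ a}
  mul_mem' := by
    rintro z w ⟨a, b, hb, h1⟩ ⟨a', b', hb', h2⟩
    refine ⟨a * a', b * b', fun h => (hπ.dvd_or_dvd h).elim hb hb', ?_⟩
    rw [map_mul, map_mul, ← h1, ← h2]; ring
  add_mem' := by
    rintro z w ⟨a, b, hb, h1⟩ ⟨a', b', hb', h2⟩
    refine ⟨a * b' + a' * b, b * b', fun h => (hπ.dvd_or_dvd h).elim hb hb', ?_⟩
    rw [map_add, map_mul, map_mul, map_mul, ← h1, ← h2]; ring
  algebraMap_mem' r := ⟨C r, 1, fun h => hπ.not_isUnit (isUnit_of_dvd_one h), by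
    rw [map_one, mul_one, algHom_C]⟩

/-- The function `z` vanishes on the curve. -/
def Van (φ : MvPolynomial (Fin 2) k →ₐ[k] K) (π : MvPolynomial (Fin 2) k)
    (hπ : Prime π) (z : K) : Prop := ∃ w ∈ curveLoc φ π hπ, z = φ π * w

lemma Van.add {π : MvPolynomial (Fin 2) k} {hπ : Prime π} {z w : K} (hz : Van φ π hπ z)
    (hw : Van φ π hπ w) : Van φ π hπ (z + w) := by
  obtain ⟨z', hz', rfl⟩ := hz
  obtain ⟨w', hw', rfl⟩ := hw
  exact ⟨z' + w', Subalgebra.add_mem _ hz' hw', by rw [mul_add]⟩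

lemma Van.mul {π : MvPolynomial (Fin 2) k} {hπ : Prime π} {z w : K} (hz : Van φ π hπ z)
    (hw : w ∈ curveLoc φ π hπ) : Van φ π hπ (w * z) := by
  obtain ⟨z', hz', rfl⟩ := hz
  exact ⟨w * z', Subalgebra.mul_mem _ hw hz', by ring⟩

omit [Fintype E] hP in
lemma notMem_iff (hR : Pt φ.range J R) {π : MvPolynomial (Fin 2) k}
    (hc : P.comap (toR (le_pt hR)) = Ideal.span {π}) (g : MvPolynomial (Fin 2) k) :
    toR (le_pt hR) g ∈ P ↔ π ∣ g := by
  rw [← Ideal.mem_comap, hc, Ideal.mem_span_singleton]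

lemma curveLoc_eq (hR : Pt φ.range J R)
    (hp : PtNc φ.range J e V R h x y Dx Dy s t b)
    (hspan : ∀ d : E → ℤ, ∃ n : E → ℤ, d = ∑ j, n j • e j)
    (hoff : Off hp.reg.hx hp.reg.hy s t P) {π : MvPolynomial (Fin 2) k} (hπ : Prime π)
    (hc : P.comap (toR (le_pt hR)) = Ideal.span {π}) : curveLoc φ π hπ = locAt R P := by
  ext z
  constructor
  · rintro ⟨a, b, hb, he⟩
    exact ⟨toR (le_pt hR) a, toR (le_pt hR) b, fun h => hb ((notMem_iff hR hc b).1 h), he⟩
  · rintro ⟨a, b, hb, he⟩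
    obtain ⟨f, g, hg, h1⟩ := frac hR hp hspan hoff a
    obtain ⟨f', g', hg', h2⟩ := frac hR hp hspan hoff b
    have h1' : (a : K) * φ g = φ f := congrArg Subtype.val h1
    have h2' : (b : K) * φ g' = φ f' := congrArg Subtype.val h2
    refine ⟨f * g', f' * g, ?_, ?_⟩
    · rw [← notMem_iff hR hc, map_mul, ← h2]
      exact fun h => (hP.mem_or_mem h).elim (fun h => (hP.mem_or_mem h).elim hb hg') hg
    · rw [map_mul, map_mul, ← h1', ← h2', ← he]
      ring

lemma van_of_mem (hR : Pt φ.range J R)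
    (hp : PtNc φ.range J e V R h x y Dx Dy s t b)
    (hspan : ∀ d : E → ℤ, ∃ n : E → ℤ, d = ∑ j, n j • e j)
    (hoff : Off hp.reg.hx hp.reg.hy s t P) {π : MvPolynomial (Fin 2) k} (hπ : Prime π)
    (hc : P.comap (toR (le_pt hR)) = Ideal.span {π}) {a : R} (ha : a ∈ P) :
    Van φ π hπ a := by
  obtain ⟨f, g, hg, h1⟩ := frac hR hp hspan hoff a
  have h1' : (a : K) * φ g = φ f := congrArg Subtype.val h1
  obtain ⟨f', rfl⟩ : π ∣ f := by
    rw [← notMem_iff hR hc, ← h1]
    exact P.mul_mem_right _ ha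
  have hg0 : φ g ≠ 0 := by
    intro h0
    apply hg
    have : toR (le_pt hR) g = 0 := Subtype.ext h0
    rw [this]
    exact P.zero_mem
  refine ⟨φ f' / φ g, ⟨f', g, fun h => hg ((notMem_iff hR hc g).2 h), div_mul_cancel₀ _ hg0⟩, ?_⟩
  rw [map_mul] at h1'
  rw [← mul_div_assoc, ← h1', mul_div_cancel_right₀ _ hg0]

/-- Curves which are defined by prime ideals outside the boundary are not in the boundary. -/
lemma not_inBd (hR : Pt φ.range J R)
    (hp : PtNc φ.range J e V R h x y Dx Dy s t b)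
    (hoff : Off hp.reg.hx hp.reg.hy s t P) : ¬ InBd φ.range J e V (locAt R P) := by
  intro hI
  obtain ⟨h', x', y', Dx', Dy', s', t', b', hp', j, hj, he⟩ := hI R hR le_locAt
  have h1 := (hp'.val j hj).2.2.1
  rw [he] at h1
  have h2 := unit_mono (le_locAt (P := P)) (hp.gen.xi_unit hp'.gen e j)
  have h3 := h2.mul (unit_mono (offB_le hoff.x_notMem hoff.y_notMem) (xi_offB hp j))
  rw [div_mul_cancel₀ _ (xi_ne hp j)] at h3
  exact h1 h3.2.2

end Plane

end F1

end Pool.Agent.MP_b525bf_ag_TS
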