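import Pool.Agent.Lib.MP_b525bf_ag_TS.InitGLoc

/-!
# F1, part 5: the object is regular with isolated zeros
-/

set_option autoImplicit false

namespace Pool.Agent.MP_b525bf_ag_TS

namespace F1

open MvPolynomial

section Main

variable {k : Type} [Field k] {K : Type} [Field K] [Algebra k K]
  {φ : MvPolynomial (Fin 2) k →ₐ[k] K}
  {E : Type} [Fintype E] {J : E → Ideal φ.range} {e : E → E → ℤ}
  {V : E → Subalgebra k K} {R : Subalgebra k K}
  {h : E → K} {x y : K}
  {Dx Dy : Derivation k K K} {s t : Bool} {b : E → Option Bool}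

/-- Equations of curves of the boundary are invertible outside the boundary. -/
lemma inBd_unit [IsAlgClosed k] (hφ : Function.Injective φ) (hR : Pt φ.range J R)
    (hp : PtNc φ.range J e V R h x y Dx Dy s t b)
    (hspan : ∀ d : E → ℤ, ∃ n : E → ℤ, d = ∑ j, n j • e j)
    {π : MvPolynomial (Fin 2) k} (hπ : Prime π) (hI : InBd φ.range J e V (curveLoc φ π hπ)) :
    UnitIn (offB R x y hp.reg.hx hp.reg.hy s t) (φ π) := by
  have hno := reg_noeth hp.reg
  have hφ0 : φ π ≠ 0 := fun h0 => hπ.ne_zero (hφ (by rw [h0, map_zero]))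
  have hz0 : toR (le_pt hR) π ≠ 0 := fun h0 => hφ0 (congrArg Subtype.val h0)
  -- split off the powers of the coordinates
  obtain ⟨m, z₁, hz₁, he₁, hm⟩ : ∃ (m : ℕ) (z₁ : R), (s = true → ¬ eX hp.reg ∣ z₁) ∧
      toR (le_pt hR) π = eX hp.reg ^ m * z₁ ∧ (s = false → m = 0) := by
    rcases Bool.eq_false_or_eq_true s with hs | hs
    · obtain ⟨m, z₁, h1, h2⟩ := WfDvdMonoid.max_power_factor' hz0 (prime_eX hp.reg).not_isUnit
      exact ⟨m, z₁, fun _ => h1, h2, fun h => by simp [hs] at h⟩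
    · exact ⟨0, _, fun h => by simp [hs] at h, by rw [pow_zero, one_mul], fun _ => rfl⟩
  have hz₁0 : z₁ ≠ 0 := by
    rintro rfl
    rw [mul_zero] at he₁
    exact hz0 he₁
  obtain ⟨n, z₂, hz₂, he₂, hn⟩ : ∃ (n : ℕ) (z₂ : R), (t = true → ¬ eY hp.reg ∣ z₂) ∧
      z₁ = eY hp.reg ^ n * z₂ ∧ (t = false → n = 0) := by
    rcases Bool.eq_false_or_eq_true t with ht | ht
    · obtain ⟨n, z₂, h1, h2⟩ := WfDvdMonoid.max_power_factor' hz₁0
        (prime_eX hp.reg.symm).not_isUnit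
      exact ⟨n, z₂, fun _ => h1, h2, fun h => by simp [ht] at h⟩
    · exact ⟨0, _, fun h => by simp [ht] at h, by rw [pow_zero, one_mul], fun _ => rfl⟩
  have hz₂0 : z₂ ≠ 0 := by
    rintro rfl
    rw [mul_zero] at he₂
    exact hz₁0 he₂
  have hxz₂ : s = true → ¬ eX hp.reg ∣ z₂ := fun hs hd => hz₁ hs (he₂ ▸ hd.mul_left _)
  -- the rest is a unit
  have hu : IsUnit z₂ := by
    by_contra hu
    have hne : Ideal.span {z₂} ≠ ⊤ := by rwa [Ne, Ideal.span_singleton_eq_top]
    obtain ⟨M, hM, hzM⟩ := Ideal.exists_le_maximal _ hne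
    obtain ⟨P, hPm, -⟩ := Ideal.exists_minimalPrimes_le hzM
    have hP : P.IsPrime := hPm.1.1
    have hzP : z₂ ∈ P := hPm.1.2 (Ideal.mem_span_singleton_self z₂)
    have hPne : P ≠ mId R x y := fun h => not_minimal hp.reg z₂ (h ▸ hPm)
    have hPne' : P ≠ mId R y x := fun h => not_minimal hp.reg.symm z₂ (h ▸ hPm)
    have hP0 : P ≠ ⊥ := by
      rintro rfl
      exact hz₂0 hzP
    have hoff : Off hp.reg.hx hp.reg.hy s t P := by
      constructor
      · intro hs hxP
        have h1 := prime_eq hp.reg P hxP hPne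
        rw [h1, Ideal.mem_span_singleton] at hzP
        exact hxz₂ hs hzP
      · intro ht hyP
        have h1 := prime_eq hp.reg.symm P hyP hPne'
        rw [h1, Ideal.mem_span_singleton] at hzP
        exact hz₂ ht hzP
    obtain ⟨π', hπ', hc⟩ := exists_curve hR hp hspan hoff hP0 hPne
    have h1 : toR (le_pt hR) π ∈ P := by
      rw [he₁, he₂]
      exact P.mul_mem_left _ (P.mul_mem_left _ hzP)
    rw [notMem_iff hR hc] at h1
    have h2 : Associated π' π := hπ'.irreducible.associated_of_dvd hπ.irreducible h1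
    have hc' : P.comap (toR (le_pt hR)) = Ideal.span {π} := by
      rw [hc, Ideal.span_singleton_eq_span_singleton]
      exact h2
    rw [curveLoc_eq hR hp hspan hoff hπ hc'] at hI
    exact not_inBd hR hp hoff hI
  have h1 : φ π = x ^ m * (y ^ n * z₂) := by
    have := congrArg Subtype.val he₁
    rw [he₂] at this
    exact this
  have hu' := isUnit_iff.1 hu
  refine ⟨hφ0, le_offB (le_pt hR ⟨π, rfl⟩), m, n, hm, hn, ?_⟩
  have hx0 := pow_ne_zero m (x_ne hp.reg)
  have hy0 := pow_ne_zero n (y_ne hp.reg)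
  have h2 := hu'.1
  have h3 : (φ π)⁻¹ * (x ^ m * y ^ n) = (z₂ : K)⁻¹ := by
    rw [h1]
    field_simp
  rw [h3]
  exact hu'.2.2

/-- A function which is regular on all curves outside the boundary is regular at `R` outside the
boundary. -/
lemma mem_offB [IsAlgClosed k] (hφ : Function.Injective φ)
    (hfr : ∀ z : K, ∃ f g, IsRelPrime f g ∧ φ g ≠ 0 ∧ z * φ g = φ f) (hR : Pt φ.range J R)
    (hp : PtNc φ.range J e V R h x y Dx Dy s t b)
    (hspan : ∀ d : E → ℤ, ∃ n : E → ℤ, d = ∑ j, n j • e j) {z : K}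
    (hz : ∀ (π : MvPolynomial (Fin 2) k) (hπ : Prime π),
      InBd φ.range J e V (curveLoc φ π hπ) ∨ z ∈ curveLoc φ π hπ) :
    z ∈ offB R x y hp.reg.hx hp.reg.hy s t := by
  obtain ⟨f, g, hfg, hg, he⟩ := hfr z
  have key : ∀ c : MvPolynomial (Fin 2) k, c ≠ 0 → (∀ π, Prime π → π ∣ c →
      UnitIn (offB R x y hp.reg.hx hp.reg.hy s t) (φ π)) →
      UnitIn (offB R x y hp.reg.hx hp.reg.hy s t) (φ c) := by
    intro c
    induction c using UniqueFactorizationMonoid.induction_on_prime with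
    | h₁ => exact fun h => absurd rfl h
    | h₂ c hc =>
      intro h0 _
      obtain ⟨d, hd⟩ := isUnit_iff_exists_inv.1 hc
      have h1 : φ c * φ d = 1 := by rw [← map_mul, hd, map_one]
      have h2 : φ c ≠ 0 := left_ne_zero_of_mul_eq_one h1
      refine ⟨h2, le_offB (le_pt hR ⟨c, rfl⟩), ?_⟩
      rw [← eq_inv_of_mul_eq_one_right h1]
      exact le_offB (le_pt hR ⟨d, rfl⟩)
    | h₃ a p ha hpr ih =>
      intro h0 h1
      rw [map_mul]
      exact (h1 p hpr (dvd_mul_right _ _)).mul (ih ha fun π hπ hd => h1 π hπ (hd.mul_left _))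
  have hg0 : g ≠ 0 := by
    rintro rfl
    rw [map_zero] at hg
    exact hg rfl
  have hgu := key g hg0 (fun π hπ hd => by
    rcases hz π hπ with hI | ⟨f', g', hg', he'⟩
    · exact inBd_unit hφ hR hp hspan hπ hI
    · exfalso
      have h1 : f * g' = f' * g := by
        apply hφ
        rw [map_mul, map_mul, ← he, ← he']
        ring
      have h2 : π ∣ f := (hπ.dvd_or_dvd (h1 ▸ hd.mul_left f' : π ∣ f * g')).resolve_right hg'
      exact hπ.not_isUnit (hfg h2 hd))
  have h1 : z = φ f * (φ g)⁻¹ := by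
    rw [← he, mul_assoc, mul_inv_cancel₀ hg, mul_one]
  rw [h1]
  exact Subalgebra.mul_mem _ (le_offB (le_pt hR ⟨f, rfl⟩)) hgu.2.2

/-- Derivations of the field of rational functions. -/
lemma der_eq (hfr : ∀ z : K, ∃ f g, φ g ≠ 0 ∧ z * φ g = φ f) {D : Fin 2 → Derivation k K K}
    (hD : ∀ i, ∀ g : MvPolynomial (Fin 2) k, D i (φ g) = φ (pderiv i g))
    (D' : Derivation k K K) : D' = D' (φ (X 0)) • D 0 + D' (φ (X 1)) • D 1 := by
  have hpoly : ∀ g : MvPolynomial (Fin 2) k,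
      D' (φ g) = D' (φ (X 0)) * φ (pderiv 0 g) + D' (φ (X 1)) * φ (pderiv 1 g) := by
    intro g
    induction g using MvPolynomial.induction_on with
    | C a =>
      rw [algHom_C, Derivation.map_algebraMap, pderiv_C, pderiv_C, map_zero, mul_zero, mul_zero,
        add_zero]
    | add p q hp hq => rw [map_add, map_add, hp, hq, map_add, map_add, map_add, map_add]; ring
    | mul_X p i hp =>
      rw [map_mul, Derivation.leibniz, smul_eq_mul, smul_eq_mul, hp, Derivation.leibniz,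
        Derivation.leibniz, smul_eq_mul, smul_eq_mul, smul_eq_mul, smul_eq_mul, map_add, map_add,
        map_mul, map_mul, map_mul, map_mul]
      fin_cases i
      · simp only [Fin.zero_eta, Fin.isValue, pderiv_X_self, map_one, mul_one]
        rw [pderiv_X_of_ne (by decide : (1 : Fin 2) ≠ 0).symm]
        rw [map_zero]
        ring
      · simp only [Fin.mk_one, Fin.isValue, pderiv_X_self, map_one, mul_one]
        rw [pderiv_X_of_ne (by decide : (0 : Fin 2) ≠ 1).symm]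
        rw [map_zero]
        ring
  ext z
  obtain ⟨f, g, hg, he⟩ := hfr z
  have h1 := congrArg D' he
  have h2 := congrArg (D 0) he
  have h3 := congrArg (D 1) he
  rw [Derivation.leibniz, smul_eq_mul, smul_eq_mul, hpoly g, hpoly f] at h1
  rw [Derivation.leibniz, smul_eq_mul, smul_eq_mul, hD, hD] at h2
  rw [Derivation.leibniz, smul_eq_mul, smul_eq_mul, hD, hD] at h3
  rw [Derivation.add_apply, Derivation.smul_apply, Derivation.smul_apply, smul_eq_mul,
    smul_eq_mul]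
  apply mul_left_cancel₀ hg
  linear_combination h1 - D' (φ (X 0)) * h2 - D' (φ (X 1)) * h3

/-- The object is regular and does not vanish on the curve. -/
def GoodG (φ : MvPolynomial (Fin 2) k →ₐ[k] K) (θ : Obj k K) (D : Fin 2 → Derivation k K K)
    (π : MvPolynomial (Fin 2) k) (hπ : Prime π) : Prop :=
  θ.h ∈ curveLoc φ π hπ ∧ (∀ i, θ.ω (D i) ∈ curveLoc φ π hπ) ∧
    ¬ (Van φ π hπ θ.h ∧ ∀ i, Van φ π hπ (θ.ω (D i)))

lemma curve_der {D : Fin 2 → Derivation k K K}
    (hD : ∀ i, ∀ g : MvPolynomial (Fin 2) k, D i (φ g) = φ (pderiv i g))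
    {π : MvPolynomial (Fin 2) k} {hπ : Prime π} {z : K} (hz : z ∈ curveLoc φ π hπ) (i : Fin 2) :
    D i z ∈ curveLoc φ π hπ := by
  obtain ⟨a, c, hc, he⟩ := hz
  refine ⟨pderiv i a * c - a * pderiv i c, c * c, fun hd => (hπ.dvd_or_dvd hd).elim hc hc, ?_⟩
  have h1 := congrArg (D i) he
  rw [Derivation.leibniz, smul_eq_mul, smul_eq_mul, hD, hD] at h1
  rw [map_sub, map_mul, map_mul, map_mul]
  linear_combination φ c * h1 - φ (pderiv i c) * he

omit [Fintype E] in
lemma omega_offB {θ : Obj k K} (hfr : ∀ z : K, ∃ f g, φ g ≠ 0 ∧ z * φ g = φ f)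
    {D : Fin 2 → Derivation k K K}
    (hD : ∀ i, ∀ g : MvPolynomial (Fin 2) k, D i (φ g) = φ (pderiv i g))
    (hR : Pt φ.range J R) {hx : x ∈ R} {hy : y ∈ R}
    (hω : ∀ i, θ.ω (D i) ∈ offB R x y hx hy s t) {D' : Derivation k K K}
    (hD' : ∀ z ∈ R, D' z ∈ R) : θ.ω D' ∈ offB R x y hx hy s t := by
  have h1 : θ.ω D' = D' (φ (X 0)) * θ.ω (D 0) + D' (φ (X 1)) * θ.ω (D 1) := by
    conv_lhs => rw [der_eq hfr hD D']
    rw [map_add, map_smul, map_smul, smul_eq_mul, smul_eq_mul]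
  rw [h1]
  exact Subalgebra.add_mem _ (Subalgebra.mul_mem _ (le_offB (hD' _ (le_pt hR ⟨_, rfl⟩))) (hω 0))
    (Subalgebra.mul_mem _ (le_offB (hD' _ (le_pt hR ⟨_, rfl⟩))) (hω 1))

lemma div_gamma_mem (hp : PtNc φ.range J e V R h x y Dx Dy s t b) {α : E → ℤ} {z : K}
    (hz : z ∈ offB R x y hp.reg.hx hp.reg.hy s t)
    (hα : ∀ j, b j ≠ none → z / xi h e j ^ α j ∈ V j) : z / ∏ j, xi h e j ^ α j ∈ R := by
  refine offB_mem hp ?_ fun j hj => ?_
  · rw [div_eq_mul_inv]
    exact Subalgebra.mul_mem _ hz (gamma_offB hp α).2.2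
  · have h1 : z / ∏ j, xi h e j ^ α j =
        z / xi h e j ^ α j * ((∏ i, xi h e i ^ α i) / xi h e j ^ α j)⁻¹ := by
      have := zpow_ne_zero (α j) (xi_ne hp j)
      have := gamma_ne hp α
      field_simp
    rw [h1]
    exact (V j).mul_mem (hα j hj) (gamma_unit hp hj α).inv.2.1

lemma div_succ_mem (hp : PtNc φ.range J e V R h x y Dx Dy s t b) {α : E → ℤ} {j : E}
    (hj : b j ≠ none) {w z : K} (hw : UnitIn (V j) (xi h e j / w)) (hw0 : w ≠ 0)
    (hz : ∃ r ∈ R, z / ∏ j, xi h e j ^ α j = w * r) : z / xi h e j ^ (α j + 1) ∈ V j := by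
  obtain ⟨r, hr, he⟩ := hz
  have h1 : z / xi h e j ^ (α j + 1) =
      r * ((∏ i, xi h e i ^ α i) / xi h e j ^ α j) * (xi h e j / w)⁻¹ := by
    have h2 := zpow_ne_zero (α j) (xi_ne hp j)
    have h3 := gamma_ne hp α
    have h4 := xi_ne hp j
    have h5 : z = w * r * ∏ j, xi h e j ^ α j := by
      rw [← he, div_mul_cancel₀ _ h3]
    rw [h5, zpow_add_one₀ h4]
    field_simp
  rw [h1]
  exact (V j).mul_mem ((V j).mul_mem ((hp.val j hj).2.1 hr) (gamma_unit hp hj α).2.1) hw.inv.2.1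

/-- The object is logarithmic with isolated zeros at every point. -/
lemma exists_ad [IsAlgClosed k] (hφ : Function.Injective φ)
    (hfr : ∀ z : K, ∃ f g, IsRelPrime f g ∧ φ g ≠ 0 ∧ z * φ g = φ f)
    {D : Fin 2 → Derivation k K K}
    (hD : ∀ i, ∀ g : MvPolynomial (Fin 2) k, D i (φ g) = φ (pderiv i g))
    {θ : Obj k K} (h0 : θ.h ≠ 0 ∨ θ.ω ≠ 0)
    (hθ : ∀ (π : MvPolynomial (Fin 2) k) (hπ : Prime π),
      InBd φ.range J e V (curveLoc φ π hπ) ∨ GoodG φ θ D π hπ)
    (hR : Pt φ.range J R) (hp : PtNc φ.range J e V R h x y Dx Dy s t b)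
    (hspan : ∀ d : E → ℤ, ∃ n : E → ℤ, d = ∑ j, n j • e j) {α : E → ℤ}
    (hα : ∀ j, b j ≠ none → PP θ (V j) (xi h e j) (lD s x Dx) (lD t y Dy) (α j) ∧
      ¬ PP θ (V j) (xi h e j) (lD s x Dx) (lD t y Dy) (α j + 1)) :
    Ad θ R x y Dx Dy s t (∏ j, xi h e j ^ α j) := by
  have hno := reg_noeth hp.reg
  have hfr' : ∀ z : K, ∃ f g, φ g ≠ 0 ∧ z * φ g = φ f := fun z => by
    obtain ⟨f, g, -, h1, h2⟩ := hfr z
    exact ⟨f, g, h1, h2⟩
  have hh : θ.h ∈ offB R x y hp.reg.hx hp.reg.hy s t :=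
    mem_offB hφ hfr hR hp hspan fun π hπ => (hθ π hπ).imp_right fun h => h.1
  have hω : ∀ i, θ.ω (D i) ∈ offB R x y hp.reg.hx hp.reg.hy s t := fun i =>
    mem_offB hφ hfr hR hp hspan fun π hπ => (hθ π hπ).imp_right fun h => h.2.1 i
  have hah := div_gamma_mem hp hh (α := α) fun j hj => (hα j hj).1.1
  have hax := div_gamma_mem hp (omega_offB hfr' hD hR hω (D' := lD s x Dx)
    fun z hz => lD_mem hp.reg.hx hp.reg.Dx_mem s hz) (α := α) fun j hj => (hα j hj).1.2.1
  have hay := div_gamma_mem hp (omega_offB hfr' hD hR hω (D' := lD t y Dy)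
    fun z hz => lD_mem hp.reg.hy hp.reg.Dy_mem t hz) (α := α) fun j hj => (hα j hj).1.2.2
  refine ⟨gamma_ne hp α, log_gamma_x hp α, log_gamma_y hp α, hah, hax, hay, ?_⟩
  have hJ : ∀ P : Ideal R, P.IsPrime → Jw θ R x y Dx Dy s t (∏ j, xi h e j ^ α j) ≤ P →
      P = mId R x y := by
    intro P hP hJP
    have h1 : (⟨_, hah⟩ : R) ∈ P := hJP (Ideal.subset_span (Or.inl rfl))
    have h2 : (⟨_, hax⟩ : R) ∈ P := hJP (Ideal.subset_span (Or.inr (Or.inl rfl)))
    have h3 : (⟨_, hay⟩ : R) ∈ P := hJP (Ideal.subset_span (Or.inr (Or.inr rfl)))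
    by_contra hne
    have hne' : P ≠ mId R y x := by
      rw [mId_eq hp.reg.symm]
      intro he
      apply hne
      rw [he, mId_eq hp.reg, Set.pair_comm]
      rfl
    -- the components of the boundary
    have hsx : s = true → (⟨x, hp.reg.hx⟩ : R) ∉ P := by
      intro hs hxP
      obtain ⟨j, hj⟩ := hp.s_iff.1 hs
      have hj' : b j ≠ none := by rw [hj]; simp
      have h4 := prime_eq hp.reg P hxP hne
      rw [h4, Ideal.mem_span_singleton, dvd_eX hp.reg] at h1 h2 h3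
      have hu := unit_mono (hp.val j hj').2.1 (hp.bx j hj)
      exact (hα j hj').2 ⟨div_succ_mem hp hj' hu (x_ne hp.reg) h1,
        div_succ_mem hp hj' hu (x_ne hp.reg) h2, div_succ_mem hp hj' hu (x_ne hp.reg) h3⟩
    have hsy : t = true → (⟨y, hp.reg.hy⟩ : R) ∉ P := by
      intro ht hyP
      obtain ⟨j, hj⟩ := hp.t_iff.1 ht
      have hj' : b j ≠ none := by rw [hj]; simp
      have h4 := prime_eq hp.reg.symm P hyP hne'
      rw [h4, Ideal.mem_span_singleton, dvd_eX hp.reg.symm] at h1 h2 h3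
      have hu := unit_mono (hp.val j hj').2.1 (hp.by' j hj)
      exact (hα j hj').2 ⟨div_succ_mem hp hj' hu (y_ne hp.reg) h1,
        div_succ_mem hp hj' hu (y_ne hp.reg) h2, div_succ_mem hp hj' hu (y_ne hp.reg) h3⟩
    have hoff : Off hp.reg.hx hp.reg.hy s t P := ⟨hsx, hsy⟩
    have hP0 : P ≠ ⊥ := by
      rintro rfl
      have hz : ∀ z : K, z / (∏ j, xi h e j ^ α j) = 0 → z = 0 := fun z hz =>
        (div_eq_zero_iff.1 hz).resolve_right (gamma_ne hp α)
      have h1' := hz _ (congrArg Subtype.val ((Ideal.mem_bot).1 h1))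
      have h2' := hz _ (congrArg Subtype.val ((Ideal.mem_bot).1 h2))
      have h3' := hz _ (congrArg Subtype.val ((Ideal.mem_bot).1 h3))
      rcases h0 with h0 | h0
      · exact h0 h1'
      · rcases omega_ne hp.reg s t h0 with h0 | h0
        · exact h0 h2'
        · exact h0 h3'
    obtain ⟨π, hπ, hc⟩ := exists_curve hR hp hspan hoff hP0 hne
    have heq := curveLoc_eq hR hp hspan hoff hπ hc
    rcases hθ π hπ with hI | ⟨-, -, hG⟩
    · rw [heq] at hI
      exact not_inBd hR hp hoff hI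
    · apply hG
      have hle : offB R x y hp.reg.hx hp.reg.hy s t ≤ curveLoc φ π hπ := by
        rw [heq]
        exact offB_le hsx hsy
      have hγ := (unit_mono hle (gamma_offB hp α)).2.1
      have hvan : ∀ z : K, ∀ (hz : z / (∏ j, xi h e j ^ α j) ∈ R), (⟨_, hz⟩ : R) ∈ P →
          Van φ π hπ z := by
        intro z hz hzP
        have h4 := (van_of_mem hR hp hspan hoff hπ hc hzP).mul hγ
        have h5 : (∏ j, xi h e j ^ α j) * (z / ∏ j, xi h e j ^ α j) = z :=
          mul_div_cancel₀ _ (gamma_ne hp α)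
        change Van φ π hπ ((∏ j, xi h e j ^ α j) * (z / ∏ j, xi h e j ^ α j)) at h4
        rwa [h5] at h4
      refine ⟨hvan _ hah h1, fun i => ?_⟩
      have hDx : ∀ z ∈ R, D i z ∈ curveLoc φ π hπ := fun z hz => curve_der hD
        (hle (le_offB hz)) i
      have h6 : θ.ω (D i) = (if s then D i x / x else D i x) * θ.ω (lD s x Dx) +
          (if t then D i y / y else D i y) * θ.ω (lD t y Dy) := by
        conv_lhs => rw [hp.reg.basis (D i), smul_lD (D := Dx) s (x_ne hp.reg),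
          smul_lD (D := Dy) t (y_ne hp.reg)]
        rw [map_add, map_smul, map_smul, smul_eq_mul, smul_eq_mul]
      rw [h6]
      refine ((hvan _ hax h2).mul ?_).add ((hvan _ hay h3).mul ?_)
      · split_ifs with hs
        · rw [div_eq_mul_inv]
          exact Subalgebra.mul_mem _ (hDx x hp.reg.hx)
            (unit_mono hle (x_offB hp.reg hs)).2.2
        · exact hDx x hp.reg.hx
      · split_ifs with ht
        · rw [div_eq_mul_inv]
          exact Subalgebra.mul_mem _ (hDx y hp.reg.hy)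
            (unit_mono hle (y_offB hp.reg ht)).2.2
        · exact hDx y hp.reg.hy
  have hrad : mId R x y ≤ (Jw θ R x y Dx Dy s t (∏ j, xi h e j ^ α j)).radical := by
    rw [Ideal.radical_eq_sInf]
    exact le_sInf fun P hP => (hJ P hP.2 hP.1).ge
  obtain ⟨n, hn⟩ := Ideal.exists_radical_pow_le_of_fg
    (Jw θ R x y Dx Dy s t (∏ j, xi h e j ^ α j)) (IsNoetherian.noetherian _)
  have hle : mId R x y ^ n ≤ Jw θ R x y Dx Dy s t (∏ j, xi h e j ^ α j) :=
    (Ideal.pow_right_mono hrad n).trans hn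
  have := hp.reg.finite_pow n
  exact Module.Finite.of_surjective (Ideal.Quotient.factorₐ k hle).toLinearMap
    (Ideal.Quotient.factor_surjective hle)

/-- Generic form of the main theorem. -/
theorem exists_stage2_gen [IsAlgClosed k] (hφ : Function.Injective φ)
    (hfr : ∀ z : K, ∃ f g, IsRelPrime f g ∧ φ g ≠ 0 ∧ z * φ g = φ f)
    {D : Fin 2 → Derivation k K K}
    (hD : ∀ i, ∀ g : MvPolynomial (Fin 2) k, D i (φ g) = φ (pderiv i g))
    (hN : Nc2 φ.range J e V) {θ : Obj k K} (h0 : θ.h ≠ 0 ∨ θ.ω ≠ 0)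
    (hθ : ∀ (π : MvPolynomial (Fin 2) k) (hπ : Prime π),
      InBd φ.range J e V (curveLoc φ π hπ) ∨ GoodG φ θ D π hπ) :
    ∃ α : E → ℤ, Stage2 φ.range θ J e V α := by
  have hfr' : ∀ z : K, ∃ f g, φ g ≠ 0 ∧ z * φ g = φ f := fun z => by
    obtain ⟨f, g, -, h1, h2⟩ := hfr z
    exact ⟨f, g, h1, h2⟩
  obtain ⟨α, hα⟩ := exists_alpha (B := φ.range) (J := J) (e := e) (W := V)
    (fun R hR => Fr_of_le hfr' (le_pt hR)) h0
  refine ⟨α, hN.ne, hN.span, fun R hR => ?_⟩
  obtain ⟨h, x, y, Dx, Dy, s, t, b, hp⟩ := hN.pt R hR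
  exact ⟨h, x, y, Dx, Dy, s, t, b, hp, exists_ad hφ hfr hD h0 hθ hR hp hN.span
    (hα R h x y Dx Dy s t b hR hp)⟩

end Main

end F1

end Pool.Agent.MP_b525bf_ag_TS
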