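import Pool.Agent.Lib.MP_b525bf_ag_TS.Loc2

/-!
# F1, part 1: prime ideals of the local rings of smooth surfaces
-/

set_option autoImplicit false

namespace Pool.Agent.MP_b525bf_ag_TS

namespace F1

variable {k K : Type} [Field k] [Field K] [Algebra k K]

/-! ### Local rings of points -/

lemma le_ptLoc (C : Subalgebra k K) (χ : C →ₐ[k] k) : C ≤ ptLoc C χ := fun z hz =>
  ⟨⟨z, hz⟩, 1, by rw [map_one]; exact one_ne_zero, by simp⟩

lemma ptLoc_unit {C : Subalgebra k K} {χ : C →ₐ[k] k} (z : C) (hz : χ z ≠ 0) :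
    UnitIn (ptLoc C χ) (z : K) := by
  have hz0 : (z : K) ≠ 0 := by
    intro h
    apply hz
    have : z = 0 := Subtype.ext h
    rw [this, map_zero]
  exact ⟨hz0, le_ptLoc C χ z.2, 1, z, hz, by
    rw [inv_mul_cancel₀ hz0]; rfl⟩

/-- The local ring of a point of a finitely generated algebra is Noetherian. -/
lemma ptLoc_noeth (C : Subalgebra k K) (χ : C →ₐ[k] k) [IsNoetherianRing C] :
    IsNoetherianRing (ptLoc C χ) := by
  let _ : Algebra C (ptLoc C χ) := (Subalgebra.inclusion (le_ptLoc C χ)).toRingHom.toAlgebra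
  have hP : (RingHom.ker χ.toRingHom).IsPrime := RingHom.ker_isPrime _
  have hmem : ∀ c : C, c ∈ (RingHom.ker χ.toRingHom).primeCompl ↔ χ c ≠ 0 := fun c => Iff.rfl
  have : IsLocalization (RingHom.ker χ.toRingHom).primeCompl (ptLoc C χ) := by
    refine ⟨?_, ?_, ?_⟩
    · rintro ⟨c, hc⟩
      obtain ⟨h0, h1, h2⟩ := ptLoc_unit c ((hmem c).1 hc)
      refine IsUnit.of_mul_eq_one (⟨(c : K)⁻¹, h2⟩ : ptLoc C χ) (Subtype.ext ?_)
      change (c : K) * (c : K)⁻¹ = 1
      exact mul_inv_cancel₀ h0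
    · rintro ⟨z, a, b, hb, h⟩
      exact ⟨(a, ⟨b, (hmem b).2 hb⟩), Subtype.ext h⟩
    · intro a b hab
      refine ⟨1, ?_⟩
      have h := congrArg (Subtype.val : ptLoc C χ → K) hab
      have h' : (a : K) = b := h
      rw [Subtype.ext h']
  exact IsLocalization.isNoetherianRing (RingHom.ker χ.toRingHom).primeCompl _ inferInstance

/-! ### Regular pairs -/

lemma regular_pair {P : Type} [CommRing P] {a b : P} :
    RingTheory.Sequence.IsWeaklyRegular P [a, b] ↔
      (∀ z, a * z = 0 → z = 0) ∧ ∀ z, a ∣ b * z → a ∣ z := by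
  rw [RingTheory.Sequence.isWeaklyRegular_cons_iff, RingTheory.Sequence.isWeaklyRegular_singleton_iff]
  refine and_congr ?_ ?_
  · rw [isSMulRegular_iff_right_eq_zero_of_smul]
    exact Iff.rfl
  · unfold QuotSMulTop
    rw [isSMulRegular_quotient_iff_mem_of_smul_mem]
    refine forall_congr' fun z => ?_
    rw [Submodule.mem_smul_pointwise_iff_exists, Submodule.mem_smul_pointwise_iff_exists]
    constructor
    · rintro h ⟨w, hw⟩
      obtain ⟨v, -, hv⟩ := h ⟨w, trivial, hw.symm⟩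
      exact ⟨v, hv.symm⟩
    · rintro h ⟨w, -, hw⟩
      obtain ⟨v, hv⟩ := h ⟨w, hw.symm⟩
      exact ⟨v, trivial, hv.symm⟩

lemma mv_regular : RingTheory.Sequence.IsWeaklyRegular (MvPolynomial (Fin 2) k)
    [(MvPolynomial.X 0 : MvPolynomial (Fin 2) k), MvPolynomial.X 1] := by
  rw [regular_pair]
  constructor
  · intro z hz
    exact (mul_eq_zero.1 hz).resolve_left (MvPolynomial.X_ne_zero 0)
  · intro z hz
    refine ((MvPolynomial.X_prime (R := k) (i := (0 : Fin 2))).dvd_or_dvd hz).resolve_left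
      fun h => ?_
    obtain ⟨w, hw⟩ := h
    have := congrArg (MvPolynomial.eval ![(0 : k), 1]) hw
    simp at this

variable {R : Subalgebra k K} {x y : K} {Dx Dy : Derivation k K K}

lemma reg_noeth (h : Reg R x y Dx Dy) : IsNoetherianRing R := by
  obtain ⟨C, χ, hx, hy, hR, -, -, het⟩ := h.et
  rw [hR]
  algebraize [(MvPolynomial.aeval ![(⟨x, hx⟩ : C), ⟨y, hy⟩] :
    MvPolynomial (Fin 2) k →ₐ[k] C).toRingHom]
  have : IsNoetherianRing C := Algebra.FiniteType.isNoetherianRing (MvPolynomial (Fin 2) k) C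
  exact ptLoc_noeth C χ

/-- `y` is a nonzerodivisor modulo `x`. -/
lemma reg_y (h : Reg R x y Dx Dy) {z u : K} (hz : z ∈ R) (hu : u ∈ R) (he : y * z = x * u) :
    ∃ w ∈ R, z = x * w := by
  obtain ⟨C, χ, hx, hy, hR, hχx, hχy, het⟩ := h.et
  rw [hR] at hz hu ⊢
  let f : MvPolynomial (Fin 2) k →ₐ[k] C := MvPolynomial.aeval ![(⟨x, hx⟩ : C), ⟨y, hy⟩]
  algebraize [f.toRingHom]
  have hflat : Module.Flat (MvPolynomial (Fin 2) k) C := inferInstance
  have hreg := RingTheory.Sequence.IsWeaklyRegular.of_flat (S := C) (mv_regular (k := k))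
  have h0 : algebraMap (MvPolynomial (Fin 2) k) C (MvPolynomial.X 0) = ⟨x, hx⟩ := by
    change f (MvPolynomial.X 0) = _
    simp [f]
  have h1 : algebraMap (MvPolynomial (Fin 2) k) C (MvPolynomial.X 1) = ⟨y, hy⟩ := by
    change f (MvPolynomial.X 1) = _
    simp [f]
  rw [List.map_cons, List.map_cons, List.map_nil, h0, h1, regular_pair] at hreg
  obtain ⟨a, b, hb, h2⟩ := hz
  obtain ⟨a', b', hb', h3⟩ := hu
  obtain ⟨c, hc⟩ := hreg.2 (a * b') ⟨a' * b, Subtype.ext (by
    change y * ((a : K) * b') = x * (a' * b)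
    rw [← h2, ← h3]
    linear_combination (b : K) * b' * he)⟩
  have hc' : (a : K) * b' = x * c := congrArg (Subtype.val : C → K) hc
  have hub : UnitIn (ptLoc C χ) (b : K) := ptLoc_unit b hb
  have hub' : UnitIn (ptLoc C χ) (b' : K) := ptLoc_unit b' hb'
  refine ⟨c * ((b : K)⁻¹ * (b' : K)⁻¹), Subalgebra.mul_mem _ (le_ptLoc C χ c.2)
    (Subalgebra.mul_mem _ hub.2.2 hub'.2.2), ?_⟩
  have hb0 := hub.1
  have hb0' := hub'.1
  rw [← mul_assoc, ← hc', ← h2]
  field_simp

lemma reg_y_pow (h : Reg R x y Dx Dy) (n : ℕ) : ∀ u ∈ R, y ^ n ≠ x * u := by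
  induction n with
  | zero =>
    intro u hu he
    exact h.one u hu 0 R.zero_mem (by rw [mul_zero, add_zero, ← he, pow_zero])
  | succ n ih =>
    intro u hu he
    rw [pow_succ'] at he
    obtain ⟨w, hw, hw'⟩ := reg_y h (R.pow_mem h.hy n) hu he
    exact ih w hw hw'

/-! ### The local ring -/

/-- The coordinate `x` as an element of `R`. -/
def eX (h : Reg R x y Dx Dy) : R := ⟨x, h.hx⟩

/-- The coordinate `y` as an element of `R`. -/
def eY (h : Reg R x y Dx Dy) : R := ⟨y, h.hy⟩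

lemma mId_eq (h : Reg R x y Dx Dy) : mId R x y = Ideal.span {eX h, eY h} := by
  unfold mId
  congr 1
  ext z
  simp only [Set.mem_ofPred_eq, Set.mem_insert_iff, Set.mem_singleton_iff]
  exact or_congr ⟨fun h' => Subtype.ext h', fun h' => congrArg Subtype.val h'⟩
    ⟨fun h' => Subtype.ext h', fun h' => congrArg Subtype.val h'⟩

lemma isUnit_iff {z : R} : IsUnit z ↔ UnitIn R (z : K) := by
  constructor
  · rintro hz
    obtain ⟨w, hw⟩ := isUnit_iff_exists_inv.1 hz
    have h1 : (z : K) * w = 1 := congrArg Subtype.val hw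
    have h0 : (z : K) ≠ 0 := left_ne_zero_of_mul_eq_one h1
    exact ⟨h0, z.2, by rw [← eq_inv_of_mul_eq_one_right h1]; exact w.2⟩
  · rintro ⟨h0, -, h1⟩
    exact IsUnit.of_mul_eq_one (⟨_, h1⟩ : R) (Subtype.ext (mul_inv_cancel₀ h0))

lemma mem_mId_iff (h : Reg R x y Dx Dy) {z : R} : z ∈ mId R x y ↔ ¬ IsUnit z := by
  rw [isUnit_iff, ← h.unitIn, not_not]

lemma reg_local (h : Reg R x y Dx Dy) : IsLocalRing R := by
  refine IsLocalRing.of_nonunits_add fun a b ha hb => ?_
  rw [mem_nonunits_iff, ← mem_mId_iff h] at ha hb ⊢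
  exact Ideal.add_mem _ ha hb

lemma mId_maximal (h : Reg R x y Dx Dy) : (mId R x y).IsMaximal := by
  have := reg_local h
  have : mId R x y = IsLocalRing.maximalIdeal R := by
    ext z
    rw [mem_mId_iff h, IsLocalRing.mem_maximalIdeal, mem_nonunits_iff]
  rw [this]
  infer_instance

lemma eX_mem (h : Reg R x y Dx Dy) : eX h ∈ mId R x y := by
  rw [mId_eq h]; exact Ideal.subset_span (by simp)

lemma eY_mem (h : Reg R x y Dx Dy) : eY h ∈ mId R x y := by
  rw [mId_eq h]; exact Ideal.subset_span (by simp)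

/-- Elements not divisible by `x` are powers of `y` times units modulo `x`. -/
lemma exists_form (h : Reg R x y Dx Dy) {z : R} (hz : ¬ eX h ∣ z) :
    ∃ (n : ℕ) (u w : R), IsUnit u ∧ z = eY h ^ n * u + eX h * w := by
  classical
  have hloc := reg_local h
  have hno := reg_noeth h
  let I : Ideal R := Ideal.span {eX h}
  have hI : I ≠ ⊤ := by
    rw [Ne, Ideal.span_singleton_eq_top]
    exact (mem_mId_iff h).1 (eX_mem h)
  have hnt : Nontrivial (R ⧸ I) := Ideal.Quotient.nontrivial_iff.2 hI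
  have hloc' : IsLocalRing (R ⧸ I) :=
    IsLocalRing.of_surjective' (Ideal.Quotient.mk I) Ideal.Quotient.mk_surjective
  let L : Ideal (R ⧸ I) := Ideal.span {Ideal.Quotient.mk I (eY h)}
  have hmemL : ∀ (n : ℕ) (v : R), Ideal.Quotient.mk I v ∈ L ^ n ↔
      ∃ u w : R, v = eY h ^ n * u + eX h * w := by
    intro n v
    rw [Ideal.span_singleton_pow, Ideal.mem_span_singleton, ← map_pow]
    constructor
    · rintro ⟨c, hc⟩
      obtain ⟨u, rfl⟩ := Ideal.Quotient.mk_surjective c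
      rw [← map_mul, Ideal.Quotient.eq, Ideal.mem_span_singleton] at hc
      obtain ⟨w, hw⟩ := hc
      exact ⟨u, w, by rw [← hw]; ring⟩
    · rintro ⟨u, w, rfl⟩
      refine ⟨Ideal.Quotient.mk I u, ?_⟩
      rw [← map_mul, Ideal.Quotient.eq, Ideal.mem_span_singleton]
      exact ⟨w, by ring⟩
  have hL : L ≠ ⊤ := by
    intro hL
    have h1 : Ideal.Quotient.mk I 1 ∈ L ^ 1 := by rw [pow_one, hL]; trivial
    obtain ⟨u, w, h2⟩ := (hmemL 1 1).1 h1
    refine ((mem_mId_iff h).1 ?_) isUnit_one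
    rw [h2, pow_one]
    exact Ideal.add_mem _ (Ideal.mul_mem_right _ _ (eY_mem h)) (Ideal.mul_mem_right _ _ (eX_mem h))
  have hkr := Ideal.iInf_pow_eq_bot_of_isLocalRing L hL
  have hz' : Ideal.Quotient.mk I z ≠ 0 := by
    rw [Ne, Ideal.Quotient.eq_zero_iff_mem, Ideal.mem_span_singleton]
    exact hz
  have hex : ∃ n, Ideal.Quotient.mk I z ∉ L ^ n := by
    by_contra hcon
    push Not at hcon
    apply hz'
    have : Ideal.Quotient.mk I z ∈ ⨅ n, L ^ n := by
      rw [Ideal.mem_iInf]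
      exact hcon
    rw [hkr] at this
    exact this
  obtain ⟨n, hn⟩ : ∃ n, Nat.find hex = n + 1 := by
    refine Nat.exists_eq_succ_of_ne_zero fun h0 => ?_
    have := Nat.find_spec hex
    rw [h0, pow_zero, Ideal.one_eq_top] at this
    exact this trivial
  have h1 : Ideal.Quotient.mk I z ∈ L ^ n := by
    by_contra hcon
    have := Nat.find_min' hex hcon
    omega
  have h2 : Ideal.Quotient.mk I z ∉ L ^ (n + 1) := hn ▸ Nat.find_spec hex
  obtain ⟨u, w, huw⟩ := (hmemL n z).1 h1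
  refine ⟨n, u, w, ?_, huw⟩
  by_contra hu
  apply h2
  rw [← mem_mId_iff h, mId_eq h, Ideal.mem_span_pair] at hu
  obtain ⟨a, b, hab⟩ := hu
  rw [hmemL]
  exact ⟨b, w + eY h ^ n * a, by rw [huw, ← hab]; ring⟩

lemma x_ne (h : Reg R x y Dx Dy) : x ≠ 0 := by
  rintro rfl
  have := h.xx
  rw [map_zero] at this
  exact zero_ne_one this

lemma dvd_eX (h : Reg R x y Dx Dy) {z : R} : eX h ∣ z ↔ ∃ u ∈ R, (z : K) = x * u :=
  ⟨fun ⟨u, hu⟩ => ⟨u, u.2, congrArg Subtype.val hu⟩, fun ⟨u, hu, h'⟩ => ⟨⟨u, hu⟩, Subtype.ext h'⟩⟩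

lemma eY_pow (h : Reg R x y Dx Dy) (n : ℕ) : ¬ eX h ∣ eY h ^ n := by
  rw [dvd_eX]
  rintro ⟨u, hu, h'⟩
  exact reg_y_pow h n u hu h'

/-- The coordinate `x` is a prime element. -/
lemma prime_eX (h : Reg R x y Dx Dy) : Prime (eX h) := by
  refine ⟨fun h0 => x_ne h (congrArg Subtype.val h0), (mem_mId_iff h).1 (eX_mem h), ?_⟩
  intro a b hab
  by_contra hcon
  push Not at hcon
  obtain ⟨n, u, w, hu, rfl⟩ := exists_form h hcon.1
  obtain ⟨n', u', w', hu', rfl⟩ := exists_form h hcon.2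
  obtain ⟨c, hc⟩ := hab
  have h1 : eX h ∣ eY h ^ (n + n') * (u * u') :=
    ⟨c - (eY h ^ n * u * w' + w * (eY h ^ n' * u' + eX h * w')), by
      rw [mul_sub, ← hc]; ring⟩
  exact eY_pow h (n + n') (((hu.mul hu').dvd_mul_right).1 h1)

/-- The prime ideals which contain `x`. -/
lemma prime_eq (h : Reg R x y Dx Dy) (P : Ideal R) [hP : P.IsPrime] (hx : eX h ∈ P)
    (hne : P ≠ mId R x y) : P = Ideal.span {eX h} := by
  refine le_antisymm (fun z hz => ?_) ((Ideal.span_singleton_le_iff_mem P).2 hx)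
  rw [Ideal.mem_span_singleton]
  by_contra hcon
  obtain ⟨n, u, w, hu, rfl⟩ := exists_form h hcon
  have h1 : eY h ^ n * u ∈ P := by
    have := Ideal.sub_mem _ hz (Ideal.mul_mem_right w P hx)
    rwa [add_sub_cancel_right] at this
  have h2 : eY h ^ n ∈ P := (hP.mem_or_mem h1).resolve_right fun h' =>
    hP.ne_top (Ideal.eq_top_of_isUnit_mem _ h' hu)
  have h3 : eY h ∈ P := hP.mem_of_pow_mem n h2
  apply hne
  have h4 := mId_maximal h
  refine (h4.eq_of_le hP.ne_top ?_).symm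
  rw [mId_eq h, Ideal.span_le]
  rintro z (rfl | rfl)
  · exact hx
  · exact h3

/-- The maximal ideal is not minimal over a principal ideal. -/
lemma not_minimal (h : Reg R x y Dx Dy) (z : R) :
    mId R x y ∉ (Ideal.span {z}).minimalPrimes := by
  intro hmin
  have hno := reg_noeth h
  have h1 := Ideal.height_le_one_of_isPrincipal_of_mem_minimalPrimes (Ideal.span {z}) _ hmin
  have hm := mId_maximal h
  have hp : (Ideal.span {eX h}).IsPrime := (Ideal.span_singleton_prime (prime_eX h).ne_zero).2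
    (prime_eX h)
  have h2 : Ideal.span {eX h} < mId R x y := by
    refine lt_of_le_of_ne ((Ideal.span_singleton_le_iff_mem _).2 (eX_mem h)) fun he => ?_
    have h3 : eY h ∈ Ideal.span {eX h} := he ▸ eY_mem h
    rw [Ideal.mem_span_singleton] at h3
    exact eY_pow h 1 (by rwa [pow_one])
  have h3 : (⊥ : Ideal R) < Ideal.span {eX h} :=
    bot_lt_iff_ne_bot.2 fun he => (prime_eX h).ne_zero (Ideal.span_singleton_eq_bot.1 he)
  have h4 := Ideal.height_add_one_le_of_lt_of_isPrime h2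
  have h5 := Ideal.height_add_one_le_of_lt_of_isPrime h3
  rw [Ideal.height_bot, zero_add] at h5
  have h6 : (2 : ℕ∞) ≤ 1 := by
    calc (2 : ℕ∞) = 1 + 1 := by norm_num
      _ ≤ (Ideal.span {eX h}).height + 1 := by gcongr
      _ ≤ _ := h4
      _ ≤ 1 := h1
  exact absurd h6 (by norm_num)

end F1

end Pool.Agent.MP_b525bf_ag_TS
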