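import Pool.Agent.Lib.MP_b525bf_ag_TS.InitGRing
import Pool.Agent.Lib.MP_b525bf_ag_TS.Pts
import Pool.Agent.Lib.MP_b525bf_ag_TS.Vals

/-!
# F1, part 2: orders along the components of the boundary
-/

set_option autoImplicit false

namespace Pool.Agent.MP_b525bf_ag_TS

namespace F1

variable {k K : Type} [Field k] [Field K] [Algebra k K]

/-! ### Units -/

lemma unit_one (V : Subalgebra k K) : UnitIn V 1 := ⟨one_ne_zero, V.one_mem, by
  rw [inv_one]; exact V.one_mem⟩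

lemma unit_div {V : Subalgebra k K} {z w : K} (hz : UnitIn V z) (hw : UnitIn V w) :
    UnitIn V (z / w) := by
  rw [div_eq_mul_inv]; exact hz.mul hw.inv

lemma unit_mono {R V : Subalgebra k K} (h : R ≤ V) {z : K} (hz : UnitIn R z) : UnitIn V z :=
  ⟨hz.1, h hz.2.1, h hz.2.2⟩

lemma unit_prod {ι : Type} {V : Subalgebra k K} (s : Finset ι) {f : ι → K}
    (h : ∀ i ∈ s, UnitIn V (f i)) : UnitIn V (∏ i ∈ s, f i) := by
  classical
  induction s using Finset.induction_on with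
  | empty => rw [Finset.prod_empty]; exact unit_one V
  | insert a s ha ih =>
    rw [Finset.prod_insert ha]
    exact (h a (Finset.mem_insert_self _ _)).mul
      (ih fun i hi => h i (Finset.mem_insert_of_mem hi))

lemma unit_pow {V : Subalgebra k K} {z : K} (hz : UnitIn V z) (n : ℕ) : UnitIn V (z ^ n) := by
  have := hz.zpow (n : ℤ)
  rwa [zpow_natCast] at this

/-! ### Valuation rings of prime elements -/

variable {R V : Subalgebra k K} {ξ : K}

/-- The field `K` is the field of fractions of `R`. -/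
def Fr (R : Subalgebra k K) : Prop := ∀ z : K, ∃ a ∈ R, ∃ b ∈ R, b ≠ 0 ∧ z * b = a

lemma val_ne (hV : Val R ξ V) : ξ ≠ 0 := by
  rintro rfl
  apply hV.2.2.1
  rw [inv_zero]
  exact V.zero_mem

lemma val_factor [IsNoetherianRing R] (hV : Val R ξ V) {z : K} (hz : z ∈ R) (h0 : z ≠ 0) :
    ∃ (n : ℕ) (w : K), w ∈ R ∧ z = ξ ^ n * w ∧ UnitIn V w := by
  have hu : ¬ IsUnit (⟨ξ, hV.1⟩ : R) := by
    rw [isUnit_iff]
    exact fun h => hV.2.2.1 (hV.2.1 h.2.2)
  have hz0 : (⟨z, hz⟩ : R) ≠ 0 := fun h => h0 (congrArg Subtype.val h)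
  obtain ⟨n, a, ha, he⟩ := WfDvdMonoid.max_power_factor' hz0 hu
  have he' : z = ξ ^ n * a := congrArg Subtype.val he
  have ha0 : (a : K) ≠ 0 := by
    intro h
    rw [h, mul_zero] at he'
    exact h0 he'
  refine ⟨n, a, a.2, he', ha0, hV.2.1 a.2, hV.2.2.2 a a.2 fun u hu' h => ha ⟨⟨u, hu'⟩, ?_⟩⟩
  exact Subtype.ext h

/-- Every element is a power of `ξ` times a unit of `V` which is a fraction of elements of `R`. -/
lemma val_order [IsNoetherianRing R] (hF : Fr R) (hV : Val R ξ V) {z : K} (h0 : z ≠ 0) :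
    ∃ (n : ℤ) (a b : K), a ∈ R ∧ b ∈ R ∧ UnitIn V a ∧ UnitIn V b ∧ z = ξ ^ n * (a / b) := by
  obtain ⟨a, ha, b, hb, hb0, he⟩ := hF z
  have ha0 : a ≠ 0 := by rw [← he]; exact mul_ne_zero h0 hb0
  obtain ⟨i, a', ha', hai, hau⟩ := val_factor hV ha ha0
  obtain ⟨l, b', hb', hbl, hbu⟩ := val_factor hV hb hb0
  refine ⟨(i : ℤ) - l, a', b', ha', hb', hau, hbu, ?_⟩
  have hξ := val_ne hV
  have h1 : z = a / b := by rw [← he, mul_div_cancel_right₀ _ hb0]
  have h2 := hbu.1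
  rw [h1, hai, hbl, zpow_sub₀ hξ, zpow_natCast, zpow_natCast]
  field_simp

lemma val_nonneg (hV : Val R ξ V) {u : K} (hu : UnitIn V u) {n : ℤ} (h : ξ ^ n * u ∈ V) :
    0 ≤ n := by
  by_contra hn
  push Not at hn
  have hξ := val_ne hV
  apply hV.2.2.1
  have h1 : ξ ^ n ∈ V := by
    have := V.mul_mem h hu.2.2
    rwa [mul_assoc, mul_inv_cancel₀ hu.1, mul_one] at this
  obtain ⟨m, hm⟩ : ∃ m : ℕ, (m : ℤ) = -n - 1 := ⟨(-n - 1).toNat, by omega⟩
  have h2 := V.mul_mem h1 (V.pow_mem (hV.2.1 hV.1) m)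
  have h3 : ξ ^ n * ξ ^ m = ξ⁻¹ := by
    rw [← zpow_natCast, ← zpow_add₀ hξ, hm, ← zpow_neg_one]
    congr 1
    ring
  rwa [h3] at h2

lemma val_pow_mem (hV : Val R ξ V) {n : ℤ} (hn : 0 ≤ n) : ξ ^ n ∈ V := by
  obtain ⟨m, rfl⟩ := Int.eq_ofNat_of_zero_le hn
  rw [zpow_natCast]
  exact V.pow_mem (hV.2.1 hV.1) m

lemma val_repr [IsNoetherianRing R] (hF : Fr R) (hV : Val R ξ V) {z : K} (hz : z ∈ V) :
    ∃ a ∈ R, ∃ b ∈ R, UnitIn V b ∧ z * b = a := by
  rcases eq_or_ne z 0 with rfl | h0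
  · exact ⟨0, R.zero_mem, 1, R.one_mem, unit_one V, zero_mul 1⟩
  · obtain ⟨n, a, b, ha, hb, hau, hbu, he⟩ := val_order hF hV h0
    have hn : 0 ≤ n := val_nonneg hV (unit_div hau hbu) (he ▸ hz)
    obtain ⟨m, rfl⟩ := Int.eq_ofNat_of_zero_le hn
    refine ⟨ξ ^ m * a, R.mul_mem (R.pow_mem hV.1 m) ha, b, hb, hbu, ?_⟩
    have := hbu.1
    rw [he, zpow_natCast]
    field_simp

lemma val_der [IsNoetherianRing R] (hF : Fr R) (hV : Val R ξ V) {D : Derivation k K K}
    (hD : ∀ z ∈ R, D z ∈ R) : ∀ z ∈ V, D z ∈ V := by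
  intro z hz
  obtain ⟨a, ha, b, hb, hbu, he⟩ := val_repr hF hV hz
  have h1 := congrArg D he
  rw [Derivation.leibniz, smul_eq_mul, smul_eq_mul] at h1
  have h2 : D z = (D a - z * D b) * b⁻¹ := by
    rw [← h1]
    have := hbu.1
    field_simp
    ring
  rw [h2]
  exact V.mul_mem (V.sub_mem (hV.2.1 (hD a ha)) (V.mul_mem hz (hV.2.1 (hD b hb)))) hbu.2.2

/-! ### Logarithmic derivatives -/

lemma log_mul {V : Subalgebra k K} {D : Derivation k K K} {z w : K} (hz0 : z ≠ 0) (hw0 : w ≠ 0)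
    (hz : D z / z ∈ V) (hw : D w / w ∈ V) : D (z * w) / (z * w) ∈ V := by
  have h : D (z * w) / (z * w) = D w / w + D z / z := by
    rw [Derivation.leibniz, smul_eq_mul, smul_eq_mul]
    field_simp
  rw [h]
  exact V.add_mem hw hz

lemma log_inv {V : Subalgebra k K} {D : Derivation k K K} {z : K} (hz0 : z ≠ 0)
    (hz : D z / z ∈ V) : D z⁻¹ / z⁻¹ ∈ V := by
  have h : D z⁻¹ / z⁻¹ = -(D z / z) := by
    rw [Derivation.leibniz_inv, smul_eq_mul]
    field_simp
  rw [h]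
  exact V.neg_mem hz

lemma log_pow {V : Subalgebra k K} {D : Derivation k K K} {z : K} (hz0 : z ≠ 0)
    (hz : D z / z ∈ V) (n : ℕ) : D (z ^ n) / z ^ n ∈ V := by
  induction n with
  | zero =>
    rw [pow_zero, Derivation.map_one_eq_zero, zero_div]
    exact V.zero_mem
  | succ n ih =>
    rw [pow_succ]
    exact log_mul (pow_ne_zero n hz0) hz0 ih hz

lemma log_zpow {V : Subalgebra k K} {D : Derivation k K K} {z : K} (hz0 : z ≠ 0)
    (hz : D z / z ∈ V) (n : ℤ) : D (z ^ n) / z ^ n ∈ V := by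
  obtain ⟨m, rfl | rfl⟩ := n.eq_nat_or_neg
  · rw [zpow_natCast]
    exact log_pow hz0 hz m
  · rw [zpow_neg, zpow_natCast]
    exact log_inv (pow_ne_zero m hz0) (log_pow hz0 hz m)

lemma log_prod {ι : Type} {V : Subalgebra k K} {D : Derivation k K K} (s : Finset ι) {f : ι → K}
    (h0 : ∀ i ∈ s, f i ≠ 0) (h : ∀ i ∈ s, D (f i) / f i ∈ V) :
    D (∏ i ∈ s, f i) / ∏ i ∈ s, f i ∈ V := by
  classical
  induction s using Finset.induction_on with
  | empty =>
    rw [Finset.prod_empty, Derivation.map_one_eq_zero, zero_div]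
    exact V.zero_mem
  | insert a s ha ih =>
    rw [Finset.prod_insert ha]
    refine log_mul (h0 a (Finset.mem_insert_self _ _)) (Finset.prod_ne_zero_iff.2 fun i hi =>
      h0 i (Finset.mem_insert_of_mem hi)) (h a (Finset.mem_insert_self _ _))
      (ih (fun i hi => h0 i (Finset.mem_insert_of_mem hi))
        fun i hi => h i (Finset.mem_insert_of_mem hi))

/-! ### The boundary at a point -/

section Point

variable {B : Subalgebra k K} {E : Type} [Fintype E] {J : E → Ideal B} {e : E → E → ℤ}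
  {W : E → Subalgebra k K} {R : Subalgebra k K} {h : E → K} {x y : K} {Dx Dy : Derivation k K K}
  {s t : Bool} {b : E → Option Bool}

lemma y_ne (hr : Reg R x y Dx Dy) : y ≠ 0 := x_ne hr.symm

lemma lD_mem {z w : K} {D : Derivation k K K} (hw : w ∈ R) (hD : ∀ z ∈ R, D z ∈ R) (s : Bool)
    (hz : z ∈ R) : lD s w D z ∈ R := by
  unfold lD
  split_ifs
  · exact R.mul_mem hw (hD z hz)
  · exact hD z hz

lemma log_x (hr : Reg R x y Dx Dy) (hs : s = true) : lD s x Dx x / x ∈ R := by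
  subst hs
  change x * Dx x / x ∈ R
  rw [hr.xx, mul_one, div_self (x_ne hr)]
  exact R.one_mem

lemma lD_y (hr : Reg R x y Dx Dy) : lD s x Dx y = 0 := by
  unfold lD
  split_ifs
  · change x * Dx y = 0
    rw [hr.xy, mul_zero]
  · exact hr.xy

lemma lD_x (hr : Reg R x y Dx Dy) : lD t y Dy x = 0 := by
  unfold lD
  split_ifs
  · change y * Dy x = 0
    rw [hr.yx, mul_zero]
  · exact hr.yx

lemma log_y (hr : Reg R x y Dx Dy) (ht : t = true) : lD t y Dy y / y ∈ R := by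
  subst ht
  change y * Dy y / y ∈ R
  rw [hr.yy, mul_one, div_self (y_ne hr)]
  exact R.one_mem

lemma xi_ne (hp : PtNc B J e W R h x y Dx Dy s t b) (j : E) : xi h e j ≠ 0 := by
  unfold xi
  exact Finset.prod_ne_zero_iff.2 fun i _ => zpow_ne_zero _ (hp.gen.1 i).1

lemma xi_mem (hp : PtNc B J e W R h x y Dx Dy s t b) (j : E) : xi h e j ∈ R := by
  rcases hj : b j with _ | _ | _
  · exact (hp.b0 j hj).2.1
  · have := R.mul_mem (hp.bx j hj).2.1 hp.reg.hx
    rwa [div_mul_cancel₀ _ (x_ne hp.reg)] at this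
  · have := R.mul_mem (hp.by' j hj).2.1 hp.reg.hy
    rwa [div_mul_cancel₀ _ (y_ne hp.reg)] at this

/-- A derivation which is logarithmic along the coordinates is logarithmic along the boundary. -/
lemma log_xi (hp : PtNc B J e W R h x y Dx Dy s t b) {D : Derivation k K K}
    (hD : ∀ z ∈ R, D z ∈ R) (hs : s = true → D x / x ∈ R) (ht : t = true → D y / y ∈ R) (j : E) :
    D (xi h e j) / xi h e j ∈ R := by
  have hunit : ∀ u, UnitIn R u → D u / u ∈ R := fun u hu => by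
    rw [div_eq_mul_inv]
    exact R.mul_mem (hD u hu.2.1) hu.2.2
  rcases hj : b j with _ | _ | _
  · exact hunit _ (hp.b0 j hj)
  · have hx0 := x_ne hp.reg
    have h1 : xi h e j = x * (xi h e j / x) := by field_simp
    rw [h1]
    exact log_mul hx0 (hp.bx j hj).1 (hs (hp.s_iff.2 ⟨j, hj⟩)) (hunit _ (hp.bx j hj))
  · have hy0 := y_ne hp.reg
    have h1 : xi h e j = y * (xi h e j / y) := by field_simp
    rw [h1]
    exact log_mul hy0 (hp.by' j hj).1 (ht (hp.t_iff.2 ⟨j, hj⟩)) (hunit _ (hp.by' j hj))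

lemma log_xi_x (hp : PtNc B J e W R h x y Dx Dy s t b) (j : E) :
    lD s x Dx (xi h e j) / xi h e j ∈ R :=
  log_xi hp (fun _ hz => lD_mem hp.reg.hx hp.reg.Dx_mem s hz) (log_x hp.reg)
    (fun _ => by rw [lD_y hp.reg, zero_div]; exact R.zero_mem) j

lemma log_xi_y (hp : PtNc B J e W R h x y Dx Dy s t b) (j : E) :
    lD t y Dy (xi h e j) / xi h e j ∈ R :=
  log_xi hp (fun _ hz => lD_mem hp.reg.hy hp.reg.Dy_mem t hz)
    (fun _ => by rw [lD_x hp.reg, zero_div]; exact R.zero_mem) (log_y hp.reg) j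

lemma gamma_ne (hp : PtNc B J e W R h x y Dx Dy s t b) (α : E → ℤ) :
    ∏ j, xi h e j ^ α j ≠ 0 :=
  Finset.prod_ne_zero_iff.2 fun j _ => zpow_ne_zero _ (xi_ne hp j)

lemma log_gamma_x (hp : PtNc B J e W R h x y Dx Dy s t b) (α : E → ℤ) :
    lD s x Dx (∏ j, xi h e j ^ α j) / ∏ j, xi h e j ^ α j ∈ R :=
  log_prod _ (fun j _ => zpow_ne_zero _ (xi_ne hp j)) fun j _ =>
    log_zpow (xi_ne hp j) (log_xi_x hp j) _

lemma log_gamma_y (hp : PtNc B J e W R h x y Dx Dy s t b) (α : E → ℤ) :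
    lD t y Dy (∏ j, xi h e j ^ α j) / ∏ j, xi h e j ^ α j ∈ R :=
  log_prod _ (fun j _ => zpow_ne_zero _ (xi_ne hp j)) fun j _ =>
    log_zpow (xi_ne hp j) (log_xi_y hp j) _

end Point

end F1

end Pool.Agent.MP_b525bf_ag_TS
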