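import Pool.Agent.Lib.MP_b525bf_ag_h90.Deriv

set_option autoImplicit false

namespace Pool.Agent.MP_b525bf_ag_TS.D1b

open Pool.Agent.MP_b525bf_ag Polynomial

variable {k R : Type} [Field k] [CommRing R] [Algebra k R]

/-- The subalgebra of the elements `∑ a i * y ^ i` with coefficients in `S`, if `y ^ p` is in `S`. -/
theorem exists_adj {p : ℕ} (hp : 0 < p) (S : Subalgebra k R) (y : R) (hy : y ^ p ∈ S) :
    ∃ S' : Subalgebra k R, S ≤ S' ∧ y ∈ S' ∧
      ∀ z ∈ S', ∃ a : Fin p → S, z = ∑ i, (a i : R) * y ^ (i : ℕ) := by
  refine ⟨(Algebra.adjoin S {y}).restrictScalars k, ?_, ?_, ?_⟩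
  · intro z hz
    rw [Subalgebra.mem_restrictScalars]
    exact (Algebra.adjoin S {y}).algebraMap_mem ⟨z, hz⟩
  · rw [Subalgebra.mem_restrictScalars]
    exact Algebra.subset_adjoin rfl
  · intro z hz
    rw [Subalgebra.mem_restrictScalars, Algebra.adjoin_singleton_eq_range_aeval] at hz
    obtain ⟨P, rfl⟩ := hz
    rcases subsingleton_or_nontrivial R with hR | hR
    · exact ⟨fun _ => 0, Subsingleton.elim _ _⟩
    have hnt : Nontrivial S := inferInstance
    set F : S[X] := X ^ p - C ⟨y ^ p, hy⟩ with hF
    have hFm : F.Monic := monic_X_pow_sub_C _ hp.ne'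
    have hFd : F.natDegree = p := natDegree_X_pow_sub_C
    have h0 : aeval y F = 0 := by
      rw [hF, map_sub, map_pow, aeval_X, aeval_C]
      exact sub_self _
    have h1 : aeval y P = aeval y (P %ₘ F) := by
      conv_lhs => rw [← modByMonic_add_div P F]
      rw [map_add, map_mul, h0, zero_mul, add_zero]
    have h2 : (P %ₘ F).natDegree < p := by
      rw [← hFd]
      refine natDegree_modByMonic_lt _ hFm ?_
      intro h
      rw [h, natDegree_one] at hFd
      omega
    refine ⟨fun i => (P %ₘ F).coeff i, ?_⟩
    change aeval y P = _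
    rw [h1, aeval_eq_sum_range' h2, ← Fin.sum_univ_eq_sum_range (fun i => (P %ₘ F).coeff i • y ^ i) p]
    exact Finset.sum_congr rfl fun i _ => rfl

/-- Formal smoothness descends along `S ⊆ R` if `R` is free over `S` with basis the monomials in
elements `y` whose `p`-th powers are in `S`. -/
theorem formallySmooth_of_monomials {p : ℕ} (hp : 0 < p) : ∀ (m : ℕ) (S : Subalgebra k R)
    (y : Fin m → R), (∀ l, y l ^ p ∈ S) →
    (∀ b : R, ∃ a : (Fin m → Fin p) → S, ∑ β, (a β : R) * ∏ l, y l ^ (β l : ℕ) = b) →
    (∀ a : (Fin m → Fin p) → S, ∑ β, (a β : R) * ∏ l, y l ^ (β l : ℕ) = 0 → ∀ β, a β = 0) →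
    Algebra.FormallySmooth k R → Algebra.FormallySmooth k S := by
  intro m
  induction m with
  | zero =>
    intro S y _ hrep _ hR
    have htop : S = ⊤ := by
      rw [eq_top_iff]
      intro b _
      obtain ⟨a, ha⟩ := hrep b
      rw [← ha]
      exact Subalgebra.sum_mem _ fun β _ => by simp
    subst htop
    exact Algebra.FormallySmooth.of_equiv (Subalgebra.topEquiv (R := k) (A := R)).symm
  | succ m ih =>
    intro S y hy hrep huniq hR
    obtain ⟨S', hSS', hyS', hS'⟩ := exists_adj hp S (y 0) (hy 0)
    -- the monomials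
    have hmono : ∀ (i : Fin p) (β : Fin m → Fin p),
        ∏ l, y l ^ ((Fin.cons i β : Fin (m + 1) → Fin p) l : ℕ) =
        y 0 ^ (i : ℕ) * ∏ l : Fin m, y l.succ ^ (β l : ℕ) := by
      intro i β
      rw [Fin.prod_univ_succ]
      simp
    have hsum : ∀ (f : (Fin (m + 1) → Fin p) → R),
        ∑ β, f β = ∑ β' : Fin m → Fin p, ∑ i : Fin p, f (Fin.cons i β') := by
      intro f
      rw [Finset.sum_comm, ← Fintype.sum_prod_type' (fun (i : Fin p) (β' : Fin m → Fin p) =>
        f (Fin.cons i β'))]
      exact (Equiv.sum_comp (Fin.consEquiv (fun _ => Fin p)) f).symm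
    have hsm : Algebra.FormallySmooth k S' := by
      refine ih S' (fun l => y l.succ) (fun l => hSS' (hy _)) ?_ ?_ hR
      · intro b
        obtain ⟨a, ha⟩ := hrep b
        refine ⟨fun β' => ⟨∑ i, (a (Fin.cons i β') : R) * y 0 ^ (i : ℕ),
          Subalgebra.sum_mem _ fun i _ => Subalgebra.mul_mem _ (hSS' (a _).2)
            (Subalgebra.pow_mem _ hyS' _)⟩, ?_⟩
        rw [← ha, hsum]
        refine Finset.sum_congr rfl fun β' _ => ?_
        dsimp only
        rw [Finset.sum_mul]
        refine Finset.sum_congr rfl fun i _ => ?_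
        rw [hmono]
        ring
      · intro a ha
        choose c hc using fun β' => hS' (a β') (a β').2
        have h1 := huniq (fun β => c (Fin.tail β) (β 0)) (by
          rw [hsum, ← ha]
          refine Finset.sum_congr rfl fun β' _ => ?_
          rw [hc β', Finset.sum_mul]
          refine Finset.sum_congr rfl fun i _ => ?_
          rw [hmono]
          simp only [Fin.tail_cons, Fin.cons_zero]
          ring)
        intro β'
        apply Subtype.ext
        rw [hc β']
        refine Finset.sum_eq_zero fun i _ => ?_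
        have h2 := h1 (Fin.cons i β')
        simp only [Fin.tail_cons, Fin.cons_zero] at h2
        rw [h2]
        simp
    -- the last step
    have hsub : Algebra.FormallySmooth k (S.comap S'.val) := by
      refine H90.formallySmooth_of_basis p hp (S.comap S'.val) (⟨y 0, hyS'⟩ : S') ?_ ?_
      · intro b
        obtain ⟨a, ha⟩ := hS' b b.2
        refine ⟨fun i => ⟨⟨a i, hSS' (a i).2⟩, (a i).2⟩, ?_⟩
        apply Subtype.ext
        rw [ha, AddSubmonoidClass.coe_finsetSum]
        rfl
      · intro a ha i
        set β0 : Fin m → Fin p := fun _ => ⟨0, hp⟩ with hβ0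
        have h0 : ∏ l : Fin m, y l.succ ^ (β0 l : ℕ) = 1 := by
          refine Finset.prod_eq_one fun l _ => ?_
          exact pow_zero _
        have hinj : (0 : R) = ((∑ i, ((a i : S') : S') * (⟨y 0, hyS'⟩ : S') ^ (i : ℕ) : S') : R) := by
          rw [ha]; rfl
        rw [AddSubmonoidClass.coe_finsetSum] at hinj
        classical
        have h1 := huniq (fun β => if Fin.tail β = β0 then ⟨((a (β 0) : S') : R), (a (β 0)).2⟩
            else 0)
          (by
            rw [hsum, Finset.sum_eq_single β0]
            · rw [hinj]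
              refine Finset.sum_congr rfl fun i _ => ?_
              rw [hmono, h0, mul_one, Fin.tail_cons, if_pos rfl, Fin.cons_zero]
              rfl
            · intro β' _ hne
              refine Finset.sum_eq_zero fun i _ => ?_
              rw [Fin.tail_cons, if_neg hne, ZeroMemClass.coe_zero, zero_mul]
            · intro h
              exact absurd (Finset.mem_univ _) h)
        have h2 := h1 (Fin.cons i β0)
        simp only [Fin.tail_cons, Fin.cons_zero, if_true] at h2
        have h3 : (((a i : S') : S') : R) = 0 := congrArg (fun z : S => (z : R)) h2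
        apply Subtype.ext
        apply Subtype.ext
        exact h3
    let e : S.comap S'.val ≃ₐ[k] S :=
      { toFun := fun x => ⟨((x : S') : R), x.2⟩
        invFun := fun x => ⟨⟨x, hSS' x.2⟩, x.2⟩
        left_inv := fun _ => rfl
        right_inv := fun _ => rfl
        map_mul' := fun _ _ => rfl
        map_add' := fun _ _ => rfl
        commutes' := fun _ => rfl }
    exact Algebra.FormallySmooth.of_equiv e

end Pool.Agent.MP_b525bf_ag_TS.D1b
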