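import Pool.Agent.Lib.MP_b525bf_ag_TS.Expand
import Pool.Agent.Lib.MP_b525bf_ag_W.Inv
import Pool.Agent.Lib.MP_b525bf_ag_W.Destack
import Pool.Agent.Lib.MP_b525bf_ag_TS.Inter_aux6

/-!
# D1: the intersection of a toric family with a subfield which contains the `p`-th powers
-/

set_option autoImplicit false

namespace Pool.Agent.MP_b525bf_ag_TS

open Pool.Agent.MP_b525bf_ag Pool.Agent.MP_b525bf_ag_W Pool.Agent.MP_b525bf_ag_P AddMonoidAlgebra

variable {k K ι J : Type} [Field k] [Field K] [Algebra k K] [AddCommGroup ι]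

/-- The intersection of the family with the subfield `L`. -/
def interFam (M : Fam k K ι) (L : IntermediateField k K) : Fam k K ι where
  s d := M.s d ⊓ Subalgebra.toSubmodule L.toSubalgebra
  one' := ⟨M.one', L.one_mem⟩
  mul' := fun hx hy => ⟨M.mul' hx.1 hy.1, L.mul_mem hx.2 hy.2⟩

namespace D1b

variable {M : Fam k K ι} {L : IntermediateField k K} {p m : ℕ}

theorem interFam_alg_le (M : Fam k K ι) (L : IntermediateField k K) :
    (interFam M L).alg ≤ M.alg := fun _ hF d => (hF d).1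

theorem inter_le (d : ι) : (interFam M L).s d ≤ M.s d := fun _ h => h.1

/-- The inclusion of the intersection. -/
noncomputable def incI (M : Fam k K ι) (L : IntermediateField k K) :
    (interFam M L).alg →ₐ[k] M.alg := Subalgebra.inclusion (interFam_alg_le M L)

theorem pow_mem_inter (hL : ∀ z : K, z ^ p ∈ L) {d : ι} {x : K} (hx : x ∈ M.s d) :
    x ^ p ∈ (interFam M L).s (p • d) := ⟨M.pow' hx p, hL x⟩

theorem isIntegral_inter (hp : 0 < p) (hL : ∀ z : K, z ^ p ∈ L) (F : M.alg) :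
    letI := (incI M L).toRingHom.toAlgebra
    IsIntegral (interFam M L).alg F := by
  let _ := (incI M L).toRingHom.toAlgebra
  refine Fam.alg_induction M (p := fun F => IsIntegral (interFam M L).alg F) ?_ ?_ ?_ F
  · exact isIntegral_zero
  · exact fun F G hF hG => hF.add hG
  · intro b x hx
    refine IsIntegral.of_pow hp ?_
    have h1 : M.el hx ^ p = algebraMap (interFam M L).alg M.alg
        ((interFam M L).el (pow_mem_inter hL hx)) := Fam.el_pow M hx p
    rw [h1]
    exact isIntegral_algebraMap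

theorem fg_interFam (hp : 0 < p) (hL : ∀ z : K, z ^ p ∈ L) (hfg : M.alg.FG) :
    (interFam M L).alg.FG := by
  let _ := (incI M L).toRingHom.toAlgebra
  have h0 : IsScalarTower k (interFam M L).alg M.alg := IsScalarTower.of_algHom (incI M L)
  have h1 : Algebra.FiniteType k M.alg := M.finiteType_alg hfg
  have h2 : Algebra.IsIntegral (interFam M L).alg M.alg := ⟨isIntegral_inter hp hL⟩
  have h3 : Algebra.FiniteType (interFam M L).alg M.alg :=
    Algebra.FiniteType.of_restrictScalars_finiteType k _ _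
  have h4 : Module.Finite (interFam M L).alg M.alg := Algebra.IsIntegral.finite
  rw [Subalgebra.fg_iff_finiteType]
  exact ⟨fg_of_fg_of_fg k _ _ h1.1 h4.1 (Subalgebra.inclusion_injective _)⟩

theorem exists_over_inter (hp : 0 < p) (hL : ∀ z : K, z ^ p ∈ L)
    (q0 : Ideal (interFam M L).alg) [q0.IsPrime] :
    ∃ q : Ideal M.alg, q.IsPrime ∧ Over (interFam M L) M (AddMonoidHom.id ι) q0 q := by
  let _ := (incI M L).toRingHom.toAlgebra
  have h2 : Algebra.IsIntegral (interFam M L).alg M.alg := ⟨isIntegral_inter hp hL⟩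
  obtain ⟨q, -, hq, hqc⟩ := Ideal.exists_ideal_over_prime_of_isIntegral q0 (⊥ : Ideal M.alg)
    (by
      intro a ha
      have h1 : incI M L a = 0 := ha
      have h2 : a = 0 := Subalgebra.inclusion_injective (interFam_alg_le M L)
        (h1.trans (map_zero (incI M L)).symm)
      rw [h2]
      exact q0.zero_mem)
  refine ⟨q, hq, fun d x hx hx' => ?_⟩
  rw [← hqc, Ideal.mem_comap]
  rfl

theorem pow_notMem_inter (hL : ∀ z : K, z ^ p ∈ L) {q0 : Ideal (interFam M L).alg}
    {q : Ideal M.alg} [q.IsPrime] (h : Over (interFam M L) M (AddMonoidHom.id ι) q0 q) {d : ι}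
    {x : K} (hx : x ∈ M.s d) (hxq : M.el hx ∉ q) :
    (interFam M L).el (pow_mem_inter hL hx) ∉ q0 := by
  rw [h _ _ (pow_mem_inter hL hx) (M.pow' hx p), ← Fam.el_pow M hx p]
  exact fun h1 => hxq (Ideal.IsPrime.mem_of_pow_mem inferInstance _ h1)

theorem degs_inter (hL : ∀ z : K, z ^ p ∈ L) {q0 : Ideal (interFam M L).alg} [q0.IsPrime]
    {q : Ideal M.alg} [q.IsPrime] (h : Over (interFam M L) M (AddMonoidHom.id ι) q0 q) {d : ι}
    (hd : d ∈ M.degs q) : p • d ∈ (interFam M L).degs q0 := by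
  obtain ⟨x, hx, hxq⟩ := hd
  exact ⟨x ^ p, pow_mem_inter hL hx, pow_notMem_inter hL h hx hxq⟩

theorem loc_interFam {d : ι} {x : K} (hx : x ∈ (interFam M L).s d) (hx0 : x ≠ 0) :
    (interFam M L).loc hx = interFam (M.loc hx.1) L := by
  ext e y
  constructor
  · rintro ⟨n, hn⟩
    refine ⟨⟨n, hn.1⟩, ?_⟩
    have h1 : y = (x ^ n)⁻¹ * (x ^ n * y) := by field_simp
    rw [h1]
    exact L.mul_mem (L.inv_mem (pow_mem (show x ∈ L from hx.2) n)) hn.2
  · rintro ⟨⟨n, hn⟩, hy⟩
    exact ⟨n, hn, L.mul_mem (pow_mem (show x ∈ L from hx.2) n) hy⟩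

/-! ### Expansions -/

/-- The elements with an expansion of degree `b`. -/
def Exp (p : ℕ) (M : Fam k K ι) (L : IntermediateField k K) (y : Fin m → K) (d : Fin m → ι)
    (b : ι) (z : K) : Prop :=
  ∃ c : (Fin m → Fin p) → K,
    (∀ β, c β ∈ L ∧ c β ∈ M.s (b - ∑ l, (β l : ℕ) • d l)) ∧
    z = ∑ β, c β * ∏ l, y l ^ (β l : ℕ)

theorem Exp.add {y : Fin m → K} {d : Fin m → ι} {b : ι} {z z' : K} (h : Exp p M L y d b z)
    (h' : Exp p M L y d b z') : Exp p M L y d b (z + z') := by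
  obtain ⟨c, hc, rfl⟩ := h
  obtain ⟨c', hc', rfl⟩ := h'
  refine ⟨fun β => c β + c' β, fun β => ⟨L.add_mem (hc β).1 (hc' β).1,
    Submodule.add_mem _ (hc β).2 (hc' β).2⟩, ?_⟩
  rw [← Finset.sum_add_distrib]
  exact Finset.sum_congr rfl fun β _ => by ring

theorem Exp.zero {y : Fin m → K} {d : Fin m → ι} {b : ι} : Exp p M L y d b 0 := by
  refine ⟨fun _ => 0, fun β => ⟨L.zero_mem, Submodule.zero_mem _⟩, ?_⟩
  simp

theorem Exp.sum {σ : Type} (s : Finset σ) {y : Fin m → K} {d : Fin m → ι} {b : ι} {f : σ → K}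
    (h : ∀ i ∈ s, Exp p M L y d b (f i)) : Exp p M L y d b (∑ i ∈ s, f i) :=
  Finset.sum_induction _ _ (fun _ _ => Exp.add) Exp.zero h

/-- One monomial with arbitrary exponents. -/
theorem Exp.mono (hp : 0 < p) (hL : ∀ z : K, z ^ p ∈ L) {y : Fin m → K} {d : Fin m → ι}
    (hy : ∀ l, y l ∈ M.s (d l)) {b : ι} (γ : Fin m → ℕ) {c : K} (hcL : c ∈ L)
    (hc : c ∈ M.s (b - ∑ l, γ l • d l)) : Exp p M L y d b (c * ∏ l, y l ^ γ l) := by
  classical
  -- the `p`-th powers
  have h1 : ∀ s : Finset (Fin m), ∏ l ∈ s, (y l ^ p) ^ (γ l / p) ∈ L ∧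
      ∏ l ∈ s, (y l ^ p) ^ (γ l / p) ∈ M.s (∑ l ∈ s, (γ l / p) • p • d l) := by
    intro s
    induction s using Finset.induction_on with
    | empty => exact ⟨by simp, by simpa using M.one'⟩
    | insert a s ha ih =>
      rw [Finset.prod_insert ha, Finset.sum_insert ha]
      exact ⟨L.mul_mem (pow_mem (hL _) _) ih.1, M.mul' (M.pow' (M.pow' (hy a) p) _) ih.2⟩
  obtain ⟨h2, h3⟩ := h1 Finset.univ
  set β0 : Fin m → Fin p := fun l => ⟨γ l % p, Nat.mod_lt _ hp⟩ with hβ0
  refine ⟨fun β => if β = β0 then c * ∏ l, (y l ^ p) ^ (γ l / p) else 0, ?_, ?_⟩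
  · intro β
    dsimp only
    split_ifs with h
    · refine ⟨L.mul_mem hcL h2, ?_⟩
      have h4 := M.mul' hc h3
      have e : b - ∑ l, γ l • d l + ∑ l, (γ l / p) • p • d l = b - ∑ l, (β l : ℕ) • d l := by
        rw [sub_add, ← Finset.sum_sub_distrib]
        congr 1
        refine Finset.sum_congr rfl fun l _ => ?_
        rw [h, sub_eq_iff_eq_add, hβ0]
        dsimp only
        rw [← mul_smul, ← add_smul, Nat.mod_add_div']
      rwa [e] at h4
    · exact ⟨L.zero_mem, Submodule.zero_mem _⟩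
  · rw [Finset.sum_eq_single β0]
    · dsimp only
      rw [if_pos rfl, mul_assoc, ← Finset.prod_mul_distrib]
      congr 1
      refine Finset.prod_congr rfl fun l _ => ?_
      rw [← pow_mul, ← pow_add, hβ0]
      dsimp only
      rw [Nat.div_add_mod]
    · intro β _ h
      dsimp only
      rw [if_neg h, zero_mul]
    · intro h
      exact absurd (Finset.mem_univ _) h

/-- The family of the elements with an expansion. -/
def expFam (hp : 0 < p) (hL : ∀ z : K, z ^ p ∈ L) (M : Fam k K ι) {y : Fin m → K}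
    {d : Fin m → ι} (hy : ∀ l, y l ∈ M.s (d l)) : Fam k K ι where
  s b :=
    { carrier := {z | Exp p M L y d b z}
      add_mem' := fun h h' => h.add h'
      zero_mem' := Exp.zero
      smul_mem' := by
        rintro t _ ⟨c, hc, rfl⟩
        refine ⟨fun β => t • c β, fun β => ⟨L.smul_mem (hc β).1, Submodule.smul_mem _ _ (hc β).2⟩,
          ?_⟩
        rw [Finset.smul_sum]
        exact Finset.sum_congr rfl fun β _ => (smul_mul_assoc _ _ _).symm }
  one' := by
    have h := Exp.mono (M := M) (L := L) hp hL hy (b := 0) (fun _ => 0) (c := 1) L.one_mem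
      (by simpa using M.one')
    simpa using h
  mul' := by
    rintro a b _ _ ⟨c, hc, rfl⟩ ⟨c', hc', rfl⟩
    change Exp p M L y d (a + b) _
    rw [Finset.sum_mul_sum]
    refine Exp.sum _ fun β _ => Exp.sum _ fun γ _ => ?_
    have h := Exp.mono (M := M) (L := L) hp hL hy (b := a + b)
      (fun l => (β l : ℕ) + (γ l : ℕ)) (c := c β * c' γ) (L.mul_mem (hc β).1 (hc' γ).1) (by
        have h1 := M.mul' (hc β).2 (hc' γ).2
        have e : a - ∑ l, (β l : ℕ) • d l + (b - ∑ l, (γ l : ℕ) • d l) =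
            a + b - ∑ l, ((β l : ℕ) + (γ l : ℕ)) • d l := by
          simp_rw [add_smul]
          rw [Finset.sum_add_distrib]
          abel
        rwa [e] at h1)
    have e : c β * (∏ l, y l ^ (β l : ℕ)) * (c' γ * ∏ l, y l ^ (γ l : ℕ)) =
        c β * c' γ * ∏ l, y l ^ ((β l : ℕ) + (γ l : ℕ)) := by
      simp_rw [pow_add]
      rw [Finset.prod_mul_distrib]
      ring
    rw [e]
    exact h

/-- Expansions of generators give expansions of all elements. -/
theorem exp_of_generators (hp : 0 < p) (hL : ∀ z : K, z ^ p ∈ L) {M' : Fam k K ι}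
    {y : Fin m → K} {d : Fin m → ι} (hy : ∀ l, y l ∈ M'.s (d l)) {r : ℕ} {δ : Fin r → ι}
    {X : Fin r → K}
    (hgen : M.alg = Algebra.adjoin k
      (Set.range fun i => (single (δ i) (X i) : AddMonoidAlgebra K ι)))
    (hX : ∀ i, Exp p M' L y d (δ i) (X i)) {b : ι} {z : K} (hz : z ∈ M.s b) :
    Exp p M' L y d b z := by
  have h1 : M.alg ≤ (expFam hp hL M' hy).alg := by
    rw [hgen]
    refine Algebra.adjoin_le ?_
    rintro _ ⟨i, rfl⟩
    exact Fam.single_mem_alg.2 (hX i)
  exact Fam.single_mem_alg.1 (h1 (Fam.single_mem_alg.2 hz))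

/-- Descent of smoothness to the intersection. -/
theorem smooth_of_expansion (hp : 0 < p) (hL : ∀ z : K, z ^ p ∈ L) (M : Fam k K ι)
    {y : Fin m → K} {d : Fin m → ι} (hy : ∀ l, y l ∈ M.s (d l))
    (hrep : ∀ (b : ι), ∀ z ∈ M.s b, Exp p M L y d b z)
    (huniq : ∀ c : (Fin m → Fin p) → K, (∀ β, c β ∈ L) → ∑ β, c β * ∏ l, y l ^ (β l : ℕ) = 0 →
      ∀ β, c β = 0)
    (hM : Algebra.FormallySmooth k M.alg) : Algebra.FormallySmooth k (interFam M L).alg := by
  classical
  set S : Subalgebra k M.alg := (interFam M L).alg.comap M.alg.val with hS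
  set Y : Fin m → M.alg := fun l => M.el (hy l) with hY
  -- monomials
  have hmon : ∀ (β : Fin m → Fin p) (s : Finset (Fin m)),
      ((∏ l ∈ s, Y l ^ (β l : ℕ) : M.alg) : AddMonoidAlgebra K ι) =
      single (∑ l ∈ s, (β l : ℕ) • d l) (∏ l ∈ s, y l ^ (β l : ℕ)) := by
    intro β s
    induction s using Finset.induction_on with
    | empty => simp [one_def]
    | insert a s ha ih =>
      rw [Finset.prod_insert ha, Finset.prod_insert ha, Finset.sum_insert ha, MulMemClass.coe_mul,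
        ih, ← single_mul_single]
      congr 1
      rw [hY]
      dsimp only
      rw [Fam.el_pow]
      rfl
  have hsm : Algebra.FormallySmooth k S := by
    refine formallySmooth_of_monomials hp m S Y ?_ ?_ ?_ hM
    · intro l
      have h1 : Y l ^ p = M.el (M.pow' (hy l) p) := Fam.el_pow M (hy l) p
      rw [h1]
      exact Fam.single_mem_alg.2 ⟨M.pow' (hy l) p, hL _⟩
    · intro F
      refine Fam.alg_induction M (p := fun F => ∃ a : (Fin m → Fin p) → S,
        ∑ β, (a β : M.alg) * ∏ l, Y l ^ (β l : ℕ) = F) ?_ ?_ ?_ F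
      · exact ⟨fun _ => 0, by simp⟩
      · rintro F G ⟨a, rfl⟩ ⟨a', rfl⟩
        refine ⟨fun β => a β + a' β, ?_⟩
        rw [← Finset.sum_add_distrib]
        refine Finset.sum_congr rfl fun β _ => ?_
        rw [AddMemClass.coe_add]
        ring
      · intro b z hz
        obtain ⟨c, hc, hzc⟩ := hrep b z hz
        refine ⟨fun β => ⟨M.el (hc β).2, Fam.single_mem_alg.2 ⟨(hc β).2, (hc β).1⟩⟩, ?_⟩
        apply Subtype.ext
        rw [AddSubmonoidClass.coe_finsetSum, Fam.coe_el, hzc]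
        refine Eq.trans ?_ (map_sum (singleAddHom b) _ _).symm
        refine Finset.sum_congr rfl fun β _ => ?_
        rw [MulMemClass.coe_mul, hmon]
        change single _ (c β) * _ = single b _
        rw [single_mul_single, sub_add_cancel]
    · intro a ha β0
      apply Subtype.ext
      apply Subtype.ext
      ext e0
      set e1 : ι := e0 + ∑ l, (β0 l : ℕ) • d l with he1
      have h1 : ((a β0 : M.alg) : AddMonoidAlgebra K ι).coeff
          (e1 - ∑ l, (β0 l : ℕ) • d l) = 0 := by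
        refine huniq (fun β => ((a β : M.alg) : AddMonoidAlgebra K ι).coeff
          (e1 - ∑ l, (β l : ℕ) • d l)) (fun β => ((a β).2 _).2) ?_ β0
        have h2 : (((∑ β, (a β : M.alg) * ∏ l, Y l ^ (β l : ℕ) : M.alg)) :
            AddMonoidAlgebra K ι).coeff e1 = 0 := by
          rw [ha]
          rfl
        rw [AddSubmonoidClass.coe_finsetSum, AddMonoidAlgebra.coeff_sum,
          Finsupp.finsetSum_apply] at h2
        rw [← h2]
        refine Finset.sum_congr rfl fun β _ => ?_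
        rw [MulMemClass.coe_mul, hmon, coeff_mul_single_eq_coeff_mul
          (e1 - ∑ l, (β l : ℕ) • d l)]
        intro m' _
        exact eq_sub_iff_add_eq.symm
      rw [he1, add_sub_cancel_right] at h1
      exact h1
  let e : S ≃ₐ[k] (interFam M L).alg :=
    { toFun := fun x => ⟨((x : M.alg) : AddMonoidAlgebra K ι), x.2⟩
      invFun := fun x => ⟨⟨x, interFam_alg_le M L x.2⟩, x.2⟩
      left_inv := fun _ => rfl
      right_inv := fun _ => rfl
      map_mul' := fun _ _ => rfl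
      map_add' := fun _ _ => rfl
      commutes' := fun _ => rfl }
  exact Algebra.FormallySmooth.of_equiv (A := S) (B := (interFam M L).alg) e

/-- Smoothness of the localisations of a toric family. -/
theorem smooth_of_tor [Module.Free ℤ ι] [Module.Finite ℤ ι] {a : ι} {u : J → ι}
    (hT : Tor M a u) :
    ∀ n : ℕ, 0 < n → ∀ (x : K) (hx : x ∈ M.s (n • a)), x ≠ 0 →
      Algebra.FormallySmooth k (M.loc hx).alg := by
  intro n hn x hx hx0
  refine M.formallySmooth_loc_of_cover hT.fg hx hx0 fun q _ hq => ?_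
  obtain ⟨T, C, hC⟩ := hT.chart q ⟨n, hn, x, hx, hq⟩
  have hCsm : Algebra.FormallySmooth k C.alg := by
    have h1 := hC.smooth
    let _ : Algebra (MvPolynomial T k) C.alg := (secMap C u T hC.sec).toRingHom.toAlgebra
    have h2 : Algebra.FormallySmooth (MvPolynomial T k) C.alg := h1
    have : IsScalarTower k (MvPolynomial T k) C.alg :=
      IsScalarTower.of_algebraMap_eq fun z => ((secMap C u T hC.sec).commutes z).symm
    exact Algebra.FormallySmooth.comp k (MvPolynomial T k) C.alg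
  obtain ⟨c, f, hf, hfq, hf'⟩ := exists_loc_le M q C hC.fg hC.ge
  refine ⟨c, f, hf, hfq, ?_⟩
  have hf0 : f ≠ 0 := by
    rintro rfl
    apply hfq
    have : M.el hf = 0 := Subtype.ext (by simp)
    rw [this]; exact Ideal.zero_mem _
  have h1 : Algebra.FormallySmooth k (M.loc hf).alg := by
    rw [← loc_eq_of_le (C := C) hf hC.le hf']
    exact Fam.formallySmooth_loc _ _ hf0 hCsm
  rw [loc_congr M (M.mul' hx hf) (M.mul' hf hx) (add_comm _ _) (mul_comm _ _)]
  exact Fam.formallySmooth_loc_mul M hf hx hx0 h1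

/-- Smoothness of the localisations of the intersection. -/
theorem smooth_interFam [Module.Free ℤ ι] [Module.Finite ℤ ι] [Finite J] (p : ℕ) [Fact p.Prime]
    [CharP k p] {M : Fam k K ι} {a : ι} {u : J → ι} (hT : Tor M a u)
    (L : IntermediateField k K) (hL : ∀ z : K, z ^ p ∈ L) {m : ℕ}
    (hm : Module.finrank L K = p ^ m)
    (hD : ∀ (q : Ideal M.alg) [q.IsPrime], Semi M a q →
      ∃ (D : Fin m → Derivation k K K) (y : Fin m → K) (d : Fin m → ι),
        (∀ l, ∀ z ∈ L, D l z = 0) ∧ (∀ l, Pres M q (D l)) ∧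
        (∀ l, y l ∈ (atP M q).s (d l)) ∧
        IsU (atP M q) (∑ l, d l) (Matrix.of fun l j => D l (y j)).det) :
    ∀ n : ℕ, 0 < n → ∀ (x : K) (hx : x ∈ (interFam M L).s (n • a)), x ≠ 0 →
      Algebra.FormallySmooth k ((interFam M L).loc hx).alg := by
  intro n hn x hx hx0
  have hp : 0 < p := (Fact.out : p.Prime).pos
  refine (interFam M L).formallySmooth_loc_of_cover (fg_interFam hp hL hT.fg) hx hx0
    fun q0 _ hq0 => ?_
  obtain ⟨q, hq, hov⟩ := exists_over_inter hp hL q0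
  have hxq : M.el hx.1 ∉ q := fun h => hq0 ((hov _ x hx hx.1).2 h)
  obtain ⟨D, y, d, hDL, hDp, hy, hdet⟩ := hD q ⟨n, hn, x, hx.1, hxq⟩
  obtain ⟨hrep, huniq⟩ := exists_expansion p hL hm hDL hDp hy hdet
  obtain ⟨r, δ, X, hX, hgen⟩ := M.exists_generators hT.fg
  choose c hc hXc using fun i => hrep (δ i) (X i) (le_atP M q _ (hX i))
  obtain ⟨c0, f0, hf0, hf0q, h0⟩ := exists_common M q (σ := (Fin r × (Fin m → Fin p)) ⊕ Fin m)
    (Sum.elim (fun i => δ i.1 - ∑ l, (i.2 l : ℕ) • d l) d)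
    (Sum.elim (fun i => c i.1 i.2) y) (by
      rintro (i | l)
      · exact (hc i.1 i.2).2
      · exact hy l) Finset.univ
  have hf0' : f0 ≠ 0 := ne_zero_of_el_notMem M q hf0q
  have hf0p : f0 ^ p ≠ 0 := pow_ne_zero _ hf0'
  have hf : f0 ^ p ∈ (interFam M L).s (p • c0) := pow_mem_inter hL hf0
  refine ⟨p • c0, f0 ^ p, hf, pow_notMem_inter hL hov hf0 hf0q, ?_⟩
  rw [loc_interFam _ (mul_ne_zero hx0 hf0p)]
  have hM' : Algebra.FormallySmooth k (M.loc (M.mul' hx.1 hf.1)).alg :=
    Fam.formallySmooth_loc_mul M hx.1 hf.1 hf0p (smooth_of_tor hT n hn x hx.1 hx0)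
  have hg0 : x * f0 ^ p ≠ 0 := mul_ne_zero hx0 hf0p
  -- elements of the localisation
  have key : ∀ {e : ι} {z : K}, f0 * z ∈ M.s (c0 + e) → z ∈ (M.loc (M.mul' hx.1 hf.1)).s e := by
    intro e z hz
    refine ⟨1, ?_⟩
    have h1 := M.mul' (M.mul' hx.1 (M.pow' hf0 (p - 1))) hz
    have e1 : n • a + (p - 1) • c0 + (c0 + e) = 1 • (n • a + p • c0) + e := by
      obtain ⟨p', rfl⟩ := Nat.exists_eq_succ_of_ne_zero hp.ne'
      rw [one_smul, Nat.succ_sub_one, succ_nsmul]
      abel
    have e2 : x * f0 ^ (p - 1) * (f0 * z) = (x * f0 ^ p) ^ 1 * z := by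
      obtain ⟨p', rfl⟩ := Nat.exists_eq_succ_of_ne_zero hp.ne'
      rw [pow_one, Nat.succ_sub_one, pow_succ]
      ring
    rwa [e1, e2] at h1
  have hy' : ∀ l, y l ∈ (M.loc (M.mul' hx.1 hf.1)).s (d l) := fun l =>
    key (h0 (Sum.inr l) (Finset.mem_univ _))
  refine smooth_of_expansion hp hL _ hy' ?_ huniq hM'
  rintro b z ⟨t, ht⟩
  obtain ⟨c', hc', hz⟩ := exp_of_generators hp hL hy' hgen (fun i => ⟨c i, fun β =>
    ⟨(hc i β).1, key (h0 (Sum.inl (i, β)) (Finset.mem_univ _))⟩, hXc i⟩) ht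
  have hgt : (x * f0 ^ p) ^ t ≠ 0 := pow_ne_zero _ hg0
  have hgL : (x * f0 ^ p) ^ t ∈ L := pow_mem (L.mul_mem hx.2 hf.2) t
  have hinv := (M.loc (M.mul' hx.1 hf.1)).pow' (M.inv_mem_loc (M.mul' hx.1 hf.1) hg0) t
  refine ⟨fun β => ((x * f0 ^ p) ^ t)⁻¹ * c' β, fun β => ⟨L.mul_mem (L.inv_mem hgL) (hc' β).1,
    ?_⟩, ?_⟩
  · have h1 := (M.loc (M.mul' hx.1 hf.1)).mul' hinv (hc' β).2
    have e1 : t • -(n • a + p • c0) + (t • (n • a + p • c0) + b - ∑ l, (β l : ℕ) • d l) =
        b - ∑ l, (β l : ℕ) • d l := by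
      rw [smul_neg]
      abel
    rw [e1, inv_pow] at h1
    exact h1
  · have h1 : z = ((x * f0 ^ p) ^ t)⁻¹ * ((x * f0 ^ p) ^ t * z) := by
      rw [inv_mul_cancel_left₀ hgt]
    rw [h1, hz, Finset.mul_sum]
    exact Finset.sum_congr rfl fun β _ => (mul_assoc _ _ _).symm

end D1b

/-- The intersection with a subfield which contains the `p`-th powers and which is cut out by
nondegenerate derivations. -/
theorem goodM_interFam [Module.Free ℤ ι] [Module.Finite ℤ ι] [Finite J] (p : ℕ) [Fact p.Prime]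
    [CharP k p] {M : Fam k K ι} {a : ι} {u : J → ι} (hT : Tor M a u)
    (L : IntermediateField k K) (hL : ∀ z : K, z ^ p ∈ L) {m : ℕ}
    (hm : Module.finrank L K = p ^ m)
    (hD : ∀ (q : Ideal M.alg) [q.IsPrime], Semi M a q →
      ∃ (D : Fin m → Derivation k K K) (y : Fin m → K) (d : Fin m → ι),
        (∀ l, ∀ z ∈ L, D l z = 0) ∧ (∀ l, Pres M q (D l)) ∧
        (∀ l, y l ∈ (atP M q).s (d l)) ∧
        IsU (atP M q) (∑ l, d l) (Matrix.of fun l j => D l (y j)).det) :
    GoodM (interFam M L) a := by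
  have hp : 0 < p := (Fact.out : p.Prime).pos
  have hfg := D1b.fg_interFam (L := L) hp hL hT.fg
  have hone : ∀ d : ι, (1 : K) ∈ M.s d → (1 : K) ∈ (interFam M L).s d := fun d h =>
    ⟨h, L.one_mem⟩
  have hint : ∀ (q0 : Ideal (interFam M L).alg) [q0.IsPrime], Semi (interFam M L) a q0 →
      IntA (interFam M L) a q0 := by
    intro q0 hq0 hs d
    obtain ⟨q, hq, hov⟩ := D1b.exists_over_inter hp hL q0
    have hs' : Semi M a q := by
      obtain ⟨n, hn, hna⟩ := hs
      exact ⟨n, hn, hov.degs (fun d => D1b.inter_le d) hna⟩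
    obtain ⟨n, hn, w, hw0, hmem⟩ := hT.int q hs' d
    refine ⟨n, hn, p * w, Nat.mul_pos hp hw0, ?_⟩
    rw [mul_nsmul']
    exact D1b.degs_inter hL hov hmem
  refine ⟨hfg, D1b.smooth_interFam p hT L hL hm hD, exists_index _ a hfg hint, hint, ?_, ?_, ?_⟩
  · intro n
    exact hone _ (hT.neg n)
  · obtain ⟨n, hn, x, hx, hx0⟩ := hT.nontriv
    refine ⟨p * n, Nat.mul_pos hp hn, x ^ p, ?_, pow_ne_zero _ hx0⟩
    rw [mul_nsmul']
    exact D1b.pow_mem_inter hL hx
  · intro d
    obtain ⟨c, h1, h2⟩ := hT.gen d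
    exact ⟨c, ⟨1, hone _ h1, one_ne_zero⟩, 1, hone _ h2, one_ne_zero⟩

end Pool.Agent.MP_b525bf_ag_TS
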