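import Pool.Agent.Lib.MP_b525bf_ag_TS.SDefs

/-!
# Helper file for B1b, B1c: local rings of points and their residue maps
-/

set_option autoImplicit false

namespace Pool.Agent.MP_b525bf_ag_TS.H86

open Pool.Agent.MP_b525bf_ag_TS

variable {k K : Type} [Field k] [Field K] [Algebra k K]

/-- `ev` is the residue map of the local ring `R`. -/
def IsEv (R : Subalgebra k K) (ev : R →ₐ[k] k) : Prop :=
  ∀ z : R, ev z ≠ 0 → (z : K)⁻¹ ∈ R

theorem le_ptLoc (C : Subalgebra k K) (χ : C →ₐ[k] k) : C ≤ ptLoc C χ := by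
  intro z hz
  exact ⟨⟨z, hz⟩, 1, by rw [map_one]; exact one_ne_zero, by simp⟩

theorem exists_ev (C : Subalgebra k K) (χ : C →ₐ[k] k) :
    ∃ ev : ptLoc C χ →ₐ[k] k, IsEv (ptLoc C χ) ev ∧
      ∀ (z : K) (h : z ∈ C) (h' : z ∈ ptLoc C χ), ev ⟨z, h'⟩ = χ ⟨z, h⟩ := by
  classical
  have hex : ∀ z : ptLoc C χ, ∃ ab : C × C, χ ab.2 ≠ 0 ∧ (z : K) * (ab.2 : K) = ab.1 := by
    rintro ⟨z, a, b, hb, h⟩
    exact ⟨(a, b), hb, h⟩
  choose f hf1 hf2 using hex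
  have key : ∀ (z : ptLoc C χ) (a b : C), χ b ≠ 0 → (z : K) * (b : K) = a →
      χ (f z).1 / χ (f z).2 = χ a / χ b := by
    intro z a b hb h
    rw [div_eq_div_iff (hf1 z) hb, ← map_mul, ← map_mul]
    congr 1
    apply Subtype.ext
    push_cast
    rw [← hf2 z, ← h]
    ring
  refine ⟨{ toFun := fun z => χ (f z).1 / χ (f z).2
            map_one' := ?_, map_mul' := ?_, map_zero' := ?_, map_add' := ?_, commutes' := ?_ },
    ?_, ?_⟩
  · rw [key 1 1 1 (by rw [map_one]; exact one_ne_zero) (by simp), map_one, div_one]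
  · intro z w
    rw [key (z * w) ((f z).1 * (f w).1) ((f z).2 * (f w).2)
      (by rw [map_mul]; exact mul_ne_zero (hf1 z) (hf1 w)) ?_]
    · rw [map_mul, map_mul, mul_div_mul_comm]
    · push_cast
      rw [← hf2 z, ← hf2 w]; ring
  · rw [key 0 0 1 (by rw [map_one]; exact one_ne_zero) (by simp), map_zero, zero_div]
  · intro z w
    rw [key (z + w) ((f z).1 * (f w).2 + (f w).1 * (f z).2) ((f z).2 * (f w).2)
      (by rw [map_mul]; exact mul_ne_zero (hf1 z) (hf1 w)) ?_]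
    · rw [map_mul, map_add, map_mul, map_mul, div_add_div _ _ (hf1 z) (hf1 w)]
      congr 1
      ring
    · push_cast
      rw [← hf2 z, ← hf2 w]; ring
  · intro r
    show χ (f (algebraMap k _ r)).1 / χ (f (algebraMap k _ r)).2 = _
    rw [key (algebraMap k _ r) (algebraMap k C r) 1 (by rw [map_one]; exact one_ne_zero)
      (by simp), map_one, div_one]
    exact χ.commutes r
  · rintro ⟨z, a, b, hb, h⟩ hz
    have hz' : χ a / χ b ≠ 0 := by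
      rw [← key ⟨z, a, b, hb, h⟩ a b hb h]; exact hz
    have ha : χ a ≠ 0 := fun h0 => hz' (by rw [h0, zero_div])
    have ha0 : (a : K) ≠ 0 := by
      intro h0
      apply ha
      have : a = 0 := Subtype.ext h0
      rw [this, map_zero]
    have hz0 : z ≠ 0 := by
      intro h0
      apply ha0
      rw [← h, h0, zero_mul]
    exact ⟨b, a, ha, by
      show z⁻¹ * (a : K) = b
      rw [← h]; field_simp⟩
  · intro z hz hz'
    show χ (f ⟨z, hz'⟩).1 / χ (f ⟨z, hz'⟩).2 = _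
    rw [key ⟨z, hz'⟩ ⟨z, hz⟩ 1 (by rw [map_one]; exact one_ne_zero) (by simp), map_one, div_one]

section Ev

variable {R : Subalgebra k K} {ev : R →ₐ[k] k}

theorem mem_mx_iff (hev : IsEv R ev) {z : K} : z ∈ mx R ↔ ∃ h : z ∈ R, ev ⟨z, h⟩ = 0 := by
  constructor
  · rintro ⟨hz, h⟩
    refine ⟨hz, ?_⟩
    by_contra hne
    rcases h with h | h
    · apply hne
      have : (⟨z, hz⟩ : R) = 0 := Subtype.ext h
      rw [this, map_zero]
    · exact h (hev ⟨z, hz⟩ hne)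
  · rintro ⟨hz, h⟩
    refine ⟨hz, ?_⟩
    by_contra hne
    push Not at hne
    obtain ⟨h0, hinv⟩ := hne
    have h1 : (⟨z, hz⟩ : R) * ⟨z⁻¹, hinv⟩ = 1 := Subtype.ext (mul_inv_cancel₀ h0)
    have h2 := congrArg ev h1
    rw [map_mul, h, zero_mul, map_one] at h2
    exact zero_ne_one h2

theorem unitIn_iff (hev : IsEv R ev) {z : K} : UnitIn R z ↔ ∃ h : z ∈ R, ev ⟨z, h⟩ ≠ 0 := by
  constructor
  · rintro ⟨h0, hz, hinv⟩
    refine ⟨hz, fun h => ?_⟩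
    rcases ((mem_mx_iff hev).2 ⟨hz, h⟩).2 with h1 | h1
    · exact h0 h1
    · exact h1 hinv
  · rintro ⟨hz, h⟩
    refine ⟨?_, hz, hev ⟨z, hz⟩ h⟩
    rintro rfl
    apply h
    have : (⟨0, hz⟩ : R) = 0 := rfl
    rw [this, map_zero]

theorem unitIn_of_mul (hev : IsEv R ev) {z w : K} (hz : z ∈ R) (hw : w ∈ R)
    (h : UnitIn R (z * w)) : UnitIn R z ∧ UnitIn R w := by
  obtain ⟨h1, h2⟩ := (unitIn_iff hev).1 h
  have h3 : (⟨z * w, h1⟩ : R) = ⟨z, hz⟩ * ⟨w, hw⟩ := rfl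
  rw [h3, map_mul] at h2
  exact ⟨(unitIn_iff hev).2 ⟨hz, left_ne_zero_of_mul h2⟩,
    (unitIn_iff hev).2 ⟨hw, right_ne_zero_of_mul h2⟩⟩

theorem unitIn_add (hev : IsEv R ev) {z w : K} (hz : z ∈ R) (hw : w ∈ R)
    (h : UnitIn R (z + w)) : UnitIn R z ∨ UnitIn R w := by
  obtain ⟨h1, h2⟩ := (unitIn_iff hev).1 h
  have h3 : (⟨z + w, h1⟩ : R) = ⟨z, hz⟩ + ⟨w, hw⟩ := rfl
  rw [h3, map_add] at h2
  by_cases h4 : ev ⟨z, hz⟩ = 0
  · right
    refine (unitIn_iff hev).2 ⟨hw, ?_⟩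
    rw [h4, zero_add] at h2
    exact h2
  · left
    exact (unitIn_iff hev).2 ⟨hz, h4⟩

theorem not_mx_of_unit (hev : IsEv R ev) {z : K} (h : UnitIn R z) : z ∉ mx R := by
  rintro ⟨_, h1 | h1⟩
  · exact h.1 h1
  · exact h1 h.2.2

theorem unit_or_mx {z : K} (hz : z ∈ R) : UnitIn R z ∨ z ∈ mx R := by
  by_cases h : z ∈ mx R
  · exact Or.inr h
  · left
    by_contra h2
    apply h
    refine ⟨hz, ?_⟩
    by_contra h3
    push Not at h3
    exact h2 ⟨h3.1, hz, h3.2⟩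

theorem mx_mul (hev : IsEv R ev) {z w : K} (hz : z ∈ mx R) (hw : w ∈ R) : z * w ∈ mx R := by
  obtain ⟨h1, h2⟩ := (mem_mx_iff hev).1 hz
  refine (mem_mx_iff hev).2 ⟨R.mul_mem h1 hw, ?_⟩
  have h3 : (⟨z * w, R.mul_mem h1 hw⟩ : R) = ⟨z, h1⟩ * ⟨w, hw⟩ := rfl
  rw [h3, map_mul, h2, zero_mul]

theorem mx_add (hev : IsEv R ev) {z w : K} (hz : z ∈ mx R) (hw : w ∈ mx R) :
    z + w ∈ mx R := by
  obtain ⟨h1, h2⟩ := (mem_mx_iff hev).1 hz
  obtain ⟨h3, h4⟩ := (mem_mx_iff hev).1 hw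
  refine (mem_mx_iff hev).2 ⟨R.add_mem h1 h3, ?_⟩
  have h5 : (⟨z + w, R.add_mem h1 h3⟩ : R) = ⟨z, h1⟩ + ⟨w, h3⟩ := rfl
  rw [h5, map_add, h2, h4, zero_add]

theorem mx_zero (R : Subalgebra k K) : (0 : K) ∈ mx R := ⟨R.zero_mem, Or.inl rfl⟩

/-- The restriction of a residue map. -/
def res (ev : R →ₐ[k] k) {C : Subalgebra k K} (h : C ≤ R) : C →ₐ[k] k :=
  ev.comp (Subalgebra.inclusion h)

theorem ptLoc_le (hev : IsEv R ev) {C : Subalgebra k K} (h : C ≤ R) : ptLoc C (res ev h) ≤ R := by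
  rintro z ⟨a, b, hb, hz⟩
  have hb' : ev ⟨b, h b.2⟩ ≠ 0 := hb
  have h1 : ((b : K))⁻¹ ∈ R := hev ⟨b, h b.2⟩ hb'
  have hb0 : (b : K) ≠ 0 := by
    intro h0
    apply hb'
    have : (⟨(b : K), h b.2⟩ : R) = 0 := Subtype.ext h0
    rw [this, map_zero]
  have h2 : z = a * (b : K)⁻¹ := by rw [← hz]; field_simp
  rw [h2]
  exact R.mul_mem (h a.2) h1

/-- A local ring between a chart and its localisation is the localisation. -/
theorem eq_ptLoc (hev : IsEv R ev) {C : Subalgebra k K} (h : C ≤ R)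
    (hC : ∀ z ∈ R, ∃ a ∈ C, ∃ b ∈ C, UnitIn R b ∧ z * b = a) : R = ptLoc C (res ev h) := by
  apply le_antisymm
  · intro z hz
    obtain ⟨a, ha, b, hb, hu, hzb⟩ := hC z hz
    refine ⟨⟨a, ha⟩, ⟨b, hb⟩, ?_, hzb⟩
    obtain ⟨h1, h2⟩ := (unitIn_iff hev).1 hu
    exact h2
  · exact ptLoc_le hev h

end Ev

/-- The residue map of the localisation at a point. -/
theorem ptLoc_frac {C : Subalgebra k K} {χ : C →ₐ[k] k} {z : K} (hz : z ∈ ptLoc C χ) :
    ∃ a ∈ C, ∃ b ∈ C, UnitIn (ptLoc C χ) b ∧ z * b = a := by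
  obtain ⟨ev, hev, hχ⟩ := exists_ev C χ
  obtain ⟨a, b, hb, h⟩ := hz
  refine ⟨a, a.2, b, b.2, (unitIn_iff hev).2 ⟨le_ptLoc C χ b.2, ?_⟩, h⟩
  rw [hχ b b.2]
  exact hb

theorem ptLoc_unit_iff {C : Subalgebra k K} {χ : C →ₐ[k] k} {z : K} (hz : z ∈ C) :
    UnitIn (ptLoc C χ) z ↔ χ ⟨z, hz⟩ ≠ 0 := by
  obtain ⟨ev, hev, hχ⟩ := exists_ev C χ
  rw [unitIn_iff hev]
  constructor
  · rintro ⟨h1, h2⟩
    rw [hχ z hz h1] at h2
    exact h2
  · intro h
    exact ⟨le_ptLoc C χ hz, by rw [hχ z hz]; exact h⟩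

/-- Two points of `C` are equal if units at one of them are units at the other one. -/
theorem ptLoc_eq_of {C : Subalgebra k K} {χ χ' : C →ₐ[k] k}
    (h : ∀ z ∈ C, UnitIn (ptLoc C χ) z → UnitIn (ptLoc C χ') z) :
    ptLoc C χ = ptLoc C χ' := by
  have h1 : ∀ z : C, χ' z = 0 → χ z = 0 := by
    intro z hz
    by_contra hne
    exact (ptLoc_unit_iff z.2).1 (h z z.2 ((ptLoc_unit_iff z.2).2 hne)) hz
  have h2 : χ = χ' := by
    apply AlgHom.ext
    intro z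
    have h3 : χ' (z - algebraMap k C (χ' z)) = 0 := by
      rw [map_sub, AlgHom.commutes]; simp
    have h4 := h1 _ h3
    rw [map_sub, AlgHom.commutes] at h4
    exact sub_eq_zero.1 h4
  rw [h2]

end Pool.Agent.MP_b525bf_ag_TS.H86
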