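import Pool.Agent.Lib.MP_b525bf_ag_TS.SDefs

/-!
# Local rings from étale coordinates
-/

set_option autoImplicit false

namespace Pool.Agent.MP_b525bf_ag_TS

variable {k K : Type} [Field k] [Field K] [Algebra k K]

section Res

variable {C : Subalgebra k K} {χ : C →ₐ[k] k}

theorem ptLoc_le (C : Subalgebra k K) (χ : C →ₐ[k] k) : C ≤ ptLoc C χ := fun z hz =>
  ⟨⟨z, hz⟩, 1, by rw [map_one]; exact one_ne_zero, by simp⟩

theorem res_aux {a b a' b' : C} {z : K} (hb : χ b ≠ 0) (hb' : χ b' ≠ 0)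
    (h : z * (b : K) = a) (h' : z * (b' : K) = a') : χ a / χ b = χ a' / χ b' := by
  rw [div_eq_div_iff hb hb', ← map_mul, ← map_mul]
  congr 1
  apply Subtype.ext
  push_cast
  rw [← h, ← h']
  ring

/-- The residue map of the local ring as a function. -/
noncomputable def resFun (C : Subalgebra k K) (χ : C →ₐ[k] k) (z : ptLoc C χ) : k :=
  χ z.2.choose / χ z.2.choose_spec.choose

theorem resFun_eq {a b : C} (z : ptLoc C χ) (hb : χ b ≠ 0) (h : (z : K) * (b : K) = a) :
    resFun C χ z = χ a / χ b :=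
  res_aux z.2.choose_spec.choose_spec.1 hb z.2.choose_spec.choose_spec.2 h

/-- The residue map of the local ring. -/
noncomputable def res (C : Subalgebra k K) (χ : C →ₐ[k] k) : ptLoc C χ →ₐ[k] k where
  toFun := resFun C χ
  map_one' := by
    rw [resFun_eq (a := 1) (b := 1) 1 (by rw [map_one]; exact one_ne_zero) (by simp), map_one,
      div_one]
  map_mul' z w := by
    obtain ⟨a, b, hb, h⟩ := z.2
    obtain ⟨a', b', hb', h'⟩ := w.2
    rw [resFun_eq z hb h, resFun_eq w hb' h', resFun_eq (a := a * a') (b := b * b') (z * w)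
      (by rw [map_mul]; exact mul_ne_zero hb hb') (by push_cast; rw [← h, ← h']; ring), map_mul,
      map_mul, mul_div_mul_comm]
  map_zero' := by
    rw [resFun_eq (a := 0) (b := 1) 0 (by rw [map_one]; exact one_ne_zero) (by simp), map_zero,
      zero_div]
  map_add' z w := by
    obtain ⟨a, b, hb, h⟩ := z.2
    obtain ⟨a', b', hb', h'⟩ := w.2
    rw [resFun_eq z hb h, resFun_eq w hb' h',
      resFun_eq (a := a * b' + a' * b) (b := b * b') (z + w)
      (by rw [map_mul]; exact mul_ne_zero hb hb') (by push_cast; rw [← h, ← h']; ring), map_add,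
      map_mul, map_mul, map_mul]
    field_simp
  commutes' r := by
    rw [resFun_eq (a := algebraMap k C r) (b := 1) _ (by rw [map_one]; exact one_ne_zero)
      (by rw [OneMemClass.coe_one, mul_one]; rfl), map_one, div_one, AlgHom.commutes]

theorem res_eq {a b : C} (z : ptLoc C χ) (hb : χ b ≠ 0) (h : (z : K) * (b : K) = a) :
    res C χ z = χ a / χ b := resFun_eq z hb h

theorem res_coe (z : C) (hz : (z : K) ∈ ptLoc C χ) : res C χ ⟨z, hz⟩ = χ z := by
  rw [res_eq (a := z) (b := 1) _ (by rw [map_one]; exact one_ne_zero) (by simp), map_one, div_one]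

theorem inv_mem_of_res {z : ptLoc C χ} (hz : res C χ z ≠ 0) : (z : K)⁻¹ ∈ ptLoc C χ := by
  obtain ⟨a, b, hb, h⟩ := z.2
  rw [res_eq z hb h] at hz
  have ha : χ a ≠ 0 := fun h0 => hz (by rw [h0, zero_div])
  have ha0 : (a : K) ≠ 0 := by
    intro h0
    apply ha
    have : a = 0 := Subtype.ext h0
    rw [this, map_zero]
  have hz0 : (z : K) ≠ 0 := by
    intro h0
    rw [h0, zero_mul] at h
    exact ha0 h.symm
  refine ⟨b, a, ha, ?_⟩
  rw [← h, inv_mul_cancel_left₀ hz0]

/-- Intermediate rings have the same local ring. -/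
theorem ptLoc_eq_of_le {C' : Subalgebra k K} (hle : C ≤ C') (hle' : C' ≤ ptLoc C χ) :
    ptLoc C' ((res C χ).comp (Subalgebra.inclusion hle')) = ptLoc C χ := by
  apply le_antisymm
  · rintro z ⟨a', b', hb', h⟩
    obtain ⟨a, α, hα, ha⟩ := hle' a'.2
    obtain ⟨b, β, hβ, hb⟩ := hle' b'.2
    have h1 : res C χ (Subalgebra.inclusion hle' b') ≠ 0 := hb'
    rw [res_eq (a := b) (b := β) _ hβ hb] at h1
    have hb0 : χ b ≠ 0 := fun h0 => h1 (by rw [h0, zero_div])
    refine ⟨a * β, b * α, by rw [map_mul]; exact mul_ne_zero hb0 hα, ?_⟩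
    push_cast
    rw [← ha, ← hb, ← h]
    ring
  · rintro z ⟨a, b, hb, h⟩
    refine ⟨⟨a, hle a.2⟩, ⟨b, hle b.2⟩, ?_, h⟩
    change res C χ ⟨b, _⟩ ≠ 0
    rw [res_coe]
    exact hb

end Res

section Et

theorem unram_quot {A : Type} [CommRing A] [Algebra k A] (x y : A)
    (het : (MvPolynomial.aeval ![x, y] :
      MvPolynomial (Fin 2) k →ₐ[k] A).toRingHom.FormallyUnramified) :
    Algebra.FormallyUnramified k (A ⧸ Ideal.span {x, y}) := by
  have h1 : ((Ideal.Quotient.mk (Ideal.span {x, y})).comp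
      (MvPolynomial.aeval ![x, y] :
        MvPolynomial (Fin 2) k →ₐ[k] A).toRingHom).FormallyUnramified :=
    het.comp (.of_surjective Ideal.Quotient.mk_surjective)
  have h2 : (Ideal.Quotient.mk (Ideal.span {x, y})).comp
      (MvPolynomial.aeval ![x, y] : MvPolynomial (Fin 2) k →ₐ[k] A).toRingHom =
      (algebraMap k (A ⧸ Ideal.span {x, y})).comp
        (MvPolynomial.aeval (fun _ => (0 : k)) : MvPolynomial (Fin 2) k →ₐ[k] k).toRingHom := by
    refine MvPolynomial.ringHom_ext ?_ ?_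
    · intro r
      simp
    · intro i
      have hx : Ideal.Quotient.mk (Ideal.span {x, y}) x = 0 :=
        Ideal.Quotient.eq_zero_iff_mem.2 (Ideal.subset_span (by simp))
      have hy : Ideal.Quotient.mk (Ideal.span {x, y}) y = 0 :=
        Ideal.Quotient.eq_zero_iff_mem.2 (Ideal.subset_span (by simp))
      fin_cases i
      · simpa using hx
      · simpa using hy
  rw [h2] at h1
  have h3 := RingHom.FormallyUnramified.of_comp h1
  rwa [RingHom.formallyUnramified_algebraMap] at h3

/-- At a rational point the coordinates generate the maximal ideal. -/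
theorem exists_of_char {A : Type} [CommRing A] [Algebra k A] [Algebra.FiniteType k A] (x y : A)
    (χ : A →ₐ[k] k) (hx : χ x = 0) (hy : χ y = 0)
    (het : (MvPolynomial.aeval ![x, y] :
      MvPolynomial (Fin 2) k →ₐ[k] A).toRingHom.FormallyUnramified) (z : A) (hz : χ z = 0) :
    ∃ u : A, χ u ≠ 0 ∧ ∃ p q : A, u * z = x * p + y * q := by
  have h1 : Algebra.FormallyUnramified k (A ⧸ Ideal.span {x, y}) := unram_quot x y het
  have hker : ∀ a ∈ Ideal.span {x, y}, χ a = 0 := by
    intro a ha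
    obtain ⟨p, q, rfl⟩ := Ideal.mem_span_pair.1 ha
    rw [map_add, map_mul, map_mul, hx, hy, mul_zero, mul_zero, add_zero]
  let χ' : A ⧸ Ideal.span {x, y} →ₐ[k] k := Ideal.Quotient.liftₐ (Ideal.span {x, y}) χ hker
  let P : Ideal (A ⧸ Ideal.span {x, y}) := RingHom.ker χ'
  have hP : P.IsPrime := RingHom.ker_isPrime χ'
  have : Algebra.FormallyUnramified k (Localization.AtPrime P) :=
    Algebra.FormallyUnramified.comp k (A ⧸ Ideal.span {x, y}) (Localization.AtPrime P)
  have := Algebra.FormallyUnramified.finite_of_free k (Localization.AtPrime P)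
  have hF : IsField (Localization.AtPrime P) :=
    have := IsArtinianRing.of_finite k (Localization.AtPrime P)
    have := Algebra.FormallyUnramified.isReduced_of_field k (Localization.AtPrime P)
    IsArtinianRing.isField_of_isReduced_of_isLocalRing _
  rw [IsLocalRing.isField_iff_maximalIdeal_eq] at hF
  have hzP : Ideal.Quotient.mk (Ideal.span {x, y}) z ∈ P := by
    change χ' (Ideal.Quotient.mk (Ideal.span {x, y}) z) = 0
    exact hz
  have h2 : algebraMap _ (Localization.AtPrime P) (Ideal.Quotient.mk (Ideal.span {x, y}) z) ∈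
      IsLocalRing.maximalIdeal (Localization.AtPrime P) :=
    (IsLocalization.AtPrime.to_map_mem_maximal_iff (Localization.AtPrime P) P _).2 hzP
  rw [hF, Ideal.mem_bot] at h2
  obtain ⟨⟨m, hm⟩, hm'⟩ := (IsLocalization.map_eq_zero_iff P.primeCompl _ _).mp h2
  obtain ⟨u, rfl⟩ := Ideal.Quotient.mk_surjective m
  refine ⟨u, fun hu => hm hu, ?_⟩
  have h3 : Ideal.Quotient.mk (Ideal.span {x, y}) (u * z) = 0 := by
    rw [map_mul]; exact hm'
  rw [Ideal.Quotient.eq_zero_iff_mem, Ideal.mem_span_pair] at h3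
  obtain ⟨p, q, hpq⟩ := h3
  exact ⟨p, q, by rw [← hpq]; ring⟩

theorem etale_fg {C : Subalgebra k K} {x y : C}
    (het : (MvPolynomial.aeval ![x, y] :
      MvPolynomial (Fin 2) k →ₐ[k] C).toRingHom.Etale) : Algebra.FiniteType k C := by
  let _ : Algebra (MvPolynomial (Fin 2) k) C :=
    (MvPolynomial.aeval ![x, y] : MvPolynomial (Fin 2) k →ₐ[k] C).toRingHom.toAlgebra
  have h1 : Algebra.Etale (MvPolynomial (Fin 2) k) C := het
  have h2 : Algebra.FiniteType (MvPolynomial (Fin 2) k) C := inferInstance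
  have h3 : IsScalarTower k (MvPolynomial (Fin 2) k) C := by
    refine IsScalarTower.of_algebraMap_eq fun r => ?_
    change _ = (MvPolynomial.aeval ![x, y] : MvPolynomial (Fin 2) k →ₐ[k] C)
      (algebraMap k (MvPolynomial (Fin 2) k) r)
    rw [AlgHom.commutes]
  exact Algebra.FiniteType.trans inferInstance h2

/-- The local ring of a point with étale coordinates. -/
theorem Reg.of_etale {C : Subalgebra k K} (χ : C →ₐ[k] k) {x y : K} {Dx Dy : Derivation k K K}
    (hx : x ∈ C) (hy : y ∈ C) (hx0 : χ ⟨x, hx⟩ = 0) (hy0 : χ ⟨y, hy⟩ = 0)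
    (het : (MvPolynomial.aeval ![(⟨x, hx⟩ : C), ⟨y, hy⟩] :
      MvPolynomial (Fin 2) k →ₐ[k] C).toRingHom.Etale)
    (xx : Dx x = 1) (xy : Dx y = 0) (yx : Dy x = 0) (yy : Dy y = 1)
    (hDx : ∀ z ∈ C, Dx z ∈ C) (hDy : ∀ z ∈ C, Dy z ∈ C)
    (comm : ∀ z, Dx (Dy z) = Dy (Dx z))
    (basis : ∀ D : Derivation k K K, D = D x • Dx + D y • Dy) :
    Reg (ptLoc C χ) x y Dx Dy := by
  have hft : Algebra.FiniteType k C := etale_fg het
  have key := exists_of_char (⟨x, hx⟩ : C) ⟨y, hy⟩ χ hx0 hy0 het.formallyUnramified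
  have hmem : ∀ (D : Derivation k K K), (∀ z ∈ C, D z ∈ C) → ∀ z ∈ ptLoc C χ, D z ∈ ptLoc C χ := by
    rintro D hD z ⟨a, b, hb, h⟩
    refine ⟨⟨D a, hD _ a.2⟩ * b - a * ⟨D b, hD _ b.2⟩, b * b, by
      rw [map_mul]; exact mul_ne_zero hb hb, ?_⟩
    push_cast
    rw [← h, Derivation.leibniz, smul_eq_mul, smul_eq_mul]
    ring
  have hcoe : ∀ a : C, χ a ≠ 0 → (a : K) ≠ 0 := by
    intro a ha h0
    apply ha
    have : a = 0 := Subtype.ext h0
    rw [this, map_zero]
  have hgen : ∀ (z : K) (a b : C), χ b ≠ 0 → z * b = a → χ a = 0 →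
      ∃ u ∈ ptLoc C χ, ∃ v ∈ ptLoc C χ, z = x * u + y * v := by
    intro z a b hb h ha
    obtain ⟨w, hw, p, q, hpq⟩ := key a ha
    have hw0 := hcoe w hw
    have hb0 := hcoe b hb
    have hpq' : (w : K) * a = x * p + y * q := by
      have := congrArg (Subtype.val : C → K) hpq
      simpa using this
    refine ⟨p / (w * b), ⟨p, w * b, by rw [map_mul]; exact mul_ne_zero hw hb, ?_⟩,
      q / (w * b), ⟨q, w * b, by rw [map_mul]; exact mul_ne_zero hw hb, ?_⟩, ?_⟩
    · push_cast; exact div_mul_cancel₀ _ (mul_ne_zero hw0 hb0)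
    · push_cast; exact div_mul_cancel₀ _ (mul_ne_zero hw0 hb0)
    · rw [← mul_div_assoc, ← mul_div_assoc, ← add_div, ← hpq', eq_div_iff (mul_ne_zero hw0 hb0),
        ← h]
      ring
  exact
    { hx := ptLoc_le C χ hx
      hy := ptLoc_le C χ hy
      xx := xx
      xy := xy
      yx := yx
      yy := yy
      Dx_mem := hmem Dx hDx
      Dy_mem := hmem Dy hDy
      comm := comm
      basis := basis
      dec := by
        rintro z ⟨a, b, hb, h⟩
        have h1 : (z - algebraMap k K (χ a / χ b)) * (b : K) =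
            ((a - algebraMap k C (χ a / χ b) * b : C) : K) := by
          push_cast
          rw [sub_mul, h]
        have h2 : χ (a - algebraMap k C (χ a / χ b) * b) = 0 := by
          rw [map_sub, map_mul, AlgHom.commutes]
          simp [hb]
        obtain ⟨u, hu, v, hv, huv⟩ := hgen _ _ b hb h1 h2
        exact ⟨χ a / χ b, u, hu, v, hv, by rw [add_assoc, ← huv]; ring⟩
      inv := by
        rintro z ⟨a, b, hb, h⟩ hz
        have ha : χ a ≠ 0 := by
          intro ha
          obtain ⟨u, hu, v, hv, huv⟩ := hgen z a b hb h ha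
          exact hz u hu v hv huv
        have ha0 := hcoe a ha
        have hz0 : z ≠ 0 := by
          intro h0
          rw [h0, zero_mul] at h
          exact ha0 h.symm
        refine ⟨b, a, ha, ?_⟩
        rw [← h, inv_mul_cancel_left₀ hz0]
      one := by
        rintro u ⟨a, b, hb, h⟩ v ⟨a', b', hb', h'⟩ h1
        have h2 : b * b' = ⟨x, hx⟩ * a * b' + ⟨y, hy⟩ * a' * b := by
          apply Subtype.ext
          push_cast
          rw [← h, ← h', ← one_mul ((b : K) * (b' : K)), h1]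
          ring
        have h3 := congrArg χ h2
        rw [map_mul, map_add, map_mul, map_mul, map_mul, map_mul, hx0, hy0] at h3
        simp only [zero_mul, add_zero] at h3
        exact mul_ne_zero hb hb' h3
      et := ⟨C, χ, hx, hy, rfl, hx0, hy0, het⟩ }

/-- Translation of étale coordinates. -/
theorem etale_translate {C : Subalgebra k K} {x y : C} (a b : k)
    (het : (MvPolynomial.aeval ![x, y] : MvPolynomial (Fin 2) k →ₐ[k] C).toRingHom.Etale) :
    (MvPolynomial.aeval ![x - algebraMap k C a, y - algebraMap k C b] :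
      MvPolynomial (Fin 2) k →ₐ[k] C).toRingHom.Etale := by
  let τ : k → k → (MvPolynomial (Fin 2) k →ₐ[k] MvPolynomial (Fin 2) k) := fun a b =>
    MvPolynomial.aeval ![MvPolynomial.X 0 - MvPolynomial.C a, MvPolynomial.X 1 - MvPolynomial.C b]
  have hτ : ∀ a b, (τ a b).comp (τ (-a) (-b)) = AlgHom.id k _ := by
    intro a b
    refine MvPolynomial.algHom_ext fun i => ?_
    fin_cases i
    · simp [τ]
    · simp [τ]
  have hbij : Function.Bijective (τ a b).toRingHom := by
    refine Function.bijective_iff_has_inverse.2 ⟨τ (-a) (-b), ?_, ?_⟩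
    · intro z
      have := DFunLike.congr_fun (hτ (-a) (-b)) z
      rw [neg_neg, neg_neg] at this
      exact this
    · intro z
      exact DFunLike.congr_fun (hτ a b) z
  have h1 : (MvPolynomial.aeval ![x - algebraMap k C a, y - algebraMap k C b] :
      MvPolynomial (Fin 2) k →ₐ[k] C) =
      (MvPolynomial.aeval ![x, y] : MvPolynomial (Fin 2) k →ₐ[k] C).comp (τ a b) := by
    refine MvPolynomial.algHom_ext fun i => ?_
    fin_cases i
    · simp [τ]
    · simp [τ]
  have h2 : (MvPolynomial.aeval ![x - algebraMap k C a, y - algebraMap k C b] :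
      MvPolynomial (Fin 2) k →ₐ[k] C).toRingHom =
      (MvPolynomial.aeval ![x, y] : MvPolynomial (Fin 2) k →ₐ[k] C).toRingHom.comp
        (τ a b).toRingHom := by
    rw [h1]; rfl
  rw [h2]
  exact RingHom.Etale.stableUnderComposition _ _ (RingHom.Etale.of_bijective hbij) het

theorem etale_translate' {C : Subalgebra k K} {x y : K} (a b : k) (hx : x ∈ C) (hy : y ∈ C)
    (hxa : x - algebraMap k K a ∈ C) (hyb : y - algebraMap k K b ∈ C)
    (het : (MvPolynomial.aeval ![(⟨x, hx⟩ : C), ⟨y, hy⟩] :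
      MvPolynomial (Fin 2) k →ₐ[k] C).toRingHom.Etale) :
    (MvPolynomial.aeval ![(⟨x - algebraMap k K a, hxa⟩ : C), ⟨y - algebraMap k K b, hyb⟩] :
      MvPolynomial (Fin 2) k →ₐ[k] C).toRingHom.Etale := by
  have h1 : (⟨x - algebraMap k K a, hxa⟩ : C) = ⟨x, hx⟩ - algebraMap k C a := Subtype.ext rfl
  have h2 : (⟨y - algebraMap k K b, hyb⟩ : C) = ⟨y, hy⟩ - algebraMap k C b := Subtype.ext rfl
  rw [h1, h2]
  exact etale_translate a b het

/-- Localisation of étale coordinates. -/
theorem etale_incl {C C' : Subalgebra k K} (hle : C ≤ C') {f : K} (hf : f ∈ C) (hf0 : f ≠ 0)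
    (hinv : f⁻¹ ∈ C') (hfrac : ∀ z ∈ C', ∃ n : ℕ, z * f ^ n ∈ C) :
    (Subalgebra.inclusion hle).toRingHom.Etale := by
  let i1 : Algebra C C' := (Subalgebra.inclusion hle).toRingHom.toAlgebra
  have i2 : IsLocalization.Away (⟨f, hf⟩ : C) C' := by
    refine IsLocalization.Away.mk (S := C') (⟨f, hf⟩ : C) ?_ ?_ ?_
    · refine IsUnit.of_mul_eq_one (⟨f⁻¹, hinv⟩ : C') ?_
      refine Subtype.ext ?_
      change f * f⁻¹ = 1
      exact mul_inv_cancel₀ hf0
    · rintro ⟨z, hz⟩
      obtain ⟨n, hn⟩ := hfrac z hz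
      exact ⟨n, ⟨z * f ^ n, hn⟩, Subtype.ext rfl⟩
    · intro a b h
      refine ⟨0, ?_⟩
      have h1 : a = b := Subtype.ext (congrArg (Subtype.val : C' → K) h)
      rw [h1]
  have i3 : Algebra.Etale C C' := Algebra.Etale.of_isLocalizationAway (⟨f, hf⟩ : C)
  exact i3

end Et

end Pool.Agent.MP_b525bf_ag_TS
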