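import Pool.Agent.Lib.MP_b525bf_ag_TS.StageZ
import Pool.Agent.Lib.MP_b525bf_ag_TS.TorsB
import Pool.Agent.Lib.MP_b525bf_ag_TS.Init

/-!
# V3a: the toric family of affine space with the coordinate hyperplanes
-/

set_option autoImplicit false

namespace Pool.Agent.MP_b525bf_ag_TS

open Pool.Agent.MP_b525bf_ag Pool.Agent.MP_b525bf_ag_W Pool.Agent.MP_b525bf_ag_P AddMonoidAlgebra

/-- The logarithmic derivative of a monomial. -/
theorem der_mon {k K E : Type} [Field k] [Field K] [Algebra k K] [Fintype E] [DecidableEq E]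
    {t : E → K} (ht : ∀ i, t i ≠ 0) (D : Derivation k K K) (l : E)
    (hD : ∀ l', D (t l') = if l' = l then t l else 0) (d : E → ℤ) :
    D (mon t d) = (d l : K) * mon t d := by
  have key : ∀ s : Finset E, D (∏ i ∈ s, t i ^ d i) =
      (if l ∈ s then (d l : K) else 0) * ∏ i ∈ s, t i ^ d i := by
    intro s
    induction s using Finset.induction_on with
    | empty => simp
    | insert i s his ih =>
      rw [Finset.prod_insert his, Derivation.leibniz, ih, Derivation.leibniz_zpow, hD,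
        smul_eq_mul, smul_eq_mul]
      by_cases hil : i = l
      · subst hil
        rw [if_neg his, if_pos rfl, if_pos (Finset.mem_insert_self _ _), zsmul_eq_mul,
          smul_eq_mul, zpow_sub_one₀ (ht i)]
        have := ht i
        field_simp
        ring
      · rw [if_neg hil, smul_zero, smul_zero, mul_zero, add_zero]
        have h2 : (l ∈ insert i s) = (l ∈ s) := by
          simp [Ne.symm hil]
        simp only [h2]
        ring
  have := key Finset.univ
  rwa [if_pos (Finset.mem_univ l)] at this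

variable (k : Type) [Field k] (m : ℕ)

/-- The coordinates. -/
noncomputable def tv (l : Fin m) : KK k (Fin m) :=
  algebraMap (MvPolynomial (Fin m) k) _ (MvPolynomial.X l)

theorem tv_ne (l : Fin m) : tv k m l ≠ 0 :=
  (map_ne_zero_iff _ (IsFractionRing.injective (MvPolynomial (Fin m) k) (KK k (Fin m)))).2
    (MvPolynomial.X_ne_zero l)

theorem tv_mem (l : Fin m) : tv k m l ∈ BB k (Fin m) := ⟨MvPolynomial.X l, rfl⟩

/-- The toric family of affine space. -/
noncomputable def torFam : Fam k (KK k (Fin m)) (Fin m → ℤ) :=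
  twist (BB k (Fin m)) (tv k m) (tv_ne k m)

theorem torFam_zero : (torFam k m).s 0 = Subalgebra.toSubmodule (BB k (Fin m)) := by
  ext z
  change z ∈ (twist (BB k (Fin m)) (tv k m) (tv_ne k m)).s 0 ↔ z ∈ BB k (Fin m)
  rw [mem_twist, mon_zero, div_one]

theorem isU_torFam (d : Fin m → ℤ) : IsU (torFam k m) d (mon (tv k m) d) := by
  refine ⟨mon_ne (tv_ne k m) d, mon_mem (tv_ne k m) _ d, ?_⟩
  rw [← mon_neg]
  exact mon_mem (tv_ne k m) _ _

theorem isU_torFam_at (q : Ideal (torFam k m).alg) [q.IsPrime] (d : Fin m → ℤ) :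
    IsU (atP (torFam k m) q) d (mon (tv k m) d) := by
  obtain ⟨h1, h2, h3⟩ := isU_torFam k m d
  exact ⟨h1, le_atP _ q _ h2, le_atP _ q _ h3⟩

theorem isU_tv (q : Ideal (torFam k m).alg) [q.IsPrime] (l : Fin m) :
    IsU (atP (torFam k m) q) (uvec l) (tv k m l) := by
  have h := isU_torFam_at k m q (uvec l)
  rwa [mon_uvec] at h

theorem torFam_sec (j : Fin m) : (1 : KK k (Fin m)) ∈ (torFam k m).s (-(uvec j)) := by
  change _ ∈ (twist (BB k (Fin m)) (tv k m) (tv_ne k m)).s _
  rw [mem_twist, mon_neg, mon_uvec, one_div, inv_inv]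
  exact tv_mem k m j

theorem torFam_one {d : Fin m → ℤ} (hd : ∀ i, d i ≤ 0) :
    (1 : KK k (Fin m)) ∈ (torFam k m).s d := by
  change _ ∈ (twist (BB k (Fin m)) (tv k m) (tv_ne k m)).s _
  rw [mem_twist, ← neg_neg d, mon_neg, one_div, inv_inv, mon]
  refine (BB k (Fin m)).prod_mem fun i _ => ?_
  obtain ⟨n, hn⟩ := Int.eq_ofNat_of_zero_le (a := (-d) i) (by
    have := hd i
    simp only [Pi.neg_apply]
    omega)
  rw [hn, zpow_natCast]
  exact (BB k (Fin m)).pow_mem (tv_mem k m i) n

theorem torFam_degs (q : Ideal (torFam k m).alg) [q.IsPrime] (d : Fin m → ℤ) :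
    d ∈ (torFam k m).degs q := by
  have h := isU_torFam_at k m q d
  have h1 := (isU_torFam k m d).2.1
  exact ⟨_, h1, (isU_atP_iff _ q h1).1 h⟩

theorem torFam_smooth (hsec : ∀ j, (1 : KK k (Fin m)) ∈ (torFam k m).s (-(uvec j))) :
    (secMap (torFam k m) (fun j : Fin m => uvec j) Set.univ hsec).toRingHom.FormallySmooth := by
  refine twist_smooth (tv_ne k m) (fun j : Fin m => uvec j) Set.univ hsec
    (fun j => ⟨tv k m j, tv_mem k m j⟩) (fun j => (mon_uvec (tv k m) (j : Fin m)).symm) ?_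
  refine RingHom.FormallySmooth.of_bijective ?_
  let e1 : MvPolynomial ↥(Set.univ : Set (Fin m)) k ≃ₐ[k] MvPolynomial (Fin m) k :=
    MvPolynomial.renameEquiv k (Equiv.Set.univ (Fin m))
  let e2 : MvPolynomial (Fin m) k ≃ₐ[k] BB k (Fin m) :=
    AlgEquiv.ofInjective (Algebra.algHom k (MvPolynomial (Fin m) k) (KK k (Fin m)))
      (IsFractionRing.injective _ _)
  have h3 : MvPolynomial.aeval (R := k) (fun j : ↥(Set.univ : Set (Fin m)) =>
      (⟨tv k m j, tv_mem k m j⟩ : BB k (Fin m))) = ((e1.trans e2 : _ ≃ₐ[k] _) : _ →ₐ[k] _) := by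
    refine MvPolynomial.algHom_ext fun j => ?_
    rw [MvPolynomial.aeval_X]
    refine Subtype.ext ?_
    change _ = ((e2 (e1 (MvPolynomial.X j)) : BB k (Fin m)) : KK k (Fin m))
    have h4 : e1 (MvPolynomial.X j) = MvPolynomial.X (j : Fin m) := MvPolynomial.rename_X _ _
    rw [h4]
    rfl
  have h5 := (e1.trans e2).bijective
  have h6 : ⇑(MvPolynomial.aeval (R := k) (fun j : ↥(Set.univ : Set (Fin m)) =>
      (⟨tv k m j, tv_mem k m j⟩ : BB k (Fin m)))) = ⇑(e1.trans e2) := by
    rw [h3]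
    rfl
  rw [← h6] at h5
  exact h5

theorem torFam_tor : Tor (torFam k m) (0 : Fin m → ℤ) (fun j : Fin m => uvec j) where
  fg := twist_fg (tv_ne k m) (BB_fg (Fin m))
  sec := torFam_sec k m
  neg := fun n => torFam_one k m fun i => by simp
  nontriv := ⟨1, one_pos, 1, torFam_one k m fun i => by simp, one_ne_zero⟩
  gen := fun d => ⟨fun i => -((d i).natAbs : ℤ), torFam_one k m fun i => by
      simp only [Left.neg_nonpos_iff]; exact Int.natCast_nonneg _, torFam_one k m fun i => by
      simp only [Pi.add_apply]; omega⟩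
  int := fun q _ _ d => ⟨1, one_pos, 1, one_pos, torFam_degs k m q _⟩
  chart := fun q _ _ => ⟨Set.univ, torFam k m, fun j hj => absurd (Set.mem_univ j) hj,
    fun _ => le_rfl, fun d => le_atP _ _ d, twist_fg (tv_ne k m) (BB_fg (Fin m)),
    torFam_sec k m, torFam_smooth k m _⟩

/-- The logarithmic derivation `t_l ∂_l`. -/
theorem exists_tder (l : Fin m) : ∃ D : Derivation k (KK k (Fin m)) (KK k (Fin m)),
    (∀ l', D (tv k m l') = if l' = l then tv k m l else 0) ∧
    ∀ (q : Ideal (torFam k m).alg) [q.IsPrime], Pres (torFam k m) q D := by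
  obtain ⟨D₀, hD₀⟩ := exists_partial (k := k) l
  have h1 : ∀ l', (tv k m l • D₀) (tv k m l') = if l' = l then tv k m l else 0 := by
    intro l'
    rw [Derivation.smul_apply, tv, tv, hD₀, MvPolynomial.pderiv_X, smul_eq_mul]
    by_cases h : l' = l
    · subst h
      rw [if_pos rfl, Pi.single_eq_same, map_one, mul_one]
    · rw [if_neg h, Pi.single_eq_of_ne h, map_zero, mul_zero]
  refine ⟨tv k m l • D₀, h1, fun q _ => ProdStage.pres_of fun d y hy => le_atP _ _ _ ?_⟩
  have hmon := der_mon (tv_ne k m) (tv k m l • D₀) l h1 d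
  change (tv k m l • D₀) y ∈ (twist (BB k (Fin m)) (tv k m) (tv_ne k m)).s d
  have hy' : y / mon (tv k m) d ∈ BB k (Fin m) := hy
  rw [mem_twist]
  obtain ⟨P, hP⟩ := hy'
  have hy2 : y = algebraMap _ (KK k (Fin m)) P * mon (tv k m) d := by
    have h3 : algebraMap _ (KK k (Fin m)) P = y / mon (tv k m) d := hP
    rw [h3, div_mul_cancel₀ _ (mon_ne (tv_ne k m) d)]
  rw [hy2, Derivation.leibniz, hmon, smul_eq_mul, smul_eq_mul, add_div]
  have hm := mon_ne (tv_ne k m) d
  refine (BB k (Fin m)).add_mem ?_ ?_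
  · rw [← mul_assoc, mul_div_assoc, div_self hm, mul_one]
    exact (BB k (Fin m)).mul_mem ⟨P, rfl⟩ ⟨(d l : MvPolynomial (Fin m) k), by simp⟩
  · rw [mul_comm, mul_div_assoc, div_self hm, mul_one, Derivation.smul_apply, hD₀, smul_eq_mul]
    exact (BB k (Fin m)).mul_mem (tv_mem k m l) ⟨_, rfl⟩

end Pool.Agent.MP_b525bf_ag_TS
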