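import Pool.Agent.Lib.MP_b525bf_ag_TS.Pts
import Pool.Agent.Lib.MP_b525bf_ag_TS.Trans
import Pool.Agent.Lib.MP_b525bf_ag_P.TorStep
import Pool.Agent.Lib.MP_b525bf_ag_helper53.FamLoc

/-!
# B6a: the multi Rees algebra and its semistable points
-/

set_option autoImplicit false

namespace Pool.Agent.MP_b525bf_ag_TS

open Pool.Agent.MP_b525bf_ag Pool.Agent.MP_b525bf_ag_W Pool.Agent.MP_b525bf_ag_P AddMonoidAlgebra

open scoped Classical

variable {k K : Type} [Field k] [Field K] [Algebra k K] {E : Type} [Fintype E]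

/-- The unit vectors. -/
noncomputable def uvec (i : E) : E → ℤ := Pi.single i 1

/-- The generators of the extended multi Rees algebra of the ideals `J i` with the sections of the
boundary. -/
def mgens (B : Subalgebra k K) (J : E → Ideal B) (e : E → E → ℤ) :
    Set (AddMonoidAlgebra K (E → ℤ)) :=
  {F | ∃ b ∈ B, F = single 0 b} ∪ {F | ∃ i, ∃ w : B, w ∈ J i ∧ F = single (uvec i) (w : K)} ∪
    {F | ∃ i : E, F = single (-(uvec i)) 1} ∪ {F | ∃ j, F = single (-(e j)) 1}

/-- The extended multi Rees algebra with the sections of the boundary. -/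
noncomputable def mrees (B : Subalgebra k K) (J : E → Ideal B) (e : E → E → ℤ) :
    Fam k K (E → ℤ) :=
  Fam.ofSub (Algebra.adjoin k (mgens B J e))

variable {B : Subalgebra k K} {J : E → Ideal B} {e : E → E → ℤ} {V : E → Subalgebra k K}

namespace TorsA

theorem mrees_alg : (mrees B J e).alg = Algebra.adjoin k (mgens B J e) := by
  refine H53.alg_ofSub_adjoin _ ?_
  rintro F (((⟨b, -, rfl⟩ | ⟨i, w, -, rfl⟩) | ⟨i, rfl⟩) | ⟨j, rfl⟩)
  exacts [⟨_, _, rfl⟩, ⟨_, _, rfl⟩, ⟨_, _, rfl⟩, ⟨_, _, rfl⟩]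

/-- A family which contains the generators contains the multi Rees algebra. -/
theorem mrees_le_of {C : Fam k K (E → ℤ)} (h1 : ∀ b ∈ B, b ∈ C.s 0)
    (h2 : ∀ i, ∀ w : B, w ∈ J i → (w : K) ∈ C.s (uvec i))
    (h3 : ∀ i : E, (1 : K) ∈ C.s (-(uvec i))) (h4 : ∀ j, (1 : K) ∈ C.s (-(e j))) (d : E → ℤ) :
    (mrees B J e).s d ≤ C.s d := by
  have hle : Algebra.adjoin k (mgens B J e) ≤ C.alg := by
    refine Algebra.adjoin_le ?_
    rintro F (((⟨b, hb, rfl⟩ | ⟨i, w, hw, rfl⟩) | ⟨i, rfl⟩) | ⟨j, rfl⟩)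
    · exact Fam.single_mem_alg.2 (h1 b hb)
    · exact Fam.single_mem_alg.2 (h2 i w hw)
    · exact Fam.single_mem_alg.2 (h3 i)
    · exact Fam.single_mem_alg.2 (h4 j)
  intro x hx
  exact Fam.single_mem_alg.1 (hle hx)

theorem mrees_b {b : K} (hb : b ∈ B) : b ∈ (mrees B J e).s 0 :=
  Algebra.subset_adjoin (Or.inl (Or.inl (Or.inl ⟨b, hb, rfl⟩)))

theorem mrees_w {i : E} {w : B} (hw : w ∈ J i) : (w : K) ∈ (mrees B J e).s (uvec i) :=
  Algebra.subset_adjoin (Or.inl (Or.inl (Or.inr ⟨i, w, hw, rfl⟩)))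

theorem mrees_one (i : E) : (1 : K) ∈ (mrees B J e).s (-(uvec i)) :=
  Algebra.subset_adjoin (Or.inl (Or.inr ⟨i, rfl⟩))

theorem mrees_e (j : E) : (1 : K) ∈ (mrees B J e).s (-(e j)) :=
  Algebra.subset_adjoin (Or.inr ⟨j, rfl⟩)

/-- The family with constant pieces `B`. -/
def constFam (B : Subalgebra k K) : Fam k K (E → ℤ) where
  s _ := Subalgebra.toSubmodule B
  one' := B.one_mem
  mul' hx hy := B.mul_mem hx hy

/-- The family of the elements `z` with `z / g ^ d` in `R`. -/
def gFam (R : Subalgebra k K) (g : E → K) (hg : ∀ i, g i ≠ 0) : Fam k K (E → ℤ) where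
  s d :=
    { carrier := {z | z / ∏ i, g i ^ d i ∈ R}
      add_mem' := by
        intro x y hx hy
        rw [Set.mem_ofPred_eq, add_div]
        exact R.add_mem hx hy
      zero_mem' := by
        rw [Set.mem_ofPred_eq, zero_div]
        exact R.zero_mem
      smul_mem' := by
        intro c x hx
        rw [Set.mem_ofPred_eq, smul_div_assoc]
        exact R.smul_mem hx c }
  one' := by
    change (1 : K) / ∏ i, g i ^ (0 : E → ℤ) i ∈ R
    simp
  mul' := by
    intro d d' x y hx hy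
    change x * y / ∏ i, g i ^ (d + d') i ∈ R
    have h : ∏ i, g i ^ (d + d') i = (∏ i, g i ^ d i) * ∏ i, g i ^ d' i := by
      rw [← Finset.prod_mul_distrib]
      exact Finset.prod_congr rfl fun i _ => zpow_add₀ (hg i) _ _
    rw [h, mul_div_mul_comm]
    exact R.mul_mem hx hy

theorem mem_gFam {R : Subalgebra k K} {g : E → K} {hg : ∀ i, g i ≠ 0} {d : E → ℤ} {z : K} :
    z ∈ (gFam R g hg).s d ↔ z / ∏ i, g i ^ d i ∈ R := Iff.rfl

theorem le_chartF (h : E → K) : B ≤ chartF B J h :=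
  fun b hb => Algebra.subset_adjoin (Or.inl hb)

theorem le_ptLoc (C : Subalgebra k K) (χ : C →ₐ[k] k) : C ≤ ptLoc C χ :=
  fun z hz => ⟨⟨z, hz⟩, 1, by rw [map_one]; exact one_ne_zero, by simp⟩

theorem Pt.le {R : Subalgebra k K} (hR : Pt B J R) : B ≤ R := by
  obtain ⟨h, -, χ, rfl⟩ := hR
  exact (le_chartF h).trans (le_ptLoc _ _)

theorem prod_uvec (g : E → K) (i : E) : ∏ j, g j ^ (uvec i) j = g i := by
  rw [Finset.prod_eq_single i]
  · simp [uvec]
  · intro j _ hj
    simp [uvec, hj]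
  · intro h
    exact absurd (Finset.mem_univ i) h

theorem prod_neg (g : E → K) (d : E → ℤ) : ∏ j, g j ^ (-d) j = (∏ j, g j ^ d j)⁻¹ := by
  rw [← Finset.prod_inv_distrib]
  exact Finset.prod_congr rfl fun i _ => by rw [Pi.neg_apply, zpow_neg]

/-- A proper ideal of a finitely generated algebra vanishes at some point. -/
theorem exists_char [IsAlgClosed k] {C : Subalgebra k K} (hC : C.FG) (P : Ideal C) (hP : P ≠ ⊤) :
    ∃ χ : C →ₐ[k] k, ∀ c ∈ P, χ c = 0 := by
  obtain ⟨m, hm, hPm⟩ := Ideal.exists_le_maximal P hP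
  have hft : Algebra.FiniteType k C := (Subalgebra.fg_iff_finiteType C).1 hC
  let _ : Field (C ⧸ m) := Ideal.Quotient.field m
  have h1 : Algebra.FiniteType k (C ⧸ m) := inferInstance
  have h2 : Module.Finite k (C ⧸ m) := finite_of_finite_type_of_isJacobsonRing k (C ⧸ m)
  have h3 : Algebra.IsIntegral k (C ⧸ m) := inferInstance
  have h4 : Function.Bijective (Algebra.ofId k (C ⧸ m)) :=
    IsAlgClosed.algebraMap_bijective_of_isIntegral (k := k) (K := C ⧸ m)
  let ψ := AlgEquiv.ofBijective (Algebra.ofId k (C ⧸ m)) h4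
  refine ⟨(ψ.symm : (C ⧸ m) →ₐ[k] k).comp (Ideal.Quotient.mkₐ k m), fun c hc => ?_⟩
  have h5 : Ideal.Quotient.mkₐ k m c = 0 := Ideal.Quotient.eq_zero_iff_mem.2 (hPm hc)
  change ψ.symm (Ideal.Quotient.mkₐ k m c) = 0
  rw [h5, map_zero]

/-- The piece of degree zero. -/
def zeroAlg {ι : Type} [AddCommGroup ι] (N : Fam k K ι) : Subalgebra k K where
  carrier := {x | x ∈ N.s 0}
  mul_mem' := by
    intro x y hx hy
    have := N.mul' hx hy
    rwa [add_zero] at this
  add_mem' := by
    intro x y hx hy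
    exact Submodule.add_mem _ hx hy
  algebraMap_mem' := by
    intro c
    change algebraMap k K c ∈ N.s 0
    rw [Algebra.algebraMap_eq_smul_one]
    exact Submodule.smul_mem _ _ N.one'

/-- The ideal of nonunits of the homogeneous localisation in degree zero. -/
def nonU {ι : Type} [AddCommGroup ι] (M : Fam k K ι) (q : Ideal M.alg) [q.IsPrime] :
    Ideal (zeroAlg (atP M q)) where
  carrier := {x | ¬ IsU (atP M q) 0 (x : K)}
  add_mem' := by
    intro x y hx hy hxy
    rcases isU_add M q x.2 y.2 hxy with h | h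
    · exact hx h
    · exact hy h
  zero_mem' := fun h => h.1 rfl
  smul_mem' := by
    intro c x hx hcx
    apply hx
    refine IsU.of_mul_right (d := 0) c.2 x.2 ?_
    rw [add_zero]
    exact hcx

theorem nonU_ne_top {ι : Type} [AddCommGroup ι] (M : Fam k K ι) (q : Ideal M.alg) [q.IsPrime] :
    nonU M q ≠ ⊤ := by
  rw [Ideal.ne_top_iff_one]
  intro h
  apply h
  refine ⟨one_ne_zero, (atP M q).one', ?_⟩
  change ((1 : K))⁻¹ ∈ (atP M q).s (-0)
  rw [inv_one, neg_zero]
  exact (atP M q).one'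

end TorsA

open TorsA

theorem mrees_le (d : E → ℤ) : (mrees B J e).s d ≤ Subalgebra.toSubmodule B :=
  mrees_le_of (C := constFam B) (fun _ hb => hb) (fun _ w _ => w.2) (fun _ => B.one_mem)
    (fun _ => B.one_mem) d

theorem mrees_zero : (mrees B J e).s 0 = Subalgebra.toSubmodule B :=
  le_antisymm (mrees_le 0) fun _ hb => mrees_b hb

theorem mrees_fg (hB : B.FG) : (mrees B J e).alg.FG := by
  have hft : Algebra.FiniteType k B := (Subalgebra.fg_iff_finiteType B).1 hB
  have hN : IsNoetherianRing B := Algebra.FiniteType.isNoetherianRing k B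
  obtain ⟨S, hS⟩ := hB
  have hJ : ∀ i, ∃ T : Finset B, Ideal.span (T : Set B) = J i := fun i =>
    (isNoetherianRing_iff_ideal_fg B).1 hN (J i)
  choose T hT using hJ
  let G : Finset (AddMonoidAlgebra K (E → ℤ)) :=
    S.image (fun b => single 0 b) ∪
      (Finset.univ.biUnion fun i => (T i).image (fun w : B => single (uvec i) (w : K))) ∪
      Finset.univ.image (fun i : E => single (-(uvec i)) (1 : K)) ∪
      Finset.univ.image (fun j : E => single (-(e j)) (1 : K))
  refine ⟨G, ?_⟩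
  rw [mrees_alg]
  have hG1 : ∀ b ∈ S, (single 0 b : AddMonoidAlgebra K (E → ℤ)) ∈ Algebra.adjoin k
      (G : Set (AddMonoidAlgebra K (E → ℤ))) := by
    intro b hb
    apply Algebra.subset_adjoin
    simp only [G, Finset.coe_union, Set.mem_union, Finset.coe_image]
    exact Or.inl (Or.inl (Or.inl ⟨b, hb, rfl⟩))
  have hG2 : ∀ i, ∀ w ∈ T i, (single (uvec i) (w : K) : AddMonoidAlgebra K (E → ℤ)) ∈
      Algebra.adjoin k (G : Set (AddMonoidAlgebra K (E → ℤ))) := by
    intro i w hw
    apply Algebra.subset_adjoin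
    simp only [G, Finset.coe_union, Set.mem_union, Finset.coe_biUnion, Set.mem_iUnion,
      Finset.coe_image]
    exact Or.inl (Or.inl (Or.inr ⟨i, Finset.mem_coe.2 (Finset.mem_univ i), w, hw, rfl⟩))
  have hG3 : ∀ i : E, (single (-(uvec i)) (1 : K) : AddMonoidAlgebra K (E → ℤ)) ∈
      Algebra.adjoin k (G : Set (AddMonoidAlgebra K (E → ℤ))) := by
    intro i
    apply Algebra.subset_adjoin
    simp only [G, Finset.coe_union, Set.mem_union, Finset.coe_image]
    exact Or.inl (Or.inr ⟨i, Finset.mem_coe.2 (Finset.mem_univ i), rfl⟩)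
  have hG4 : ∀ j : E, (single (-(e j)) (1 : K) : AddMonoidAlgebra K (E → ℤ)) ∈
      Algebra.adjoin k (G : Set (AddMonoidAlgebra K (E → ℤ))) := by
    intro j
    apply Algebra.subset_adjoin
    simp only [G, Finset.coe_union, Set.mem_union, Finset.coe_image]
    exact Or.inr ⟨j, Finset.mem_coe.2 (Finset.mem_univ j), rfl⟩
  have hb : ∀ b ∈ B, (single 0 b : AddMonoidAlgebra K (E → ℤ)) ∈ Algebra.adjoin k
      (G : Set (AddMonoidAlgebra K (E → ℤ))) := by
    intro b hb
    rw [← hS] at hb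
    induction hb using Algebra.adjoin_induction with
    | mem x hx => exact hG1 x hx
    | algebraMap r =>
      have h1 : algebraMap k (AddMonoidAlgebra K (E → ℤ)) r = single 0 (algebraMap k K r) := by
        rw [AddMonoidAlgebra.coe_algebraMap]; rfl
      rw [← h1]
      exact Subalgebra.algebraMap_mem _ r
    | add x y _ _ hx hy =>
      rw [single_add]
      exact Subalgebra.add_mem _ hx hy
    | mul x y _ _ hx hy =>
      have h1 : (single 0 (x * y) : AddMonoidAlgebra K (E → ℤ)) = single 0 x * single 0 y := by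
        rw [single_mul_single, add_zero]
      rw [h1]
      exact Subalgebra.mul_mem _ hx hy
  refine le_antisymm (Algebra.adjoin_le ?_) (Algebra.adjoin_le ?_)
  · intro F hF
    simp only [G, Finset.coe_union, Set.mem_union, Finset.coe_biUnion, Set.mem_iUnion,
      Finset.coe_image, Set.mem_image] at hF
    rcases hF with ((⟨b, hb, rfl⟩ | ⟨i, -, w, hw, rfl⟩) | ⟨i, -, rfl⟩) | ⟨j, -, rfl⟩
    · refine Algebra.subset_adjoin (Or.inl (Or.inl (Or.inl ⟨b, ?_, rfl⟩)))
      rw [← hS]
      exact Algebra.subset_adjoin hb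
    · refine Algebra.subset_adjoin (Or.inl (Or.inl (Or.inr ⟨i, w, ?_, rfl⟩)))
      rw [← hT i]
      exact Ideal.subset_span hw
    · exact Algebra.subset_adjoin (Or.inl (Or.inr ⟨i, rfl⟩))
    · exact Algebra.subset_adjoin (Or.inr ⟨j, rfl⟩)
  · rintro F (((⟨b, hb', rfl⟩ | ⟨i, w, hw, rfl⟩) | ⟨i, rfl⟩) | ⟨j, rfl⟩)
    · exact hb b hb'
    · rw [← hT i] at hw
      change (single (uvec i) (w : K) : AddMonoidAlgebra K (E → ℤ)) ∈ Algebra.adjoin k
        (G : Set (AddMonoidAlgebra K (E → ℤ)))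
      induction hw using Submodule.span_induction with
      | mem x hx => exact hG2 i x hx
      | zero => 
        have h1 : (single (uvec i) (((0 : B) : K)) : AddMonoidAlgebra K (E → ℤ)) = 0 := by simp
        rw [h1]
        exact Subalgebra.zero_mem _
      | add x y _ _ hx hy =>
        have h1 : (single (uvec i) (((x + y : B) : K)) : AddMonoidAlgebra K (E → ℤ)) =
            single (uvec i) (x : K) + single (uvec i) (y : K) := by
          rw [← single_add]; rfl
        rw [h1]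
        exact Subalgebra.add_mem _ hx hy
      | smul c x _ hx =>
        have h1 : (single (uvec i) (((c • x : B) : K)) : AddMonoidAlgebra K (E → ℤ)) =
            single 0 (c : K) * single (uvec i) (x : K) := by
          rw [single_mul_single, zero_add]; rfl
        rw [h1]
        exact Subalgebra.mul_mem _ (hb c c.2) hx
    · exact hG3 i
    · exact hG4 j

/-- The bounds at the points of the model. -/
theorem Nc2.mrees_mem (h : Nc2 B J e V) {R : Subalgebra k K} (hR : Pt B J R) {g : E → K}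
    (hg : GenAt B J R g) {d : E → ℤ} {z : K} (hz : z ∈ (mrees B J e).s d) :
    z / ∏ i, g i ^ d i ∈ R := by
  have hg0 : ∀ i, g i ≠ 0 := fun i => (hg.1 i).1
  have hgB : ∀ i, g i ∈ B := by
    intro i
    obtain ⟨w, -, hw⟩ := (hg.1 i).2
    rw [← hw]
    exact w.2
  refine (mem_gFam (hg := hg0)).1 (mrees_le_of (C := gFam R g hg0) ?_ ?_ ?_ ?_ d hz)
  · intro b hb
    rw [mem_gFam]
    have h1 : ∏ i, g i ^ (0 : E → ℤ) i = 1 := by simp
    rw [h1, div_one]
    exact Pt.le hR hb
  · intro i w hw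
    rw [mem_gFam, prod_uvec]
    exact hg.2 i w hw
  · intro i
    rw [mem_gFam, prod_neg, prod_uvec, one_div, inv_inv]
    exact Pt.le hR (hgB i)
  · intro j
    rw [mem_gFam, prod_neg, one_div, inv_inv]
    obtain ⟨h0, x, y, Dx, Dy, s, t, b, hnc⟩ := h.pt R hR
    have h1 : xi h0 e j ∈ R := by
      rcases hbj : b j with _ | (_ | _)
      · exact (hnc.b0 j hbj).2.1
      · have h2 := (hnc.bx j hbj)
        have h3 := R.mul_mem h2.2.1 hnc.reg.hx
        have hx0 : x ≠ 0 := by
          rintro rfl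
          exact h2.1 (by simp)
        rwa [div_mul_cancel₀ _ hx0] at h3
      · have h2 := (hnc.by' j hbj)
        have h3 := R.mul_mem h2.2.1 hnc.reg.hy
        have hy0 : y ≠ 0 := by
          rintro rfl
          exact h2.1 (by simp)
        rwa [div_mul_cancel₀ _ hy0] at h3
    have h2 := GenAt.xi_unit hnc.gen hg e j
    have h3 := R.mul_mem h2.2.1 h1
    have hne : xi h0 e j ≠ 0 := by
      intro h4
      exact h2.1 (by rw [h4, div_zero])
    rw [div_mul_cancel₀ _ hne] at h3
    exact h3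

namespace TorsA

/-- An ideal has an element of minimal value. -/
theorem exists_min (hN : IsNoetherianRing B) (W : ValuationSubring K) (hBW : ∀ b ∈ B, b ∈ W)
    (I : Ideal B) (hI : I ≠ ⊥) : ∃ w : B, w ∈ I ∧ (w : K) ≠ 0 ∧ ∀ w' : B, w' ∈ I →
      (w' : K) / w ∈ W := by
  obtain ⟨T, hT⟩ := (isNoetherianRing_iff_ideal_fg B).1 hN I
  have hne : T.Nonempty := by
    rw [Finset.nonempty_iff_ne_empty]
    rintro rfl
    apply hI
    rw [← hT]
    simp
  obtain ⟨w, hwT, hw⟩ := Finset.exists_max_image T (fun w => W.valuation (w : K)) hne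
  have hw0 : (w : K) ≠ 0 := by
    intro h0
    apply hI
    rw [← hT, Ideal.span_eq_bot]
    intro x hx
    have h1 := hw x hx
    rw [h0, map_zero] at h1
    have h2 : W.valuation (x : K) = 0 := le_antisymm h1 zero_le
    rw [Valuation.zero_iff] at h2
    exact Subtype.ext h2
  refine ⟨w, by rw [← hT]; exact Ideal.subset_span hwT, hw0, ?_⟩
  intro w' hw'
  rw [← hT] at hw'
  induction hw' using Submodule.span_induction with
  | mem x hx =>
    rw [← W.valuation_le_one_iff, map_div₀]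
    exact div_le_one_of_le₀ (hw x hx) zero_le
  | zero =>
    rw [ZeroMemClass.coe_zero, zero_div]
    exact W.zero_mem
  | add x y _ _ hx hy =>
    have h1 : ((x + y : B) : K) / w = x / w + y / w := by push_cast; rw [add_div]
    rw [h1]
    exact W.add_mem _ _ hx hy
  | smul c x _ hx =>
    have h1 : ((c • x : B) : K) / w = c * (x / w) := by
      rw [smul_eq_mul]; push_cast; rw [mul_div_assoc]
    rw [h1]
    exact W.mul_mem _ _ (hBW c c.2) hx

end TorsA

/-- Semistability. -/
theorem Nc2.exists_unit_gens [IsAlgClosed k] (hB : B.FG) (h : Nc2 B J e V)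
    (q : Ideal (mrees B J e).alg) [q.IsPrime]
    (hq : Semi (mrees B J e) (fun _ => 1) q) :
    ∃ g : E → K, TupIn B J g ∧ ∀ i, IsU (atP (mrees B J e) q) (uvec i) (g i) := by
  have hft : Algebra.FiniteType k B := (Subalgebra.fg_iff_finiteType B).1 hB
  have hN : IsNoetherianRing B := Algebra.FiniteType.isNoetherianRing k B
  obtain ⟨n, hn, z, hz, hzq⟩ := hq
  have hzU : IsU (atP (mrees B J e) q) (n • fun _ => 1) z := (isU_atP_iff _ q hz).2 hzq
  -- a valuation ring which dominates the piece of degree zero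
  obtain ⟨W, hW1, hW2⟩ := Ideal.image_subset_nonunits_valuationSubring
    (A := (zeroAlg (atP (mrees B J e) q)).toSubring) (nonU (mrees B J e) q)
    (nonU_ne_top (mrees B J e) q)
  have hW1' : ∀ x ∈ (atP (mrees B J e) q).s 0, x ∈ W := fun x hx => hW1 hx
  have hBW : ∀ b ∈ B, b ∈ W := fun b hb => hW1' b (le_atP _ _ _ (mrees_b hb))
  choose w hwJ hw0 hwW using fun i => exists_min hN W hBW (J i) (h.ne i)
  let g : E → K := fun i => w i
  have hg : TupIn B J g := fun i => ⟨hw0 i, w i, hwJ i, rfl⟩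
  refine ⟨g, hg, ?_⟩
  -- the chart and the point
  have hCW : ∀ c ∈ chartF B J g, c ∈ W := by
    intro c hc
    induction hc using Algebra.adjoin_induction with
    | mem x hx =>
      rcases hx with hx | ⟨i, w', hw', rfl⟩
      · exact hBW x hx
      · exact hwW i w' hw'
    | algebraMap r => exact hBW _ (B.algebraMap_mem r)
    | add x y _ _ hx hy => exact W.add_mem _ _ hx hy
    | mul x y _ _ hx hy => exact W.mul_mem _ _ hx hy
  let φ : chartF B J g →+* W :=
    { toFun := fun c => ⟨c, hCW c c.2⟩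
      map_one' := rfl
      map_mul' := fun _ _ => rfl
      map_zero' := rfl
      map_add' := fun _ _ => rfl }
  have hP : (IsLocalRing.maximalIdeal W).comap φ ≠ ⊤ :=
    Ideal.comap_ne_top _ (IsLocalRing.maximalIdeal.isMaximal W).ne_top
  obtain ⟨χ, hχ⟩ := exists_char (chartF_fg hB g) _ hP
  have hR : Pt B J (ptLoc (chartF B J g) χ) := ⟨g, hg, χ, rfl⟩
  have hgen : GenAt B J (ptLoc (chartF B J g) χ) g :=
    ⟨hg, fun i w' hw' => TorsA.le_ptLoc _ _ (Algebra.subset_adjoin (Or.inr ⟨i, w', hw', rfl⟩))⟩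
  have hRW : ∀ x ∈ ptLoc (chartF B J g) χ, x ∈ W := by
    rintro x ⟨a, b, hb, hxb⟩
    have hbu : IsUnit (φ b) := by
      by_contra hcon
      apply hb
      apply hχ
      rw [Ideal.mem_comap, IsLocalRing.mem_maximalIdeal]
      exact hcon
    obtain ⟨v, hv⟩ := hbu
    have hbv : (b : K) * ((v⁻¹ : Wˣ) : W) = 1 := by
      have h1 : (v : W) * ((v⁻¹ : Wˣ) : W) = 1 := v.mul_inv
      rw [hv] at h1
      exact congrArg Subtype.val h1
    have h2 : x = (a : K) * ((v⁻¹ : Wˣ) : W) := by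
      rw [← hxb, mul_assoc, hbv, mul_one]
    rw [h2]
    exact W.mul_mem _ _ (hCW a a.2) (Subtype.mem _)
  have hzW : z / ∏ i, g i ^ (n • fun _ => (1 : ℤ) : E → ℤ) i ∈ W :=
    hRW _ (h.mrees_mem hR hgen hz)
  have hpow : ∏ i, g i ^ (n • fun _ => (1 : ℤ) : E → ℤ) i = (∏ i, g i) ^ n := by
    rw [← Finset.prod_pow]
    refine Finset.prod_congr rfl fun i _ => ?_
    simp
  rw [hpow] at hzW
  have hgi : ∀ i, g i ∈ (mrees B J e).s (uvec i) := fun i => mrees_w (hwJ i)
  have hprod : ∀ s : Finset E, ∏ i ∈ s, g i ∈ (mrees B J e).s (∑ i ∈ s, uvec i) := by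
    intro s
    induction s using Finset.induction_on with
    | empty => simpa using (mrees B J e).one'
    | insert i s hi ih =>
      rw [Finset.prod_insert hi, Finset.sum_insert hi]
      exact (mrees B J e).mul' (hgi i) ih
  have hsum : ∑ i : E, (uvec i : E → ℤ) = fun _ => 1 := by
    funext j
    rw [Finset.sum_apply, Finset.sum_eq_single j]
    · simp [uvec]
    · intro i _ hi
      simp [uvec, hi.symm]
    · intro h1
      exact absurd (Finset.mem_univ j) h1
  have hG : (∏ i, g i) ∈ (mrees B J e).s (fun _ => 1) := by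
    have := hprod Finset.univ
    rwa [hsum] at this
  have hGn : (∏ i, g i) ^ n ∈ (atP (mrees B J e) q).s (n • fun _ => 1) :=
    le_atP _ _ _ ((mrees B J e).pow' hG n)
  have hG0 : (∏ i, g i) ≠ 0 := Finset.prod_ne_zero_iff.2 fun i _ => hw0 i
  -- the product is a unit
  have hy : (∏ i, g i) ^ n * z⁻¹ ∈ (atP (mrees B J e) q).s 0 := by
    have := (atP (mrees B J e) q).mul' hGn hzU.2.2
    rwa [add_neg_cancel] at this
  have hyU : IsU (atP (mrees B J e) q) 0 ((∏ i, g i) ^ n * z⁻¹) := by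
    by_contra hcon
    have h1 : (∏ i, g i) ^ n * z⁻¹ ∈ W.nonunits := hW2 ⟨⟨_, hy⟩, hcon, rfl⟩
    rw [ValuationSubring.mem_nonunits_iff_or] at h1
    rcases h1 with h1 | h1
    · exact (mul_ne_zero (pow_ne_zero n hG0) (inv_ne_zero hzU.1)) h1
    · apply h1
      rw [mul_inv, inv_inv, mul_comm, ← div_eq_mul_inv]
      exact hzW
  have hGU : IsU (atP (mrees B J e) q) (n • fun _ => 1) ((∏ i, g i) ^ n) := by
    have := hyU.mul hzU
    rw [zero_add, mul_assoc, inv_mul_cancel₀ hzU.1, mul_one] at this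
    exact this
  obtain ⟨m, rfl⟩ : ∃ m, n = m + 1 := ⟨n - 1, by omega⟩
  have hG1 : IsU (atP (mrees B J e) q) (fun _ => 1) (∏ i, g i) := by
    rw [pow_succ', succ_nsmul'] at hGU
    exact IsU.of_mul_left (le_atP _ _ _ hG) (le_atP _ _ _ ((mrees B J e).pow' hG m)) hGU
  intro i
  have h1 : (∏ i, g i) = g i * ∏ j ∈ Finset.univ.erase i, g j :=
    (Finset.mul_prod_erase _ _ (Finset.mem_univ i)).symm
  have h2 : (fun _ => 1 : E → ℤ) = uvec i + ∑ j ∈ Finset.univ.erase i, uvec j := by
    rw [← hsum]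
    exact (Finset.add_sum_erase _ _ (Finset.mem_univ i)).symm
  rw [h1, h2] at hG1
  exact IsU.of_mul_left (le_atP _ _ _ (hgi i)) (le_atP _ _ _ (hprod _)) hG1

/-- Specialisation to a closed point. -/
theorem Nc2.exists_point [IsAlgClosed k] (hB : B.FG) (h : Nc2 B J e V)
    (q : Ideal (mrees B J e).alg) [q.IsPrime] {g : E → K} (hg : TupIn B J g)
    (hq : ∀ i, IsU (atP (mrees B J e) q) (uvec i) (g i)) :
    ∃ χ : chartF B J g →ₐ[k] k, ∀ z ∈ ptLoc (chartF B J g) χ,
      z ∈ (atP (mrees B J e) q).s 0 := by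
  have hC : chartF B J g ≤ zeroAlg (atP (mrees B J e) q) := by
    refine Algebra.adjoin_le ?_
    rintro x (hx | ⟨i, w', hw', rfl⟩)
    · exact le_atP _ _ _ (mrees_b hx)
    · have h1 := (atP (mrees B J e) q).mul' (le_atP _ q _ (mrees_w hw')) (hq i).2.2
      rw [add_neg_cancel, ← div_eq_mul_inv] at h1
      exact h1
  obtain ⟨χ, hχ⟩ := exists_char (chartF_fg hB g)
    ((nonU (mrees B J e) q).comap (Subalgebra.inclusion hC).toRingHom)
    (Ideal.comap_ne_top _ (nonU_ne_top _ q))
  refine ⟨χ, ?_⟩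
  rintro z ⟨a, b, hb, hzb⟩
  have hbU : IsU (atP (mrees B J e) q) 0 (b : K) := by
    by_contra hcon
    exact hb (hχ b hcon)
  have h2 : z = (a : K) * (b : K)⁻¹ := by
    rw [← hzb, mul_assoc, mul_inv_cancel₀ hbU.1, mul_one]
  rw [h2]
  have h3 := (atP (mrees B J e) q).mul' (hC a.2) hbU.2.2
  rwa [neg_zero, add_zero] at h3

end Pool.Agent.MP_b525bf_ag_TS
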