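import Pool.Agent.Lib.MP_b525bf_ag_TS.TorFam
import Pool.Agent.Lib.MP_b525bf_ag_TS.DescR

/-!
# V3b: adding variables, and logarithmic differentials of functions with independent exponents
-/

set_option autoImplicit false

namespace Pool.Agent.MP_b525bf_ag_TS

open Pool.Agent.MP_b525bf_ag Pool.Agent.MP_b525bf_ag_W Pool.Agent.MP_b525bf_ag_P AddMonoidAlgebra

section Log

variable {k K : Type} [Field k] [Field K] [Algebra k K]

/-- The logarithmic derivative. -/
noncomputable def ld (D : Derivation k K K) (x : K) : K := x⁻¹ * D x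

theorem ld_mul (D : Derivation k K K) {x y : K} (hx : x ≠ 0) (hy : y ≠ 0) :
    ld D (x * y) = ld D x + ld D y := by
  simp only [ld, Derivation.leibniz, smul_eq_mul]
  field_simp
  ring

theorem ld_zpow (D : Derivation k K K) {x : K} (hx : x ≠ 0) (n : ℤ) :
    ld D (x ^ n) = (n : K) * ld D x := by
  simp only [ld]
  rw [Derivation.leibniz_zpow, zsmul_eq_mul, smul_eq_mul, zpow_sub_one₀ hx]
  have := zpow_ne_zero n hx
  field_simp

theorem ld_one (D : Derivation k K K) : ld D 1 = 0 := by
  simp [ld]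

theorem ld_prod (D : Derivation k K K) {E : Type} (s : Finset E) {x : E → K}
    (hx : ∀ i, x i ≠ 0) : ld D (∏ i ∈ s, x i) = ∑ i ∈ s, ld D (x i) := by
  classical
  induction s using Finset.induction_on with
  | empty => rw [Finset.prod_empty, Finset.sum_empty, ld_one]
  | insert i s his ih =>
    rw [Finset.prod_insert his, Finset.sum_insert his,
      ld_mul D (hx i) (Finset.prod_ne_zero_iff.2 fun j _ => hx j), ih]

/-- Linearly independent rows are rows of an invertible matrix. -/
theorem exists_invertible_ext {k : Type} [Field k] {s m : ℕ} (A : Fin s → Fin m → k)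
    (hA : LinearIndependent k A) :
    ∃ (P Q : Matrix (Fin m) (Fin m) k) (js : Fin s → Fin m), Function.Injective js ∧
      (∀ j l, P (js j) l = A j l) ∧ P * Q = 1 := by
  classical
  let b := Module.Basis.extend hA.linearIndepOn_id
  have hfin : Finite (hA.linearIndepOn_id.extend (Set.subset_univ (Set.range A))) :=
    Module.Finite.finite_basis b
  let _ := Fintype.ofFinite (hA.linearIndepOn_id.extend (Set.subset_univ (Set.range A)))
  have hcard : Fintype.card (hA.linearIndepOn_id.extend (Set.subset_univ (Set.range A))) = m := by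
    rw [← Module.finrank_eq_card_basis b, Module.finrank_fin_fun]
  let e : (hA.linearIndepOn_id.extend (Set.subset_univ (Set.range A))) ≃ Fin m :=
    Fintype.equivFinOfCardEq hcard
  let b' := b.reindex e
  let P : Matrix (Fin m) (Fin m) k := Matrix.of fun j l => b' j l
  have hP : IsUnit P := by
    rw [← Matrix.linearIndependent_rows_iff_isUnit]
    exact b'.linearIndependent
  obtain ⟨u, hu⟩ := hP
  have hmem : ∀ j, A j ∈ hA.linearIndepOn_id.extend (Set.subset_univ (Set.range A)) := fun j =>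
    hA.linearIndepOn_id.subset_extend _ ⟨j, rfl⟩
  refine ⟨P, ((u⁻¹ : (Matrix (Fin m) (Fin m) k)ˣ) : Matrix (Fin m) (Fin m) k),
    fun j => e ⟨A j, hmem j⟩, ?_, ?_, ?_⟩
  · intro i j h
    exact hA.injective (congrArg Subtype.val (e.injective h))
  · intro j l
    change b' (e ⟨A j, hmem j⟩) l = A j l
    rw [Module.Basis.reindex_apply, Equiv.symm_apply_apply, Module.Basis.extend_apply_self]
  · rw [← hu, Units.mul_inv]

end Log

section

variable {k K K₁ ι₁ I : Type} [Field k] [Field K] [Algebra k K] [Field K₁] [Algebra k K₁]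
  [AddCommGroup ι₁] {m : ℕ}

/-- The logarithmic structure after adding variables. -/
theorem ld_torus (α₁ : K₁ →ₐ[k] K) (α₂ : KK k (Fin m) →ₐ[k] K)
    (hα : Function.Injective (Algebra.TensorProduct.lift α₁ α₂ fun _ _ => Commute.all _ _))
    (hfrac : ∀ z : K, ∃ a ∈ α₁.range ⊔ α₂.range, ∃ b ∈ α₁.range ⊔ α₂.range, b ≠ 0 ∧ z * b = a)
    {M₁ : Fam k K₁ ι₁} (q : Ideal (prodFam α₁ α₂ M₁ (torFam k m)).alg) [q.IsPrime]
    {N : ℕ} {l₁ g₁ : I → K₁} {c₁ : I → ι₁}
    (h₁ : LD M₁ (qL α₁ α₂ q) N (fun i => lform (l₁ i) (g₁ i)) c₁)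
    {s : ℕ} (A : Fin s → Fin m → ℤ) (hA : LinearIndependent k fun j l => (A j l : k))
    (b : Fin s → K₁) (hb : ∀ j, ∃ e, IsU (atP M₁ (qL α₁ α₂ q)) e (b j)) :
    LD (prodFam α₁ α₂ M₁ (torFam k m)) q (N + m) (Sum.elim
      (fun i => lform (α₁ (l₁ i)) (α₁ (g₁ i)))
      (fun j : Fin s => lform ((∏ l, α₂ (tv k m l) ^ A j l) * α₁ (b j))⁻¹
        ((∏ l, α₂ (tv k m l) ^ A j l) * α₁ (b j))))
      (Sum.elim (fun i => (c₁ i, 0)) fun _ => 0) := by
  classical
  obtain ⟨δ₁, y₁, d₁, a1, a2, a3, a4, a5, a6⟩ := h₁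
  obtain ⟨P, Q, js, hjs, hPA, hPQ⟩ := exists_invertible_ext _ hA
  set T : Fin m → K := fun l => α₂ (tv k m l) with hT
  have hT0 : ∀ l, T l ≠ 0 := fun l => (map_ne_zero α₂).2 (tv_ne k m l)
  have hb0 : ∀ j, α₁ (b j) ≠ 0 := fun j => (map_ne_zero α₁).2 (hb j).choose_spec.1
  choose τ hτ1 hτ2 using fun l => exists_tder k m l
  choose E₁ e11 e12 using fun l => exists_derivation α₁ α₂ hα hfrac (δ₁ l) 0
  choose E₂ e21 e22 using fun l => exists_derivation α₁ α₂ hα hfrac 0 (τ l)
  have e12' : ∀ l z, E₁ l (α₂ z) = 0 := fun l z => by rw [e12, Derivation.zero_apply, map_zero]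
  have e21' : ∀ l z, E₂ l (α₁ z) = 0 := fun l z => by rw [e21, Derivation.zero_apply, map_zero]
  -- the new derivations
  set F₂ : Fin m → Derivation k K K := fun j => ∑ l, algebraMap k K (Q l j) • E₂ l with hF₂
  have f21 : ∀ j z, F₂ j (α₁ z) = 0 := by
    intro j z
    simp only [hF₂, derivation_sum_apply, Derivation.smul_apply, e21', smul_zero,
      Finset.sum_const_zero]
  have f22 : ∀ j l, F₂ j (T l) = algebraMap k K (Q l j) * T l := by
    intro j l
    simp only [hF₂, derivation_sum_apply, Derivation.smul_apply, smul_eq_mul]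
    rw [Finset.sum_eq_single l]
    · rw [hT]
      simp only
      rw [e22, hτ1, if_pos rfl]
    · intro l' _ hl'
      rw [hT]
      simp only
      rw [e22, hτ1, if_neg (Ne.symm hl'), map_zero, mul_zero]
    · intro h; exact absurd (Finset.mem_univ _) h
  set w : Fin s → Fin N → K := fun j l => ld (E₁ l) (α₁ (b j)) with hw
  set F₁ : Fin N → Derivation k K K := fun l => E₁ l - ∑ j, w j l • F₂ (js j) with hF₁
  have f11 : ∀ l z, F₁ l (α₁ z) = α₁ (δ₁ l z) := by
    intro l z
    simp only [hF₁, Derivation.sub_apply, derivation_sum_apply, Derivation.smul_apply, f21,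
      smul_zero, Finset.sum_const_zero, sub_zero, e11]
  have hF₁T : ∀ l l', F₁ l (T l') = - ∑ j, w j l * (algebraMap k K (Q l' (js j)) * T l') := by
    intro l l'
    simp only [hF₁, Derivation.sub_apply, derivation_sum_apply, Derivation.smul_apply, f22,
      smul_eq_mul]
    rw [hT]
    simp only
    rw [e12', zero_sub]
  -- degrees
  have hA0 : ∀ x ∈ (atP M₁ (qL α₁ α₂ q)).s 0, α₁ x ∈ (atP (prodFam α₁ α₂ M₁ (torFam k m)) q).s 0 := fun x hx =>
    ProdStage.mem_left α₁ α₂ q hx
  have hwdeg : ∀ j l, w j l ∈ (atP (prodFam α₁ α₂ M₁ (torFam k m)) q).s 0 := by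
    intro j l
    obtain ⟨e, he⟩ := hb j
    have h1 : w j l = α₁ ((b j)⁻¹ * δ₁ l (b j)) := by
      rw [hw]
      simp only [ld]
      rw [e11, map_mul, map_inv₀]
    rw [h1]
    refine hA0 _ ?_
    have h2 := (atP M₁ (qL α₁ α₂ q)).mul' he.2.2 (a1 l _ _ he.2.1)
    rwa [neg_add_cancel] at h2
  have hk : ∀ c : k, algebraMap k K c ∈ (atP (prodFam α₁ α₂ M₁ (torFam k m)) q).s 0 := fun c => by
    rw [Algebra.algebraMap_eq_smul_one]
    exact Submodule.smul_mem _ _ (atP (prodFam α₁ α₂ M₁ (torFam k m)) q).one'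
  have hTU : ∀ l, IsU (atP (prodFam α₁ α₂ M₁ (torFam k m)) q) ((0, uvec l) : ι₁ × (Fin m → ℤ)) (T l) := fun l =>
    ProdStage.isU_right α₁ α₂ q (isU_tv k m _ l)
  have pE₂ : ∀ l, Pres (prodFam α₁ α₂ M₁ (torFam k m)) q (E₂ l) := fun l =>
    ProdStage.pres_prod α₁ α₂ q (e21 l) (e22 l) ProdStage.pres_zero (hτ2 l _)
  have pE₁ : ∀ l, Pres (prodFam α₁ α₂ M₁ (torFam k m)) q (E₁ l) := fun l =>
    ProdStage.pres_prod α₁ α₂ q (e11 l) (e12 l) (a1 l) ProdStage.pres_zero
  have pF₂ : ∀ j, Pres (prodFam α₁ α₂ M₁ (torFam k m)) q (F₂ j) := by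
    intro j d z hz
    simp only [hF₂, derivation_sum_apply, Derivation.smul_apply, smul_eq_mul]
    refine Submodule.sum_mem _ fun l _ => ?_
    have h2 := (atP (prodFam α₁ α₂ M₁ (torFam k m)) q).mul' (hk (Q l j)) (pE₂ l _ _ hz)
    rwa [zero_add] at h2
  have pF₁ : ∀ l, Pres (prodFam α₁ α₂ M₁ (torFam k m)) q (F₁ l) := by
    intro l d z hz
    simp only [hF₁, Derivation.sub_apply, derivation_sum_apply, Derivation.smul_apply,
      smul_eq_mul]
    refine Submodule.sub_mem _ (pE₁ l _ _ hz) (Submodule.sum_mem _ fun j _ => ?_)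
    have h2 := (atP (prodFam α₁ α₂ M₁ (torFam k m)) q).mul' (hwdeg j l) (pF₂ (js j) _ _ hz)
    rwa [zero_add] at h2
  -- the new forms
  set φ : Fin s → K := fun j => (∏ l, T l ^ A j l) * α₁ (b j) with hφ
  have hη : ∀ j (D : Derivation k K K), lform (k := k) (φ j)⁻¹ (φ j) D =
      ∑ l, (A j l : K) * ld D (T l) + ld D (α₁ (b j)) := by
    intro j D
    change ld D (φ j) = _
    rw [hφ]
    simp only
    rw [ld_mul D (Finset.prod_ne_zero_iff.2 fun l _ => zpow_ne_zero _ (hT0 l)) (hb0 j),
      ld_prod D _ fun l => zpow_ne_zero _ (hT0 l)]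
    congr 1
    exact Finset.sum_congr rfl fun l _ => ld_zpow D (hT0 l) _
  have hη2 : ∀ j j', lform (k := k) (φ j)⁻¹ (φ j) (F₂ j') = if js j = j' then 1 else 0 := by
    intro j j'
    rw [hη]
    have h1 : ld (F₂ j') (α₁ (b j)) = 0 := by rw [ld, f21, mul_zero]
    have h2 : ∀ l, ld (F₂ j') (T l) = algebraMap k K (Q l j') := by
      intro l
      rw [ld, f22]
      have := hT0 l
      field_simp
    rw [h1, add_zero]
    simp only [h2]
    have h3 : ∑ l, (A j l : K) * algebraMap k K (Q l j') =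
        algebraMap k K ((P * Q) (js j) j') := by
      rw [Matrix.mul_apply, map_sum]
      refine Finset.sum_congr rfl fun l _ => ?_
      rw [map_mul, hPA, map_intCast]
    rw [h3, hPQ, Matrix.one_apply]
    split_ifs <;> simp
  have hη1 : ∀ j l, lform (k := k) (φ j)⁻¹ (φ j) (F₁ l) = 0 := by
    intro j l
    have h1 : lform (k := k) (φ j)⁻¹ (φ j) (F₁ l) =
        lform (k := k) (φ j)⁻¹ (φ j) (E₁ l) -
          ∑ j', w j' l * lform (k := k) (φ j)⁻¹ (φ j) (F₂ (js j')) := by
      rw [hF₁]
      simp only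
      rw [map_sub, map_sum]
      simp only [map_smul, smul_eq_mul]
    rw [h1]
    simp only [hη2]
    rw [hη]
    have h2 : ∀ l', ld (E₁ l) (T l') = 0 := by
      intro l'
      rw [ld, hT]
      simp only
      rw [e12', mul_zero]
    simp only [h2, mul_zero, Finset.sum_const_zero, zero_add]
    rw [Finset.sum_eq_single j]
    · rw [if_pos rfl, mul_one, sub_self]
    · intro j' _ hj'
      rw [if_neg fun h => hj' (hjs h).symm, mul_zero]
    · intro h; exact absurd (Finset.mem_univ _) h
  refine ⟨Fin.append F₁ F₂, Fin.append (fun l => α₁ (y₁ l)) T,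
    Fin.append (fun l => (d₁ l, 0)) (fun l => (0, uvec l)), ?_, ?_, ?_, ?_, ?_, ?_⟩
  · refine Fin.addCases (fun l => ?_) (fun l => ?_)
    · rw [Fin.append_left]; exact pF₁ l
    · rw [Fin.append_right]; exact pF₂ l
  · refine Fin.addCases (fun l => ?_) (fun l => ?_)
    · rw [Fin.append_left, Fin.append_left]
      exact ProdStage.mem_left α₁ α₂ q (a2 l)
    · rw [Fin.append_right, Fin.append_right]
      exact (hTU l).2.1
  · -- the determinant
    have hs : ∑ l, Fin.append (fun l => ((d₁ l, 0) : ι₁ × (Fin m → ℤ)))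
        (fun l => (0, uvec l)) l = (∑ l, d₁ l, 0) + ∑ l, (0, uvec l) := by
      rw [Fin.sum_univ_add]
      simp only [Fin.append_left, Fin.append_right]
      rw [ProdStage.sum_fst_zero]
    have hdet : (Matrix.of fun l m' => (Fin.append F₁ F₂) l
        ((Fin.append (fun l => α₁ (y₁ l)) T) m')).det =
        α₁ (Matrix.of fun l m' => δ₁ l (y₁ m')).det *
          (algebraMap k K Q.det * ∏ l, T l) := by
      rw [← Matrix.det_submatrix_equiv_self finSumFinEquiv]
      have h : (Matrix.of fun l m' => (Fin.append F₁ F₂) l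
          ((Fin.append (fun l => α₁ (y₁ l)) T) m')).submatrix finSumFinEquiv finSumFinEquiv =
          Matrix.fromBlocks (α₁.toRingHom.mapMatrix (Matrix.of fun l m' => δ₁ l (y₁ m')))
            (Matrix.of fun l l' => F₁ l (T l')) 0
            (Matrix.of fun j l => T l * (algebraMap k K).mapMatrix Q.transpose j l) := by
        refine Matrix.ext fun i j => ?_
        rcases i with i | i <;> rcases j with j | j
        · simp only [Matrix.submatrix_apply, finSumFinEquiv_apply_left, Matrix.of_apply,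
            Fin.append_left, Matrix.fromBlocks_apply₁₁]
          rw [f11]
          rfl
        · simp only [Matrix.submatrix_apply, finSumFinEquiv_apply_left,
            finSumFinEquiv_apply_right, Matrix.of_apply, Fin.append_left, Fin.append_right,
            Matrix.fromBlocks_apply₁₂]
        · simp only [Matrix.submatrix_apply, finSumFinEquiv_apply_left,
            finSumFinEquiv_apply_right, Matrix.of_apply, Fin.append_left, Fin.append_right,
            Matrix.fromBlocks_apply₂₁, Matrix.zero_apply]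
          exact f21 _ _
        · simp only [Matrix.submatrix_apply,
            finSumFinEquiv_apply_right, Matrix.of_apply, Fin.append_right,
            Matrix.fromBlocks_apply₂₂]
          rw [f22, mul_comm]
          rfl
      rw [h, Matrix.det_fromBlocks_zero₂₁, Matrix.det_mul_row, ← RingHom.map_det,
        ← RingHom.map_det, Matrix.det_transpose, mul_comm (∏ l, T l)]
      rfl
    rw [hdet, hs]
    have hQ : Q.det ≠ 0 := by
      intro h0
      have h1 := congrArg Matrix.det hPQ
      rw [Matrix.det_mul, h0, mul_zero, Matrix.det_one] at h1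
      exact zero_ne_one h1
    have u1 : IsU (atP (prodFam α₁ α₂ M₁ (torFam k m)) q) ((∑ l, d₁ l, 0) : ι₁ × (Fin m → ℤ))
        (α₁ (Matrix.of fun l m' => δ₁ l (y₁ m')).det) := ProdStage.isU_left α₁ α₂ q a3
    have u2 : IsU (atP (prodFam α₁ α₂ M₁ (torFam k m)) q) (∑ l : Fin m, ((0, uvec l) : ι₁ × (Fin m → ℤ))) (∏ l, T l) :=
      isU_prod Finset.univ fun l _ => hTU l
    have u3 : IsU (atP (prodFam α₁ α₂ M₁ (torFam k m)) q) (0 : ι₁ × (Fin m → ℤ)) (algebraMap k K Q.det) :=
      ⟨(map_ne_zero_iff _ (algebraMap k K).injective).2 hQ, hk _, by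
        rw [neg_zero, ← map_inv₀]; exact hk _⟩
    have u4 := u1.mul (u3.mul u2)
    rwa [zero_add] at u4
  · rintro (i | j)
    · refine Fin.addCases (fun l => ?_) (fun l => ?_)
      · rw [Fin.append_left]
        change α₁ (l₁ i) * F₁ l (α₁ (g₁ i)) ∈ (atP (prodFam α₁ α₂ M₁ (torFam k m)) q).s (c₁ i, 0)
        rw [f11, ← map_mul]
        exact ProdStage.mem_left α₁ α₂ q (a4 i l)
      · rw [Fin.append_right]
        change α₁ (l₁ i) * F₂ l (α₁ (g₁ i)) ∈ (atP (prodFam α₁ α₂ M₁ (torFam k m)) q).s (c₁ i, 0)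
        rw [f21, mul_zero]
        exact Submodule.zero_mem _
    · refine Fin.addCases (fun l => ?_) (fun l => ?_)
      · rw [Fin.append_left]
        change lform (k := k) (φ j)⁻¹ (φ j) (F₁ l) ∈ (atP (prodFam α₁ α₂ M₁ (torFam k m)) q).s 0
        rw [hη1]
        exact Submodule.zero_mem _
      · rw [Fin.append_right]
        change lform (k := k) (φ j)⁻¹ (φ j) (F₂ l) ∈ (atP (prodFam α₁ α₂ M₁ (torFam k m)) q).s 0
        rw [hη2]
        split_ifs
        · exact (atP (prodFam α₁ α₂ M₁ (torFam k m)) q).one'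
        · exact Submodule.zero_mem _
  · rintro (i | j)
    · rcases a5 i with h | ⟨l, h⟩
      · left
        exact ProdStage.lform_map_eq_zero α₁ h
      · right
        refine ⟨Fin.castAdd m l, ?_⟩
        rw [Fin.append_left]
        change IsU (atP (prodFam α₁ α₂ M₁ (torFam k m)) q) (c₁ i, 0) (α₁ (l₁ i) * F₁ l (α₁ (g₁ i)))
        rw [f11, ← map_mul]
        exact ProdStage.isU_left α₁ α₂ q h
    · right
      refine ⟨Fin.natAdd N (js j), ?_⟩
      rw [Fin.append_right]
      change IsU (atP (prodFam α₁ α₂ M₁ (torFam k m)) q) 0 (lform (k := k) (φ j)⁻¹ (φ j) (F₂ (js j)))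
      rw [hη2, if_pos rfl]
      exact isU_one _
  · refine Fin.addCases (fun l => ?_) (fun l => ?_)
    · rintro (i | j) (i' | j') hne
      · rw [Fin.append_left]
        rcases a6 l i i' (fun h => hne (congrArg Sum.inl h)) with h | h
        · left
          change α₁ (l₁ i) * F₁ l (α₁ (g₁ i)) = 0
          rw [f11, ← map_mul]
          change l₁ i * δ₁ l (g₁ i) = 0 at h
          rw [h, map_zero]
        · right
          change α₁ (l₁ i') * F₁ l (α₁ (g₁ i')) = 0
          rw [f11, ← map_mul]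
          change l₁ i' * δ₁ l (g₁ i') = 0 at h
          rw [h, map_zero]
      · right
        rw [Fin.append_left]
        exact hη1 j' l
      · left
        rw [Fin.append_left]
        exact hη1 j l
      · left
        rw [Fin.append_left]
        exact hη1 j l
    · rintro (i | j) (i' | j') hne
      · left
        rw [Fin.append_right]
        change α₁ (l₁ i) * F₂ l (α₁ (g₁ i)) = 0
        rw [f21, mul_zero]
      · left
        rw [Fin.append_right]
        change α₁ (l₁ i) * F₂ l (α₁ (g₁ i)) = 0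
        rw [f21, mul_zero]
      · right
        rw [Fin.append_right]
        change α₁ (l₁ i') * F₂ l (α₁ (g₁ i')) = 0
        rw [f21, mul_zero]
      · rw [Fin.append_right]
        by_cases h : js j = l
        · right
          change lform (k := k) (φ j')⁻¹ (φ j') (F₂ l) = 0
          rw [hη2, if_neg]
          intro h'
          exact hne (congrArg Sum.inr (hjs (h.trans h'.symm)))
        · left
          change lform (k := k) (φ j)⁻¹ (φ j) (F₂ l) = 0
          rw [hη2, if_neg h]

end

end Pool.Agent.MP_b525bf_ag_TS
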