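import Pool.Agent.Lib.MP_b525bf_ag_P.Defs
import Pool.Agent.Lib.MP_b525bf_ag_W.Chart_aux

/-!
# Theorem TS, auxiliary file for B6: twisted Laurent polynomial rings

The family with pieces `g ^ d C` for a subalgebra `C` and nonzero elements `g i`; smoothness over
the polynomial ring in sections `1` whose degrees are part of a basis.
-/

set_option autoImplicit false

namespace Pool.Agent.MP_b525bf_ag_TS

open Pool.Agent.MP_b525bf_ag Pool.Agent.MP_b525bf_ag_W Pool.Agent.MP_b525bf_ag_P AddMonoidAlgebra

/-! ### Lifting form of formal smoothness -/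

section Lift

variable {R A : Type} [CommRing R] [CommRing A]

theorem exists_lift_of_formallySmooth {φ : R →+* A} (hφ : φ.FormallySmooth) {B : Type}
    [CommRing B] {I : Ideal B} (hI : I ^ 2 = ⊥) (α : R →+* B) (f : A →+* B ⧸ I)
    (h : f.comp φ = (Ideal.Quotient.mk I).comp α) :
    ∃ ψ : A →+* B, ψ.comp φ = α ∧ (Ideal.Quotient.mk I).comp ψ = f := by
  let := φ.toAlgebra
  let := α.toAlgebra
  have : Algebra.FormallySmooth R A := hφ
  let f' : A →ₐ[R] B ⧸ I := { f with commutes' := fun r => RingHom.congr_fun h r }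
  obtain ⟨ψ, hψ⟩ := Algebra.FormallySmooth.comp_surjective R A I hI f'
  refine ⟨ψ.toRingHom, ?_, ?_⟩
  · ext r
    exact ψ.commutes r
  · ext a
    exact AlgHom.congr_fun hψ a

theorem formallySmooth_of_exists_lift {φ : R →+* A}
    (H : ∀ (B : Type) [CommRing B] (I : Ideal B), I ^ 2 = ⊥ → ∀ (α : R →+* B) (f : A →+* B ⧸ I),
      f.comp φ = (Ideal.Quotient.mk I).comp α →
      ∃ ψ : A →+* B, ψ.comp φ = α ∧ (Ideal.Quotient.mk I).comp ψ = f) : φ.FormallySmooth := by
  let := φ.toAlgebra
  change Algebra.FormallySmooth R A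
  refine Algebra.FormallySmooth.of_comp_surjective fun B _ _ I hI f => ?_
  obtain ⟨ψ, h1, h2⟩ := H B I hI (algebraMap R B) f.toRingHom (by
    ext r
    exact f.commutes r)
  refine ⟨{ ψ with commutes' := fun r => RingHom.congr_fun h1 r }, ?_⟩
  ext a
  exact RingHom.congr_fun h2 a

/-- Adding variables. -/
theorem formallySmooth_rename {k S S' : Type} [Field k] (τ : S → S') (hτ : Function.Injective τ) :
    (MvPolynomial.rename τ : MvPolynomial S k →ₐ[k] MvPolynomial S' k).toRingHom.FormallySmooth := by
  classical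
  refine formallySmooth_of_exists_lift fun B _ I hI α f h => ?_
  have hs : ∀ i : S', ∃ s : B, Ideal.Quotient.mk I s = f (MvPolynomial.X i) :=
    fun i => Ideal.Quotient.mk_surjective _
  choose s hs using hs
  have hX : ∀ j : S, f (MvPolynomial.X (τ j)) = Ideal.Quotient.mk I (α (MvPolynomial.X j)) := by
    intro j
    have := RingHom.congr_fun h (MvPolynomial.X j)
    simpa using this
  have hC : ∀ c : k, f (MvPolynomial.C c) = Ideal.Quotient.mk I (α (MvPolynomial.C c)) := by
    intro c
    have := RingHom.congr_fun h (MvPolynomial.C c)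
    simpa using this
  let ψ : MvPolynomial S' k →+* B := MvPolynomial.eval₂Hom (α.comp MvPolynomial.C)
    (fun i => if hi : ∃ j, τ j = i then α (MvPolynomial.X hi.choose) else s i)
  have hψX : ∀ j : S, ψ (MvPolynomial.X (τ j)) = α (MvPolynomial.X j) := by
    intro j
    have hi : ∃ j', τ j' = τ j := ⟨j, rfl⟩
    have h1 : ψ (MvPolynomial.X (τ j)) = α (MvPolynomial.X hi.choose) := by
      simp only [ψ, MvPolynomial.coe_eval₂Hom, MvPolynomial.eval₂_X]
      rw [dif_pos hi]
    rw [h1, hτ hi.choose_spec]
  refine ⟨ψ, ?_, ?_⟩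
  · refine MvPolynomial.ringHom_ext (fun c => ?_) fun j => ?_
    · simp [ψ]
    · simpa using hψX j
  · refine MvPolynomial.ringHom_ext (fun c => ?_) fun i => ?_
    · rw [hC]
      simp [ψ]
    · by_cases hi : ∃ j, τ j = i
      · obtain ⟨j, rfl⟩ := hi
        rw [RingHom.comp_apply, hψX, hX]
      · rw [RingHom.comp_apply, ← hs]
        simp only [ψ, MvPolynomial.coe_eval₂Hom, MvPolynomial.eval₂_X]
        rw [dif_neg hi]

end Lift

/-! ### Twisted Laurent polynomials -/

section Twist

variable {k K E : Type} [Field k] [Field K] [Algebra k K] [Fintype E]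

/-- The monomial with exponents `d`. -/
noncomputable def mon (g : E → K) (d : E → ℤ) : K := ∏ i, g i ^ d i

variable {g : E → K} (hg : ∀ i, g i ≠ 0)

include hg in
theorem mon_ne (d : E → ℤ) : mon g d ≠ 0 :=
  Finset.prod_ne_zero_iff.2 fun i _ => zpow_ne_zero _ (hg i)

theorem mon_zero (g : E → K) : mon g 0 = 1 := by simp [mon]

include hg in
theorem mon_add (d d' : E → ℤ) : mon g (d + d') = mon g d * mon g d' := by
  rw [mon, mon, mon, ← Finset.prod_mul_distrib]
  exact Finset.prod_congr rfl fun i _ => zpow_add₀ (hg i) _ _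

theorem mon_neg (g : E → K) (d : E → ℤ) : mon g (-d) = (mon g d)⁻¹ := by
  rw [mon, mon, ← Finset.prod_inv_distrib]
  exact Finset.prod_congr rfl fun i _ => zpow_neg _ _

/-- The family with pieces `g ^ d C`. -/
noncomputable def twist (C : Subalgebra k K) (g : E → K) (hg : ∀ i, g i ≠ 0) :
    Fam k K (E → ℤ) where
  s d :=
    { carrier := {z | z / mon g d ∈ C}
      add_mem' := by
        intro x y hx hy
        change (x + y) / mon g d ∈ C
        rw [add_div]
        exact C.add_mem hx hy
      zero_mem' := by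
        change 0 / mon g d ∈ C
        rw [zero_div]
        exact C.zero_mem
      smul_mem' := by
        intro c x hx
        change (c • x) / mon g d ∈ C
        rw [smul_div_assoc]
        exact C.smul_mem hx c }
  one' := by
    change 1 / mon g 0 ∈ C
    rw [mon_zero, div_one]
    exact C.one_mem
  mul' := by
    intro a b x y hx hy
    change (x * y) / mon g (a + b) ∈ C
    rw [mon_add hg, mul_div_mul_comm]
    exact C.mul_mem hx hy

theorem mem_twist {C : Subalgebra k K} {d : E → ℤ} {z : K} :
    z ∈ (twist C g hg).s d ↔ z / mon g d ∈ C := Iff.rfl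

/-- The homomorphism from the Laurent polynomial ring. -/
noncomputable def twHom (C : Subalgebra k K) (g : E → K) (hg : ∀ i, g i ≠ 0) :
    AddMonoidAlgebra C (E → ℤ) →ₐ[C] AddMonoidAlgebra K (E → ℤ) :=
  AddMonoidAlgebra.lift C (AddMonoidAlgebra K (E → ℤ)) (E → ℤ)
    { toFun := fun d => single d.toAdd (mon g d.toAdd)
      map_one' := by
        change single 0 (mon g 0) = 1
        rw [mon_zero]
        rfl
      map_mul' := fun d d' => by
        rw [single_mul_single, toAdd_mul, mon_add hg] }

theorem twHom_single (C : Subalgebra k K) (d : E → ℤ) (c : C) :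
    twHom C g hg (single d c) = single d ((c : K) * mon g d) := by
  rw [twHom, AddMonoidAlgebra.lift_single]
  change c • single d (mon g d) = _
  rw [smul_single]
  rfl

theorem twHom_coeff (C : Subalgebra k K) (F : AddMonoidAlgebra C (E → ℤ)) (d : E → ℤ) :
    (twHom C g hg F).coeff d = (F.coeff d : K) * mon g d := by
  classical
  induction F using AddMonoidAlgebra.induction_linear with
  | zero => simp
  | add F G hF hG => rw [map_add, AddMonoidAlgebra.coeff_add, Finsupp.add_apply, hF, hG,
      AddMonoidAlgebra.coeff_add, Finsupp.add_apply]; push_cast; ring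
  | single e c =>
    rw [twHom_single, AddMonoidAlgebra.coeff_single, AddMonoidAlgebra.coeff_single,
      Finsupp.single_apply, Finsupp.single_apply]
    split_ifs with h
    · rw [h]
    · simp

theorem twHom_injective (C : Subalgebra k K) : Function.Injective (twHom C g hg) := by
  intro F G h
  refine AddMonoidAlgebra.ext (Finsupp.ext fun d => ?_)
  have h1 := congrArg (fun H : AddMonoidAlgebra K (E → ℤ) => H.coeff d) h
  simp only [twHom_coeff] at h1
  exact Subtype.ext (mul_right_cancel₀ (mon_ne hg d) h1)

theorem twHom_mem (C : Subalgebra k K) (F : AddMonoidAlgebra C (E → ℤ)) :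
    twHom C g hg F ∈ (twist C g hg).alg := by
  intro d
  rw [mem_twist, twHom_coeff, mul_div_cancel_right₀ _ (mon_ne hg d)]
  exact (F.coeff d).2

theorem twHom_surjective (C : Subalgebra k K) {F : AddMonoidAlgebra K (E → ℤ)}
    (hF : F ∈ (twist C g hg).alg) : ∃ G, twHom C g hg G = F := by
  rw [Fam.eq_sum F]
  have : ∀ s : Finset (E → ℤ), ∃ G, twHom C g hg G = ∑ d ∈ s, single d (F.coeff d) := by
    classical
    intro s
    induction s using Finset.induction_on with
    | empty => exact ⟨0, by simp⟩
    | insert d s hd ih =>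
      obtain ⟨G, hG⟩ := ih
      refine ⟨single d ⟨F.coeff d / mon g d, hF d⟩ + G, ?_⟩
      rw [map_add, hG, twHom_single, Finset.sum_insert hd]
      congr 2
      exact div_mul_cancel₀ _ (mon_ne hg d)
  exact this _

/-- The isomorphism with the Laurent polynomial ring. -/
noncomputable def twEquiv (C : Subalgebra k K) (g : E → K) (hg : ∀ i, g i ≠ 0) :
    AddMonoidAlgebra C (E → ℤ) ≃ₐ[k] (twist C g hg).alg :=
  AlgEquiv.ofBijective
    (((twHom C g hg).restrictScalars k).codRestrict (twist C g hg).alg (twHom_mem hg C))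
    ⟨fun F G h => twHom_injective hg C (congrArg Subtype.val h),
      fun F => by
        obtain ⟨G, hG⟩ := twHom_surjective hg C F.2
        exact ⟨G, Subtype.ext hG⟩⟩

theorem coe_twEquiv_single (C : Subalgebra k K) (d : E → ℤ) (c : C) :
    (twEquiv C g hg (single d c) : AddMonoidAlgebra K (E → ℤ)) = single d ((c : K) * mon g d) :=
  twHom_single hg C d c

theorem twist_fg {C : Subalgebra k K} (hC : C.FG) : (twist C g hg).alg.FG := by
  rw [Subalgebra.fg_iff_finiteType] at hC ⊢
  have h1 : AddMonoid.FG (E → ℤ) :=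
    AddGroup.fg_iff_addMonoid_fg.1 (Module.Finite.iff_addGroup_fg.1 inferInstance)
  have h2 : Algebra.FiniteType C (AddMonoidAlgebra C (E → ℤ)) := inferInstance
  have h3 : Algebra.FiniteType k (AddMonoidAlgebra C (E → ℤ)) := Algebra.FiniteType.trans hC h2
  exact Algebra.FiniteType.equiv h3 (twEquiv C g hg)

theorem mon_mem (C : Subalgebra k K) (d : E → ℤ) : mon g d ∈ (twist C g hg).s d := by
  rw [mem_twist, div_self (mon_ne hg d)]
  exact C.one_mem

/-- Smoothness over the polynomial ring in the sections. -/
theorem twist_smooth {C : Subalgebra k K} (u : E → E → ℤ) (T : Set E)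
    (hsec : ∀ j, (1 : K) ∈ (twist C g hg).s (-(u j))) (ξ : T → C)
    (hξ : ∀ j : T, (ξ j : K) = mon g (u j))
    (hsm : (MvPolynomial.aeval ξ : MvPolynomial T k →ₐ[k] C).toRingHom.FormallySmooth) :
    (secMap (twist C g hg) u T hsec).toRingHom.FormallySmooth := by
  refine formallySmooth_of_exists_lift fun B _ I hI α f h => ?_
  -- the units
  let tel : Multiplicative (E → ℤ) →* (twist C g hg).alg :=
    { toFun := fun d => (twist C g hg).el (mon_mem hg C d.toAdd)
      map_one' := Subtype.ext (by
        change single 0 (mon g 0) = 1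
        rw [mon_zero]
        rfl)
      map_mul' := fun d d' => Subtype.ext (by
        change single (d.toAdd + d'.toAdd) (mon g (d.toAdd + d'.toAdd)) =
          single d.toAdd (mon g d.toAdd) * single d'.toAdd (mon g d'.toAdd)
        rw [single_mul_single, mon_add hg]) }
  obtain ⟨σ, hσ⟩ := Lft.free (E → ℤ) B I hI ((f : (twist C g hg).alg →* B ⧸ I).comp tel)
  -- the coefficients
  let inc : C →+* (twist C g hg).alg :=
    (twEquiv C g hg : AddMonoidAlgebra C (E → ℤ) →+* (twist C g hg).alg).comp
      (AddMonoidAlgebra.singleZeroRingHom : C →+* AddMonoidAlgebra C (E → ℤ))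
  have hinc : ∀ c : C, (inc c : AddMonoidAlgebra K (E → ℤ)) = single 0 (c : K) := by
    intro c
    have := coe_twEquiv_single hg C 0 c
    rw [mon_zero, mul_one] at this
    exact this
  let α' : MvPolynomial T k →+* B := MvPolynomial.eval₂Hom (α.comp MvPolynomial.C)
    (fun j => α (MvPolynomial.X j) * σ (Multiplicative.ofAdd (u j)))
  have hX : ∀ j : T, (Ideal.Quotient.mk I) (α (MvPolynomial.X j)) =
      f ((twist C g hg).el (hsec j)) := by
    intro j
    have := RingHom.congr_fun h (MvPolynomial.X j)
    simpa [secMap] using this.symm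
  have hC : ∀ c : k, (Ideal.Quotient.mk I) (α (MvPolynomial.C c)) = f (algebraMap k _ c) := by
    intro c
    have := RingHom.congr_fun h (MvPolynomial.C c)
    simpa [secMap] using this.symm
  obtain ⟨ψ', h1, h2⟩ := exists_lift_of_formallySmooth hsm hI α' (f.comp inc) (by
    refine MvPolynomial.ringHom_ext (fun c => ?_) fun j => ?_
    · have e1 : inc (algebraMap k C c) = algebraMap k _ c := Subtype.ext (by
        rw [hinc]; rfl)
      simp only [RingHom.comp_apply, AlgHom.toRingHom_eq_coe, RingHom.coe_coe,
        MvPolynomial.aeval_C, α', MvPolynomial.coe_eval₂Hom, MvPolynomial.eval₂_C]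
      rw [e1, hC]
    · have e1 : inc (ξ j) = (twist C g hg).el (hsec j) * tel (Multiplicative.ofAdd (u j)) :=
        Subtype.ext (by
          rw [hinc, hξ]
          change _ = single (-(u j)) 1 * single (u j) (mon g (u j))
          rw [single_mul_single, neg_add_cancel, one_mul])
      simp only [RingHom.comp_apply, AlgHom.toRingHom_eq_coe, RingHom.coe_coe,
        MvPolynomial.aeval_X, α', MvPolynomial.coe_eval₂Hom, MvPolynomial.eval₂_X, map_mul]
      rw [e1, map_mul, hX, hσ]
      rfl)
  -- the lift
  let ψ₀ : AddMonoidAlgebra C (E → ℤ) →+* B :=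
    AddMonoidAlgebra.liftNCRingHom ψ' σ fun _ _ => Commute.all _ _
  have hψ₀ : ∀ (d : E → ℤ) (c : C), ψ₀ (single d c) = ψ' c * σ (Multiplicative.ofAdd d) := by
    intro d c
    exact AddMonoidAlgebra.liftNC_single _ _ _ _
  let ψ : (twist C g hg).alg →+* B :=
    ψ₀.comp ((twEquiv C g hg).symm : (twist C g hg).alg →+* AddMonoidAlgebra C (E → ℤ))
  have hψ : ∀ F : AddMonoidAlgebra C (E → ℤ), ψ (twEquiv C g hg F) = ψ₀ F := by
    intro F
    change ψ₀ ((twEquiv C g hg).symm (twEquiv C g hg F)) = _
    rw [AlgEquiv.symm_apply_apply]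
  refine ⟨ψ, ?_, ?_⟩
  · refine MvPolynomial.ringHom_ext (fun c => ?_) fun j => ?_
    · have e1 : secMap (twist C g hg) u T hsec (MvPolynomial.C c) =
          twEquiv C g hg (single 0 (algebraMap k C c)) := Subtype.ext (by
        rw [coe_twEquiv_single, mon_zero, mul_one]
        rw [secMap, MvPolynomial.aeval_C]
        rfl)
      have e2 := RingHom.congr_fun h1 (MvPolynomial.C c)
      simp only [RingHom.comp_apply, AlgHom.toRingHom_eq_coe, RingHom.coe_coe,
        MvPolynomial.aeval_C, α', MvPolynomial.coe_eval₂Hom, MvPolynomial.eval₂_C] at e2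
      rw [RingHom.comp_apply, AlgHom.toRingHom_eq_coe, RingHom.coe_coe, e1, hψ, hψ₀, e2,
        ofAdd_zero, map_one, mul_one]
    · have e1 : secMap (twist C g hg) u T hsec (MvPolynomial.X j) =
          twEquiv C g hg (single (-(u j)) (ξ j)) := Subtype.ext (by
        rw [coe_twEquiv_single, hξ, ← mon_add hg, add_neg_cancel, mon_zero]
        rw [secMap, MvPolynomial.aeval_X]
        rfl)
      have e2 := RingHom.congr_fun h1 (MvPolynomial.X j)
      simp only [RingHom.comp_apply, AlgHom.toRingHom_eq_coe, RingHom.coe_coe,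
        MvPolynomial.aeval_X, α', MvPolynomial.coe_eval₂Hom, MvPolynomial.eval₂_X] at e2
      rw [RingHom.comp_apply, AlgHom.toRingHom_eq_coe, RingHom.coe_coe, e1, hψ, hψ₀, e2,
        mul_assoc, ← map_mul, ← ofAdd_add, add_neg_cancel, ofAdd_zero, map_one, mul_one]
  · have key : ((Ideal.Quotient.mk I).comp ψ₀) =
        f.comp (twEquiv C g hg : AddMonoidAlgebra C (E → ℤ) →+* (twist C g hg).alg) := by
      refine AddMonoidAlgebra.ringHom_ext (fun c => ?_) fun d => ?_
      · have e1 := RingHom.congr_fun h2 c
        rw [RingHom.comp_apply, hψ₀, ofAdd_zero, map_one, mul_one]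
        exact e1
      · rw [RingHom.comp_apply, hψ₀, map_one, one_mul, hσ]
        have e1 : tel (Multiplicative.ofAdd d) = twEquiv C g hg (single d 1) := Subtype.ext (by
          rw [coe_twEquiv_single]
          change single d (mon g d) = _
          rw [OneMemClass.coe_one, one_mul])
        change f (tel (Multiplicative.ofAdd d)) = _
        rw [e1]
        rfl
    ext F
    have := RingHom.congr_fun key ((twEquiv C g hg).symm F)
    change (Ideal.Quotient.mk I) (ψ₀ ((twEquiv C g hg).symm F)) = f F
    rw [RingHom.comp_apply] at this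
    rw [this]
    change f (twEquiv C g hg ((twEquiv C g hg).symm F)) = _
    rw [AlgEquiv.apply_symm_apply]

end Twist

end Pool.Agent.MP_b525bf_ag_TS
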